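import Pool.Agent.HK.Calc

/-!
# Test functions are dense in the Sobolev space
-/

open MeasureTheory Set Filter Topology
open scoped ENNReal NNReal InnerProductSpace

namespace Pool.Agent.HK.Approx

variable {E : Type} [NormedAddCommGroup E] [NormedSpace ℝ E] [FiniteDimensional ℝ E]

/-- A fixed bump function. -/
noncomputable def bmp (E : Type) [NormedAddCommGroup E] [NormedSpace ℝ E] :
    ContDiffBump (0 : E) := ⟨1, 2, one_pos, one_lt_two⟩

/-- The cut off at radius `n + 1`. -/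
noncomputable def cut (n : ℕ) (x : E) : ℝ := bmp E (((n : ℝ) + 1)⁻¹ • x)

theorem cut_contDiff (n : ℕ) : ContDiff ℝ (⊤ : ℕ∞) (cut (E := E) n) :=
  (bmp E).contDiff.comp (contDiff_const_smul _)

theorem cut_eq_one {n : ℕ} {x : E} (h : ‖x‖ ≤ n + 1) : cut n x = 1 := by
  apply (bmp E).one_of_mem_closedBall
  rw [mem_closedBall_zero_iff, norm_smul, norm_inv, Real.norm_of_nonneg (by positivity)]
  show ((n : ℝ) + 1)⁻¹ * ‖x‖ ≤ 1
  rw [inv_mul_le_iff₀ (by positivity)]
  linarith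

theorem cut_eq_zero {n : ℕ} {x : E} (h : 2 * ((n : ℝ) + 1) ≤ ‖x‖) : cut n x = 0 := by
  apply (bmp E).zero_of_le_dist
  rw [dist_zero_right, norm_smul, norm_inv, Real.norm_of_nonneg (by positivity)]
  show 2 ≤ ((n : ℝ) + 1)⁻¹ * ‖x‖
  rw [← div_eq_inv_mul, le_div_iff₀ (by positivity)]
  linarith

theorem cut_nonneg (n : ℕ) (x : E) : 0 ≤ cut n x := (bmp E).nonneg
theorem cut_le_one (n : ℕ) (x : E) : cut n x ≤ 1 := (bmp E).le_one

theorem fderiv_cut (n : ℕ) (x e : E) :
    fderiv ℝ (cut n) x e = ((n : ℝ) + 1)⁻¹ * fderiv ℝ (bmp E) (((n : ℝ) + 1)⁻¹ • x) e := by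
  have h1 : HasFDerivAt (bmp E) (fderiv ℝ (bmp E) (((n : ℝ) + 1)⁻¹ • x)) (((n : ℝ) + 1)⁻¹ • x) :=
    ((bmp E).contDiff (n := 1)).differentiable (by simp) _ |>.hasFDerivAt
  have h2 : HasFDerivAt (fun y : E => ((n : ℝ) + 1)⁻¹ • y)
      (((n : ℝ) + 1)⁻¹ • ContinuousLinearMap.id ℝ E) x := (hasFDerivAt_id x).const_smul _
  have h3 : HasFDerivAt (cut n) _ x := h1.comp x h2
  rw [h3.fderiv]
  simp

theorem exists_bound_fderiv (e : E) :
    ∃ C : ℝ≥0, ∀ (n : ℕ) (x : E), ‖fderiv ℝ (cut n) x e‖ ≤ C * ((n : ℝ) + 1)⁻¹ := by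
  have hb : IsTest (bmp E) := ⟨(bmp E).contDiff, (bmp E).hasCompactSupport⟩
  obtain ⟨C, hC⟩ := (hb.dir e).2.exists_bound_of_continuous (hb.dir e).continuous
  refine ⟨⟨max C 0, le_max_right _ _⟩, fun n x => ?_⟩
  rw [fderiv_cut, norm_mul, norm_inv, Real.norm_of_nonneg (show (0 : ℝ) ≤ n + 1 by positivity),
    mul_comm]
  gcongr
  exact (hC _).trans (le_max_left _ _)

variable [MeasureSpace E] [BorelSpace E] [(volume : Measure E).IsAddHaarMeasure]

theorem memLp_cut_mul {u : E → ℝ} (hu : MemLp u 2 volume) (n : ℕ) :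
    MemLp (fun x => cut n x * u x) 2 volume :=
  memLp_smul_of_bound (C := 1) (cut_contDiff n).continuous
    (fun x => by rw [abs_of_nonneg (cut_nonneg n x)]; exact cut_le_one n x) hu

theorem memLp_dcut_mul {u : E → ℝ} (hu : MemLp u 2 volume) (n : ℕ) (e : E) :
    MemLp (fun x => fderiv ℝ (cut n) x e * u x) 2 volume := by
  obtain ⟨C, hC⟩ := exists_bound_fderiv e
  exact memLp_smul_of_bound (C := C * ((n : ℝ) + 1)⁻¹)
    (contDiff_fderiv_apply (cut_contDiff n) e).continuous (fun x => hC n x) hu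

/-- The cut off converges in `L²`. -/
theorem tendsto_cut {u : E → ℝ} (hu : MemLp u 2 volume) :
    Tendsto (fun n => eLpNorm (fun x => u x - cut n x * u x) 2 volume) atTop (𝓝 0) := by
  have h2 : (2 : ℝ≥0∞) ≠ 0 := by norm_num
  have h2' : (2 : ℝ≥0∞) ≠ ⊤ := by norm_num
  have hfin := (eLpNorm_lt_top_iff_lintegral_rpow_enorm_lt_top h2 h2').1 hu.2
  have key : Tendsto (fun n => ∫⁻ x, ‖u x - cut n x * u x‖ₑ ^ (2 : ℝ≥0∞).toReal) atTop (𝓝 0) := by
    have h := tendsto_lintegral_of_dominated_convergence' (μ := (volume : Measure E))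
      (F := fun n x => ‖u x - cut n x * u x‖ₑ ^ (2 : ℝ≥0∞).toReal) (f := fun _ => 0)
      (fun x => ‖u x‖ₑ ^ (2 : ℝ≥0∞).toReal) ?_ ?_ hfin.ne ?_
    · simpa using h
    · intro n
      exact ((hu.1.sub (memLp_cut_mul hu n).1).enorm).pow_const _
    · intro n
      filter_upwards with x
      refine ENNReal.rpow_le_rpow ?_ (by norm_num)
      rw [← ofReal_norm, ← ofReal_norm]
      apply ENNReal.ofReal_le_ofReal
      have : u x - cut n x * u x = (1 - cut n x) * u x := by ring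
      rw [this, norm_mul]
      have h1 : ‖1 - cut n x‖ ≤ 1 := by
        rw [Real.norm_of_nonneg (by linarith [cut_le_one n x])]
        linarith [cut_nonneg n x]
      calc ‖1 - cut n x‖ * ‖u x‖ ≤ 1 * ‖u x‖ := by gcongr
        _ = ‖u x‖ := one_mul _
    · filter_upwards with x
      apply tendsto_const_nhds.congr'
      obtain ⟨N, hN⟩ := exists_nat_ge ‖x‖
      filter_upwards [eventually_ge_atTop N] with n hn
      have hle : ‖x‖ ≤ n + 1 := by
        have : (N : ℝ) ≤ n := by exact_mod_cast hn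
        linarith
      rw [cut_eq_one hle, one_mul, sub_self]
      simp
  have h3 : Tendsto (fun n => (∫⁻ x, ‖u x - cut n x * u x‖ₑ ^ (2 : ℝ≥0∞).toReal) ^
      (1 / (2 : ℝ≥0∞).toReal)) atTop (𝓝 ((0 : ℝ≥0∞) ^ (1 / (2 : ℝ≥0∞).toReal))) :=
    ((ENNReal.continuous_rpow_const (y := 1 / (2 : ℝ≥0∞).toReal)).tendsto 0).comp key
  simp_rw [eLpNorm_eq_lintegral_rpow_enorm_toReal h2 h2']
  refine h3.trans_eq ?_
  rw [ENNReal.zero_rpow_of_pos (by norm_num)]

omit [BorelSpace E] [(volume : Measure E).IsAddHaarMeasure] in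
theorem tendsto_dcut {u : E → ℝ} (hu : MemLp u 2 volume) (e : E) :
    Tendsto (fun n => eLpNorm (fun x => fderiv ℝ (cut n) x e * u x) 2 volume) atTop (𝓝 0) := by
  obtain ⟨C, hC⟩ := exists_bound_fderiv e
  have hle : ∀ n : ℕ, eLpNorm (fun x => fderiv ℝ (cut n) x e * u x) 2 volume ≤
      ENNReal.ofReal (C * ((n : ℝ) + 1)⁻¹) * eLpNorm u 2 volume := by
    intro n
    refine eLpNorm_le_mul_eLpNorm_of_ae_le_mul ?_ 2
    filter_upwards with x
    rw [norm_mul]
    exact mul_le_mul_of_nonneg_right (hC n x) (norm_nonneg _)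
  have hlim : Tendsto (fun n : ℕ => ENNReal.ofReal (C * ((n : ℝ) + 1)⁻¹) * eLpNorm u 2 volume)
      atTop (𝓝 0) := by
    have h1 : Tendsto (fun n : ℕ => (C : ℝ) * ((n : ℝ) + 1)⁻¹) atTop (𝓝 (C * 0)) :=
      (tendsto_inv_atTop_zero.comp
        (tendsto_atTop_add_const_right _ 1 tendsto_natCast_atTop_atTop)).const_mul _
    have h2 := ENNReal.tendsto_ofReal h1
    have h3 := ENNReal.Tendsto.mul_const h2 (Or.inr hu.2.ne)
    simpa using h3
  exact tendsto_of_tendsto_of_tendsto_of_le_of_le tendsto_const_nhds hlim (fun _ => bot_le) hle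

omit [BorelSpace E] [(volume : Measure E).IsAddHaarMeasure] in
theorem hasCompactSupport_mol {φ f : E → ℝ} {R : ℝ} (hφ : ∀ x, 1 ≤ ‖x‖ → φ x = 0)
    (hf : ∀ x, R ≤ ‖x‖ → f x = 0) : HasCompactSupport (mol φ f) := by
  refine HasCompactSupport.of_support_subset_isCompact (isCompact_closedBall (0 : E) (R + 1)) ?_
  intro x hx
  rw [mem_closedBall_zero_iff]
  by_contra hlt
  push Not at hlt
  apply hx
  show ∫ y, φ (x - y) * f y = 0
  rw [← integral_zero E ℝ]
  refine integral_congr_ae ?_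
  filter_upwards with y
  rcases le_or_gt R ‖y‖ with h | h
  · rw [hf y h, mul_zero]
  · rw [hφ, zero_mul]
    have := norm_sub_norm_le x y
    linarith

end Pool.Agent.HK.Approx

namespace Pool.Agent.HK

open Approx

theorem target_Approx (hM : Target_Moll) : Target_Approx := by
  intro E ι _ _ _ _ _ _ _ e u D hs ε hε
  have hε2 : 0 < ε / 2 := ENNReal.half_pos hε.ne'
  -- the cut off
  have hu := hs.memLp
  have hD := hs.memLp_grad
  have c1 : ∀ᶠ n in atTop, eLpNorm (fun x => u x - cut n x * u x) 2 volume ≤ ε / 2 :=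
    (tendsto_cut hu).eventually_le_const hε2
  have c2 : ∀ i, ∀ᶠ n in atTop, eLpNorm (fun x => D i x - (fderiv ℝ (cut n) x (e i) * u x +
      cut n x * D i x)) 2 volume ≤ ε / 2 := by
    intro i
    have h : Tendsto (fun n => eLpNorm (fun x => D i x - cut n x * D i x) 2 volume +
        eLpNorm (fun x => fderiv ℝ (cut n) x (e i) * u x) 2 volume) atTop (𝓝 (0 + 0)) :=
      (tendsto_cut (hD i)).add (tendsto_dcut hu (e i))
    rw [add_zero] at h
    filter_upwards [h.eventually_le_const hε2] with n hn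
    refine le_trans ?_ hn
    have e1 : (fun x => D i x - (fderiv ℝ (cut n) x (e i) * u x + cut n x * D i x)) =
        (fun x => D i x - cut n x * D i x) - (fun x => fderiv ℝ (cut n) x (e i) * u x) := by
      funext x
      simp only [Pi.sub_apply]
      ring
    rw [e1]
    exact eLpNorm_sub_le ((hD i).1.sub (memLp_cut_mul (hD i) n).1)
      (memLp_dcut_mul hu n (e i)).1 (by norm_num)
  obtain ⟨n, hn1, hn2⟩ := (c1.and (eventually_all.2 c2)).exists
  -- the mollification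
  set w : E → ℝ := fun x => cut n x * u x with hw
  set G : ι → E → ℝ := fun i x => fderiv ℝ (cut n) x (e i) * u x + cut n x * D i x with hG
  have hwm : MemLp w 2 volume := memLp_cut_mul hu n
  have hGm : ∀ i, MemLp (G i) 2 volume := fun i =>
    (memLp_dcut_mul hu n (e i)).add (memLp_cut_mul (hD i) n)
  have hwG : ∀ i, WeakDeriv w (e i) (G i) := fun i =>
    (hs.weak i).smul (cut_contDiff n) hu (hD i)
  obtain ⟨⟨φ, hφ⟩, hM'⟩ := hM E
  obtain ⟨m1, m2, -, m4, -, m6⟩ := hM' φ hφ 2 (by norm_num) (by norm_num) w hwm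
  have d1 : ∀ᶠ k in atTop, eLpNorm (fun x => mol (φ k) w x - w x) 2 volume ≤ ε / 2 :=
    m4.eventually_le_const hε2
  have d2 : ∀ i, ∀ᶠ k in atTop, eLpNorm (fun x => mol (φ k) (G i) x - G i x) 2 volume ≤ ε / 2 := by
    intro i
    obtain ⟨-, -, -, g4, -, -⟩ := hM' φ hφ 2 (by norm_num) (by norm_num) (G i) (hGm i)
    exact g4.eventually_le_const hε2
  obtain ⟨k, hk1, hk2⟩ := (d1.and (eventually_all.2 d2)).exists
  refine ⟨mol (φ k) w, ⟨m1 k, ?_⟩, ?_, ?_⟩
  · refine hasCompactSupport_mol (R := 2 * ((n : ℝ) + 1)) ?_ ?_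
    · intro x hx
      apply hφ.supp k x
      refine le_trans ?_ hx
      rw [div_le_one (by positivity)]
      have : (0 : ℝ) ≤ k := Nat.cast_nonneg k
      linarith
    · intro x hx
      rw [hw]
      simp only
      rw [cut_eq_zero hx, zero_mul]
  · have e1 : (fun x => u x - mol (φ k) w x) =
        (fun x => u x - w x) - (fun x => mol (φ k) w x - w x) := by
      funext x
      simp only [Pi.sub_apply]
      ring
    rw [e1]
    refine (eLpNorm_sub_le (hu.1.sub hwm.1) ((m2 k).1.sub hwm.1) (by norm_num)).trans ?_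
    calc _ ≤ ε / 2 + ε / 2 := add_le_add hn1 hk1
      _ = ε := ENNReal.add_halves ε
  · intro i
    obtain ⟨-, g2, -, -, -, -⟩ := hM' φ hφ 2 (by norm_num) (by norm_num) (G i) (hGm i)
    have e1 : (fun x => D i x - fderiv ℝ (mol (φ k) w) x (e i)) =
        (fun x => D i x - G i x) - (fun x => mol (φ k) (G i) x - G i x) := by
      funext x
      simp only [Pi.sub_apply]
      rw [m6 k x (e i) (G i) (hwG i)]
      ring
    rw [e1]
    refine (eLpNorm_sub_le ((hD i).1.sub (hGm i).1) ((g2 k).1.sub (hGm i).1) (by norm_num)).trans ?_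
    calc _ ≤ ε / 2 + ε / 2 := add_le_add (hn2 i) (hk2 i)
      _ = ε := ENNReal.add_halves ε

end Pool.Agent.HK
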