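import Pool.Agent.HK.Spec

/-!
# JOB CA: Caccioppoli's inequality (Hilbert valued)
-/

open MeasureTheory Set Filter Topology
open scoped ENNReal NNReal InnerProductSpace

namespace Pool.Agent.HK
namespace CaccAux

/-! ## Elementary facts on test functions and Sobolev functions -/

lemma test_mul {E : Type*} [NormedAddCommGroup E] [NormedSpace ℝ E] {ζ χ : E → ℝ}
    (hζ : IsTest ζ) (hχ : IsTest χ) : IsTest (fun x => ζ x * χ x) :=
  ⟨hζ.1.mul hχ.1, hζ.2.mul_right⟩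

lemma test_memLp {ζ : E3 → ℝ} (h : IsTest ζ) (p : ℝ≥0∞) : MemLp ζ p volume :=
  h.1.continuous.memLp_of_hasCompactSupport h.2

lemma test_fderiv_cont {ζ : E3 → ℝ} (h : IsTest ζ) (e : E3) :
    Continuous (fun x => fderiv ℝ ζ x e) :=
  (h.1.continuous_fderiv (by simp)).clm_apply continuous_const

lemma test_fderiv_supp {ζ : E3 → ℝ} (h : IsTest ζ) (e : E3) :
    HasCompactSupport (fun x => fderiv ℝ ζ x e) := by
  have := h.2.fderiv (𝕜 := ℝ)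
  exact this.comp_left (g := fun L : E3 →L[ℝ] ℝ => L e) rfl

lemma test_fderiv_memLp {ζ : E3 → ℝ} (h : IsTest ζ) (e : E3) (p : ℝ≥0∞) :
    MemLp (fun x => fderiv ℝ ζ x e) p volume :=
  (test_fderiv_cont h e).memLp_of_hasCompactSupport (test_fderiv_supp h e)

section Hil

variable {H : Type} [NormedAddCommGroup H] [InnerProductSpace ℝ H]

lemma memLp_smul_bdd {c : E3 → ℝ} {f : E3 → H} (hc : MemLp c ⊤ volume) (hf : MemLp f 2 volume) :
    MemLp (fun x => c x • f x) 2 volume :=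
  MemLp.smul (p := ⊤) (q := 2) (r := 2) hf hc

lemma integrable_smul_of_test {c : E3 → ℝ} {f : E3 → H} (hc : MemLp c 2 volume)
    (hf : MemLp f 2 volume) : Integrable (fun x => c x • f x) volume :=
  memLp_one_iff_integrable.1 (MemLp.smul (p := 2) (q := 2) (r := 1) hf hc)

lemma integrable_inner {f g : E3 → H} (hf : MemLp f 2 volume) (hg : MemLp g 2 volume) :
    Integrable (fun x => ⟪f x, g x⟫_ℝ) volume := by
  have h1 : MemLp (fun x => ‖f x‖ * ‖g x‖) 1 volume :=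
    MemLp.mul (p := 2) (q := 2) (r := 1) hg.norm hf.norm
  refine (memLp_one_iff_integrable.1 h1).mono (hf.1.inner hg.1) ?_
  filter_upwards with x
  rw [Real.norm_of_nonneg (by positivity : 0 ≤ ‖f x‖ * ‖g x‖)]
  exact norm_inner_le_norm _ _

lemma integrable_norm_sq {f : E3 → H} (hf : MemLp f 2 volume) :
    Integrable (fun x => ‖f x‖ ^ 2) volume := by
  have := integrable_inner hf hf
  simpa [real_inner_self_eq_norm_sq] using this

/-- Integral form: components of a Bochner integral. -/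
lemma inner_integral_comm [CompleteSpace H] {f : E3 → H} (hf : Integrable f volume) (h : H) :
    ∫ x, ⟪f x, h⟫_ℝ = ⟪∫ x, f x, h⟫_ℝ := by
  have := (innerSL ℝ h).integral_comp_comm hf
  simp only [innerSL_apply_apply] at this
  rw [real_inner_comm, ← this]
  exact integral_congr_ae (by filter_upwards with x; rw [real_inner_comm])

/-- Product rule for a test function times a Sobolev function. -/
lemma sob_smul {χ : E3 → ℝ} (hχ : IsTest χ) {u : E3 → H} {D : Fin 3 → E3 → H}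
    (hu : Sob ax u D) :
    Sob ax (fun x => χ x • u x) (fun a x => χ x • D a x + fderiv ℝ χ x (ax a) • u x) where
  memLp := memLp_smul_bdd (test_memLp hχ _) hu.memLp
  memLp_grad a := (memLp_smul_bdd (test_memLp hχ _) (hu.memLp_grad a)).add
    (memLp_smul_bdd (test_fderiv_memLp hχ _ _) hu.memLp)
  weak a := by
    intro ζ hζ
    have hw := hu.weak a _ (test_mul hζ hχ)
    have hd : ∀ x, fderiv ℝ (fun x => ζ x * χ x) x (ax a) =
        ζ x * fderiv ℝ χ x (ax a) + χ x * fderiv ℝ ζ x (ax a) := by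
      intro x
      have h1 : DifferentiableAt ℝ ζ x := hζ.1.differentiable (by simp) x
      have h2 : DifferentiableAt ℝ χ x := hχ.1.differentiable (by simp) x
      rw [fderiv_fun_mul h1 h2]
      simp
    have i1 : Integrable (fun x => (ζ x * fderiv ℝ χ x (ax a)) • u x) volume :=
      integrable_smul_of_test
        (MemLp.mul (p := ⊤) (q := 2) (r := 2) (test_fderiv_memLp hχ _ _) (test_memLp hζ _)) hu.memLp
    have i2 : Integrable (fun x => (χ x * fderiv ℝ ζ x (ax a)) • u x) volume :=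
      integrable_smul_of_test
        (MemLp.mul (p := ⊤) (q := 2) (r := 2) (test_fderiv_memLp hζ _ _) (test_memLp hχ _)) hu.memLp
    have i3 : Integrable (fun x => (ζ x * χ x) • D a x) volume :=
      integrable_smul_of_test (test_memLp (test_mul hζ hχ) _) (hu.memLp_grad a)
    have e1 : ∫ x, (fderiv ℝ (fun x => ζ x * χ x) x (ax a)) • u x =
        (∫ x, (ζ x * fderiv ℝ χ x (ax a)) • u x) + ∫ x, (χ x * fderiv ℝ ζ x (ax a)) • u x := by
      rw [← integral_add i1 i2]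
      refine integral_congr_ae ?_
      filter_upwards with x
      rw [hd x, add_smul]
    have e2 : ∫ x, ζ x • (χ x • D a x + fderiv ℝ χ x (ax a) • u x) =
        (∫ x, (ζ x * χ x) • D a x) + ∫ x, (ζ x * fderiv ℝ χ x (ax a)) • u x := by
      rw [← integral_add i3 i1]
      refine integral_congr_ae ?_
      filter_upwards with x
      rw [smul_add, smul_smul, smul_smul]
    have e3 : ∫ x, (fderiv ℝ ζ x (ax a)) • (χ x • u x) =
        ∫ x, (χ x * fderiv ℝ ζ x (ax a)) • u x := by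
      refine integral_congr_ae ?_
      filter_upwards with x
      rw [smul_smul, mul_comm]
    rw [e1] at hw
    rw [e2, e3]
    rw [neg_add, ← hw]
    abel

/-- A bounded operator applied to a Sobolev function. -/
lemma sob_clm [CompleteSpace H] {H' : Type} [NormedAddCommGroup H'] [InnerProductSpace ℝ H']
    [CompleteSpace H'] (T : H →L[ℝ] H') {u : E3 → H} {D : Fin 3 → E3 → H}
    (hu : Sob ax u D) : Sob ax (fun x => T (u x)) (fun a x => T (D a x)) where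
  memLp := T.comp_memLp' hu.memLp
  memLp_grad a := T.comp_memLp' (hu.memLp_grad a)
  weak a := by
    intro ζ hζ
    have hw := hu.weak a ζ hζ
    have i1 : Integrable (fun x => (fderiv ℝ ζ x (ax a)) • u x) volume :=
      integrable_smul_of_test (test_fderiv_memLp hζ _ _) hu.memLp
    have i2 : Integrable (fun x => ζ x • D a x) volume :=
      integrable_smul_of_test (test_memLp hζ _) (hu.memLp_grad a)
    have e1 := T.integral_comp_comm i1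
    have e2 := T.integral_comp_comm i2
    simp only [map_smul] at e1 e2
    rw [e1, e2, hw, map_neg]

lemma sob_inner [CompleteSpace H] {u : E3 → H} {D : Fin 3 → E3 → H}
    (hu : Sob ax u D) (h : H) :
    Sob ax (fun x => ⟪u x, h⟫_ℝ) (fun a x => ⟪D a x, h⟫_ℝ) := by
  have := sob_clm (H' := ℝ) (innerSL ℝ h) hu
  simpa only [innerSL_apply_apply, real_inner_comm] using this

end Hil

/-! ## Orthonormal expansions -/

section Basis

variable {H : Type} [NormedAddCommGroup H] [InnerProductSpace ℝ H]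

lemma countable_of_orthonormal [SecondCountableTopology H] {ι : Type} {v : ι → H}
    (hv : Orthonormal ℝ v) : Countable ι := by
  have hd : ∀ i j, i ≠ j → (1 : ℝ) < dist (v i) (v j) := by
    intro i j hij
    have h1 : ‖v i - v j‖ ^ 2 = 2 := by
      rw [@norm_sub_sq_real, hv.1 i, hv.1 j, hv.2 hij]
      norm_num
    rw [dist_eq_norm]
    nlinarith [norm_nonneg (v i - v j)]
  refine Pairwise.countable_of_isOpen_disjoint (s := fun i => Metric.ball (v i) (1 / 2))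
    ?_ (fun i => Metric.isOpen_ball) (fun i => ⟨v i, Metric.mem_ball_self (by norm_num)⟩)
  intro i j hij
  refine Metric.ball_disjoint_ball ?_
  linarith [hd i j hij]

lemma exists_basis (H : Type) [NormedAddCommGroup H] [InnerProductSpace ℝ H] [CompleteSpace H]
    [SecondCountableTopology H] : ∃ (ι : Type) (_ : HilbertBasis ι ℝ H), Countable ι := by
  obtain ⟨w, b, hb⟩ := exists_hilbertBasis ℝ H
  exact ⟨w, b, countable_of_orthonormal b.orthonormal⟩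

lemma hasSum_sq {ι : Type} (b : HilbertBasis ι ℝ H) (x : H) :
    HasSum (fun i => ⟪x, b i⟫_ℝ ^ 2) (‖x‖ ^ 2) := by
  have := b.hasSum_inner_mul_inner x x
  rw [real_inner_self_eq_norm_sq] at this
  refine this.congr_fun ?_
  intro i
  rw [real_inner_comm x (b i), sq]

lemma hasSum_integral {ι : Type} [Countable ι] (b : HilbertBasis ι ℝ H) {X Y : E3 → H}
    {c : E3 → ℝ} (hX : AEStronglyMeasurable X volume) (hY : AEStronglyMeasurable Y volume)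
    (hc : AEStronglyMeasurable c volume)
    (hcX : Integrable (fun x => c x * ‖X x‖ ^ 2) volume)
    (hcY : Integrable (fun x => c x * ‖Y x‖ ^ 2) volume) :
    HasSum (fun i => ∫ x, c x * (⟪X x, b i⟫_ℝ * ⟪Y x, b i⟫_ℝ)) (∫ x, c x * ⟪X x, Y x⟫_ℝ) := by
  refine hasSum_integral_of_dominated_convergence
    (fun i x => |c x| * ⟪X x, b i⟫_ℝ ^ 2 + |c x| * ⟪Y x, b i⟫_ℝ ^ 2) ?_ ?_ ?_ ?_ ?_
  · intro i
    exact hc.mul ((hX.inner aestronglyMeasurable_const).mul (hY.inner aestronglyMeasurable_const))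
  · intro i
    filter_upwards with x
    rw [norm_mul, Real.norm_eq_abs, ← mul_add]
    refine mul_le_mul_of_nonneg_left ?_ (abs_nonneg _)
    rw [norm_mul, Real.norm_eq_abs, Real.norm_eq_abs]
    nlinarith [sq_nonneg (|⟪X x, b i⟫_ℝ| - |⟪Y x, b i⟫_ℝ|), sq_abs (⟪X x, b i⟫_ℝ),
      sq_abs (⟪Y x, b i⟫_ℝ), abs_nonneg (⟪X x, b i⟫_ℝ), abs_nonneg (⟪Y x, b i⟫_ℝ)]
  · filter_upwards with x
    exact (((hasSum_sq b (X x)).mul_left _).add ((hasSum_sq b (Y x)).mul_left _)).summable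
  · have e : (fun x => ∑' i, (|c x| * ⟪X x, b i⟫_ℝ ^ 2 + |c x| * ⟪Y x, b i⟫_ℝ ^ 2)) =
        fun x => |c x| * ‖X x‖ ^ 2 + |c x| * ‖Y x‖ ^ 2 := by
      funext x
      exact (((hasSum_sq b (X x)).mul_left _).add ((hasSum_sq b (Y x)).mul_left _)).tsum_eq
    rw [e]
    have h1 := hcX.norm
    have h2 := hcY.norm
    refine (h1.add h2).congr ?_
    filter_upwards with x
    simp only [Pi.add_apply, norm_mul, Real.norm_eq_abs, norm_pow]
    simp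
  · filter_upwards with x
    have := b.hasSum_inner_mul_inner (X x) (Y x)
    refine HasSum.mul_left _ (this.congr_fun ?_)
    intro i
    rw [real_inner_comm (Y x) (b i)]

lemma enorm_sq_eq {F : Type*} [NormedAddCommGroup F] (x : F) :
    ‖x‖ₑ ^ 2 = ENNReal.ofReal (‖x‖ ^ 2) := by
  rw [ENNReal.ofReal_pow (norm_nonneg _), ofReal_norm]

lemma tsum_enorm_sq {ι : Type} (b : HilbertBasis ι ℝ H) (x : H) :
    ∑' i, ‖⟪x, b i⟫_ℝ‖ₑ ^ 2 = ‖x‖ₑ ^ 2 := by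
  have h := hasSum_sq b x
  rw [enorm_sq_eq, ← h.tsum_eq, ENNReal.ofReal_tsum_of_nonneg (fun i => sq_nonneg _) h.summable]
  refine tsum_congr fun i => ?_
  rw [enorm_sq_eq, Real.norm_eq_abs, sq_abs]

lemma lintegral_sq {f : E3 → H} (hf : MemLp f 2 volume) :
    ∫⁻ x, ‖f x‖ₑ ^ 2 = ENNReal.ofReal (∫ x, ‖f x‖ ^ 2) := by
  rw [ofReal_integral_eq_lintegral_ofReal (integrable_norm_sq hf)
    (by filter_upwards with x; positivity)]
  exact lintegral_congr fun x => enorm_sq_eq _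

lemma lintegral_basis {ι : Type} [Countable ι] (b : HilbertBasis ι ℝ H) {X : E3 → H}
    {c : E3 → ℝ≥0∞} (hX : AEStronglyMeasurable X volume) (hc : AEMeasurable c volume) :
    ∫⁻ x, c x * ‖X x‖ₑ ^ 2 = ∑' i, ∫⁻ x, c x * ‖⟪X x, b i⟫_ℝ‖ₑ ^ 2 := by
  rw [← lintegral_tsum]
  · refine lintegral_congr fun x => ?_
    rw [ENNReal.tsum_mul_left, tsum_enorm_sq]
  · intro i
    exact hc.mul ((hX.inner aestronglyMeasurable_const).enorm.pow_const 2)

lemma xstar_meas {v : E3 → ℝ} (hv : XStar v) : AEStronglyMeasurable v volume := by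
  obtain ⟨f, g, hf, hg, rfl⟩ := hv
  exact hf.1.add hg.1

/-- The form bound for functions with values in a Hilbert space. -/
lemma formBound_vec (hF : Target_FormBound) {v : E3 → ℝ} (hv : XStar v) {ε : ℝ} (hε : 0 < ε) :
    ∃ C : ℝ, 0 ≤ C ∧ ∀ (H : Type) [NormedAddCommGroup H] [InnerProductSpace ℝ H]
      [CompleteSpace H] [SecondCountableTopology H] (X : E3 → H) (DX : Fin 3 → E3 → H),
      Sob ax X DX → Integrable (fun x => v x * ‖X x‖ ^ 2) volume ∧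
        |∫ x, v x * ‖X x‖ ^ 2| ≤ ε * (∑ a, ∫ x, ‖DX a x‖ ^ 2) + C * ∫ x, ‖X x‖ ^ 2 := by
  obtain ⟨C, hC⟩ := hF v hv ε.toNNReal (by simpa using hε)
  have hC0 : (0 : ℝ) ≤ (C : ℝ) := C.coe_nonneg
  refine ⟨C, hC0, ?_⟩
  intro H _ _ _ _ X DX hX
  obtain ⟨ι, b, hι⟩ := exists_basis H
  have key : ∫⁻ x, ‖v x‖ₑ * ‖X x‖ₑ ^ 2 ≤
      ε.toNNReal * (∑ a, ∫⁻ x, ‖DX a x‖ₑ ^ 2) + C * ∫⁻ x, ‖X x‖ₑ ^ 2 := by
    have e1 := lintegral_basis b hX.memLp.1 (xstar_meas hv).enorm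
    have e2 : ∫⁻ x, ‖X x‖ₑ ^ 2 = ∑' i, ∫⁻ x, ‖⟪X x, b i⟫_ℝ‖ₑ ^ 2 := by
      have := lintegral_basis b (c := fun _ => 1) hX.memLp.1 aemeasurable_const
      simpa using this
    have e3 : ∀ a, ∫⁻ x, ‖DX a x‖ₑ ^ 2 = ∑' i, ∫⁻ x, ‖⟪DX a x, b i⟫_ℝ‖ₑ ^ 2 := by
      intro a
      have := lintegral_basis b (c := fun _ => 1) (hX.memLp_grad a).1 aemeasurable_const
      simpa using this
    rw [e1, e2]
    simp only [e3]
    rw [← Summable.tsum_finsetSum (fun a _ => ENNReal.summable), ← ENNReal.tsum_mul_left,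
      ← ENNReal.tsum_mul_left, ← ENNReal.tsum_add]
    refine ENNReal.tsum_le_tsum fun i => ?_
    exact hC _ _ (sob_inner hX (b i))
  rw [lintegral_sq hX.memLp] at key
  have e4 : ∀ a, ∫⁻ x, ‖DX a x‖ₑ ^ 2 = ENNReal.ofReal (∫ x, ‖DX a x‖ ^ 2) :=
    fun a => lintegral_sq (hX.memLp_grad a)
  simp only [e4] at key
  have n1 : 0 ≤ ∫ x, ‖X x‖ ^ 2 := integral_nonneg fun x => sq_nonneg _
  have n2 : ∀ a, 0 ≤ ∫ x, ‖DX a x‖ ^ 2 := fun a => integral_nonneg fun x => sq_nonneg _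
  rw [← ENNReal.ofReal_sum_of_nonneg (fun a _ => n2 a)] at key
  have e5 : (ε.toNNReal : ℝ≥0∞) = ENNReal.ofReal ε := rfl
  have e6 : (C : ℝ≥0∞) = ENNReal.ofReal (C : ℝ) := by simp
  rw [e5, e6, ← ENNReal.ofReal_mul hε.le, ← ENNReal.ofReal_mul hC0,
    ← ENNReal.ofReal_add (mul_nonneg hε.le (Finset.sum_nonneg fun a _ => n2 a))
      (mul_nonneg hC0 n1)] at key
  have e7 : ∀ x, ‖v x * ‖X x‖ ^ 2‖ₑ = ‖v x‖ₑ * ‖X x‖ₑ ^ 2 := by
    intro x
    rw [enorm_mul, enorm_pow, enorm_norm]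
  have hint : Integrable (fun x => v x * ‖X x‖ ^ 2) volume := by
    refine ⟨(xstar_meas hv).mul (hX.memLp.1.norm.pow 2), ?_⟩
    rw [hasFiniteIntegral_iff_enorm]
    simp only [e7]
    exact lt_of_le_of_lt key ENNReal.ofReal_lt_top
  refine ⟨hint, ?_⟩
  have h8 : ENNReal.ofReal |∫ x, v x * ‖X x‖ ^ 2| ≤ ∫⁻ x, ‖v x‖ₑ * ‖X x‖ₑ ^ 2 := by
    have := enorm_integral_le_lintegral_enorm (μ := (volume : Measure E3))
      (fun x => v x * ‖X x‖ ^ 2)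
    simp only [e7] at this
    rwa [Real.enorm_eq_ofReal_abs] at this
  have h9 := h8.trans key
  exact (ENNReal.ofReal_le_ofReal_iff (add_nonneg
    (mul_nonneg hε.le (Finset.sum_nonneg fun a _ => n2 a)) (mul_nonneg hC0 n1))).1 h9

end Basis

/-! ## Testing the vector valued equation -/

lemma integrable_bdd {c f : E3 → ℝ} (hc : MemLp c ⊤ volume) (hf : Integrable f volume) :
    Integrable (fun x => c x * f x) volume :=
  memLp_one_iff_integrable.1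
    (MemLp.mul (p := ⊤) (q := 1) (r := 1) (memLp_one_iff_integrable.2 hf) hc)

section Test

variable {H : Type} [NormedAddCommGroup H] [InnerProductSpace ℝ H] [CompleteSpace H]
  [SecondCountableTopology H]

lemma vec_test (hT : Target_TestH1) {v : E3 → ℝ} (hv : XStar v) {Φ : E3 → H}
    {DΦ : Fin 3 → E3 → H} {g : E3 → H} (hΦ : Sob ax Φ DΦ) (hg : MemLp g 2 volume)
    {χ : E3 → ℝ} (hχ : IsTest χ)
    (hvi : Integrable (fun x => v x * ‖χ x • Φ x‖ ^ 2) volume)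
    (heq : ∀ ζ : E3 → ℝ, IsTest ζ → ∀ h : H,
      1 / 2 * (∑ a, ∫ x, fderiv ℝ ζ x (ax a) * ⟪DΦ a x, h⟫_ℝ)
        + (∫ x, v x * (ζ x * ⟪Φ x, h⟫_ℝ)) = ∫ x, ζ x * ⟪g x, h⟫_ℝ) :
    1 / 2 * (∑ a, ((∫ x, χ x ^ 2 * ⟪DΦ a x, DΦ a x⟫_ℝ) +
        ∫ x, 2 * χ x * fderiv ℝ χ x (ax a) * ⟪Φ x, DΦ a x⟫_ℝ))
      + (∫ x, v x * χ x ^ 2 * ⟪Φ x, Φ x⟫_ℝ) = ∫ x, χ x ^ 2 * ⟪Φ x, g x⟫_ℝ := by
  obtain ⟨ι, b, hι⟩ := exists_basis H
  have hχ2 : MemLp (fun x => χ x ^ 2) ⊤ volume := by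
    have := test_memLp (test_mul hχ hχ) ⊤
    simpa [sq] using this
  have hχd : ∀ a, MemLp (fun x => 2 * χ x * fderiv ℝ χ x (ax a)) ⊤ volume := by
    intro a
    have := (MemLp.mul (p := ⊤) (q := ⊤) (r := ⊤) (test_fderiv_memLp hχ (ax a) ⊤)
      (test_memLp hχ ⊤)).const_mul 2
    simpa [mul_assoc] using this
  -- the scalar identities
  have hid : ∀ i, 1 / 2 * (∑ a, ((∫ x, χ x ^ 2 * (⟪DΦ a x, b i⟫_ℝ * ⟪DΦ a x, b i⟫_ℝ)) +
        ∫ x, 2 * χ x * fderiv ℝ χ x (ax a) * (⟪Φ x, b i⟫_ℝ * ⟪DΦ a x, b i⟫_ℝ)))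
      + (∫ x, v x * χ x ^ 2 * (⟪Φ x, b i⟫_ℝ * ⟪Φ x, b i⟫_ℝ)) =
        ∫ x, χ x ^ 2 * (⟪Φ x, b i⟫_ℝ * ⟪g x, b i⟫_ℝ) := by
    intro i
    have hs := sob_inner hΦ (b i)
    have hgi : MemLp (fun x => ⟪g x, b i⟫_ℝ) 2 volume := by
      have := (innerSL ℝ (b i)).comp_memLp' hg
      simpa only [Function.comp_def, innerSL_apply_apply, real_inner_comm] using this
    have h := hT v _ _ _ hv hs hgi (fun ζ hζ => heq ζ hζ (b i)) _ _
      (sob_smul hχ (sob_smul hχ hs))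
    simp only [smul_eq_mul] at h
    have t1 : ∀ a, ∫ x, (χ x * (χ x * ⟪DΦ a x, b i⟫_ℝ + fderiv ℝ χ x (ax a) * ⟪Φ x, b i⟫_ℝ) +
        fderiv ℝ χ x (ax a) * (χ x * ⟪Φ x, b i⟫_ℝ)) * ⟪DΦ a x, b i⟫_ℝ =
        (∫ x, χ x ^ 2 * (⟪DΦ a x, b i⟫_ℝ * ⟪DΦ a x, b i⟫_ℝ)) +
        ∫ x, 2 * χ x * fderiv ℝ χ x (ax a) * (⟪Φ x, b i⟫_ℝ * ⟪DΦ a x, b i⟫_ℝ) := by
      intro a
      have hD2 : Integrable (fun x => ⟪DΦ a x, b i⟫_ℝ * ⟪DΦ a x, b i⟫_ℝ) volume :=
        memLp_one_iff_integrable.1 (MemLp.mul (p := 2) (q := 2) (r := 1)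
          (hs.memLp_grad a) (hs.memLp_grad a))
      have hDu : Integrable (fun x => ⟪Φ x, b i⟫_ℝ * ⟪DΦ a x, b i⟫_ℝ) volume :=
        memLp_one_iff_integrable.1 (MemLp.mul (p := 2) (q := 2) (r := 1)
          (hs.memLp_grad a) hs.memLp)
      rw [← integral_add (integrable_bdd hχ2 hD2) (integrable_bdd (hχd a) hDu)]
      refine integral_congr_ae ?_
      filter_upwards with x
      ring
    simp only [t1] at h
    have t2 : ∫ x, v x * (χ x * (χ x * ⟪Φ x, b i⟫_ℝ) * ⟪Φ x, b i⟫_ℝ) =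
        ∫ x, v x * χ x ^ 2 * (⟪Φ x, b i⟫_ℝ * ⟪Φ x, b i⟫_ℝ) := by
      refine integral_congr_ae ?_
      filter_upwards with x
      ring
    have t3 : ∫ x, χ x * (χ x * ⟪Φ x, b i⟫_ℝ) * ⟪g x, b i⟫_ℝ =
        ∫ x, χ x ^ 2 * (⟪Φ x, b i⟫_ℝ * ⟪g x, b i⟫_ℝ) := by
      refine integral_congr_ae ?_
      filter_upwards with x
      ring
    rw [t2, t3] at h
    exact h
  -- sum over the basis
  have s1 : ∀ a, HasSum (fun i => ∫ x, χ x ^ 2 * (⟪DΦ a x, b i⟫_ℝ * ⟪DΦ a x, b i⟫_ℝ))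
      (∫ x, χ x ^ 2 * ⟪DΦ a x, DΦ a x⟫_ℝ) := fun a =>
    hasSum_integral b (hΦ.memLp_grad a).1 (hΦ.memLp_grad a).1 hχ2.1
      (integrable_bdd hχ2 (integrable_norm_sq (hΦ.memLp_grad a)))
      (integrable_bdd hχ2 (integrable_norm_sq (hΦ.memLp_grad a)))
  have s2 : ∀ a, HasSum (fun i => ∫ x, 2 * χ x * fderiv ℝ χ x (ax a) *
      (⟪Φ x, b i⟫_ℝ * ⟪DΦ a x, b i⟫_ℝ))
      (∫ x, 2 * χ x * fderiv ℝ χ x (ax a) * ⟪Φ x, DΦ a x⟫_ℝ) := fun a =>
    hasSum_integral b hΦ.memLp.1 (hΦ.memLp_grad a).1 (hχd a).1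
      (integrable_bdd (hχd a) (integrable_norm_sq hΦ.memLp))
      (integrable_bdd (hχd a) (integrable_norm_sq (hΦ.memLp_grad a)))
  have hvi' : Integrable (fun x => v x * χ x ^ 2 * ‖Φ x‖ ^ 2) volume := by
    refine hvi.congr ?_
    filter_upwards with x
    rw [norm_smul, mul_pow, Real.norm_eq_abs, sq_abs]
    ring
  have s3 : HasSum (fun i => ∫ x, v x * χ x ^ 2 * (⟪Φ x, b i⟫_ℝ * ⟪Φ x, b i⟫_ℝ))
      (∫ x, v x * χ x ^ 2 * ⟪Φ x, Φ x⟫_ℝ) :=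
    hasSum_integral b hΦ.memLp.1 hΦ.memLp.1 ((xstar_meas hv).mul hχ2.1) hvi' hvi'
  have s4 : HasSum (fun i => ∫ x, χ x ^ 2 * (⟪Φ x, b i⟫_ℝ * ⟪g x, b i⟫_ℝ))
      (∫ x, χ x ^ 2 * ⟪Φ x, g x⟫_ℝ) :=
    hasSum_integral b hΦ.memLp.1 hg.1 hχ2.1
      (integrable_bdd hχ2 (integrable_norm_sq hΦ.memLp))
      (integrable_bdd hχ2 (integrable_norm_sq hg))
  have s5 := ((hasSum_sum (s := Finset.univ) fun a _ => (s1 a).add (s2 a)).mul_left (1 / 2)).add s3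
  exact (s5.congr_fun fun i => (hid i).symm).unique s4

end Test

/-! ## Abstract operator facts -/

section Oper

variable {H : Type} [NormedAddCommGroup H] [InnerProductSpace ℝ H]

/-- The resolvent data of a nonnegative bounded operator. -/
structure ResData (K : H →L[ℝ] H) (R : ℝ → H →L[ℝ] H) : Prop where
  symm : ∀ x y, ⟪K x, y⟫_ℝ = ⟪x, K y⟫_ℝ
  pos : ∀ x, 0 ≤ ⟪K x, x⟫_ℝ
  KR : ∀ ε > 0, ∀ x, K (R ε x) + ε • R ε x = x
  RK : ∀ ε > 0, ∀ x, R ε (K x) + ε • R ε x = x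

variable {K : H →L[ℝ] H} {R : ℝ → H →L[ℝ] H}

lemma ResData.R_symm (h : ResData K R) {ε : ℝ} (hε : 0 < ε) (x y : H) :
    ⟪R ε x, y⟫_ℝ = ⟪x, R ε y⟫_ℝ := by
  calc ⟪R ε x, y⟫_ℝ = ⟪R ε x, K (R ε y) + ε • R ε y⟫_ℝ := by rw [h.KR ε hε]
    _ = ⟪K (R ε x) + ε • R ε x, R ε y⟫_ℝ := by
        rw [inner_add_right, inner_add_left, ← h.symm, inner_smul_left, inner_smul_right]
        rfl
    _ = ⟪x, R ε y⟫_ℝ := by rw [h.KR ε hε]

lemma ResData.comm (h : ResData K R) {ε : ℝ} (hε : 0 < ε) (x : H) : K (R ε x) = R ε (K x) := by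
  have h1 := h.KR ε hε x
  have h2 := h.RK ε hε x
  exact add_right_cancel (h1.trans h2.symm)

lemma ResData.J_eq (h : ResData K R) {ε : ℝ} (hε : 0 < ε) (x : H) :
    K (R ε x) = x - ε • R ε x := by
  rw [eq_sub_iff_add_eq]; exact h.KR ε hε x

lemma ResData.J_symm (h : ResData K R) {ε : ℝ} (hε : 0 < ε) (x y : H) :
    ⟪K (R ε x), y⟫_ℝ = ⟪x, K (R ε y)⟫_ℝ := by
  rw [h.symm, h.R_symm hε, ← h.comm hε]

lemma ResData.R_pos (h : ResData K R) {ε : ℝ} (hε : 0 < ε) (x : H) : 0 ≤ ⟪R ε x, x⟫_ℝ := by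
  have h1 : ⟪R ε x, x⟫_ℝ = ⟪K (R ε x), R ε x⟫_ℝ + ε * ‖R ε x‖ ^ 2 := by
    conv_lhs => rw [← h.KR ε hε x]
    rw [map_add, map_smul]
    have : R ε (K (R ε x)) + ε • R ε (R ε x) = R ε x := h.RK ε hε (R ε x)
    rw [this, inner_add_right, inner_smul_right, real_inner_self_eq_norm_sq,
      real_inner_comm]
  rw [h1]
  exact add_nonneg (h.pos _) (by positivity)

lemma ResData.norm_J_le (h : ResData K R) {ε : ℝ} (hε : 0 < ε) (x : H) :
    ‖K (R ε x)‖ ≤ ‖x‖ := by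
  have h1 : ‖x‖ ^ 2 = ‖K (R ε x)‖ ^ 2 + 2 * (ε * ⟪K (R ε x), R ε x⟫_ℝ) + (ε * ‖R ε x‖) ^ 2 := by
    conv_lhs => rw [← h.KR ε hε x]
    rw [norm_add_sq_real, inner_smul_right, norm_smul, Real.norm_of_nonneg hε.le]
  have h2 := h.pos (R ε x)
  have h3 : ‖K (R ε x)‖ ^ 2 ≤ ‖x‖ ^ 2 := by
    rw [h1]
    nlinarith [mul_nonneg hε.le h2, sq_nonneg (ε * ‖R ε x‖)]
  exact (sq_le_sq₀ (norm_nonneg _) (norm_nonneg _)).1 h3

/-- `δ‖R_{2δ}x‖² ≤ ⟪R_δ x, x⟫ - ⟪R_{2δ} x, x⟫`. -/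
lemma ResData.resolvent (h : ResData K R) {δ : ℝ} (hδ : 0 < δ) (x : H) :
    δ * ‖R (2 * δ) x‖ ^ 2 ≤ ⟪R δ x, x⟫_ℝ - ⟪R (2 * δ) x, x⟫_ℝ := by
  have h2 : 0 < 2 * δ := by linarith
  set y := R (2 * δ) x with hy
  have hx : K y + (2 * δ) • y = x := h.KR _ h2 x
  have e1 : R δ x = y + δ • R δ y := by
    conv_lhs => rw [← hx]
    rw [map_add, map_smul]
    have := h.RK δ hδ y
    have e : (2 * δ) • R δ y = δ • R δ y + δ • R δ y := by rw [two_mul, add_smul]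
    rw [e, ← add_assoc, this]
  have e2 : ⟪R δ x, x⟫_ℝ - ⟪y, x⟫_ℝ = δ * ⟪y, R δ x⟫_ℝ := by
    have : ⟪R δ x, x⟫_ℝ = ⟪y, x⟫_ℝ + δ * ⟪R δ y, x⟫_ℝ := by
      conv_lhs => rw [e1]
      rw [inner_add_left, inner_smul_left]
      rfl
    rw [this, h.R_symm hδ]
    ring
  rw [e2, e1, inner_add_right, inner_smul_right, real_inner_self_eq_norm_sq]
  have := h.R_pos hδ y
  rw [real_inner_comm] at this
  nlinarith [mul_nonneg hδ.le (mul_nonneg hδ.le this)]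

lemma ResData.tendsto_sq (h : ResData K R) {x : H} {A : ℝ}
    (hA : Tendsto (fun ε => ⟪R ε x, x⟫_ℝ) (𝓝[>] 0) (𝓝 A)) :
    Tendsto (fun ε => ε * ‖R ε x‖ ^ 2) (𝓝[>] 0) (𝓝 0) := by
  have hhalf : Tendsto (fun ε : ℝ => ε / 2) (𝓝[>] 0) (𝓝[>] 0) := by
    rw [tendsto_nhdsWithin_iff]
    constructor
    · have : Tendsto (fun ε : ℝ => ε / 2) (𝓝 0) (𝓝 (0 / 2)) :=
        (continuous_id.div_const 2).tendsto 0
      rw [zero_div] at this
      exact this.mono_left nhdsWithin_le_nhds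
    · filter_upwards [self_mem_nhdsWithin] with ε hε
      exact half_pos (show (0 : ℝ) < ε from hε)
  have h1 : Tendsto (fun ε => 2 * (⟪R (ε / 2) x, x⟫_ℝ - ⟪R ε x, x⟫_ℝ)) (𝓝[>] 0) (𝓝 0) := by
    have := ((hA.comp hhalf).sub hA).const_mul 2
    simpa using this
  refine tendsto_of_tendsto_of_tendsto_of_le_of_le' tendsto_const_nhds h1 ?_ ?_
  · filter_upwards [self_mem_nhdsWithin] with ε hε
    have : 0 < ε := hε
    positivity
  · filter_upwards [self_mem_nhdsWithin] with ε hε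
    have hε' : 0 < ε := hε
    have := h.resolvent (half_pos hε') x
    rw [show 2 * (ε / 2) = ε by ring] at this
    linarith

/-- `⟪R_δ x, J_δ x⟫ → A`. -/
lemma ResData.tendsto_RJ (h : ResData K R) {x : H} {A : ℝ}
    (hA : Tendsto (fun ε => ⟪R ε x, x⟫_ℝ) (𝓝[>] 0) (𝓝 A)) :
    Tendsto (fun ε => ⟪K (R ε x), R ε x⟫_ℝ) (𝓝[>] 0) (𝓝 A) := by
  have h1 := hA.sub (h.tendsto_sq hA)
  rw [sub_zero] at h1
  refine h1.congr' ?_
  filter_upwards [self_mem_nhdsWithin] with ε hε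
  have hε' : 0 < ε := hε
  rw [h.J_eq hε', inner_sub_left, inner_smul_left, real_inner_self_eq_norm_sq, real_inner_comm]
  rfl

lemma ResData.tendsto_smul_R (h : ResData K R) {x : H} {A : ℝ}
    (hA : Tendsto (fun ε => ⟪R ε x, x⟫_ℝ) (𝓝[>] 0) (𝓝 A)) :
    Tendsto (fun ε => ε * ‖R ε x‖) (𝓝[>] 0) (𝓝 0) := by
  have h0 : Tendsto (fun ε : ℝ => ε) (𝓝[>] 0) (𝓝 0) := tendsto_id.mono_left nhdsWithin_le_nhds
  have h1 := h0.mul (h.tendsto_sq hA)
  rw [zero_mul] at h1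
  have h2 := h1.sqrt
  rw [Real.sqrt_zero] at h2
  refine h2.congr' ?_
  filter_upwards [self_mem_nhdsWithin] with ε hε
  have hε' : 0 < ε := hε
  rw [show ε * (ε * ‖R ε x‖ ^ 2) = (ε * ‖R ε x‖) ^ 2 by ring]
  exact Real.sqrt_sq (by positivity)

/-- Vectors with finite energy are orthogonal to the kernel. -/
lemma ResData.orth_ker (h : ResData K R) {x : H} {A : ℝ}
    (hA : Tendsto (fun ε => ⟪R ε x, x⟫_ℝ) (𝓝[>] 0) (𝓝 A)) {z : H} (hz : K z = 0) :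
    ⟪x, z⟫_ℝ = 0 := by
  have h1 := (h.tendsto_smul_R hA).mul_const ‖z‖
  rw [zero_mul] at h1
  have h2 : |⟪x, z⟫_ℝ| ≤ 0 := by
    refine ge_of_tendsto h1 ?_
    filter_upwards [self_mem_nhdsWithin] with ε hε
    have hε' : 0 < ε := hε
    have e1 : ε • R ε z = z := by
      have := h.RK ε hε' z
      rwa [hz, map_zero, zero_add] at this
    have e2 : ⟪x, z⟫_ℝ = ε * ⟪R ε x, z⟫_ℝ := by
      conv_lhs => rw [← e1]
      rw [inner_smul_right, h.R_symm hε']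
    rw [e2, abs_mul, abs_of_pos hε', mul_assoc]
    exact mul_le_mul_of_nonneg_left (abs_real_inner_le_norm _ _) hε'.le
  exact abs_nonpos_iff.1 h2

/-- Strong convergence `J_δ z → z` on the orthogonal complement of the kernel. -/
lemma ResData.tendsto_J [CompleteSpace H] (h : ResData K R) {z : H} (hz : ∀ w, K w = 0 → ⟪w, z⟫_ℝ = 0) :
    Tendsto (fun ε => K (R ε z)) (𝓝[>] 0) (𝓝 z) := by
  -- `z` is in the closure of the range
  have hr : (LinearMap.range (K : H →ₗ[ℝ] H))ᗮ = LinearMap.ker (K : H →ₗ[ℝ] H) := by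
    ext w
    rw [Submodule.mem_orthogonal, LinearMap.mem_ker]
    constructor
    · intro hw
      have := hw (K (K w)) ⟨K w, rfl⟩
      rw [h.symm, real_inner_self_eq_norm_sq] at this
      exact norm_eq_zero.1 (pow_eq_zero_iff (two_ne_zero) |>.1 this)
    · rintro hw _ ⟨u, rfl⟩
      change ⟪K u, w⟫_ℝ = 0
      have : K w = 0 := hw
      rw [h.symm, this, inner_zero_right]
  have hcl : z ∈ closure (LinearMap.range (K : H →ₗ[ℝ] H) : Set H) := by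
    rw [← Submodule.topologicalClosure_coe, SetLike.mem_coe,
      ← Submodule.orthogonal_orthogonal_eq_closure, hr, Submodule.mem_orthogonal]
    intro w hw
    exact hz w hw
  rw [Metric.tendsto_nhds]
  intro η hη
  obtain ⟨_, ⟨y, rfl⟩, hy⟩ := Metric.mem_closure_iff.1 hcl (η / 4) (by linarith)
  change dist z (K y) < η / 4 at hy
  rw [dist_eq_norm] at hy
  have h0 : ∀ᶠ ε : ℝ in 𝓝[>] 0, ε * ‖y‖ < η / 4 := by
    have : Tendsto (fun ε : ℝ => ε * ‖y‖) (𝓝[>] 0) (𝓝 (0 * ‖y‖)) :=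
      (tendsto_id.mono_left nhdsWithin_le_nhds).mul_const _
    rw [zero_mul] at this
    exact this.eventually (gt_mem_nhds (by linarith))
  filter_upwards [self_mem_nhdsWithin, h0] with ε hε hε2
  have hε' : 0 < ε := hε
  rw [dist_eq_norm]
  have e1 : K (R ε (K y)) - K y = - (ε • K (R ε y)) := by
    rw [h.J_eq hε' (K y), ← h.comm hε' y]
    abel
  have e2 : K (R ε z) - z = K (R ε (z - K y)) + (K (R ε (K y)) - K y) + (K y - z) := by
    rw [map_sub, map_sub]; abel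
  rw [e2, e1]
  have n1 : ‖K (R ε (z - K y))‖ ≤ ‖z - K y‖ := h.norm_J_le hε' _
  have n2 : ‖-(ε • K (R ε y))‖ ≤ ε * ‖y‖ := by
    rw [norm_neg, norm_smul, Real.norm_of_nonneg hε'.le]
    exact mul_le_mul_of_nonneg_left (h.norm_J_le hε' _) hε'.le
  have n3 : ‖K y - z‖ = ‖z - K y‖ := norm_sub_rev _ _
  have n4 := norm_add₃_le (a := K (R ε (z - K y))) (b := -(ε • K (R ε y))) (c := K y - z)
  linarith

end Oper

lemma fatou_real {f : ℝ → E3 → ℝ} {F : E3 → ℝ} (hf : ∀ ε > 0, Integrable (f ε) volume)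
    (h0 : ∀ ε > 0, ∀ x, 0 ≤ f ε x) (hF : Integrable F volume)
    (hlim : ∀ᵐ x, Tendsto (fun ε => f ε x) (𝓝[>] 0) (𝓝 (F x))) {B : ℝ}
    (hB : ∀ ε > 0, ∫ x, f ε x ≤ B) : ∫ x, F x ≤ B := by
  have hB0 : 0 ≤ B := (integral_nonneg (h0 1 one_pos)).trans (hB 1 one_pos)
  have hF0 : 0 ≤ᵐ[volume] F := by
    filter_upwards [hlim] with x hx
    refine ge_of_tendsto hx ?_
    filter_upwards [self_mem_nhdsWithin] with ε hε
    exact h0 ε hε x
  let g : ℝ → E3 → ℝ := fun ε x => if 0 < ε then f ε x else 0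
  have hg : ∀ ε, AEMeasurable (fun x => ENNReal.ofReal (g ε x)) volume := by
    intro ε
    by_cases hε : 0 < ε
    · simp only [g, hε, if_true]
      exact (hf ε hε).1.aemeasurable.ennreal_ofReal
    · simp only [g, hε, if_false]
      exact aemeasurable_const
  have h1 := lintegral_liminf_le' (μ := (volume : Measure E3)) (u := 𝓝[>] (0 : ℝ)) hg
  have h2 : ∫⁻ x, liminf (fun ε => ENNReal.ofReal (g ε x)) (𝓝[>] 0) =
      ∫⁻ x, ENNReal.ofReal (F x) := by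
    refine lintegral_congr_ae ?_
    filter_upwards [hlim] with x hx
    have : Tendsto (fun ε => ENNReal.ofReal (g ε x)) (𝓝[>] 0) (𝓝 (ENNReal.ofReal (F x))) := by
      refine ((ENNReal.continuous_ofReal.tendsto _).comp hx).congr' ?_
      filter_upwards [self_mem_nhdsWithin] with ε hε
      have : 0 < ε := hε
      simp [g, this]
    exact this.liminf_eq
  have h3 : liminf (fun ε => ∫⁻ x, ENNReal.ofReal (g ε x)) (𝓝[>] (0 : ℝ)) ≤ ENNReal.ofReal B := by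
    refine liminf_le_of_frequently_le' ?_
    refine Eventually.frequently ?_
    filter_upwards [self_mem_nhdsWithin] with ε hε
    have hε' : 0 < ε := hε
    simp only [g, hε', if_true]
    rw [← ofReal_integral_eq_lintegral_ofReal (hf ε hε')
      (by filter_upwards with x; exact h0 ε hε' x)]
    exact ENNReal.ofReal_le_ofReal (hB ε hε')
  rw [h2, ← ofReal_integral_eq_lintegral_ofReal hF hF0] at h1
  exact (ENNReal.ofReal_le_ofReal_iff hB0).1 (h1.trans h3)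

/-! ## Caccioppoli's inequality -/

section Main

variable {H : Type} [NormedAddCommGroup H] [InnerProductSpace ℝ H] [CompleteSpace H]
  [SecondCountableTopology H]

lemma resData (d : UCData H) : ResData d.K d.R := ⟨d.K_symm, d.K_pos, d.KR, d.RK⟩

lemma ae_orth (d : UCData H) : ∀ᵐ x, ∀ a, ∀ w, d.K w = 0 → ⟪w, d.D a x⟫_ℝ = 0 := by
  have hz : ∀ z, d.K z = 0 → ∀ a, ∀ᵐ x, ⟪d.D a x, z⟫_ℝ = 0 := by
    intro z hz a
    have h0 : ∀ᵐ x, ⟪d.Ψ x, z⟫_ℝ = 0 := by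
      filter_upwards [d.lim] with x hx
      exact (resData d).orth_ker hx hz
    have hs := sob_inner d.sob z
    have hl : LocallyIntegrable (fun x => ⟪d.D a x, z⟫_ℝ) volume :=
      (hs.memLp_grad a).locallyIntegrable (by norm_num)
    refine ae_eq_zero_of_integral_contDiff_smul_eq_zero hl ?_
    intro ζ h1 h2
    have hw := hs.weak a ζ ⟨h1, h2⟩
    have e : ∫ x, (fderiv ℝ ζ x (ax a)) • ⟪d.Ψ x, z⟫_ℝ = 0 := by
      rw [integral_eq_zero_of_ae]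
      filter_upwards [h0] with x hx
      rw [hx, smul_zero]; rfl
    rw [e] at hw
    linarith
  let N : Submodule ℝ H := LinearMap.ker (d.K : H →ₗ[ℝ] H)
  have hd : ∀ᵐ x, ∀ a, ∀ n : ℕ, ⟪d.D a x, (TopologicalSpace.denseSeq N n : H)⟫_ℝ = 0 := by
    rw [ae_all_iff]; intro a
    rw [ae_all_iff]; intro n
    exact hz _ (TopologicalSpace.denseSeq N n).2 a
  filter_upwards [hd] with x hx
  intro a w hw
  have hc : Continuous (fun y : N => ⟪d.D a x, (y : H)⟫_ℝ) :=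
    continuous_const.inner continuous_subtype_val
  have h1 : (fun y : N => ⟪d.D a x, (y : H)⟫_ℝ) = fun _ => 0 := by
    refine hc.ext_on (TopologicalSpace.denseRange_denseSeq N) continuous_const ?_
    rintro _ ⟨n, rfl⟩
    exact hx a n
  have := congrFun h1 ⟨w, hw⟩
  rw [real_inner_comm]
  exact this

/-- The vector valued equation for `J Ψ`. -/
lemma eqn_J (d : UCData H) {δ : ℝ} (hδ : 0 < δ) (ζ : E3 → ℝ) (hζ : IsTest ζ) (h : H) :
    1 / 2 * (∑ a, ∫ x, fderiv ℝ ζ x (ax a) * ⟪d.K (d.R δ (d.D a x)), h⟫_ℝ)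
        + (∫ x, d.v x * (ζ x * ⟪d.K (d.R δ (d.Ψ x)), h⟫_ℝ)) =
      ∫ x, ζ x * ⟪d.K (d.R δ (d.G x)) - d.R δ (d.Ψ x), h⟫_ℝ := by
  have hr := resData d
  have he := d.eqn ζ hζ (d.R δ h)
  have e1 : ∀ y : H, ⟪y, d.K (d.R δ h)⟫_ℝ = ⟪d.K (d.R δ y), h⟫_ℝ := fun y =>
    (hr.J_symm hδ y h).symm
  have e2 : ∀ y : H, ⟪y, d.R δ h⟫_ℝ = ⟪d.R δ y, h⟫_ℝ := fun y => (hr.R_symm hδ y h).symm
  simp only [e1, e2] at he
  have m1 : MemLp (fun x => d.K (d.R δ (d.G x))) 2 volume :=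
    (d.K.comp (d.R δ)).comp_memLp' d.memG
  have m2 : MemLp (fun x => d.R δ (d.Ψ x)) 2 volume := (d.R δ).comp_memLp' d.sob.memLp
  have mh : ∀ {f : E3 → H}, MemLp f 2 volume → MemLp (fun x => ⟪f x, h⟫_ℝ) 2 volume := by
    intro f hf
    have := (innerSL ℝ h).comp_memLp' hf
    simpa only [Function.comp_def, innerSL_apply_apply, real_inner_comm] using this
  have i1 : Integrable (fun x => ζ x * ⟪d.K (d.R δ (d.G x)), h⟫_ℝ) volume :=
    integrable_smul_of_test (H := ℝ) (test_memLp hζ _) (mh m1)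
  have i2 : Integrable (fun x => ζ x * ⟪d.R δ (d.Ψ x), h⟫_ℝ) volume :=
    integrable_smul_of_test (H := ℝ) (test_memLp hζ _) (mh m2)
  have e3 : ∫ x, ζ x * ⟪d.K (d.R δ (d.G x)) - d.R δ (d.Ψ x), h⟫_ℝ =
      (∫ x, ζ x * ⟪d.K (d.R δ (d.G x)), h⟫_ℝ) - ∫ x, ζ x * ⟪d.R δ (d.Ψ x), h⟫_ℝ := by
    rw [← integral_sub i1 i2]
    refine integral_congr_ae ?_
    filter_upwards with x
    rw [inner_sub_left]; ring
  rw [e3]
  linarith

lemma est_delta (hF : Target_FormBound) (hT : Target_TestH1) (d : UCData H) :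
    ∃ C : ℝ, 0 ≤ C ∧ ∀ χ : E3 → ℝ, IsTest χ → ∀ δ > 0,
      (∫ x, (1 / 4 * (∑ a, χ x ^ 2 * ‖d.K (d.R δ (d.D a x))‖ ^ 2)
          + χ x ^ 2 * ⟪d.K (d.R δ (d.Ψ x)), d.R δ (d.Ψ x)⟫_ℝ)) ≤
        C * (∫ x, (χ x ^ 2 + ∑ a, fderiv ℝ χ x (ax a) ^ 2) * ‖d.Ψ x‖ ^ 2)
          + 1 / 2 * ∫ x, χ x ^ 2 * d.α x ^ 2 := by
  obtain ⟨C1, hC1, hfb⟩ := formBound_vec hF d.hv (ε := 1 / 16) (by norm_num)
  refine ⟨C1 + d.C₁ ^ 2 + 3, by positivity, ?_⟩
  intro χ hχ δ hδ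
  have hr := resData d
  let J : H →L[ℝ] H := d.K.comp (d.R δ)
  have hJ : ∀ y, J y = d.K (d.R δ y) := fun y => rfl
  have hsJ : Sob ax (fun x => J (d.Ψ x)) (fun a x => J (d.D a x)) := sob_clm J d.sob
  have mR : MemLp (fun x => d.R δ (d.Ψ x)) 2 volume := (d.R δ).comp_memLp' d.sob.memLp
  have mG : MemLp (fun x => J (d.G x)) 2 volume := J.comp_memLp' d.memG
  have hχ2 : MemLp (fun x => χ x ^ 2) ⊤ volume := by
    have := test_memLp (test_mul hχ hχ) ⊤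
    simpa [sq] using this
  have hχd2 : ∀ a, MemLp (fun x => fderiv ℝ χ x (ax a) ^ 2) ⊤ volume := by
    intro a
    have h1 := MemLp.mul (p := ⊤) (q := ⊤) (r := ⊤) (test_fderiv_memLp hχ (ax a) ⊤)
      (test_fderiv_memLp hχ (ax a) ⊤)
    have h2 : (fun x => fderiv ℝ χ x (ax a) ^ 2) =
        (fun x => fderiv ℝ χ x (ax a)) * fun x => fderiv ℝ χ x (ax a) := by
      funext x
      rw [Pi.mul_apply, sq]
    rw [h2]
    exact h1
  have hχd : ∀ a, MemLp (fun x => 2 * χ x * fderiv ℝ χ x (ax a)) ⊤ volume := by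
    intro a
    have := (MemLp.mul (p := ⊤) (q := ⊤) (r := ⊤) (test_fderiv_memLp hχ (ax a) ⊤)
      (test_memLp hχ ⊤)).const_mul 2
    simpa [mul_assoc] using this
  obtain ⟨hvi, hvb⟩ := hfb H _ _ (sob_smul hχ hsJ)
  have hid := vec_test hT d.hv hsJ (mG.sub mR) hχ hvi (fun ζ hζ h => eqn_J d hδ ζ hζ h)
  -- integrability
  have iA : ∀ a, Integrable (fun x => χ x ^ 2 * ‖J (d.D a x)‖ ^ 2) volume := fun a =>
    integrable_bdd hχ2 (integrable_norm_sq (hsJ.memLp_grad a))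
  have iS : ∀ a, Integrable (fun x => fderiv ℝ χ x (ax a) ^ 2 * ‖d.Ψ x‖ ^ 2) volume := fun a =>
    integrable_bdd (hχd2 a) (integrable_norm_sq d.sob.memLp)
  have iP : Integrable (fun x => χ x ^ 2 * ‖d.Ψ x‖ ^ 2) volume :=
    integrable_bdd hχ2 (integrable_norm_sq d.sob.memLp)
  have iQ : Integrable (fun x => χ x ^ 2 * d.α x ^ 2) volume := by
    refine integrable_bdd hχ2 ?_
    have := integrable_norm_sq (H := ℝ) d.memα
    simpa using this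
  have iW : Integrable (fun x => χ x ^ 2 * ⟪J (d.Ψ x), d.R δ (d.Ψ x)⟫_ℝ) volume :=
    integrable_bdd hχ2 (integrable_inner hsJ.memLp mR)
  have iG : Integrable (fun x => χ x ^ 2 * ⟪J (d.Ψ x), J (d.G x) - d.R δ (d.Ψ x)⟫_ℝ) volume :=
    integrable_bdd hχ2 (integrable_inner hsJ.memLp (mG.sub mR))
  have iB : ∀ a, Integrable (fun x => 2 * χ x * fderiv ℝ χ x (ax a) *
      ⟪J (d.Ψ x), J (d.D a x)⟫_ℝ) volume := fun a =>
    integrable_bdd (hχd a) (integrable_inner hsJ.memLp (hsJ.memLp_grad a))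
  have nJ : ∀ y, ‖J y‖ ≤ ‖y‖ := fun y => hr.norm_J_le hδ y
  -- (f2)
  have f2 : ∀ a, -(∫ x, 2 * χ x * fderiv ℝ χ x (ax a) * ⟪J (d.Ψ x), J (d.D a x)⟫_ℝ) ≤
      1 / 4 * (∫ x, χ x ^ 2 * ‖J (d.D a x)‖ ^ 2) +
        4 * ∫ x, fderiv ℝ χ x (ax a) ^ 2 * ‖d.Ψ x‖ ^ 2 := by
    intro a
    rw [← integral_neg, ← integral_const_mul, ← integral_const_mul,
      ← integral_add ((iA a).const_mul _) ((iS a).const_mul _)]
    refine integral_mono (iB a).neg (((iA a).const_mul _).add ((iS a).const_mul _)) ?_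
    intro x
    have h1 : |⟪J (d.Ψ x), J (d.D a x)⟫_ℝ| ≤ ‖d.Ψ x‖ * ‖J (d.D a x)‖ :=
      (abs_real_inner_le_norm _ _).trans (mul_le_mul_of_nonneg_right (nJ _) (norm_nonneg _))
    have h2 : -(2 * χ x * fderiv ℝ χ x (ax a) * ⟪J (d.Ψ x), J (d.D a x)⟫_ℝ) ≤
        2 * (|χ x| * ‖J (d.D a x)‖) * (|fderiv ℝ χ x (ax a)| * ‖d.Ψ x‖) := by
      refine (neg_le_abs _).trans ?_
      rw [abs_mul, abs_mul, abs_mul, abs_two]
      calc 2 * |χ x| * |fderiv ℝ χ x (ax a)| * |⟪J (d.Ψ x), J (d.D a x)⟫_ℝ|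
          ≤ 2 * |χ x| * |fderiv ℝ χ x (ax a)| * (‖d.Ψ x‖ * ‖J (d.D a x)‖) :=
            mul_le_mul_of_nonneg_left h1 (by positivity)
        _ = _ := by ring
    refine h2.trans ?_
    have h3 : χ x ^ 2 * ‖J (d.D a x)‖ ^ 2 = (|χ x| * ‖J (d.D a x)‖) ^ 2 := by
      rw [mul_pow, sq_abs]
    have h4 : fderiv ℝ χ x (ax a) ^ 2 * ‖d.Ψ x‖ ^ 2 =
        (|fderiv ℝ χ x (ax a)| * ‖d.Ψ x‖) ^ 2 := by
      rw [mul_pow, sq_abs]
    simp only [h3, h4]
    nlinarith [sq_nonneg (|χ x| * ‖J (d.D a x)‖ / 2 - 2 * (|fderiv ℝ χ x (ax a)| * ‖d.Ψ x‖))]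
  -- (f3)
  have f3a : ∀ a, ∫ x, ‖χ x • J (d.D a x) + fderiv ℝ χ x (ax a) • J (d.Ψ x)‖ ^ 2 ≤
      2 * (∫ x, χ x ^ 2 * ‖J (d.D a x)‖ ^ 2) +
        2 * ∫ x, fderiv ℝ χ x (ax a) ^ 2 * ‖d.Ψ x‖ ^ 2 := by
    intro a
    rw [← integral_const_mul, ← integral_const_mul,
      ← integral_add ((iA a).const_mul _) ((iS a).const_mul _)]
    refine integral_mono (integrable_norm_sq ((sob_smul hχ hsJ).memLp_grad a))
      (((iA a).const_mul _).add ((iS a).const_mul _)) ?_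
    intro x
    have h1 : ‖χ x • J (d.D a x) + fderiv ℝ χ x (ax a) • J (d.Ψ x)‖ ≤
        |χ x| * ‖J (d.D a x)‖ + |fderiv ℝ χ x (ax a)| * ‖d.Ψ x‖ := by
      refine (norm_add_le _ _).trans ?_
      rw [norm_smul, norm_smul, Real.norm_eq_abs, Real.norm_eq_abs]
      gcongr
      exact nJ _
    have h2 := pow_le_pow_left₀ (norm_nonneg _) h1 2
    refine h2.trans ?_
    have h3 : χ x ^ 2 * ‖J (d.D a x)‖ ^ 2 = (|χ x| * ‖J (d.D a x)‖) ^ 2 := by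
      rw [mul_pow, sq_abs]
    have h4 : fderiv ℝ χ x (ax a) ^ 2 * ‖d.Ψ x‖ ^ 2 =
        (|fderiv ℝ χ x (ax a)| * ‖d.Ψ x‖) ^ 2 := by
      rw [mul_pow, sq_abs]
    simp only [h3, h4]
    nlinarith [sq_nonneg (|χ x| * ‖J (d.D a x)‖ - |fderiv ℝ χ x (ax a)| * ‖d.Ψ x‖)]
  have f3b : ∫ x, ‖χ x • J (d.Ψ x)‖ ^ 2 ≤ ∫ x, χ x ^ 2 * ‖d.Ψ x‖ ^ 2 := by
    refine integral_mono (integrable_norm_sq (sob_smul hχ hsJ).memLp) iP ?_
    intro x
    simp only [norm_smul, mul_pow, Real.norm_eq_abs, sq_abs]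
    gcongr
    exact nJ _
  have f3c : (∫ x, d.v x * χ x ^ 2 * ⟪J (d.Ψ x), J (d.Ψ x)⟫_ℝ) =
      ∫ x, d.v x * ‖χ x • J (d.Ψ x)‖ ^ 2 := by
    refine integral_congr_ae ?_
    filter_upwards with x
    rw [norm_smul, mul_pow, Real.norm_eq_abs, sq_abs, real_inner_self_eq_norm_sq]
    ring
  have f3 := (abs_le.1 hvb).1
  -- (f4)
  have f4 : ∫ x, χ x ^ 2 * ⟪J (d.Ψ x), J (d.G x) - d.R δ (d.Ψ x)⟫_ℝ ≤
      1 / 2 * (∫ x, χ x ^ 2 * d.α x ^ 2) + d.C₁ ^ 2 / 2 * (∫ x, χ x ^ 2 * ‖d.Ψ x‖ ^ 2)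
        - ∫ x, χ x ^ 2 * ⟪J (d.Ψ x), d.R δ (d.Ψ x)⟫_ℝ := by
    have iQP : Integrable (fun x => 1 / 2 * (χ x ^ 2 * d.α x ^ 2) +
        d.C₁ ^ 2 / 2 * (χ x ^ 2 * ‖d.Ψ x‖ ^ 2)) volume :=
      (iQ.const_mul _).add (iP.const_mul _)
    rw [← integral_const_mul, ← integral_const_mul,
      ← integral_add (iQ.const_mul _) (iP.const_mul _), ← integral_sub iQP iW]
    refine integral_mono_ae iG (iQP.sub iW) ?_
    filter_upwards [d.G_le] with x hx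
    rw [inner_sub_right]
    have h1 : ⟪J (d.Ψ x), J (d.G x)⟫_ℝ ≤ ‖d.Ψ x‖ * (d.C₁ * d.α x) := by
      refine (real_inner_le_norm _ _).trans ?_
      exact mul_le_mul (nJ _) ((nJ _).trans hx) (norm_nonneg _) (norm_nonneg _)
    have h2 : ‖d.Ψ x‖ * (d.C₁ * d.α x) ≤ 1 / 2 * d.α x ^ 2 + d.C₁ ^ 2 / 2 * ‖d.Ψ x‖ ^ 2 := by
      nlinarith [sq_nonneg (d.α x - d.C₁ * ‖d.Ψ x‖)]
    nlinarith [mul_le_mul_of_nonneg_left (h1.trans h2) (sq_nonneg (χ x))]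
  -- conclusion
  have e1 : (∫ x, (1 / 4 * (∑ a, χ x ^ 2 * ‖d.K (d.R δ (d.D a x))‖ ^ 2)
          + χ x ^ 2 * ⟪d.K (d.R δ (d.Ψ x)), d.R δ (d.Ψ x)⟫_ℝ)) =
      1 / 4 * (∑ a, ∫ x, χ x ^ 2 * ‖J (d.D a x)‖ ^ 2) +
        ∫ x, χ x ^ 2 * ⟪J (d.Ψ x), d.R δ (d.Ψ x)⟫_ℝ := by
    have iA' : Integrable (fun x => 1 / 4 * ∑ a, χ x ^ 2 * ‖J (d.D a x)‖ ^ 2) volume :=
      (integrable_finsetSum _ (fun a _ => iA a)).const_mul _
    rw [← integral_finsetSum _ (fun a _ => iA a), ← integral_const_mul, ← integral_add iA' iW]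
    rfl
  have e2 : (∫ x, (χ x ^ 2 + ∑ a, fderiv ℝ χ x (ax a) ^ 2) * ‖d.Ψ x‖ ^ 2) =
      (∫ x, χ x ^ 2 * ‖d.Ψ x‖ ^ 2) + ∑ a, ∫ x, fderiv ℝ χ x (ax a) ^ 2 * ‖d.Ψ x‖ ^ 2 := by
    rw [← integral_finsetSum _ (fun a _ => iS a), ← integral_add iP
      (integrable_finsetSum _ (fun a _ => iS a))]
    refine integral_congr_ae ?_
    filter_upwards with x
    rw [add_mul, Finset.sum_mul]
  rw [e1, e2]
  have nP : 0 ≤ ∫ x, χ x ^ 2 * ‖d.Ψ x‖ ^ 2 := integral_nonneg fun x => by positivity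
  have nS : ∀ a, 0 ≤ ∫ x, fderiv ℝ χ x (ax a) ^ 2 * ‖d.Ψ x‖ ^ 2 := fun a =>
    integral_nonneg fun x => by positivity
  have hid2 : 1 / 2 * (∑ a, ((∫ x, χ x ^ 2 * ‖J (d.D a x)‖ ^ 2) +
        ∫ x, 2 * χ x * fderiv ℝ χ x (ax a) * ⟪J (d.Ψ x), J (d.D a x)⟫_ℝ))
      + (∫ x, d.v x * ‖χ x • J (d.Ψ x)‖ ^ 2) =
      ∫ x, χ x ^ 2 * ⟪J (d.Ψ x), J (d.G x) - d.R δ (d.Ψ x)⟫_ℝ := by
    rw [← f3c]
    simpa only [real_inner_self_eq_norm_sq, Pi.sub_apply] using hid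
  clear hid
  rename' hid2 => hid
  rw [Fin.sum_univ_three] at hid f3 ⊢
  rw [Fin.sum_univ_three]
  have g0 := f2 0
  have g1 := f2 1
  have g2 := f2 2
  have k0 := f3a 0
  have k1 := f3a 1
  have k2 := f3a 2
  have n0 := nS 0
  have n1 := nS 1
  have n2 := nS 2
  have hC1P := mul_le_mul_of_nonneg_left f3b hC1
  have p1 : 0 ≤ C1 * ((∫ x, fderiv ℝ χ x (ax 0) ^ 2 * ‖d.Ψ x‖ ^ 2)) := mul_nonneg hC1 n0
  have p2 : 0 ≤ C1 * ((∫ x, fderiv ℝ χ x (ax 1) ^ 2 * ‖d.Ψ x‖ ^ 2)) := mul_nonneg hC1 n1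
  have p3 : 0 ≤ C1 * ((∫ x, fderiv ℝ χ x (ax 2) ^ 2 * ‖d.Ψ x‖ ^ 2)) := mul_nonneg hC1 n2
  have q1 := mul_nonneg (sq_nonneg d.C₁) n0
  have q2 := mul_nonneg (sq_nonneg d.C₁) n1
  have q3 := mul_nonneg (sq_nonneg d.C₁) n2
  have q4 := mul_nonneg (sq_nonneg d.C₁) nP
  linarith

lemma est_lim (hF : Target_FormBound) (hT : Target_TestH1) (d : UCData H) :
    ∃ C : ℝ, 0 ≤ C ∧ ∀ χ : E3 → ℝ, IsTest χ →
      (∫ x, (1 / 4 * (∑ a, χ x ^ 2 * ‖d.D a x‖ ^ 2) + 1 / 2 * (χ x ^ 2 * d.α x ^ 2))) ≤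
        C * (∫ x, (χ x ^ 2 + ∑ a, fderiv ℝ χ x (ax a) ^ 2) * ‖d.Ψ x‖ ^ 2) := by
  obtain ⟨C, hC, hest⟩ := est_delta hF hT d
  refine ⟨C, hC, ?_⟩
  intro χ hχ
  have hr := resData d
  have hχ2 : MemLp (fun x => χ x ^ 2) ⊤ volume := by
    have := test_memLp (test_mul hχ hχ) ⊤
    simpa [sq] using this
  have iQ : Integrable (fun x => χ x ^ 2 * d.α x ^ 2) volume := by
    refine integrable_bdd hχ2 ?_
    have := integrable_norm_sq (H := ℝ) d.memα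
    simpa using this
  have iD : Integrable (fun x => 1 / 4 * (∑ a, χ x ^ 2 * ‖d.D a x‖ ^ 2)) volume :=
    (integrable_finsetSum _ (fun a _ =>
      integrable_bdd hχ2 (integrable_norm_sq (d.sob.memLp_grad a)))).const_mul _
  have key : ∫ x, (1 / 4 * (∑ a, χ x ^ 2 * ‖d.D a x‖ ^ 2) + χ x ^ 2 * d.α x ^ 2) ≤
      C * (∫ x, (χ x ^ 2 + ∑ a, fderiv ℝ χ x (ax a) ^ 2) * ‖d.Ψ x‖ ^ 2)
          + 1 / 2 * ∫ x, χ x ^ 2 * d.α x ^ 2 := by
    refine fatou_real (f := fun δ x =>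
      (1 / 4 * (∑ a, χ x ^ 2 * ‖d.K (d.R δ (d.D a x))‖ ^ 2)
          + χ x ^ 2 * ⟪d.K (d.R δ (d.Ψ x)), d.R δ (d.Ψ x)⟫_ℝ)) ?_ ?_ (iD.add iQ) ?_
        (fun δ hδ => hest χ hχ δ hδ)
    · intro δ hδ
      have mD : ∀ a, MemLp (fun x => d.K (d.R δ (d.D a x))) 2 volume := fun a =>
        (d.K.comp (d.R δ)).comp_memLp' (d.sob.memLp_grad a)
      have mΨ : MemLp (fun x => d.K (d.R δ (d.Ψ x))) 2 volume :=
        (d.K.comp (d.R δ)).comp_memLp' d.sob.memLp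
      have mR : MemLp (fun x => d.R δ (d.Ψ x)) 2 volume := (d.R δ).comp_memLp' d.sob.memLp
      exact ((integrable_finsetSum _ (fun a _ =>
        integrable_bdd hχ2 (integrable_norm_sq (mD a)))).const_mul _).add
        (integrable_bdd hχ2 (integrable_inner mΨ mR))
    · intro δ hδ x
      have := d.K_pos (d.R δ (d.Ψ x))
      positivity
    · filter_upwards [d.lim, ae_orth d] with x hx ho
      have h1 : ∀ a, Tendsto (fun δ => χ x ^ 2 * ‖d.K (d.R δ (d.D a x))‖ ^ 2) (𝓝[>] 0)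
          (𝓝 (χ x ^ 2 * ‖d.D a x‖ ^ 2)) := fun a =>
        ((hr.tendsto_J (ho a)).norm.pow 2).const_mul _
      exact ((tendsto_finsetSum _ (fun a _ => h1 a)).const_mul _).add
        ((hr.tendsto_RJ hx).const_mul _)
  rw [integral_add iD iQ] at key
  rw [integral_add iD (iQ.const_mul _), integral_const_mul (1 / 2 : ℝ)]
  linarith

/-- A cutoff function with `|∇χ| ≤ M/r`. -/
lemma exists_cutoff : ∃ M : ℝ, 0 ≤ M ∧ ∀ (x₀ : E3) (r : ℝ), 0 < r → ∃ χ : E3 → ℝ, IsTest χ ∧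
    (∀ x, 0 ≤ χ x ∧ χ x ≤ 1) ∧ (∀ x ∈ Metric.ball x₀ r, χ x = 1) ∧
    (∀ x, x ∉ Metric.ball x₀ (2 * r) → χ x = 0 ∧ ∀ a, fderiv ℝ χ x (ax a) = 0) ∧
    ∀ x a, |fderiv ℝ χ x (ax a)| ≤ M / r := by
  let f : ContDiffBump (0 : E3) := ⟨1, 3 / 2, one_pos, by norm_num⟩
  have hf1 : ContDiff ℝ (⊤ : ℕ∞) f := f.contDiff
  have hfc : HasCompactSupport f := f.hasCompactSupport
  obtain ⟨M, hM⟩ := (hf1.continuous_fderiv (by simp)).bounded_above_of_compact_support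
    (hfc.fderiv (𝕜 := ℝ))
  have hM0 : 0 ≤ M := (norm_nonneg _).trans (hM 0)
  refine ⟨M, hM0, ?_⟩
  intro x₀ r hr
  let g : E3 → E3 := fun x => r⁻¹ • (x - x₀)
  have hg : ContDiff ℝ (⊤ : ℕ∞) g := (contDiff_id.sub contDiff_const).const_smul _
  have hgd : ∀ x, HasFDerivAt g (r⁻¹ • ContinuousLinearMap.id ℝ E3) x := fun x =>
    ((hasFDerivAt_id x).sub_const x₀).const_smul r⁻¹
  have hnorm : ∀ x, ‖g x‖ = r⁻¹ * dist x x₀ := by
    intro x
    rw [norm_smul, Real.norm_of_nonneg (inv_nonneg.2 hr.le), dist_eq_norm]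
  have hd : ∀ x e, fderiv ℝ (fun x => f (g x)) x e = r⁻¹ * fderiv ℝ f (g x) e := by
    intro x e
    have h1 : HasFDerivAt f (fderiv ℝ f (g x)) (g x) :=
      (hf1.differentiable (by simp) (g x)).hasFDerivAt
    have h2 := h1.comp x (hgd x)
    have h3 : fderiv ℝ (fun x => f (g x)) x =
        (fderiv ℝ f (g x)).comp (r⁻¹ • ContinuousLinearMap.id ℝ E3) := h2.fderiv
    rw [h3]
    simp
  have hz : ∀ x, x ∉ Metric.ball x₀ (2 * r) → g x ∉ tsupport f := by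
    intro x hx
    rw [f.tsupport_eq, mem_closedBall_zero_iff, hnorm]
    rw [Metric.mem_ball, not_lt] at hx
    change ¬ (r⁻¹ * dist x x₀ ≤ 3 / 2)
    rw [not_le]
    have : r⁻¹ * (2 * r) ≤ r⁻¹ * dist x x₀ :=
      mul_le_mul_of_nonneg_left hx (inv_nonneg.2 hr.le)
    have e : r⁻¹ * (2 * r) = 2 := by field_simp
    linarith
  refine ⟨fun x => f (g x), ⟨hf1.comp hg, ?_⟩, fun x => ⟨f.nonneg, f.le_one⟩, ?_, ?_, ?_⟩
  · refine HasCompactSupport.of_support_subset_isCompact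
      (isCompact_closedBall x₀ (2 * r)) ?_
    intro x hx
    by_contra hx2
    have : x ∉ Metric.ball x₀ (2 * r) := fun h => hx2 (Metric.ball_subset_closedBall h)
    exact hx (image_eq_zero_of_notMem_tsupport (hz x this))
  · intro x hx
    refine f.one_of_mem_closedBall ?_
    rw [mem_closedBall_zero_iff, hnorm]
    change r⁻¹ * dist x x₀ ≤ 1
    rw [inv_mul_le_iff₀ hr]
    linarith [Metric.mem_ball.1 hx]
  · intro x hx
    refine ⟨image_eq_zero_of_notMem_tsupport (hz x hx), fun a => ?_⟩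
    rw [hd]
    have : fderiv ℝ f (g x) = 0 := by
      by_contra h
      exact hz x hx (support_fderiv_subset ℝ h)
    rw [this]
    simp
  · intro x a
    rw [hd, abs_mul, abs_of_nonneg (inv_nonneg.2 hr.le), div_eq_inv_mul]
    refine mul_le_mul_of_nonneg_left ?_ (inv_nonneg.2 hr.le)
    have h1 := (fderiv ℝ f (g x)).le_opNorm (ax a)
    have h2 : ‖ax a‖ = 1 := by simp [ax]
    rw [h2, mul_one, Real.norm_eq_abs] at h1
    exact h1.trans (hM _)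

end Main

end CaccAux

open CaccAux in
/-- Caccioppoli's inequality. -/
theorem target_Cacc (_hA : Target_Approx) (hF : Target_FormBound) (hT : Target_TestH1) :
    Target_Cacc := by
  intro H _ _ _ _ d
  obtain ⟨C, hC, hest⟩ := est_lim hF hT d
  obtain ⟨M, hM, hcut⟩ := exists_cutoff
  refine ⟨4 * (C * (1 + 3 * M ^ 2)), ?_⟩
  intro x₀ r hr hr1
  obtain ⟨χ, hχ, h01, hone, hzero, hder⟩ := hcut x₀ r hr
  have hχ2 : MemLp (fun x => χ x ^ 2) ⊤ volume := by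
    have := test_memLp (test_mul hχ hχ) ⊤
    simpa [sq] using this
  have ia : Integrable (fun x => d.α x ^ 2) volume := by
    have := integrable_norm_sq (H := ℝ) d.memα
    simpa using this
  have iS : Integrable (fun x => (∑ a, ‖d.D a x‖ ^ 2) + d.α x ^ 2) volume :=
    (integrable_finsetSum _ (fun a _ => integrable_norm_sq (d.sob.memLp_grad a))).add ia
  have iQ : Integrable (fun x => χ x ^ 2 * d.α x ^ 2) volume := integrable_bdd hχ2 ia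
  have iD : Integrable (fun x => 1 / 4 * (∑ a, χ x ^ 2 * ‖d.D a x‖ ^ 2)) volume :=
    (integrable_finsetSum _ (fun a _ =>
      integrable_bdd hχ2 (integrable_norm_sq (d.sob.memLp_grad a)))).const_mul _
  have iT : Integrable (fun x => 4 * (1 / 4 * (∑ a, χ x ^ 2 * ‖d.D a x‖ ^ 2)
      + 1 / 2 * (χ x ^ 2 * d.α x ^ 2))) volume := (iD.add (iQ.const_mul _)).const_mul _
  have s1 : ∫ x in Metric.ball x₀ r, ((∑ a, ‖d.D a x‖ ^ 2) + d.α x ^ 2) ≤
      4 * ∫ x, (1 / 4 * (∑ a, χ x ^ 2 * ‖d.D a x‖ ^ 2) + 1 / 2 * (χ x ^ 2 * d.α x ^ 2)) := by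
    rw [← integral_const_mul]
    refine le_trans ?_ (setIntegral_le_integral (s := Metric.ball x₀ r) iT ?_)
    · refine setIntegral_mono_on iS.integrableOn iT.integrableOn Metric.isOpen_ball.measurableSet ?_
      intro x hx
      simp only [hone x hx, one_pow, one_mul]
      nlinarith [sq_nonneg (d.α x)]
    · filter_upwards with x
      have : 0 ≤ ∑ a, χ x ^ 2 * ‖d.D a x‖ ^ 2 := Finset.sum_nonneg fun a _ => by positivity
      simp only [Pi.zero_apply]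
      positivity
  have s2 : ∫ x, (χ x ^ 2 + ∑ a, fderiv ℝ χ x (ax a) ^ 2) * ‖d.Ψ x‖ ^ 2 ≤
      (1 + 3 * M ^ 2) / r ^ 2 * ∫ x in Metric.ball x₀ (2 * r), ‖d.Ψ x‖ ^ 2 := by
    have e1 : ∫ x, (χ x ^ 2 + ∑ a, fderiv ℝ χ x (ax a) ^ 2) * ‖d.Ψ x‖ ^ 2 =
        ∫ x in Metric.ball x₀ (2 * r), (χ x ^ 2 + ∑ a, fderiv ℝ χ x (ax a) ^ 2) * ‖d.Ψ x‖ ^ 2 := by
      rw [setIntegral_eq_integral_of_forall_compl_eq_zero]
      intro x hx
      obtain ⟨h1, h2⟩ := hzero x hx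
      simp [h1, h2]
    rw [e1, ← integral_const_mul]
    have hb : ∀ x, χ x ^ 2 + ∑ a, fderiv ℝ χ x (ax a) ^ 2 ≤ (1 + 3 * M ^ 2) / r ^ 2 := by
      intro x
      have h1 : χ x ^ 2 ≤ 1 := by
        have := h01 x
        nlinarith
      have h2 : ∀ a, fderiv ℝ χ x (ax a) ^ 2 ≤ (M / r) ^ 2 := by
        intro a
        rw [← sq_abs]
        exact pow_le_pow_left₀ (abs_nonneg _) (hder x a) 2
      rw [Fin.sum_univ_three]
      have h3 : 1 ≤ 1 / r ^ 2 := by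
        rw [le_div_iff₀ (by positivity), one_mul]
        exact pow_le_one₀ hr.le hr1
      have h4 : (1 + 3 * M ^ 2) / r ^ 2 = 1 / r ^ 2 + 3 * (M / r) ^ 2 := by
        rw [div_pow, add_div]; ring
      rw [h4]
      linarith [h2 0, h2 1, h2 2]
    have hn : ∀ x, 0 ≤ χ x ^ 2 + ∑ a, fderiv ℝ χ x (ax a) ^ 2 := by
      intro x
      have : 0 ≤ ∑ a, fderiv ℝ χ x (ax a) ^ 2 := Finset.sum_nonneg fun a _ => sq_nonneg _
      positivity
    have iΨ : Integrable (fun x => (1 + 3 * M ^ 2) / r ^ 2 * ‖d.Ψ x‖ ^ 2)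
        (volume.restrict (Metric.ball x₀ (2 * r))) :=
      ((integrable_norm_sq d.sob.memLp).const_mul _).integrableOn
    refine integral_mono_of_nonneg ?_ iΨ ?_
    · filter_upwards with x
      exact mul_nonneg (hn x) (by positivity)
    · filter_upwards with x
      exact mul_le_mul_of_nonneg_right (hb x) (by positivity)
  have s3 := hest χ hχ
  calc ∫ x in Metric.ball x₀ r, ((∑ a, ‖d.D a x‖ ^ 2) + d.α x ^ 2)
      ≤ 4 * ∫ x, (1 / 4 * (∑ a, χ x ^ 2 * ‖d.D a x‖ ^ 2) + 1 / 2 * (χ x ^ 2 * d.α x ^ 2)) := s1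
    _ ≤ 4 * (C * (∫ x, (χ x ^ 2 + ∑ a, fderiv ℝ χ x (ax a) ^ 2) * ‖d.Ψ x‖ ^ 2)) :=
        mul_le_mul_of_nonneg_left s3 (by norm_num)
    _ ≤ 4 * (C * ((1 + 3 * M ^ 2) / r ^ 2 * ∫ x in Metric.ball x₀ (2 * r), ‖d.Ψ x‖ ^ 2)) :=
        mul_le_mul_of_nonneg_left (mul_le_mul_of_nonneg_left s2 hC) (by norm_num)
    _ = 4 * (C * (1 + 3 * M ^ 2)) / r ^ 2 * ∫ x in Metric.ball x₀ (2 * r), ‖d.Ψ x‖ ^ 2 := by
        ring

end Pool.Agent.HK
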