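import Pool.Agent.HK.Spec

/-!
# Elementary calculus with test functions and weak derivatives
-/

open MeasureTheory Set Filter Topology
open scoped ENNReal NNReal InnerProductSpace

namespace Pool.Agent.HK

set_option linter.unusedSectionVars false

section Test

variable {E : Type*} [NormedAddCommGroup E] [NormedSpace ℝ E]

lemma IsTest.continuous {ζ : E → ℝ} (h : IsTest ζ) : Continuous ζ := h.1.continuous

lemma IsTest.differentiable {ζ : E → ℝ} (h : IsTest ζ) : Differentiable ℝ ζ :=
  h.1.differentiable (by simp)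

lemma contDiff_fderiv_apply {f : E → ℝ} (hf : ContDiff ℝ (⊤ : ℕ∞) f) (e : E) :
    ContDiff ℝ (⊤ : ℕ∞) (fun x => fderiv ℝ f x e) :=
  (hf.fderiv_right (m := (⊤ : ℕ∞)) (by norm_cast)).clm_apply contDiff_const

lemma IsTest.dir {ζ : E → ℝ} (h : IsTest ζ) (e : E) : IsTest (fun x => fderiv ℝ ζ x e) :=
  ⟨contDiff_fderiv_apply h.1 e, by
    have := h.2.fderiv (𝕜 := ℝ)
    refine this.comp_left (g := fun L : E →L[ℝ] ℝ => L e) ?_
    simp⟩

lemma IsTest.mul_left {ζ χ : E → ℝ} (h : IsTest ζ) (hχ : ContDiff ℝ (⊤ : ℕ∞) χ) :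
    IsTest (fun x => χ x * ζ x) :=
  ⟨hχ.mul h.1, h.2.mul_left⟩

lemma IsTest.mul_right {ζ χ : E → ℝ} (h : IsTest ζ) (hχ : ContDiff ℝ (⊤ : ℕ∞) χ) :
    IsTest (fun x => ζ x * χ x) :=
  ⟨h.1.mul hχ, h.2.mul_right⟩

lemma fderiv_mul_apply {χ ζ : E → ℝ} (hχ : Differentiable ℝ χ) (hζ : Differentiable ℝ ζ)
    (x e : E) : fderiv ℝ (fun y => χ y * ζ y) x e =
      χ x * fderiv ℝ ζ x e + fderiv ℝ χ x e * ζ x := by
  rw [fderiv_fun_mul (hχ x) (hζ x)]
  simp [mul_comm]

end Test

section Weak

variable {E : Type*} [NormedAddCommGroup E] [NormedSpace ℝ E] [FiniteDimensional ℝ E]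
  [MeasureSpace E] [BorelSpace E] [(volume : Measure E).IsAddHaarMeasure]
  {F : Type*} [NormedAddCommGroup F] [NormedSpace ℝ F]

lemma IsTest.memLp {ζ : E → ℝ} (h : IsTest ζ) (p : ℝ≥0∞) : MemLp ζ p volume :=
  h.continuous.memLp_of_hasCompactSupport h.2

lemma IsTest.exists_bound {ζ : E → ℝ} (h : IsTest ζ) : ∃ C, ∀ x, |ζ x| ≤ C := by
  obtain ⟨C, hC⟩ := h.2.exists_bound_of_continuous h.continuous
  exact ⟨C, fun x => by simpa using hC x⟩

omit [FiniteDimensional ℝ E] in
lemma integrable_smul_of_memLp {f : E → ℝ} {u : E → F} (hf : MemLp f 2 volume)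
    (hu : MemLp u 2 volume) : Integrable (fun x => f x • u x) volume := by
  have := hu.smul hf (r := 1) (hpqr := ⟨by
    rw [inv_one]; exact ENNReal.inv_two_add_inv_two⟩)
  exact memLp_one_iff_integrable.1 this

omit [FiniteDimensional ℝ E] in
lemma integrable_mul_of_memLp {f : E → ℝ} {u : E → ℝ} (hf : MemLp f 2 volume)
    (hu : MemLp u 2 volume) : Integrable (fun x => f x * u x) volume :=
  integrable_smul_of_memLp hf hu

/-- product of a bounded continuous function with an `L²` function -/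
lemma memLp_smul_of_bound {f : E → ℝ} {u : E → F} (hf : Continuous f) {C : ℝ}
    (hC : ∀ x, |f x| ≤ C) {p : ℝ≥0∞} (hu : MemLp u p volume) :
    MemLp (fun x => f x • u x) p volume := by
  refine MemLp.of_le_mul (g := u) (c := C) hu (hf.aestronglyMeasurable.smul hu.1) ?_
  filter_upwards with x
  rw [norm_smul]
  exact mul_le_mul_of_nonneg_right (by simpa using hC x) (norm_nonneg _)

lemma IsTest.integrable_smul {ζ : E → ℝ} (h : IsTest ζ) {u : E → F} (hu : MemLp u 2 volume) :
    Integrable (fun x => ζ x • u x) volume :=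
  integrable_smul_of_memLp (h.memLp 2) hu

/-- Continuous linear maps commute with weak derivatives. -/
lemma WeakDeriv.clm {F' : Type*} [NormedAddCommGroup F'] [NormedSpace ℝ F'] [CompleteSpace F]
    [CompleteSpace F'] (L : F →L[ℝ] F') {u g : E → F} {e : E} (h : WeakDeriv u e g)
    (hu : MemLp u 2 volume) (hg : MemLp g 2 volume) :
    WeakDeriv (fun x => L (u x)) e (fun x => L (g x)) := by
  intro ζ hζ
  have h1 := L.integral_comp_comm ((hζ.dir e).integrable_smul hu)
  have h2 := L.integral_comp_comm (hζ.integrable_smul hg)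
  simp only [map_smul] at h1 h2
  rw [h1, h2, h ζ hζ, map_neg]

/-- Product rule with a smooth function. -/
lemma WeakDeriv.smul {χ : E → ℝ} (hχ : ContDiff ℝ (⊤ : ℕ∞) χ) {u g : E → F} {e : E}
    (h : WeakDeriv u e g) (hu : MemLp u 2 volume) (hg : MemLp g 2 volume) :
    WeakDeriv (fun x => χ x • u x) e (fun x => fderiv ℝ χ x e • u x + χ x • g x) := by
  intro ζ hζ
  have h1 := h (fun x => χ x * ζ x) (hζ.mul_left hχ)
  have e1 : ∀ x, (fderiv ℝ (fun y => χ y * ζ y) x e) • u x =
      (fderiv ℝ ζ x e * χ x) • u x + (ζ x * fderiv ℝ χ x e) • u x := by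
    intro x
    rw [fderiv_mul_apply (hχ.differentiable (by simp)) hζ.differentiable, add_smul]
    congr 2 <;> ring
  have i1 : Integrable (fun x => (fderiv ℝ ζ x e * χ x) • u x) volume :=
    ((hζ.dir e).mul_right hχ).integrable_smul hu
  have i2 : Integrable (fun x => (ζ x * fderiv ℝ χ x e) • u x) volume :=
    (hζ.mul_right (contDiff_fderiv_apply hχ e)).integrable_smul hu
  have i3 : Integrable (fun x => (χ x * ζ x) • g x) volume := (hζ.mul_left hχ).integrable_smul hg
  simp only [e1] at h1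
  rw [integral_add i1 i2] at h1
  have e2 : ∀ x, ζ x • (fderiv ℝ χ x e • u x + χ x • g x) =
      (ζ x * fderiv ℝ χ x e) • u x + (χ x * ζ x) • g x := by
    intro x
    rw [smul_add, smul_smul, smul_smul, mul_comm (ζ x) (χ x)]
  have e3 : ∀ x, fderiv ℝ ζ x e • (χ x • u x) = (fderiv ℝ ζ x e * χ x) • u x := by
    intro x; rw [smul_smul]
  simp only [e2, e3]
  rw [integral_add i2 i3, neg_add]
  rw [← h1]
  abel

/-- the weak derivative only depends on classes -/
lemma WeakDeriv.congr {u u' g g' : E → F} {e : E} (h : WeakDeriv u e g)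
    (hu : u =ᵐ[volume] u') (hg : g =ᵐ[volume] g') : WeakDeriv u' e g' := by
  intro ζ hζ
  have h1 := h ζ hζ
  have e1 : ∫ x, fderiv ℝ ζ x e • u x = ∫ x, fderiv ℝ ζ x e • u' x :=
    integral_congr_ae (by filter_upwards [hu] with x hx; rw [hx])
  have e2 : ∫ x, ζ x • g x = ∫ x, ζ x • g' x :=
    integral_congr_ae (by filter_upwards [hg] with x hx; rw [hx])
  rw [← e1, ← e2, h1]

/-- sums -/
lemma WeakDeriv.add {u u' g g' : E → F} {e : E} (h : WeakDeriv u e g) (h' : WeakDeriv u' e g')
    (hu : MemLp u 2 volume) (hg : MemLp g 2 volume) (hu' : MemLp u' 2 volume)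
    (hg' : MemLp g' 2 volume) :
    WeakDeriv (fun x => u x + u' x) e (fun x => g x + g' x) := by
  intro ζ hζ
  simp only [smul_add]
  rw [integral_add ((hζ.dir e).integrable_smul hu) ((hζ.dir e).integrable_smul hu'),
    integral_add (hζ.integrable_smul hg) (hζ.integrable_smul hg'), h ζ hζ, h' ζ hζ, neg_add]

/-- The weak derivative is unique. -/
lemma WeakDeriv.unique [CompleteSpace F] {u g g' : E → F} {e : E} (h : WeakDeriv u e g)
    (h' : WeakDeriv u e g') (hg : MemLp g 2 volume) (hg' : MemLp g' 2 volume) :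
    g =ᵐ[volume] g' := by
  have h0 : (fun x => g x - g' x) =ᵐ[volume] 0 := by
    have hloc : LocallyIntegrable (fun x => g x - g' x) volume :=
      (hg.sub hg').locallyIntegrable (by norm_num)
    refine ae_eq_zero_of_integral_contDiff_smul_eq_zero hloc ?_
    intro ζ hζ hc
    have hζ' : IsTest ζ := ⟨hζ, hc⟩
    have h1 := h ζ hζ'
    have h2 := h' ζ hζ'
    simp only [smul_sub]
    rw [integral_sub (hζ'.integrable_smul hg) (hζ'.integrable_smul hg')]
    have : ∫ x, ζ x • g x = ∫ x, ζ x • g' x := by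
      have := h1.symm.trans h2
      exact neg_injective this
    rw [this, sub_self]
  filter_upwards [h0] with x hx
  exact sub_eq_zero.1 hx

/-- Smooth compactly supported functions: the classical derivative is the weak one. -/
lemma IsTest.weakDeriv {f : E → ℝ} (hf : IsTest f) (e : E) :
    WeakDeriv f e (fun x => fderiv ℝ f x e) := by
  intro ζ hζ
  simp only [smul_eq_mul]
  have := integral_mul_fderiv_eq_neg_fderiv_mul_of_integrable (𝕜 := ℝ) (μ := (volume : Measure E))
    (f := ζ) (g := f) (v := e)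
    (integrable_mul_of_memLp ((hζ.dir e).memLp 2) (hf.memLp 2))
    (integrable_mul_of_memLp (hζ.memLp 2) ((hf.dir e).memLp 2))
    (integrable_mul_of_memLp (hζ.memLp 2) (hf.memLp 2)) (fun x _ => hζ.differentiable x)
    (fun x _ => hf.differentiable x)
  rw [this, neg_neg]

lemma IsTest.sob {ι : Type*} {f : E → ℝ} (hf : IsTest f) (e : ι → E) :
    Sob e f (fun i x => fderiv ℝ f x (e i)) :=
  ⟨hf.memLp 2, fun i => (hf.dir (e i)).memLp 2, fun i => hf.weakDeriv (e i)⟩

end Weak

end Pool.Agent.HK
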