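import Pool.Agent.HK.Calc

/-!
# HK-CH: the Carleman inequality lifted to Hilbert valued functions (finite rank approximation)
-/

open MeasureTheory Set Filter Topology
open scoped ENNReal NNReal InnerProductSpace

namespace Pool.Agent.HK.CarlH

/-- Diagonalisation of the compression of `M` to a finite dimensional subspace. -/
lemma spectral {H : Type*} [NormedAddCommGroup H] [InnerProductSpace ℝ H]
    (M : H →L[ℝ] H) (hM : ∀ x y, ⟪M x, y⟫_ℝ = ⟪x, M y⟫_ℝ) (hM0 : ∀ x, 0 ≤ ⟪M x, x⟫_ℝ)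
    (S : Submodule ℝ H) [FiniteDimensional ℝ S] :
    ∃ (n : ℕ) (e : Fin n → H) (lam : Fin n → ℝ), (∀ i, 0 ≤ lam i) ∧
      (∀ x, ∑ i, ⟪x, e i⟫_ℝ ^ 2 = ‖S.starProjection x‖ ^ 2) ∧
      (∀ x, ∑ i, lam i * ⟪x, e i⟫_ℝ ^ 2 = ⟪M (S.starProjection x), S.starProjection x⟫_ℝ) ∧
      (∀ x i, ⟪M x, e i⟫_ℝ = lam i * ⟪x, e i⟫_ℝ + ⟪M (x - S.starProjection x), e i⟫_ℝ) := by
  set T : S →ₗ[ℝ] S := (S.orthogonalProjectionOnto.comp (M.comp S.subtypeL)).toLinearMap with hT
  have hTs : T.IsSymmetric := by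
    intro x y
    simp only [hT, ContinuousLinearMap.coe_coe, ContinuousLinearMap.comp_apply,
      Submodule.subtypeL_apply]
    rw [Submodule.inner_orthogonalProjectionOnto_eq_of_mem_right,
      Submodule.inner_orthogonalProjectionOnto_eq_of_mem_left, hM]
  set b := hTs.eigenvectorBasis rfl with hb
  set lam := hTs.eigenvalues rfl with hlam
  have hTb : ∀ i, T (b i) = lam i • b i := fun i => hTs.apply_eigenvectorBasis rfl i
  have hin : ∀ (x : H) i, ⟪x, (b i : H)⟫_ℝ = ⟪S.orthogonalProjectionOnto x, b i⟫_ℝ := by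
    intro x i
    rw [real_inner_comm, ← Submodule.inner_orthogonalProjectionOnto_eq_of_mem_left,
      real_inner_comm]
  have hPb : ∀ i, S.starProjection (M (b i : H)) = lam i • (b i : H) := by
    intro i
    have := congrArg (fun z : S => (z : H)) (hTb i)
    simpa [hT] using this
  have hMb : ∀ i, ⟪M (b i : H), (b i : H)⟫_ℝ = lam i := by
    intro i
    have h1 : ⟪M (b i : H), (b i : H)⟫_ℝ = ⟪S.starProjection (M (b i : H)), (b i : H)⟫_ℝ := by
      rw [Submodule.inner_starProjection_left_eq_right,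
        Submodule.starProjection_eq_self_iff.2 (b i).2]
    rw [h1, hPb, real_inner_smul_left]
    have h2 : ⟪(b i : H), (b i : H)⟫_ℝ = 1 := by
      have h3 := b.orthonormal.1 i
      rw [real_inner_self_eq_norm_sq]
      rw [show ‖(b i : H)‖ = ‖b i‖ from rfl, h3]; norm_num
    rw [h2, mul_one]
  refine ⟨Module.finrank ℝ S, fun i => (b i : H), lam, ?_, ?_, ?_, ?_⟩
  · intro i
    rw [← hMb i]
    exact hM0 _
  · intro x
    simp only [hin]
    have := b.sum_sq_norm_inner_left (S.orthogonalProjectionOnto x)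
    simp only [Real.norm_eq_abs, sq_abs] at this
    rw [this]; rfl
  · intro x
    have h1 : ⟪M (S.starProjection x), S.starProjection x⟫_ℝ =
        ⟪T (S.orthogonalProjectionOnto x), S.orthogonalProjectionOnto x⟫_ℝ := by
      simp only [hT, ContinuousLinearMap.coe_coe, ContinuousLinearMap.comp_apply,
        Submodule.subtypeL_apply]
      rw [Submodule.inner_orthogonalProjectionOnto_eq_of_mem_right]
      rfl
    rw [h1, ← b.sum_inner_mul_inner]
    refine Finset.sum_congr rfl fun i _ => ?_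
    rw [hTs, hTb, real_inner_smul_right, hin, real_inner_comm (b i)]
    ring
  · intro x i
    have h1 : ⟪M (S.starProjection x), (b i : H)⟫_ℝ = lam i * ⟪x, (b i : H)⟫_ℝ := by
      rw [hM, Submodule.inner_starProjection_left_eq_right, hPb, real_inner_smul_right]
    rw [← h1, ← inner_add_left, ← map_add]
    congr 3
    abel


lemma isTest_shift {E : Type*} [NormedAddCommGroup E] [NormedSpace ℝ E] {ζ : E → ℝ}
    (hζ : IsTest ζ) (a : E) : IsTest (fun x => ζ (x + a)) := by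
  refine ⟨hζ.1.comp (contDiff_id.add contDiff_const), ?_⟩
  exact hζ.2.comp_homeomorph (Homeomorph.addRight a)

lemma weakDeriv_shift {F : Type*} [NormedAddCommGroup F] [NormedSpace ℝ F] {u g : E3 → F}
    {e : E3} (h : WeakDeriv u e g) (a : E3) :
    WeakDeriv (fun x => u (x + a)) e (fun x => g (x + a)) := by
  intro ζ hζ
  have h1 := h _ (isTest_shift hζ (-a))
  have h2 : ∫ x, (fderiv ℝ ζ x e) • u (x + a) =
      ∫ x, (fderiv ℝ (fun x => ζ (x + -a)) x e) • u x := by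
    symm
    rw [← integral_add_right_eq_self _ a]
    refine integral_congr_ae (Eventually.of_forall fun x => ?_)
    simp [fderiv_comp_add_right]
  have h3 : ∫ x, ζ x • g (x + a) = ∫ x, ζ (x + -a) • g x := by
    symm
    rw [← integral_add_right_eq_self _ a]
    refine integral_congr_ae (Eventually.of_forall fun x => ?_)
    simp
  rw [h2, h3, h1]

lemma memLp_shift {F : Type*} [NormedAddCommGroup F] {f : E3 → F} {p : ℝ≥0∞}
    (h : MemLp f p volume) (a : E3) : MemLp (fun x => f (x + a)) p volume :=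
  h.comp_measurePreserving (measurePreserving_add_right volume a)

lemma sob_shift {F : Type*} [NormedAddCommGroup F] [NormedSpace ℝ F] {u : E3 → F}
    {D : Fin 3 → E3 → F} (h : Sob ax u D) (a : E3) :
    Sob ax (fun x => u (x + a)) (fun i x => D i (x + a)) :=
  ⟨memLp_shift h.memLp a, fun i => memLp_shift (h.memLp_grad i) a,
    fun i => weakDeriv_shift (h.weak i) a⟩

/-- The scalar inequality with centre `x₀`. -/
def Sc (k : ℕ) (C ε₀ b : ℝ) (x₀ : E3) : Prop :=
  ∀ lam : ℝ, 0 ≤ lam → ∀ (vs vb : E3 → ℝ), MemLp vs (3 / 2) volume →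
      eLpNorm vs (3 / 2) volume ≤ ENNReal.ofReal ε₀ →
      AEStronglyMeasurable vb volume → (∀ x, |vb x| ≤ b) →
    ∀ (u : E3 → ℝ) (D : Fin 3 → E3 → ℝ) (g : E3 → ℝ) (s : ℝ), 0 < s → Sob ax u D →
      MemLp g 2 volume → AnnSupp x₀ s u → (∀ a, AnnSupp x₀ s (D a)) → AnnSupp x₀ s g →
      (∀ ζ : E3 → ℝ, IsTest ζ →
        1 / 2 * (∑ a, ∫ x, fderiv ℝ ζ x (ax a) * D a x)
          + (∫ x, (vs x + vb x) * (ζ x * u x)) + lam * (∫ x, ζ x * u x) = ∫ x, ζ x * g x) →
      ((k : ℝ) + 1) ^ 2 * (∫ x, (‖x - x₀‖⁻¹) ^ (2 * k + 4) * u x ^ 2)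
          + lam * (∫ x, (‖x - x₀‖⁻¹) ^ (2 * k + 2) * u x ^ 2)
        ≤ C * ∫ x, (‖x - x₀‖⁻¹) ^ (2 * k) * g x ^ 2

lemma annSupp_shift {F : Type*} [Zero F] {x₀ : E3} {s : ℝ} {f : E3 → F} (h : AnnSupp x₀ s f) :
    AnnSupp 0 s (fun x => f (x + x₀)) := by
  intro x hx
  apply h
  simpa using hx

lemma translate {k : ℕ} {C ε₀ b : ℝ} (h : Sc k C ε₀ b 0) (x₀ : E3) : Sc k C ε₀ b x₀ := by
  intro lam hlam vs vb hvs hvs' hvb hvb' u D g s hs hu hg au aD ag heq
  have key := h lam hlam (fun x => vs (x + x₀)) (fun x => vb (x + x₀)) (memLp_shift hvs x₀)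
    (by
      rw [show (fun x => vs (x + x₀)) = vs ∘ (fun x => x + x₀) from rfl,
        eLpNorm_comp_measurePreserving hvs.1 (measurePreserving_add_right volume x₀)]
      exact hvs')
    (hvb.comp_measurePreserving (measurePreserving_add_right volume x₀)) (fun x => hvb' _)
    (fun x => u (x + x₀)) (fun a x => D a (x + x₀)) (fun x => g (x + x₀)) s hs
    (sob_shift hu x₀) (memLp_shift hg x₀) (annSupp_shift au) (fun a => annSupp_shift (aD a))
    (annSupp_shift ag) ?_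
  · have e : ∀ (m : ℕ) (f : E3 → ℝ), ∫ x, (‖x - 0‖⁻¹) ^ m * f (x + x₀) ^ 2 =
        ∫ x, (‖x - x₀‖⁻¹) ^ m * f x ^ 2 := by
      intro m f
      symm
      rw [← integral_add_right_eq_self _ x₀]
      refine integral_congr_ae (Eventually.of_forall fun x => ?_)
      simp
    rw [e, e, e] at key
    exact key
  · intro ζ hζ
    have h1 := heq _ (isTest_shift hζ (-x₀))
    have e1 : ∀ a, ∫ x, fderiv ℝ (fun x => ζ (x + -x₀)) x (ax a) * D a x =
        ∫ x, fderiv ℝ ζ x (ax a) * D a (x + x₀) := by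
      intro a
      rw [← integral_add_right_eq_self _ x₀]
      refine integral_congr_ae (Eventually.of_forall fun x => ?_)
      simp [fderiv_comp_add_right]
    have e2 : ∫ x, (vs x + vb x) * (ζ (x + -x₀) * u x) =
        ∫ x, (vs (x + x₀) + vb (x + x₀)) * (ζ x * u (x + x₀)) := by
      rw [← integral_add_right_eq_self _ x₀]
      refine integral_congr_ae (Eventually.of_forall fun x => ?_)
      simp
    have e3 : ∀ f : E3 → ℝ, ∫ x, ζ (x + -x₀) * f x = ∫ x, ζ x * f (x + x₀) := by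
      intro f
      rw [← integral_add_right_eq_self _ x₀]
      refine integral_congr_ae (Eventually.of_forall fun x => ?_)
      simp
    simp only [e1, e2, e3] at h1
    exact h1

/-- The weight. -/
noncomputable def W (x₀ : E3) (m : ℕ) (x : E3) : ℝ := (‖x - x₀‖⁻¹) ^ m

lemma W_nonneg (x₀ : E3) (m : ℕ) (x : E3) : 0 ≤ W x₀ m x := by unfold W; positivity

lemma W_meas (x₀ : E3) (m : ℕ) : Measurable (W x₀ m) := by
  unfold W
  exact ((measurable_id.sub_const x₀).norm.inv).pow_const m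

lemma W_bound {x₀ : E3} {s : ℝ} (hs : 0 < s) (m : ℕ) {f G : E3 → ℝ}
    (h0 : ∀ x, ‖x - x₀‖ < s → f x = 0) (hb : ∀ x, ‖f x‖ ≤ G x) (x : E3) :
    ‖W x₀ m x * f x‖ ≤ (s⁻¹) ^ m * G x := by
  rw [norm_mul, Real.norm_of_nonneg (W_nonneg _ _ _)]
  by_cases h : ‖x - x₀‖ < s
  · rw [h0 x h]
    have h1 : 0 ≤ G x := (norm_nonneg _).trans (hb x)
    simp only [norm_zero, mul_zero]
    positivity
  · have h1 : ‖x - x₀‖⁻¹ ≤ s⁻¹ := inv_anti₀ hs (not_lt.1 h)
    have h2 : W x₀ m x ≤ (s⁻¹) ^ m := by unfold W; gcongr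
    exact mul_le_mul h2 (hb x) (norm_nonneg _) (by positivity)

lemma integrable_W {x₀ : E3} {s : ℝ} (hs : 0 < s) (m : ℕ) {f : E3 → ℝ} (hf : Integrable f)
    (h0 : ∀ x, ‖x - x₀‖ < s → f x = 0) : Integrable (fun x => W x₀ m x * f x) := by
  refine Integrable.mono' (hf.norm.const_mul ((s⁻¹) ^ m)) ?_ (Eventually.of_forall fun x => ?_)
  · exact (W_meas x₀ m).aestronglyMeasurable.mul hf.1
  · exact W_bound hs m h0 (G := fun x => ‖f x‖) (fun x => le_rfl) x

lemma tendsto_W {x₀ : E3} {s : ℝ} (hs : 0 < s) (m : ℕ) {f : ℕ → E3 → ℝ} {f' G : E3 → ℝ}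
    (hf : ∀ n, AEStronglyMeasurable (f n) volume) (hG : Integrable G)
    (h0 : ∀ n x, ‖x - x₀‖ < s → f n x = 0) (hb : ∀ n x, ‖f n x‖ ≤ G x)
    (hl : ∀ x, Tendsto (fun n => f n x) atTop (𝓝 (f' x))) :
    Tendsto (fun n => ∫ x, W x₀ m x * f n x) atTop (𝓝 (∫ x, W x₀ m x * f' x)) := by
  refine tendsto_integral_of_dominated_convergence (fun x => (s⁻¹) ^ m * G x) (fun n => ?_)
    (hG.const_mul _) (fun n => Eventually.of_forall fun x => ?_)
    (Eventually.of_forall fun x => (hl x).const_mul _)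
  · exact (W_meas x₀ m).aestronglyMeasurable.mul (hf n)
  · exact W_bound hs m (h0 n) (hb n) x

section Main

variable {H : Type} [NormedAddCommGroup H] [InnerProductSpace ℝ H] [CompleteSpace H]
  [SecondCountableTopology H]

omit [SecondCountableTopology H] in
/-- Finite rank step. -/
lemma finrank_step {k : ℕ} {C ε₀ b : ℝ} {x₀ : E3} (h : Sc k C ε₀ b x₀)
    (M : H →L[ℝ] H) (hM : ∀ x y, ⟪M x, y⟫_ℝ = ⟪x, M y⟫_ℝ) (hM0 : ∀ x, 0 ≤ ⟪M x, x⟫_ℝ)
    (vs vb : E3 → ℝ) (hvs : MemLp vs (3 / 2) volume)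
    (hvs' : eLpNorm vs (3 / 2) volume ≤ ENNReal.ofReal ε₀)
    (hvb : AEStronglyMeasurable vb volume) (hvb' : ∀ x, |vb x| ≤ b)
    (Ψ : E3 → H) (D : Fin 3 → E3 → H) (g : E3 → H) (s : ℝ) (hs : 0 < s) (hΨ : Sob ax Ψ D)
    (hg : MemLp g 2 volume) (aΨ : AnnSupp x₀ s Ψ) (aD : ∀ a, AnnSupp x₀ s (D a))
    (ag : AnnSupp x₀ s g)
    (heq : ∀ ζ : E3 → ℝ, IsTest ζ → ∀ h : H,
        1 / 2 * (∑ a, ∫ x, fderiv ℝ ζ x (ax a) * ⟪D a x, h⟫_ℝ)
          + (∫ x, (vs x + vb x) * (ζ x * ⟪Ψ x, h⟫_ℝ)) + (∫ x, ζ x * ⟪M (Ψ x), h⟫_ℝ)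
          = ∫ x, ζ x * ⟪g x, h⟫_ℝ)
    (S : Submodule ℝ H) [FiniteDimensional ℝ S] :
    ((k : ℝ) + 1) ^ 2 * (∫ x, W x₀ (2 * k + 4) x * ‖S.starProjection (Ψ x)‖ ^ 2)
      + (∫ x, W x₀ (2 * k + 2) x * ⟪M (S.starProjection (Ψ x)), S.starProjection (Ψ x)⟫_ℝ)
      ≤ C * ∫ x, W x₀ (2 * k) x * ‖S.starProjection (g x - M (Ψ x - S.starProjection (Ψ x)))‖ ^ 2 := by
  obtain ⟨n, e, lam, hlam, s1, s2, s3⟩ := spectral M hM hM0 S
  set P := S.starProjection with hP
  set G : E3 → H := fun x => g x - M (Ψ x - P (Ψ x)) with hG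
  have mG : MemLp G 2 volume := by
    have h1 : MemLp (fun x => M (Ψ x - P (Ψ x))) 2 volume := by
      have := (M.comp (ContinuousLinearMap.id ℝ H - P)).comp_memLp' hΨ.memLp
      exact this
    exact hg.sub h1
  have aG : AnnSupp x₀ s G := by
    intro x hx
    simp [hG, aΨ x hx, ag x hx]
  have mi : ∀ (f : E3 → H), MemLp f 2 volume → ∀ i, MemLp (fun x => ⟪f x, e i⟫_ℝ) 2 volume := by
    intro f hf i
    exact hf.inner_const (e i)
  have key : ∀ i, ((k : ℝ) + 1) ^ 2 * (∫ x, W x₀ (2 * k + 4) x * ⟪Ψ x, e i⟫_ℝ ^ 2)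
      + lam i * (∫ x, W x₀ (2 * k + 2) x * ⟪Ψ x, e i⟫_ℝ ^ 2)
      ≤ C * ∫ x, W x₀ (2 * k) x * ⟪G x, e i⟫_ℝ ^ 2 := by
    intro i
    refine h (lam i) (hlam i) vs vb hvs hvs' hvb hvb' (fun x => ⟪Ψ x, e i⟫_ℝ)
      (fun a x => ⟪D a x, e i⟫_ℝ) (fun x => ⟪G x, e i⟫_ℝ) s hs ?_ (mi _ mG i) ?_ ?_ ?_ ?_
    · refine ⟨mi _ hΨ.memLp i, fun a => mi _ (hΨ.memLp_grad a) i, fun a => ?_⟩
      have := (hΨ.weak a).clm (innerSL ℝ (e i)) hΨ.memLp (hΨ.memLp_grad a)
      simpa [real_inner_comm] using this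
    · intro x hx
      simp [aΨ x hx]
    · intro a x hx
      simp [aD a x hx]
    · intro x hx
      simp [aG x hx]
    · intro ζ hζ
      have h1 := heq ζ hζ (e i)
      have i1 : Integrable (fun x => ζ x * ⟪Ψ x, e i⟫_ℝ) := hζ.integrable_smul (mi _ hΨ.memLp i)
      have mR : MemLp (fun x => M (Ψ x - P (Ψ x))) 2 volume := by
        have := (M.comp (ContinuousLinearMap.id ℝ H - P)).comp_memLp' hΨ.memLp
        exact this
      have i2 : Integrable (fun x => ζ x * ⟪M (Ψ x - P (Ψ x)), e i⟫_ℝ) :=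
        hζ.integrable_smul (mi _ mR i)
      have i3 : Integrable (fun x => ζ x * ⟪g x, e i⟫_ℝ) := hζ.integrable_smul (mi _ hg i)
      have e1 : ∫ x, ζ x * ⟪M (Ψ x), e i⟫_ℝ = lam i * (∫ x, ζ x * ⟪Ψ x, e i⟫_ℝ) +
          ∫ x, ζ x * ⟪M (Ψ x - P (Ψ x)), e i⟫_ℝ := by
        rw [← integral_const_mul, ← integral_add (i1.const_mul _) i2]
        refine integral_congr_ae (Eventually.of_forall fun x => ?_)
        simp only
        rw [s3]; ring
      have e2 : ∫ x, ζ x * ⟪G x, e i⟫_ℝ = (∫ x, ζ x * ⟪g x, e i⟫_ℝ) -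
          ∫ x, ζ x * ⟪M (Ψ x - P (Ψ x)), e i⟫_ℝ := by
        rw [← integral_sub i3 i2]
        refine integral_congr_ae (Eventually.of_forall fun x => ?_)
        simp only [hG]
        rw [inner_sub_left]; ring
      rw [e1] at h1
      rw [e2]
      linarith
  have sum := Finset.sum_le_sum (s := Finset.univ) fun i _ => key i
  rw [Finset.sum_add_distrib, ← Finset.mul_sum, ← Finset.mul_sum] at sum
  have isq : ∀ (f : E3 → H), MemLp f 2 volume → AnnSupp x₀ s f → ∀ (m : ℕ) i,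
      Integrable (fun x => W x₀ m x * ⟪f x, e i⟫_ℝ ^ 2) := by
    intro f hf af m i
    refine integrable_W hs m ((mi f hf i).integrable_sq) (fun x hx => ?_)
    rw [af x (Or.inl hx)]; simp
  have t1 : ∀ (f : E3 → H), MemLp f 2 volume → AnnSupp x₀ s f → ∀ m : ℕ,
      ∑ i, ∫ x, W x₀ m x * ⟪f x, e i⟫_ℝ ^ 2 = ∫ x, W x₀ m x * ‖P (f x)‖ ^ 2 := by
    intro f hf af m
    rw [← integral_finsetSum _ fun i _ => isq f hf af m i]
    refine integral_congr_ae (Eventually.of_forall fun x => ?_)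
    simp only
    rw [← Finset.mul_sum, s1]
  have t2 : ∑ i, lam i * (∫ x, W x₀ (2 * k + 2) x * ⟪Ψ x, e i⟫_ℝ ^ 2) =
      ∫ x, W x₀ (2 * k + 2) x * ⟪M (P (Ψ x)), P (Ψ x)⟫_ℝ := by
    simp_rw [← integral_const_mul]
    rw [← integral_finsetSum _ fun i _ => (isq Ψ hΨ.memLp aΨ _ i).const_mul _]
    refine integral_congr_ae (Eventually.of_forall fun x => ?_)
    simp only
    rw [← s2, Finset.mul_sum]
    refine Finset.sum_congr rfl fun i _ => ?_
    ring
  rw [t1 Ψ hΨ.memLp aΨ, t1 G mG aG, t2] at sum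
  exact sum

/-- An increasing sequence of finite dimensional subspaces with dense union. -/
lemma exists_subspaces (H : Type) [NormedAddCommGroup H] [InnerProductSpace ℝ H] [CompleteSpace H]
    [SecondCountableTopology H] :
    ∃ S : ℕ → Submodule ℝ H, ∃ _ : ∀ n, FiniteDimensional ℝ (S n),
      ∀ x, Tendsto (fun n => (S n).starProjection x) atTop (𝓝 x) := by
  set d := TopologicalSpace.denseSeq H
  let S : ℕ → Submodule ℝ H := fun n => Submodule.span ℝ (d '' (Finset.range n : Set ℕ))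
  have hfin : ∀ n, FiniteDimensional ℝ (S n) := fun n =>
    FiniteDimensional.span_of_finite ℝ ((Finset.finite_toSet _).image _)
  refine ⟨S, hfin, fun x => ?_⟩
  refine Submodule.starProjection_tendsto_self S ?_ x ?_
  · intro m n hmn
    refine Submodule.span_mono (image_mono ?_)
    simpa using hmn
  · intro y _
    have h1 : range d ⊆ ((⨆ t, S t : Submodule ℝ H) : Set H) := by
      rintro _ ⟨i, rfl⟩
      have h2 : d i ∈ S (i + 1) := Submodule.subset_span ⟨i, by simp, rfl⟩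
      exact (le_iSup S (i + 1)) h2
    have h3 := closure_mono h1
    rw [(TopologicalSpace.denseRange_denseSeq H).closure_range] at h3
    have h4 := h3 (mem_univ y)
    rw [← Submodule.topologicalClosure_coe] at h4
    exact h4

end Main

end Pool.Agent.HK.CarlH

open Pool.Agent.HK.CarlH in
/-- JOB CH (uses Star). -/
theorem Pool.Agent.HK.target_CarlH (hS : Pool.Agent.HK.Target_Star) :
    Pool.Agent.HK.Target_CarlH := by
  obtain ⟨ε₀, C, hε, hC, h⟩ := hS
  refine ⟨ε₀, C, hε, hC, fun b => ?_⟩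
  obtain ⟨k₀, h₀⟩ := h b
  refine ⟨k₀, fun k hk H _ _ _ _ M hM hM0 vs vb hvs hvs' hvb hvb' x₀ Ψ D g s hs hΨ hg aΨ aD ag
    heq => ?_⟩
  have sc0 : Sc k C ε₀ b 0 := by
    intro lam hlam vs vb hvs hvs' hvb hvb' u D g s hs hu hg au aD ag heq
    have := h₀ k hk lam hlam vs vb hvs hvs' hvb hvb' u D g s hs hu hg au aD ag heq
    simpa using this
  have sc := translate sc0 x₀
  obtain ⟨S, hfin, hlim⟩ := exists_subspaces H
  have step := fun n => finrank_step sc M hM hM0 vs vb hvs hvs' hvb hvb' Ψ D g s hs hΨ hg aΨ aD ag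
    heq (S n)
  have iΨ : Integrable (fun x => ‖Ψ x‖ ^ 2) := by
    have : MemLp Ψ ((2 : ℕ) : ℝ≥0∞) volume := by exact_mod_cast hΨ.memLp
    exact this.integrable_norm_pow (by norm_num)
  have ig : Integrable (fun x => ‖g x‖ ^ 2) := by
    have : MemLp g ((2 : ℕ) : ℝ≥0∞) volume := by exact_mod_cast hg
    exact this.integrable_norm_pow (by norm_num)
  have mP : ∀ n, AEStronglyMeasurable (fun x => (S n).starProjection (Ψ x)) volume := fun n =>
    (S n).starProjection.continuous.comp_aestronglyMeasurable hΨ.memLp.1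
  have mG : ∀ n, AEStronglyMeasurable (fun x => (S n).starProjection
      (g x - M (Ψ x - (S n).starProjection (Ψ x)))) volume := fun n =>
    (S n).starProjection.continuous.comp_aestronglyMeasurable
      (hg.1.sub (M.continuous.comp_aestronglyMeasurable (hΨ.memLp.1.sub (mP n))))
  have nP : ∀ n (y : H), ‖(S n).starProjection y‖ ≤ ‖y‖ := fun n y =>
    Submodule.norm_starProjection_apply_le _ y
  have L1 := tendsto_W (x₀ := x₀) hs (2 * k + 4)
    (f := fun n x => ‖(S n).starProjection (Ψ x)‖ ^ 2) (f' := fun x => ‖Ψ x‖ ^ 2)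
    (fun n => (mP n).norm.pow 2) iΨ
    (fun n x hx => by rw [aΨ x (Or.inl hx)]; simp)
    (fun n x => by
      rw [Real.norm_of_nonneg (by positivity)]
      have := nP n (Ψ x)
      gcongr)
    (fun x => ((hlim (Ψ x)).norm).pow 2)
  have L2 := tendsto_W (x₀ := x₀) hs (2 * k + 2)
    (f := fun n x => ⟪M ((S n).starProjection (Ψ x)), (S n).starProjection (Ψ x)⟫_ℝ)
    (f' := fun x => ⟪M (Ψ x), Ψ x⟫_ℝ)
    (fun n => (M.continuous.comp_aestronglyMeasurable (mP n)).inner (mP n)) (iΨ.const_mul ‖M‖)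
    (fun n x hx => by rw [aΨ x (Or.inl hx)]; simp)
    (fun n x => by
      have h1 := nP n (Ψ x)
      calc ‖⟪M ((S n).starProjection (Ψ x)), (S n).starProjection (Ψ x)⟫_ℝ‖
          ≤ ‖M ((S n).starProjection (Ψ x))‖ * ‖(S n).starProjection (Ψ x)‖ :=
            norm_inner_le_norm _ _
        _ ≤ (‖M‖ * ‖(S n).starProjection (Ψ x)‖) * ‖(S n).starProjection (Ψ x)‖ := by
            gcongr; exact M.le_opNorm _
        _ ≤ (‖M‖ * ‖Ψ x‖) * ‖Ψ x‖ := by gcongr
        _ = ‖M‖ * ‖Ψ x‖ ^ 2 := by ring)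
    (fun x => ((M.continuous.tendsto _).comp (hlim (Ψ x))).inner (hlim (Ψ x)))
  have L3 := tendsto_W (x₀ := x₀) hs (2 * k)
    (f := fun n x => ‖(S n).starProjection (g x - M (Ψ x - (S n).starProjection (Ψ x)))‖ ^ 2)
    (f' := fun x => ‖g x‖ ^ 2)
    (fun n => (mG n).norm.pow 2) ((ig.const_mul 2).add (iΨ.const_mul (8 * ‖M‖ ^ 2)))
    (fun n x hx => by rw [aΨ x (Or.inl hx), ag x (Or.inl hx)]; simp)
    (fun n x => by
      rw [Real.norm_of_nonneg (by positivity)]
      have h1 : ‖(S n).starProjection (g x - M (Ψ x - (S n).starProjection (Ψ x)))‖ ≤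
          ‖g x‖ + ‖M‖ * (2 * ‖Ψ x‖) := by
        refine (nP n _).trans ((norm_sub_le _ _).trans ?_)
        have h2 : ‖Ψ x - (S n).starProjection (Ψ x)‖ ≤ 2 * ‖Ψ x‖ := by
          refine (norm_sub_le _ _).trans ?_
          have := nP n (Ψ x)
          linarith
        have h3 := (M.le_opNorm (Ψ x - (S n).starProjection (Ψ x)))
        have h4 := mul_le_mul_of_nonneg_left h2 (norm_nonneg M)
        linarith
      calc ‖(S n).starProjection (g x - M (Ψ x - (S n).starProjection (Ψ x)))‖ ^ 2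
          ≤ (‖g x‖ + ‖M‖ * (2 * ‖Ψ x‖)) ^ 2 := by gcongr
        _ ≤ 2 * ‖g x‖ ^ 2 + 8 * ‖M‖ ^ 2 * ‖Ψ x‖ ^ 2 := by
          nlinarith [sq_nonneg (‖g x‖ - ‖M‖ * (2 * ‖Ψ x‖))])
    (fun x => by
      have h1 : Tendsto (fun n => g x - M (Ψ x - (S n).starProjection (Ψ x))) atTop (𝓝 (g x)) := by
        have h2 : Tendsto (fun n => Ψ x - (S n).starProjection (Ψ x)) atTop (𝓝 0) := by
          simpa using (hlim (Ψ x)).const_sub (Ψ x)
        have h3 := (M.continuous.tendsto 0).comp h2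
        simpa using h3.const_sub (g x)
      have h4 : Tendsto (fun n => (S n).starProjection
          ((g x - M (Ψ x - (S n).starProjection (Ψ x))) - g x)) atTop (𝓝 0) := by
        refine squeeze_zero_norm (fun n => nP n _) ?_
        have := (h1.sub_const (g x)).norm
        simpa using this
      have h5 := h4.add (hlim (g x))
      have h6 : Tendsto (fun n => (S n).starProjection
          (g x - M (Ψ x - (S n).starProjection (Ψ x)))) atTop (𝓝 (g x)) := by
        rw [zero_add] at h5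
        refine h5.congr fun n => ?_
        rw [← map_add]; congr 1; abel
      exact h6.norm.pow 2)
  exact le_of_tendsto_of_tendsto' ((L1.const_mul _).add L2) (L3.const_mul C) step
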