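import Pool.Agent.HK.CellPf

/-!
# The many-body cell problem is an instance of abstract unique continuation (job CE)
-/

open MeasureTheory Set Filter Topology
open scoped ENNReal NNReal InnerProductSpace

namespace Pool.Agent.HK.CellPf

lemma measurable_coulomb (N : ℕ) : Measurable (coulomb : Conf N → ℝ) := by
  unfold coulomb
  refine Finset.measurable_sum _ fun i _ => Finset.measurable_sum _ fun j _ => ?_
  by_cases hij : i < j
  · simp only [hij, if_true]
    fun_prop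
  · simp only [hij, if_false]
    exact measurable_const

end Pool.Agent.HK.CellPf


namespace Pool.Agent.HK

open CellPf

/-- Assembly: the many-body cell problem is an instance of abstract unique continuation. -/
theorem target_Cell (hO : Target_Op) (hL : Target_Lift) (hSL : Target_Slice)
    (hN : Target_NBody) (hU : Target_UCP) : Target_Cell := by
  intro n v E C' B φ D hv hC' hB hBpos hφ hC0 hB0 hS
  obtain ⟨κ, c₁, K, R, hc₁, hKs, hKp, hKR, hRK, hKh, hlim⟩ := hO n v C' hv hC'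
  obtain ⟨Ψ, hΨ, hΨφ⟩ := lift hL hφ.memLp
  choose Γ hΓ hΓD using fun a : Fin 3 => lift hL (hφ.memLp_grad (0, a))
  have hcφ := memLp_coulomb hN hφ
  have hg : MemLp (fun X => (κ + E) * φ X - coulomb X * φ X) 2 volume :=
    (hφ.memLp.const_mul (κ + E)).sub hcφ
  obtain ⟨G, hG, hGg⟩ := lift hL hg
  -- facts for almost every slice
  have hmain : ∀ᵐ x : E3, (Ψ x : Conf n → ℝ) =ᵐ[volume] (fun y => φ (cns (x, y))) ∧
      Sob dir (Ψ x : Conf n → ℝ) (fun (p : Fin n × Fin 3) y => D (p.1.succ, p.2) (cns (x, y))) ∧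
      Tendsto (fun ε => ⟪R ε (Ψ x), Ψ x⟫_ℝ) (𝓝[>] 0) (𝓝 (qf v κ φ D x)) ∧
      c₁ * nsq (Ψ x : Conf n → ℝ) (fun (p : Fin n × Fin 3) y => D (p.1.succ, p.2) (cns (x, y)))
        ≤ qf v κ φ D x := by
    filter_upwards [hΨφ, sob_slice hSL hφ, ae_cns hSL hC0] with x h1 h2 h3
    have h4 : Sob dir (Ψ x : Conf n → ℝ)
        (fun (p : Fin n × Fin 3) y => D (p.1.succ, p.2) (cns (x, y))) :=
      ⟨Lp.memLp _, h2.memLp_grad, fun p => (h2.weak p).congr h1.symm (Filter.EventuallyEq.refl _ _)⟩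
    have h5 : ∀ᵐ y, y ∉ C' → (Ψ x : Conf n → ℝ) y = 0 := by
      filter_upwards [h1, h3] with y a1 a2 a3
      rw [tail_cns] at a2
      rw [a1]; exact a2 a3
    have h6 := hlim (Ψ x) _ h4 h5
    have e1 : ∫ y, ext v y * (Ψ x : Conf n → ℝ) y ^ 2 = ∫ y, ext v y * φ (cns (x, y)) ^ 2 :=
      integral_congr_ae (by filter_upwards [h1] with y hy; rw [hy])
    have e2 : ∫ y, (Ψ x : Conf n → ℝ) y ^ 2 = ∫ y, φ (cns (x, y)) ^ 2 :=
      integral_congr_ae (by filter_upwards [h1] with y hy; rw [hy])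
    refine ⟨h1, h4, ?_, ?_⟩
    · have := h6.1
      rw [e1, e2] at this
      exact this
    · have := h6.2
      rw [e1] at this
      unfold qf nsq
      rw [e2] at this ⊢
      exact this
  set α : E3 → ℝ := fun x => Real.sqrt (qf v κ φ D x) with hα
  have hqint := integrable_qf hSL hN hv κ hφ
  have hαsq : ∀ᵐ x : E3, α x ^ 2 = qf v κ φ D x := by
    filter_upwards [hmain] with x hx
    refine Real.sq_sqrt (le_trans ?_ hx.2.2.2)
    exact mul_nonneg hc₁.le (nsq_nonneg _ _)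
  have hαm : AEStronglyMeasurable α volume :=
    Real.continuous_sqrt.comp_aestronglyMeasurable hqint.1
  have hα2 : MemLp α 2 volume := by
    rw [memLp_two_iff_integrable_sq hαm]
    refine hqint.congr ?_
    filter_upwards [hαsq] with x hx
    exact hx.symm
  have hαN : ∀ᵐ x : E3, Real.sqrt (nsq (Ψ x : Conf n → ℝ)
      (fun (p : Fin n × Fin 3) y => D (p.1.succ, p.2) (cns (x, y)))) ≤ α x / Real.sqrt c₁ := by
    filter_upwards [hmain] with x hx
    rw [le_div_iff₀ (Real.sqrt_pos.2 hc₁), ← Real.sqrt_mul (nsq_nonneg _ _)]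
    refine Real.sqrt_le_sqrt ?_
    rw [mul_comm]
    exact hx.2.2.2
  set C₁ : ℝ := (|κ + E| + ((n : ℝ) + 1) ^ 2 * 2 + 1) / Real.sqrt c₁ with hC₁
  have hC₁0 : 0 ≤ C₁ := by positivity
  have hΨN : ∀ᵐ x : E3, ‖Ψ x‖ ≤ Real.sqrt (nsq (Ψ x : Conf n → ℝ)
      (fun (p : Fin n × Fin 3) y => D (p.1.succ, p.2) (cns (x, y)))) := by
    filter_upwards [hmain] with x hx
    refine norm_le_of_lintegral (Filter.EventuallyEq.refl _ _) (Real.sqrt_nonneg _)
      (eLpNorm_two_le (Real.sqrt_nonneg _) ?_)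
    rw [lintegral_sq_eq (Lp.memLp _), Real.sq_sqrt (nsq_nonneg _ _)]
    refine ENNReal.ofReal_le_ofReal ?_
    unfold nsq
    have h1 : 0 ≤ ∑ p : Fin n × Fin 3, ∫ y, D (p.1.succ, p.2) (cns (x, y)) ^ 2 :=
      Finset.sum_nonneg fun p _ => integral_nonneg fun y => sq_nonneg _
    linarith
  have hΨle : ∀ᵐ x : E3, ‖Ψ x‖ ≤ C₁ * α x := by
    filter_upwards [hΨN, hαN] with x h1 h2
    refine h1.trans (h2.trans ?_)
    rw [hC₁, div_mul_eq_mul_div]
    refine div_le_div_of_nonneg_right ?_ (Real.sqrt_nonneg _)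
    have h3 : 0 ≤ α x := Real.sqrt_nonneg _
    have h4 : (1 : ℝ) ≤ |κ + E| + ((n : ℝ) + 1) ^ 2 * 2 + 1 := by
      have h5 := abs_nonneg (κ + E)
      have h6 : 0 ≤ ((n : ℝ) + 1) ^ 2 * 2 := by positivity
      linarith
    calc α x = 1 * α x := (one_mul _).symm
      _ ≤ _ := mul_le_mul_of_nonneg_right h4 h3
  have hGle : ∀ᵐ x : E3, ‖G x‖ ≤ C₁ * α x := by
    filter_upwards [hmain, hGg, hαN, hΨN] with x h1 h2 h3 h4
    set s : ℝ := Real.sqrt (nsq (Ψ x : Conf n → ℝ)
      (fun (p : Fin n × Fin 3) y => D (p.1.succ, p.2) (cns (x, y)))) with hs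
    have hs0 : 0 ≤ s := Real.sqrt_nonneg _
    have e1 : (G x : Conf n → ℝ) =ᵐ[volume]
        ((κ + E) • (Ψ x : Conf n → ℝ)) -
          fun y => coulomb (cns (x, y)) * (Ψ x : Conf n → ℝ) y := by
      filter_upwards [h2, h1.1] with y a1 a2
      rw [a1, Pi.sub_apply, Pi.smul_apply, a2, smul_eq_mul]
    have m1 : AEStronglyMeasurable
        (fun y => coulomb (cns (x, y)) * (Ψ x : Conf n → ℝ) y) volume := by
      refine AEStronglyMeasurable.mul ?_ (Lp.memLp _).1
      exact ((measurable_coulomb (n + 1)).comp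
        (measurable_cns.comp measurable_prodMk_left)).aestronglyMeasurable
    have e2 : eLpNorm (Ψ x : Conf n → ℝ) 2 volume ≤ ENNReal.ofReal s := by
      have := h4
      rw [Lp.norm_def] at this
      exact (ENNReal.le_ofReal_iff_toReal_le (Lp.memLp (Ψ x)).2.ne hs0).2 this
    have e3 := coul_slice hN h1.2.1 x
    have e4 : ‖G x‖ ≤ |κ + E| * s + ((n : ℝ) + 1) ^ 2 * (2 * s) := by
      refine norm_le_of_lintegral e1 (by positivity) ?_
      refine (eLpNorm_sub_le ((Lp.memLp (Ψ x)).1.const_smul _) m1 (by norm_num)).trans ?_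
      rw [ENNReal.ofReal_add (by positivity) (by positivity)]
      refine add_le_add ?_ e3
      rw [eLpNorm_const_smul, ENNReal.ofReal_mul (abs_nonneg _), ← Real.enorm_eq_ofReal_abs]
      exact mul_le_mul_right e2 _
    refine e4.trans ?_
    rw [hC₁]
    have h5 : |κ + E| * s + ((n : ℝ) + 1) ^ 2 * (2 * s) ≤
        (|κ + E| + ((n : ℝ) + 1) ^ 2 * 2 + 1) * s := by nlinarith
    refine h5.trans ?_
    rw [div_mul_eq_mul_div, mul_div_assoc]
    exact mul_le_mul_of_nonneg_left h3 (by positivity)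
  have heqn : ∀ ζ : E3 → ℝ, IsTest ζ → ∀ h : Lp ℝ 2 (volume : Measure (Conf n)),
      1 / 2 * (∑ a, ∫ x, fderiv ℝ ζ x (ax a) * ⟪Γ a x, K h⟫_ℝ)
      + (∫ x, v x * (ζ x * ⟪Ψ x, K h⟫_ℝ)) + (∫ x, ζ x * ⟪Ψ x, h⟫_ℝ)
      = ∫ x, ζ x * ⟪G x, K h⟫_ℝ := by
    intro ζ hζ h
    obtain ⟨Dk, hk, hk0, hop⟩ := hKh h
    have h1 := eqn_pre hSL hN hv (κ := κ) (E := E) hφ hC0 hS hζ hk hk0 hop
    have a1 : ∀ a : Fin 3, ∫ x, fderiv ℝ ζ x (ax a) * ⟪Γ a x, K h⟫_ℝ =
        ∫ x, fderiv ℝ ζ x (ax a) * ∫ y, D (0, a) (cns (x, y)) * (K h : Conf n → ℝ) y := by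
      intro a
      refine integral_congr_ae ?_
      filter_upwards [hΓD a] with x hx
      rw [inner_eq hx]
    have a2 : ∫ x, v x * (ζ x * ⟪Ψ x, K h⟫_ℝ) =
        ∫ x, v x * (ζ x * ∫ y, φ (cns (x, y)) * (K h : Conf n → ℝ) y) := by
      refine integral_congr_ae ?_
      filter_upwards [hΨφ] with x hx
      rw [inner_eq hx]
    have a3 : ∫ x, ζ x * ⟪Ψ x, h⟫_ℝ =
        ∫ x, ζ x * ∫ y, φ (cns (x, y)) * (h : Conf n → ℝ) y := by
      refine integral_congr_ae ?_
      filter_upwards [hΨφ] with x hx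
      rw [inner_eq hx]
    have a4 : ∫ x, ζ x * ⟪G x, K h⟫_ℝ =
        ∫ x, ζ x * ∫ y, ((κ + E) * φ (cns (x, y)) - coulomb (cns (x, y)) * φ (cns (x, y))) *
          (K h : Conf n → ℝ) y := by
      refine integral_congr_ae ?_
      filter_upwards [hGg] with x hx
      rw [inner_eq hx]
    simp only [a1, a2, a3, a4]
    exact h1
  let d : UCData (Lp ℝ 2 (volume : Measure (Conf n))) :=
    { K := K
      R := R
      v := v
      Ψ := Ψ
      G := G
      D := Γ
      α := α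
      C₁ := C₁
      C₁_nonneg := hC₁0
      hv := hv
      K_symm := hKs
      K_pos := hKp
      KR := hKR
      RK := hRK
      sob := ⟨hΨ, hΓ, fun a => weak_lift hSL hφ.memLp (hφ.memLp_grad _) (hφ.weak _) hΨ (hΓ a)
        hΨφ (hΓD a)⟩
      memG := hG
      memα := hα2
      α_nonneg := fun x => Real.sqrt_nonneg _
      lim := by
        filter_upwards [hmain, hαsq] with x h1 h2
        rw [h2]
        exact h1.2.2.1
      G_le := hGle
      Ψ_le := hΨle
      eqn := heqn }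
  have hz : ∀ᵐ x, Ψ x = 0 := by
    refine hU _ d B hB hBpos ?_
    filter_upwards [hΨφ, ae_cns hSL hB0] with x h1 h2 hx
    show Ψ x = 0
    rw [Lp.eq_zero_iff_ae_eq_zero]
    filter_upwards [h1, h2] with y h3 h4
    rw [h3]
    simp only [cns_zero] at h4
    exact h4 hx
  have hz2 : ∀ᵐ x : E3, ∀ᵐ y : Conf n, φ (cns (x, y)) = 0 := by
    filter_upwards [hz, hΨφ] with x h1 h2
    rw [Lp.eq_zero_iff_ae_eq_zero] at h1
    filter_upwards [h1, h2] with y h3 h4
    rw [← h4, h3]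
    rfl
  have hm : AEStronglyMeasurable (fun p : E3 × Conf n => φ (cns p)) (volume.prod volume) :=
    (memLp_cns hSL hφ.memLp).1
  refine ae_of_cns hSL ?_
  have hint : ∫⁻ p : E3 × Conf n, ‖φ (cns p)‖ₑ ∂(volume.prod volume) = 0 := by
    rw [lintegral_prod _ hm.enorm]
    rw [lintegral_eq_zero_iff' hm.enorm.lintegral_prod_right']
    filter_upwards [hz2] with x hx
    rw [Pi.zero_apply, lintegral_congr_ae (g := fun _ => 0) (by
      filter_upwards [hx] with y hy
      rw [hy, enorm_zero])]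
    exact lintegral_zero
  rw [lintegral_eq_zero_iff' hm.enorm] at hint
  filter_upwards [hint] with p hp
  exact enorm_eq_zero.1 hp

end Pool.Agent.HK
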