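import Pool.Agent.HK.Calc

/-!
# Auxiliary results for the assembly of the many-body cell problem (job CE)

Slicing off the first particle, tensor products of test functions, Hardy bounds for the Coulomb
repulsion on slices, and the many-body equation tested with a tensor product.
-/

open MeasureTheory Set Filter Topology
open scoped ENNReal NNReal InnerProductSpace

namespace Pool.Agent.HK.CellPf

variable {n : ℕ}

/-- A pair (first particle, other particles) as a configuration. -/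
def cns (p : E3 × Conf n) : Conf (n + 1) := ins 0 p.1 p.2

lemma cns_eq (x : E3) (y : Conf n) : cns (x, y) = Fin.cons x y := by
  simp only [cns, ins]
  exact Fin.insertNth_zero' x y

lemma cns_zero (p : E3 × Conf n) : cns p 0 = p.1 := by
  obtain ⟨x, y⟩ := p
  rw [cns_eq]; rfl

lemma cns_succ (p : E3 × Conf n) (i : Fin n) : cns p i.succ = p.2 i := by
  obtain ⟨x, y⟩ := p
  rw [cns_eq]; rfl

lemma tail_cns (p : E3 × Conf n) : Fin.tail (cns p) = p.2 := by
  funext i
  exact cns_succ p i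

lemma me_cns : MeasurableEmbedding (cns : E3 × Conf n → Conf (n + 1)) :=
  ((MeasurableEquiv.piFinSuccAbove (fun _ : Fin (n + 1) => E3) 0).symm).measurableEmbedding

lemma measurable_cns : Measurable (cns : E3 × Conf n → Conf (n + 1)) := me_cns.measurable

section Slices

variable (hSL : Target_Slice)
include hSL

lemma mp_cns : MeasurePreserving (cns : E3 × Conf n → Conf (n + 1)) (volume.prod volume) volume :=
  (hSL n 0).1

lemma ae_cns {P : Conf (n + 1) → Prop} (h : ∀ᵐ X, P X) :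
    ∀ᵐ x : E3, ∀ᵐ y : Conf n, P (cns (x, y)) :=
  Measure.ae_ae_of_ae_prod ((mp_cns hSL).quasiMeasurePreserving.ae h)

lemma ae_of_cns {P : Conf (n + 1) → Prop}
    (h : ∀ᵐ p : E3 × Conf n ∂(volume.prod volume), P (cns p)) : ∀ᵐ X, P X := by
  rw [← (mp_cns hSL).map_eq]
  exact me_cns.ae_map_iff.2 h

lemma memLp_cns {f : Conf (n + 1) → ℝ} (hf : MemLp f 2 volume) :
    MemLp (fun p => f (cns p)) 2 (volume.prod volume : Measure (E3 × Conf n)) :=
  hf.comp_measurePreserving (mp_cns hSL)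

lemma memLp_of_cns {f : Conf (n + 1) → ℝ}
    (hf : MemLp (fun p => f (cns p)) 2 (volume.prod volume : Measure (E3 × Conf n))) :
    MemLp f 2 volume := by
  have := me_cns.memLp_map_measure_iff (μ := (volume.prod volume : Measure (E3 × Conf n)))
    (g := f) (p := 2)
  rw [(mp_cns hSL).map_eq] at this
  exact this.2 hf

lemma integral_cns (f : Conf (n + 1) → ℝ) :
    ∫ X, f X = ∫ p, f (cns p) ∂(volume.prod volume : Measure (E3 × Conf n)) :=
  ((mp_cns hSL).integral_comp me_cns f).symm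

lemma integral_cns' {f : Conf (n + 1) → ℝ} (hf : Integrable f) :
    ∫ X, f X = ∫ x, ∫ y, f (cns (x, y)) := by
  rw [integral_cns hSL]
  exact integral_prod _ ((mp_cns hSL).integrable_comp_of_integrable hf)

lemma memLp_slice {f : Conf (n + 1) → ℝ} (hf : MemLp f 2 volume) :
    ∀ᵐ x : E3, MemLp (fun y : Conf n => f (cns (x, y))) 2 volume := by
  have h1 := memLp_cns hSL hf
  have h2 : Integrable (fun p : E3 × Conf n => f (cns p) ^ 2) (volume.prod volume) :=
    h1.integrable_sq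
  filter_upwards [h2.prod_right_ae, h1.1.prodMk_left] with x hx1 hx2
  rw [memLp_two_iff_integrable_sq hx2]
  exact hx1

/-- Slices of a Sobolev function in the last `n` particles. -/
lemma sob_slice {φ : Conf (n + 1) → ℝ} {D : Fin (n + 1) × Fin 3 → Conf (n + 1) → ℝ}
    (h : Sob dir φ D) : ∀ᵐ x : E3, Sob dir (fun y : Conf n => φ (cns (x, y)))
      (fun (p : Fin n × Fin 3) y => D (p.1.succ, p.2) (cns (x, y))) := by
  have h1 : ∀ᵐ x : E3, ∀ p : Fin n × Fin 3,
      MemLp (fun y : Conf n => D (p.1.succ, p.2) (cns (x, y))) 2 volume :=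
    ae_all_iff.2 fun p => memLp_slice hSL (h.memLp_grad _)
  have h2 : ∀ᵐ x : E3, ∀ p : Fin n × Fin 3,
      WeakDeriv (fun y : Conf n => φ (cns (x, y))) (dir p)
        (fun y => D (p.1.succ, p.2) (cns (x, y))) := by
    refine ae_all_iff.2 fun p => ?_
    have h3 := ((hSL n 0).2.2 φ (D (p.1.succ, p.2)) p.1 p.2 h.memLp (h.memLp_grad _)).1
    rw [Fin.zero_succAbove] at h3
    exact h3 (h.weak _)
  filter_upwards [memLp_slice hSL h.memLp, h1, h2] with x a1 a2 a3
  exact ⟨a1, a2, a3⟩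

omit hSL in
lemma memLp_tensor {w : E3 → ℝ} {k : Conf n → ℝ} (hw : MemLp w 2 volume)
    (hk : MemLp k 2 volume) :
    MemLp (fun p : E3 × Conf n => w p.1 * k p.2) 2 (volume.prod volume) := by
  have h1 : AEStronglyMeasurable (fun p : E3 × Conf n => w p.1 * k p.2)
      (volume.prod volume) := hw.1.comp_fst.mul hk.1.comp_snd
  rw [memLp_two_iff_integrable_sq h1]
  have h2 := hw.integrable_sq.mul_prod hk.integrable_sq
  refine h2.congr ?_
  filter_upwards with p
  ring

/-- integrability of triple products -/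
lemma integrable_triple {w : E3 → ℝ} {k : Conf n → ℝ} {f : Conf (n + 1) → ℝ}
    (hw : MemLp w 2 volume) (hk : MemLp k 2 volume) (hf : MemLp f 2 volume) :
    Integrable (fun p : E3 × Conf n => w p.1 * (f (cns p) * k p.2)) (volume.prod volume) := by
  have h1 := (memLp_cns hSL hf).integrable_mul (memLp_tensor hw hk)
  refine h1.congr ?_
  filter_upwards with p
  simp only [Pi.mul_apply]
  ring

omit hSL in
lemma inner_eq {f g : Lp ℝ 2 (volume : Measure (Conf n))} {f' : Conf n → ℝ}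
    (hf : (f : Conf n → ℝ) =ᵐ[volume] f') :
    ⟪f, g⟫_ℝ = ∫ y, f' y * (g : Conf n → ℝ) y := by
  rw [L2.inner_def]
  refine integral_congr_ae ?_
  filter_upwards [hf] with y hy
  rw [hy]
  simp [mul_comm]

/-- Lifts of weak derivatives in the first particle. -/
lemma weak_lift {φ g : Conf (n + 1) → ℝ} {a : Fin 3}
    {Ψ Γ : E3 → Lp ℝ 2 (volume : Measure (Conf n))} (hφ : MemLp φ 2 volume)
    (hg : MemLp g 2 volume) (hw : WeakDeriv φ (dir (0, a)) g) (hΨ : MemLp Ψ 2 volume)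
    (hΓ : MemLp Γ 2 volume)
    (hΨφ : ∀ᵐ x : E3, (Ψ x : Conf n → ℝ) =ᵐ[volume] fun y => φ (cns (x, y)))
    (hΓg : ∀ᵐ x : E3, (Γ x : Conf n → ℝ) =ᵐ[volume] fun y => g (cns (x, y))) :
    WeakDeriv Ψ (ax a) Γ := by
  intro ζ hζ
  have hsl := ((hSL n 0).2.1 φ g a hφ hg).1 hw
  refine ext_inner_left ℝ fun k => ?_
  have hk : MemLp (k : Conf n → ℝ) 2 volume := Lp.memLp k
  rw [inner_neg_right, ← integral_inner ((hζ.dir (ax a)).integrable_smul hΨ),
    ← integral_inner (hζ.integrable_smul hΓ)]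
  have key : ∀ (w : E3 → ℝ) (f : Conf (n + 1) → ℝ) (F : E3 → Lp ℝ 2 (volume : Measure (Conf n))),
      MemLp w 2 volume → MemLp f 2 volume →
      (∀ᵐ x : E3, (F x : Conf n → ℝ) =ᵐ[volume] fun y => f (cns (x, y))) →
      ∫ x, ⟪k, w x • F x⟫_ℝ = ∫ y, (∫ x, w x • f (cns (x, y))) * (k : Conf n → ℝ) y := by
    intro w f F hw hf hF
    have e1 : ∫ x, ⟪k, w x • F x⟫_ℝ = ∫ x, ∫ y, w x * (f (cns (x, y)) * (k : Conf n → ℝ) y) := by
      refine integral_congr_ae ?_
      filter_upwards [hF] with x hx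
      rw [inner_smul_right, real_inner_comm, inner_eq hx, integral_const_mul]
    rw [e1]
    rw [integral_integral_swap (f := fun x y => w x * (f (cns (x, y)) * (k : Conf n → ℝ) y))
      (integrable_triple hSL hw hk hf)]
    refine integral_congr_ae ?_
    filter_upwards with y
    rw [← integral_mul_const]
    refine integral_congr_ae ?_
    filter_upwards with x
    simp only [smul_eq_mul]
    ring
  rw [key _ φ Ψ ((hζ.dir (ax a)).memLp 2) hφ hΨφ, key _ g Γ (hζ.memLp 2) hg hΓg, ← integral_neg]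
  refine integral_congr_ae ?_
  filter_upwards [hsl] with y hy
  have := hy ζ hζ
  show (∫ x, fderiv ℝ ζ x (ax a) • φ (cns (x, y))) * _ = _
  have e3 : (∫ x, fderiv ℝ ζ x (ax a) • φ (cns (x, y))) = - ∫ x, ζ x • g (cns (x, y)) := this
  rw [e3, neg_mul]

end Slices

section Norms

/-- The squared Sobolev norm of `f` with weak gradient `D`. -/
noncomputable def nsq {N : ℕ} (f : Conf N → ℝ) (D : Fin N × Fin 3 → Conf N → ℝ) : ℝ :=
  (∑ p, ∫ y, D p y ^ 2) + ∫ y, f y ^ 2

lemma nsq_nonneg {N : ℕ} (f : Conf N → ℝ) (D : Fin N × Fin 3 → Conf N → ℝ) : 0 ≤ nsq f D := by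
  unfold nsq
  have h1 : 0 ≤ ∑ p, ∫ y, D p y ^ 2 :=
    Finset.sum_nonneg fun p _ => integral_nonneg fun y => sq_nonneg _
  have h2 : 0 ≤ ∫ y, f y ^ 2 := integral_nonneg fun y => sq_nonneg _
  linarith

lemma lintegral_sq_eq {α : Type*} [MeasurableSpace α] {μ : Measure α} {f : α → ℝ}
    (hf : MemLp f 2 μ) : ∫⁻ x, ‖f x‖ₑ ^ 2 ∂μ = ENNReal.ofReal (∫ x, f x ^ 2 ∂μ) := by
  rw [ofReal_integral_eq_lintegral_ofReal hf.integrable_sq
    (Filter.Eventually.of_forall fun x => sq_nonneg _)]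
  refine lintegral_congr fun x => ?_
  rw [← sq_abs, ENNReal.ofReal_pow (abs_nonneg _), ← Real.enorm_eq_ofReal_abs]

lemma eLpNorm_two_le {α : Type*} [MeasurableSpace α] {μ : Measure α} {f : α → ℝ} {c : ℝ}
    (hc : 0 ≤ c) (h : ∫⁻ x, ‖f x‖ₑ ^ 2 ∂μ ≤ ENNReal.ofReal (c ^ 2)) :
    eLpNorm f 2 μ ≤ ENNReal.ofReal c := by
  have h1 : eLpNorm f 2 μ = (∫⁻ x, ‖f x‖ₑ ^ 2 ∂μ) ^ (1 / 2 : ℝ) := by
    rw [eLpNorm_eq_lintegral_rpow_enorm_toReal (by norm_num) (by norm_num)]
    simp
  rw [h1]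
  refine (ENNReal.rpow_le_rpow h (by norm_num)).trans ?_
  rw [ENNReal.ofReal_pow hc, ← ENNReal.rpow_natCast, ← ENNReal.rpow_mul]
  simp

/-- `L²` norm as a real square root. -/
lemma norm_le_of_lintegral {f : Lp ℝ 2 (volume : Measure (Conf n))} {f' : Conf n → ℝ}
    (hf : (f : Conf n → ℝ) =ᵐ[volume] f') {c : ℝ} (hc : 0 ≤ c)
    (h : eLpNorm f' 2 volume ≤ ENNReal.ofReal c) : ‖f‖ ≤ c := by
  rw [Lp.norm_def, eLpNorm_congr_ae hf]
  exact ENNReal.toReal_le_of_le_ofReal hc h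

variable {N : ℕ} (hN : Target_NBody)
include hN

omit hN in
/-- Sum over the gradient of one particle is bounded by the Sobolev norm. -/
lemma grad_le {f : Conf N → ℝ} {D : Fin N × Fin 3 → Conf N → ℝ} (h : Sob dir f D) (i : Fin N) :
    4 * ∑ a, ∫⁻ x, ‖D (i, a) x‖ₑ ^ 2 ≤ ENNReal.ofReal ((2 * Real.sqrt (nsq f D)) ^ 2) := by
  have h1 : ∀ a, ∫⁻ x, ‖D (i, a) x‖ₑ ^ 2 = ENNReal.ofReal (∫ x, D (i, a) x ^ 2) :=
    fun a => lintegral_sq_eq (h.memLp_grad _)
  simp only [h1]
  rw [← ENNReal.ofReal_sum_of_nonneg (fun a _ => integral_nonneg fun y => sq_nonneg _), mul_pow,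
    Real.sq_sqrt (nsq_nonneg f D)]
  have h2 : (4 : ℝ≥0∞) = ENNReal.ofReal 4 := by simp
  rw [h2, ← ENNReal.ofReal_mul (by norm_num)]
  refine ENNReal.ofReal_le_ofReal ?_
  have h3 : ∑ a, ∫ x, D (i, a) x ^ 2 ≤ ∑ p, ∫ x, D p x ^ 2 := by
    rw [Fintype.sum_prod_type]
    exact Finset.single_le_sum (f := fun i => ∑ a, ∫ x, D (i, a) x ^ 2)
      (fun i _ => Finset.sum_nonneg fun a _ => integral_nonneg fun y => sq_nonneg _)
      (Finset.mem_univ i)
  have h4 : 0 ≤ ∫ y, f y ^ 2 := integral_nonneg fun y => sq_nonneg _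
  unfold nsq
  linarith

lemma hardy_c {f : Conf N → ℝ} {D : Fin N × Fin 3 → Conf N → ℝ} (h : Sob dir f D) (i : Fin N)
    (c : E3) : eLpNorm (fun y : Conf N => ‖y i - c‖⁻¹ * f y) 2 volume ≤
      ENNReal.ofReal (2 * Real.sqrt (nsq f D)) := by
  refine eLpNorm_two_le (by positivity) ?_
  refine le_trans ?_ (((hN N).2.1 f D h i c).trans (grad_le h i))
  refine lintegral_mono fun y => ?_
  show ‖‖y i - c‖⁻¹ * f y‖ₑ ^ 2 ≤ ‖f y‖ₑ ^ 2 / ‖y i - c‖ₑ ^ 2
  rw [enorm_mul, mul_pow, mul_comm, ENNReal.div_eq_inv_mul, mul_comm]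
  refine mul_le_mul_left ?_ _
  rw [ENNReal.inv_pow]
  refine pow_le_pow_left' ?_ 2
  by_cases h0 : ‖y i - c‖ = 0
  · have : ‖y i - c‖ₑ = 0 := by rw [← ofReal_norm, h0]; simp
    rw [this]; simp
  · rw [enorm_inv h0]; simp

lemma hardy_ij {f : Conf N → ℝ} {D : Fin N × Fin 3 → Conf N → ℝ} (h : Sob dir f D) {i j : Fin N}
    (hij : i ≠ j) : eLpNorm (fun y : Conf N => ‖y i - y j‖⁻¹ * f y) 2 volume ≤
      ENNReal.ofReal (2 * Real.sqrt (nsq f D)) := by
  refine eLpNorm_two_le (by positivity) ?_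
  refine le_trans ?_ (((hN N).2.2 f D h i j hij).trans (grad_le h i))
  refine lintegral_mono fun y => ?_
  show ‖‖y i - y j‖⁻¹ * f y‖ₑ ^ 2 ≤ ‖f y‖ₑ ^ 2 / ‖y i - y j‖ₑ ^ 2
  rw [enorm_mul, mul_pow, mul_comm, ENNReal.div_eq_inv_mul, mul_comm]
  refine mul_le_mul_left ?_ _
  rw [ENNReal.inv_pow]
  refine pow_le_pow_left' ?_ 2
  by_cases h0 : ‖y i - y j‖ = 0
  · have : ‖y i - y j‖ₑ = 0 := by rw [← ofReal_norm, h0]; simp
    rw [this]; simp
  · rw [enorm_inv h0]; simp

omit hN in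
lemma coul_meas {N' : ℕ} (i j : Fin N') :
    AEStronglyMeasurable (fun X : Conf N' => ‖X i - X j‖⁻¹) volume := by
  have : Measurable (fun X : Conf N' => ‖X i - X j‖⁻¹) := by fun_prop
  exact this.aestronglyMeasurable

omit hN in
lemma coul_meas_c {N' : ℕ} (i : Fin N') (c : E3) :
    AEStronglyMeasurable (fun X : Conf N' => ‖X i - c‖⁻¹) volume := by
  have : Measurable (fun X : Conf N' => ‖X i - c‖⁻¹) := by fun_prop
  exact this.aestronglyMeasurable

/-- `coulomb * φ` is in `L²`. -/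
lemma memLp_coulomb {f : Conf N → ℝ} {D : Fin N × Fin 3 → Conf N → ℝ} (h : Sob dir f D) :
    MemLp (fun X => coulomb X * f X) 2 volume := by
  have e : (fun X : Conf N => coulomb X * f X) =
      fun X => ∑ i, ∑ j, (if i < j then ‖X i - X j‖⁻¹ * f X else 0) := by
    funext X
    simp only [coulomb, Finset.sum_mul, ite_mul, zero_mul]
  rw [e]
  refine memLp_finsetSum _ fun i _ => memLp_finsetSum _ fun j _ => ?_
  by_cases hij : i < j
  · simp only [hij, if_true]
    exact ⟨(coul_meas i j).mul h.memLp.1,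
      (hardy_ij hN h hij.ne).trans_lt ENNReal.ofReal_lt_top⟩
  · simp only [hij, if_false]
    exact MemLp.zero' 

end Norms

section Coul

variable (hN : Target_NBody)
include hN

/-- The Coulomb term on a slice. -/
lemma coul_slice {f : Conf n → ℝ} {D : Fin n × Fin 3 → Conf n → ℝ} (h : Sob dir f D) (x : E3) :
    eLpNorm (fun y : Conf n => coulomb (cns (x, y)) * f y) 2 volume ≤
      ENNReal.ofReal (((n : ℝ) + 1) ^ 2 * (2 * Real.sqrt (nsq f D))) := by
  have e : (fun y : Conf n => coulomb (cns (x, y)) * f y) =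
      ∑ i : Fin (n + 1), ∑ j : Fin (n + 1),
        (fun y => if i < j then ‖cns (x, y) i - cns (x, y) j‖⁻¹ * f y else 0) := by
    funext y
    simp only [coulomb, Finset.sum_mul, ite_mul, zero_mul, Finset.sum_apply]
  have hterm : ∀ i j : Fin (n + 1),
      AEStronglyMeasurable (fun y : Conf n =>
        if i < j then ‖cns (x, y) i - cns (x, y) j‖⁻¹ * f y else 0) volume ∧
      eLpNorm (fun y : Conf n =>
        if i < j then ‖cns (x, y) i - cns (x, y) j‖⁻¹ * f y else 0) 2 volume ≤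
        ENNReal.ofReal (2 * Real.sqrt (nsq f D)) := by
    intro i j
    by_cases hij : i < j
    · simp only [hij, if_true]
      rcases Fin.eq_zero_or_eq_succ j with rfl | ⟨j', rfl⟩
      · exact absurd hij (Fin.not_lt_zero _)
      rcases Fin.eq_zero_or_eq_succ i with rfl | ⟨i', rfl⟩
      · have e2 : (fun y : Conf n => ‖cns (x, y) 0 - cns (x, y) j'.succ‖⁻¹ * f y) =
            fun y => ‖y j' - x‖⁻¹ * f y := by
          funext y
          rw [cns_zero, cns_succ, norm_sub_rev]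
        rw [e2]
        exact ⟨(coul_meas_c j' x).mul h.memLp.1, hardy_c hN h j' x⟩
      · have hne : i' ≠ j' := by
          rintro rfl; exact lt_irrefl _ hij
        have e2 : (fun y : Conf n => ‖cns (x, y) i'.succ - cns (x, y) j'.succ‖⁻¹ * f y) =
            fun y => ‖y i' - y j'‖⁻¹ * f y := by
          funext y
          rw [cns_succ, cns_succ]
        rw [e2]
        exact ⟨(coul_meas i' j').mul h.memLp.1, hardy_ij hN h hne⟩
    · simp only [hij, if_false]
      refine ⟨aestronglyMeasurable_const, ?_⟩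
      have : eLpNorm (fun _ : Conf n => (0 : ℝ)) 2 volume = 0 := eLpNorm_zero'
      rw [this]; simp
  rw [e]
  have hm : ∀ i : Fin (n + 1), AEStronglyMeasurable (∑ j : Fin (n + 1),
        (fun y : Conf n => if i < j then ‖cns (x, y) i - cns (x, y) j‖⁻¹ * f y else 0))
        volume := fun i => Finset.aestronglyMeasurable_sum _ fun j _ => (hterm i j).1
  refine (eLpNorm_sum_le (fun i _ => hm i) (by norm_num)).trans ?_
  have h1 : ∀ i : Fin (n + 1), eLpNorm (∑ j : Fin (n + 1),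
        (fun y : Conf n => if i < j then ‖cns (x, y) i - cns (x, y) j‖⁻¹ * f y else 0)) 2
        volume ≤ (n + 1 : ℕ) • ENNReal.ofReal (2 * Real.sqrt (nsq f D)) := by
    intro i
    refine (eLpNorm_sum_le (fun j _ => (hterm i j).1) (by norm_num)).trans ?_
    refine (Finset.sum_le_card_nsmul _ _ _ fun j _ => (hterm i j).2).trans ?_
    simp
  refine (Finset.sum_le_card_nsmul _ _ _ fun i _ => h1 i).trans ?_
  have h3 : ENNReal.ofReal ((n : ℝ) + 1) = ((n + 1 : ℕ) : ℝ≥0∞) := by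
    rw [← ENNReal.ofReal_natCast]; push_cast; rfl
  have h2 : ∀ A : ℝ, ENNReal.ofReal (((n : ℝ) + 1) ^ 2 * A) =
      ((n + 1 : ℕ) : ℝ≥0∞) * (((n + 1 : ℕ) : ℝ≥0∞) * ENNReal.ofReal A) := by
    intro A
    rw [ENNReal.ofReal_mul (by positivity), ENNReal.ofReal_pow (by positivity), h3, sq, mul_assoc]
  rw [h2, Finset.card_univ, Fintype.card_fin, nsmul_eq_mul, nsmul_eq_mul]

end Coul

section Pot

lemma XStar.aesm {v : E3 → ℝ} (hv : XStar v) : AEStronglyMeasurable v volume := by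
  obtain ⟨f, g, hf, hg, rfl⟩ := hv
  exact hf.1.add hg.1

lemma aesm_eval {v : E3 → ℝ} (hv : XStar v) {N : ℕ} (i : Fin N) :
    AEStronglyMeasurable (fun X : Conf N => v (X i)) volume :=
  (XStar.aesm hv).comp_quasiMeasurePreserving
    (Measure.quasiMeasurePreserving_eval (fun _ : Fin N => (volume : Measure E3)) i)

variable (hN : Target_NBody)
include hN

/-- `v(x_i) |u|²` is integrable. -/
lemma pot_sq {v : E3 → ℝ} (hv : XStar v) {N : ℕ} {u : Conf N → ℝ}
    {D : Fin N × Fin 3 → Conf N → ℝ} (h : Sob dir u D) (i : Fin N) :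
    Integrable (fun X : Conf N => |v (X i)| * u X ^ 2) := by
  obtain ⟨C, hC⟩ := (hN N).1 v hv 1 one_pos
  have h1 := hC u D h i
  have m : AEStronglyMeasurable (fun X : Conf N => |v (X i)| * u X ^ 2) volume :=
    (aesm_eval hv i).norm.mul (h.memLp.1.pow 2)
  refine ⟨m, ?_⟩
  have e : ∀ X : Conf N, ‖|v (X i)| * u X ^ 2‖ₑ = ‖v (X i)‖ₑ * ‖u X‖ₑ ^ 2 := by
    intro X
    rw [enorm_mul, enorm_pow, ← Real.norm_eq_abs, enorm_norm]
  unfold HasFiniteIntegral
  simp only [e]
  refine h1.trans_lt ?_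
  have h2 : ∀ w : Conf N → ℝ, MemLp w 2 volume → ∫⁻ x, ‖w x‖ₑ ^ 2 < ⊤ := by
    intro w hw
    rw [lintegral_sq_eq hw]; exact ENNReal.ofReal_lt_top
  refine ENNReal.add_lt_top.2 ⟨ENNReal.mul_lt_top (by simp) ?_,
    ENNReal.mul_lt_top (by simp) (h2 u h.memLp)⟩
  exact ENNReal.sum_lt_top.2 fun a _ => h2 _ (h.memLp_grad _)

/-- `v(x_i) u w` is integrable. -/
lemma pot_mul {v : E3 → ℝ} (hv : XStar v) {N : ℕ} {u w : Conf N → ℝ}
    {D D' : Fin N × Fin 3 → Conf N → ℝ} (h : Sob dir u D) (h' : Sob dir w D') (i : Fin N) :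
    Integrable (fun X : Conf N => v (X i) * (u X * w X)) := by
  refine ((pot_sq hN hv h i).add (pot_sq hN hv h' i)).mono'
    ((aesm_eval hv i).mul (h.memLp.1.mul h'.memLp.1)) ?_
  filter_upwards with X
  rw [Real.norm_eq_abs, abs_mul, abs_mul]
  simp only [Pi.add_apply]
  rw [← mul_add]
  refine mul_le_mul_of_nonneg_left ?_ (abs_nonneg _)
  rw [← sq_abs (u X), ← sq_abs (w X)]
  nlinarith [sq_nonneg (|u X| - |w X|), sq_nonneg (|u X| + |w X|)]

lemma ext_mul {v : E3 → ℝ} (hv : XStar v) {N : ℕ} {u w : Conf N → ℝ}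
    {D D' : Fin N × Fin 3 → Conf N → ℝ} (h : Sob dir u D) (h' : Sob dir w D') :
    Integrable (fun X : Conf N => ext v X * (u X * w X)) := by
  have e : (fun X : Conf N => ext v X * (u X * w X)) =
      fun X => ∑ i, v (X i) * (u X * w X) := by
    funext X
    rw [ext, Finset.sum_mul]
  rw [e]
  exact integrable_finsetSum _ fun i _ => pot_mul hN hv h h' i

lemma coul_mul {N : ℕ} {u w : Conf N → ℝ}
    {D D' : Fin N × Fin 3 → Conf N → ℝ} (h : Sob dir u D) (h' : Sob dir w D') :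
    Integrable (fun X : Conf N => coulomb X * (u X * w X)) := by
  have h1 := (memLp_coulomb hN h).integrable_mul h'.memLp
  refine h1.congr ?_
  filter_upwards with X
  simp only [Pi.mul_apply]
  ring

end Pot

section Tensor

/-- the tensor product test function -/
noncomputable def tη (ζ : E3 → ℝ) (k : Conf n → ℝ) (X : Conf (n + 1)) : ℝ :=
  ζ (X 0) * k (Fin.tail X)

/-- its gradient -/
noncomputable def tD (ζ : E3 → ℝ) (k : Conf n → ℝ) (Dk : Fin n × Fin 3 → Conf n → ℝ)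
    (p : Fin (n + 1) × Fin 3) (X : Conf (n + 1)) : ℝ :=
  Fin.cases (fderiv ℝ ζ (X 0) (ax p.2) * k (Fin.tail X))
    (fun i => ζ (X 0) * Dk (i, p.2) (Fin.tail X)) p.1

lemma tη_cns (ζ : E3 → ℝ) (k : Conf n → ℝ) (p : E3 × Conf n) :
    tη ζ k (cns p) = ζ p.1 * k p.2 := by
  rw [tη, cns_zero, tail_cns]

lemma tD_cns_zero (ζ : E3 → ℝ) (k : Conf n → ℝ) (Dk : Fin n × Fin 3 → Conf n → ℝ) (a : Fin 3)
    (p : E3 × Conf n) : tD ζ k Dk (0, a) (cns p) = fderiv ℝ ζ p.1 (ax a) * k p.2 := by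
  simp only [tD, Fin.cases_zero]
  rw [cns_zero, tail_cns]

lemma tD_cns_succ (ζ : E3 → ℝ) (k : Conf n → ℝ) (Dk : Fin n × Fin 3 → Conf n → ℝ) (i : Fin n)
    (a : Fin 3) (p : E3 × Conf n) :
    tD ζ k Dk (i.succ, a) (cns p) = ζ p.1 * Dk (i, a) p.2 := by
  simp only [tD, Fin.cases_succ]
  rw [cns_zero, tail_cns]

lemma weak_mul_const {E : Type*} [NormedAddCommGroup E] [NormedSpace ℝ E] [MeasureSpace E]
    {u g : E → ℝ} {e : E} (h : WeakDeriv u e g) (c : ℝ) :
    WeakDeriv (fun x => u x * c) e (fun x => g x * c) := by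
  intro ζ hζ
  have h1 := h ζ hζ
  simp only [smul_eq_mul] at h1 ⊢
  simp only [← mul_assoc]
  rw [integral_mul_const, integral_mul_const, h1, neg_mul]

lemma weak_const_mul {E : Type*} [NormedAddCommGroup E] [NormedSpace ℝ E] [MeasureSpace E]
    {u g : E → ℝ} {e : E} (h : WeakDeriv u e g) (c : ℝ) :
    WeakDeriv (fun x => c * u x) e (fun x => c * g x) := by
  have := weak_mul_const h c
  simpa only [mul_comm] using this

lemma sob_tensor (hSL : Target_Slice) {ζ : E3 → ℝ} (hζ : IsTest ζ) {k : Conf n → ℝ}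
    {Dk : Fin n × Fin 3 → Conf n → ℝ} (hk : Sob dir k Dk) :
    Sob dir (tη ζ k) (tD ζ k Dk) := by
  have m0 : MemLp (tη ζ k) 2 volume := by
    refine memLp_of_cns hSL ?_
    simp only [tη_cns]
    exact memLp_tensor (hζ.memLp 2) hk.memLp
  have m1 : ∀ p, MemLp (tD ζ k Dk p) 2 volume := by
    rintro ⟨i, a⟩
    refine memLp_of_cns hSL ?_
    rcases Fin.eq_zero_or_eq_succ i with rfl | ⟨i', rfl⟩
    · simp only [tD_cns_zero]
      exact memLp_tensor ((hζ.dir (ax a)).memLp 2) hk.memLp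
    · simp only [tD_cns_succ]
      exact memLp_tensor (hζ.memLp 2) (hk.memLp_grad _)
  refine ⟨m0, m1, ?_⟩
  rintro ⟨i, a⟩
  rcases Fin.eq_zero_or_eq_succ i with rfl | ⟨i', rfl⟩
  · refine ((hSL n 0).2.1 _ _ a m0 (m1 _)).2 ?_
    filter_upwards with y
    have e1 : (fun x : E3 => tη ζ k (ins 0 x y)) = fun x => ζ x * k y := by
      funext x; exact tη_cns ζ k (x, y)
    have e2 : (fun x : E3 => tD ζ k Dk (0, a) (ins 0 x y)) =
        fun x => fderiv ℝ ζ x (ax a) * k y := by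
      funext x; exact tD_cns_zero ζ k Dk a (x, y)
    rw [e1, e2]
    exact weak_mul_const (hζ.weakDeriv (ax a)) (k y)
  · have h3 := ((hSL n 0).2.2 (tη ζ k) (tD ζ k Dk (i'.succ, a)) i' a m0 (m1 _)).2
    rw [Fin.zero_succAbove] at h3
    refine h3 ?_
    filter_upwards with x
    have e1 : (fun y : Conf n => tη ζ k (ins 0 x y)) = fun y => ζ x * k y := by
      funext y; exact tη_cns ζ k (x, y)
    have e2 : (fun y : Conf n => tD ζ k Dk (i'.succ, a) (ins 0 x y)) =
        fun y => ζ x * Dk (i', a) y := by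
      funext y; exact tD_cns_succ ζ k Dk i' a (x, y)
    rw [e1, e2]
    exact weak_const_mul (hk.weak (i', a)) (ζ x)

end Tensor

section Eqn

variable (hSL : Target_Slice) (hN : Target_NBody)

include hSL in
lemma tensor_int {w : E3 → ℝ} {k : Conf n → ℝ} {f : Conf (n + 1) → ℝ}
    (hw : MemLp w 2 volume) (hk : MemLp k 2 volume) (hf : MemLp f 2 volume) :
    ∫ X, f X * (w (X 0) * k (Fin.tail X)) = ∫ x, w x * ∫ y, f (cns (x, y)) * k y := by
  rw [integral_cns hSL]
  have e : (fun p : E3 × Conf n => f (cns p) * (w (cns p 0) * k (Fin.tail (cns p)))) =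
      fun p => w p.1 * (f (cns p) * k p.2) := by
    funext p
    rw [cns_zero, tail_cns]; ring
  rw [e, integral_prod _ (integrable_triple hSL hw hk hf)]
  refine integral_congr_ae ?_
  filter_upwards with x
  rw [integral_const_mul]

include hSL in
lemma tensor_integrable {w : E3 → ℝ} {k : Conf n → ℝ} {f : Conf (n + 1) → ℝ}
    (hw : MemLp w 2 volume) (hk : MemLp k 2 volume) (hf : MemLp f 2 volume) :
    Integrable (fun x => w x * ∫ y, f (cns (x, y)) * k y) := by
  have h := (integrable_triple hSL hw hk hf).integral_prod_left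
  refine h.congr ?_
  filter_upwards with x
  rw [integral_const_mul]

lemma ext_cns (v : E3 → ℝ) (p : E3 × Conf n) : ext v (cns p) = v p.1 + ext v p.2 := by
  rw [ext, Fin.sum_univ_succ, cns_zero, ext]
  simp only [cns_succ]

include hSL hN in
/-- The potential of the first particle. -/
lemma v_int {v : E3 → ℝ} (hv : XStar v) {φ : Conf (n + 1) → ℝ}
    {D : Fin (n + 1) × Fin 3 → Conf (n + 1) → ℝ} (hφ : Sob dir φ D) {ζ : E3 → ℝ}
    (hζ : IsTest ζ) {k : Conf n → ℝ} {Dk : Fin n × Fin 3 → Conf n → ℝ} (hk : Sob dir k Dk) :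
    ∫ X, v (X 0) * (φ X * tη ζ k X) = ∫ x, v x * (ζ x * ∫ y, φ (cns (x, y)) * k y) := by
  have h := pot_mul hN hv hφ (sob_tensor hSL hζ hk) 0
  rw [integral_cns' hSL h]
  refine integral_congr_ae ?_
  filter_upwards with x
  have e : (fun y : Conf n => v (cns (x, y) 0) * (φ (cns (x, y)) * tη ζ k (cns (x, y)))) =
      fun y => (v x * ζ x) * (φ (cns (x, y)) * k y) := by
    funext y
    rw [tη_cns, cns_zero]; ring
  rw [e, integral_const_mul, mul_assoc]

include hSL hN in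
/-- The potential of the other particles. -/
lemma ext_int {v : E3 → ℝ} (hv : XStar v) {φ : Conf (n + 1) → ℝ}
    {D : Fin (n + 1) × Fin 3 → Conf (n + 1) → ℝ} (hφ : Sob dir φ D) {ζ : E3 → ℝ}
    (hζ : IsTest ζ) {k : Conf n → ℝ} {Dk : Fin n × Fin 3 → Conf n → ℝ} (hk : Sob dir k Dk) :
    Integrable (fun x => ζ x * ∫ y, ext v y * (φ (cns (x, y)) * k y)) ∧
    ∫ X, ext v X * (φ X * tη ζ k X) = (∫ x, v x * (ζ x * ∫ y, φ (cns (x, y)) * k y)) +
      ∫ x, ζ x * ∫ y, ext v y * (φ (cns (x, y)) * k y) := by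
  have h0 := pot_mul hN hv hφ (sob_tensor hSL hζ hk) 0
  have h1 := ext_mul hN hv hφ (sob_tensor hSL hζ hk)
  have h2 : Integrable (fun X : Conf (n + 1) => ext v (Fin.tail X) * (φ X * tη ζ k X)) := by
    refine (h1.sub h0).congr ?_
    filter_upwards with X
    have : ext v X = v (X 0) + ext v (Fin.tail X) := by
      rw [ext, Fin.sum_univ_succ, ext]; rfl
    simp only [Pi.sub_apply]
    rw [this]; ring
  have e : ∀ x : E3, ∫ y, ext v (Fin.tail (cns (x, y))) * (φ (cns (x, y)) * tη ζ k (cns (x, y)))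
      = ζ x * ∫ y, ext v y * (φ (cns (x, y)) * k y) := by
    intro x
    rw [← integral_const_mul]
    refine integral_congr_ae ?_
    filter_upwards with y
    rw [tη_cns, tail_cns]; ring
  constructor
  · have h3 := ((mp_cns hSL).integrable_comp_of_integrable h2).integral_prod_left
    refine h3.congr ?_
    filter_upwards with x
    exact e x
  · rw [← v_int hSL hN hv hφ hζ hk]
    have h4 := integral_cns' hSL h2
    simp only [e] at h4
    rw [← h4, ← integral_add h0 h2]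
    refine integral_congr_ae ?_
    filter_upwards with X
    have : ext v X = v (X 0) + ext v (Fin.tail X) := by
      rw [ext, Fin.sum_univ_succ, ext]; rfl
    rw [this]; ring

/-- The equation for the Hilbert space valued function, before taking lifts. -/
lemma eqn_pre (hSL : Target_Slice) (hN : Target_NBody) {v : E3 → ℝ} (hv : XStar v) {E κ : ℝ}
    {C' : Set (Conf n)} {φ : Conf (n + 1) → ℝ}
    {D : Fin (n + 1) × Fin 3 → Conf (n + 1) → ℝ} (hφ : Sob dir φ D)
    (hC0 : ∀ᵐ x : Conf (n + 1), Fin.tail x ∉ C' → φ x = 0)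
    (hS : WeakSchr v E φ D (fun η => ∀ᵐ x : Conf (n + 1), Fin.tail x ∉ C' → η x = 0))
    {ζ : E3 → ℝ} (hζ : IsTest ζ) {k h : Conf n → ℝ} {Dk : Fin n × Fin 3 → Conf n → ℝ}
    (hk : Sob dir k Dk) (hk0 : ∀ᵐ y, y ∉ C' → k y = 0)
    (hop : ∀ (f : Conf n → ℝ) (Df : Fin n × Fin 3 → Conf n → ℝ), Sob dir f Df →
          (∀ᵐ y, y ∉ C' → f y = 0) →
          1 / 2 * (∑ p, ∫ y, Df p y * Dk p y) + (∫ y, ext v y * (f y * k y))
            + κ * (∫ y, f y * k y) = ∫ y, f y * h y) :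
    1 / 2 * (∑ a, ∫ x, fderiv ℝ ζ x (ax a) * ∫ y, D (0, a) (cns (x, y)) * k y)
      + (∫ x, v x * (ζ x * ∫ y, φ (cns (x, y)) * k y))
      + (∫ x, ζ x * ∫ y, φ (cns (x, y)) * h y)
      = ∫ x, ζ x * ∫ y, ((κ + E) * φ (cns (x, y)) - coulomb (cns (x, y)) * φ (cns (x, y))) *
          k y := by
  have hη := sob_tensor hSL hζ hk
  have hη0 : ∀ᵐ X : Conf (n + 1), Fin.tail X ∉ C' → tη ζ k X = 0 := by
    refine ae_of_cns hSL ?_
    have h1 : ∀ᵐ p : E3 × Conf n ∂(volume.prod volume), p.2 ∉ C' → k p.2 = 0 :=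
      Measure.quasiMeasurePreserving_snd.ae hk0
    filter_upwards [h1] with p hp
    rw [tail_cns, tη_cns]
    intro h2
    rw [hp h2, mul_zero]
  have hw := hS _ _ hη hη0
  -- the kinetic terms
  have k0 : ∀ a : Fin 3, ∫ X, D (0, a) X * tD ζ k Dk (0, a) X =
      ∫ x, fderiv ℝ ζ x (ax a) * ∫ y, D (0, a) (cns (x, y)) * k y := by
    intro a
    rw [← tensor_int hSL ((hζ.dir (ax a)).memLp 2) hk.memLp (hφ.memLp_grad _)]
    rfl
  have k1 : ∀ (i : Fin n) (a : Fin 3), ∫ X, D (i.succ, a) X * tD ζ k Dk (i.succ, a) X =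
      ∫ x, ζ x * ∫ y, D (i.succ, a) (cns (x, y)) * Dk (i, a) y := by
    intro i a
    rw [← tensor_int hSL (hζ.memLp 2) (hk.memLp_grad _) (hφ.memLp_grad _)]
    rfl
  have ksum : ∑ p, ∫ X, D p X * tD ζ k Dk p X =
      (∑ a, ∫ x, fderiv ℝ ζ x (ax a) * ∫ y, D (0, a) (cns (x, y)) * k y) +
      ∑ p : Fin n × Fin 3, ∫ x, ζ x * ∫ y, D (p.1.succ, p.2) (cns (x, y)) * Dk p y := by
    rw [Fintype.sum_prod_type, Fin.sum_univ_succ, Fintype.sum_prod_type]
    simp only [k0, k1]
  obtain ⟨iB, eB⟩ := ext_int hSL hN hv hφ hζ hk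
  -- the Coulomb term
  have hcφ := memLp_coulomb hN hφ
  have eC : ∫ X, coulomb X * (φ X * tη ζ k X) =
      ∫ x, ζ x * ∫ y, (coulomb (cns (x, y)) * φ (cns (x, y))) * k y := by
    rw [← tensor_int hSL (hζ.memLp 2) hk.memLp hcφ]
    refine integral_congr_ae ?_
    filter_upwards with X
    rw [tη]; ring
  have eφ : ∫ X, φ X * tη ζ k X = ∫ x, ζ x * ∫ y, φ (cns (x, y)) * k y := by
    rw [← tensor_int hSL (hζ.memLp 2) hk.memLp hφ.memLp]
    rfl
  have ewc : ∫ X, (ext v X + coulomb X) * (φ X * tη ζ k X) =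
      (∫ X, ext v X * (φ X * tη ζ k X)) + ∫ X, coulomb X * (φ X * tη ζ k X) := by
    rw [← integral_add (ext_mul hN hv hφ hη) (coul_mul hN hφ hη)]
    refine integral_congr_ae ?_
    filter_upwards with X
    ring
  rw [ksum, ewc, eB, eC, eφ] at hw
  -- the operator equation
  have iA : ∀ p : Fin n × Fin 3,
      Integrable (fun x => ζ x * ∫ y, D (p.1.succ, p.2) (cns (x, y)) * Dk p y) := fun p =>
    tensor_integrable hSL (hζ.memLp 2) (hk.memLp_grad _) (hφ.memLp_grad _)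
  have iφ : Integrable (fun x => ζ x * ∫ y, φ (cns (x, y)) * k y) :=
    tensor_integrable hSL (hζ.memLp 2) hk.memLp hφ.memLp
  have hopx : ∀ᵐ x : E3, 1 / 2 * (∑ p : Fin n × Fin 3,
      (ζ x * ∫ y, D (p.1.succ, p.2) (cns (x, y)) * Dk p y)) +
      (ζ x * ∫ y, ext v y * (φ (cns (x, y)) * k y)) +
      κ * (ζ x * ∫ y, φ (cns (x, y)) * k y) = ζ x * ∫ y, φ (cns (x, y)) * h y := by
    filter_upwards [sob_slice hSL hφ, ae_cns hSL hC0] with x hx1 hx2
    have h1 := hop _ _ hx1 (by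
      filter_upwards [hx2] with y hy
      rw [tail_cns] at hy
      exact hy)
    rw [← h1, ← Finset.mul_sum]
    ring
  have hint : 1 / 2 * (∑ p : Fin n × Fin 3,
      ∫ x, ζ x * ∫ y, D (p.1.succ, p.2) (cns (x, y)) * Dk p y) +
      (∫ x, ζ x * ∫ y, ext v y * (φ (cns (x, y)) * k y)) +
      κ * (∫ x, ζ x * ∫ y, φ (cns (x, y)) * k y) = ∫ x, ζ x * ∫ y, φ (cns (x, y)) * h y := by
    rw [← integral_congr_ae hopx, integral_add _ (iφ.const_mul κ), integral_add _ iB,
      integral_const_mul, integral_const_mul, integral_finsetSum _ fun p _ => iA p]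
    · exact (integrable_finsetSum _ fun p _ => iA p).const_mul _
    · exact ((integrable_finsetSum _ fun p _ => iA p).const_mul _).add iB
  -- the right-hand side
  have eR : ∫ x, ζ x * ∫ y, ((κ + E) * φ (cns (x, y)) - coulomb (cns (x, y)) * φ (cns (x, y))) *
          k y = (κ + E) * (∫ x, ζ x * ∫ y, φ (cns (x, y)) * k y) -
          ∫ x, ζ x * ∫ y, (coulomb (cns (x, y)) * φ (cns (x, y))) * k y := by
    rw [← integral_const_mul, ← integral_sub (iφ.const_mul _)
      (tensor_integrable hSL (hζ.memLp 2) hk.memLp hcφ)]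
    refine integral_congr_ae ?_
    filter_upwards [memLp_slice hSL hφ.memLp, memLp_slice hSL hcφ] with x hx1 hx2
    have i1 : Integrable (fun y => φ (cns (x, y)) * k y) := hx1.integrable_mul hk.memLp
    have i2 : Integrable (fun y => (coulomb (cns (x, y)) * φ (cns (x, y))) * k y) :=
      hx2.integrable_mul hk.memLp
    have e5 : ∫ y, ((κ + E) * φ (cns (x, y)) - coulomb (cns (x, y)) * φ (cns (x, y))) * k y =
        (κ + E) * (∫ y, φ (cns (x, y)) * k y) -
          ∫ y, (coulomb (cns (x, y)) * φ (cns (x, y))) * k y := by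
      rw [← integral_const_mul, ← integral_sub (i1.const_mul _) i2]
      refine integral_congr_ae ?_
      filter_upwards with y
      ring
    rw [e5]; ring
  rw [eR]
  linarith

end Eqn

section Final

/-- The form of the operator of the last particles on the slice at `x`. -/
noncomputable def qf (v : E3 → ℝ) (κ : ℝ) (φ : Conf (n + 1) → ℝ)
    (D : Fin (n + 1) × Fin 3 → Conf (n + 1) → ℝ) (x : E3) : ℝ :=
  1 / 2 * (∑ p : Fin n × Fin 3, ∫ y, D (p.1.succ, p.2) (cns (x, y)) ^ 2)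
    + (∫ y, ext v y * φ (cns (x, y)) ^ 2) + κ * ∫ y, φ (cns (x, y)) ^ 2

lemma integrable_qf (hSL : Target_Slice) (hN : Target_NBody) {v : E3 → ℝ} (hv : XStar v)
    (κ : ℝ) {φ : Conf (n + 1) → ℝ} {D : Fin (n + 1) × Fin 3 → Conf (n + 1) → ℝ}
    (hφ : Sob dir φ D) : Integrable (qf v κ φ D) := by
  have hsq : ∀ f : Conf (n + 1) → ℝ, MemLp f 2 volume →
      Integrable (fun x : E3 => ∫ y, f (cns (x, y)) ^ 2) := fun f hf =>
    (memLp_cns hSL hf).integrable_sq.integral_prod_left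
  have h2 : Integrable (fun X : Conf (n + 1) => ext v (Fin.tail X) * φ X ^ 2) := by
    have e : (fun X : Conf (n + 1) => ext v (Fin.tail X) * φ X ^ 2) =
        fun X => ∑ i : Fin n, v (X i.succ) * (φ X * φ X) := by
      funext X
      rw [ext, Finset.sum_mul]
      refine Finset.sum_congr rfl fun i _ => ?_
      rw [Fin.tail]; ring
    rw [e]
    exact integrable_finsetSum _ fun i _ => pot_mul hN hv hφ hφ i.succ
  have h3 : Integrable (fun x : E3 => ∫ y, ext v y * φ (cns (x, y)) ^ 2) := by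
    have h4 := ((mp_cns hSL).integrable_comp_of_integrable h2).integral_prod_left
    refine h4.congr ?_
    filter_upwards with x
    refine integral_congr_ae ?_
    filter_upwards with y
    simp only [Function.comp_apply]
    rw [tail_cns]
  exact (((integrable_finsetSum _ fun (p : Fin n × Fin 3) _ =>
    hsq _ (hφ.memLp_grad (p.1.succ, p.2))).const_mul _).add h3).add
    ((hsq _ hφ.memLp).const_mul κ)

/-- Lift of a function. -/
lemma lift (hL : Target_Lift) {f : Conf (n + 1) → ℝ} (hf : MemLp f 2 volume) :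
    ∃ Ψ : E3 → Lp ℝ 2 (volume : Measure (Conf n)), MemLp Ψ 2 volume ∧
      ∀ᵐ x : E3, (Ψ x : Conf n → ℝ) =ᵐ[volume] fun y => f (cns (x, y)) := by
  obtain ⟨Ψ, h1, h2⟩ := hL n f hf
  refine ⟨Ψ, h1, ?_⟩
  simp only [cns_eq]
  exact h2

lemma nsq_congr {N : ℕ} {f f' : Conf N → ℝ} (h : f =ᵐ[volume] f')
    (D : Fin N × Fin 3 → Conf N → ℝ) : nsq f D = nsq f' D := by
  unfold nsq
  congr 1
  exact integral_congr_ae (by filter_upwards [h] with y hy; rw [hy])

instance : Fact ((2 : ℝ≥0∞) ≠ ⊤) := ⟨by norm_num⟩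

end Final

end Pool.Agent.HK.CellPf
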