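import Pool.Agent.HK.Calc

/-!
# The annular cut-off functions
-/

open MeasureTheory Set Filter Topology
open scoped ENNReal NNReal InnerProductSpace

namespace Pool.Agent.HK

namespace Cut

/-- smooth bump: `1` on the closed unit ball, `0` outside the ball of radius two -/
noncomputable def bump : ContDiffBump (0 : E3) := ⟨1, 2, one_pos, one_lt_two⟩

/-- the same as a function -/
noncomputable def ψ (x : E3) : ℝ := bump x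

lemma ψ_test : IsTest ψ := ⟨bump.contDiff, bump.hasCompactSupport⟩

lemma ψ_contDiff : ContDiff ℝ (⊤ : ℕ∞) ψ := ψ_test.1

lemma ψ_nonneg (x : E3) : 0 ≤ ψ x := bump.nonneg
lemma ψ_le_one (x : E3) : ψ x ≤ 1 := bump.le_one

lemma ψ_one {x : E3} (h : ‖x‖ ≤ 1) : ψ x = 1 := by
  apply bump.one_of_mem_closedBall
  simpa [bump] using h

lemma ψ_zero {x : E3} (h : 2 ≤ ‖x‖) : ψ x = 0 := by
  apply bump.zero_of_le_dist
  simpa [bump] using h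

/-- first derivatives of the bump -/
noncomputable def ψ1 (a : Fin 3) (x : E3) : ℝ := fderiv ℝ ψ x (ax a)
/-- second derivatives of the bump -/
noncomputable def ψ2 (a : Fin 3) (x : E3) : ℝ := fderiv ℝ (ψ1 a) x (ax a)

lemma ψ1_test (a : Fin 3) : IsTest (ψ1 a) := ψ_test.dir (ax a)
lemma ψ2_test (a : Fin 3) : IsTest (ψ2 a) := (ψ1_test a).dir (ax a)

lemma ψ1_zero (a : Fin 3) {x : E3} (h : ‖x‖ < 1 ∨ 2 < ‖x‖) : ψ1 a x = 0 := by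
  unfold ψ1
  rcases h with h | h
  · have : ψ =ᶠ[𝓝 x] fun _ => 1 := by
      have hb : {y : E3 | ‖y‖ < 1} ∈ 𝓝 x := (isOpen_lt continuous_norm continuous_const).mem_nhds h
      filter_upwards [hb] with y hy
      exact ψ_one (le_of_lt hy)
    rw [this.fderiv_eq]; simp
  · have : ψ =ᶠ[𝓝 x] fun _ => 0 := by
      have hb : {y : E3 | 2 < ‖y‖} ∈ 𝓝 x := (isOpen_lt continuous_const continuous_norm).mem_nhds h
      filter_upwards [hb] with y hy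
      exact ψ_zero (le_of_lt hy)
    rw [this.fderiv_eq]; simp

lemma ψ2_zero (a : Fin 3) {x : E3} (h : ‖x‖ < 1 ∨ 2 < ‖x‖) : ψ2 a x = 0 := by
  unfold ψ2
  have : ψ1 a =ᶠ[𝓝 x] fun _ => 0 := by
    rcases h with h | h
    · have hb : {y : E3 | ‖y‖ < 1} ∈ 𝓝 x :=
        (isOpen_lt continuous_norm continuous_const).mem_nhds h
      filter_upwards [hb] with y hy
      exact ψ1_zero a (Or.inl hy)
    · have hb : {y : E3 | 2 < ‖y‖} ∈ 𝓝 x :=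
        (isOpen_lt continuous_const continuous_norm).mem_nhds h
      filter_upwards [hb] with y hy
      exact ψ1_zero a (Or.inr hy)
  rw [this.fderiv_eq]; simp

lemma exists_M : ∃ M : ℝ, 0 < M ∧ (∀ a x, |ψ1 a x| ≤ M) ∧ ∀ a x, |ψ2 a x| ≤ M := by
  choose m hm using fun a => (ψ1_test a).exists_bound
  choose m' hm' using fun a => (ψ2_test a).exists_bound
  have hm0 : ∀ a, 0 ≤ m a := fun a => (abs_nonneg _).trans (hm a 0)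
  have hm0' : ∀ a, 0 ≤ m' a := fun a => (abs_nonneg _).trans (hm' a 0)
  refine ⟨1 + ∑ a, m a + ∑ a, m' a, ?_, ?_, ?_⟩
  · have h1 := Finset.sum_nonneg fun a (_ : a ∈ Finset.univ) => hm0 a
    have h2 := Finset.sum_nonneg fun a (_ : a ∈ Finset.univ) => hm0' a
    linarith
  · intro a x
    have h1 := Finset.single_le_sum (fun a _ => hm0 a) (Finset.mem_univ a)
    have h2 := Finset.sum_nonneg fun a (_ : a ∈ Finset.univ) => hm0' a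
    have := hm a x
    linarith
  · intro a x
    have h1 := Finset.single_le_sum (fun a _ => hm0' a) (Finset.mem_univ a)
    have h2 := Finset.sum_nonneg fun a (_ : a ∈ Finset.univ) => hm0 a
    have := hm' a x
    linarith

/-- `ψ` rescaled about `x₀` -/
noncomputable def sc (x₀ : E3) (c : ℝ) (x : E3) : E3 := c⁻¹ • (x - x₀)

lemma norm_sc (x₀ : E3) {c : ℝ} (hc : 0 < c) (x : E3) : ‖sc x₀ c x‖ = ‖x - x₀‖ / c := by
  rw [sc, norm_smul, norm_inv, Real.norm_of_nonneg hc.le]; field_simp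

lemma fderiv_sc (x₀ : E3) (c : ℝ) {f : E3 → ℝ} (hf : Differentiable ℝ f) (x e : E3) :
    fderiv ℝ (fun y => f (sc x₀ c y)) x e = c⁻¹ * fderiv ℝ f (sc x₀ c x) e := by
  have h1 : HasFDerivAt (fun y => sc x₀ c y) (c⁻¹ • ContinuousLinearMap.id ℝ E3) x := by
    unfold sc
    exact ((hasFDerivAt_id x).sub_const x₀).const_smul c⁻¹
  have h2 := (hf (sc x₀ c x)).hasFDerivAt.comp x h1
  have h3 : fderiv ℝ (fun y => f (sc x₀ c y)) x = _ := h2.fderiv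
  rw [h3]
  simp

lemma contDiff_sc (x₀ : E3) (c : ℝ) {f : E3 → ℝ} (hf : ContDiff ℝ (⊤ : ℕ∞) f) :
    ContDiff ℝ (⊤ : ℕ∞) (fun y => f (sc x₀ c y)) := by
  refine hf.comp ?_
  unfold sc
  fun_prop

/-- the cut-off function -/
noncomputable def χ (x₀ : E3) (ρ s : ℝ) (x : E3) : ℝ := ψ (sc x₀ ρ x) - ψ (sc x₀ s x)

lemma χ_contDiff (x₀ : E3) (ρ s : ℝ) : ContDiff ℝ (⊤ : ℕ∞) (χ x₀ ρ s) :=
  (contDiff_sc x₀ ρ ψ_contDiff).sub (contDiff_sc x₀ s ψ_contDiff)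

lemma fderiv_χ (x₀ : E3) (ρ s : ℝ) (x : E3) (a : Fin 3) :
    fderiv ℝ (χ x₀ ρ s) x (ax a) = ρ⁻¹ * ψ1 a (sc x₀ ρ x) - s⁻¹ * ψ1 a (sc x₀ s x) := by
  have h1 := (contDiff_sc x₀ ρ ψ_contDiff).differentiable (by simp) x
  have h2 := (contDiff_sc x₀ s ψ_contDiff).differentiable (by simp) x
  have h3 : fderiv ℝ (χ x₀ ρ s) x = _ := (h1.hasFDerivAt.sub h2.hasFDerivAt).fderiv
  rw [h3, _root_.sub_apply, fderiv_sc x₀ ρ (ψ_contDiff.differentiable (by simp)),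
    fderiv_sc x₀ s (ψ_contDiff.differentiable (by simp))]
  rfl

lemma fderiv_fderiv_χ (x₀ : E3) (ρ s : ℝ) (x : E3) (a : Fin 3) :
    fderiv ℝ (fun y => fderiv ℝ (χ x₀ ρ s) y (ax a)) x (ax a) =
      ρ⁻¹ ^ 2 * ψ2 a (sc x₀ ρ x) - s⁻¹ ^ 2 * ψ2 a (sc x₀ s x) := by
  simp only [fderiv_χ]
  have h1 := (contDiff_sc x₀ ρ (ψ1_test a).1).differentiable (by simp) x
  have h2 := (contDiff_sc x₀ s (ψ1_test a).1).differentiable (by simp) x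
  have h3 : fderiv ℝ (fun y => ρ⁻¹ * ψ1 a (sc x₀ ρ y) - s⁻¹ * ψ1 a (sc x₀ s y)) x = _ :=
    ((h1.hasFDerivAt.const_mul ρ⁻¹).sub (h2.hasFDerivAt.const_mul s⁻¹)).fderiv
  rw [h3, _root_.sub_apply, ContinuousLinearMap.smul_apply,
    ContinuousLinearMap.smul_apply, fderiv_sc x₀ ρ ((ψ1_test a).differentiable),
    fderiv_sc x₀ s ((ψ1_test a).differentiable)]
  simp only [ψ2, smul_eq_mul]
  ring

variable {x₀ : E3} {ρ s : ℝ}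

lemma χ_zero_inner (hs : 0 < s) (hsρ : s ≤ ρ) {x : E3} (h : ‖x - x₀‖ ≤ s) :
    χ x₀ ρ s x = 0 := by
  have hρ : 0 < ρ := hs.trans_le hsρ
  rw [χ, ψ_one, ψ_one, sub_self]
  · rw [norm_sc x₀ hs, div_le_one hs]; exact h
  · rw [norm_sc x₀ hρ, div_le_one hρ]; exact h.trans hsρ

lemma χ_zero_outer (hs : 0 < s) (hsρ : s ≤ ρ) {x : E3} (h : 2 * ρ ≤ ‖x - x₀‖) :
    χ x₀ ρ s x = 0 := by
  have hρ : 0 < ρ := hs.trans_le hsρ
  rw [χ, ψ_zero, ψ_zero, sub_self]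
  · rw [norm_sc x₀ hs, le_div_iff₀ hs]; linarith
  · rw [norm_sc x₀ hρ, le_div_iff₀ hρ]; linarith

lemma χ_one (hs : 0 < s) (hρ : 0 < ρ) {x : E3} (h : 2 * s ≤ ‖x - x₀‖) (h' : ‖x - x₀‖ ≤ ρ) :
    χ x₀ ρ s x = 1 := by
  rw [χ, ψ_one, ψ_zero, sub_zero]
  · rw [norm_sc x₀ hs, le_div_iff₀ hs]; linarith
  · rw [norm_sc x₀ hρ, div_le_one hρ]; exact h'

lemma abs_χ_le (x : E3) : |χ x₀ ρ s x| ≤ 1 := by
  rw [abs_le, χ]
  have h1 := ψ_nonneg (sc x₀ ρ x)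
  have h2 := ψ_le_one (sc x₀ ρ x)
  have h3 := ψ_nonneg (sc x₀ s x)
  have h4 := ψ_le_one (sc x₀ s x)
  constructor <;> linarith

lemma χ_test (hs : 0 < s) (hsρ : s ≤ ρ) : IsTest (χ x₀ ρ s) := by
  refine ⟨χ_contDiff x₀ ρ s, ?_⟩
  refine HasCompactSupport.of_support_subset_isCompact (isCompact_closedBall x₀ (2 * ρ)) ?_
  intro x hx
  rw [Metric.mem_closedBall, dist_eq_norm]
  by_contra h
  exact hx (χ_zero_outer hs hsρ (le_of_not_ge h))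

lemma dχ_zero (hs : 0 < s) (hsρ : s ≤ ρ) (a : Fin 3) {x : E3}
    (h : ‖x - x₀‖ < s ∨ 2 * ρ < ‖x - x₀‖) : fderiv ℝ (χ x₀ ρ s) x (ax a) = 0 := by
  have hρ : 0 < ρ := hs.trans_le hsρ
  rw [fderiv_χ]
  rcases h with h | h
  · rw [ψ1_zero, ψ1_zero]
    · simp
    · left; rw [norm_sc x₀ hs, div_lt_one hs]; exact h
    · left; rw [norm_sc x₀ hρ, div_lt_one hρ]; linarith
  · rw [ψ1_zero, ψ1_zero]
    · simp
    · right; rw [norm_sc x₀ hs, lt_div_iff₀ hs]; linarith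
    · right; rw [norm_sc x₀ hρ, lt_div_iff₀ hρ]; linarith

lemma ddχ_zero (hs : 0 < s) (hsρ : s ≤ ρ) (a : Fin 3) {x : E3}
    (h : ‖x - x₀‖ < s ∨ 2 * ρ < ‖x - x₀‖) :
    fderiv ℝ (fun y => fderiv ℝ (χ x₀ ρ s) y (ax a)) x (ax a) = 0 := by
  have hρ : 0 < ρ := hs.trans_le hsρ
  rw [fderiv_fderiv_χ]
  rcases h with h | h
  · rw [ψ2_zero, ψ2_zero]
    · simp
    · left; rw [norm_sc x₀ hs, div_lt_one hs]; exact h
    · left; rw [norm_sc x₀ hρ, div_lt_one hρ]; linarith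
  · rw [ψ2_zero, ψ2_zero]
    · simp
    · right; rw [norm_sc x₀ hs, lt_div_iff₀ hs]; linarith
    · right; rw [norm_sc x₀ hρ, lt_div_iff₀ hρ]; linarith

/-- a weighted bound for a difference of two rescaled functions -/
lemma weight_bound {f : E3 → ℝ} {M : ℝ} (hM : ∀ x, |f x| ≤ M)
    (hf : ∀ x : E3, ‖x‖ < 1 ∨ 2 < ‖x‖ → f x = 0) (hs : 0 < s) (hρ : 0 < ρ) (k q : ℕ) (x : E3) :
    (‖x - x₀‖⁻¹) ^ (2 * k) * (ρ⁻¹ ^ q * f (sc x₀ ρ x) - s⁻¹ ^ q * f (sc x₀ s x)) ^ 2 ≤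
      2 * M ^ 2 * (ρ⁻¹ ^ (2 * k + 2 * q) +
        (Metric.ball x₀ (3 * s)).indicator (fun _ => s⁻¹ ^ (2 * k + 2 * q)) x) := by
  have hM0 : 0 ≤ M := (abs_nonneg _).trans (hM 0)
  have key : ∀ c : ℝ, 0 < c → (‖x - x₀‖⁻¹) ^ (2 * k) * (c⁻¹ ^ q * f (sc x₀ c x)) ^ 2 ≤
      (if ‖x - x₀‖ < 3 * c then 1 else 0) * (M ^ 2 * c⁻¹ ^ (2 * k + 2 * q)) := by
    intro c hc
    by_cases h0 : f (sc x₀ c x) = 0
    · rw [h0]; simp; positivity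
    have h1 : ¬ (‖sc x₀ c x‖ < 1 ∨ 2 < ‖sc x₀ c x‖) := fun h => h0 (hf _ h)
    push Not at h1
    rw [norm_sc x₀ hc, le_div_iff₀ hc, div_le_iff₀ hc, one_mul] at h1
    have h3 : ‖x - x₀‖ < 3 * c := by linarith [h1.2]
    rw [if_pos h3, one_mul, mul_pow]
    have h4 : (‖x - x₀‖⁻¹) ^ (2 * k) ≤ c⁻¹ ^ (2 * k) := by
      gcongr
      exact h1.1
    have h5 : f (sc x₀ c x) ^ 2 ≤ M ^ 2 := by
      rw [← sq_abs]
      exact pow_le_pow_left₀ (abs_nonneg _) (hM _) 2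
    calc (‖x - x₀‖⁻¹) ^ (2 * k) * ((c⁻¹ ^ q) ^ 2 * f (sc x₀ c x) ^ 2)
        ≤ c⁻¹ ^ (2 * k) * ((c⁻¹ ^ q) ^ 2 * M ^ 2) := by gcongr
      _ = M ^ 2 * c⁻¹ ^ (2 * k + 2 * q) := by ring
  have h1 := key ρ hρ
  have h2 := key s hs
  have h3 : (ρ⁻¹ ^ q * f (sc x₀ ρ x) - s⁻¹ ^ q * f (sc x₀ s x)) ^ 2 ≤
      2 * (ρ⁻¹ ^ q * f (sc x₀ ρ x)) ^ 2 + 2 * (s⁻¹ ^ q * f (sc x₀ s x)) ^ 2 := by
    nlinarith [sq_nonneg (ρ⁻¹ ^ q * f (sc x₀ ρ x) + s⁻¹ ^ q * f (sc x₀ s x))]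
  have hw : 0 ≤ (‖x - x₀‖⁻¹) ^ (2 * k) := by positivity
  have h4 := mul_le_mul_of_nonneg_left h3 hw
  have h5 : (if ‖x - x₀‖ < 3 * ρ then (1 : ℝ) else 0) * (M ^ 2 * ρ⁻¹ ^ (2 * k + 2 * q)) ≤
      M ^ 2 * ρ⁻¹ ^ (2 * k + 2 * q) := by
    split_ifs
    · rw [one_mul]
    · rw [zero_mul]; positivity
  have h6 : (if ‖x - x₀‖ < 3 * s then (1 : ℝ) else 0) * (M ^ 2 * s⁻¹ ^ (2 * k + 2 * q)) =
      M ^ 2 * (Metric.ball x₀ (3 * s)).indicator (fun _ => s⁻¹ ^ (2 * k + 2 * q)) x := by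
    by_cases h : ‖x - x₀‖ < 3 * s
    · rw [if_pos h, indicator_of_mem (by rwa [Metric.mem_ball, dist_eq_norm]), one_mul]
    · rw [if_neg h, indicator_of_notMem (by rwa [Metric.mem_ball, dist_eq_norm])]; simp
  rw [h6] at h2
  have h7 := h1.trans h5
  calc _ ≤ (‖x - x₀‖⁻¹) ^ (2 * k) * (2 * (ρ⁻¹ ^ q * f (sc x₀ ρ x)) ^ 2
        + 2 * (s⁻¹ ^ q * f (sc x₀ s x)) ^ 2) := h4
    _ = 2 * ((‖x - x₀‖⁻¹) ^ (2 * k) * (ρ⁻¹ ^ q * f (sc x₀ ρ x)) ^ 2)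
        + 2 * ((‖x - x₀‖⁻¹) ^ (2 * k) * (s⁻¹ ^ q * f (sc x₀ s x)) ^ 2) := by ring
    _ ≤ 2 * (M ^ 2 * ρ⁻¹ ^ (2 * k + 2 * q)) + 2 * (M ^ 2 *
        (Metric.ball x₀ (3 * s)).indicator (fun _ => s⁻¹ ^ (2 * k + 2 * q)) x) := by
      gcongr
    _ = _ := by ring

/-- weights times squares of the cut-off function are bounded -/
lemma weight_χ_bound (hs : 0 < s) (hsρ : s ≤ ρ) (n : ℕ) (x : E3) :
    (‖x - x₀‖⁻¹) ^ n * χ x₀ ρ s x ^ 2 ≤ s⁻¹ ^ n := by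
  by_cases h : ‖x - x₀‖ ≤ s
  · rw [χ_zero_inner hs hsρ h]; simp; positivity
  · push Not at h
    have h1 : (‖x - x₀‖⁻¹) ^ n ≤ s⁻¹ ^ n := by gcongr
    have h2 : χ x₀ ρ s x ^ 2 ≤ 1 := by
      rw [← sq_abs]
      exact pow_le_one₀ (abs_nonneg _) (abs_χ_le x)
    calc _ ≤ s⁻¹ ^ n * 1 := by gcongr
      _ = _ := mul_one _

lemma weight_χ_nonneg (n : ℕ) (x : E3) : 0 ≤ (‖x - x₀‖⁻¹) ^ n * χ x₀ ρ s x ^ 2 := by positivity

end Cut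

end Pool.Agent.HK
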