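import Mathlib

/-!
# The Hohenberg-Kohn conjecture: basic definitions

`E3` is physical space, `Conf N` the configuration space of `N` particles.  A function `u` lies in
the Sobolev space `H¹` with weak derivatives `D` (in a finite family of directions `e`)
when `Sob e u D` holds.
-/

open MeasureTheory Set Filter Topology
open scoped ENNReal NNReal InnerProductSpace

namespace Pool.Agent.HK

/-- Physical space `ℝ³`. -/
abbrev E3 : Type := EuclideanSpace ℝ (Fin 3)

/-- Configurations of `N` particles in `ℝ³`. -/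
abbrev Conf (N : ℕ) : Type := Fin N → E3

/-- Smooth compactly supported real test functions. -/
def IsTest {E : Type*} [NormedAddCommGroup E] [NormedSpace ℝ E] (ζ : E → ℝ) : Prop :=
  ContDiff ℝ (⊤ : ℕ∞) ζ ∧ HasCompactSupport ζ

/-- `g` is the weak (distributional) derivative of `u` in the direction `e`. -/
def WeakDeriv {E F : Type*} [NormedAddCommGroup E] [NormedSpace ℝ E] [MeasureSpace E]
    [NormedAddCommGroup F] [NormedSpace ℝ F] (u : E → F) (e : E) (g : E → F) : Prop :=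
  ∀ ζ : E → ℝ, IsTest ζ → ∫ x, (fderiv ℝ ζ x e) • u x = - ∫ x, ζ x • g x

/-- `u ∈ L²` with weak derivatives `D i ∈ L²` in the directions `e i`. -/
structure Sob {E F ι : Type*} [NormedAddCommGroup E] [NormedSpace ℝ E] [MeasureSpace E]
    [NormedAddCommGroup F] [NormedSpace ℝ F] (e : ι → E) (u : E → F) (D : ι → E → F) : Prop where
  memLp : MemLp u 2 volume
  memLp_grad : ∀ i, MemLp (D i) 2 volume
  weak : ∀ i, WeakDeriv u (e i) (D i)

/-- The coordinate direction `a` of `ℝ³`. -/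
noncomputable def ax (a : Fin 3) : E3 := EuclideanSpace.single a 1

/-- The coordinate direction `a` of particle `i`. -/
noncomputable def dir {N : ℕ} (p : Fin N × Fin 3) : Conf N := Pi.single p.1 (ax p.2)

/-- `v ∈ L^{3/2}(ℝ³) + L^∞(ℝ³)`. -/
def XStar (v : E3 → ℝ) : Prop :=
  ∃ f g : E3 → ℝ, MemLp f (3 / 2) volume ∧ MemLp g ⊤ volume ∧ v = f + g

/-- External potential energy `∑ i, v (x i)`. -/
noncomputable def ext (v : E3 → ℝ) {N : ℕ} (x : Conf N) : ℝ := ∑ i, v (x i)

/-- Coulomb repulsion `∑_{i<j} 1/|x_i - x_j|`. -/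
noncomputable def coulomb {N : ℕ} (x : Conf N) : ℝ :=
  ∑ i, ∑ j, if i < j then ‖x i - x j‖⁻¹ else 0

/-- A spin-`1/2` fermionic wave function of `N` particles of finite kinetic energy: for each spin
configuration `s` a function in `H¹(ℝ^{3N}; ℂ)` (with its weak gradient), antisymmetric under
simultaneous permutation of positions and spins. -/
structure Wave (N : ℕ) where
  /-- the wave function, spin configuration first -/
  toFun : (Fin N → Fin 2) → Conf N → ℂ
  /-- its weak gradient -/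
  grad : (Fin N → Fin 2) → Fin N × Fin 3 → Conf N → ℂ
  sob : ∀ s, Sob dir (toFun s) (grad s)
  antisymm : ∀ (σ : Equiv.Perm (Fin N)) (s : Fin N → Fin 2), ∀ᵐ x : Conf N,
    toFun (s ∘ σ) (x ∘ σ) = ((Equiv.Perm.sign σ : ℤ) : ℂ) * toFun s x

/-- `⟨ψ, ψ⟩`. -/
noncomputable def Wave.normSq {N : ℕ} (ψ : Wave N) : ℝ := ∑ s, ∫ x, ‖ψ.toFun s x‖ ^ 2

/-- Kinetic energy: one half of `∑_i ‖∇_i ψ‖²`. -/
noncomputable def Wave.kinetic {N : ℕ} (ψ : Wave N) : ℝ :=
  1 / 2 * ∑ s, ∑ p, ∫ x, ‖ψ.grad s p x‖ ^ 2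

/-- Energy form `⟨ψ, H[v] ψ⟩`. -/
noncomputable def Wave.energy {N : ℕ} (v : E3 → ℝ) (ψ : Wave N) : ℝ :=
  ψ.kinetic + ∑ s, ∫ x, (ext v x + coulomb x) * ‖ψ.toFun s x‖ ^ 2

/-- Ground state energy `E[v] = inf spec H[v]`, the infimum of the energy form over normalised
wave functions. -/
noncomputable def groundEnergy (N : ℕ) (v : E3 → ℝ) : EReal :=
  ⨅ (ψ : Wave N) (_ : ψ.normSq = 1), ((ψ.energy v : ℝ) : EReal)

/-- A density operator (mixed state) `γ = ∑ p_k |ψ_k⟩⟨ψ_k|` of finite kinetic energy. By the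
spectral theorem every density operator of finite kinetic energy has this form. -/
structure DensityOp (N : ℕ) where
  /-- weights -/
  p : ℕ → ℝ
  /-- wave functions -/
  ψ : ℕ → Wave N
  nonneg : ∀ k, 0 ≤ p k
  sum_one : HasSum p 1
  normalized : ∀ k, (ψ k).normSq = 1
  kinetic : Summable fun k => p k * (ψ k).kinetic

/-- `Tr (H[v] γ)`. -/
noncomputable def DensityOp.trace {N : ℕ} (v : E3 → ℝ) (γ : DensityOp N) : ℝ :=
  ∑' k, γ.p k * (γ.ψ k).energy v

/-- The one-body density `ρ_γ(x) = N ∑_k p_k ∑_s ∫ |ψ_k(x, x_2, …, x_N; s)|² dx_2 … dx_N`,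
for `N = n + 1`. -/
noncomputable def DensityOp.density {n : ℕ} (γ : DensityOp (n + 1)) (x : E3) : ℝ :=
  (n + 1) * ∑' k, γ.p k * ∑ s, ∫ y : Conf n, ‖(γ.ψ k).toFun s (Fin.cons x y)‖ ^ 2

/-- `ρ` is an (ensemble) ground-state density of `v`. -/
def IsGroundStateDensity (n : ℕ) (v ρ : E3 → ℝ) : Prop :=
  ∃ γ : DensityOp (n + 1), ((γ.trace v : ℝ) : EReal) = groundEnergy (n + 1) v ∧
    ρ =ᵐ[volume] γ.density

end Pool.Agent.HK
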