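import Pool.Agent.HK.Spec

/-!
# Assembly of the free Carleman inequality from the low and the high modes
-/

open MeasureTheory Set Filter Topology
open scoped ENNReal NNReal InnerProductSpace

namespace Pool.Agent.HK

namespace FC

lemma cyl_continuous {τ : ℕ} {β : ℝ} {u : E3 → ℝ} (hu : Continuous u) :
    Continuous (cyl τ β u) := by
  unfold cyl
  fun_prop

lemma low_stronglyMeasurable (Y : SphSystem) (J : ℕ) {W : ℝ × S2 → ℝ} (hW : Continuous W) :
    StronglyMeasurable (Y.low J W) := by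
  unfold SphSystem.low
  refine Finset.stronglyMeasurable_fun_sum _ fun j _ => Finset.stronglyMeasurable_fun_sum _ fun m _ => ?_
  refine StronglyMeasurable.mul ?_ ?_
  · have h1 : StronglyMeasurable (fun q : ℝ × S2 => W q * Y.Y j m (q.2 : E3)) := by
      refine Continuous.stronglyMeasurable ?_
      exact hW.mul ((Y.smooth j m).continuous.comp (continuous_subtype_val.comp continuous_snd))
    have h2 : StronglyMeasurable (fun t : ℝ => ∫ ω : S2, W (t, ω) * Y.Y j m (ω : E3) ∂sig) :=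
      h1.integral_prod_right
    exact h2.comp_measurable measurable_fst
  · exact ((Y.smooth j m).continuous.comp
      (continuous_subtype_val.comp continuous_snd)).stronglyMeasurable

lemma rpow_mono_one {τ : ℕ} (hτ : 1 ≤ τ) {a b : ℝ} (hab : a ≤ b) :
    ENNReal.ofReal ((τ : ℝ) ^ a) ≤ ENNReal.ofReal ((τ : ℝ) ^ b) := by
  apply ENNReal.ofReal_le_ofReal
  exact Real.rpow_le_rpow_of_exponent_le (by exact_mod_cast hτ) hab

end FC

/-- The free Carleman inequality from its low and high frequency parts. -/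
theorem target_FC (hP : Target_Polar) (hY : Target_SPH) (hL : Target_Low) (hH : Target_High) :
    Target_FC := by
  obtain ⟨Y⟩ := hY
  obtain ⟨C₁, h1⟩ := hL Y
  obtain ⟨C₂, h2⟩ := hH Y
  refine ⟨C₁ + C₂, fun τ hτ lam hlam u F₁ F₂ hu hu0 hF₁ hF₂ heq => ?_⟩
  obtain ⟨h1a, h1b⟩ := h1 τ hτ lam hlam u F₁ F₂ hu hu0 hF₁ hF₂ heq
  obtain ⟨h2a, h2b⟩ := h2 τ hτ lam hlam u F₁ F₂ hu hu0 hF₁ hF₂ heq
  have hum : Measurable u := hu.continuous.measurable
  obtain ⟨p1, p2, -, -⟩ := hP.2.2 τ u hum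
  obtain ⟨-, -, p3, -⟩ := hP.2.2 τ F₁ hF₁.1.measurable
  obtain ⟨-, -, -, p4⟩ := hP.2.2 τ F₂ hF₂.1.measurable
  rw [p1, p2, p3, p4]
  set c : ℝ × S2 → ℝ := cyl τ (1 / 2) u with hc
  have hcc : Continuous c := FC.cyl_continuous hu.continuous
  set L : ℝ × S2 → ℝ := Y.low (2 * τ) c with hLdef
  have hLm : AEStronglyMeasurable L ((volume : Measure ℝ).prod sig) :=
    (FC.low_stronglyMeasurable Y (2 * τ) hcc).aestronglyMeasurable
  have hcm : AEStronglyMeasurable c ((volume : Measure ℝ).prod sig) :=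
    hcc.aestronglyMeasurable
  have hWm : AEStronglyMeasurable (fun p => c p - L p) ((volume : Measure ℝ).prod sig) :=
    hcm.sub hLm
  have hsum : c = L + fun p => c p - L p := by
    funext p
    simp
  set A := eLpNorm (cyl τ (5 / 2) F₁) (6 / 5) ((volume : Measure ℝ).prod sig) with hA
  set B := eLpNorm (cyl τ (5 / 2) F₂) 2 ((volume : Measure ℝ).prod sig) with hB
  have key : ∀ q : ℝ≥0∞, 1 ≤ q → eLpNorm c q ((volume : Measure ℝ).prod sig) ≤
      eLpNorm L q ((volume : Measure ℝ).prod sig) +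
        eLpNorm (fun p => c p - L p) q ((volume : Measure ℝ).prod sig) := by
    intro q hq
    conv_lhs => rw [hsum]
    exact eLpNorm_add_le hLm hWm hq
  constructor
  · refine (key 6 (by norm_num)).trans ?_
    refine (add_le_add h1a h2a).trans ?_
    have e1 : ENNReal.ofReal ((τ : ℝ) ^ (-1 : ℝ)) ≤ ENNReal.ofReal ((τ : ℝ) ^ (-(2 / 3) : ℝ)) :=
      FC.rpow_mono_one hτ (by norm_num)
    push_cast
    rw [add_mul]
    gcongr
  · have e0 : ENNReal.ofReal ((τ : ℝ) ^ (2 / 3 : ℝ)) ≤ ENNReal.ofReal (τ : ℝ) := by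
      have := FC.rpow_mono_one hτ (a := 2 / 3) (b := 1) (by norm_num)
      simpa using this
    have e1 : ENNReal.ofReal ((τ : ℝ) ^ (-1 : ℝ)) ≤ ENNReal.ofReal ((τ : ℝ) ^ (-(1 / 3) : ℝ)) :=
      FC.rpow_mono_one hτ (by norm_num)
    calc ENNReal.ofReal ((τ : ℝ) ^ (2 / 3 : ℝ)) * eLpNorm c 2 ((volume : Measure ℝ).prod sig)
        ≤ ENNReal.ofReal ((τ : ℝ) ^ (2 / 3 : ℝ)) * (eLpNorm L 2 ((volume : Measure ℝ).prod sig) +
            eLpNorm (fun p => c p - L p) 2 ((volume : Measure ℝ).prod sig)) := by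
          gcongr
          exact key 2 (by norm_num)
      _ = ENNReal.ofReal ((τ : ℝ) ^ (2 / 3 : ℝ)) * eLpNorm L 2 ((volume : Measure ℝ).prod sig) +
            ENNReal.ofReal ((τ : ℝ) ^ (2 / 3 : ℝ)) *
              eLpNorm (fun p => c p - L p) 2 ((volume : Measure ℝ).prod sig) := by rw [mul_add]
      _ ≤ C₁ * (A + ENNReal.ofReal ((τ : ℝ) ^ (-(1 / 3) : ℝ)) * B) +
            ENNReal.ofReal (τ : ℝ) *
              eLpNorm (fun p => c p - L p) 2 ((volume : Measure ℝ).prod sig) := by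
          gcongr
      _ ≤ C₁ * (A + ENNReal.ofReal ((τ : ℝ) ^ (-(1 / 3) : ℝ)) * B) +
            C₂ * (A + ENNReal.ofReal ((τ : ℝ) ^ (-1 : ℝ)) * B) := by
          gcongr
      _ ≤ C₁ * (A + ENNReal.ofReal ((τ : ℝ) ^ (-(1 / 3) : ℝ)) * B) +
            C₂ * (A + ENNReal.ofReal ((τ : ℝ) ^ (-(1 / 3) : ℝ)) * B) := by
          gcongr
      _ = _ := by
          push_cast
          rw [add_mul]

end Pool.Agent.HK
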