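import Pool.Agent.HK.Calc

/-!
# Hardy's inequality on `ℝ³`
-/

open MeasureTheory Set Filter Topology
open scoped ENNReal NNReal InnerProductSpace

namespace Pool.Agent.HK

namespace Hardy

/-- regularised squared distance -/
noncomputable def q (c : E3) (ε : ℝ) (x : E3) : ℝ := ‖x - c‖ ^ 2 + ε

lemma q_pos (c : E3) {ε : ℝ} (hε : 0 < ε) (x : E3) : 0 < q c ε x := by
  unfold q; positivity

lemma le_q (c : E3) {ε : ℝ} (x : E3) : ε ≤ q c ε x := by
  unfold q; nlinarith [sq_nonneg ‖x - c‖]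

lemma contDiff_q (c : E3) (ε : ℝ) : ContDiff ℝ (⊤ : ℕ∞) (q c ε) := by
  unfold q
  exact ((contDiff_id.sub contDiff_const).norm_sq ℝ).add contDiff_const

lemma contDiff_q_inv (c : E3) {ε : ℝ} (hε : 0 < ε) :
    ContDiff ℝ (⊤ : ℕ∞) (fun x => (q c ε x)⁻¹) :=
  (contDiff_q c ε).inv fun x => (q_pos c hε x).ne'

/-- the vector field -/
noncomputable def h (c : E3) (ε : ℝ) (a : Fin 3) (x : E3) : ℝ := (x - c) a * (q c ε x)⁻¹

lemma contDiff_coord (c : E3) (a : Fin 3) : ContDiff ℝ (⊤ : ℕ∞) (fun x : E3 => (x - c) a) :=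
  (EuclideanSpace.proj a : EuclideanSpace ℝ (Fin 3) →L[ℝ] ℝ).contDiff.comp
    (contDiff_id.sub contDiff_const)

lemma contDiff_h (c : E3) {ε : ℝ} (hε : 0 < ε) (a : Fin 3) :
    ContDiff ℝ (⊤ : ℕ∞) (h c ε a) :=
  (contDiff_coord c a).mul (contDiff_q_inv c hε)

lemma fderiv_h (c : E3) {ε : ℝ} (hε : 0 < ε) (a : Fin 3) (x : E3) :
    fderiv ℝ (h c ε a) x (ax a) = (q c ε x)⁻¹ - 2 * ((x - c) a) ^ 2 * ((q c ε x)⁻¹) ^ 2 := by
  have hN : HasFDerivAt (fun x : E3 => (x - c) a)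
      (EuclideanSpace.proj a : EuclideanSpace ℝ (Fin 3) →L[ℝ] ℝ) x := by
    have h1 := (EuclideanSpace.proj a : EuclideanSpace ℝ (Fin 3) →L[ℝ] ℝ).hasFDerivAt
      (x := x - c)
    exact h1.comp x ((hasFDerivAt_id x).sub_const c)
  have hq : HasFDerivAt (q c ε) (2 • (innerSL ℝ (x - c))) x := by
    have h1 : HasFDerivAt (fun x : E3 => ‖x - c‖ ^ 2) (2 • (innerSL ℝ (x - c)).comp
        (ContinuousLinearMap.id ℝ E3)) x :=
      ((hasFDerivAt_id x).sub_const c).norm_sq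
    exact h1.add_const ε
  have hqi : HasFDerivAt (fun x => (q c ε x)⁻¹) ((-((q c ε x) ^ 2)⁻¹) • (2 • (innerSL ℝ (x - c)))) x :=
    (hasDerivAt_inv (q_pos c hε x).ne').comp_hasFDerivAt x hq
  have hh := hN.mul hqi
  have e1 : fderiv ℝ (h c ε a) x = _ := hh.fderiv
  rw [e1]
  have e2 : (inner ℝ (x - c) (ax a) : ℝ) = (x - c) a := by
    simp [ax, EuclideanSpace.inner_single_right]
  have e3 : (EuclideanSpace.proj a : EuclideanSpace ℝ (Fin 3) →L[ℝ] ℝ) (ax a) = 1 := by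
    simp [ax]
  simp only [add_apply, smul_apply, innerSL_apply_apply,
    smul_eq_mul, e2, e3, nsmul_eq_mul, Nat.cast_ofNat]
  rw [inv_pow]
  ring

lemma sum_sq (y : E3) : ∑ a, (y a) ^ 2 = ‖y‖ ^ 2 := by
  rw [EuclideanSpace.norm_sq_eq]
  simp

lemma hardy_test (c : E3) {f : E3 → ℝ} (hf : IsTest f) {ε : ℝ} (hε : 0 < ε) :
    ∫ x, f x ^ 2 * (q c ε x)⁻¹ ≤ 4 * ∑ a, ∫ x, (fderiv ℝ f x (ax a)) ^ 2 := by
  have hff : IsTest (fun x => f x * f x) := hf.mul_left hf.1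
  have hdf : ∀ a, IsTest (fun x => fderiv ℝ f x (ax a)) := fun a => hf.dir _
  have it : ∀ {g : E3 → ℝ}, IsTest g → Integrable g volume := fun hg =>
    memLp_one_iff_integrable.1 (hg.memLp 1)
  have hdh : ∀ a, ContDiff ℝ (⊤ : ℕ∞) (fun x => fderiv ℝ (h c ε a) x (ax a)) := fun a =>
    contDiff_fderiv_apply (contDiff_h c hε a) _
  -- integration by parts
  have ibp : ∀ a, ∫ x, (f x * f x) * fderiv ℝ (h c ε a) x (ax a)
      = - ∫ x, (2 * (f x * fderiv ℝ f x (ax a))) * h c ε a x := by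
    intro a
    have e0 : ∀ x, fderiv ℝ (fun x => f x * f x) x (ax a) = 2 * (f x * fderiv ℝ f x (ax a)) := by
      intro x
      rw [fderiv_mul_apply hf.differentiable hf.differentiable]
      ring
    have h1 := integral_mul_fderiv_eq_neg_fderiv_mul_of_integrable (𝕜 := ℝ)
      (μ := (volume : Measure E3)) (f := fun x => f x * f x) (g := h c ε a) (v := ax a)
      (it ((hff.dir (ax a)).mul_right (contDiff_h c hε a)))
      (it (hff.mul_right (hdh a)))
      (it (hff.mul_right (contDiff_h c hε a)))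
      (fun x _ => hff.differentiable x)
      (fun x _ => (contDiff_h c hε a).differentiable (by simp) x)
    rw [h1]
    congr 1
    apply integral_congr_ae
    exact ae_of_all _ fun x => by simp only [e0]
  -- integrability
  have i1 : ∀ a, Integrable (fun x => (f x * f x) * fderiv ℝ (h c ε a) x (ax a)) volume :=
    fun a => it (hff.mul_right (hdh a))
  have i2 : ∀ a, Integrable (fun x => (2 * (f x * fderiv ℝ f x (ax a))) * h c ε a x) volume := by
    intro a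
    have h0 : IsTest (fun x => (f x * fderiv ℝ f x (ax a)) * (2 * h c ε a x)) :=
      ((hdf a).mul_left hf.1).mul_right (contDiff_const.mul (contDiff_h c hε a))
    refine (it h0).congr (ae_of_all _ fun x => ?_)
    simp only []
    ring
  have i3 : Integrable (fun x => f x ^ 2 * (q c ε x)⁻¹) volume := by
    have h0 := it (hff.mul_right (contDiff_q_inv c hε))
    refine h0.congr (ae_of_all _ fun x => ?_)
    simp only [sq]
  have i4 : ∀ a, Integrable (fun x => (fderiv ℝ f x (ax a)) ^ 2) volume := by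
    intro a
    have h0 := it ((hdf a).mul_left (hdf a).1)
    refine h0.congr (ae_of_all _ fun x => ?_)
    simp only [sq]
  have i5 : ∀ a, Integrable (fun x => (f x * f x) * (h c ε a x) ^ 2) volume := by
    intro a
    have h0 := it (hff.mul_right ((contDiff_h c hε a).mul (contDiff_h c hε a)))
    refine h0.congr (ae_of_all _ fun x => ?_)
    simp only [sq]
  -- lower bound of the divergence
  have p1 : ∀ x, f x ^ 2 * (q c ε x)⁻¹ ≤ ∑ a, (f x * f x) * fderiv ℝ (h c ε a) x (ax a) := by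
    intro x
    rw [← Finset.mul_sum]
    have e1 : ∑ a, fderiv ℝ (h c ε a) x (ax a)
        = 3 * (q c ε x)⁻¹ - 2 * ‖x - c‖ ^ 2 * ((q c ε x)⁻¹) ^ 2 := by
      simp only [fderiv_h c hε]
      rw [Finset.sum_sub_distrib, ← Finset.sum_mul, ← Finset.mul_sum, sum_sq]
      simp
    have e2 : (q c ε x)⁻¹ ≤ ∑ a, fderiv ℝ (h c ε a) x (ax a) := by
      rw [e1]
      have e3 : ‖x - c‖ ^ 2 * ((q c ε x)⁻¹) ^ 2 ≤ (q c ε x)⁻¹ := by
        have hq := q_pos c hε x
        have e4 : ‖x - c‖ ^ 2 ≤ q c ε x := by unfold q; linarith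
        calc ‖x - c‖ ^ 2 * ((q c ε x)⁻¹) ^ 2 ≤ q c ε x * ((q c ε x)⁻¹) ^ 2 := by gcongr
          _ = (q c ε x)⁻¹ := by field_simp
      linarith
    calc f x ^ 2 * (q c ε x)⁻¹ = (f x * f x) * (q c ε x)⁻¹ := by ring
      _ ≤ (f x * f x) * ∑ a, fderiv ℝ (h c ε a) x (ax a) := by
        gcongr
        exact mul_self_nonneg _
  -- pointwise estimate of the right side
  have p2 : ∀ x, ∑ a, -((2 * (f x * fderiv ℝ f x (ax a))) * h c ε a x)
      ≤ ∑ a, (2 * (fderiv ℝ f x (ax a)) ^ 2 + 1 / 2 * ((f x * f x) * (h c ε a x) ^ 2)) := by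
    intro x
    apply Finset.sum_le_sum
    intro a _
    nlinarith [sq_nonneg (2 * fderiv ℝ f x (ax a) + f x * h c ε a x)]
  have p3 : ∀ x, ∑ a, (f x * f x) * (h c ε a x) ^ 2 ≤ f x ^ 2 * (q c ε x)⁻¹ := by
    intro x
    rw [← Finset.mul_sum]
    have e1 : ∑ a, (h c ε a x) ^ 2 = ‖x - c‖ ^ 2 * ((q c ε x)⁻¹) ^ 2 := by
      simp only [h, mul_pow]
      rw [← Finset.sum_mul, sum_sq]
    have e3 : ‖x - c‖ ^ 2 * ((q c ε x)⁻¹) ^ 2 ≤ (q c ε x)⁻¹ := by
      have hq := q_pos c hε x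
      have e4 : ‖x - c‖ ^ 2 ≤ q c ε x := by unfold q; linarith
      calc ‖x - c‖ ^ 2 * ((q c ε x)⁻¹) ^ 2 ≤ q c ε x * ((q c ε x)⁻¹) ^ 2 := by gcongr
        _ = (q c ε x)⁻¹ := by field_simp
    rw [e1]
    calc f x * f x * (‖x - c‖ ^ 2 * ((q c ε x)⁻¹) ^ 2) ≤ f x * f x * (q c ε x)⁻¹ := by
          gcongr
          exact mul_self_nonneg _
      _ = _ := by ring
  have i2n : ∀ a, Integrable (fun x => -((2 * (f x * fderiv ℝ f x (ax a))) * h c ε a x)) volume :=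
    fun a => (i2 a).neg
  have i6 : ∀ a, Integrable (fun x => 2 * (fderiv ℝ f x (ax a)) ^ 2
      + 1 / 2 * ((f x * f x) * (h c ε a x) ^ 2)) volume :=
    fun a => ((i4 a).const_mul _).add ((i5 a).const_mul _)
  set X := ∫ x, f x ^ 2 * (q c ε x)⁻¹ with hX
  have s1 : X ≤ ∑ a, ∫ x, (f x * f x) * fderiv ℝ (h c ε a) x (ax a) := by
    rw [← integral_finsetSum _ fun a _ => i1 a]
    exact integral_mono i3 (integrable_finsetSum _ fun a _ => i1 a) p1
  have s2 : ∑ a, ∫ x, (f x * f x) * fderiv ℝ (h c ε a) x (ax a)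
      = ∫ x, ∑ a, -((2 * (f x * fderiv ℝ f x (ax a))) * h c ε a x) := by
    rw [integral_finsetSum _ fun a _ => i2n a]
    apply Finset.sum_congr rfl
    intro a _
    rw [ibp a, ← integral_neg]
  have s3 : ∫ x, ∑ a, -((2 * (f x * fderiv ℝ f x (ax a))) * h c ε a x)
      ≤ ∫ x, ∑ a, (2 * (fderiv ℝ f x (ax a)) ^ 2 + 1 / 2 * ((f x * f x) * (h c ε a x) ^ 2)) := by
    exact integral_mono (integrable_finsetSum _ fun a _ => i2n a)
      (integrable_finsetSum _ fun a _ => i6 a) p2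
  have s4 : ∫ x, ∑ a, (2 * (fderiv ℝ f x (ax a)) ^ 2 + 1 / 2 * ((f x * f x) * (h c ε a x) ^ 2))
      = 2 * (∑ a, ∫ x, (fderiv ℝ f x (ax a)) ^ 2)
        + 1 / 2 * (∫ x, ∑ a, (f x * f x) * (h c ε a x) ^ 2) := by
    rw [integral_finsetSum _ fun a _ => i6 a,
      integral_finsetSum _ fun a _ => i5 a, Finset.mul_sum, Finset.mul_sum,
      ← Finset.sum_add_distrib]
    apply Finset.sum_congr rfl
    intro a _
    rw [integral_add ((i4 a).const_mul _) ((i5 a).const_mul _), integral_const_mul,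
      integral_const_mul]
  have s5 : ∫ x, ∑ a, (f x * f x) * (h c ε a x) ^ 2 ≤ X :=
    integral_mono (integrable_finsetSum _ fun a _ => i5 a) i3 p3
  linarith

lemma enorm_sq (t : ℝ) : ‖t‖ₑ ^ 2 = ENNReal.ofReal (t ^ 2) := by
  rw [Real.enorm_eq_ofReal_abs, ← ENNReal.ofReal_pow (abs_nonneg t), sq_abs]

lemma lintegral_sq_eq (g : E3 → ℝ) :
    ∫⁻ x, ENNReal.ofReal (g x ^ 2) = eLpNorm g 2 volume ^ 2 := by
  have h := eLpNorm_nnreal_pow_eq_lintegral (f := g) (μ := (volume : Measure E3)) (p := 2)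
    (by norm_num)
  have h2 : ((2 : ℝ≥0) : ℝ) = ((2 : ℕ) : ℝ) := by norm_num
  rw [h2] at h
  simp only [ENNReal.rpow_natCast] at h
  have h3 : ((2 : ℝ≥0) : ℝ≥0∞) = 2 := by norm_num
  rw [h3] at h
  rw [h]
  apply lintegral_congr
  intro x
  rw [enorm_sq]

lemma sq_split {θ : ℝ} (hθ : 0 < θ) (s t : ℝ) :
    (s + t) ^ 2 ≤ (1 + θ) * s ^ 2 + (1 + θ⁻¹) * t ^ 2 := by
  have h1 : (1 + θ) * s ^ 2 + (1 + θ⁻¹) * t ^ 2 - (s + t) ^ 2 = θ⁻¹ * (θ * s - t) ^ 2 := by
    field_simp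
    ring
  have h2 : 0 ≤ θ⁻¹ * (θ * s - t) ^ 2 := by positivity
  linarith

lemma lint_split {θ : ℝ} (hθ : 0 < θ) {w s t : E3 → ℝ} (hw : ∀ x, 0 ≤ w x)
    (hs : AEMeasurable (fun x => ENNReal.ofReal (s x ^ 2 * w x)) volume) :
    ∫⁻ x, ENNReal.ofReal ((s x + t x) ^ 2 * w x) ≤
      ENNReal.ofReal (1 + θ) * (∫⁻ x, ENNReal.ofReal (s x ^ 2 * w x)) +
      ENNReal.ofReal (1 + θ⁻¹) * ∫⁻ x, ENNReal.ofReal (t x ^ 2 * w x) := by
  rw [← lintegral_const_mul' _ _ ENNReal.ofReal_ne_top,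
    ← lintegral_const_mul' _ _ ENNReal.ofReal_ne_top, ← lintegral_add_left' (hs.const_mul _)]
  apply lintegral_mono
  intro x
  simp only []
  rw [← ENNReal.ofReal_mul (by positivity), ← ENNReal.ofReal_mul (by positivity),
    ← ENNReal.ofReal_add (mul_nonneg (by positivity) (mul_nonneg (sq_nonneg _) (hw x)))
      (mul_nonneg (by positivity) (mul_nonneg (sq_nonneg _) (hw x)))]
  apply ENNReal.ofReal_le_ofReal
  have h1 := mul_le_mul_of_nonneg_right (sq_split hθ (s x) (t x)) (hw x)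
  linarith

lemma hardy_eps (hA : Target_Approx) (c : E3) {u : E3 → ℝ} {D : Fin 3 → E3 → ℝ}
    (hu : Sob ax u D) {ε : ℝ} (hε : 0 < ε) :
    ∫⁻ x, ENNReal.ofReal (u x ^ 2 * (q c ε x)⁻¹) ≤
      4 * ∑ a, ∫⁻ x, ENNReal.ofReal (D a x ^ 2) := by
  set X := ∫⁻ x, ENNReal.ofReal (u x ^ 2 * (q c ε x)⁻¹) with hX
  set Y := ∑ a, ∫⁻ x, ENNReal.ofReal (D a x ^ 2) with hY
  have hYfin : Y ≠ ⊤ := by
    rw [hY, ENNReal.sum_ne_top]
    intro a _
    rw [lintegral_sq_eq]
    exact ENNReal.pow_ne_top (hu.memLp_grad a).2.ne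
  have hqm : Measurable fun x => (q c ε x)⁻¹ := (contDiff_q_inv c hε).continuous.measurable
  have hq0 : ∀ x, 0 ≤ (q c ε x)⁻¹ := fun x => (inv_pos.2 (q_pos c hε x)).le
  -- the estimate for fixed `θ` and `δ`
  have key : ∀ θ : ℝ, 0 < θ → ∀ δ : ℝ≥0∞, 0 < δ →
      X ≤ ENNReal.ofReal (1 + θ) * (4 * (ENNReal.ofReal (1 + θ) * Y +
        3 * (ENNReal.ofReal (1 + θ⁻¹) * δ ^ 2))) +
        ENNReal.ofReal (1 + θ⁻¹) * (ENNReal.ofReal ε⁻¹ * δ ^ 2) := by
    intro θ hθ δ hδ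
    obtain ⟨f, hf, h1, h2⟩ := hA E3 (Fin 3) ax u D hu δ hδ
    have hfm : Measurable f := hf.continuous.measurable
    have e1 : X ≤ ENNReal.ofReal (1 + θ) * (∫⁻ x, ENNReal.ofReal (f x ^ 2 * (q c ε x)⁻¹)) +
        ENNReal.ofReal (1 + θ⁻¹) * ∫⁻ x, ENNReal.ofReal ((u x - f x) ^ 2 * (q c ε x)⁻¹) := by
      have := lint_split hθ (w := fun x => (q c ε x)⁻¹) (s := f) (t := fun x => u x - f x) hq0
        ((hfm.pow_const 2).mul hqm).ennreal_ofReal.aemeasurable
      refine le_trans (le_of_eq ?_) this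
      rw [hX]
      apply lintegral_congr
      intro x
      congr 2
      ring
    have e2 : ∫⁻ x, ENNReal.ofReal ((u x - f x) ^ 2 * (q c ε x)⁻¹) ≤ ENNReal.ofReal ε⁻¹ * δ ^ 2 := by
      calc ∫⁻ x, ENNReal.ofReal ((u x - f x) ^ 2 * (q c ε x)⁻¹)
          ≤ ∫⁻ x, ENNReal.ofReal ε⁻¹ * ENNReal.ofReal ((u x - f x) ^ 2) := by
            apply lintegral_mono
            intro x
            simp only []
            rw [← ENNReal.ofReal_mul (by positivity)]
            apply ENNReal.ofReal_le_ofReal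
            rw [mul_comm]
            gcongr
            exact le_q c x
        _ = ENNReal.ofReal ε⁻¹ * eLpNorm (fun x => u x - f x) 2 volume ^ 2 := by
            rw [lintegral_const_mul' _ _ ENNReal.ofReal_ne_top, lintegral_sq_eq]
        _ ≤ _ := by gcongr
    have e3 : ∫⁻ x, ENNReal.ofReal (f x ^ 2 * (q c ε x)⁻¹) ≤
        4 * ∑ a, ∫⁻ x, ENNReal.ofReal ((fderiv ℝ f x (ax a)) ^ 2) := by
      have i3 : Integrable (fun x => f x ^ 2 * (q c ε x)⁻¹) volume := by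
        have h0 : IsTest (fun x => (f x * f x) * (q c ε x)⁻¹) :=
          (hf.mul_left hf.1).mul_right (contDiff_q_inv c hε)
        refine (memLp_one_iff_integrable.1 (h0.memLp 1)).congr (ae_of_all _ fun x => ?_)
        simp only [sq]
      have i4 : ∀ a, Integrable (fun x => (fderiv ℝ f x (ax a)) ^ 2) volume := by
        intro a
        have h0 : IsTest (fun x => fderiv ℝ f x (ax a) * fderiv ℝ f x (ax a)) :=
          (hf.dir _).mul_left (hf.dir _).1
        refine (memLp_one_iff_integrable.1 (h0.memLp 1)).congr (ae_of_all _ fun x => ?_)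
        simp only [sq]
      rw [← ofReal_integral_eq_lintegral_ofReal i3
        (ae_of_all _ fun x => mul_nonneg (sq_nonneg _) (hq0 x))]
      have e4 : ∀ a, ∫⁻ x, ENNReal.ofReal ((fderiv ℝ f x (ax a)) ^ 2)
          = ENNReal.ofReal (∫ x, (fderiv ℝ f x (ax a)) ^ 2) := fun a =>
        (ofReal_integral_eq_lintegral_ofReal (i4 a) (ae_of_all _ fun x => sq_nonneg _)).symm
      simp only [e4]
      rw [← ENNReal.ofReal_sum_of_nonneg fun a _ => integral_nonneg fun x => sq_nonneg _]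
      have e5 : (4 : ℝ≥0∞) = ENNReal.ofReal 4 := by norm_num
      rw [e5, ← ENNReal.ofReal_mul (by norm_num)]
      exact ENNReal.ofReal_le_ofReal (hardy_test c hf hε)
    have e6 : ∑ a, ∫⁻ x, ENNReal.ofReal ((fderiv ℝ f x (ax a)) ^ 2) ≤
        ENNReal.ofReal (1 + θ) * Y + 3 * (ENNReal.ofReal (1 + θ⁻¹) * δ ^ 2) := by
      have e7 : ∀ a, ∫⁻ x, ENNReal.ofReal ((fderiv ℝ f x (ax a)) ^ 2) ≤
          ENNReal.ofReal (1 + θ) * (∫⁻ x, ENNReal.ofReal (D a x ^ 2)) +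
            ENNReal.ofReal (1 + θ⁻¹) * δ ^ 2 := by
        intro a
        have := lint_split hθ (w := fun _ => 1) (s := D a)
          (t := fun x => fderiv ℝ f x (ax a) - D a x) (fun _ => zero_le_one)
          (by
            simp only [mul_one]
            exact ((hu.memLp_grad a).1.aemeasurable.pow_const 2).ennreal_ofReal)
        simp only [mul_one] at this
        have e8 : ∫⁻ x, ENNReal.ofReal ((fderiv ℝ f x (ax a) - D a x) ^ 2) ≤ δ ^ 2 := by
          rw [lintegral_sq_eq]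
          have e9 : eLpNorm (fun x => fderiv ℝ f x (ax a) - D a x) 2 volume ≤ δ := by
            refine le_trans (le_of_eq ?_) (h2 a)
            rw [← eLpNorm_neg]
            congr 1
            ext x
            simp
          gcongr
        refine le_trans (le_of_eq ?_) (this.trans ?_)
        · apply lintegral_congr
          intro x
          congr 2
          ring
        · gcongr
      calc ∑ a, ∫⁻ x, ENNReal.ofReal ((fderiv ℝ f x (ax a)) ^ 2)
          ≤ ∑ a, (ENNReal.ofReal (1 + θ) * (∫⁻ x, ENNReal.ofReal (D a x ^ 2)) +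
            ENNReal.ofReal (1 + θ⁻¹) * δ ^ 2) := Finset.sum_le_sum fun a _ => e7 a
        _ = _ := by
            rw [Finset.sum_add_distrib, ← Finset.mul_sum, Finset.sum_const, Finset.card_univ,
              Fintype.card_fin, nsmul_eq_mul]
            norm_num
            rfl
    calc X ≤ ENNReal.ofReal (1 + θ) * (∫⁻ x, ENNReal.ofReal (f x ^ 2 * (q c ε x)⁻¹)) +
        ENNReal.ofReal (1 + θ⁻¹) * ∫⁻ x, ENNReal.ofReal ((u x - f x) ^ 2 * (q c ε x)⁻¹) := e1
      _ ≤ _ := by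
        gcongr
        exact e3.trans (by gcongr)
  -- `δ → 0`
  have hδ : Tendsto (fun n : ℕ => ((n : ℝ≥0∞) + 1)⁻¹) atTop (𝓝 0) := by
    have := ENNReal.tendsto_inv_nat_nhds_zero.comp (tendsto_add_atTop_nat 1)
    refine this.congr fun n => ?_
    simp
  have hδ2 : Tendsto (fun n : ℕ => (((n : ℝ≥0∞) + 1)⁻¹) ^ 2) atTop (𝓝 0) := by
    have := ENNReal.Tendsto.pow (n := 2) hδ
    simpa using this
  have key2 : ∀ θ : ℝ, 0 < θ → X ≤ ENNReal.ofReal (1 + θ) * (4 * (ENNReal.ofReal (1 + θ) * Y)) := by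
    intro θ hθ
    have t1 : Tendsto (fun n : ℕ => ENNReal.ofReal (1 + θ) * (4 * (ENNReal.ofReal (1 + θ) * Y +
        3 * (ENNReal.ofReal (1 + θ⁻¹) * (((n : ℝ≥0∞) + 1)⁻¹) ^ 2))) +
        ENNReal.ofReal (1 + θ⁻¹) * (ENNReal.ofReal ε⁻¹ * (((n : ℝ≥0∞) + 1)⁻¹) ^ 2)) atTop
        (𝓝 (ENNReal.ofReal (1 + θ) * (4 * (ENNReal.ofReal (1 + θ) * Y +
        3 * (ENNReal.ofReal (1 + θ⁻¹) * 0))) +
        ENNReal.ofReal (1 + θ⁻¹) * (ENNReal.ofReal ε⁻¹ * 0))) := by
      refine Tendsto.add ?_ ?_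
      · refine ENNReal.Tendsto.const_mul ?_ (Or.inr ENNReal.ofReal_ne_top)
        refine ENNReal.Tendsto.const_mul ?_ (Or.inr (by norm_num))
        refine Tendsto.add tendsto_const_nhds ?_
        refine ENNReal.Tendsto.const_mul ?_ (Or.inr (by norm_num))
        exact ENNReal.Tendsto.const_mul hδ2 (Or.inr ENNReal.ofReal_ne_top)
      · refine ENNReal.Tendsto.const_mul ?_ (Or.inr ENNReal.ofReal_ne_top)
        exact ENNReal.Tendsto.const_mul hδ2 (Or.inr ENNReal.ofReal_ne_top)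
    have t2 := ge_of_tendsto' t1 (fun n => key θ hθ _ (by simp))
    simpa using t2
  have t3 : Tendsto (fun n : ℕ => ENNReal.ofReal (1 + 1 / ((n : ℝ) + 1)) *
      (4 * (ENNReal.ofReal (1 + 1 / ((n : ℝ) + 1)) * Y))) atTop
      (𝓝 (ENNReal.ofReal (1 + 0) * (4 * (ENNReal.ofReal (1 + 0) * Y)))) := by
    have t4 : Tendsto (fun n : ℕ => ENNReal.ofReal (1 + 1 / ((n : ℝ) + 1))) atTop
        (𝓝 (ENNReal.ofReal (1 + 0))) :=
      ENNReal.tendsto_ofReal (tendsto_const_nhds.add tendsto_one_div_add_atTop_nhds_zero_nat)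
    refine ENNReal.Tendsto.mul t4 (Or.inl (by simp)) ?_ (Or.inr ENNReal.ofReal_ne_top)
    refine ENNReal.Tendsto.const_mul ?_ (Or.inr (by norm_num))
    exact ENNReal.Tendsto.mul_const t4 (Or.inr hYfin)
  have t5 := ge_of_tendsto' t3 (fun n => key2 (1 / ((n : ℝ) + 1)) (by positivity))
  simpa using t5

end Hardy

open Hardy in
theorem target_Hardy (hA : Target_Approx) : Target_Hardy := by
  intro c u D hu
  have hlim : ∀ x : E3, x ≠ c → Tendsto (fun n : ℕ => ENNReal.ofReal (u x ^ 2 *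
      (q c (1 / ((n : ℝ) + 1)) x)⁻¹)) atTop (𝓝 (‖u x‖ₑ ^ 2 / ‖x - c‖ₑ ^ 2)) := by
    intro x hx
    have hpos : 0 < ‖x - c‖ ^ 2 := by
      have : 0 < ‖x - c‖ := norm_pos_iff.2 (sub_ne_zero.2 hx)
      positivity
    have e1 : ‖u x‖ₑ ^ 2 / ‖x - c‖ₑ ^ 2 = ENNReal.ofReal (u x ^ 2 * (‖x - c‖ ^ 2 + 0)⁻¹) := by
      rw [enorm_sq, add_zero, ← ofReal_norm (x - c), ← ENNReal.ofReal_pow (norm_nonneg _),
        ← div_eq_mul_inv, ENNReal.ofReal_div_of_pos hpos]
    rw [e1]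
    apply ENNReal.tendsto_ofReal
    apply Tendsto.const_mul
    refine Tendsto.inv₀ ?_ (by simpa using hpos.ne')
    exact tendsto_const_nhds.add tendsto_one_div_add_atTop_nhds_zero_nat
  have hae : ∀ᵐ x : E3, x ≠ c := by
    rw [ae_iff]
    simp
  have h1 : ∫⁻ x, ‖u x‖ₑ ^ 2 / ‖x - c‖ₑ ^ 2 ≤ ∫⁻ x, liminf (fun n : ℕ => ENNReal.ofReal (u x ^ 2 *
      (q c (1 / ((n : ℝ) + 1)) x)⁻¹)) atTop := by
    apply lintegral_mono_ae
    filter_upwards [hae] with x hx
    exact (hlim x hx).liminf_eq.ge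
  refine h1.trans ((lintegral_liminf_le' ?_).trans ?_)
  · intro n
    have hε : (0 : ℝ) < 1 / ((n : ℝ) + 1) := by positivity
    exact ((hu.memLp.1.aemeasurable.pow_const 2).mul
      (contDiff_q_inv c hε).continuous.measurable.aemeasurable).ennreal_ofReal
  · have h2 : ∀ n : ℕ, ∫⁻ x, ENNReal.ofReal (u x ^ 2 * (q c (1 / ((n : ℝ) + 1)) x)⁻¹) ≤
        4 * ∑ a, ∫⁻ x, ‖D a x‖ₑ ^ 2 := by
      intro n
      have hε : (0 : ℝ) < 1 / ((n : ℝ) + 1) := by positivity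
      have := hardy_eps hA c hu hε
      simpa only [enorm_sq] using this
    refine (liminf_le_liminf (Eventually.of_forall h2)).trans ?_
    simp

end Pool.Agent.HK
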