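import Pool.Agent.HK.PolyLap

/-!
# Fischer decomposition

Every homogeneous polynomial is `h + |x|² q` with `h` harmonic; so every polynomial coincides on
the unit sphere with a sum of harmonic homogeneous polynomials.
-/

open MvPolynomial

namespace Pool.Agent.HK.HarmDecomp

open Pool.Agent.HK.PolyLap

/-- Polynomials in three variables. -/
abbrev P3 : Type := MvPolynomial (Fin 3) ℝ

/-- The factorial `α!`. -/
noncomputable def fac (d : Fin 3 →₀ ℕ) : ℝ := ∏ i, ((d i).factorial : ℝ)

theorem fac_pos (d : Fin 3 →₀ ℕ) : 0 < fac d :=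
  Finset.prod_pos fun i _ => by exact_mod_cast (d i).factorial_pos

theorem fac_add_single (d : Fin 3 →₀ ℕ) (i : Fin 3) :
    fac (d + Finsupp.single i 1) = fac d * (d i + 1) := by
  unfold fac
  rw [← Finset.mul_prod_erase _ _ (Finset.mem_univ i),
    ← Finset.mul_prod_erase Finset.univ (fun i => ((d i).factorial : ℝ)) (Finset.mem_univ i)]
  have h1 : (((d + Finsupp.single i 1 : Fin 3 →₀ ℕ) i).factorial : ℝ) = ((d i).factorial : ℝ) * (d i + 1) := by
    rw [Finsupp.add_apply, Finsupp.single_eq_same, Nat.factorial_succ]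
    push_cast
    ring
  have h2 : ∏ x ∈ Finset.univ.erase i, (((d + Finsupp.single i 1 : Fin 3 →₀ ℕ) x).factorial : ℝ)
      = ∏ x ∈ Finset.univ.erase i, ((d x).factorial : ℝ) := by
    refine Finset.prod_congr rfl fun x hx => ?_
    rw [Finsupp.add_apply, Finsupp.single_eq_of_ne (Finset.ne_of_mem_erase hx), add_zero]
  rw [h1, h2]
  ring

/-- The Fischer form. -/
noncomputable def B (p q : P3) : ℝ := ∑ d ∈ p.support, fac d * coeff d p * coeff d q

theorem B_eq_sum (p q : P3) (s : Finset (Fin 3 →₀ ℕ)) (hs : p.support ⊆ s) :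
    B p q = ∑ d ∈ s, fac d * coeff d p * coeff d q := by
  refine Finset.sum_subset hs fun d _ hd => ?_
  rw [notMem_support_iff.1 hd]
  ring

theorem B_add_left (p p' q : P3) : B (p + p') q = B p q + B p' q := by
  classical
  rw [B_eq_sum p q (p.support ∪ p'.support) Finset.subset_union_left,
    B_eq_sum p' q (p.support ∪ p'.support) Finset.subset_union_right,
    B_eq_sum (p + p') q (p.support ∪ p'.support) support_add, ← Finset.sum_add_distrib]
  refine Finset.sum_congr rfl fun d _ => ?_
  rw [coeff_add]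
  ring

theorem B_add_right (p q q' : P3) : B p (q + q') = B p q + B p q' := by
  unfold B
  rw [← Finset.sum_add_distrib]
  refine Finset.sum_congr rfl fun d _ => ?_
  rw [coeff_add]
  ring

theorem B_sum_left {ι : Type*} (s : Finset ι) (p : ι → P3) (q : P3) :
    B (∑ i ∈ s, p i) q = ∑ i ∈ s, B (p i) q := by
  classical
  induction s using Finset.induction_on with
  | empty => simp [B]
  | insert a s ha ih => rw [Finset.sum_insert ha, Finset.sum_insert ha, B_add_left, ih]

theorem B_sum_right {ι : Type*} (s : Finset ι) (p : P3) (q : ι → P3) :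
    B p (∑ i ∈ s, q i) = ∑ i ∈ s, B p (q i) := by
  classical
  induction s using Finset.induction_on with
  | empty => simp [B]
  | insert a s ha ih => rw [Finset.sum_insert ha, Finset.sum_insert ha, B_add_right, ih]

theorem B_monomial (d : Fin 3 →₀ ℕ) (a : ℝ) (q : P3) :
    B (monomial d a) q = fac d * a * coeff d q := by
  classical
  rw [B_eq_sum _ q {d} support_monomial_subset, Finset.sum_singleton, coeff_monomial, if_pos rfl]

/-- Multiplication by `X i` is adjoint to `∂ i`. -/
theorem B_X_mul (i : Fin 3) (p q : P3) : B (X i * p) q = B p (pderiv i q) := by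
  induction p using MvPolynomial.induction_on' with
  | monomial d a =>
    have h : X i * monomial d a = monomial (d + Finsupp.single i 1) a := by
      rw [mul_comm, monomial_add_single, pow_one]
    rw [h, B_monomial, B_monomial, coeff_pderiv, fac_add_single]
    ring
  | add p p' hp hp' => rw [mul_add, B_add_left, B_add_left, hp, hp']

theorem B_comm (p q : P3) : B p q = B q p := by
  classical
  rw [B_eq_sum p q (p.support ∪ q.support) Finset.subset_union_left,
    B_eq_sum q p (p.support ∪ q.support) Finset.subset_union_right]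
  refine Finset.sum_congr rfl fun d _ => ?_
  ring

theorem eq_zero_of_B (p : P3) (h : B p p = 0) : p = 0 := by
  ext d
  rw [coeff_zero]
  by_contra hd
  have hnn : ∀ d ∈ p.support, 0 ≤ fac d * coeff d p * coeff d p := fun d _ => by
    rw [mul_assoc]
    exact mul_nonneg (fac_pos d).le (mul_self_nonneg _)
  have := (Finset.sum_eq_zero_iff_of_nonneg hnn).1 h d (mem_support_iff.2 hd)
  rcases mul_eq_zero.1 this with h1 | h1
  · rcases mul_eq_zero.1 h1 with h2 | h2
    · exact (fac_pos d).ne' h2
    · exact hd h2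
  · exact hd h1

/-- `|x|²`. -/
noncomputable def r2 : P3 := ∑ i, X i * X i

theorem r2_mul (p : P3) : r2 * p = ∑ i, X i * (X i * p) := by
  unfold r2
  rw [Finset.sum_mul]
  exact Finset.sum_congr rfl fun i _ => by ring

theorem B_r2_mul (p q : P3) : B (r2 * p) q = B p (lapP q) := by
  rw [r2_mul, B_sum_left, lapP_apply, B_sum_right]
  refine Finset.sum_congr rfl fun i _ => ?_
  rw [B_X_mul, B_X_mul]

theorem r2_ne_zero : r2 ≠ 0 := by
  intro h
  have h1 := congrArg (eval (fun _ : Fin 3 => (1 : ℝ))) h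
  simp [r2] at h1

theorem isHomogeneous_r2 : r2.IsHomogeneous 2 := by
  unfold r2
  apply IsHomogeneous.sum
  intro i _
  exact (isHomogeneous_X ℝ i).mul (isHomogeneous_X ℝ i)

theorem isHomogeneous_lapP {n : ℕ} {p : P3} (hp : p.IsHomogeneous (n + 2)) :
    (lapP p).IsHomogeneous n := by
  rw [lapP_apply]
  apply IsHomogeneous.sum
  intro i _
  have h1 := hp.pderiv (i := i)
  have h2 := h1.pderiv (i := i)
  simpa using h2

/-- `q ↦ lap (|x|² q)` on homogeneous polynomials of degree `n`. -/
noncomputable def T (n : ℕ) :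
    homogeneousSubmodule (Fin 3) ℝ n →ₗ[ℝ] homogeneousSubmodule (Fin 3) ℝ n where
  toFun q := ⟨lapP (r2 * (q : P3)), isHomogeneous_lapP (by
    rw [add_comm]
    exact isHomogeneous_r2.mul ((mem_homogeneousSubmodule _ _).1 q.2))⟩
  map_add' p q := by
    ext1
    simp [mul_add]
  map_smul' c p := by
    ext1
    simp

theorem T_injective (n : ℕ) : Function.Injective (T n) := by
  rw [← LinearMap.ker_eq_bot, LinearMap.ker_eq_bot']
  intro q hq
  have h1 : lapP (r2 * (q : P3)) = 0 := congrArg Subtype.val hq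
  have h2 : B (r2 * (q : P3)) (r2 * (q : P3)) = 0 := by
    rw [B_r2_mul, h1]
    simp [B]
  have h3 := eq_zero_of_B _ h2
  rcases mul_eq_zero.1 h3 with h | h
  · exact absurd h r2_ne_zero
  · exact Subtype.ext h

theorem T_surjective (n : ℕ) : Function.Surjective (T n) := by
  have : Module.Finite ℝ (homogeneousSubmodule (Fin 3) ℝ n) :=
    Module.Finite.iff_fg.2 (homogeneousSubmodule_fg (σ := Fin 3) (R := ℝ) n)
  exact LinearMap.injective_iff_surjective.1 (T_injective n)

/-- Fischer decomposition of one homogeneous polynomial. -/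
theorem fischer (n : ℕ) (p : P3) (hp : p.IsHomogeneous (n + 2)) :
    ∃ h q : P3, h.IsHomogeneous (n + 2) ∧ lapP h = 0 ∧ q.IsHomogeneous n ∧ p = h + r2 * q := by
  obtain ⟨q, hq⟩ := T_surjective n ⟨lapP p, isHomogeneous_lapP hp⟩
  have hq' : lapP (r2 * (q : P3)) = lapP p := congrArg Subtype.val hq
  have hqh : (q : P3).IsHomogeneous n := (mem_homogeneousSubmodule _ _).1 q.2
  refine ⟨p - r2 * q, q, ?_, ?_, hqh, by ring⟩
  · refine hp.sub ?_
    rw [add_comm]
    exact isHomogeneous_r2.mul hqh
  · rw [map_sub, hq', sub_self]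

/-- `p` is on the sphere a finite sum of harmonic homogeneous functions. -/
def Dec (p : P3) : Prop :=
  ∃ (h : ℕ → E3 → ℝ) (J : ℕ), (∀ j, IsHarm j (h j)) ∧ (∀ j, J ≤ j → h j = 0) ∧
    ∀ x : E3, ‖x‖ = 1 → fn p x = ∑ j ∈ Finset.range J, h j x

theorem isHarm_zero (j : ℕ) : IsHarm j 0 :=
  (isHarm_iff j 0).2 ⟨0, isHomogeneous_zero _ _ _, map_zero _, fn_zero.symm⟩

theorem isHarm_add {j : ℕ} {f g : E3 → ℝ} (hf : IsHarm j f) (hg : IsHarm j g) :
    IsHarm j (f + g) := by
  obtain ⟨p, hp, hlp, rfl⟩ := (isHarm_iff j f).1 hf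
  obtain ⟨q, hq, hlq, rfl⟩ := (isHarm_iff j g).1 hg
  exact (isHarm_iff j _).2 ⟨p + q, hp.add hq, by rw [map_add, hlp, hlq, add_zero],
    (fn_add p q).symm⟩

theorem dec_add {p q : P3} (hp : Dec p) (hq : Dec q) : Dec (p + q) := by
  obtain ⟨h, J, h1, h2, h3⟩ := hp
  obtain ⟨h', J', h1', h2', h3'⟩ := hq
  refine ⟨fun j => h j + h' j, max J J', fun j => isHarm_add (h1 j) (h1' j), fun j hj => ?_,
    fun x hx => ?_⟩
  · show h j + h' j = 0
    rw [h2 j (le_trans (le_max_left _ _) hj), h2' j (le_trans (le_max_right _ _) hj), add_zero]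
  · rw [fn_add, Pi.add_apply, h3 x hx, h3' x hx]
    have e1 : ∑ j ∈ Finset.range J, h j x = ∑ j ∈ Finset.range (max J J'), h j x := by
      refine Finset.sum_subset (Finset.range_mono (le_max_left _ _)) fun j _ hj => ?_
      rw [h2 j (by simpa using hj)]
      rfl
    have e2 : ∑ j ∈ Finset.range J', h' j x = ∑ j ∈ Finset.range (max J J'), h' j x := by
      refine Finset.sum_subset (Finset.range_mono (le_max_right _ _)) fun j _ hj => ?_
      rw [h2' j (by simpa using hj)]
      rfl
    rw [e1, e2, ← Finset.sum_add_distrib]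
    rfl

theorem dec_of_harm {j : ℕ} {p : P3} (hp : p.IsHomogeneous j) (hl : lapP p = 0) : Dec p := by
  refine ⟨fun i => if i = j then fn p else 0, j + 1, fun i => ?_, fun i hi => ?_, fun x _ => ?_⟩
  · by_cases h : i = j
    · simp only [h, if_true]
      exact (isHarm_iff j _).2 ⟨p, hp, hl, rfl⟩
    · simp only [h, if_false]
      exact isHarm_zero i
  · have h : i ≠ j := by omega
    simp only [h, if_false]
  · rw [Finset.sum_eq_single j]
    · simp
    · intro i _ h
      simp [h]
    · intro h
      simp at h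

theorem lapP_of_degree_lt_two {n : ℕ} (hn : n < 2) {p : P3} (hp : p.IsHomogeneous n) :
    lapP p = 0 := by
  ext m
  rw [coeff_lapP, coeff_zero]
  refine Finset.sum_eq_zero fun a _ => ?_
  rw [hp.coeff_eq_zero, zero_mul]
  rw [map_add, Finsupp.degree_single]
  omega

theorem fn_r2 (x : E3) (hx : ‖x‖ = 1) : fn r2 x = 1 := by
  have h1 : ‖x‖ ^ 2 = ∑ i, ‖x i‖ ^ 2 := EuclideanSpace.norm_sq_eq x
  rw [hx] at h1
  have h2 : fn r2 x = ∑ i, ‖x i‖ ^ 2 := by
    unfold fn r2
    rw [map_sum]
    refine Finset.sum_congr rfl fun i _ => ?_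
    rw [map_mul, eval_X, Real.norm_eq_abs, sq_abs]
    ring
  rw [h2, ← h1]
  norm_num

theorem dec_homogeneous (n : ℕ) : ∀ p : P3, p.IsHomogeneous n → Dec p := by
  induction n using Nat.strong_induction_on with
  | _ n ih =>
    intro p hp
    rcases lt_or_ge n 2 with hn | hn
    · exact dec_of_harm hp (lapP_of_degree_lt_two hn hp)
    · obtain ⟨m, rfl⟩ : ∃ m, n = m + 2 := ⟨n - 2, by omega⟩
      obtain ⟨h, q, hh, hl, hq, rfl⟩ := fischer m p hp
      have hdq := ih m (by omega) q hq
      have hdh := dec_of_harm hh hl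
      obtain ⟨g, J, h1, h2, h3⟩ := dec_add hdh hdq
      refine ⟨g, J, h1, h2, fun x hx => ?_⟩
      rw [← h3 x hx, fn_add, fn_add, Pi.add_apply, Pi.add_apply]
      have : fn (r2 * q) x = fn q x := by
        have e : fn (r2 * q) x = fn r2 x * fn q x := by simp [fn]
        rw [e, fn_r2 x hx, one_mul]
      rw [this]

theorem dec_all (p : P3) : Dec p := by
  have hsum : ∀ s : Finset ℕ, Dec (∑ i ∈ s, homogeneousComponent i p) := by
    intro s
    induction s using Finset.induction_on with
    | empty =>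
      rw [Finset.sum_empty]
      exact dec_of_harm (isHomogeneous_zero _ _ 0) (map_zero _)
    | insert a s ha ih =>
      rw [Finset.sum_insert ha]
      exact dec_add (dec_homogeneous a _ (homogeneousComponent_isHomogeneous a p)) ih
  have := hsum (Finset.range (p.totalDegree + 1))
  rwa [sum_homogeneousComponent] at this

end Pool.Agent.HK.HarmDecomp

namespace Pool.Agent.HK

theorem target_HarmDecomp : Target_HarmDecomp := by
  intro p
  obtain ⟨h, J, h1, _, h3⟩ := HarmDecomp.dec_all p
  exact ⟨h, J, h1, fun x hx => h3 x hx⟩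

end Pool.Agent.HK
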