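import Pool.Agent.HK.PolyLap

/-!
# The space of harmonic homogeneous polynomials of degree `j` has dimension at most `2 j + 1`
-/

open MvPolynomial

namespace Pool.Agent.HK.HarmDim

open Pool.Agent.HK.PolyLap

/-- The exponent `(a, b, k)`. -/
noncomputable def ex (a b k : ℕ) : Fin 3 →₀ ℕ :=
  Finsupp.single 0 a + Finsupp.single 1 b + Finsupp.single 2 k

theorem eq_ex (d : Fin 3 →₀ ℕ) : d = ex (d 0) (d 1) (d 2) := by
  ext i
  fin_cases i <;> simp [ex]

theorem ex_zero (a b k : ℕ) : ex a b k 0 = a := by simp [ex]
theorem ex_one (a b k : ℕ) : ex a b k 1 = b := by simp [ex]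
theorem ex_two (a b k : ℕ) : ex a b k 2 = k := by simp [ex]

theorem degree_ex (a b k : ℕ) : (ex a b k).degree = a + b + k := by
  rw [Finsupp.degree_eq_sum, Fin.sum_univ_three, ex_zero, ex_one, ex_two]

theorem ex_add_zero (a b k n : ℕ) : ex a b k + Finsupp.single 0 n = ex (a + n) b k := by
  ext i
  fin_cases i <;> simp [ex]

theorem ex_add_one (a b k n : ℕ) : ex a b k + Finsupp.single 1 n = ex a (b + n) k := by
  ext i
  fin_cases i <;> simp [ex]

theorem ex_add_two (a b k n : ℕ) : ex a b k + Finsupp.single 2 n = ex a b (k + n) := by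
  ext i
  fin_cases i <;> simp [ex]

/-- A harmonic polynomial is determined by its coefficients with `k = 0` and `k = 1`. -/
theorem eq_zero_of_coeff (j : ℕ) (p : MvPolynomial (Fin 3) ℝ) (hp : p.IsHomogeneous j)
    (hl : lapP p = 0) (h0 : ∀ a, a < j + 1 → coeff (ex a (j - a) 0) p = 0)
    (h1 : ∀ a, a < j → coeff (ex a (j - 1 - a) 1) p = 0) : p = 0 := by
  have key : ∀ k : ℕ, (∀ a b, coeff (ex a b k) p = 0) ∧ (∀ a b, coeff (ex a b (k + 1)) p = 0) := by
    intro k
    induction k with
    | zero =>
      constructor
      · intro a b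
        by_cases hd : a + b = j
        · have := h0 a (by omega)
          rwa [show j - a = b by omega] at this
        · apply hp.coeff_eq_zero
          rw [degree_ex]
          omega
      · intro a b
        by_cases hd : a + b + 1 = j
        · have := h1 a (by omega)
          rwa [show j - 1 - a = b by omega] at this
        · apply hp.coeff_eq_zero
          rw [degree_ex]
          omega
    | succ k ih =>
      refine ⟨ih.2, fun a b => ?_⟩
      have h := coeff_lapP p (ex a b k)
      rw [hl, coeff_zero, Fin.sum_univ_three, ex_add_zero, ex_add_one, ex_add_two, ih.1, ih.1,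
        ex_two, zero_mul, zero_mul, zero_add, zero_add] at h
      rcases mul_eq_zero.1 h.symm with h | h
      · exact h
      · exfalso
        have : (0 : ℝ) < ((k : ℝ) + 2) * (k + 1) := by positivity
        linarith
  ext d
  rw [eq_ex d, coeff_zero]
  exact (key _).1 _ _

/-- The determining coefficients. -/
noncomputable def co (j : ℕ) :
    MvPolynomial (Fin 3) ℝ →ₗ[ℝ] (Fin (j + 1) ⊕ Fin j → ℝ) where
  toFun p := Sum.elim (fun a => coeff (ex a (j - a) 0) p) (fun a => coeff (ex a (j - 1 - a) 1) p)
  map_add' p q := by
    funext s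
    rcases s with a | a <;> simp
  map_smul' c p := by
    funext s
    rcases s with a | a <;> simp

end Pool.Agent.HK.HarmDim

namespace Pool.Agent.HK

open HarmDim PolyLap

theorem target_HarmDim : Target_HarmDim := by
  intro j n f hf hli
  choose p hp hl hfp using fun i => (isHarm_iff j (f i)).1 (hf i)
  have hp_li : LinearIndependent ℝ p := by
    apply LinearIndependent.of_comp fnL
    have : (fnL ∘ p) = f := by
      funext i
      exact (hfp i).symm
    rw [this]
    exact hli
  have hco : LinearIndependent ℝ (co j ∘ p) := by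
    rw [Fintype.linearIndependent_iff] at hp_li ⊢
    intro g hg
    apply hp_li g
    have h1 : co j (∑ i, g i • p i) = 0 := by
      rw [map_sum, ← hg]
      refine Finset.sum_congr rfl fun i _ => ?_
      rw [map_smul, Function.comp_apply]
    refine eq_zero_of_coeff j _ ?_ ?_ ?_ ?_
    · apply IsHomogeneous.sum
      intro i _
      rw [smul_eq_C_mul]
      exact (hp i).C_mul (g i)
    · rw [map_sum]
      refine Finset.sum_eq_zero fun i _ => ?_
      rw [map_smul, hl i, smul_zero]
    · intro a ha
      exact congrFun h1 (Sum.inl ⟨a, ha⟩)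
    · intro a ha
      exact congrFun h1 (Sum.inr ⟨a, ha⟩)
  have := hco.fintype_card_le_finrank
  rw [Fintype.card_fin, Module.finrank_fintype_fun_eq_card, Fintype.card_sum, Fintype.card_fin,
    Fintype.card_fin] at this
  omega

end Pool.Agent.HK
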