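import Pool.Agent.HK.Spec

/-!
# Rotation invariance and orthogonality of harmonic homogeneous polynomials
-/

open MeasureTheory Set Filter Topology
open scoped ENNReal NNReal InnerProductSpace Laplacian Pointwise

namespace Pool.Agent.HK

namespace HarmRotAux

lemma ax_eq (a : Fin 3) : ax a = EuclideanSpace.basisFun (Fin 3) ℝ a := by
  simp [ax]

lemma norm_ax (a : Fin 3) : ‖ax a‖ = 1 := by simp [ax]

/-! ### second derivatives -/

lemma fderiv_dir {f : E3 → ℝ} (hf : ContDiff ℝ 2 f) (x e v : E3) :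
    fderiv ℝ (fun y => fderiv ℝ f y e) x v = fderiv ℝ (fderiv ℝ f) x v e := by
  have h1 : DifferentiableAt ℝ (fderiv ℝ f) x :=
    ((hf.fderiv_right (m := 1) (by norm_num)).differentiable (by norm_num)) x
  have h2 := ((ContinuousLinearMap.apply ℝ ℝ e).hasFDerivAt.comp x h1.hasFDerivAt).fderiv
  have h3 : ((ContinuousLinearMap.apply ℝ ℝ e) ∘ fderiv ℝ f) = fun y => fderiv ℝ f y e := by
    funext y; rfl
  rw [h3] at h2
  rw [h2]
  rfl

lemma lap_eq {f : E3 → ℝ} (hf : ContDiff ℝ 2 f) (x : E3) :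
    lap f x = ∑ a, fderiv ℝ (fderiv ℝ f) x (ax a) (ax a) := by
  unfold lap
  apply Finset.sum_congr rfl
  intro a _
  exact fderiv_dir hf x _ _

lemma lap_basis {f : E3 → ℝ} (hf : ContDiff ℝ 2 f) (x : E3)
    (b : OrthonormalBasis (Fin 3) ℝ E3) :
    lap f x = ∑ a, fderiv ℝ (fderiv ℝ f) x (b a) (b a) := by
  rw [lap_eq hf]
  have h1 := congrFun (InnerProductSpace.laplacian_eq_iteratedFDeriv_orthonormalBasis f b) x
  have h2 := congrFun (InnerProductSpace.laplacian_eq_iteratedFDeriv_orthonormalBasis f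
    (EuclideanSpace.basisFun (Fin 3) ℝ)) x
  rw [h1] at h2
  simp only [iteratedFDeriv_two_apply, Matrix.cons_val_zero, Matrix.cons_val_one] at h2
  rw [h2]
  simp only [ax_eq]

lemma fderiv_iso (f : E3 → ℝ) (A : E3 ≃ₗᵢ[ℝ] E3) (x v : E3) :
    fderiv ℝ (fun y => f (A y)) x v = fderiv ℝ f (A x) (A v) := by
  have h := A.toContinuousLinearEquiv.comp_right_fderiv (f := f) (x := x)
  have h2 : (f ∘ A.toContinuousLinearEquiv) = fun y => f (A y) := rfl
  rw [h2] at h
  rw [h]
  rfl

lemma lap_iso {f : E3 → ℝ} (hf : ContDiff ℝ 2 f) (A : E3 ≃ₗᵢ[ℝ] E3) (x : E3) :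
    lap (fun y => f (A y)) x = lap f (A x) := by
  rw [lap_basis hf (A x) ((EuclideanSpace.basisFun (Fin 3) ℝ).map A)]
  unfold lap
  apply Finset.sum_congr rfl
  intro a _
  have h1 : (fun y => fderiv ℝ (fun y => f (A y)) y (ax a)) =
      fun y => (fun z => fderiv ℝ f z (A (ax a))) (A y) := by
    funext y
    exact fderiv_iso f A y _
  rw [h1, fderiv_iso (fun z => fderiv ℝ f z (A (ax a))) A x (ax a), fderiv_dir hf]
  simp only [OrthonormalBasis.map_apply, ax_eq]

/-! ### polynomials -/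

lemma poly_smooth (p : MvPolynomial (Fin 3) ℝ) :
    ContDiff ℝ (⊤ : ℕ∞) (fun x : E3 => MvPolynomial.eval (fun i => x i) p) := by
  induction p using MvPolynomial.induction_on with
  | C a => simp only [MvPolynomial.eval_C]; exact contDiff_const
  | add p q hp hq => simp only [map_add]; exact hp.add hq
  | mul_X p i hp =>
    simp only [map_mul, MvPolynomial.eval_X]
    refine hp.mul ?_
    exact (EuclideanSpace.proj (𝕜 := ℝ) i : E3 →L[ℝ] ℝ).contDiff

lemma IsHarm.smooth {j : ℕ} {f : E3 → ℝ} (hf : IsHarm j f) : ContDiff ℝ (⊤ : ℕ∞) f := by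
  obtain ⟨⟨p, _, hp⟩, _⟩ := hf
  have : f = fun x : E3 => MvPolynomial.eval (fun i => x i) p := funext hp
  rw [this]
  exact poly_smooth p

lemma poly_homog {p : MvPolynomial (Fin 3) ℝ} {j : ℕ} (hp : p.IsHomogeneous j) (c : ℝ)
    (v : Fin 3 → ℝ) : MvPolynomial.eval (fun i => c * v i) p = c ^ j * MvPolynomial.eval v p := by
  rw [MvPolynomial.eval_eq', MvPolynomial.eval_eq', Finset.mul_sum]
  apply Finset.sum_congr rfl
  intro d hd
  have h1 : d.degree = j := by
    have := hp (MvPolynomial.mem_support_iff.mp hd)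
    rw [← this, Finsupp.degree_eq_weight_one]
    rfl
  have h2 : ∏ i, (c * v i) ^ d i = c ^ j * ∏ i, v i ^ d i := by
    simp only [mul_pow]
    rw [Finset.prod_mul_distrib, Finset.prod_pow_eq_pow_sum, ← h1]
    congr 2
    rw [Finsupp.degree_eq_sum]
  rw [h2]
  ring

lemma IsHarm.homog {j : ℕ} {f : E3 → ℝ} (hf : IsHarm j f) (c : ℝ) (x : E3) :
    f (c • x) = c ^ j * f x := by
  obtain ⟨⟨p, hp, hfp⟩, _⟩ := hf
  rw [hfp, hfp, ← poly_homog hp]
  rfl

/-- Euler's identity. -/
lemma IsHarm.euler {j : ℕ} {f : E3 → ℝ} (hf : IsHarm j f) (x : E3) :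
    fderiv ℝ f x x = j * f x := by
  have hs : DifferentiableAt ℝ f ((1 : ℝ) • x) :=
    ((IsHarm.smooth hf).differentiable (by simp)) _
  have h1 : HasDerivAt (fun c : ℝ => c • x) x 1 := by
    simpa using (hasDerivAt_id (1 : ℝ)).smul_const x
  have h2 := hs.hasFDerivAt.comp_hasDerivAt (1 : ℝ) h1
  have h3 : (f ∘ fun c : ℝ => c • x) = fun c : ℝ => c ^ j * f x := by
    funext c
    exact IsHarm.homog hf c x
  rw [h3] at h2
  have h4 : HasDerivAt (fun c : ℝ => c ^ j * f x) ((j : ℝ) * 1 ^ (j - 1) * f x) 1 :=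
    (hasDerivAt_pow j (1 : ℝ)).mul_const (f x)
  have h5 := h2.unique h4
  rw [one_smul, one_pow, mul_one] at h5
  exact h5

lemma sum_ax (x : E3) : ∑ a, x a • ax a = x := by
  have := (EuclideanSpace.basisFun (Fin 3) ℝ).sum_repr x
  simpa [ax_eq] using this

lemma IsHarm.rot {j : ℕ} {f : E3 → ℝ} (A : E3 ≃ₗᵢ[ℝ] E3) (hf : IsHarm j f) :
    IsHarm j (fun x => f (A x)) := by
  have hs : ContDiff ℝ 2 f := (IsHarm.smooth hf).of_le
    (show ((2 : ℕ∞) : WithTop ℕ∞) ≤ ((⊤ : ℕ∞) : WithTop ℕ∞) from WithTop.coe_le_coe.mpr le_top)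
  refine ⟨?_, fun x => by rw [lap_iso hs A x]; exact hf.2 _⟩
  obtain ⟨⟨p, hp, hfp⟩, _⟩ := hf
  let q : Fin 3 → MvPolynomial (Fin 3) ℝ := fun i =>
    ∑ k, MvPolynomial.C ((A (ax k)) i) * MvPolynomial.X k
  refine ⟨MvPolynomial.aeval q p, ?_, fun x => ?_⟩
  · have h := hp.aeval (n := 1) q (fun i => ?_)
    · simpa using h
    · apply MvPolynomial.IsHomogeneous.sum
      intro k _
      have := (MvPolynomial.isHomogeneous_C (Fin 3) ((A (ax k)) i)).mul
        (MvPolynomial.isHomogeneous_X ℝ k)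
      simpa using this
  · change f (A x) = _
    rw [hfp]
    have h1 : ∀ r : MvPolynomial (Fin 3) ℝ,
        MvPolynomial.eval (fun i => x i) (MvPolynomial.aeval q r) =
        MvPolynomial.eval (fun i => MvPolynomial.eval (fun i => x i) (q i)) r := by
      intro r
      induction r using MvPolynomial.induction_on with
      | C a => simp
      | add r s hr hs => rw [map_add, map_add, map_add, hr, hs]
      | mul_X r i hr => rw [map_mul, map_mul, map_mul, hr, MvPolynomial.aeval_X,
          MvPolynomial.eval_X]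
    rw [h1]
    congr 2
    funext i
    simp only [q, map_sum, map_mul, MvPolynomial.eval_C, MvPolynomial.eval_X]
    have h2 : A x = ∑ k, x k • A (ax k) := by
      conv_lhs => rw [← sum_ax x]
      rw [map_sum]
      simp
    rw [h2]
    simp [mul_comm]

/-! ### rotation invariance of the surface measure -/

/-- the rotation of the sphere -/
noncomputable def sph (A : E3 ≃ₗᵢ[ℝ] E3) : S2 ≃ₜ S2 where
  toFun ω := ⟨A ω, by simp⟩
  invFun ω := ⟨A.symm ω, by simp⟩
  left_inv ω := by ext1; simp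
  right_inv ω := by ext1; simp
  continuous_toFun := by fun_prop
  continuous_invFun := by fun_prop

lemma sph_mp (A : E3 ≃ₗᵢ[ℝ] E3) :
    MeasurePreserving (sph A).toMeasurableEquiv sig sig := by
  refine ⟨(sph A).toMeasurableEquiv.measurable, ?_⟩
  ext s hs
  rw [Measure.map_apply (sph A).toMeasurableEquiv.measurable hs]
  unfold sig
  rw [Measure.toSphere_apply' _ hs,
    Measure.toSphere_apply' _ ((sph A).toMeasurableEquiv.measurable hs)]
  congr 1
  have h1 : (Ioo (0 : ℝ) 1 • ((↑) '' ((sph A).toMeasurableEquiv ⁻¹' s)) : Set E3) =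
      A.toHomeomorph.toMeasurableEquiv ⁻¹' (Ioo (0 : ℝ) 1 • ((↑) '' s)) := by
    ext x
    simp only [Set.mem_smul, Set.mem_image, Set.mem_preimage]
    constructor
    · rintro ⟨c, hc, y, ⟨ω, hω, rfl⟩, rfl⟩
      exact ⟨c, hc, A ω, ⟨_, hω, rfl⟩, by simp⟩
    · rintro ⟨c, hc, y, ⟨ω, hω, rfl⟩, h⟩
      refine ⟨c, hc, A.symm ω, ⟨(sph A).symm ω, ?_, rfl⟩, ?_⟩
      · simpa using hω
      · have h' : c • (ω : E3) = A x := h
        rw [← map_smul, h']
        simp
  rw [h1]
  have h2 : MeasurePreserving A.toHomeomorph.toMeasurableEquiv (volume : Measure E3) volume :=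
    A.measurePreserving
  exact h2.measure_preimage_equiv _

/-! ### orthogonality -/

/-- radial profile -/
noncomputable def eta (s : ℝ) : ℝ := Real.smoothTransition (2 - s)

lemma eta_smooth : ContDiff ℝ (⊤ : ℕ∞) eta := by
  unfold eta
  exact Real.smoothTransition.contDiff.comp (contDiff_const.sub contDiff_id)

lemma eta_anti : Antitone eta := fun _ _ h => Real.smoothTransition.monotone (by linarith)

lemma deriv_eta_nonpos (s : ℝ) : deriv eta s ≤ 0 := eta_anti.deriv_nonpos

lemma deriv_eta_left {s : ℝ} (h : s < 1) : deriv eta s = 0 := by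
  have : eta =ᶠ[𝓝 s] fun _ => 1 := by
    filter_upwards [Iio_mem_nhds h] with u hu
    exact Real.smoothTransition.one_of_one_le (by have : u < 1 := hu; linarith)
  rw [this.deriv_eq]
  simp

lemma deriv_eta_right {s : ℝ} (h : 2 < s) : deriv eta s = 0 := by
  have : eta =ᶠ[𝓝 s] fun _ => 0 := by
    filter_upwards [Ioi_mem_nhds h] with u hu
    exact Real.smoothTransition.zero_of_nonpos (by have : 2 < u := hu; linarith)
  rw [this.deriv_eq]
  simp

lemma exists_deriv_eta : ∃ s : ℝ, 1 < s ∧ deriv eta s ≠ 0 := by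
  obtain ⟨s, hs, h⟩ := exists_deriv_eq_slope eta (show (1 : ℝ) < 2 by norm_num)
    eta_smooth.continuous.continuousOn
    (fun x _ => (eta_smooth.differentiable (by simp) x).differentiableWithinAt)
  refine ⟨s, hs.1, ?_⟩
  rw [h]
  have h1 : eta 1 = 1 := Real.smoothTransition.one_of_one_le (by norm_num)
  have h2 : eta 2 = 0 := Real.smoothTransition.zero_of_nonpos (by norm_num)
  rw [h1, h2]
  norm_num

lemma deriv_eta_cont : Continuous (deriv eta) :=
  eta_smooth.continuous_deriv (by exact_mod_cast le_top)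

/-- radial weight -/
noncomputable def wt (x : E3) : ℝ := eta (‖x‖ ^ 2)

lemma wt_smooth : ContDiff ℝ (⊤ : ℕ∞) wt := eta_smooth.comp (contDiff_norm_sq ℝ)

lemma wt_cpt : HasCompactSupport wt := by
  refine HasCompactSupport.intro (isCompact_closedBall (0 : E3) 2) ?_
  intro x hx
  apply Real.smoothTransition.zero_of_nonpos
  have : 2 < ‖x‖ := by simpa using hx
  nlinarith

lemma fderiv_wt (x v : E3) : fderiv ℝ wt x v = deriv eta (‖x‖ ^ 2) * (2 * ⟪x, v⟫_ℝ) := by
  have h1 : HasFDerivAt (fun y : E3 => ‖y‖ ^ 2) (2 • innerSL ℝ x) x :=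
    (hasStrictFDerivAt_norm_sq x).hasFDerivAt
  have h2 := ((eta_smooth.differentiable (by simp) (‖x‖ ^ 2)).hasDerivAt).comp_hasFDerivAt x h1
  have h3 : (eta ∘ fun y : E3 => ‖y‖ ^ 2) = wt := rfl
  rw [h3] at h2
  rw [h2.fderiv]
  simp [two_mul]

/-- integration by parts -/
lemma green {i : ℕ} {f g : E3 → ℝ} (hf : IsHarm i f) (hg : ContDiff ℝ (⊤ : ℕ∞) g) :
    ∫ x, wt x * ∑ a, fderiv ℝ f x (ax a) * fderiv ℝ g x (ax a) =
      - (2 * i * ∫ x : E3, deriv eta (‖x‖ ^ 2) * (f x * g x)) := by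
  have hfs := IsHarm.smooth hf
  have hcd : ∀ (h : E3 → ℝ), ContDiff ℝ (⊤ : ℕ∞) h → ∀ e : E3,
      ContDiff ℝ (⊤ : ℕ∞) (fun x => fderiv ℝ h x e) := fun h hh e =>
    (hh.fderiv_right (m := (⊤ : ℕ∞)) (by norm_cast)).clm_apply contDiff_const
  have hF : ∀ a, ContDiff ℝ (⊤ : ℕ∞) (fun x => wt x * fderiv ℝ f x (ax a)) :=
    fun a => wt_smooth.mul (hcd f hfs _)
  have hFc : ∀ a, HasCompactSupport (fun x => wt x * fderiv ℝ f x (ax a)) :=
    fun a => wt_cpt.mul_right
  have hparts : ∀ a, ∫ x, (wt x * fderiv ℝ f x (ax a)) * fderiv ℝ g x (ax a) =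
      - ∫ x, fderiv ℝ (fun x => wt x * fderiv ℝ f x (ax a)) x (ax a) * g x := by
    intro a
    apply integral_mul_fderiv_eq_neg_fderiv_mul_of_integrable
    · refine Continuous.integrable_of_hasCompactSupport ?_ ?_
      · exact ((hcd _ (hF a) _).continuous).mul hg.continuous
      · refine HasCompactSupport.mul_right ?_
        refine ((hFc a).fderiv (𝕜 := ℝ)).comp_left (g := fun L : E3 →L[ℝ] ℝ => L (ax a)) ?_
        simp
    · refine Continuous.integrable_of_hasCompactSupport ?_ ?_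
      · exact (hF a).continuous.mul (hcd _ hg _).continuous
      · exact (hFc a).mul_right
    · refine Continuous.integrable_of_hasCompactSupport ?_ ?_
      · exact (hF a).continuous.mul hg.continuous
      · exact (hFc a).mul_right
    · intro x _; exact ((hF a).differentiable (by simp)) x
    · intro x _; exact (hg.differentiable (by simp)) x
  have hprod : ∀ a x, fderiv ℝ (fun x => wt x * fderiv ℝ f x (ax a)) x (ax a) =
      wt x * fderiv ℝ (fun y => fderiv ℝ f y (ax a)) x (ax a) +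
        fderiv ℝ wt x (ax a) * fderiv ℝ f x (ax a) := by
    intro a x
    rw [fderiv_fun_mul (wt_smooth.differentiable (by simp) x)
      ((hcd f hfs (ax a)).differentiable (by simp) x)]
    simp [mul_comm]
  have hsum : ∀ x, ∑ a, fderiv ℝ (fun x => wt x * fderiv ℝ f x (ax a)) x (ax a) =
      2 * i * (deriv eta (‖x‖ ^ 2) * f x) := by
    intro x
    simp only [hprod]
    rw [Finset.sum_add_distrib, ← Finset.mul_sum]
    have h1 : ∑ a, fderiv ℝ (fun y => fderiv ℝ f y (ax a)) x (ax a) = 0 := hf.2 x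
    rw [h1, mul_zero, zero_add]
    have h2 : ∑ a, fderiv ℝ wt x (ax a) * fderiv ℝ f x (ax a) =
        (deriv eta (‖x‖ ^ 2) * 2) * fderiv ℝ f x x := by
      have h3 : fderiv ℝ f x x = ∑ a, x a * fderiv ℝ f x (ax a) := by
        conv_lhs => rw [← sum_ax x]
        rw [map_sum, sum_ax x]
        simp
      rw [h3, Finset.mul_sum]
      apply Finset.sum_congr rfl
      intro a _
      rw [fderiv_wt]
      have : ⟪x, ax a⟫_ℝ = x a := by
        unfold ax
        rw [EuclideanSpace.inner_single_right]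
        simp
      rw [this]
      ring
    rw [h2, IsHarm.euler hf]
    ring
  have hint1 : ∀ a ∈ (Finset.univ : Finset (Fin 3)), Integrable (fun x =>
      (wt x * fderiv ℝ f x (ax a)) * fderiv ℝ g x (ax a)) volume := by
    intro a _
    refine Continuous.integrable_of_hasCompactSupport ?_ ?_
    · exact (hF a).continuous.mul (hcd _ hg _).continuous
    · exact (hFc a).mul_right
  have hint2 : ∀ a ∈ (Finset.univ : Finset (Fin 3)), Integrable (fun x =>
      fderiv ℝ (fun x => wt x * fderiv ℝ f x (ax a)) x (ax a) * g x) volume := by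
    intro a _
    refine Continuous.integrable_of_hasCompactSupport ?_ ?_
    · exact ((hcd _ (hF a) _).continuous).mul hg.continuous
    · refine HasCompactSupport.mul_right ?_
      refine ((hFc a).fderiv (𝕜 := ℝ)).comp_left (g := fun L : E3 →L[ℝ] ℝ => L (ax a)) ?_
      simp
  have e1 : ∀ x, wt x * ∑ a, fderiv ℝ f x (ax a) * fderiv ℝ g x (ax a) =
      ∑ a, (wt x * fderiv ℝ f x (ax a)) * fderiv ℝ g x (ax a) := by
    intro x
    rw [Finset.mul_sum]
    apply Finset.sum_congr rfl
    intro a _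
    ring
  simp only [e1]
  rw [integral_finsetSum _ hint1]
  simp only [hparts]
  rw [Finset.sum_neg_distrib, ← integral_finsetSum _ hint2, ← integral_const_mul]
  congr 1
  apply integral_congr_ae
  filter_upwards with x
  rw [← Finset.sum_mul, hsum]
  ring

lemma ortho_vol {i j : ℕ} {f g : E3 → ℝ} (hf : IsHarm i f) (hg : IsHarm j g) (hij : i ≠ j) :
    ∫ x : E3, deriv eta (‖x‖ ^ 2) * (f x * g x) = 0 := by
  have h1 := green hf (IsHarm.smooth hg)
  have h2 := green hg (IsHarm.smooth hf)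
  have e1 : ∫ x, wt x * ∑ a, fderiv ℝ f x (ax a) * fderiv ℝ g x (ax a) =
      ∫ x, wt x * ∑ a, fderiv ℝ g x (ax a) * fderiv ℝ f x (ax a) := by
    simp only [mul_comm (fderiv ℝ f _ _)]
  have e2 : ∫ x : E3, deriv eta (‖x‖ ^ 2) * (g x * f x) =
      ∫ x : E3, deriv eta (‖x‖ ^ 2) * (f x * g x) := by
    simp only [mul_comm (g _)]
  rw [e1, h2, e2] at h1
  have h3 : ((i : ℝ) - j) * ∫ x : E3, deriv eta (‖x‖ ^ 2) * (f x * g x) = 0 := by
    linarith
  rcases mul_eq_zero.mp h3 with h | h
  · exfalso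
    apply hij
    have : (i : ℝ) = j := by linarith
    exact_mod_cast this
  · exact h

lemma coef_pos (k : ℕ) :
    0 < ∫ t : ℝ, - (Real.exp (3 * t) * (deriv eta (Real.exp t ^ 2) * Real.exp t ^ k)) := by
  obtain ⟨s, hs, h⟩ := exists_deriv_eta
  have hs0 : 0 < s := by linarith
  refine Continuous.integral_pos_of_hasCompactSupport_nonneg_nonzero
    (x := Real.log s / 2) ?_ ?_ ?_ ?_
  · have := deriv_eta_cont
    fun_prop
  · refine HasCompactSupport.intro (isCompact_Icc (a := (-1 : ℝ)) (b := 1)) ?_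
    intro t ht
    have h0 : deriv eta (Real.exp t ^ 2) = 0 := by
      by_cases h1 : t < 0
      · apply deriv_eta_left
        have : Real.exp t < 1 := by
          rw [← Real.exp_zero]; exact Real.exp_lt_exp.mpr h1
        have := Real.exp_pos t
        nlinarith
      · apply deriv_eta_right
        have ht1 : 1 < t := by
          by_contra hcon
          exact ht ⟨by linarith, by linarith⟩
        have := Real.add_one_lt_exp (show t ≠ 0 by linarith)
        nlinarith
    rw [h0]
    simp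
  · intro t
    have h1 := deriv_eta_nonpos (Real.exp t ^ 2)
    have h2 : 0 < Real.exp (3 * t) := Real.exp_pos _
    have h3 : 0 < Real.exp t ^ k := by positivity
    simp only [Pi.zero_apply]
    have h4 : deriv eta (Real.exp t ^ 2) * Real.exp t ^ k ≤ 0 :=
      mul_nonpos_of_nonpos_of_nonneg h1 h3.le
    have h5 := mul_nonpos_of_nonneg_of_nonpos h2.le h4
    linarith
  · have h1 : Real.exp (Real.log s / 2) ^ 2 = s := by
      rw [← Real.exp_nat_mul]
      push_cast
      rw [mul_div_cancel₀ _ (by norm_num), Real.exp_log hs0]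
    rw [h1]
    have h2 : Real.exp (3 * (Real.log s / 2)) ≠ 0 := (Real.exp_pos _).ne'
    have h3 : Real.exp (Real.log s / 2) ^ k ≠ 0 := by positivity
    exact neg_ne_zero.mpr (mul_ne_zero h2 (mul_ne_zero h h3))

lemma ortho (hP : Target_Polar) {i j : ℕ} {f g : E3 → ℝ} (hf : IsHarm i f) (hg : IsHarm j g)
    (hij : i ≠ j) : ∫ ω : S2, f (ω : E3) * g (ω : E3) ∂sig = 0 := by
  have h1 := ortho_vol hf hg hij
  have hint : Integrable (fun x : E3 => deriv eta (‖x‖ ^ 2) * (f x * g x)) volume := by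
    refine Continuous.integrable_of_hasCompactSupport ?_ ?_
    · have c1 := deriv_eta_cont
      have c2 := (IsHarm.smooth hf).continuous
      have c3 := (IsHarm.smooth hg).continuous
      fun_prop
    · refine HasCompactSupport.mul_right ?_
      refine HasCompactSupport.intro (isCompact_closedBall (0 : E3) 2) ?_
      intro x hx
      apply deriv_eta_right
      have : 2 < ‖x‖ := by simpa using hx
      nlinarith
  rw [hP.2.1 _ hint] at h1
  have h2 : ∀ t : ℝ, Real.exp (3 * t) * ∫ ω : S2, deriv eta (‖Real.exp t • (ω : E3)‖ ^ 2) *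
      (f (Real.exp t • (ω : E3)) * g (Real.exp t • (ω : E3))) ∂sig =
      (Real.exp (3 * t) * (deriv eta (Real.exp t ^ 2) * Real.exp t ^ (i + j))) *
        ∫ ω : S2, f (ω : E3) * g (ω : E3) ∂sig := by
    intro t
    rw [mul_assoc (Real.exp (3 * t))]
    congr 1
    rw [← integral_const_mul]
    apply integral_congr_ae
    filter_upwards with ω
    have hn : ‖Real.exp t • (ω : E3)‖ = Real.exp t := by
      rw [norm_smul]
      simp
    rw [hn, IsHarm.homog hf, IsHarm.homog hg, pow_add]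
    ring
  simp only [h2] at h1
  rw [integral_mul_const] at h1
  have h3 := coef_pos (i + j)
  rw [integral_neg] at h3
  rcases mul_eq_zero.mp h1 with h | h
  · rw [h] at h3
    simp at h3
  · exact h

end HarmRotAux

theorem target_HarmRot (hP : Target_Polar) : Target_HarmRot := by
  refine ⟨fun j f A hf => HarmRotAux.IsHarm.rot A hf, fun A f _ => ?_,
    fun i j f g hf hg hij => HarmRotAux.ortho hP hf hg hij⟩
  exact (HarmRotAux.sph_mp A).integral_comp' (fun ω : S2 => f (ω : E3))

end Pool.Agent.HK
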