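import Pool.Agent.HK.HighC

/-!
# High modes: the estimate
-/

open MeasureTheory Set Filter Topology
open scoped ENNReal NNReal InnerProductSpace

namespace Pool.Agent.HK

namespace High

variable (Y : SphSystem)

lemma low_eq (J : ℕ) (G : ℝ × S2 → ℝ) (q : ℝ × S2) : Y.low J G q =
    ∑ r ∈ (Finset.range J).sigma (fun j => (Finset.univ : Finset (Fin (Y.d j)))),
      ct Y r G q.1 * Y.Y r.1 r.2 q.2 := by
  rw [Finset.sum_sigma]
  rfl

lemma low_cont (J : ℕ) {G : ℝ × S2 → ℝ} (hG : Continuous G) : Continuous (Y.low J G) := by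
  have : Y.low J G = fun q =>
      ∑ r ∈ (Finset.range J).sigma (fun j => (Finset.univ : Finset (Fin (Y.d j)))),
      ct Y r G q.1 * Y.Y r.1 r.2 q.2 := funext (low_eq Y J G)
  rw [this]
  refine continuous_finsetSum _ (fun r _ => ?_)
  exact ((ct_cont Y r hG).comp continuous_fst).mul ((sph_cont Y r).comp continuous_snd)

lemma low_ts (J : ℕ) {G : ℝ × S2 → ℝ} (hG : TS G) : TS (Y.low J G) := by
  refine ⟨low_cont Y J hG.cont, ?_⟩
  obtain ⟨R, hR⟩ := hG.supp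
  refine ⟨R, fun q hq => ?_⟩
  rw [low_eq]
  refine Finset.sum_eq_zero (fun r _ => ?_)
  have : ct Y r G q.1 = 0 := by
    have h : ∀ ω : S2, G (q.1, ω) = 0 := fun ω => hR (q.1, ω) hq
    simp [ct, cf, h]
  rw [this, zero_mul]

lemma ct_low (J : ℕ) (G : ℝ × S2 → ℝ) (p : Σ j, Fin (Y.d j)) (t : ℝ) :
    ct Y p (Y.low J G) t = if p.1 < J then ct Y p G t else 0 := by
  have h1 : ct Y p (Y.low J G) t = ∫ ω : S2,
      ∑ r ∈ (Finset.range J).sigma (fun j => (Finset.univ : Finset (Fin (Y.d j)))),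
      (ct Y r G t * (Y.Y r.1 r.2 ω * Y.Y p.1 p.2 ω)) ∂sig := by
    unfold ct cf
    congr 1; funext ω
    change Y.low J G (t, ω) * _ = _
    rw [low_eq, Finset.sum_mul]
    refine Finset.sum_congr rfl (fun r _ => ?_)
    simp only [ct, cf]
    ring
  rw [h1, integral_finsetSum]
  · have h2 : ∀ r : (Σ j, Fin (Y.d j)), ∫ ω : S2, ct Y r G t *
        (Y.Y r.1 r.2 ω * Y.Y p.1 p.2 ω) ∂sig = if r = p then ct Y r G t else 0 := by
      intro r
      rw [integral_const_mul, Y.ortho r p]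
      split_ifs <;> simp
    rw [Finset.sum_congr rfl (fun r _ => h2 r), Finset.sum_ite_eq']
    by_cases hp : p.1 < J
    · rw [if_pos hp, if_pos]
      rw [Finset.mem_sigma]
      exact ⟨Finset.mem_range.mpr hp, Finset.mem_univ _⟩
    · rw [if_neg hp, if_neg]
      rw [Finset.mem_sigma]
      rintro ⟨h, _⟩
      exact hp (Finset.mem_range.mp h)
  · intro r _
    exact s2_integrable (continuous_const.mul ((sph_cont Y r).mul (sph_cont Y p)))

/-- weight `e^{β t}` -/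
noncomputable def wt (β : ℝ) (F : E3 → ℝ) (q : ℝ × S2) : ℝ :=
  Real.exp (β * q.1) * F (Real.exp q.1 • (q.2 : E3))

lemma wt_ts (β : ℝ) {F : E3 → ℝ} (hF : CcOff F) : TS (wt β F) :=
  ts_of hF (q := fun t => Real.exp (β * t)) (by fun_prop)

lemma cyl_eq_wt (τ : ℕ) (β : ℝ) (F : E3 → ℝ) : cyl τ β F = wt (β - τ) F := rfl

lemma ct_wt (β : ℝ) (F : E3 → ℝ) (p : Σ j, Fin (Y.d j)) (t : ℝ) : ct Y p (wt β F) t =
    Real.exp (β * t) * ∫ ω : S2, F (Real.exp t • (ω : E3)) * Y.Y p.1 p.2 ω ∂sig :=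
  cf_smul Y p (Real.exp (β * t)) (fun ω : S2 => F (Real.exp t • (ω : E3)))

/-- what the target about modes gives for a twice differentiable function -/
lemma mode_of (hMo : Target_Mode) (p : Σ j, Fin (Y.d j)) {h : E3 → ℝ} (hh : ContDiff ℝ 2 h)
    (hc : CcOff h) : ContDiff ℝ 2 (ct Y p (wt (1 / 2) h)) ∧
    HasCompactSupport (ct Y p (wt (1 / 2) h)) ∧
    ∀ t, - deriv (deriv (ct Y p (wt (1 / 2) h))) t +
      ((p.1 : ℝ) + 1 / 2) ^ 2 * ct Y p (wt (1 / 2) h) t =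
      ct Y p (wt (5 / 2) (fun x => - lap h x)) t := by
  have hm := hMo p.1 (Y.Y p.1 p.2) (Y.smooth p.1 p.2) (Y.homog p.1 p.2) (Y.harmonic p.1 p.2)
    h hh hc
  simp only at hm
  have e1 : ct Y p (wt (1 / 2) h) = fun t => Real.exp (t / 2) *
      ∫ ω : S2, h (Real.exp t • (ω : E3)) * Y.Y p.1 p.2 ω ∂sig := by
    funext t
    rw [ct_wt]
    congr 2; ring
  rw [← e1] at hm
  refine ⟨hm.1, hm.2.1, fun t => ?_⟩
  have h3 := hm.2.2 t
  have e1t := congrFun e1 t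
  rw [← e1t] at h3
  rw [h3, ct_wt]
  congr 2; ring

/-- Data of the estimate. -/
structure Dat (τ : ℕ) (lam : ℝ) (u F : E3 → ℝ) : Prop where
  τ1 : 1 ≤ τ
  lam0 : 0 ≤ lam
  smooth : ContDiff ℝ (⊤ : ℕ∞) u
  ccu : CcOff u
  ccF : CcOff F
  eqn : ∀ x, - lap u x + lam * u x = F x

/-- the remainder -/
noncomputable def WW (τ : ℕ) (u : E3 → ℝ) (q : ℝ × S2) : ℝ :=
  cyl τ (1 / 2) u q - Y.low (2 * τ) (cyl τ (1 / 2) u) q

/-- the remainder as a function on space -/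
noncomputable def hh (τ : ℕ) (u : E3 → ℝ) (x : E3) : ℝ :=
  (‖x‖⁻¹) ^ τ * u x -
    ∑ r ∈ (Finset.range (2 * τ)).sigma (fun j => (Finset.univ : Finset (Fin (Y.d j)))),
      psi r.1 (Y.Y r.1 r.2) (ct Y r (cyl τ (1 / 2) u)) x

variable {τ : ℕ} {lam : ℝ} {u F : E3 → ℝ}

lemma WW_ts (hu : CcOff u) : TS (WW Y τ u) :=
  (ts_cyl hu τ (1 / 2)).sub (low_ts Y (2 * τ) (ts_cyl hu τ (1 / 2)))

lemma ct_WW (hu : CcOff u) (p : Σ j, Fin (Y.d j)) (t : ℝ) : ct Y p (WW Y τ u) t =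
    if p.1 < 2 * τ then 0 else ct Y p (cyl τ (1 / 2) u) t := by
  have h1 := ct_sub Y p (ts_cyl hu τ (1 / 2)).cont
    (low_ts Y (2 * τ) (ts_cyl hu τ (1 / 2))).cont t
  rw [ct_low] at h1
  have h2 : ct Y p (WW Y τ u) t = ct Y p (cyl τ (1 / 2) u) t -
      if p.1 < 2 * τ then ct Y p (cyl τ (1 / 2) u) t else 0 := h1
  rw [h2]
  split_ifs <;> simp

/-- coefficients of `cyl` in terms of the unweighted ones -/
lemma ct_cyl (p : Σ j, Fin (Y.d j)) (t : ℝ) : ct Y p (cyl τ (1 / 2) u) t =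
    Real.exp (-((τ : ℝ) * t)) * ct Y p (wt (1 / 2) u) t := by
  rw [cyl_eq_wt, ct_wt, ct_wt, ← mul_assoc, ← Real.exp_add]
  congr 2; ring

lemma ct_cyl_contDiff (hMo : Target_Mode) (hs : ContDiff ℝ (⊤ : ℕ∞) u) (hu : CcOff u)
    (p : Σ j, Fin (Y.d j)) : ContDiff ℝ 2 (ct Y p (cyl τ (1 / 2) u)) := by
  have h1 := (mode_of Y hMo p (hs.of_le two_le_top') hu).1
  have h2 : ct Y p (cyl τ (1 / 2) u) = fun t =>
      Real.exp (-((τ : ℝ) * t)) * ct Y p (wt (1 / 2) u) t := funext (ct_cyl Y p)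
  rw [h2]
  refine ContDiff.mul (ContDiff.exp ?_) h1
  fun_prop

lemma hh_contDiff (hMo : Target_Mode) (hs : ContDiff ℝ (⊤ : ℕ∞) u) (hu : CcOff u) :
    ContDiff ℝ 2 (hh Y τ u) := by
  unfold hh
  refine (ccoff_weight hu hs τ).1.sub (ContDiff.sum (fun r _ => ?_))
  exact psi_contDiff r.1 (Y.smooth r.1 r.2) (ct_cyl_contDiff Y hMo hs hu r)
    (ct_supp Y r (ts_cyl hu τ (1 / 2)).supp)

lemma hh_ccoff (hMo : Target_Mode) (hs : ContDiff ℝ (⊤ : ℕ∞) u) (hu : CcOff u) :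
    CcOff (hh Y τ u) := by
  unfold hh
  refine ccoff_sub (ccoff_weight hu hs τ).2 (ccoff_sum _ (fun r _ => ?_))
  exact psi_ccoff r.1 (Y.smooth r.1 r.2) (ct_cyl_contDiff Y hMo hs hu r)
    (ct_supp Y r (ts_cyl hu τ (1 / 2)).supp)

lemma wt_hh (q : ℝ × S2) : wt (1 / 2) (hh Y τ u) q = WW Y τ u q := by
  unfold wt hh WW
  rw [mul_sub, low_eq, Finset.mul_sum]
  congr 1
  · unfold cyl
    rw [norm_exp_smul, ← mul_assoc, ← Real.exp_neg, ← Real.exp_nat_mul, ← Real.exp_add]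
    congr 2; ring
  · refine Finset.sum_congr rfl (fun r _ => ?_)
    rw [psi_eval r.1 (Y.homog r.1 r.2), ← mul_assoc, ← mul_assoc, ← Real.exp_add]
    have : 1 / 2 * q.1 + -(q.1 / 2) = 0 := by ring
    rw [this, Real.exp_zero, one_mul]

lemma energy_eq (hMo : Target_Mode) (hP : Target_Polar) (hs : ContDiff ℝ (⊤ : ℕ∞) u)
    (hu : CcOff u) :
    HasSum (fun p : (Σ j, Fin (Y.d j)) => ∫ t, (deriv (ct Y p (WW Y τ u)) t ^ 2 +
        ((p.1 : ℝ) + 1 / 2) ^ 2 * ct Y p (WW Y τ u) t ^ 2))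
      (∫ x, ∑ a, (fderiv ℝ (hh Y τ u) x (ax a)) ^ 2) := by
  have c2 := hh_contDiff (τ := τ) Y hMo hs hu
  have cc := hh_ccoff (τ := τ) Y hMo hs hu
  have eW : wt (1 / 2) (hh Y τ u) = WW Y τ u := funext (wt_hh Y)
  have hl := lap_ccoff c2 cc
  have h1 := parseval_prod Y (wt_ts (1 / 2) cc) (wt_ts (5 / 2) hl)
  have e1 : (∫ t, ∫ ω, wt (1 / 2) (hh Y τ u) (t, ω) *
      wt (5 / 2) (fun x => - lap (hh Y τ u) x) (t, ω) ∂sig)
      = ∫ x, ∑ a, (fderiv ℝ (hh Y τ u) x (ax a)) ^ 2 := by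
    rw [energy_R3 c2 (ccoff_compact cc)]
    have hint : Integrable (fun x => hh Y τ u x * (- lap (hh Y τ u) x)) :=
      (c2.continuous.mul hl.1).integrable_of_hasCompactSupport (ccoff_compact cc).mul_right
    rw [hP.2.1 _ hint]
    congr 1; funext t
    rw [← integral_const_mul]
    congr 1; funext ω
    unfold wt
    have : Real.exp (3 * t) = Real.exp (1 / 2 * t) * Real.exp (5 / 2 * t) := by
      rw [← Real.exp_add]; congr 1; ring
    simp only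
    rw [this]; ring
  rw [e1] at h1
  have e2 : (fun p : (Σ j, Fin (Y.d j)) => ∫ t, (deriv (ct Y p (WW Y τ u)) t ^ 2 +
        ((p.1 : ℝ) + 1 / 2) ^ 2 * ct Y p (WW Y τ u) t ^ 2)) = fun p =>
      ∫ t, ct Y p (wt (1 / 2) (hh Y τ u)) t *
        ct Y p (wt (5 / 2) (fun x => - lap (hh Y τ u) x)) t := by
    funext p
    obtain ⟨m1, m2, m3⟩ := mode_of Y hMo p c2 cc
    rw [eW] at m1 m2 m3 ⊢
    have m1' : ContDiff ℝ 1 (ct Y p (WW Y τ u)) := m1.of_le (by norm_num)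
    have hib := ibp m1 m1' m2
    have hU1 : ContDiff ℝ 1 (deriv (ct Y p (WW Y τ u))) := by
      have h2 : ContDiff ℝ ((1 : WithTop ℕ∞) + 1) (ct Y p (WW Y τ u)) := by
        rw [one_add_one_eq_two]; exact m1
      exact (contDiff_succ_iff_deriv.mp h2).2.2
    have c0 := m1.continuous
    have c1 := hU1.continuous
    have c3 := hU1.continuous_deriv (by norm_num)
    have i1 : Integrable (fun t => (- deriv (deriv (ct Y p (WW Y τ u))) t) *
        ct Y p (WW Y τ u) t) :=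
      (c3.neg.mul c0).integrable_of_hasCompactSupport m2.mul_left
    have i2 : Integrable (fun t => ((p.1 : ℝ) + 1 / 2) ^ 2 *
        (ct Y p (WW Y τ u) t * ct Y p (WW Y τ u) t)) :=
      (continuous_const.mul (c0.mul c0)).integrable_of_hasCompactSupport
        (HasCompactSupport.mul_left m2.mul_left)
    have i3 : Integrable (fun t => deriv (ct Y p (WW Y τ u)) t *
        deriv (ct Y p (WW Y τ u)) t) :=
      (c1.mul c1).integrable_of_hasCompactSupport m2.deriv.mul_left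
    have f1 : (fun t => ct Y p (WW Y τ u) t *
        ct Y p (wt (5 / 2) (fun x => - lap (hh Y τ u) x)) t) = fun t =>
        (- deriv (deriv (ct Y p (WW Y τ u))) t) * ct Y p (WW Y τ u) t +
        ((p.1 : ℝ) + 1 / 2) ^ 2 * (ct Y p (WW Y τ u) t * ct Y p (WW Y τ u) t) := by
      funext t
      rw [← m3 t]; ring
    have f2 : (fun t => deriv (ct Y p (WW Y τ u)) t ^ 2 +
        ((p.1 : ℝ) + 1 / 2) ^ 2 * ct Y p (WW Y τ u) t ^ 2) = fun t =>
        deriv (ct Y p (WW Y τ u)) t * deriv (ct Y p (WW Y τ u)) t +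
        ((p.1 : ℝ) + 1 / 2) ^ 2 * (ct Y p (WW Y τ u) t * ct Y p (WW Y τ u) t) := by
      funext t; ring
    rw [f1, f2, integral_add i1 i2, integral_add i3 i2, hib]
  rw [e2]
  exact h1

/-- each mode -/
lemma mode_le (hMo : Target_Mode) (hd : Dat τ lam u F) (p : Σ j, Fin (Y.d j)) :
    3 / 4 * ∫ t, (deriv (ct Y p (WW Y τ u)) t ^ 2 +
        ((p.1 : ℝ) + 1 / 2) ^ 2 * ct Y p (WW Y τ u) t ^ 2) ≤
      ∫ t, ct Y p (cyl τ (5 / 2) F) t * ct Y p (WW Y τ u) t := by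
  by_cases hp : p.1 < 2 * τ
  · have h0 : ct Y p (WW Y τ u) = fun _ => 0 := by
      funext t
      rw [ct_WW Y hd.ccu, if_pos hp]
    rw [h0]
    simp
  · have h0 : ct Y p (WW Y τ u) = fun t =>
        Real.exp (-((τ : ℝ) * t)) * ct Y p (wt (1 / 2) u) t := by
      funext t
      rw [ct_WW Y hd.ccu, if_neg hp, ct_cyl]
    rw [h0]
    obtain ⟨m1, m2, m3⟩ := mode_of Y hMo p (hd.smooth.of_le two_le_top') hd.ccu
    refine mode_ineq (ν := (p.1 : ℝ) + 1 / 2) (τ := (τ : ℝ)) (lam := lam) m1 m2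
      (Nat.cast_nonneg τ) ?_ hd.lam0 ?_
    · have : ((2 * τ : ℕ) : ℝ) ≤ p.1 := by exact_mod_cast not_lt.mp hp
      push_cast at this
      linarith
    · intro t
      rw [m3 t, cyl_eq_wt, ct_wt, ct_wt, ct_wt]
      have e1 : ∫ ω : S2, (- lap u (Real.exp t • (ω : E3))) * Y.Y p.1 p.2 ω ∂sig
          = ∫ ω : S2, F (Real.exp t • (ω : E3)) * Y.Y p.1 p.2 ω ∂sig
            - lam * ∫ ω : S2, u (Real.exp t • (ω : E3)) * Y.Y p.1 p.2 ω ∂sig := by
        have cs : Continuous (fun ω : S2 => Real.exp t • (ω : E3)) :=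
          cont_exp_smul.comp (Continuous.prodMk_right t)
        have c1 : Continuous (fun ω : S2 => F (Real.exp t • (ω : E3)) * Y.Y p.1 p.2 ω) :=
          (hd.ccF.1.comp cs).mul (sph_cont Y p)
        have c2 : Continuous (fun ω : S2 => u (Real.exp t • (ω : E3)) * Y.Y p.1 p.2 ω) :=
          (hd.ccu.1.comp cs).mul (sph_cont Y p)
        rw [← integral_const_mul, ← integral_sub (s2_integrable c1)
          ((s2_integrable c2).const_mul lam)]
        congr 1; funext ω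
        have := hd.eqn (Real.exp t • (ω : E3))
        have h3 : - lap u (Real.exp t • (ω : E3)) = F (Real.exp t • (ω : E3)) -
          lam * u (Real.exp t • (ω : E3)) := by linarith
        rw [h3]; ring
      rw [e1]
      have e2 : Real.exp (5 / 2 * t) = Real.exp ((τ : ℝ) * t) * Real.exp ((5 / 2 - τ) * t) := by
        rw [← Real.exp_add]; congr 1; ring
      have e3 : Real.exp (5 / 2 * t) = Real.exp (2 * t) * Real.exp (1 / 2 * t) := by
        rw [← Real.exp_add]; congr 1; ring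
      rw [mul_sub]
      congr 1
      · rw [e2]; ring
      · rw [e3]; ring

lemma energy_le (hMo : Target_Mode) (hP : Target_Polar) (hd : Dat τ lam u F) :
    3 / 4 * (∫ x, ∑ a, (fderiv ℝ (hh Y τ u) x (ax a)) ^ 2) ≤
      ∫ t, ∫ ω, cyl τ (5 / 2) F (t, ω) * WW Y τ u (t, ω) ∂sig := by
  have h1 := (energy_eq (τ := τ) Y hMo hP hd.smooth hd.ccu).mul_left (3 / 4 : ℝ)
  have h2 := parseval_prod Y (ts_cyl hd.ccF τ (5 / 2)) (WW_ts (τ := τ) Y hd.ccu)
  exact hasSum_le (fun p => mode_le Y hMo hd p) h1 h2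

lemma l2_le (hMo : Target_Mode) (hP : Target_Polar) (hd : Dat τ lam u F) :
    (2 * (τ : ℝ)) ^ 2 * (∫ t, ∫ ω, WW Y τ u (t, ω) * WW Y τ u (t, ω) ∂sig) ≤
      ∫ x, ∑ a, (fderiv ℝ (hh Y τ u) x (ax a)) ^ 2 := by
  have h1 := energy_eq (τ := τ) Y hMo hP hd.smooth hd.ccu
  have h2 := (parseval_sq Y (WW_ts (τ := τ) Y hd.ccu)).mul_left ((2 * (τ : ℝ)) ^ 2)
  refine hasSum_le (fun p => ?_) h2 h1
  by_cases hp : p.1 < 2 * τ
  · have h0 : ct Y p (WW Y τ u) = fun _ => 0 := by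
      funext t
      rw [ct_WW Y hd.ccu, if_pos hp]
    rw [h0]
    simp
  · have c2 := hh_contDiff (τ := τ) Y hMo hd.smooth hd.ccu
    have cc := hh_ccoff (τ := τ) Y hMo hd.smooth hd.ccu
    have eW : wt (1 / 2) (hh Y τ u) = WW Y τ u := funext (wt_hh Y)
    obtain ⟨m1, m2, m3⟩ := mode_of Y hMo p c2 cc
    rw [eW] at m1 m2
    have hc1 : Continuous (deriv (ct Y p (WW Y τ u))) := m1.continuous_deriv (by norm_num)
    have c0 := m1.continuous
    have i1 : Integrable (fun t => deriv (ct Y p (WW Y τ u)) t * deriv (ct Y p (WW Y τ u)) t) :=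
      (hc1.mul hc1).integrable_of_hasCompactSupport m2.deriv.mul_left
    have i2 : Integrable (fun t => ct Y p (WW Y τ u) t * ct Y p (WW Y τ u) t) :=
      (c0.mul c0).integrable_of_hasCompactSupport m2.mul_left
    have f2 : (fun t => deriv (ct Y p (WW Y τ u)) t ^ 2 +
        ((p.1 : ℝ) + 1 / 2) ^ 2 * ct Y p (WW Y τ u) t ^ 2) = fun t =>
        deriv (ct Y p (WW Y τ u)) t * deriv (ct Y p (WW Y τ u)) t +
        ((p.1 : ℝ) + 1 / 2) ^ 2 * (ct Y p (WW Y τ u) t * ct Y p (WW Y τ u) t) := by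
      funext t; ring
    rw [f2, ← integral_const_mul]
    refine integral_mono (i2.const_mul _) (i1.add (i2.const_mul _)) ?_
    intro t
    simp only
    have hpos := mul_self_nonneg (ct Y p (WW Y τ u) t)
    have hpos' := mul_self_nonneg (deriv (ct Y p (WW Y τ u)) t)
    have hν : (2 * (τ : ℝ)) ^ 2 ≤ ((p.1 : ℝ) + 1 / 2) ^ 2 := by
      have h3 : ((2 * τ : ℕ) : ℝ) ≤ p.1 := by exact_mod_cast not_lt.mp hp
      push_cast at h3
      have h4 : (0 : ℝ) ≤ τ := Nat.cast_nonneg τ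
      nlinarith
    have := mul_le_mul_of_nonneg_right hν hpos
    linarith

/-! ### Hoelder -/

lemma ts_memLp {G : ℝ × S2 → ℝ} (hG : TS G) (p : ℝ≥0∞) :
    MemLp G p ((volume : Measure ℝ).prod sig) :=
  hG.cont.memLp_of_hasCompactSupport hG.compact

lemma holder {G H : ℝ × S2 → ℝ} (hG : TS G) (hH : TS H) {p q : ℝ≥0∞}
    (hpq : p⁻¹ + q⁻¹ = 1) : ∫ t, ∫ ω, G (t, ω) * H (t, ω) ∂sig ≤
    (eLpNorm G p ((volume : Measure ℝ).prod sig)).toReal *
      (eLpNorm H q ((volume : Measure ℝ).prod sig)).toReal := by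
  have : ENNReal.HolderTriple p q 1 := ⟨by rw [hpq, inv_one]⟩
  have hGH : TS (fun x => G x * H x) := hG.mul hH.cont
  have h0 : ∫ t, ∫ ω, G (t, ω) * H (t, ω) ∂sig
      = ∫ x, G x * H x ∂((volume : Measure ℝ).prod sig) :=
    (integral_prod _ hGH.integrable).symm
  rw [h0, ← ENNReal.toReal_mul]
  have h1 := eLpNorm_smul_le_mul_eLpNorm (p := p) (q := q) (r := 1)
    (ts_memLp hH q).aestronglyMeasurable (ts_memLp hG p).aestronglyMeasurable
  have h2 : ∫ x, G x * H x ∂((volume : Measure ℝ).prod sig) ≤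
      (eLpNorm (fun x => G x * H x) 1 ((volume : Measure ℝ).prod sig)).toReal := by
    rw [eLpNorm_one_eq_lintegral_enorm]
    refine (le_abs_self _).trans ?_
    rw [← Real.norm_eq_abs]
    have h3 := norm_integral_le_lintegral_norm (μ := (volume : Measure ℝ).prod sig)
      (fun x => G x * H x)
    refine h3.trans (le_of_eq ?_)
    congr 2
    funext x
    rw [ofReal_norm]
  refine h2.trans ?_
  refine ENNReal.toReal_mono ?_ h1
  exact ENNReal.mul_ne_top (ts_memLp hG p).eLpNorm_ne_top (ts_memLp hH q).eLpNorm_ne_top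

end High

open High in
theorem target_High (hMo : Target_Mode) (hP : Target_Polar) : Target_High := by
  intro Y
  obtain ⟨S, hS⟩ := gns
  refine ⟨4 / 3 * (S + 1) ^ 2, ?_⟩
  intro τ hτ lam hlam u F₁ F₂ hs hu hF₁ hF₂ heq
  have hd : Dat τ lam u (fun x => F₁ x + F₂ x) := ⟨hτ, hlam, hs, hu, ccoff_add hF₁ hF₂, heq⟩
  set μ : Measure (ℝ × S2) := (volume : Measure ℝ).prod sig with hμ
  change eLpNorm (WW Y τ u) 6 μ ≤ _ ∧ ENNReal.ofReal (τ : ℝ) * eLpNorm (WW Y τ u) 2 μ ≤ _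
  have hW := WW_ts (τ := τ) Y hu
  have t1 := ts_cyl hF₁ τ (5 / 2)
  have t2 := ts_cyl hF₂ τ (5 / 2)
  set E : ℝ := ∫ x, ∑ a, (fderiv ℝ (hh Y τ u) x (ax a)) ^ 2 with hE
  have hE0 : 0 ≤ E := integral_nonneg (fun x => Finset.sum_nonneg (fun a _ => sq_nonneg _))
  set s : ℝ := Real.sqrt E with hs'
  have hs0 : 0 ≤ s := Real.sqrt_nonneg _
  have hsE : s ^ 2 = E := Real.sq_sqrt hE0
  set a : ℝ := (eLpNorm (cyl τ (5 / 2) F₁) (6 / 5) μ).toReal with ha
  set b : ℝ := (eLpNorm (cyl τ (5 / 2) F₂) 2 μ).toReal with hb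
  set w6 : ℝ := (eLpNorm (WW Y τ u) 6 μ).toReal with hw6
  set w2 : ℝ := (eLpNorm (WW Y τ u) 2 μ).toReal with hw2
  have ha0 : 0 ≤ a := ENNReal.toReal_nonneg
  have hb0 : 0 ≤ b := ENNReal.toReal_nonneg
  have hτ1 : (1 : ℝ) ≤ τ := by exact_mod_cast hτ
  have hτ0 : (0 : ℝ) < τ := by linarith
  -- the two norms of the remainder
  have b6 : w6 ≤ S * s := by
    have h1 := hS _ (hh_contDiff (τ := τ) Y hMo hs hu) (ccoff_compact (hh_ccoff Y hMo hs hu))
    have h2 := (hP.2.2 0 (hh Y τ u) (hh_contDiff (τ := τ) Y hMo hs hu).continuous.measurable).1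
    have h3 : (fun x : E3 => (‖x‖⁻¹) ^ 0 * hh Y τ u x) = hh Y τ u := by
      funext x; rw [pow_zero, one_mul]
    have h4 : cyl 0 (1 / 2) (hh Y τ u) = WW Y τ u := by
      funext q
      rw [← wt_hh]
      unfold cyl wt
      congr 2
      push_cast; ring
    rw [h3, h4] at h2
    rw [h2] at h1
    have h5 := ENNReal.toReal_mono (by
      exact ENNReal.mul_ne_top ENNReal.coe_ne_top ENNReal.ofReal_ne_top) h1
    rw [ENNReal.toReal_mul, ENNReal.coe_toReal, ENNReal.toReal_ofReal (Real.sqrt_nonneg _)] at h5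
    exact h5
  have b2 : 2 * τ * w2 ≤ s := by
    have h1 := l2_le Y hMo hP hd
    have h2 : w2 ^ 2 = ∫ t, ∫ ω, WW Y τ u (t, ω) * WW Y τ u (t, ω) ∂sig := by
      have h3 : (∫ t, ∫ ω, WW Y τ u (t, ω) * WW Y τ u (t, ω) ∂sig)
          = ∫ x, WW Y τ u x * WW Y τ u x ∂μ :=
        (integral_prod _ (hW.mul hW.cont).integrable).symm
      rw [h3, hw2, nrm2 (ts_memLp hW 2), ENNReal.toReal_ofReal (Real.sqrt_nonneg _),
        Real.sq_sqrt (integral_nonneg (fun x => sq_nonneg _))]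
      congr 1; funext x; ring
    rw [← h2, ← hE, ← hsE] at h1
    have h3 : (2 * τ * w2) ^ 2 ≤ s ^ 2 := by rw [mul_pow]; exact h1
    exact abs_le_of_sq_le_sq' h3 hs0 |>.2
  have hw20 : 0 ≤ w2 := ENNReal.toReal_nonneg
  have hw60 : 0 ≤ w6 := ENNReal.toReal_nonneg
  have hen : 3 / 4 * s ^ 2 ≤ a * w6 + b * w2 := by
    have h1 := energy_le Y hMo hP hd
    have h2 : (∫ t, ∫ ω, cyl τ (5 / 2) (fun x => F₁ x + F₂ x) (t, ω) * WW Y τ u (t, ω) ∂sig)
        = (∫ t, ∫ ω, cyl τ (5 / 2) F₁ (t, ω) * WW Y τ u (t, ω) ∂sig)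
          + ∫ t, ∫ ω, cyl τ (5 / 2) F₂ (t, ω) * WW Y τ u (t, ω) ∂sig := by
      rw [← integral_add (t1.mul hW.cont).int_integrable (t2.mul hW.cont).int_integrable]
      congr 1; funext t
      rw [← integral_add (s2_integrable (slice_cont (t1.mul hW.cont).cont t))
        (s2_integrable (slice_cont (t2.mul hW.cont).cont t))]
      congr 1; funext ω
      unfold cyl
      ring
    rw [h2, ← hE, ← hsE] at h1
    have e1 : ((6 / 5 : ℝ≥0∞))⁻¹ + (6 : ℝ≥0∞)⁻¹ = 1 := by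
      rw [ENNReal.inv_div (by norm_num) (by norm_num)]
      rw [← one_div, ENNReal.div_add_div_same]
      norm_num
      exact ENNReal.div_self (by norm_num) (by norm_num)
    have e2 : ((2 : ℝ≥0∞))⁻¹ + (2 : ℝ≥0∞)⁻¹ = 1 := ENNReal.inv_two_add_inv_two
    have h3 := holder t1 hW e1
    have h4 := holder t2 hW e2
    linarith
  have hsle : s ≤ 4 / 3 * (S * a + b / (2 * τ)) := by
    rcases eq_or_lt_of_le hs0 with h | h
    · rw [← h]; positivity
    · have h1 : a * w6 ≤ a * (S * s) := mul_le_mul_of_nonneg_left b6 ha0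
      have h2 : b * w2 ≤ b * (s / (2 * τ)) := by
        refine mul_le_mul_of_nonneg_left ?_ hb0
        rw [le_div_iff₀ (by positivity)]
        linarith
      have h3 : 3 / 4 * s ^ 2 ≤ (S * a + b / (2 * τ)) * s := by
        calc 3 / 4 * s ^ 2 ≤ a * (S * s) + b * (s / (2 * τ)) := by linarith
          _ = (S * a + b / (2 * τ)) * s := by ring
      have h4 : 3 / 4 * s ≤ S * a + b / (2 * τ) := by
        by_contra hcon
        push Not at hcon
        have := mul_lt_mul_of_pos_right hcon h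
        nlinarith
      linarith
  have hS0 : (0 : ℝ) ≤ S := S.2
  have hbt : b / (2 * τ) ≤ (τ : ℝ)⁻¹ * b := by
    rw [inv_mul_eq_div]
    apply div_le_div_of_nonneg_left hb0 hτ0
    linarith
  have hbt0 : 0 ≤ (τ : ℝ)⁻¹ * b := by positivity
  have hsle' : s ≤ 4 / 3 * (S * a + (τ : ℝ)⁻¹ * b) := by linarith
  have fin1 : w6 ≤ 4 / 3 * (S + 1) ^ 2 * (a + (τ : ℝ)⁻¹ * b) := by
    calc w6 ≤ S * s := b6
      _ ≤ S * (4 / 3 * (S * a + (τ : ℝ)⁻¹ * b)) := mul_le_mul_of_nonneg_left hsle' hS0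
      _ ≤ 4 / 3 * (S + 1) ^ 2 * (a + (τ : ℝ)⁻¹ * b) := by
        have h1 : 0 ≤ S * a := mul_nonneg hS0 ha0
        have h2 : 0 ≤ S * ((τ : ℝ)⁻¹ * b) := mul_nonneg hS0 hbt0
        have h3 : 0 ≤ (S : ℝ) ^ 2 * ((τ : ℝ)⁻¹ * b) := by positivity
        nlinarith
  have fin2 : τ * w2 ≤ 4 / 3 * (S + 1) ^ 2 * (a + (τ : ℝ)⁻¹ * b) := by
    calc τ * w2 ≤ s := by nlinarith
      _ ≤ 4 / 3 * (S * a + (τ : ℝ)⁻¹ * b) := hsle'
      _ ≤ 4 / 3 * (S + 1) ^ 2 * (a + (τ : ℝ)⁻¹ * b) := by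
        have h1 : 0 ≤ S * a := mul_nonneg hS0 ha0
        have h2 : 0 ≤ (S : ℝ) ^ 2 * a := by positivity
        have h3 : 0 ≤ (S : ℝ) ^ 2 * ((τ : ℝ)⁻¹ * b) := by positivity
        have h4 : 0 ≤ S * ((τ : ℝ)⁻¹ * b) := mul_nonneg hS0 hbt0
        nlinarith
  -- back to extended reals
  have hR : ((4 / 3 * (S + 1) ^ 2 : ℝ≥0) : ℝ≥0∞) * (eLpNorm (cyl τ (5 / 2) F₁) (6 / 5) μ +
        ENNReal.ofReal ((τ : ℝ) ^ (-1 : ℝ)) * eLpNorm (cyl τ (5 / 2) F₂) 2 μ)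
      = ENNReal.ofReal (4 / 3 * (S + 1) ^ 2 * (a + (τ : ℝ)⁻¹ * b)) := by
    have e1 : eLpNorm (cyl τ (5 / 2) F₁) (6 / 5) μ = ENNReal.ofReal a :=
      (ENNReal.ofReal_toReal (ts_memLp t1 _).eLpNorm_ne_top).symm
    have e2 : eLpNorm (cyl τ (5 / 2) F₂) 2 μ = ENNReal.ofReal b :=
      (ENNReal.ofReal_toReal (ts_memLp t2 _).eLpNorm_ne_top).symm
    have e3 : ((4 / 3 * (S + 1) ^ 2 : ℝ≥0) : ℝ≥0∞) = ENNReal.ofReal (4 / 3 * ((S : ℝ) + 1) ^ 2) := by
      rw [← ENNReal.ofReal_coe_nnreal]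
      congr 1
    rw [e1, e2, e3, Real.rpow_neg_one, ← ENNReal.ofReal_mul (by positivity),
      ← ENNReal.ofReal_add ha0 hbt0, ← ENNReal.ofReal_mul (by positivity)]
  rw [hR]
  have e6 : eLpNorm (WW Y τ u) 6 μ = ENNReal.ofReal w6 :=
    (ENNReal.ofReal_toReal (ts_memLp hW _).eLpNorm_ne_top).symm
  have e2 : eLpNorm (WW Y τ u) 2 μ = ENNReal.ofReal w2 :=
    (ENNReal.ofReal_toReal (ts_memLp hW _).eLpNorm_ne_top).symm
  rw [e6, e2, ← ENNReal.ofReal_mul (by positivity)]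
  exact ⟨ENNReal.ofReal_le_ofReal fin1, ENNReal.ofReal_le_ofReal fin2⟩

end Pool.Agent.HK
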