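import Pool.Agent.HK.Spec

/-!
# High modes, part A: Parseval in cylindrical coordinates
-/

open MeasureTheory Set Filter Topology
open scoped ENNReal NNReal InnerProductSpace

namespace Pool.Agent.HK

namespace High

/-- continuous functions on the cylinder, vanishing for large `t` -/
structure TS (G : ℝ × S2 → ℝ) : Prop where
  cont : Continuous G
  supp : ∃ R : ℝ, ∀ p, R < |p.1| → G p = 0

lemma TS.add {G H : ℝ × S2 → ℝ} (hG : TS G) (hH : TS H) : TS (fun p => G p + H p) := by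
  obtain ⟨R, hR⟩ := hG.supp
  obtain ⟨R', hR'⟩ := hH.supp
  refine ⟨hG.cont.add hH.cont, max R R', fun p hp => ?_⟩
  rw [hR p (lt_of_le_of_lt (le_max_left _ _) hp), hR' p (lt_of_le_of_lt (le_max_right _ _) hp),
    add_zero]

lemma TS.sub {G H : ℝ × S2 → ℝ} (hG : TS G) (hH : TS H) : TS (fun p => G p - H p) := by
  obtain ⟨R, hR⟩ := hG.supp
  obtain ⟨R', hR'⟩ := hH.supp
  refine ⟨hG.cont.sub hH.cont, max R R', fun p hp => ?_⟩
  rw [hR p (lt_of_le_of_lt (le_max_left _ _) hp), hR' p (lt_of_le_of_lt (le_max_right _ _) hp),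
    sub_zero]

lemma TS.mul {G H : ℝ × S2 → ℝ} (hG : TS G) (hH : Continuous H) : TS (fun p => G p * H p) := by
  obtain ⟨R, hR⟩ := hG.supp
  exact ⟨hG.cont.mul hH, R, fun p hp => by rw [hR p hp, zero_mul]⟩

lemma compact_supp {U : ℝ → ℝ} (h : ∃ R : ℝ, ∀ t, R < |t| → U t = 0) : HasCompactSupport U := by
  obtain ⟨R, hR⟩ := h
  refine HasCompactSupport.intro (isCompact_Icc (a := -R) (b := R)) ?_
  intro t ht
  apply hR
  by_contra hcon
  exact ht (abs_le.mp (not_lt.mp hcon))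

lemma TS.compact {G : ℝ × S2 → ℝ} (hG : TS G) : HasCompactSupport G := by
  obtain ⟨R, hR⟩ := hG.supp
  refine HasCompactSupport.intro ((isCompact_Icc (a := -R) (b := R)).prod
    (isCompact_univ (X := S2))) ?_
  intro p hp
  apply hR
  by_contra hcon
  exact hp ⟨abs_le.mp (not_lt.mp hcon), Set.mem_univ _⟩

lemma TS.integrable {G : ℝ × S2 → ℝ} (hG : TS G) :
    Integrable G ((volume : Measure ℝ).prod sig) :=
  hG.cont.integrable_of_hasCompactSupport hG.compact

lemma cont_int {G : ℝ × S2 → ℝ} (hG : Continuous G) :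
    Continuous (fun t => ∫ ω, G (t, ω) ∂sig) := by
  have h := continuous_parametric_integral_of_continuous (μ := sig)
    (f := fun (t : ℝ) (ω : S2) => G (t, ω)) (s := Set.univ) (by exact hG) isCompact_univ
  simpa using h

lemma int_supp {G : ℝ × S2 → ℝ} (hG : ∃ R : ℝ, ∀ p, R < |p.1| → G p = 0) :
    ∃ R : ℝ, ∀ t, R < |t| → ∫ ω, G (t, ω) ∂sig = 0 := by
  obtain ⟨R, hR⟩ := hG
  refine ⟨R, fun t ht => ?_⟩
  have : ∀ ω : S2, G (t, ω) = 0 := fun ω => hR (t, ω) ht
  simp [this]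

lemma TS.int_integrable {G : ℝ × S2 → ℝ} (hG : TS G) :
    Integrable (fun t => ∫ ω, G (t, ω) ∂sig) :=
  (cont_int hG.cont).integrable_of_hasCompactSupport (compact_supp (int_supp hG.supp))

lemma sph_cont (Y : SphSystem) (p : Σ j, Fin (Y.d j)) :
    Continuous (fun ω : S2 => Y.Y p.1 p.2 ω) :=
  (Y.smooth p.1 p.2).continuous.comp continuous_subtype_val

lemma s2_integrable {f : S2 → ℝ} (hf : Continuous f) : Integrable f sig :=
  hf.integrable_of_hasCompactSupport (HasCompactSupport.of_compactSpace _)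

/-- coefficient of a function on the sphere -/
noncomputable def cf (Y : SphSystem) (p : Σ j, Fin (Y.d j)) (f : S2 → ℝ) : ℝ :=
  ∫ ω : S2, f ω * Y.Y p.1 p.2 ω ∂sig

lemma cf_int (Y : SphSystem) (p : Σ j, Fin (Y.d j)) {f : S2 → ℝ} (hf : Continuous f) :
    Integrable (fun ω : S2 => f ω * Y.Y p.1 p.2 ω) sig :=
  s2_integrable (hf.mul (sph_cont Y p))

lemma cf_add (Y : SphSystem) (p : Σ j, Fin (Y.d j)) {f g : S2 → ℝ} (hf : Continuous f)
    (hg : Continuous g) : cf Y p (fun ω => f ω + g ω) = cf Y p f + cf Y p g := by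
  have i1 := cf_int Y p hf
  have i2 := cf_int Y p hg
  unfold cf
  rw [← integral_add i1 i2]
  congr 1; funext ω; ring

lemma cf_sub (Y : SphSystem) (p : Σ j, Fin (Y.d j)) {f g : S2 → ℝ} (hf : Continuous f)
    (hg : Continuous g) : cf Y p (fun ω => f ω - g ω) = cf Y p f - cf Y p g := by
  have i1 := cf_int Y p hf
  have i2 := cf_int Y p hg
  unfold cf
  rw [← integral_sub i1 i2]
  congr 1; funext ω; ring

lemma cf_smul (Y : SphSystem) (p : Σ j, Fin (Y.d j)) (c : ℝ) (f : S2 → ℝ) :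
    cf Y p (fun ω => c * f ω) = c * cf Y p f := by
  unfold cf
  rw [← integral_const_mul]
  congr 1; funext ω; ring

lemma parseval (Y : SphSystem) {f g : S2 → ℝ} (hf : Continuous f) (hg : Continuous g) :
    HasSum (fun p : (Σ j, Fin (Y.d j)) => cf Y p f * cf Y p g) (∫ ω, f ω * g ω ∂sig) := by
  have h1 := Y.complete (fun ω => f ω + g ω) (hf.add hg)
  have h2 := Y.complete (fun ω => f ω - g ω) (hf.sub hg)
  have h3 := (h1.sub h2).mul_left (1 / 4 : ℝ)
  have i1 : Integrable (fun ω : S2 => (f ω + g ω) ^ 2) sig := s2_integrable ((hf.add hg).pow 2)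
  have i2 : Integrable (fun ω : S2 => (f ω - g ω) ^ 2) sig := s2_integrable ((hf.sub hg).pow 2)
  have e1 : ∫ ω : S2, (f ω + g ω) ^ 2 ∂sig - ∫ ω : S2, (f ω - g ω) ^ 2 ∂sig
      = 4 * ∫ ω, f ω * g ω ∂sig := by
    rw [← integral_sub i1 i2, ← integral_const_mul]
    congr 1; funext ω; ring
  rw [e1] at h3
  have e2 : (1 / 4 : ℝ) * (4 * ∫ ω, f ω * g ω ∂sig) = ∫ ω, f ω * g ω ∂sig := by ring
  rw [e2] at h3
  have e3 : (fun p : (Σ j, Fin (Y.d j)) => cf Y p f * cf Y p g) = fun i =>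
      (1 / 4 : ℝ) * ((∫ ω : S2, (f ω + g ω) * Y.Y i.1 i.2 ω ∂sig) ^ 2 -
        (∫ ω : S2, (f ω - g ω) * Y.Y i.1 i.2 ω ∂sig) ^ 2) := by
    funext p
    have a1 := cf_add Y p hf hg
    have a2 := cf_sub Y p hf hg
    have b1 : (∫ ω : S2, (f ω + g ω) * Y.Y p.1 p.2 ω ∂sig) = cf Y p f + cf Y p g := a1
    have b2 : (∫ ω : S2, (f ω - g ω) * Y.Y p.1 p.2 ω ∂sig) = cf Y p f - cf Y p g := a2
    rw [b1, b2]; ring
  rw [e3]
  exact h3

/-- coefficient function in `t` -/
noncomputable def ct (Y : SphSystem) (p : Σ j, Fin (Y.d j)) (G : ℝ × S2 → ℝ) (t : ℝ) : ℝ :=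
  cf Y p (fun ω => G (t, ω))

lemma slice_cont {G : ℝ × S2 → ℝ} (hG : Continuous G) (t : ℝ) :
    Continuous (fun ω : S2 => G (t, ω)) := hG.comp (Continuous.prodMk_right t)

lemma ct_cont (Y : SphSystem) (p : Σ j, Fin (Y.d j)) {G : ℝ × S2 → ℝ} (hG : Continuous G) :
    Continuous (ct Y p G) := by
  have h := cont_int (G := fun q : ℝ × S2 => G q * Y.Y p.1 p.2 q.2)
    (hG.mul ((sph_cont Y p).comp continuous_snd))
  exact h

lemma ct_supp (Y : SphSystem) (p : Σ j, Fin (Y.d j)) {G : ℝ × S2 → ℝ}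
    (hG : ∃ R : ℝ, ∀ p, R < |p.1| → G p = 0) : ∃ R : ℝ, ∀ t, R < |t| → ct Y p G t = 0 := by
  obtain ⟨R, hR⟩ := hG
  refine ⟨R, fun t ht => ?_⟩
  have : ∀ ω : S2, G (t, ω) = 0 := fun ω => hR (t, ω) ht
  simp [ct, cf, this]

lemma ct_mul_integrable (Y : SphSystem) (p : Σ j, Fin (Y.d j)) {G H : ℝ × S2 → ℝ}
    (hG : TS G) (hH : TS H) : Integrable (fun t => ct Y p G t * ct Y p H t) := by
  refine Continuous.integrable_of_hasCompactSupport
    ((ct_cont Y p hG.cont).mul (ct_cont Y p hH.cont)) (compact_supp ?_)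
  obtain ⟨R, hR⟩ := ct_supp Y p hG.supp
  exact ⟨R, fun t ht => by rw [hR t ht, zero_mul]⟩

lemma parseval_sq (Y : SphSystem) {G : ℝ × S2 → ℝ} (hG : TS G) :
    HasSum (fun p : (Σ j, Fin (Y.d j)) => ∫ t, ct Y p G t * ct Y p G t)
      (∫ t, ∫ ω, G (t, ω) * G (t, ω) ∂sig) := by
  have hsum : Summable (fun p : (Σ j, Fin (Y.d j)) => ∫ t, ct Y p G t * ct Y p G t) := by
    refine summable_of_sum_le (c := ∫ t, ∫ ω, G (t, ω) * G (t, ω) ∂sig) ?_ ?_
    · intro p
      exact integral_nonneg (fun t => mul_self_nonneg _)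
    · intro u
      rw [← integral_finset_sum u (fun p _ => ct_mul_integrable Y p hG hG)]
      refine integral_mono (integrable_finset_sum u (fun p _ => ct_mul_integrable Y p hG hG))
        ((hG.mul hG.cont).int_integrable) ?_
      intro t
      have hp := parseval Y (slice_cont hG.cont t) (slice_cont hG.cont t)
      exact sum_le_hasSum u (fun p _ => mul_self_nonneg _) hp
  have hn : Summable (fun p : (Σ j, Fin (Y.d j)) => ∫ t, ‖ct Y p G t * ct Y p G t‖) := by
    refine hsum.congr (fun p => ?_)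
    congr 1; funext t
    exact (Real.norm_of_nonneg (mul_self_nonneg _)).symm
  have h := hasSum_integral_of_summable_integral_norm
    (fun p => ct_mul_integrable Y p hG hG) hn
  have e : (∫ t, ∑' p : (Σ j, Fin (Y.d j)), ct Y p G t * ct Y p G t)
      = ∫ t, ∫ ω, G (t, ω) * G (t, ω) ∂sig := by
    congr 1; funext t
    exact (parseval Y (slice_cont hG.cont t) (slice_cont hG.cont t)).tsum_eq
  rw [e] at h
  exact h

lemma ct_add (Y : SphSystem) (p : Σ j, Fin (Y.d j)) {G H : ℝ × S2 → ℝ} (hG : Continuous G)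
    (hH : Continuous H) (t : ℝ) : ct Y p (fun q => G q + H q) t = ct Y p G t + ct Y p H t :=
  cf_add Y p (slice_cont hG t) (slice_cont hH t)

lemma ct_sub (Y : SphSystem) (p : Σ j, Fin (Y.d j)) {G H : ℝ × S2 → ℝ} (hG : Continuous G)
    (hH : Continuous H) (t : ℝ) : ct Y p (fun q => G q - H q) t = ct Y p G t - ct Y p H t :=
  cf_sub Y p (slice_cont hG t) (slice_cont hH t)

lemma parseval_prod (Y : SphSystem) {G H : ℝ × S2 → ℝ} (hG : TS G) (hH : TS H) :
    HasSum (fun p : (Σ j, Fin (Y.d j)) => ∫ t, ct Y p G t * ct Y p H t)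
      (∫ t, ∫ ω, G (t, ω) * H (t, ω) ∂sig) := by
  have h1 := parseval_sq Y (hG.add hH)
  have h2 := parseval_sq Y (hG.sub hH)
  have h3 := (h1.sub h2).mul_left (1 / 4 : ℝ)
  have e1 : (∫ t, ∫ ω, (G (t, ω) + H (t, ω)) * (G (t, ω) + H (t, ω)) ∂sig)
      - (∫ t, ∫ ω, (G (t, ω) - H (t, ω)) * (G (t, ω) - H (t, ω)) ∂sig)
      = 4 * ∫ t, ∫ ω, G (t, ω) * H (t, ω) ∂sig := by
    rw [← integral_sub (((hG.add hH).mul (hG.add hH).cont).int_integrable)
      (((hG.sub hH).mul (hG.sub hH).cont).int_integrable), ← integral_const_mul]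
    congr 1; funext t
    have c1 := slice_cont hG.cont t
    have c2 := slice_cont hH.cont t
    have i1 : Integrable (fun ω : S2 => (G (t, ω) + H (t, ω)) * (G (t, ω) + H (t, ω))) sig :=
      s2_integrable ((c1.add c2).mul (c1.add c2))
    have i2 : Integrable (fun ω : S2 => (G (t, ω) - H (t, ω)) * (G (t, ω) - H (t, ω))) sig :=
      s2_integrable ((c1.sub c2).mul (c1.sub c2))
    rw [← integral_sub i1 i2, ← integral_const_mul]
    congr 1; funext ω; ring
  rw [e1] at h3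
  have e2 : (1 / 4 : ℝ) * (4 * ∫ t, ∫ ω, G (t, ω) * H (t, ω) ∂sig)
      = ∫ t, ∫ ω, G (t, ω) * H (t, ω) ∂sig := by ring
  rw [e2] at h3
  have e3 : (fun p : (Σ j, Fin (Y.d j)) => ∫ t, ct Y p G t * ct Y p H t) = fun i =>
      (1 / 4 : ℝ) * ((∫ t, ct Y i (fun q => G q + H q) t * ct Y i (fun q => G q + H q) t) -
        ∫ t, ct Y i (fun q => G q - H q) t * ct Y i (fun q => G q - H q) t) := by
    funext p
    rw [← integral_sub (ct_mul_integrable Y p (hG.add hH) (hG.add hH))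
      (ct_mul_integrable Y p (hG.sub hH) (hG.sub hH)), ← integral_const_mul]
    congr 1; funext t
    rw [ct_add Y p hG.cont hH.cont, ct_sub Y p hG.cont hH.cont]
    ring
  rw [e3]
  exact h3

end High

end Pool.Agent.HK
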