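import Pool.Agent.HK.HighA

/-!
# High modes, part B: functions on the cylinder and single modes as functions on space
-/

open MeasureTheory Set Filter Topology
open scoped ENNReal NNReal InnerProductSpace

namespace Pool.Agent.HK

namespace High

lemma two_le_top' : (2 : WithTop ℕ∞) ≤ ((⊤ : ℕ∞) : WithTop ℕ∞) := by
  have : ((2 : ℕ∞) : WithTop ℕ∞) ≤ ((⊤ : ℕ∞) : WithTop ℕ∞) := WithTop.coe_le_coe.mpr le_top
  exact this

lemma norm_exp_smul (t : ℝ) (ω : S2) : ‖Real.exp t • (ω : E3)‖ = Real.exp t := by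
  have h : ‖(ω : E3)‖ = 1 := by
    have := ω.2
    rwa [mem_sphere_zero_iff_norm] at this
  rw [norm_smul, h, mul_one, Real.norm_of_nonneg (Real.exp_pos t).le]

lemma exp_smul_ne (t : ℝ) (ω : S2) : Real.exp t • (ω : E3) ≠ 0 := by
  rw [← norm_pos_iff, norm_exp_smul]
  exact Real.exp_pos t

lemma ccoff_exp {F : E3 → ℝ} (hF : CcOff F) :
    ∃ R : ℝ, ∀ (t : ℝ) (ω : S2), R < |t| → F (Real.exp t • (ω : E3)) = 0 := by
  obtain ⟨_, s, R, hs, hR⟩ := hF
  refine ⟨|Real.log s| + |Real.log (max R 1)|, fun t ω ht => ?_⟩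
  apply hR
  rw [norm_exp_smul]
  have hR1 : (0 : ℝ) < max R 1 := lt_of_lt_of_le one_pos (le_max_right _ _)
  rcases lt_or_ge t 0 with h | h
  · left
    rw [abs_of_neg h] at ht
    have h1 : t < Real.log s := by
      have := neg_abs_le (Real.log s)
      have := abs_nonneg (Real.log (max R 1))
      linarith
    calc Real.exp t < Real.exp (Real.log s) := Real.exp_lt_exp.mpr h1
      _ = s := Real.exp_log hs
  · right
    rw [abs_of_nonneg h] at ht
    have h1 : Real.log (max R 1) < t := by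
      have := le_abs_self (Real.log (max R 1))
      have := abs_nonneg (Real.log s)
      linarith
    calc R ≤ max R 1 := le_max_left _ _
      _ = Real.exp (Real.log (max R 1)) := (Real.exp_log hR1).symm
      _ < Real.exp t := Real.exp_lt_exp.mpr h1

lemma cont_exp_smul : Continuous (fun p : ℝ × S2 => Real.exp p.1 • (p.2 : E3)) :=
  (Real.continuous_exp.comp continuous_fst).smul (continuous_subtype_val.comp continuous_snd)

lemma ts_of {F : E3 → ℝ} (hF : CcOff F) {q : ℝ → ℝ} (hq : Continuous q) :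
    TS (fun p : ℝ × S2 => q p.1 * F (Real.exp p.1 • (p.2 : E3))) := by
  obtain ⟨R, hR⟩ := ccoff_exp hF
  refine ⟨(hq.comp continuous_fst).mul (hF.1.comp cont_exp_smul), R, fun p hp => ?_⟩
  rw [hR p.1 p.2 hp, mul_zero]

lemma ts_cyl {F : E3 → ℝ} (hF : CcOff F) (τ : ℕ) (β : ℝ) : TS (cyl τ β F) :=
  ts_of hF (q := fun t => Real.exp ((β - τ) * t)) (by fun_prop)

/-- a single mode as a function on space -/
noncomputable def psi (j : ℕ) (Yf : E3 → ℝ) (v : ℝ → ℝ) (x : E3) : ℝ :=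
  if x = 0 then 0 else Real.exp (-((j : ℝ) + 1 / 2) * Real.log ‖x‖) * v (Real.log ‖x‖) * Yf x

lemma psi_eval (j : ℕ) {Yf : E3 → ℝ} (hh : ∀ (c : ℝ) (x : E3), Yf (c • x) = c ^ j * Yf x)
    (v : ℝ → ℝ) (t : ℝ) (ω : S2) :
    psi j Yf v (Real.exp t • (ω : E3)) = Real.exp (-(t / 2)) * v t * Yf ω := by
  unfold psi
  rw [if_neg (exp_smul_ne t ω), norm_exp_smul, Real.log_exp, hh, ← Real.exp_nat_mul]
  have : Real.exp (-((j : ℝ) + 1 / 2) * t) * Real.exp ((j : ℝ) * t) = Real.exp (-(t / 2)) := by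
    rw [← Real.exp_add]; congr 1; ring
  rw [← this]; ring

lemma psi_zero_of (j : ℕ) (Yf : E3 → ℝ) {v : ℝ → ℝ} {R : ℝ} (hv : ∀ t, R < |t| → v t = 0)
    {x : E3} (hx : ‖x‖ < Real.exp (-|R|) ∨ Real.exp |R| < ‖x‖) : psi j Yf v x = 0 := by
  unfold psi
  split_ifs with h0
  · rfl
  · have hpos : 0 < ‖x‖ := norm_pos_iff.mpr h0
    have : v (Real.log ‖x‖) = 0 := by
      apply hv
      have hR := le_abs_self R
      rcases hx with hx | hx
      · have h1 : Real.log ‖x‖ < -|R| := by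
          rw [← Real.log_exp (-|R|)]
          exact Real.log_lt_log hpos hx
        have := neg_abs_le (Real.log ‖x‖)
        linarith
      · have h1 : |R| < Real.log ‖x‖ := by
          rw [← Real.log_exp |R|]
          exact Real.log_lt_log (Real.exp_pos _) hx
        have := le_abs_self (Real.log ‖x‖)
        linarith
    rw [this, mul_zero, zero_mul]

lemma psi_contDiff (j : ℕ) {Yf : E3 → ℝ} (hY : ContDiff ℝ (⊤ : ℕ∞) Yf) {v : ℝ → ℝ}
    (hv : ContDiff ℝ 2 v) (hs : ∃ R : ℝ, ∀ t, R < |t| → v t = 0) :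
    ContDiff ℝ 2 (psi j Yf v) := by
  obtain ⟨R, hR⟩ := hs
  rw [contDiff_iff_contDiffAt]
  intro x
  by_cases hx : x = 0
  · have h1 : psi j Yf v =ᶠ[𝓝 x] fun _ => (0 : ℝ) := by
      have : ∀ᶠ y in 𝓝 x, ‖y‖ < Real.exp (-|R|) := by
        have hc : Continuous (fun y : E3 => ‖y‖) := continuous_norm
        have h0 : ‖x‖ < Real.exp (-|R|) := by rw [hx, norm_zero]; exact Real.exp_pos _
        exact hc.continuousAt.eventually_lt_const h0
      filter_upwards [this] with y hy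
      exact psi_zero_of j Yf hR (Or.inl hy)
    exact contDiffAt_const.congr_of_eventuallyEq h1
  · have h1 : psi j Yf v =ᶠ[𝓝 x] fun y =>
        Real.exp (-((j : ℝ) + 1 / 2) * Real.log ‖y‖) * v (Real.log ‖y‖) * Yf y := by
      filter_upwards [isOpen_ne.mem_nhds hx] with y hy
      unfold psi
      rw [if_neg hy]
    have hn : ContDiffAt ℝ 2 (fun y : E3 => Real.log ‖y‖) x :=
      (contDiffAt_norm ℝ hx).log (norm_ne_zero_iff.mpr hx)
    have h2 : ContDiffAt ℝ 2 (fun y : E3 => Real.exp (-((j : ℝ) + 1 / 2) * Real.log ‖y‖)) x :=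
      (contDiffAt_const.mul hn).exp
    have h3 : ContDiffAt ℝ 2 (fun y : E3 => v (Real.log ‖y‖)) x :=
      hv.contDiffAt.comp x hn
    have h4 : ContDiffAt ℝ 2 Yf x := (hY.of_le two_le_top').contDiffAt
    exact ((h2.mul h3).mul h4).congr_of_eventuallyEq h1

lemma psi_ccoff (j : ℕ) {Yf : E3 → ℝ} (hY : ContDiff ℝ (⊤ : ℕ∞) Yf) {v : ℝ → ℝ}
    (hv : ContDiff ℝ 2 v) (hs : ∃ R : ℝ, ∀ t, R < |t| → v t = 0) : CcOff (psi j Yf v) := by
  refine ⟨(psi_contDiff j hY hv hs).continuous, ?_⟩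
  obtain ⟨R, hR⟩ := hs
  exact ⟨Real.exp (-|R|), Real.exp |R|, Real.exp_pos _, fun x hx => psi_zero_of j Yf hR hx⟩

lemma ccoff_sub {F G : E3 → ℝ} (hF : CcOff F) (hG : CcOff G) : CcOff (fun x => F x - G x) := by
  obtain ⟨h1, s, R, hs, hR⟩ := hF
  obtain ⟨h2, s', R', hs', hR'⟩ := hG
  refine ⟨h1.sub h2, min s s', max R R', lt_min hs hs', fun x hx => ?_⟩
  change F x - G x = 0
  rcases hx with hx | hx
  · rw [hR x (Or.inl (lt_of_lt_of_le hx (min_le_left _ _))),
      hR' x (Or.inl (lt_of_lt_of_le hx (min_le_right _ _))), sub_zero]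
  · rw [hR x (Or.inr (lt_of_le_of_lt (le_max_left _ _) hx)),
      hR' x (Or.inr (lt_of_le_of_lt (le_max_right _ _) hx)), sub_zero]

lemma ccoff_zero : CcOff (fun _ => (0 : ℝ)) :=
  ⟨continuous_const, 1, 1, one_pos, fun _ _ => rfl⟩

lemma ccoff_add {F G : E3 → ℝ} (hF : CcOff F) (hG : CcOff G) : CcOff (fun x => F x + G x) := by
  obtain ⟨h1, s, R, hs, hR⟩ := hF
  obtain ⟨h2, s', R', hs', hR'⟩ := hG
  refine ⟨h1.add h2, min s s', max R R', lt_min hs hs', fun x hx => ?_⟩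
  change F x + G x = 0
  rcases hx with hx | hx
  · rw [hR x (Or.inl (lt_of_lt_of_le hx (min_le_left _ _))),
      hR' x (Or.inl (lt_of_lt_of_le hx (min_le_right _ _))), add_zero]
  · rw [hR x (Or.inr (lt_of_le_of_lt (le_max_left _ _) hx)),
      hR' x (Or.inr (lt_of_le_of_lt (le_max_right _ _) hx)), add_zero]

lemma ccoff_sum {ι : Type*} (s : Finset ι) {F : ι → E3 → ℝ} (hF : ∀ i ∈ s, CcOff (F i)) :
    CcOff (fun x => ∑ i ∈ s, F i x) := by
  classical
  induction s using Finset.induction_on with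
  | empty => simpa using ccoff_zero
  | insert a s ha ih =>
    simp only [Finset.sum_insert ha]
    exact ccoff_add (hF a (Finset.mem_insert_self _ _))
      (ih (fun i hi => hF i (Finset.mem_insert_of_mem hi)))

lemma ccoff_compact {F : E3 → ℝ} (hF : CcOff F) : HasCompactSupport F := by
  obtain ⟨_, s, R, _, hR⟩ := hF
  refine HasCompactSupport.intro (isCompact_closedBall (0 : E3) R) ?_
  intro x hx
  apply hR
  right
  rw [mem_closedBall_zero_iff] at hx
  exact not_le.mp hx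

/-- The function `|x|^{-τ} u`. -/
lemma ccoff_weight {u : E3 → ℝ} (hu : CcOff u) (hs : ContDiff ℝ (⊤ : ℕ∞) u) (τ : ℕ) :
    ContDiff ℝ 2 (fun x => (‖x‖⁻¹) ^ τ * u x) ∧ CcOff (fun x => (‖x‖⁻¹) ^ τ * u x) := by
  obtain ⟨h1, s, R, hs0, hR⟩ := hu
  have hc : ContDiff ℝ 2 (fun x => (‖x‖⁻¹) ^ τ * u x) := by
    rw [contDiff_iff_contDiffAt]
    intro x
    by_cases hx : x = 0
    · have h2 : (fun x => (‖x‖⁻¹) ^ τ * u x) =ᶠ[𝓝 x] fun _ => (0 : ℝ) := by
        have : ∀ᶠ y in 𝓝 x, ‖y‖ < s := by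
          have hcn : Continuous (fun y : E3 => ‖y‖) := continuous_norm
          have h0 : ‖x‖ < s := by rw [hx, norm_zero]; exact hs0
          exact hcn.continuousAt.eventually_lt_const h0
        filter_upwards [this] with y hy
        rw [hR y (Or.inl hy), mul_zero]
      exact contDiffAt_const.congr_of_eventuallyEq h2
    · have h2 : ContDiffAt ℝ 2 (fun y : E3 => (‖y‖⁻¹) ^ τ) x :=
        (((contDiffAt_norm ℝ hx).inv (norm_ne_zero_iff.mpr hx))).pow τ
      exact h2.mul (hs.of_le two_le_top').contDiffAt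
  refine ⟨hc, hc.continuous, s, R, hs0, fun x hx => ?_⟩
  change (‖x‖⁻¹) ^ τ * u x = 0
  rw [hR x hx, mul_zero]

end High

end Pool.Agent.HK
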