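import Pool.Agent.HK.HighB

/-!
# High modes, part C: energy identities
-/

open MeasureTheory Set Filter Topology
open scoped ENNReal NNReal InnerProductSpace

namespace Pool.Agent.HK

namespace High

lemma nrm2 {α : Type*} [MeasurableSpace α] {μ : Measure α} {f : α → ℝ} (hf : MemLp f 2 μ) :
    eLpNorm f 2 μ = ENNReal.ofReal (Real.sqrt (∫ x, f x ^ 2 ∂μ)) := by
  rw [hf.eLpNorm_eq_integral_rpow_norm (by norm_num) (by norm_num)]
  congr 1
  rw [Real.sqrt_eq_rpow]
  have h1 : (2 : ℝ≥0∞).toReal = 2 := by norm_num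
  rw [h1]
  have h2 : (∫ a, ‖f a‖ ^ (2 : ℝ) ∂μ) = ∫ x, f x ^ 2 ∂μ := by
    congr 1; funext x
    rw [Real.rpow_two, Real.norm_eq_abs, sq_abs]
  rw [h2]
  norm_num

lemma opnorm_le (L : E3 →L[ℝ] ℝ) : ‖L‖ ≤ Real.sqrt (∑ a, (L (ax a)) ^ 2) := by
  refine L.opNorm_le_bound (Real.sqrt_nonneg _) ?_
  intro y
  have h1 : y = ∑ a, y a • ax a := by
    ext i
    simp [ax, Finset.sum_apply, Pi.single_apply]
  have h2 : L y = ∑ a, y a * L (ax a) := by
    conv_lhs => rw [h1]
    rw [map_sum]
    congr 1; funext a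
    rw [map_smul, smul_eq_mul]
  rw [h2, EuclideanSpace.norm_eq, Real.norm_eq_abs, mul_comm, ← Real.sqrt_mul (by positivity)]
  apply Real.abs_le_sqrt
  have h3 := Finset.sum_mul_sq_le_sq_mul_sq Finset.univ (fun a => y a) (fun a => L (ax a))
  simpa using h3

/-- directional derivatives of a twice differentiable function -/
lemma d_contDiff {h : E3 → ℝ} (hh : ContDiff ℝ 2 h) (a : Fin 3) :
    ContDiff ℝ 1 (fun y => fderiv ℝ h y (ax a)) :=
  (hh.fderiv_right (m := 1) (by norm_num)).clm_apply contDiff_const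

lemma d_compact {h : E3 → ℝ} (hc : HasCompactSupport h) (a : Fin 3) :
    HasCompactSupport (fun y => fderiv ℝ h y (ax a)) :=
  hc.fderiv_apply (𝕜 := ℝ) (ax a)

lemma lap_cont {h : E3 → ℝ} (hh : ContDiff ℝ 2 h) : Continuous (lap h) := by
  unfold lap
  refine continuous_finsetSum _ (fun a _ => ?_)
  exact ((d_contDiff hh a).continuous_fderiv (by norm_num)).clm_apply continuous_const

lemma lap_ccoff {h : E3 → ℝ} (hh : ContDiff ℝ 2 h) (hc : CcOff h) :
    CcOff (fun x => - lap h x) := by
  obtain ⟨_, s, R, hs, hR⟩ := hc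
  refine ⟨(lap_cont hh).neg, s, R, hs, fun x hx => ?_⟩
  have hopen : IsOpen {y : E3 | ‖y‖ < s ∨ R < ‖y‖} :=
    (isOpen_lt continuous_norm continuous_const).union
      (isOpen_lt continuous_const continuous_norm)
  have h1 : ∀ y ∈ {y : E3 | ‖y‖ < s ∨ R < ‖y‖}, ∀ a, fderiv ℝ h y (ax a) = 0 := by
    intro y hy a
    have : h =ᶠ[𝓝 y] fun _ => (0 : ℝ) := by
      filter_upwards [hopen.mem_nhds hy] with z hz
      exact hR z hz
    rw [this.fderiv_eq]
    simp
  have h2 : ∀ a, fderiv ℝ (fun y => fderiv ℝ h y (ax a)) x (ax a) = 0 := by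
    intro a
    have : (fun y => fderiv ℝ h y (ax a)) =ᶠ[𝓝 x] fun _ => (0 : ℝ) := by
      filter_upwards [hopen.mem_nhds hx] with z hz
      exact h1 z hz a
    rw [this.fderiv_eq]
    simp
  change - lap h x = 0
  unfold lap
  simp [h2]

lemma energy_R3 {h : E3 → ℝ} (hh : ContDiff ℝ 2 h) (hc : HasCompactSupport h) :
    ∫ x, ∑ a, (fderiv ℝ h x (ax a)) ^ 2 = ∫ x, h x * (- lap h x) := by
  have hc1 : ∀ a, Continuous (fun y => fderiv ℝ h y (ax a)) := fun a =>
    (d_contDiff hh a).continuous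
  have hc2 : ∀ a, Continuous (fun y => fderiv ℝ (fun z => fderiv ℝ h z (ax a)) y (ax a)) :=
    fun a => ((d_contDiff hh a).continuous_fderiv (by norm_num)).clm_apply continuous_const
  have i1 : ∀ a, Integrable (fun x => (fderiv ℝ h x (ax a)) ^ 2) := by
    intro a
    refine ((hc1 a).pow 2).integrable_of_hasCompactSupport ?_
    refine HasCompactSupport.intro (d_compact hc a).isCompact ?_
    intro x hx
    have : fderiv ℝ h x (ax a) = 0 :=
      image_eq_zero_of_notMem_tsupport (f := fun y => fderiv ℝ h y (ax a)) hx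
    change (fderiv ℝ h x (ax a)) ^ 2 = 0
    rw [this]; norm_num
  have i2 : ∀ a, Integrable (fun x => h x * fderiv ℝ (fun z => fderiv ℝ h z (ax a)) x (ax a)) :=
    fun a => (hh.continuous.mul (hc2 a)).integrable_of_hasCompactSupport hc.mul_right
  have i3 : ∀ a, Integrable (fun x => fderiv ℝ h x (ax a) * fderiv ℝ h x (ax a)) := fun a =>
    ((hc1 a).mul (hc1 a)).integrable_of_hasCompactSupport (d_compact hc a).mul_right
  have i4 : ∀ a, Integrable (fun x => h x * fderiv ℝ h x (ax a)) := fun a =>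
    (hh.continuous.mul (hc1 a)).integrable_of_hasCompactSupport hc.mul_right
  have key : ∀ a, ∫ x, h x * fderiv ℝ (fun z => fderiv ℝ h z (ax a)) x (ax a)
      = - ∫ x, fderiv ℝ h x (ax a) * fderiv ℝ h x (ax a) := fun a =>
    integral_mul_fderiv_eq_neg_fderiv_mul_of_integrable (i3 a) (i2 a) (i4 a)
      (fun x _ => (hh.differentiable (by norm_num)).differentiableAt)
      (fun x _ => ((d_contDiff hh a).differentiable (by norm_num)).differentiableAt)
  rw [integral_finsetSum _ (fun a _ => i1 a)]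
  have e : (fun x => h x * (- lap h x)) = fun x => ∑ a, -(h x *
      fderiv ℝ (fun z => fderiv ℝ h z (ax a)) x (ax a)) := by
    funext x
    unfold lap
    rw [Finset.sum_neg_distrib, ← Finset.mul_sum]
    ring
  have i5 : ∀ a, Integrable (fun x => -(h x *
      fderiv ℝ (fun z => fderiv ℝ h z (ax a)) x (ax a))) := fun a => (i2 a).neg
  rw [e, integral_finsetSum _ (fun a _ => i5 a)]
  congr 1; funext a
  rw [integral_neg, key a, neg_neg]
  congr 1; funext x; ring

/-- The Sobolev inequality. -/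
lemma gns : ∃ S : ℝ≥0, ∀ h : E3 → ℝ, ContDiff ℝ 2 h → HasCompactSupport h →
    eLpNorm h 6 volume ≤
      S * ENNReal.ofReal (Real.sqrt (∫ x, ∑ a, (fderiv ℝ h x (ax a)) ^ 2)) := by
  refine ⟨MeasureTheory.SNormLESNormFDerivOfEqConst ℝ (volume : Measure E3) 2, ?_⟩
  intro h hh hc
  have h1 := eLpNorm_le_eLpNorm_fderiv_of_eq (μ := (volume : Measure E3))
    (hh.of_le (by norm_num : (1 : WithTop ℕ∞) ≤ 2)) hc (p := 2) (p' := 6) (by norm_num)
    (by simp [E3]) (by simp [E3]; norm_num)
  have e6 : ((6 : ℝ≥0) : ℝ≥0∞) = 6 := by norm_num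
  have e2 : ((2 : ℝ≥0) : ℝ≥0∞) = 2 := by norm_num
  rw [e6, e2] at h1
  refine h1.trans (mul_le_mul' le_rfl ?_)
  have hc1 : ∀ a, Continuous (fun y => fderiv ℝ h y (ax a)) := fun a =>
    (d_contDiff hh a).continuous
  have hcont : Continuous (fun x => Real.sqrt (∑ a, (fderiv ℝ h x (ax a)) ^ 2)) :=
    Real.continuous_sqrt.comp (continuous_finsetSum _ (fun a _ => (hc1 a).pow 2))
  have hsupp : HasCompactSupport (fun x => Real.sqrt (∑ a, (fderiv ℝ h x (ax a)) ^ 2)) := by
    refine HasCompactSupport.intro (hc.fderiv (𝕜 := ℝ)).isCompact ?_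
    intro x hx
    have : fderiv ℝ h x = 0 := image_eq_zero_of_notMem_tsupport hx
    change Real.sqrt (∑ a, (fderiv ℝ h x (ax a)) ^ 2) = 0
    rw [this]; simp
  have hm : MemLp (fun x => Real.sqrt (∑ a, (fderiv ℝ h x (ax a)) ^ 2)) 2 volume :=
    hcont.memLp_of_hasCompactSupport hsupp
  calc eLpNorm (fderiv ℝ h) 2 volume
      ≤ eLpNorm (fun x => Real.sqrt (∑ a, (fderiv ℝ h x (ax a)) ^ 2)) 2 volume := by
        refine eLpNorm_mono (fun x => ?_)
        rw [Real.norm_of_nonneg (Real.sqrt_nonneg _)]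
        exact opnorm_le _
    _ = ENNReal.ofReal (Real.sqrt (∫ x, ∑ a, (fderiv ℝ h x (ax a)) ^ 2)) := by
        rw [nrm2 hm]
        congr 2
        congr 1; funext x
        rw [Real.sq_sqrt (by positivity)]

/-! ### one dimensional integration by parts -/

lemma ibp {U V : ℝ → ℝ} (hU : ContDiff ℝ 2 U) (hV : ContDiff ℝ 1 V)
    (hVc : HasCompactSupport V) :
    ∫ t, (- deriv (deriv U) t) * V t = ∫ t, deriv U t * deriv V t := by
  have hU1 : ContDiff ℝ 1 (deriv U) := by
    have h2 : ContDiff ℝ ((1 : WithTop ℕ∞) + 1) U := by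
      rw [one_add_one_eq_two]; exact hU
    exact (contDiff_succ_iff_deriv.mp h2).2.2
  have c1 : Continuous (deriv U) := hU1.continuous
  have c2 : Continuous (deriv (deriv U)) := hU1.continuous_deriv (by norm_num)
  have c3 : Continuous (deriv V) := hV.continuous_deriv (by norm_num)
  have h := integral_mul_deriv_eq_deriv_mul_of_integrable (u := V) (v := deriv U)
    (u' := deriv V) (v' := deriv (deriv U))
    (fun x _ => (hV.differentiable (by norm_num)).differentiableAt.hasDerivAt)
    (fun x _ => (hU1.differentiable (by norm_num)).differentiableAt.hasDerivAt)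
    ((hV.continuous.mul c2).integrable_of_hasCompactSupport hVc.mul_right)
    ((c3.mul c1).integrable_of_hasCompactSupport hVc.deriv.mul_right)
    ((hV.continuous.mul c1).integrable_of_hasCompactSupport hVc.mul_right)
  have e1 : ∫ t, (- deriv (deriv U) t) * V t = - ∫ t, V t * deriv (deriv U) t := by
    rw [← integral_neg]
    congr 1; funext t; ring
  rw [e1, h, neg_neg]
  congr 1; funext t; ring

/-- The differential inequality for one mode. -/
lemma mode_ineq {U f : ℝ → ℝ} {ν τ lam : ℝ} (hU : ContDiff ℝ 2 U) (hUc : HasCompactSupport U)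
    (hτ : 0 ≤ τ) (hν : 2 * τ ≤ ν) (hlam : 0 ≤ lam)
    (hode : ∀ t, - deriv (deriv U) t + ν ^ 2 * U t =
      Real.exp (τ * t) * f t - lam * Real.exp (2 * t) * U t) :
    3 / 4 * ∫ t, (deriv (fun s => Real.exp (-(τ * s)) * U s) t ^ 2 +
        ν ^ 2 * (Real.exp (-(τ * t)) * U t) ^ 2) ≤
      ∫ t, f t * (Real.exp (-(τ * t)) * U t) := by
  have hUd : ∀ t, HasDerivAt U (deriv U t) t := fun t =>
    (hU.differentiable (by norm_num)).differentiableAt.hasDerivAt
  have hU1 : ContDiff ℝ 1 (deriv U) := by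
    have h2 : ContDiff ℝ ((1 : WithTop ℕ∞) + 1) U := by
      rw [one_add_one_eq_two]; exact hU
    exact (contDiff_succ_iff_deriv.mp h2).2.2
  have c0 : Continuous U := hU.continuous
  have c1 : Continuous (deriv U) := hU1.continuous
  have c2 : Continuous (deriv (deriv U)) := hU1.continuous_deriv (by norm_num)
  have hd : ∀ t, deriv (fun s => Real.exp (-(τ * s)) * U s) t
      = Real.exp (-(τ * t)) * (deriv U t - τ * U t) := by
    intro t
    have h1 : HasDerivAt (fun s => Real.exp (-(τ * s))) (Real.exp (-(τ * t)) * (-(τ * 1))) t :=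
      (((hasDerivAt_id t).const_mul τ).neg).exp
    have h2 : HasDerivAt (fun s => Real.exp (-(τ * s)) * U s)
      (Real.exp (-(τ * t)) * (-(τ * 1)) * U t + Real.exp (-(τ * t)) * deriv U t) t :=
      h1.mul (hUd t)
    rw [h2.deriv]
    ring
  have hdV : ∀ t, deriv (fun s => Real.exp (-(2 * τ * s)) * U s) t
      = Real.exp (-(2 * τ * t)) * (deriv U t - 2 * τ * U t) := by
    intro t
    have h1 : HasDerivAt (fun s => Real.exp (-(2 * τ * s)))
        (Real.exp (-(2 * τ * t)) * (-(2 * τ * 1))) t :=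
      (((hasDerivAt_id t).const_mul (2 * τ)).neg).exp
    have h2 : HasDerivAt (fun s => Real.exp (-(2 * τ * s)) * U s)
      (Real.exp (-(2 * τ * t)) * (-(2 * τ * 1)) * U t + Real.exp (-(2 * τ * t)) * deriv U t) t :=
      h1.mul (hUd t)
    rw [h2.deriv]
    ring
  have hVc : HasCompactSupport (fun s => Real.exp (-(2 * τ * s)) * U s) := hUc.mul_left
  have hV1 : ContDiff ℝ 1 (fun s => Real.exp (-(2 * τ * s)) * U s) := by
    refine ContDiff.mul (ContDiff.exp ?_) (hU.of_le (by norm_num))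
    fun_prop
  have hib := ibp hU hV1 hVc
  have hexp : ∀ t, Real.exp (-(τ * t)) ^ 2 = Real.exp (-(2 * τ * t)) := by
    intro t
    rw [← Real.exp_nat_mul]; congr 1; push_cast; ring
  have hf : ∀ t, f t = Real.exp (-(τ * t)) *
      (- deriv (deriv U) t + ν ^ 2 * U t + lam * Real.exp (2 * t) * U t) := by
    intro t
    have h1 : Real.exp (-(τ * t)) * Real.exp (τ * t) = 1 := by
      rw [← Real.exp_add]; simp
    have h2 := hode t
    have h3 : - deriv (deriv U) t + ν ^ 2 * U t + lam * Real.exp (2 * t) * U t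
        = Real.exp (τ * t) * f t := by linarith
    rw [h3, ← mul_assoc, h1, one_mul]
  have cE : Continuous (fun t : ℝ => Real.exp (-(τ * t))) := by fun_prop
  have cE2 : Continuous (fun t : ℝ => Real.exp (-(2 * τ * t))) := by fun_prop
  have cE3 : Continuous (fun t : ℝ => Real.exp (2 * t)) := by fun_prop
  have e1 : (fun t => f t * (Real.exp (-(τ * t)) * U t)) = fun t =>
      (- deriv (deriv U) t) * (Real.exp (-(2 * τ * t)) * U t) +
      (ν ^ 2 + lam * Real.exp (2 * t)) * (Real.exp (-(τ * t)) * U t) ^ 2 := by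
    funext t
    rw [hf t, mul_pow, hexp, ← hexp]
    ring
  have i1 : Integrable (fun t => (- deriv (deriv U) t) * (Real.exp (-(2 * τ * t)) * U t)) :=
    (c2.neg.mul (cE2.mul c0)).integrable_of_hasCompactSupport hVc.mul_left
  have hvc : HasCompactSupport (fun t => Real.exp (-(τ * t)) * U t) := hUc.mul_left
  have hvc2 : HasCompactSupport (fun t => (Real.exp (-(τ * t)) * U t) ^ 2) := by
    simp only [sq]; exact hvc.mul_left
  have i2 : Integrable (fun t => (ν ^ 2 + lam * Real.exp (2 * t)) *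
      (Real.exp (-(τ * t)) * U t) ^ 2) :=
    ((continuous_const.add (continuous_const.mul cE3)).mul
      ((cE.mul c0).pow 2)).integrable_of_hasCompactSupport hvc2.mul_left
  have i3 : Integrable (fun t => deriv U t * deriv (fun s => Real.exp (-(2 * τ * s)) * U s) t) := by
    refine (c1.mul (hV1.continuous_deriv (by norm_num))).integrable_of_hasCompactSupport ?_
    exact hVc.deriv.mul_left
  have i4 : Integrable (fun t => deriv (fun s => Real.exp (-(τ * s)) * U s) t ^ 2 +
        ν ^ 2 * (Real.exp (-(τ * t)) * U t) ^ 2) := by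
    have hv1 : ContDiff ℝ 1 (fun s => Real.exp (-(τ * s)) * U s) := by
      refine ContDiff.mul (ContDiff.exp ?_) (hU.of_le (by norm_num))
      fun_prop
    refine Integrable.add ?_ ?_
    · refine ((hv1.continuous_deriv (by norm_num)).pow 2).integrable_of_hasCompactSupport ?_
      have : HasCompactSupport (deriv (fun s => Real.exp (-(τ * s)) * U s)) := hvc.deriv
      have h2 : HasCompactSupport (fun t => deriv (fun s => Real.exp (-(τ * s)) * U s) t *
        deriv (fun s => Real.exp (-(τ * s)) * U s) t) := this.mul_left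
      have e : (fun t => deriv (fun s => Real.exp (-(τ * s)) * U s) t ^ 2) = fun t =>
        deriv (fun s => Real.exp (-(τ * s)) * U s) t *
        deriv (fun s => Real.exp (-(τ * s)) * U s) t := by funext t; ring
      rw [show ((deriv (fun s => Real.exp (-(τ * s)) * U s)) ^ 2) = fun t =>
        deriv (fun s => Real.exp (-(τ * s)) * U s) t *
        deriv (fun s => Real.exp (-(τ * s)) * U s) t from by
          funext t; simp [Pi.pow_apply, sq]]
      exact h2
    · exact (continuous_const.mul ((cE.mul c0).pow 2)).integrable_of_hasCompactSupport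
        hvc2.mul_left
  rw [e1, integral_add i1 i2, hib, ← integral_add i3 i2, ← integral_const_mul]
  refine integral_mono (i4.const_mul _) (i3.add i2) ?_
  intro t
  simp only
  rw [hd, hdV]
  have hE := hexp t
  have hp : 0 ≤ (Real.exp (-(τ * t)) * U t) ^ 2 := sq_nonneg _
  have hl : 0 ≤ lam * Real.exp (2 * t) := mul_nonneg hlam (Real.exp_pos _).le
  have hν2 : τ ^ 2 ≤ ν ^ 2 / 4 := by nlinarith
  have e2 : deriv U t * (Real.exp (-(2 * τ * t)) * (deriv U t - 2 * τ * U t))
      = (Real.exp (-(τ * t)) * (deriv U t - τ * U t)) ^ 2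
        - τ ^ 2 * (Real.exp (-(τ * t)) * U t) ^ 2 := by
    rw [mul_pow, mul_pow, hE]; ring
  rw [e2]
  have h1 : τ ^ 2 * (Real.exp (-(τ * t)) * U t) ^ 2 ≤
      ν ^ 2 / 4 * (Real.exp (-(τ * t)) * U t) ^ 2 := mul_le_mul_of_nonneg_right hν2 hp
  have h2 : 0 ≤ lam * Real.exp (2 * t) * (Real.exp (-(τ * t)) * U t) ^ 2 := mul_nonneg hl hp
  have h3 : 0 ≤ (Real.exp (-(τ * t)) * (deriv U t - τ * U t)) ^ 2 := sq_nonneg _
  nlinarith

end High

end Pool.Agent.HK
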