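import Pool.Agent.HK.Spec

/-!
# Elementary real interpolation of bilinear forms
-/

open MeasureTheory Set Filter Topology
open scoped ENNReal NNReal InnerProductSpace

namespace Pool.Agent.HK

namespace InterpAux

/-! ### Geometric sums -/

theorem summable_geo : Summable (fun k : ℤ => (2 : ℝ)⁻¹ ^ k.natAbs) := by
  apply Summable.of_nat_of_neg
  · simpa using summable_geometric_of_lt_one (r := (2 : ℝ)⁻¹) (by norm_num) (by norm_num)
  · simpa using summable_geometric_of_lt_one (r := (2 : ℝ)⁻¹) (by norm_num) (by norm_num)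

/-- The sum of the two sided geometric series. -/
noncomputable def geo : ℝ := ∑' k : ℤ, (2 : ℝ)⁻¹ ^ k.natAbs

theorem geo_nonneg : 0 ≤ geo := tsum_nonneg fun _ => by positivity

theorem sum_geo_le (N : ℕ) (c : ℤ) :
    ∑ i ∈ Finset.range N, (2 : ℝ)⁻¹ ^ ((i : ℤ) + c).natAbs ≤ geo := by
  have h1 : ∑ i ∈ Finset.range N, (2 : ℝ)⁻¹ ^ ((i : ℤ) + c).natAbs
      = ∑ k ∈ (Finset.range N).image (fun i : ℕ => (i : ℤ) + c), (2 : ℝ)⁻¹ ^ k.natAbs := by
    rw [Finset.sum_image]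
    intro i _ j _ h
    simpa using h
  rw [h1]
  exact summable_geo.sum_le_tsum _ fun _ _ => by positivity

/-! ### Level sets -/

theorem level_sum (y : ℝ) (hy : 0 ≤ y) (a : ℤ) (N : ℕ) :
    ∑ i ∈ Finset.range N, (if (32 : ℝ) ^ (a + i) ≤ y ∧ y < 32 ^ (a + i + 1) then
      (64 : ℝ) ^ (a + i) else 0) ≤
      if (32 : ℝ) ^ a ≤ y ∧ y < 32 ^ (a + N) then y ^ (6 / 5 : ℝ) else 0 := by
  induction N with
  | zero =>
    simp only [Finset.range_zero, Finset.sum_empty]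
    split_ifs
    · positivity
    · exact le_rfl
  | succ N ih =>
    rw [Finset.sum_range_succ]
    rcases lt_or_ge y ((32 : ℝ) ^ (a + N)) with h | h
    · rw [if_neg (c := (32 : ℝ) ^ (a + (N : ℤ)) ≤ y ∧ y < 32 ^ (a + (N : ℤ) + 1))
        (fun h' => absurd h'.1 (not_le.2 h)), add_zero]
      refine ih.trans ?_
      have h2 : y < (32 : ℝ) ^ (a + ((N + 1 : ℕ) : ℤ)) := by
        refine h.trans_le ?_
        apply zpow_le_zpow_right₀ (by norm_num)
        push_cast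
        omega
      by_cases h3 : (32 : ℝ) ^ a ≤ y
      · rw [if_pos ⟨h3, h⟩, if_pos ⟨h3, h2⟩]
      · rw [if_neg (fun h' => h3 h'.1), if_neg (fun h' => h3 h'.1)]
    · rw [if_neg (c := (32 : ℝ) ^ a ≤ y ∧ y < 32 ^ (a + (N : ℤ)))
        (fun h' => absurd h'.2 (not_lt.2 h))] at ih
      have h3 : (32 : ℝ) ^ a ≤ y := by
        refine le_trans ?_ h
        apply zpow_le_zpow_right₀ (by norm_num)
        omega
      have e : a + ((N + 1 : ℕ) : ℤ) = a + N + 1 := by push_cast; ring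
      rw [e]
      by_cases h4 : y < (32 : ℝ) ^ (a + (N : ℤ) + 1)
      · rw [if_pos ⟨h, h4⟩, if_pos ⟨h3, h4⟩]
        have h5 : (64 : ℝ) ^ (a + (N : ℤ)) = ((32 : ℝ) ^ (a + (N : ℤ))) ^ (6 / 5 : ℝ) := by
          have e64 : (64 : ℝ) = (2 : ℝ) ^ (6 : ℝ) := by norm_num
          have e32 : (32 : ℝ) = (2 : ℝ) ^ (5 : ℝ) := by norm_num
          rw [← Real.rpow_intCast, ← Real.rpow_intCast, e64, e32, ← Real.rpow_mul (by norm_num),
            ← Real.rpow_mul (by norm_num), ← Real.rpow_mul (by norm_num)]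
          congr 1
          ring
        have h6 : ((32 : ℝ) ^ (a + (N : ℤ))) ^ (6 / 5 : ℝ) ≤ y ^ (6 / 5 : ℝ) :=
          Real.rpow_le_rpow (by positivity) h (by norm_num)
        linarith
      · rw [if_neg (fun h' => h4 h'.2), if_neg (fun h' => h4 h'.2)]
        linarith

variable {Ω : Type} [MeasurableSpace Ω] {μ : Measure Ω}

/-- The level set `32^k ≤ |f| < 32^(k+1)`. -/
def lev (f : Ω → ℝ) (k : ℤ) : Set Ω := {x | (32 : ℝ) ^ k ≤ |f x| ∧ |f x| < 32 ^ (k + 1)}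

/-- The piece of `f` on a level set. -/
noncomputable def pc (f : Ω → ℝ) (k : ℤ) : Ω → ℝ := indicator (lev f k) f

theorem measurableSet_lev {f : Ω → ℝ} (hf : Measurable f) (k : ℤ) : MeasurableSet (lev f k) := by
  have h : Measurable fun x => |f x| := hf.abs
  exact (measurableSet_le measurable_const h).inter (measurableSet_lt h measurable_const)

theorem BM.indicator {f : Ω → ℝ} (hf : BM f) {s : Set Ω} (hs : MeasurableSet s) :
    BM (s.indicator f) := by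
  obtain ⟨hm, B, hB⟩ := hf
  refine ⟨hm.indicator hs, B, fun x => ?_⟩
  by_cases hx : x ∈ s
  · rw [indicator_of_mem hx]; exact hB x
  · rw [indicator_of_notMem hx, abs_zero]
    exact (abs_nonneg _).trans (hB x)

theorem BM.add {f g : Ω → ℝ} (hf : BM f) (hg : BM g) : BM (f + g) := by
  obtain ⟨hm, B, hB⟩ := hf
  obtain ⟨hm', B', hB'⟩ := hg
  exact ⟨hm.add hm', B + B', fun x => (abs_add_le _ _).trans (add_le_add (hB x) (hB' x))⟩

theorem BM.smul {f : Ω → ℝ} (hf : BM f) (c : ℝ) : BM (c • f) := by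
  obtain ⟨hm, B, hB⟩ := hf
  refine ⟨hm.const_smul c, |c| * B, fun x => ?_⟩
  rw [Pi.smul_apply, smul_eq_mul, abs_mul]
  exact mul_le_mul_of_nonneg_left (hB x) (abs_nonneg _)

theorem BM.zero : BM (0 : Ω → ℝ) := ⟨measurable_const, 0, fun x => by simp⟩

theorem BM.pc {f : Ω → ℝ} (hf : BM f) (k : ℤ) : BM (InterpAux.pc f k) :=
  BM.indicator hf (measurableSet_lev hf.1 k)

theorem BM.integrable [IsFiniteMeasure μ] {f : Ω → ℝ} (hf : BM f) : Integrable f μ := by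
  obtain ⟨hm, B, hB⟩ := hf
  exact Integrable.of_bound hm.aestronglyMeasurable B (ae_of_all _ fun x => by
    rw [Real.norm_eq_abs]; exact hB x)

theorem BM.sq {f : Ω → ℝ} (hf : BM f) : BM (fun x => f x ^ 2) := by
  obtain ⟨hm, B, hB⟩ := hf
  refine ⟨hm.pow_const 2, B ^ 2, fun x => ?_⟩
  rw [abs_pow]
  exact pow_le_pow_left₀ (abs_nonneg _) (hB x) 2

theorem BM.abs {f : Ω → ℝ} (hf : BM f) : BM (fun x => |f x|) := by
  obtain ⟨hm, B, hB⟩ := hf
  refine ⟨hm.abs, B, fun x => ?_⟩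
  rw [abs_abs]
  exact hB x

theorem BM.rpow {f : Ω → ℝ} (hf : BM f) : BM (fun x => |f x| ^ (6 / 5 : ℝ)) := by
  obtain ⟨hm, B, hB⟩ := hf
  refine ⟨hm.abs.pow_const _, B ^ (6 / 5 : ℝ), fun x => ?_⟩
  rw [abs_of_nonneg (Real.rpow_nonneg (abs_nonneg _) _)]
  exact Real.rpow_le_rpow (abs_nonneg _) (hB x) (by norm_num)

omit [MeasurableSpace Ω] in
theorem sum_pc (f : Ω → ℝ) (a : ℤ) (N : ℕ) :
    ∑ i ∈ Finset.range N, pc f (a + i) =
      indicator {x | (32 : ℝ) ^ a ≤ |f x| ∧ |f x| < 32 ^ (a + N)} f := by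
  induction N with
  | zero =>
    simp only [Finset.range_zero, Finset.sum_empty]
    ext x
    rw [indicator_of_notMem]
    · rfl
    · rintro ⟨h1, h2⟩
      simp only [Nat.cast_zero, add_zero] at h2
      linarith
  | succ N ih =>
    rw [Finset.sum_range_succ, ih]
    ext x
    have e : a + ((N + 1 : ℕ) : ℤ) = a + N + 1 := by push_cast; ring
    rw [Pi.add_apply, pc, e]
    have h0 : (32 : ℝ) ^ a ≤ 32 ^ (a + (N : ℤ)) := by
      apply zpow_le_zpow_right₀ (by norm_num)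
      omega
    have h1 : (32 : ℝ) ^ (a + (N : ℤ)) ≤ 32 ^ (a + (N : ℤ) + 1) := by
      apply zpow_le_zpow_right₀ (by norm_num)
      omega
    by_cases h2 : |f x| < (32 : ℝ) ^ (a + (N : ℤ))
    · rw [indicator_of_notMem (s := lev f (a + (N : ℤ)))
        (fun h' => absurd h'.1 (not_le.2 h2)), add_zero]
      by_cases h3 : (32 : ℝ) ^ a ≤ |f x|
      · rw [indicator_of_mem (show x ∈ {x | (32 : ℝ) ^ a ≤ |f x| ∧ |f x| < 32 ^ (a + (N : ℤ))}
          from ⟨h3, h2⟩), indicator_of_mem (show x ∈ {x | (32 : ℝ) ^ a ≤ |f x| ∧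
          |f x| < 32 ^ (a + (N : ℤ) + 1)} from ⟨h3, h2.trans_le h1⟩)]
      · rw [indicator_of_notMem (fun h' => h3 h'.1), indicator_of_notMem (fun h' => h3 h'.1)]
    · rw [indicator_of_notMem (s := {x | (32 : ℝ) ^ a ≤ |f x| ∧ |f x| < 32 ^ (a + (N : ℤ))})
        (fun h' => h2 h'.2), zero_add]
      push Not at h2
      by_cases h4 : |f x| < (32 : ℝ) ^ (a + (N : ℤ) + 1)
      · rw [indicator_of_mem (show x ∈ lev f (a + (N : ℤ)) from ⟨h2, h4⟩),
          indicator_of_mem (show x ∈ {x | (32 : ℝ) ^ a ≤ |f x| ∧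
          |f x| < 32 ^ (a + (N : ℤ) + 1)} from ⟨h0.trans h2, h4⟩)]
      · rw [indicator_of_notMem (fun h' => h4 h'.2), indicator_of_notMem (fun h' => h4 h'.2)]

theorem pc_two [IsFiniteMeasure μ] {f : Ω → ℝ} (hf : BM f) (k : ℤ) :
    ∫ x, pc f k x ^ 2 ∂μ ≤ (32 * 32 ^ k) ^ 2 * μ.real (lev f k) := by
  have h1 : ∫ x, (lev f k).indicator (fun _ => ((32 : ℝ) * 32 ^ k) ^ 2) x ∂μ
      = (32 * 32 ^ k) ^ 2 * μ.real (lev f k) := by
    rw [integral_indicator_const _ (measurableSet_lev hf.1 k), smul_eq_mul, mul_comm]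
  rw [← h1]
  apply integral_mono (BM.integrable (BM.sq (BM.pc hf k)))
    ((integrable_const _).indicator (measurableSet_lev hf.1 k))
  intro x
  by_cases hx : x ∈ lev f k
  · simp only [pc]
    rw [indicator_of_mem hx, indicator_of_mem hx]
    have h2 := hx.2
    rw [zpow_add₀ (by norm_num), zpow_one] at h2
    rw [← sq_abs (f x)]
    apply pow_le_pow_left₀ (abs_nonneg _)
    linarith
  · simp only [pc]
    rw [indicator_of_notMem hx, indicator_of_notMem hx]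
    norm_num

theorem pc_one [IsFiniteMeasure μ] {f : Ω → ℝ} (hf : BM f) (k : ℤ) :
    ∫ x, |pc f k x| ∂μ ≤ (32 * 32 ^ k) * μ.real (lev f k) := by
  have h1 : ∫ x, (lev f k).indicator (fun _ => ((32 : ℝ) * 32 ^ k)) x ∂μ
      = (32 * 32 ^ k) * μ.real (lev f k) := by
    rw [integral_indicator_const _ (measurableSet_lev hf.1 k), smul_eq_mul, mul_comm]
  rw [← h1]
  apply integral_mono (BM.integrable (BM.abs (BM.pc hf k)))
    ((integrable_const _).indicator (measurableSet_lev hf.1 k))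
  intro x
  by_cases hx : x ∈ lev f k
  · simp only [pc]
    rw [indicator_of_mem hx, indicator_of_mem hx]
    have h2 := hx.2
    rw [zpow_add₀ (by norm_num), zpow_one] at h2
    linarith
  · simp only [pc]
    rw [indicator_of_notMem hx, indicator_of_notMem hx]
    norm_num

theorem sum_lev [IsFiniteMeasure μ] {f : Ω → ℝ} (hf : BM f) (a : ℤ) (N : ℕ) :
    ∑ i ∈ Finset.range N, (64 : ℝ) ^ (a + i) * μ.real (lev f (a + i)) ≤
      ∫ x, |f x| ^ (6 / 5 : ℝ) ∂μ := by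
  have h1 : ∀ i : ℕ, (64 : ℝ) ^ (a + (i : ℤ)) * μ.real (lev f (a + i))
      = ∫ x, (lev f (a + i)).indicator (fun _ => (64 : ℝ) ^ (a + (i : ℤ))) x ∂μ := by
    intro i
    rw [integral_indicator_const _ (measurableSet_lev hf.1 _), smul_eq_mul, mul_comm]
  rw [Finset.sum_congr rfl fun i _ => h1 i, ← integral_finsetSum]
  · apply integral_mono _ (BM.integrable (BM.rpow hf))
    · intro x
      have h2 := level_sum |f x| (abs_nonneg _) a N
      refine le_trans (le_of_eq ?_) (h2.trans ?_)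
      · apply Finset.sum_congr rfl
        intro i _
        by_cases hx : x ∈ lev f (a + i)
        · rw [indicator_of_mem hx]
          exact (if_pos (show (32 : ℝ) ^ (a + (i : ℤ)) ≤ |f x| ∧
            |f x| < 32 ^ (a + (i : ℤ) + 1) from hx)).symm
        · rw [indicator_of_notMem hx]
          exact (if_neg (show ¬ ((32 : ℝ) ^ (a + (i : ℤ)) ≤ |f x| ∧
            |f x| < 32 ^ (a + (i : ℤ) + 1)) from hx)).symm
      · split_ifs
        · exact le_rfl
        · exact Real.rpow_nonneg (abs_nonneg _) _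
    · apply integrable_finsetSum
      intro i _
      exact (integrable_const _).indicator (measurableSet_lev hf.1 _)
  · intro i _
    exact (integrable_const _).indicator (measurableSet_lev hf.1 _)

/-! ### The numerical core -/

/-- Either of the two bounds, written with the weights `α`, `β`. -/
theorem pair_le (A₀ A₁ : ℝ) (hA₀ : 0 < A₀) (hA₁ : 0 < A₁) :
    ∃ n : ℤ, ∀ (s : ℤ) (α β V : ℝ), 0 ≤ α → α ≤ 1 → 0 ≤ β → β ≤ 1 →
      V ≤ A₀ * 1024 * 4 ^ s * Real.sqrt (α * β) → V ≤ A₁ * 1024 * (2 ^ s)⁻¹ * (α * β) →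
      V ≤ 1024 * (A₀ ^ (1 / 3 : ℝ) * A₁ ^ (2 / 3 : ℝ)) * ((2 : ℝ)⁻¹ ^ (s + n).natAbs * (α + β)) := by
  set L : ℝ := (A₀ / A₁) ^ (1 / 3 : ℝ) with hL
  have hLpos : 0 < L := Real.rpow_pos_of_pos (div_pos hA₀ hA₁) _
  set P : ℝ := A₀ ^ (1 / 3 : ℝ) * A₁ ^ (2 / 3 : ℝ) with hP
  have hPpos : 0 < P := mul_pos (Real.rpow_pos_of_pos hA₀ _) (Real.rpow_pos_of_pos hA₁ _)
  have hP1 : A₁ * L = P := by
    rw [hL, hP, Real.div_rpow hA₀.le hA₁.le]
    have h1 : A₁ = A₁ ^ (1 / 3 : ℝ) * A₁ ^ (2 / 3 : ℝ) := by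
      rw [← Real.rpow_add hA₁]; norm_num
    have h2 : 0 < A₁ ^ (1 / 3 : ℝ) := Real.rpow_pos_of_pos hA₁ _
    calc A₁ * (A₀ ^ (1 / 3 : ℝ) / A₁ ^ (1 / 3 : ℝ))
        = (A₁ ^ (1 / 3 : ℝ) * A₁ ^ (2 / 3 : ℝ)) * (A₀ ^ (1 / 3 : ℝ) / A₁ ^ (1 / 3 : ℝ)) := by
          rw [← h1]
      _ = A₀ ^ (1 / 3 : ℝ) * A₁ ^ (2 / 3 : ℝ) := by field_simp
  have hL3 : L ^ 3 = A₀ / A₁ := by
    rw [hL, ← Real.rpow_natCast, ← Real.rpow_mul (div_pos hA₀ hA₁).le]
    norm_num
  have hP2 : A₀ = P * L ^ 2 := by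
    rw [← hP1]
    have : A₁ * L * L ^ 2 = A₁ * L ^ 3 := by ring
    rw [this, hL3]
    field_simp
  obtain ⟨n, hn1, hn2⟩ := exists_mem_Ico_zpow (x := L) (y := (2 : ℝ)) hLpos (by norm_num)
  refine ⟨n, fun s α β V hα hα1 hβ hβ1 hX hY => ?_⟩
  have hsq0 : 0 ≤ Real.sqrt (α * β) := Real.sqrt_nonneg _
  have hsq : Real.sqrt (α * β) ≤ (α + β) / 2 := by
    rw [Real.sqrt_le_left (by linarith)]
    nlinarith [sq_nonneg (α - β)]
  have hz : α * β ≤ Real.sqrt (α * β) := by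
    apply Real.le_sqrt_of_sq_le
    have h0 : 0 ≤ α * β := mul_nonneg hα hβ
    have h1 : α * β ≤ 1 := by nlinarith
    nlinarith
  rcases le_or_gt 0 (s + n) with h | h
  · have habs : ((s + n).natAbs : ℤ) = s + n := Int.natAbs_of_nonneg h
    have e1 : (2 : ℝ)⁻¹ ^ (s + n).natAbs = (2 ^ s)⁻¹ * (2 ^ n)⁻¹ := by
      rw [inv_pow, ← zpow_natCast, habs, zpow_add₀ (by norm_num), mul_inv]
    rw [e1]
    refine hY.trans ?_
    have h2s : (0 : ℝ) < (2 ^ s)⁻¹ := by positivity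
    have h2n : (0 : ℝ) < 2 ^ n := by positivity
    have hA1 : A₁ ≤ P * (2 ^ n)⁻¹ := by
      rw [← hP1, le_mul_inv_iff₀ h2n]
      exact mul_le_mul_of_nonneg_left hn1 hA₁.le
    have hz' : α * β ≤ α + β := by linarith
    calc A₁ * 1024 * (2 ^ s)⁻¹ * (α * β)
        ≤ (P * (2 ^ n)⁻¹) * 1024 * (2 ^ s)⁻¹ * (α + β) := by gcongr
      _ = 1024 * P * ((2 ^ s)⁻¹ * (2 ^ n)⁻¹ * (α + β)) := by ring
  · have habs : ((s + n).natAbs : ℤ) = -(s + n) := Int.ofNat_natAbs_of_nonpos h.le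
    have e1 : (2 : ℝ)⁻¹ ^ (s + n).natAbs = 2 ^ (s + n) := by
      rw [inv_pow, ← zpow_natCast, habs, ← zpow_neg, neg_neg]
    rw [e1]
    refine hX.trans ?_
    have h2 : L * 2 ^ s ≤ 2 ^ (s + n + 1) := by
      have : (2 : ℝ) ^ (s + n + 1) = 2 ^ (n + 1) * 2 ^ s := by
        rw [← zpow_add₀ (by norm_num)]
        congr 1
        ring
      rw [this]
      exact mul_le_mul_of_nonneg_right hn2.le (by positivity)
    have h3 : (2 : ℝ) ^ (s + n + 1) ≤ 1 := by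
      apply zpow_le_one_of_nonpos₀ (by norm_num)
      omega
    have h4 : A₀ * 4 ^ s = P * (L * 2 ^ s) ^ 2 := by
      rw [hP2]
      have : (4 : ℝ) ^ s = (2 ^ s) ^ 2 := by
        rw [← zpow_natCast, ← zpow_mul, mul_comm, zpow_mul]
        norm_num
      rw [this]
      ring
    have h5 : (L * 2 ^ s) ^ 2 ≤ 2 * 2 ^ (s + n) := by
      have h6 : 0 ≤ L * 2 ^ s := by positivity
      calc (L * 2 ^ s) ^ 2 ≤ (2 ^ (s + n + 1)) ^ 2 := pow_le_pow_left₀ h6 h2 2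
        _ = 2 ^ (s + n + 1) * 2 ^ (s + n + 1) := by ring
        _ ≤ 1 * 2 ^ (s + n + 1) := mul_le_mul_of_nonneg_right h3 (by positivity)
        _ = 2 * 2 ^ (s + n) := by rw [zpow_add₀ (by norm_num), zpow_one]; ring
    calc A₀ * 1024 * 4 ^ s * Real.sqrt (α * β)
        = 1024 * P * ((L * 2 ^ s) ^ 2 * Real.sqrt (α * β)) := by
          rw [show A₀ * 1024 * 4 ^ s * Real.sqrt (α * β)
            = 1024 * (A₀ * 4 ^ s) * Real.sqrt (α * β) by ring, h4]
          ring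
      _ ≤ 1024 * P * ((2 * 2 ^ (s + n)) * ((α + β) / 2)) := by gcongr
      _ = 1024 * P * (2 ^ (s + n) * (α + β)) := by ring

/-- The hypotheses on the bilinear form. -/
structure Hyp (μ : Measure Ω) (b : (Ω → ℝ) → (Ω → ℝ) → ℝ) (A₀ A₁ : ℝ) : Prop where
  add_left : ∀ f f' g, BM f → BM f' → BM g → b (f + f') g = b f g + b f' g
  add_right : ∀ f g g', BM f → BM g → BM g' → b f (g + g') = b f g + b f g'
  smul_left : ∀ (c : ℝ) f g, BM f → BM g → b (c • f) g = c * b f g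
  smul_right : ∀ (c : ℝ) f g, BM f → BM g → b f (c • g) = c * b f g
  two : ∀ f g, BM f → BM g → |b f g| ≤ A₀ * (∫ x, f x ^ 2 ∂μ) ^ (1 / 2 : ℝ) *
      (∫ x, g x ^ 2 ∂μ) ^ (1 / 2 : ℝ)
  one : ∀ f g, BM f → BM g → |b f g| ≤ A₁ * (∫ x, |f x| ∂μ) * (∫ x, |g x| ∂μ)

variable {b : (Ω → ℝ) → (Ω → ℝ) → ℝ} {A₀ A₁ : ℝ}

theorem BM.sum {F : ℕ → Ω → ℝ} (hF : ∀ i, BM (F i)) (N : ℕ) :
    BM (∑ i ∈ Finset.range N, F i) := by
  induction N with
  | zero => simpa using BM.zero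
  | succ N ih => rw [Finset.sum_range_succ]; exact BM.add ih (hF N)

theorem Hyp.sum_left (h : Hyp μ b A₀ A₁) {F : ℕ → Ω → ℝ} (hF : ∀ i, BM (F i)) {g : Ω → ℝ}
    (hg : BM g) (N : ℕ) :
    b (∑ i ∈ Finset.range N, F i) g = ∑ i ∈ Finset.range N, b (F i) g := by
  induction N with
  | zero =>
    simp only [Finset.range_zero, Finset.sum_empty]
    have := h.smul_left 0 g g hg hg
    rwa [zero_smul, zero_mul] at this
  | succ N ih =>
    rw [Finset.sum_range_succ, Finset.sum_range_succ, h.add_left _ _ _ (BM.sum hF N) (hF N) hg, ih]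

theorem Hyp.sum_right (h : Hyp μ b A₀ A₁) {G : ℕ → Ω → ℝ} (hG : ∀ i, BM (G i)) {f : Ω → ℝ}
    (hf : BM f) (N : ℕ) :
    b f (∑ i ∈ Finset.range N, G i) = ∑ i ∈ Finset.range N, b f (G i) := by
  induction N with
  | zero =>
    simp only [Finset.range_zero, Finset.sum_empty]
    have := h.smul_right 0 f f hf hf
    rwa [zero_smul, zero_mul] at this
  | succ N ih =>
    rw [Finset.sum_range_succ, Finset.sum_range_succ, h.add_right _ _ _ hf (BM.sum hG N) (hG N), ih]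

theorem l2_le [IsFiniteMeasure μ] {h : Ω → ℝ} (hh : BM h) {B : ℝ} (hB0 : 0 ≤ B)
    (hB : ∀ x, |h x| ≤ B) :
    (∫ x, h x ^ 2 ∂μ) ^ (1 / 2 : ℝ) ≤ B * (μ.real univ) ^ (1 / 2 : ℝ) := by
  have h1 : ∫ x, h x ^ 2 ∂μ ≤ B ^ 2 * μ.real univ := by
    calc ∫ x, h x ^ 2 ∂μ ≤ ∫ _x, B ^ 2 ∂μ := by
          apply integral_mono (BM.integrable (BM.sq hh)) (integrable_const _)
          intro x
          simp only
          rw [← sq_abs (h x)]
          exact pow_le_pow_left₀ (abs_nonneg _) (hB x) 2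
      _ = B ^ 2 * μ.real univ := by rw [integral_const, smul_eq_mul, mul_comm]
  have h2 : 0 ≤ ∫ x, h x ^ 2 ∂μ := integral_nonneg fun x => sq_nonneg _
  calc (∫ x, h x ^ 2 ∂μ) ^ (1 / 2 : ℝ) ≤ (B ^ 2 * μ.real univ) ^ (1 / 2 : ℝ) :=
        Real.rpow_le_rpow h2 h1 (by norm_num)
    _ = B * (μ.real univ) ^ (1 / 2 : ℝ) := by
        rw [Real.mul_rpow (sq_nonneg B) measureReal_nonneg, ← Real.sqrt_eq_rpow, Real.sqrt_sq hB0]

theorem pieces_two [IsFiniteMeasure μ] (h : Hyp μ b A₀ A₁) (hA₀ : 0 ≤ A₀) {f g : Ω → ℝ}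
    (hf : BM f) (hg : BM g) (k l : ℤ) :
    |b (pc f k) (pc g l)| ≤ A₀ * 1024 * 4 ^ (k + l) *
      Real.sqrt ((64 ^ k * μ.real (lev f k)) * (64 ^ l * μ.real (lev g l))) := by
  refine (h.two _ _ (BM.pc hf k) (BM.pc hg l)).trans ?_
  rw [← Real.sqrt_eq_rpow, ← Real.sqrt_eq_rpow, mul_assoc, ← Real.sqrt_mul
    (integral_nonneg fun x => sq_nonneg _)]
  have e : A₀ * 1024 * 4 ^ (k + l) *
      Real.sqrt ((64 ^ k * μ.real (lev f k)) * (64 ^ l * μ.real (lev g l))) =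
      A₀ * Real.sqrt ((1024 * 4 ^ (k + l)) ^ 2 * ((64 ^ k * μ.real (lev f k)) *
        (64 ^ l * μ.real (lev g l)))) := by
    rw [Real.sqrt_mul (sq_nonneg _), Real.sqrt_sq (by positivity)]
    ring
  rw [e]
  apply mul_le_mul_of_nonneg_left _ hA₀
  apply Real.sqrt_le_sqrt
  calc (∫ x, pc f k x ^ 2 ∂μ) * ∫ x, pc g l x ^ 2 ∂μ
      ≤ ((32 * 32 ^ k) ^ 2 * μ.real (lev f k)) * ((32 * 32 ^ l) ^ 2 * μ.real (lev g l)) := by
        apply mul_le_mul (pc_two hf k) (pc_two hg l) (integral_nonneg fun x => sq_nonneg _)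
        exact mul_nonneg (sq_nonneg _) measureReal_nonneg
    _ = (1024 * 4 ^ (k + l)) ^ 2 * ((64 ^ k * μ.real (lev f k)) *
        (64 ^ l * μ.real (lev g l))) := by
        have e1 : ∀ k : ℤ, ((32 : ℝ) ^ k) ^ 2 = (4 ^ k) ^ 2 * 64 ^ k := by
          intro k
          have h32 : (32 : ℝ) ^ k = 4 ^ k * 8 ^ k := by rw [← mul_zpow]; norm_num
          have h64 : (64 : ℝ) ^ k = 8 ^ k * 8 ^ k := by rw [← mul_zpow]; norm_num
          rw [h32, h64]
          ring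
        rw [mul_pow, mul_pow, mul_pow, e1 k, e1 l, zpow_add₀ (by norm_num)]
        ring

theorem pieces_one [IsFiniteMeasure μ] (h : Hyp μ b A₀ A₁) (hA₁ : 0 ≤ A₁) {f g : Ω → ℝ}
    (hf : BM f) (hg : BM g) (k l : ℤ) :
    |b (pc f k) (pc g l)| ≤ A₁ * 1024 * (2 ^ (k + l))⁻¹ *
      ((64 ^ k * μ.real (lev f k)) * (64 ^ l * μ.real (lev g l))) := by
  refine (h.one _ _ (BM.pc hf k) (BM.pc hg l)).trans ?_
  rw [mul_assoc]
  have h1 : (∫ x, |pc f k x| ∂μ) * ∫ x, |pc g l x| ∂μ ≤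
      ((32 * 32 ^ k) * μ.real (lev f k)) * ((32 * 32 ^ l) * μ.real (lev g l)) := by
    apply mul_le_mul (pc_one hf k) (pc_one hg l) (integral_nonneg fun x => abs_nonneg _)
    exact mul_nonneg (by positivity) measureReal_nonneg
  refine (mul_le_mul_of_nonneg_left h1 hA₁).trans (le_of_eq ?_)
  have e1 : ∀ k : ℤ, (64 : ℝ) ^ k = 2 ^ k * 32 ^ k := by
    intro k
    rw [← mul_zpow]; norm_num
  have h2 : (0 : ℝ) < 2 ^ k := by positivity
  have h3 : (0 : ℝ) < 2 ^ l := by positivity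
  rw [e1 k, e1 l, zpow_add₀ (by norm_num)]
  field_simp
  ring

theorem normalised [IsFiniteMeasure μ] (h : Hyp μ b A₀ A₁) (hA₀ : 0 < A₀) (hA₁ : 0 < A₁)
    {f g : Ω → ℝ} (hf : BM f) (hg : BM g) (hf1 : ∫ x, |f x| ^ (6 / 5 : ℝ) ∂μ ≤ 1)
    (hg1 : ∫ x, |g x| ^ (6 / 5 : ℝ) ∂μ ≤ 1) :
    |b f g| ≤ 2048 * geo * (A₀ ^ (1 / 3 : ℝ) * A₁ ^ (2 / 3 : ℝ)) := by
  obtain ⟨n, hn⟩ := pair_le A₀ A₁ hA₀ hA₁
  set P : ℝ := A₀ ^ (1 / 3 : ℝ) * A₁ ^ (2 / 3 : ℝ) with hP
  have hPpos : 0 < P := mul_pos (Real.rpow_pos_of_pos hA₀ _) (Real.rpow_pos_of_pos hA₁ _)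
  -- the truncated estimate
  have htr : ∀ (a : ℤ) (N : ℕ), |b (∑ i ∈ Finset.range N, pc f (a + i))
      (∑ j ∈ Finset.range N, pc g (a + j))| ≤ 2048 * geo * P := by
    intro a N
    set α : ℕ → ℝ := fun i => 64 ^ (a + (i : ℤ)) * μ.real (lev f (a + i)) with hα
    set β : ℕ → ℝ := fun i => 64 ^ (a + (i : ℤ)) * μ.real (lev g (a + i)) with hβ
    have hα0 : ∀ i, 0 ≤ α i := fun i => mul_nonneg (by positivity) measureReal_nonneg
    have hβ0 : ∀ i, 0 ≤ β i := fun i => mul_nonneg (by positivity) measureReal_nonneg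
    have hαs : ∑ i ∈ Finset.range N, α i ≤ 1 := (sum_lev hf a N).trans hf1
    have hβs : ∑ i ∈ Finset.range N, β i ≤ 1 := (sum_lev hg a N).trans hg1
    have hα1 : ∀ i ∈ Finset.range N, α i ≤ 1 := fun i hi =>
      (Finset.single_le_sum (f := α) (fun j _ => hα0 j) hi).trans hαs
    have hβ1 : ∀ i ∈ Finset.range N, β i ≤ 1 := fun i hi =>
      (Finset.single_le_sum (f := β) (fun j _ => hβ0 j) hi).trans hβs
    rw [h.sum_left (fun i => BM.pc hf _) (BM.sum (fun j => BM.pc hg _) N)]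
    have e1 : ∀ i ∈ Finset.range N, b (pc f (a + i)) (∑ j ∈ Finset.range N, pc g (a + j)) =
        ∑ j ∈ Finset.range N, b (pc f (a + i)) (pc g (a + j)) := fun i _ =>
      h.sum_right (fun j => BM.pc hg _) (BM.pc hf _) N
    rw [Finset.sum_congr rfl e1]
    have hpt : ∀ i ∈ Finset.range N, ∀ j ∈ Finset.range N,
        |b (pc f (a + i)) (pc g (a + j))| ≤
          1024 * P * ((2 : ℝ)⁻¹ ^ ((i : ℤ) + ((j : ℤ) + (2 * a + n))).natAbs * (α i + β j)) := by
      intro i hi j hj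
      have h1 := hn ((a + i) + (a + j)) (α i) (β j) _ (hα0 i) (hα1 i hi) (hβ0 j) (hβ1 j hj)
        (pieces_two h hA₀.le hf hg (a + i) (a + j)) (pieces_one h hA₁.le hf hg (a + i) (a + j))
      have e2 : (a + (i : ℤ)) + (a + j) + n = (i : ℤ) + ((j : ℤ) + (2 * a + n)) := by ring
      rw [e2] at h1
      exact h1
    calc |∑ i ∈ Finset.range N, ∑ j ∈ Finset.range N, b (pc f (a + i)) (pc g (a + j))|
        ≤ ∑ i ∈ Finset.range N, ∑ j ∈ Finset.range N, |b (pc f (a + i)) (pc g (a + j))| :=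
          (Finset.abs_sum_le_sum_abs _ _).trans
            (Finset.sum_le_sum fun i _ => Finset.abs_sum_le_sum_abs _ _)
      _ ≤ ∑ i ∈ Finset.range N, ∑ j ∈ Finset.range N, 1024 * P *
          ((2 : ℝ)⁻¹ ^ ((i : ℤ) + ((j : ℤ) + (2 * a + n))).natAbs * (α i + β j)) :=
          Finset.sum_le_sum fun i hi => Finset.sum_le_sum fun j hj => hpt i hi j hj
      _ = 1024 * P * ((∑ i ∈ Finset.range N, α i * ∑ j ∈ Finset.range N,
            (2 : ℝ)⁻¹ ^ ((j : ℤ) + ((i : ℤ) + (2 * a + n))).natAbs)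
          + ∑ j ∈ Finset.range N, β j * ∑ i ∈ Finset.range N,
            (2 : ℝ)⁻¹ ^ ((i : ℤ) + ((j : ℤ) + (2 * a + n))).natAbs) := by
          have e3 : ∀ i j : ℕ, ((i : ℤ) + ((j : ℤ) + (2 * a + n))) =
              ((j : ℤ) + ((i : ℤ) + (2 * a + n))) := fun i j => by ring
          have e4 : ∑ j ∈ Finset.range N, β j * ∑ i ∈ Finset.range N,
              (2 : ℝ)⁻¹ ^ ((i : ℤ) + ((j : ℤ) + (2 * a + n))).natAbs
              = ∑ i ∈ Finset.range N, ∑ j ∈ Finset.range N, β j *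
                (2 : ℝ)⁻¹ ^ ((i : ℤ) + ((j : ℤ) + (2 * a + n))).natAbs := by
            rw [Finset.sum_comm]
            exact Finset.sum_congr rfl fun j _ => Finset.mul_sum _ _ _
          rw [e4, ← Finset.sum_add_distrib, Finset.mul_sum]
          apply Finset.sum_congr rfl
          intro i _
          rw [Finset.mul_sum, ← Finset.sum_add_distrib, Finset.mul_sum]
          apply Finset.sum_congr rfl
          intro j _
          rw [e3 i j]
          ring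
      _ ≤ 1024 * P * ((∑ i ∈ Finset.range N, α i * geo) + ∑ j ∈ Finset.range N, β j * geo) := by
          apply mul_le_mul_of_nonneg_left _ (by positivity)
          apply add_le_add
          · exact Finset.sum_le_sum fun i _ =>
              mul_le_mul_of_nonneg_left (sum_geo_le N _) (hα0 i)
          · exact Finset.sum_le_sum fun i _ =>
              mul_le_mul_of_nonneg_left (sum_geo_le N _) (hβ0 i)
      _ ≤ 1024 * P * (1 * geo + 1 * geo) := by
          apply mul_le_mul_of_nonneg_left _ (by positivity)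
          rw [← Finset.sum_mul, ← Finset.sum_mul]
          exact add_le_add (mul_le_mul_of_nonneg_right hαs geo_nonneg)
            (mul_le_mul_of_nonneg_right hβs geo_nonneg)
      _ = 2048 * geo * P := by ring
  obtain ⟨hfm, Bf, hBf⟩ := hf
  obtain ⟨hgm, Bg, hBg⟩ := hg
  have hf : BM f := ⟨hfm, Bf, hBf⟩
  have hg : BM g := ⟨hgm, Bg, hBg⟩
  set B : ℝ := max (max Bf Bg) 0 with hB
  have hB0 : 0 ≤ B := le_max_right _ _
  have hBf' : ∀ x, |f x| ≤ B := fun x => (hBf x).trans ((le_max_left _ _).trans (le_max_left _ _))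
  have hBg' : ∀ x, |g x| ≤ B := fun x => (hBg x).trans ((le_max_right _ _).trans (le_max_left _ _))
  set M0 : ℝ := (μ.real univ) ^ (1 / 2 : ℝ) with hM0
  have hM00 : 0 ≤ M0 := Real.rpow_nonneg measureReal_nonneg _
  have key : ∀ M : ℕ, |b f g| ≤ 2048 * geo * P + (32 : ℝ)⁻¹ ^ M * (2 * A₀ * B * M0 ^ 2) := by
    intro M
    set a : ℤ := -(M : ℤ) with ha
    have ha32 : (32 : ℝ) ^ a = (32 : ℝ)⁻¹ ^ M := by
      rw [ha, zpow_neg, zpow_natCast, inv_pow]
    obtain ⟨N, hN⟩ : ∃ N : ℕ, B < (32 : ℝ) ^ (a + (N : ℤ)) := by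
      obtain ⟨N0, hN0⟩ := pow_unbounded_of_one_lt B (by norm_num : (1 : ℝ) < 32)
      refine ⟨N0 + M, ?_⟩
      have : a + ((N0 + M : ℕ) : ℤ) = N0 := by rw [ha]; push_cast; ring
      rw [this, zpow_natCast]
      exact hN0
    -- the splitting of a function
    have hsplit : ∀ q : Ω → ℝ, BM q → (∀ x, |q x| ≤ B) →
        BM (fun x => q x - (∑ i ∈ Finset.range N, pc q (a + i)) x) ∧
        (∀ x, |q x - (∑ i ∈ Finset.range N, pc q (a + i)) x| ≤ (32 : ℝ) ^ a) ∧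
        (∀ x, |(∑ i ∈ Finset.range N, pc q (a + i)) x| ≤ B) := by
      intro q hq hqB
      have h1 : ∀ x, (∑ i ∈ Finset.range N, pc q (a + i)) x =
          if (32 : ℝ) ^ a ≤ |q x| then q x else 0 := by
        intro x
        rw [sum_pc]
        by_cases h2 : (32 : ℝ) ^ a ≤ |q x|
        · rw [indicator_of_mem (show x ∈ {x | (32 : ℝ) ^ a ≤ |q x| ∧
            |q x| < 32 ^ (a + (N : ℤ))} from ⟨h2, (hqB x).trans_lt hN⟩), if_pos h2]
        · rw [indicator_of_notMem (fun h' => h2 h'.1), if_neg h2]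
      refine ⟨?_, ?_, ?_⟩
      · have h3 : (fun x => q x - (∑ i ∈ Finset.range N, pc q (a + i)) x) =
            q + (-1 : ℝ) • (∑ i ∈ Finset.range N, pc q (a + i)) := by
          ext x
          simp only [Pi.add_apply, Pi.smul_apply, smul_eq_mul]
          ring
        rw [h3]
        exact BM.add hq (BM.smul (BM.sum (fun i => BM.pc hq _) N) _)
      · intro x
        rw [h1 x]
        split_ifs with h2
        · rw [sub_self, abs_zero]; positivity
        · push Not at h2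
          rw [sub_zero]; exact h2.le
      · intro x
        rw [h1 x]
        split_ifs with h2
        · exact hqB x
        · rw [abs_zero]; exact hB0
    obtain ⟨hfl, hfl1, hfc⟩ := hsplit f hf hBf'
    obtain ⟨hgl, hgl1, -⟩ := hsplit g hg hBg'
    set fc : Ω → ℝ := ∑ i ∈ Finset.range N, pc f (a + i) with hfcdef
    set gc : Ω → ℝ := ∑ i ∈ Finset.range N, pc g (a + i) with hgcdef
    have hfcB : BM fc := BM.sum (fun i => BM.pc hf _) N
    have hgcB : BM gc := BM.sum (fun i => BM.pc hg _) N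
    have ef : f = fc + fun x => f x - fc x := by ext x; simp
    have eg : g = gc + fun x => g x - gc x := by ext x; simp
    have e5 : b f g = b fc gc + b fc (fun x => g x - gc x) + b (fun x => f x - fc x) g := by
      have h1 : b f g = b fc g + b (fun x => f x - fc x) g := by
        conv_lhs => rw [ef]
        exact h.add_left _ _ _ hfcB hfl hg
      have h2 : b fc g = b fc gc + b fc (fun x => g x - gc x) := by
        conv_lhs => rw [eg]
        exact h.add_right _ _ _ hfcB hgcB hgl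
      rw [h1, h2]
    have h32 : (0 : ℝ) ≤ 32 ^ a := by positivity
    have n1 : |b fc (fun x => g x - gc x)| ≤ A₀ * (B * M0) * (32 ^ a * M0) := by
      refine (h.two _ _ hfcB hgl).trans ?_
      apply mul_le_mul
      · exact mul_le_mul_of_nonneg_left (l2_le hfcB hB0 hfc) hA₀.le
      · exact l2_le hgl h32 hgl1
      · exact Real.rpow_nonneg (integral_nonneg fun x => sq_nonneg _) _
      · positivity
    have n2 : |b (fun x => f x - fc x) g| ≤ A₀ * (32 ^ a * M0) * (B * M0) := by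
      refine (h.two _ _ hfl hg).trans ?_
      apply mul_le_mul
      · exact mul_le_mul_of_nonneg_left (l2_le hfl h32 hfl1) hA₀.le
      · exact l2_le hg hB0 hBg'
      · exact Real.rpow_nonneg (integral_nonneg fun x => sq_nonneg _) _
      · positivity
    have n3 := htr a N
    rw [← hfcdef, ← hgcdef] at n3
    rw [e5, ← ha32]
    have n4 := abs_add_three (b fc gc) (b fc (fun x => g x - gc x)) (b (fun x => f x - fc x) g)
    calc |b fc gc + b fc (fun x => g x - gc x) + b (fun x => f x - fc x) g|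
        ≤ 2048 * geo * P + A₀ * (B * M0) * (32 ^ a * M0) + A₀ * (32 ^ a * M0) * (B * M0) := by
          linarith
      _ = 2048 * geo * P + 32 ^ a * (2 * A₀ * B * M0 ^ 2) := by ring
  have hlim : Tendsto (fun M : ℕ => 2048 * geo * P + (32 : ℝ)⁻¹ ^ M * (2 * A₀ * B * M0 ^ 2))
      atTop (𝓝 (2048 * geo * P + 0 * (2 * A₀ * B * M0 ^ 2))) :=
    ((tendsto_pow_atTop_nhds_zero_of_lt_one (by norm_num) (by norm_num)).mul_const _).const_add _
  have := ge_of_tendsto' hlim key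
  linarith

/-- The main estimate. -/
theorem main [IsFiniteMeasure μ] (h : Hyp μ b A₀ A₁) (hA₀ : 0 ≤ A₀) (hA₁ : 0 ≤ A₁)
    {f g : Ω → ℝ} (hf : BM f) (hg : BM g) :
    |b f g| ≤ (2048 * geo + 1) * A₀ ^ (1 / 3 : ℝ) * A₁ ^ (2 / 3 : ℝ) *
      (∫ x, |f x| ^ (6 / 5 : ℝ) ∂μ) ^ (5 / 6 : ℝ) *
      (∫ x, |g x| ^ (6 / 5 : ℝ) ∂μ) ^ (5 / 6 : ℝ) := by
  have hgeo := geo_nonneg
  set If : ℝ := ∫ x, |f x| ^ (6 / 5 : ℝ) ∂μ with hIf
  set Ig : ℝ := ∫ x, |g x| ^ (6 / 5 : ℝ) ∂μ with hIg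
  have hIf0 : 0 ≤ If := integral_nonneg fun x => Real.rpow_nonneg (abs_nonneg _) _
  have hIg0 : 0 ≤ Ig := integral_nonneg fun x => Real.rpow_nonneg (abs_nonneg _) _
  have hrhs : 0 ≤ (2048 * geo + 1) * A₀ ^ (1 / 3 : ℝ) * A₁ ^ (2 / 3 : ℝ) *
      If ^ (5 / 6 : ℝ) * Ig ^ (5 / 6 : ℝ) := by positivity
  -- a function with vanishing norm
  have hzero : ∀ q : Ω → ℝ, BM q → ∫ x, |q x| ^ (6 / 5 : ℝ) ∂μ = 0 →
      (∫ x, q x ^ 2 ∂μ) ^ (1 / 2 : ℝ) = 0 := by
    intro q hq h0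
    rw [integral_eq_zero_iff_of_nonneg (fun x => Real.rpow_nonneg (abs_nonneg _) _)
      (BM.integrable (BM.rpow hq))] at h0
    have h1 : ∫ x, q x ^ 2 ∂μ = 0 := by
      rw [integral_eq_zero_iff_of_nonneg (fun x => sq_nonneg _) (BM.integrable (BM.sq hq))]
      filter_upwards [h0] with x hx
      simp only [Pi.zero_apply] at hx ⊢
      rw [Real.rpow_eq_zero (abs_nonneg _) (by norm_num), abs_eq_zero] at hx
      rw [hx]; norm_num
    rw [h1, Real.zero_rpow (by norm_num)]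
  rcases hA₀.eq_or_lt with h0 | hA₀'
  · refine le_trans ?_ hrhs
    have := h.two f g hf hg
    rw [← h0, zero_mul, zero_mul] at this
    exact this
  rcases hA₁.eq_or_lt with h0 | hA₁'
  · refine le_trans ?_ hrhs
    have := h.one f g hf hg
    rw [← h0, zero_mul, zero_mul] at this
    exact this
  rcases hIf0.eq_or_lt with h0 | hIf'
  · refine le_trans ?_ hrhs
    have := h.two f g hf hg
    rw [hzero f hf h0.symm, mul_zero, zero_mul] at this
    exact this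
  rcases hIg0.eq_or_lt with h0 | hIg'
  · refine le_trans ?_ hrhs
    have := h.two f g hf hg
    rw [hzero g hg h0.symm, mul_zero] at this
    exact this
  -- normalise
  have hnorm : ∀ q : Ω → ℝ, 0 < ∫ x, |q x| ^ (6 / 5 : ℝ) ∂μ →
      ∫ x, |(((∫ x, |q x| ^ (6 / 5 : ℝ) ∂μ) ^ (5 / 6 : ℝ))⁻¹ • q) x| ^ (6 / 5 : ℝ) ∂μ ≤ 1 := by
    intro q hq
    set I : ℝ := ∫ x, |q x| ^ (6 / 5 : ℝ) ∂μ with hI
    have h1 : ∀ x, |((I ^ (5 / 6 : ℝ))⁻¹ • q) x| ^ (6 / 5 : ℝ) = I⁻¹ * |q x| ^ (6 / 5 : ℝ) := by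
      intro x
      rw [Pi.smul_apply, smul_eq_mul, abs_mul, Real.mul_rpow (abs_nonneg _) (abs_nonneg _),
        abs_of_nonneg (inv_nonneg.2 (Real.rpow_nonneg hq.le _)), Real.inv_rpow
        (Real.rpow_nonneg hq.le _), ← Real.rpow_mul hq.le]
      norm_num
    simp_rw [h1]
    rw [integral_const_mul, ← hI, inv_mul_cancel₀ hq.ne']
  set cf : ℝ := If ^ (5 / 6 : ℝ) with hcf
  set cg : ℝ := Ig ^ (5 / 6 : ℝ) with hcg
  have hcf0 : 0 < cf := Real.rpow_pos_of_pos hIf' _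
  have hcg0 : 0 < cg := Real.rpow_pos_of_pos hIg' _
  have h1 := normalised h hA₀' hA₁' (BM.smul hf cf⁻¹) (BM.smul hg cg⁻¹) (hnorm f hIf')
    (hnorm g hIg')
  rw [h.smul_left _ _ _ hf (BM.smul hg _), h.smul_right _ _ _ hf hg, abs_mul, abs_mul,
    abs_of_pos (inv_pos.2 hcf0), abs_of_pos (inv_pos.2 hcg0)] at h1
  have h2 : |b f g| ≤ 2048 * geo * (A₀ ^ (1 / 3 : ℝ) * A₁ ^ (2 / 3 : ℝ)) * cf * cg := by
    have h3 : |b f g| = cf * cg * (cf⁻¹ * (cg⁻¹ * |b f g|)) := by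
      field_simp
    rw [h3]
    calc cf * cg * (cf⁻¹ * (cg⁻¹ * |b f g|))
        ≤ cf * cg * (2048 * geo * (A₀ ^ (1 / 3 : ℝ) * A₁ ^ (2 / 3 : ℝ))) :=
          mul_le_mul_of_nonneg_left h1 (by positivity)
      _ = 2048 * geo * (A₀ ^ (1 / 3 : ℝ) * A₁ ^ (2 / 3 : ℝ)) * cf * cg := by ring
  refine h2.trans ?_
  have h4 : 0 ≤ A₀ ^ (1 / 3 : ℝ) * A₁ ^ (2 / 3 : ℝ) * cf * cg := by positivity
  calc 2048 * geo * (A₀ ^ (1 / 3 : ℝ) * A₁ ^ (2 / 3 : ℝ)) * cf * cg
      = 2048 * geo * (A₀ ^ (1 / 3 : ℝ) * A₁ ^ (2 / 3 : ℝ) * cf * cg) := by ring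
    _ ≤ (2048 * geo + 1) * (A₀ ^ (1 / 3 : ℝ) * A₁ ^ (2 / 3 : ℝ) * cf * cg) := by
        apply mul_le_mul_of_nonneg_right _ h4
        linarith
    _ = (2048 * geo + 1) * A₀ ^ (1 / 3 : ℝ) * A₁ ^ (2 / 3 : ℝ) * cf * cg := by ring

end InterpAux

/-- JOB IN. -/
theorem target_Interp : Target_Interp := by
  refine ⟨2048 * InterpAux.geo + 1, by have := InterpAux.geo_nonneg; positivity, ?_⟩
  intro Ω _ μ _ b A₀ A₁ hA₀ hA₁ h1 h2 h3 h4 h5 h6 f g hf hg
  exact InterpAux.main ⟨h1, h2, h3, h4, h5, h6⟩ hA₀ hA₁ hf hg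

end Pool.Agent.HK
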