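import Pool.Agent.HK.Spec

/-!
# Kernels for the low modes (job KE2)
-/

open MeasureTheory Set Filter Topology
open scoped ENNReal NNReal

namespace Pool.Agent.HK.Ker

/-- The rate `α(t) = √(ν² + λ e^{2t})`. -/
noncomputable def al (ν lam t : ℝ) : ℝ := Real.sqrt (ν ^ 2 + lam * Real.exp (2 * t))

section al

variable {ν lam : ℝ}

theorem al_arg_pos (hν : 0 < ν) (hl : 0 ≤ lam) (t : ℝ) :
    0 < ν ^ 2 + lam * Real.exp (2 * t) := by
  have := pow_pos hν 2
  positivity

theorem al_sq (hν : 0 < ν) (hl : 0 ≤ lam) (t : ℝ) :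
    al ν lam t ^ 2 = ν ^ 2 + lam * Real.exp (2 * t) :=
  Real.sq_sqrt (al_arg_pos hν hl t).le

theorem al_pos (hν : 0 < ν) (hl : 0 ≤ lam) (t : ℝ) : 0 < al ν lam t :=
  Real.sqrt_pos.2 (al_arg_pos hν hl t)

theorem le_al (hν : 0 < ν) (hl : 0 ≤ lam) (t : ℝ) : ν ≤ al ν lam t :=
  Real.le_sqrt_of_sq_le (by have : 0 ≤ lam * Real.exp (2 * t) := by positivity
                            linarith)

theorem al_mono (hl : 0 ≤ lam) {s t : ℝ} (hst : s ≤ t) : al ν lam s ≤ al ν lam t := by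
  unfold al
  gcongr

theorem continuous_al : Continuous (al ν lam) := by
  unfold al
  fun_prop

theorem al_hasDerivAt (hν : 0 < ν) (hl : 0 ≤ lam) (t : ℝ) :
    HasDerivAt (al ν lam) (lam * Real.exp (2 * t) / al ν lam t) t := by
  have h1 : HasDerivAt (fun t => ν ^ 2 + lam * Real.exp (2 * t))
      (lam * (Real.exp (2 * t) * 2)) t := by
    have h2 : HasDerivAt (fun t : ℝ => 2 * t) 2 t := by
      simpa using (hasDerivAt_id t).const_mul (2 : ℝ)
    exact (h2.exp.const_mul lam).const_add (ν ^ 2)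
  have h3 := h1.sqrt (al_arg_pos hν hl t).ne'
  refine h3.congr_deriv ?_
  have := (al_pos hν hl t).ne'
  unfold al at *
  field_simp

/-- Going back by `δ ≤ 1` decreases the rate by a factor `3` at most. -/
theorem al_back (hν : 0 < ν) (hl : 0 ≤ lam) {s t : ℝ} (h1 : t ≤ s + 1) :
    al ν lam t ≤ 3 * al ν lam s := by
  have h2 : al ν lam t ^ 2 ≤ (3 * al ν lam s) ^ 2 := by
    rw [mul_pow, al_sq hν hl, al_sq hν hl]
    have h3 : Real.exp (2 * t) ≤ 9 * Real.exp (2 * s) := by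
      have h4 : Real.exp (2 * t) ≤ Real.exp (2 * s + 2) := Real.exp_le_exp.2 (by linarith)
      have h5 : Real.exp 2 ≤ 9 := by
        have h6 : Real.exp 2 = Real.exp 1 ^ 2 := by rw [← Real.exp_nat_mul]; norm_num
        have h7 := Real.exp_one_lt_d9
        have h8 := Real.exp_pos 1
        rw [h6]
        nlinarith
      rw [Real.exp_add] at h4
      nlinarith [Real.exp_pos (2 * s)]
    nlinarith [sq_nonneg ν]
  have h3 := al_pos hν hl s
  exact le_of_sq_le_sq h2 (by positivity)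

/-- If `α(t) ≥ τ > ν` then `α(t + 1/2) ≥ τ + (τ-ν)/2`. -/
theorem al_fwd (hν : 0 < ν) (hl : 0 ≤ lam) {τ t : ℝ} (hτ : ν ≤ τ) (h : τ ≤ al ν lam t) :
    τ + (τ - ν) / 2 ≤ al ν lam (t + 1 / 2) := by
  have hτ0 : 0 ≤ τ := by linarith
  have h1 : τ ^ 2 ≤ ν ^ 2 + lam * Real.exp (2 * t) := by
    rw [← al_sq hν hl]
    gcongr
  unfold al
  apply Real.le_sqrt_of_sq_le
  have h2 : Real.exp (2 * (t + 1 / 2)) = Real.exp (2 * t) * Real.exp 1 := by
    rw [← Real.exp_add]; ring_nf
  have h3 : (9 / 4 : ℝ) ≤ Real.exp 1 := by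
    have := Real.exp_one_gt_d9
    linarith
  have h4 : 0 ≤ lam * Real.exp (2 * t) := by positivity
  rw [h2]
  have h5 : (τ ^ 2 - ν ^ 2) * (9 / 4) ≤ lam * (Real.exp (2 * t) * Real.exp 1) := by
    have : lam * (Real.exp (2 * t) * Real.exp 1) = (lam * Real.exp (2 * t)) * Real.exp 1 := by
      ring
    rw [this]
    have h6 : 0 ≤ τ ^ 2 - ν ^ 2 := by nlinarith
    nlinarith
  nlinarith

/-- If `α(t) ≤ τ` then `α(t - 1/2) ≤ τ - 3(τ-ν)/10`. -/
theorem al_bwd (hν : 0 < ν) (hl : 0 ≤ lam) {τ t : ℝ} (h : al ν lam t ≤ τ) :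
    al ν lam (t - 1 / 2) ≤ τ - 3 / 10 * (τ - ν) := by
  have h0 := le_al hν hl t
  have h1 : ν ^ 2 + lam * Real.exp (2 * t) ≤ τ ^ 2 := by
    rw [← al_sq hν hl]
    have := al_pos hν hl t
    gcongr
  unfold al
  apply Real.sqrt_le_iff.2
  refine ⟨by nlinarith, ?_⟩
  have h2 : Real.exp (2 * (t - 1 / 2)) * Real.exp 1 = Real.exp (2 * t) := by
    rw [← Real.exp_add]; ring_nf
  have h3 : (5 / 2 : ℝ) ≤ Real.exp 1 := by
    have := Real.exp_one_gt_d9
    linarith
  have h4 : 0 ≤ lam * Real.exp (2 * (t - 1 / 2)) := by positivity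
  have h5 : lam * Real.exp (2 * (t - 1 / 2)) * (5 / 2) ≤ τ ^ 2 - ν ^ 2 := by
    have : lam * Real.exp (2 * (t - 1 / 2)) * (5 / 2) ≤
        lam * Real.exp (2 * (t - 1 / 2)) * Real.exp 1 := by gcongr
    rw [mul_assoc lam _ (Real.exp 1), h2] at this
    linarith
  nlinarith

end al

/-- The solution of `φ'' = α² φ` used for the kernels. -/
structure Sol (ν lam : ℝ) (φ φ' : ℝ → ℝ) : Prop where
  hν : 1 / 2 ≤ ν
  hl : 0 ≤ lam
  d1 : ∀ t, HasDerivAt φ (φ' t) t
  d2 : ∀ t, HasDerivAt φ' ((ν ^ 2 + lam * Real.exp (2 * t)) * φ t) t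
  pos : ∀ t, 0 < φ t
  lo : ∀ t, ν * φ t ≤ φ' t
  hi : ∀ t, φ' t ≤ al ν lam t * φ t

/-- The primitive of `φ⁻²`. -/
noncomputable def PP (φ : ℝ → ℝ) (x : ℝ) : ℝ := ∫ y in (0 : ℝ)..x, (φ y ^ 2)⁻¹

/-- The upper bound of the primitive. -/
noncomputable def Pinf (φ : ℝ → ℝ) : ℝ := ⨆ x, PP φ x

section Sol

variable {ν lam : ℝ} {φ φ' : ℝ → ℝ}

theorem Sol.νpos (S : Sol ν lam φ φ') : 0 < ν := by have := S.hν; linarith

theorem Sol.cont (S : Sol ν lam φ φ') : Continuous φ :=
  continuous_iff_continuousAt.2 fun t => (S.d1 t).continuousAt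

theorem Sol.cont' (S : Sol ν lam φ φ') : Continuous φ' :=
  continuous_iff_continuousAt.2 fun t => (S.d2 t).continuousAt

theorem Sol.d1pos (S : Sol ν lam φ φ') (t : ℝ) : 0 < φ' t :=
  lt_of_lt_of_le (mul_pos S.νpos (S.pos t)) (S.lo t)

theorem Sol.mono (S : Sol ν lam φ φ') : Monotone φ := by
  refine monotone_of_deriv_nonneg (fun t => (S.d1 t).differentiableAt) fun t => ?_
  rw [(S.d1 t).deriv]
  exact (S.d1pos t).le

theorem Sol.contInv (S : Sol ν lam φ φ') : Continuous fun y => (φ y ^ 2)⁻¹ :=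
  (S.cont.pow 2).inv₀ fun y => (pow_pos (S.pos y) 2).ne'

theorem Sol.PPd (S : Sol ν lam φ φ') (x : ℝ) : HasDerivAt (PP φ) ((φ x ^ 2)⁻¹) x :=
  intervalIntegral.integral_hasDerivAt_right (S.contInv.intervalIntegrable _ _)
    (S.contInv.stronglyMeasurableAtFilter _ _) S.contInv.continuousAt

theorem Sol.PPmono (S : Sol ν lam φ φ') : Monotone (PP φ) := by
  refine monotone_of_deriv_nonneg (fun t => (S.PPd t).differentiableAt) fun t => ?_
  rw [(S.PPd t).deriv]
  positivity

theorem Sol.PPcont (S : Sol ν lam φ φ') : Continuous (PP φ) :=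
  continuous_iff_continuousAt.2 fun t => (S.PPd t).continuousAt

/-- `D = φ (α φ + φ')`. -/
noncomputable def DD (ν lam : ℝ) (φ φ' : ℝ → ℝ) (t : ℝ) : ℝ :=
  φ t * (al ν lam t * φ t + φ' t)

theorem Sol.DDpos (S : Sol ν lam φ φ') (t : ℝ) : 0 < DD ν lam φ φ' t := by
  have h1 := S.pos t
  have h2 := S.d1pos t
  have h3 := al_pos S.νpos S.hl t
  unfold DD
  positivity

theorem Sol.DDd (S : Sol ν lam φ φ') (t : ℝ) :
    HasDerivAt (DD ν lam φ φ') (lam * Real.exp (2 * t) / al ν lam t * φ t ^ 2 +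
      (al ν lam t * φ t + φ' t) ^ 2) t := by
  have h1 := S.d1 t
  have h2 := S.d2 t
  have h3 := al_hasDerivAt S.νpos S.hl t
  have h4 := h1.fun_mul ((h3.fun_mul h1).fun_add h2)
  refine h4.congr_deriv ?_
  have h5 := al_sq S.νpos S.hl t
  linear_combination -(φ t ^ 2) * h5

theorem Sol.anti (S : Sol ν lam φ φ') :
    Antitone fun t => (DD ν lam φ φ' t)⁻¹ + PP φ t := by
  have hd : ∀ t, HasDerivAt (fun t => (DD ν lam φ φ' t)⁻¹ + PP φ t)
      (-(lam * Real.exp (2 * t) / al ν lam t * φ t ^ 2 +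
      (al ν lam t * φ t + φ' t) ^ 2) / DD ν lam φ φ' t ^ 2 + (φ t ^ 2)⁻¹) t := fun t =>
    ((S.DDd t).fun_inv (S.DDpos t).ne').fun_add (S.PPd t)
  refine antitone_of_deriv_nonpos (fun t => (hd t).differentiableAt) fun t => ?_
  rw [(hd t).deriv]
  have h1 := S.pos t
  have h2 := S.d1pos t
  have h3 := al_pos S.νpos S.hl t
  have h4 := S.hl
  have h5 : 0 < al ν lam t * φ t + φ' t := by positivity
  have h6 : -(lam * Real.exp (2 * t) / al ν lam t * φ t ^ 2 +
      (al ν lam t * φ t + φ' t) ^ 2) / DD ν lam φ φ' t ^ 2 + (φ t ^ 2)⁻¹ =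
      -(lam * Real.exp (2 * t) / al ν lam t * φ t ^ 2 / DD ν lam φ φ' t ^ 2) := by
    unfold DD
    field_simp
    ring
  rw [h6, neg_nonpos]
  positivity

theorem Sol.PP_le (S : Sol ν lam φ φ') (t x : ℝ) :
    PP φ x ≤ PP φ t + (DD ν lam φ φ' t)⁻¹ := by
  rcases le_total x t with h | h
  · have h1 := S.PPmono h
    have h2 : 0 < (DD ν lam φ φ' t)⁻¹ := inv_pos.2 (S.DDpos t)
    linarith
  · have h1 := S.anti h
    have h2 : 0 < (DD ν lam φ φ' x)⁻¹ := inv_pos.2 (S.DDpos x)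
    simp only at h1
    linarith

theorem Sol.bdd (S : Sol ν lam φ φ') : BddAbove (range (PP φ)) := by
  refine ⟨PP φ 0 + (DD ν lam φ φ' 0)⁻¹, ?_⟩
  rintro _ ⟨x, rfl⟩
  exact S.PP_le 0 x

theorem Sol.le_Pinf (S : Sol ν lam φ φ') (x : ℝ) : PP φ x ≤ Pinf φ := le_ciSup S.bdd x

theorem Sol.Pinf_le (S : Sol ν lam φ φ') (t : ℝ) :
    Pinf φ ≤ PP φ t + (DD ν lam φ φ' t)⁻¹ := ciSup_le fun x => S.PP_le t x

/-- `φ(t) ≤ e^{α(t)(t-s)} φ(s)` for `s ≤ t`. -/
theorem Sol.growth (S : Sol ν lam φ φ') {s t : ℝ} (hst : s ≤ t) :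
    φ t ≤ Real.exp (al ν lam t * (t - s)) * φ s := by
  set A := al ν lam t
  have hd : ∀ r, HasDerivAt (fun r => Real.exp (-A * r) * φ r)
      (Real.exp (-A * r) * (φ' r - A * φ r)) r := by
    intro r
    have h1 : HasDerivAt (fun r : ℝ => -A * r) (-A) r := by
      simpa using (hasDerivAt_id r).const_mul (-A)
    refine (h1.exp.fun_mul (S.d1 r)).congr_deriv ?_
    ring
  have hanti : AntitoneOn (fun r => Real.exp (-A * r) * φ r) (Iic t) := by
    refine antitoneOn_of_deriv_nonpos (convex_Iic t)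
      (fun r _ => (hd r).continuousAt.continuousWithinAt)
      (fun r _ => (hd r).differentiableAt.differentiableWithinAt) fun r hr => ?_
    rw [interior_Iic] at hr
    rw [(hd r).deriv]
    have h1 := S.hi r
    have h2 : al ν lam r ≤ A := al_mono S.hl (le_of_lt hr)
    have h3 := S.pos r
    have h4 := Real.exp_pos (-A * r)
    have h5 : φ' r - A * φ r ≤ 0 := by nlinarith
    exact mul_nonpos_of_nonneg_of_nonpos h4.le h5
  have h := hanti (mem_Iic.2 hst) (mem_Iic.2 le_rfl) hst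
  simp only at h
  have h1 : Real.exp (A * (t - s)) * φ s =
      Real.exp (A * t) * (Real.exp (-A * s) * φ s) := by
    rw [← mul_assoc, ← Real.exp_add]
    ring_nf
  have h2 : φ t = Real.exp (A * t) * (Real.exp (-A * t) * φ t) := by
    rw [← mul_assoc, ← Real.exp_add]
    simp
  rw [h1, h2]
  gcongr

/-- The decaying solution. -/
noncomputable def plus (φ : ℝ → ℝ) (t : ℝ) : ℝ := φ t * (Pinf φ - PP φ t)

theorem Sol.plus_nonneg (S : Sol ν lam φ φ') (t : ℝ) : 0 ≤ plus φ t :=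
  mul_nonneg (S.pos t).le (sub_nonneg.2 (S.le_Pinf t))

theorem Sol.decay (S : Sol ν lam φ φ') {s t : ℝ} (hts : t ≤ s) :
    plus φ s ≤ Real.exp (-(al ν lam t * (s - t))) * plus φ t := by
  set A := al ν lam t
  have hpd : ∀ r, HasDerivAt (plus φ) (φ' r * (Pinf φ - PP φ r) + φ r * (-(φ r ^ 2)⁻¹)) r := by
    intro r
    exact (S.d1 r).fun_mul ((S.PPd r).const_sub (Pinf φ))
  have hd : ∀ r, HasDerivAt (fun r => Real.exp (A * r) * plus φ r)
      (Real.exp (A * r) * ((φ' r * (Pinf φ - PP φ r) + φ r * (-(φ r ^ 2)⁻¹)) +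
        A * plus φ r)) r := by
    intro r
    have h1 : HasDerivAt (fun r : ℝ => A * r) A r := by
      simpa using (hasDerivAt_id r).const_mul A
    refine (h1.exp.fun_mul (hpd r)).congr_deriv ?_
    ring
  have hanti : AntitoneOn (fun r => Real.exp (A * r) * plus φ r) (Ici t) := by
    refine antitoneOn_of_deriv_nonpos (convex_Ici t)
      (fun r _ => (hd r).continuousAt.continuousWithinAt)
      (fun r _ => (hd r).differentiableAt.differentiableWithinAt) fun r hr => ?_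
    rw [interior_Ici] at hr
    rw [(hd r).deriv]
    have h1 := S.Pinf_le r
    have h2 : A ≤ al ν lam r := al_mono S.hl (le_of_lt hr)
    have h3 := S.pos r
    have h4 := Real.exp_pos (A * r)
    have h6 := S.DDpos r
    have h7 := S.le_Pinf r
    have h8 := S.d1pos r
    have h9 := al_pos S.νpos S.hl r
    have h10 : (al ν lam r * φ r + φ' r) * (Pinf φ - PP φ r) ≤ (φ r)⁻¹ := by
      have h11 : Pinf φ - PP φ r ≤ (DD ν lam φ φ' r)⁻¹ := by linarith
      calc (al ν lam r * φ r + φ' r) * (Pinf φ - PP φ r)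
          ≤ (al ν lam r * φ r + φ' r) * (DD ν lam φ φ' r)⁻¹ := by gcongr
        _ = (φ r)⁻¹ := by
          unfold DD
          have : 0 < al ν lam r * φ r + φ' r := by positivity
          field_simp
    have h12 : φ r * (-(φ r ^ 2)⁻¹) = -(φ r)⁻¹ := by field_simp
    have h5 : (φ' r * (Pinf φ - PP φ r) + φ r * (-(φ r ^ 2)⁻¹)) + A * plus φ r ≤ 0 := by
      rw [h12]
      unfold plus
      have h13 : A * (φ r * (Pinf φ - PP φ r)) ≤ al ν lam r * (φ r * (Pinf φ - PP φ r)) := by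
        have : 0 ≤ φ r * (Pinf φ - PP φ r) := S.plus_nonneg r
        gcongr
      nlinarith
    exact mul_nonpos_of_nonneg_of_nonpos h4.le h5
  have h := hanti (mem_Ici.2 le_rfl) (mem_Ici.2 hts) hts
  simp only at h
  have h1 : Real.exp (-(A * (s - t))) * plus φ t =
      Real.exp (-A * s) * (Real.exp (A * t) * plus φ t) := by
    rw [← mul_assoc, ← Real.exp_add]
    ring_nf
  have h2 : plus φ s = Real.exp (-A * s) * (Real.exp (A * s) * plus φ s) := by
    rw [← mul_assoc, ← Real.exp_add]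
    simp
  rw [h1, h2]
  gcongr

/-- `φ φ_+ ≤ 1 / (α + ν)`. -/
theorem Sol.rho_le (S : Sol ν lam φ φ') (t : ℝ) :
    φ t * plus φ t ≤ 1 / (al ν lam t + ν) := by
  have h1 := S.Pinf_le t
  have h2 := S.pos t
  have h3 := al_pos S.νpos S.hl t
  have h4 := S.lo t
  have h5 := S.DDpos t
  have h6 := S.νpos
  calc φ t * plus φ t = φ t ^ 2 * (Pinf φ - PP φ t) := by unfold plus; ring
    _ ≤ φ t ^ 2 * (DD ν lam φ φ' t)⁻¹ := by gcongr; linarith
    _ ≤ φ t ^ 2 * (φ t * (al ν lam t * φ t + ν * φ t))⁻¹ := by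
        unfold DD
        gcongr
    _ = 1 / (al ν lam t + ν) := by
        field_simp

/-! ### Bounds for the kernel -/

/-- The kernel of one mode. -/
noncomputable def ker (ν lam τ : ℝ) (φ : ℝ → ℝ) (t s : ℝ) : ℝ :=
  Real.exp (-(τ * (t - s))) *
    (if al ν lam t < τ then (if s < t then -(φ t * φ s * (PP φ t - PP φ s)) else 0)
      else if s < t then φ s * plus φ t else φ t * plus φ s)

theorem Sol.e_nonneg (S : Sol ν lam φ φ') {s t : ℝ} (hst : s ≤ t) :
    0 ≤ φ t * φ s * (PP φ t - PP φ s) :=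
  mul_nonneg (mul_nonneg (S.pos t).le (S.pos s).le) (sub_nonneg.2 (S.PPmono hst))

theorem Sol.e_le_plus (S : Sol ν lam φ φ') (s t : ℝ) :
    φ t * φ s * (PP φ t - PP φ s) ≤ φ t * plus φ s := by
  have h1 := S.le_Pinf t
  have h2 := S.pos t
  have h3 := S.pos s
  unfold plus
  rw [mul_assoc]
  gcongr

theorem Sol.e_le1 (S : Sol ν lam φ φ') {s t : ℝ} (hst : s ≤ t) :
    φ t * φ s * (PP φ t - PP φ s) ≤ (t - s) * Real.exp (al ν lam t * (t - s)) := by
  have h1 : PP φ t - PP φ s ≤ (φ s ^ 2)⁻¹ * (t - s) := by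
    refine (convex_Ici s).image_sub_le_mul_sub_of_deriv_le S.PPcont.continuousOn
      (fun r _ => (S.PPd r).differentiableAt.differentiableWithinAt) (fun r hr => ?_)
      s (mem_Ici.2 le_rfl) t (mem_Ici.2 hst) hst
    rw [interior_Ici] at hr
    rw [(S.PPd r).deriv]
    have h2 := S.mono (le_of_lt hr)
    have h3 := S.pos s
    gcongr
  have h2 := S.pos t
  have h3 := S.pos s
  have h4 := S.growth hst
  calc φ t * φ s * (PP φ t - PP φ s) ≤ φ t * φ s * ((φ s ^ 2)⁻¹ * (t - s)) := by gcongr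
    _ = (t - s) * (φ t / φ s) := by field_simp
    _ ≤ (t - s) * Real.exp (al ν lam t * (t - s)) := by
        have h5 : 0 ≤ t - s := by linarith
        have h6 : φ t / φ s ≤ Real.exp (al ν lam t * (t - s)) := (div_le_iff₀ h3).2 h4
        gcongr

theorem Sol.e_le2 (S : Sol ν lam φ φ') {s t : ℝ} (hst : s ≤ t) (h1 : t - s ≤ 1) :
    φ t * φ s * (PP φ t - PP φ s) ≤ 3 / al ν lam t * Real.exp (al ν lam t * (t - s)) := by
  have h2 := S.e_le_plus s t
  have h3 := S.growth hst
  have h4 := S.rho_le s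
  have h5 := al_pos S.νpos S.hl t
  have h6 := al_pos S.νpos S.hl s
  have h7 := al_back S.νpos S.hl (s := s) (t := t) (by linarith)
  have h8 := S.νpos
  calc φ t * φ s * (PP φ t - PP φ s) ≤ φ t * plus φ s := h2
    _ ≤ (Real.exp (al ν lam t * (t - s)) * φ s) * plus φ s := by
        have := S.plus_nonneg s
        gcongr
    _ = Real.exp (al ν lam t * (t - s)) * (φ s * plus φ s) := by ring
    _ ≤ Real.exp (al ν lam t * (t - s)) * (1 / (al ν lam s + ν)) := by gcongr
    _ ≤ Real.exp (al ν lam t * (t - s)) * (3 / al ν lam t) := by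
        have h9 : 1 / (al ν lam s + ν) ≤ 3 / al ν lam t := by
          rw [div_le_div_iff₀ (by positivity) h5]
          linarith
        exact mul_le_mul_of_nonneg_left h9 (Real.exp_pos _).le
    _ = _ := by ring

theorem Sol.ker_lt_lt (S : Sol ν lam φ φ') {τ t s : ℝ} (hα : al ν lam t < τ) (hst : s < t) :
    |ker ν lam τ φ t s| = Real.exp (-(τ * (t - s))) * (φ t * φ s * (PP φ t - PP φ s)) := by
  unfold ker
  rw [if_pos hα, if_pos hst, abs_mul, abs_neg, abs_of_nonneg (S.e_nonneg hst.le),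
    abs_of_pos (Real.exp_pos _)]

theorem Sol.ker_ge_lt (S : Sol ν lam φ φ') {τ t s : ℝ} (hα : τ ≤ al ν lam t) (hst : s < t) :
    |ker ν lam τ φ t s| = Real.exp (-(τ * (t - s))) * (φ s * plus φ t) := by
  unfold ker
  rw [if_neg (not_lt.2 hα), if_pos hst, abs_mul,
    abs_of_nonneg (mul_nonneg (S.pos s).le (S.plus_nonneg t)), abs_of_pos (Real.exp_pos _)]

theorem Sol.ker_ge_ge (S : Sol ν lam φ φ') {τ t s : ℝ} (hα : τ ≤ al ν lam t) (hst : t ≤ s) :
    |ker ν lam τ φ t s| = Real.exp (-(τ * (t - s))) * (φ t * plus φ s) := by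
  unfold ker
  rw [if_neg (not_lt.2 hα), if_neg (not_lt.2 hst), abs_mul,
    abs_of_nonneg (mul_nonneg (S.pos t).le (S.plus_nonneg s)), abs_of_pos (Real.exp_pos _)]

theorem Sol.ker_lt_ge {τ t s : ℝ} (hα : al ν lam t < τ) (hst : t ≤ s) :
    |ker ν lam τ φ t s| = 0 := by
  unfold ker
  rw [if_pos hα, if_neg (not_lt.2 hst), mul_zero, abs_zero]

/-- Short range, growing side. -/
theorem Sol.case1 (S : Sol ν lam φ φ') {τ t s : ℝ} (hα : al ν lam t < τ) (hst : s < t)
    (h1 : t - s ≤ 1) :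
    |ker ν lam τ φ t s| ≤ 6 / τ * Real.exp (-((τ - al ν lam t) * (t - s) / 2)) := by
  rw [S.ker_lt_lt hα hst]
  set A := al ν lam t with hA
  set δ := t - s with hδ
  set e := φ t * φ s * (PP φ t - PP φ s) with he
  have hA0 : 0 < A := al_pos S.νpos S.hl t
  have hτ0 : 0 < τ := hA0.trans hα
  have hδ0 : 0 < δ := by linarith
  have he1 : e ≤ δ * Real.exp (A * δ) := S.e_le1 hst.le
  have he2 : e ≤ 3 / A * Real.exp (A * δ) := S.e_le2 hst.le h1
  set x := (τ - A) * δ with hx
  have hx0 : 0 ≤ x := by have : 0 < τ - A := by linarith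
                         positivity
  have h2 : τ * e ≤ (3 + x) * Real.exp (A * δ) := by
    have h3 : A * e ≤ 3 * Real.exp (A * δ) := by
      calc A * e ≤ A * (3 / A * Real.exp (A * δ)) := by gcongr
        _ = 3 * Real.exp (A * δ) := by field_simp
    have h4 : (τ - A) * e ≤ x * Real.exp (A * δ) := by
      have : 0 ≤ τ - A := by linarith
      calc (τ - A) * e ≤ (τ - A) * (δ * Real.exp (A * δ)) := by gcongr
        _ = x * Real.exp (A * δ) := by rw [hx]; ring
    linarith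
  have h5 : 3 + x ≤ 6 * Real.exp (x / 2) := by
    have := Real.add_one_le_exp (x / 2)
    linarith
  have h6 : Real.exp (-(τ * δ)) * e ≤ 1 / τ * (6 * Real.exp (-(x / 2))) := by
    have h7 : Real.exp (-(τ * δ)) * (τ * e) ≤
        Real.exp (-(τ * δ)) * ((6 * Real.exp (x / 2)) * Real.exp (A * δ)) := by
      have h8 : τ * e ≤ (6 * Real.exp (x / 2)) * Real.exp (A * δ) :=
        h2.trans (by gcongr)
      gcongr
    have h9 : Real.exp (-(τ * δ)) * ((6 * Real.exp (x / 2)) * Real.exp (A * δ)) =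
        6 * Real.exp (-(x / 2)) := by
      have : Real.exp (-(τ * δ)) * ((6 * Real.exp (x / 2)) * Real.exp (A * δ)) =
        6 * (Real.exp (-(τ * δ)) * Real.exp (x / 2) * Real.exp (A * δ)) := by ring
      rw [this, ← Real.exp_add, ← Real.exp_add]
      congr 2
      rw [hx]
      ring
    rw [h9] at h7
    calc Real.exp (-(τ * δ)) * e = 1 / τ * (Real.exp (-(τ * δ)) * (τ * e)) := by field_simp
      _ ≤ _ := by gcongr
  calc _ ≤ 1 / τ * (6 * Real.exp (-(x / 2))) := h6
    _ = _ := by ring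

/-- Backward side with large rate. -/
theorem Sol.case2 (S : Sol ν lam φ φ') {τ t s : ℝ} (hτ : 0 < τ) (hα : τ ≤ al ν lam t)
    (hst : s < t) :
    |ker ν lam τ φ t s| ≤ 1 / τ * Real.exp (-(τ * (t - s))) := by
  rw [S.ker_ge_lt hα hst]
  have h1 := S.mono hst.le
  have h2 := S.plus_nonneg t
  have h3 := S.rho_le t
  have h4 := S.νpos
  calc Real.exp (-(τ * (t - s))) * (φ s * plus φ t)
      ≤ Real.exp (-(τ * (t - s))) * (φ t * plus φ t) := by gcongr
    _ ≤ Real.exp (-(τ * (t - s))) * (1 / (al ν lam t + ν)) := by gcongr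
    _ ≤ Real.exp (-(τ * (t - s))) * (1 / τ) := by
        gcongr
        linarith
    _ = _ := by ring

/-- Forward side with large rate. -/
theorem Sol.case3 (S : Sol ν lam φ φ') {τ t s : ℝ} (hα : τ ≤ al ν lam t)
    (hst : t ≤ s) :
    |ker ν lam τ φ t s| ≤
      1 / al ν lam t * Real.exp (-((al ν lam t - τ) * (s - t))) := by
  rw [S.ker_ge_ge hα hst]
  have h1 := S.decay hst
  have h2 := S.pos t
  have h3 := S.rho_le t
  have h4 := S.νpos
  have h5 := al_pos S.νpos S.hl t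
  calc Real.exp (-(τ * (t - s))) * (φ t * plus φ s)
      ≤ Real.exp (-(τ * (t - s))) *
        (φ t * (Real.exp (-(al ν lam t * (s - t))) * plus φ t)) := by gcongr
    _ = Real.exp (-((al ν lam t - τ) * (s - t))) * (φ t * plus φ t) := by
        have : Real.exp (-(τ * (t - s))) * Real.exp (-(al ν lam t * (s - t))) =
          Real.exp (-((al ν lam t - τ) * (s - t))) := by
          rw [← Real.exp_add]; ring_nf
        rw [← this]; ring
    _ ≤ Real.exp (-((al ν lam t - τ) * (s - t))) * (1 / (al ν lam t + ν)) := by gcongr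
    _ ≤ Real.exp (-((al ν lam t - τ) * (s - t))) * (1 / al ν lam t) := by
        gcongr
        linarith
    _ = _ := by ring

/-- Long range bound, first case. -/
theorem Sol.long_a (S : Sol ν lam φ φ') {τ t s : ℝ} (hα : al ν lam t < τ)
    (hst : 1 ≤ t - s) :
    |ker ν lam τ φ t s| ≤ 14 / τ * Real.exp (-(3 / 40 * (t - s) * (τ - ν))) := by
  have hν0 := S.νpos
  have hν1 := S.hν
  have hs : s < t := by linarith
  rw [S.ker_lt_lt hα hs]
  set δ := t - s with hδd
  have hνα := le_al S.νpos S.hl t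
  have hτ : 0 < τ := by linarith
  have g1 := S.growth (s := t - 1 / 2) (t := t) (by linarith)
  have g2 := S.growth (s := s) (t := t - 1 / 2) (by linarith)
  have g3 := al_bwd S.νpos S.hl hα.le
  have g4 := S.rho_le s
  have g5 := le_al S.νpos S.hl s
  have g6 := S.plus_nonneg s
  have g7 := S.pos s
  set A' := al ν lam (t - 1 / 2)
  have h2 : φ t ≤ Real.exp (τ / 2 + A' * (δ - 1 / 2)) * φ s := by
    have e1 : al ν lam t * (t - (t - 1 / 2)) ≤ τ / 2 := by linarith
    have e2 : t - 1 / 2 - s = δ - 1 / 2 := by rw [hδd]; ring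
    rw [e2] at g2
    calc φ t ≤ Real.exp (al ν lam t * (t - (t - 1 / 2))) * φ (t - 1 / 2) := g1
      _ ≤ Real.exp (τ / 2) * (Real.exp (A' * (δ - 1 / 2)) * φ s) :=
          mul_le_mul (Real.exp_le_exp.2 e1) g2 (S.pos _).le (Real.exp_pos _).le
      _ = _ := by rw [← mul_assoc, ← Real.exp_add]
  have h3 : φ t * φ s * (PP φ t - PP φ s) ≤
      Real.exp (τ / 2 + A' * (δ - 1 / 2)) * (1 / (2 * ν)) := by
    have e1 : 1 / (al ν lam s + ν) ≤ 1 / (2 * ν) :=
      one_div_le_one_div_of_le (by linarith) (by linarith)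
    calc φ t * φ s * (PP φ t - PP φ s) ≤ φ t * plus φ s := S.e_le_plus s t
      _ ≤ (Real.exp (τ / 2 + A' * (δ - 1 / 2)) * φ s) * plus φ s :=
          mul_le_mul_of_nonneg_right h2 g6
      _ = Real.exp (τ / 2 + A' * (δ - 1 / 2)) * (φ s * plus φ s) := by ring
      _ ≤ _ := mul_le_mul_of_nonneg_left (g4.trans e1) (Real.exp_pos _).le
  have h4 : Real.exp (-(τ * δ)) * (φ t * φ s * (PP φ t - PP φ s)) ≤
      Real.exp (-(3 / 20 * (τ - ν) * δ)) * (1 / (2 * ν)) := by
    have h5 : A' * (δ - 1 / 2) ≤ (τ - 3 / 10 * (τ - ν)) * (δ - 1 / 2) :=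
      mul_le_mul_of_nonneg_right g3 (by linarith)
    have h6 : -(τ * δ) + (τ / 2 + A' * (δ - 1 / 2)) ≤ -(3 / 20 * (τ - ν) * δ) := by
      nlinarith
    calc _ ≤ Real.exp (-(τ * δ)) *
          (Real.exp (τ / 2 + A' * (δ - 1 / 2)) * (1 / (2 * ν))) :=
            mul_le_mul_of_nonneg_left h3 (Real.exp_pos _).le
      _ = Real.exp (-(τ * δ) + (τ / 2 + A' * (δ - 1 / 2))) * (1 / (2 * ν)) := by
          rw [← mul_assoc, ← Real.exp_add]
      _ ≤ _ := mul_le_mul_of_nonneg_right (Real.exp_le_exp.2 h6) (by positivity)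
  refine h4.trans ?_
  set y := τ - ν with hy
  have hy0 : 0 ≤ y := by linarith
  have h6 : Real.exp (-(3 / 20 * y * δ)) =
      Real.exp (-(3 / 40 * y * δ)) * Real.exp (-(3 / 40 * δ * y)) := by
    rw [← Real.exp_add]; ring_nf
  rw [h6]
  have h7 : τ * Real.exp (-(3 / 40 * y * δ)) ≤ 28 * ν := by
    have h8 : Real.exp (-(3 / 40 * y * δ)) ≤ 1 :=
      Real.exp_le_one_iff.2 (by nlinarith [mul_nonneg hy0 (by linarith : (0 : ℝ) ≤ δ)])
    have h9 : y * Real.exp (-(3 / 40 * y * δ)) ≤ 40 / 3 := by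
      have h10 : Real.exp (-(3 / 40 * y * δ)) ≤ Real.exp (-(3 / 40 * y)) := by
        apply Real.exp_le_exp.2
        nlinarith
      have h11 : 3 / 40 * y * Real.exp (-(3 / 40 * y)) ≤ 1 := by
        have h12 := Real.add_one_le_exp (3 / 40 * y)
        have h13 : Real.exp (-(3 / 40 * y)) * Real.exp (3 / 40 * y) = 1 := by
          rw [← Real.exp_add]; simp
        have h14 := Real.exp_pos (-(3 / 40 * y))
        nlinarith
      nlinarith [Real.exp_pos (-(3 / 40 * y * δ))]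
    have h15 : τ = ν + y := by rw [hy]; ring
    rw [h15]
    nlinarith [Real.exp_pos (-(3 / 40 * y * δ))]
  have h16 : Real.exp (-(3 / 40 * y * δ)) * (1 / (2 * ν)) ≤ 14 / τ := by
    rw [mul_one_div, div_le_div_iff₀ (by positivity) hτ]
    linarith
  calc Real.exp (-(3 / 40 * y * δ)) * Real.exp (-(3 / 40 * δ * y)) * (1 / (2 * ν))
      = (Real.exp (-(3 / 40 * y * δ)) * (1 / (2 * ν))) * Real.exp (-(3 / 40 * δ * y)) := by
        ring
    _ ≤ 14 / τ * Real.exp (-(3 / 40 * δ * y)) :=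
        mul_le_mul_of_nonneg_right h16 (Real.exp_pos _).le

/-- Long range bound, second case. -/
theorem Sol.long_b (S : Sol ν lam φ φ') {τ t s : ℝ} (hτ : 0 < τ) (hα : τ ≤ al ν lam t)
    (hst : s < t) (hab : |τ - ν| ≤ τ) :
    |ker ν lam τ φ t s| ≤ 14 / τ * Real.exp (-(3 / 40 * (t - s) * |τ - ν|)) := by
  have h1 := S.case2 hτ hα hst
  have hab0 : 0 ≤ |τ - ν| := abs_nonneg _
  have hd0 : 0 < t - s := by linarith
  have h2 : (t - s) * |τ - ν| ≤ (t - s) * τ := mul_le_mul_of_nonneg_left hab hd0.le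
  have h3 : -(τ * (t - s)) ≤ -(3 / 40 * (t - s) * |τ - ν|) := by nlinarith
  have h4 : 1 / τ ≤ 14 / τ := by
    apply div_le_div_of_nonneg_right _ hτ.le
    norm_num
  exact h1.trans (mul_le_mul h4 (Real.exp_le_exp.2 h3) (Real.exp_pos _).le (by positivity))

/-- Long range bound, third case. -/
theorem Sol.long_c (S : Sol ν lam φ φ') {τ t s : ℝ} (hτ : 0 < τ) (hα : τ ≤ al ν lam t)
    (hst : t ≤ s) (hντ : τ ≤ ν) :
    |ker ν lam τ φ t s| ≤ 14 / τ * Real.exp (-(3 / 40 * (s - t) * (ν - τ))) := by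
  have h1 := S.case3 hα hst
  have h2 := le_al S.νpos S.hl t
  have hd0 : 0 ≤ s - t := by linarith
  have h3 : (ν - τ) * (s - t) ≤ (al ν lam t - τ) * (s - t) :=
    mul_le_mul_of_nonneg_right (by linarith) hd0
  have h3' : 0 ≤ (ν - τ) * (s - t) := mul_nonneg (by linarith) hd0
  have h4 : 1 / al ν lam t ≤ 14 / τ := by
    have h5 : 1 / al ν lam t ≤ 1 / τ := one_div_le_one_div_of_le hτ hα
    refine h5.trans ?_
    apply div_le_div_of_nonneg_right _ hτ.le
    norm_num
  have h6 : -((al ν lam t - τ) * (s - t)) ≤ -(3 / 40 * (s - t) * (ν - τ)) := by nlinarith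
  exact h1.trans (mul_le_mul h4 (Real.exp_le_exp.2 h6) (Real.exp_pos _).le (by positivity))

/-- Long range bound, fourth case. -/
theorem Sol.long_d (S : Sol ν lam φ φ') {τ t s : ℝ} (hα : τ ≤ al ν lam t)
    (hst : 1 ≤ s - t) (hντ : ν < τ) :
    |ker ν lam τ φ t s| ≤ 14 / τ * Real.exp (-(3 / 40 * (s - t) * (τ - ν))) := by
  have hs : t ≤ s := by linarith
  rw [S.ker_ge_ge hα hs]
  set δ := s - t with hδd
  have hν0 := S.νpos
  have hτ : 0 < τ := by linarith
  have g1 := S.decay (t := t) (s := t + 1 / 2) (by linarith)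
  have g2 := S.decay (t := t + 1 / 2) (s := s) (by linarith)
  have g3 := al_fwd S.νpos S.hl hντ.le hα
  have g4 := S.rho_le t
  have g6 := S.plus_nonneg t
  have g7 := S.pos t
  set A' := al ν lam (t + 1 / 2)
  have h2 : plus φ s ≤ Real.exp (-(A' * (δ - 1 / 2) + τ / 2)) * plus φ t := by
    have e2 : s - (t + 1 / 2) = δ - 1 / 2 := by rw [hδd]; ring
    rw [e2] at g2
    have e1 : plus φ (t + 1 / 2) ≤ Real.exp (-(τ / 2)) * plus φ t := by
      refine g1.trans (mul_le_mul_of_nonneg_right (Real.exp_le_exp.2 ?_) g6)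
      linarith
    calc plus φ s ≤ Real.exp (-(A' * (δ - 1 / 2))) * plus φ (t + 1 / 2) := g2
      _ ≤ Real.exp (-(A' * (δ - 1 / 2))) * (Real.exp (-(τ / 2)) * plus φ t) :=
          mul_le_mul_of_nonneg_left e1 (Real.exp_pos _).le
      _ = _ := by
          rw [← mul_assoc, ← Real.exp_add]
          ring_nf
  have h5 : (τ + (τ - ν) / 2) * (δ - 1 / 2) ≤ A' * (δ - 1 / 2) :=
    mul_le_mul_of_nonneg_right g3 (by linarith)
  have h6 : τ * (t - s) = -(τ * δ) := by rw [hδd]; ring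
  have h7 : -(τ * (t - s)) + -(A' * (δ - 1 / 2) + τ / 2) ≤ -(3 / 40 * δ * (τ - ν)) := by
    rw [h6]
    nlinarith
  have h8 : 1 / (al ν lam t + ν) ≤ 14 / τ := by
    have h5 : 1 / (al ν lam t + ν) ≤ 1 / τ := one_div_le_one_div_of_le hτ (by linarith)
    refine h5.trans ?_
    apply div_le_div_of_nonneg_right _ hτ.le
    norm_num
  calc Real.exp (-(τ * (t - s))) * (φ t * plus φ s)
      ≤ Real.exp (-(τ * (t - s))) *
        (φ t * (Real.exp (-(A' * (δ - 1 / 2) + τ / 2)) * plus φ t)) :=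
        mul_le_mul_of_nonneg_left (mul_le_mul_of_nonneg_left h2 g7.le) (Real.exp_pos _).le
    _ = (Real.exp (-(τ * (t - s))) * Real.exp (-(A' * (δ - 1 / 2) + τ / 2))) *
          (φ t * plus φ t) := by ring
    _ = Real.exp (-(τ * (t - s)) + -(A' * (δ - 1 / 2) + τ / 2)) * (φ t * plus φ t) := by
        rw [← Real.exp_add]
    _ ≤ Real.exp (-(3 / 40 * δ * (τ - ν))) * (14 / τ) :=
        mul_le_mul (Real.exp_le_exp.2 h7) (g4.trans h8)
          (mul_nonneg g7.le g6) (Real.exp_pos _).le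
    _ = _ := by ring

/-- Long range bound. -/
theorem Sol.long (S : Sol ν lam φ φ') {τ t s : ℝ} (hτ : 0 < τ) (hν : ν ≤ 2 * τ)
    (hst : 1 ≤ |t - s|) :
    |ker ν lam τ φ t s| ≤ 14 / τ * Real.exp (-(3 / 40 * |t - s| * |τ - ν|)) := by
  have hν0 := S.νpos
  have hab : |τ - ν| ≤ τ := abs_le.2 ⟨by linarith, by linarith⟩
  rcases lt_or_ge (al ν lam t) τ with hα | hα
  · rcases lt_or_ge s t with hs | hs
    · have hδ : |t - s| = t - s := abs_of_pos (by linarith)
      have h0 := le_al S.νpos S.hl t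
      have h1 : |τ - ν| = τ - ν := abs_of_pos (by linarith)
      rw [hδ] at hst
      rw [hδ, h1]
      exact S.long_a hα hst
    · rw [Sol.ker_lt_ge hα hs]
      positivity
  · rcases lt_or_ge s t with hs | hs
    · have hδ : |t - s| = t - s := abs_of_pos (by linarith)
      rw [hδ]
      exact S.long_b hτ hα hs hab
    · have hδ : |t - s| = s - t := by rw [abs_sub_comm]; exact abs_of_nonneg (by linarith)
      rw [hδ] at hst
      rw [hδ]
      rcases le_or_gt τ ν with hντ | hντ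
      · have h1 : |τ - ν| = ν - τ := by rw [abs_sub_comm]; exact abs_of_nonneg (by linarith)
        rw [h1]
        exact S.long_c hτ hα hs hντ
      · have h1 : |τ - ν| = τ - ν := abs_of_pos (by linarith)
        rw [h1]
        exact S.long_d hα hst hντ

/-- The uniform bound of the kernel. -/
theorem Sol.ker_bound (S : Sol ν lam φ φ') {τ : ℝ} (hτ : 0 < τ) (hν : ν ≤ 2 * τ)
    (hντ : 1 / 2 ≤ |τ - ν|) (t s : ℝ) :
    |ker ν lam τ φ t s| ≤ 18 / τ * Real.exp (-(1 / 40 * |t - s|)) := by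
  rcases le_or_gt 1 |t - s| with h | h
  · refine (S.long hτ hν h).trans ?_
    have h1 : -(3 / 40 * |t - s| * |τ - ν|) ≤ -(1 / 40 * |t - s|) := by nlinarith
    have h2 : 14 / τ ≤ 18 / τ := div_le_div_of_nonneg_right (by norm_num) hτ.le
    exact mul_le_mul h2 (Real.exp_le_exp.2 h1) (Real.exp_pos _).le (by positivity)
  · have h1 : |ker ν lam τ φ t s| ≤ 6 / τ := by
      rcases lt_or_ge (al ν lam t) τ with hα | hα
      · rcases lt_or_ge s t with hs | hs
        · have hd : t - s ≤ 1 := by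
            have := le_abs_self (t - s)
            linarith
          refine (S.case1 hα hs hd).trans ?_
          have h2 : Real.exp (-((τ - al ν lam t) * (t - s) / 2)) ≤ 1 := by
            apply Real.exp_le_one_iff.2
            have : 0 ≤ (τ - al ν lam t) * (t - s) := mul_nonneg (by linarith) (by linarith)
            linarith
          have h3 : 0 < 6 / τ := by positivity
          nlinarith
        · rw [Sol.ker_lt_ge hα hs]
          positivity
      · rcases lt_or_ge s t with hs | hs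
        · refine (S.case2 hτ hα hs).trans ?_
          have h2 : Real.exp (-(τ * (t - s))) ≤ 1 := by
            apply Real.exp_le_one_iff.2
            have : 0 ≤ τ * (t - s) := mul_nonneg hτ.le (by linarith)
            linarith
          have h3 : 1 / τ ≤ 6 / τ := div_le_div_of_nonneg_right (by norm_num) hτ.le
          have h4 : 0 < 1 / τ := by positivity
          nlinarith
        · refine (S.case3 hα hs).trans ?_
          have h2 : Real.exp (-((al ν lam t - τ) * (s - t))) ≤ 1 := by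
            apply Real.exp_le_one_iff.2
            have : 0 ≤ (al ν lam t - τ) * (s - t) := mul_nonneg (by linarith) (by linarith)
            linarith
          have h5 : 1 / al ν lam t ≤ 1 / τ := one_div_le_one_div_of_le hτ hα
          have h3 : 1 / τ ≤ 6 / τ := div_le_div_of_nonneg_right (by norm_num) hτ.le
          have h6 := al_pos S.νpos S.hl t
          have h4 : 0 < 1 / al ν lam t := by positivity
          nlinarith
    refine h1.trans ?_
    have h2 : (1 / 3 : ℝ) ≤ Real.exp (-(1 / 40 * |t - s|)) := by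
      have := Real.add_one_le_exp (-(1 / 40 * |t - s|))
      linarith
    have h3 : 6 / τ = 18 / τ * (1 / 3) := by ring
    rw [h3]
    exact mul_le_mul_of_nonneg_left h2 (by positivity)

end Sol

end Pool.Agent.HK.Ker
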