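import Pool.Agent.HK.KerSol

/-!
# Kernels for the low modes (job KE2): the sum over the modes
-/

open MeasureTheory Set Filter Topology
open scoped ENNReal NNReal

namespace Pool.Agent.HK.Ker

/-- A primitive of `e^{-|τ-x|η}`. -/
noncomputable def HH (τ η x : ℝ) : ℝ :=
  if x ≤ τ then Real.exp (-((τ - x) * η)) / η else (2 - Real.exp (-((x - τ) * η))) / η

theorem HH_nonneg {τ η : ℝ} (hη : 0 < η) (x : ℝ) : 0 ≤ HH τ η x := by
  unfold HH
  split_ifs with h
  · positivity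
  · have h1 : Real.exp (-((x - τ) * η)) ≤ 1 := by
      apply Real.exp_le_one_iff.2
      have : 0 ≤ (x - τ) * η := mul_nonneg (by linarith) hη.le
      linarith
    apply div_nonneg _ hη.le
    linarith

theorem HH_le {τ η : ℝ} (hη : 0 < η) (x : ℝ) : HH τ η x ≤ 2 / η := by
  unfold HH
  split_ifs with h
  · have h1 : Real.exp (-((τ - x) * η)) ≤ 1 := by
      apply Real.exp_le_one_iff.2
      have : 0 ≤ (τ - x) * η := mul_nonneg (by linarith) hη.le
      linarith
    apply div_le_div_of_nonneg_right _ hη.le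
    linarith
  · apply div_le_div_of_nonneg_right _ hη.le
    have := Real.exp_pos (-((x - τ) * η))
    linarith

theorem HH_left {τ η x y : ℝ} (hη : 0 < η) (hxy : x ≤ y) (hy : y ≤ τ) :
    (y - x) * Real.exp (-((τ - x) * η)) ≤ HH τ η y - HH τ η x := by
  unfold HH
  rw [if_pos hy, if_pos (hxy.trans hy), div_sub_div_same, le_div_iff₀ hη]
  have h1 : Real.exp (-((τ - y) * η)) = Real.exp (-((τ - x) * η)) * Real.exp ((y - x) * η) := by
    rw [← Real.exp_add]; ring_nf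
  have h2 := Real.add_one_le_exp ((y - x) * η)
  have h3 := Real.exp_pos (-((τ - x) * η))
  rw [h1]
  nlinarith

theorem HH_right' {τ η x y : ℝ} (hη : 0 < η) (hxy : x ≤ y) (hx : τ ≤ x) :
    (y - x) * Real.exp (-((y - τ) * η)) ≤ HH τ η y - HH τ η x := by
  have key : ∀ z, τ ≤ z → HH τ η z = (2 - Real.exp (-((z - τ) * η))) / η := by
    intro z hz
    unfold HH
    split_ifs with h
    · have : z = τ := le_antisymm h hz
      rw [this]
      norm_num
    · rfl
  rw [key x hx, key y (hx.trans hxy), div_sub_div_same, le_div_iff₀ hη]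
  have h1 : Real.exp (-((x - τ) * η)) = Real.exp (-((y - τ) * η)) * Real.exp ((y - x) * η) := by
    rw [← Real.exp_add]; ring_nf
  have h2 := Real.add_one_le_exp ((y - x) * η)
  have h3 := Real.exp_pos (-((y - τ) * η))
  rw [h1]
  nlinarith

theorem HH_step {τ η x y : ℝ} (hη : 0 < η) (hxy : x ≤ y) (hx1 : y ≤ x + 1) :
    (y - x) * Real.exp (-(|τ - y| * η)) ≤ Real.exp η * (HH τ η y - HH τ η x) := by
  have hE := Real.exp_pos η
  have h1E : 1 ≤ Real.exp η := Real.one_le_exp hη.le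
  have hyx : 0 ≤ y - x := by linarith
  -- left estimate
  have hL : ∀ z, x ≤ z → z ≤ y → z ≤ τ →
      (z - x) * Real.exp (-(|τ - y| * η)) ≤ Real.exp η * (HH τ η z - HH τ η x) := by
    intro z h1 h2 h3
    have h4 := HH_left hη h1 h3
    have h5 : Real.exp (-(|τ - y| * η)) ≤ Real.exp η * Real.exp (-((τ - x) * η)) := by
      rw [← Real.exp_add]
      apply Real.exp_le_exp.2
      have h6 : τ - x - 1 ≤ |τ - y| := (by linarith : τ - x - 1 ≤ τ - y).trans (le_abs_self _)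
      nlinarith
    calc (z - x) * Real.exp (-(|τ - y| * η))
        ≤ (z - x) * (Real.exp η * Real.exp (-((τ - x) * η))) :=
          mul_le_mul_of_nonneg_left h5 (by linarith)
      _ = Real.exp η * ((z - x) * Real.exp (-((τ - x) * η))) := by ring
      _ ≤ _ := mul_le_mul_of_nonneg_left h4 hE.le
  have hR : ∀ z, x ≤ z → z ≤ y → τ ≤ z →
      (y - z) * Real.exp (-(|τ - y| * η)) ≤ Real.exp η * (HH τ η y - HH τ η z) := by
    intro z h1 h2 h3
    have h4 := HH_right' hη h2 h3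
    have h5 : |τ - y| = y - τ := by
      rw [abs_sub_comm]; exact abs_of_nonneg (by linarith)
    rw [h5]
    have h6 : 0 ≤ (y - z) * Real.exp (-((y - τ) * η)) :=
      mul_nonneg (by linarith) (Real.exp_pos _).le
    nlinarith
  rcases le_total y τ with h | h
  · exact hL y hxy le_rfl h
  · rcases le_total τ x with h' | h'
    · exact hR x le_rfl hxy h'
    · have h1 := hL τ h' h le_rfl
      have h2 := hR τ h' h le_rfl
      nlinarith

/-- The sum of the squares. -/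
theorem sum_odd (n : ℕ) : ∑ j ∈ Finset.range n, (2 * (j : ℝ) + 1) = (n : ℝ) ^ 2 := by
  induction n with
  | zero => simp
  | succ n ih => rw [Finset.sum_range_succ, ih]; push_cast; ring

/-- The rates of the modes. -/
noncomputable def rate (lam t : ℝ) (j : ℕ) : ℝ := al ((j : ℝ) + 1 / 2) lam t

section rate

variable {lam t : ℝ}

theorem nu_pos (j : ℕ) : (0 : ℝ) < (j : ℝ) + 1 / 2 := by positivity

theorem rate_pos (hl : 0 ≤ lam) (j : ℕ) : 0 < rate lam t j := al_pos (nu_pos j) hl t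

theorem rate_diff (hl : 0 ≤ lam) (j : ℕ) :
    (rate lam t (j + 1) - rate lam t j) * (rate lam t (j + 1) + rate lam t j) =
      2 * ((j : ℝ) + 1) := by
  have h1 := al_sq (nu_pos j) hl t
  have h2 := al_sq (nu_pos (j + 1)) hl t
  push_cast at h2
  unfold rate
  push_cast
  linear_combination h2 - h1

theorem rate_mono (hl : 0 ≤ lam) (j : ℕ) : rate lam t j ≤ rate lam t (j + 1) := by
  have h1 := rate_diff (t := t) hl j
  have h2 := rate_pos (t := t) hl j
  have h3 := rate_pos (t := t) hl (j + 1)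
  have h4 : (0 : ℝ) < 2 * ((j : ℝ) + 1) := by positivity
  by_contra hcon
  push Not at hcon
  nlinarith

theorem rate_step (hl : 0 ≤ lam) (j : ℕ) : rate lam t (j + 1) ≤ rate lam t j + 1 := by
  have h1 := rate_diff (t := t) hl j
  have h2 := le_al (nu_pos j) hl t
  have h3 := le_al (nu_pos (j + 1)) hl t
  push_cast at h3
  have h4 : (j : ℝ) + 1 / 2 ≤ rate lam t j := h2
  have h5 : (j : ℝ) + 1 + 1 / 2 ≤ rate lam t (j + 1) := by
    unfold rate; push_cast; exact h3
  have h6 : (0 : ℝ) < (j : ℝ) + 1 := by positivity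
  by_contra hcon
  push Not at hcon
  nlinarith

theorem rate_ratio (hl : 0 ≤ lam) {τ : ℝ} (j : ℕ) :
    (2 * ((j : ℝ) + 1) + 1) / max τ (rate lam t (j + 1)) ≤
      3 * (rate lam t (j + 1) - rate lam t j) := by
  have h1 := rate_diff (t := t) hl j
  have h2 := rate_pos (t := t) hl j
  have h3 := rate_pos (t := t) hl (j + 1)
  have h4 := rate_mono (t := t) hl j
  have h5 : 0 < max τ (rate lam t (j + 1)) := lt_of_lt_of_le h3 (le_max_right _ _)
  have h6 : rate lam t (j + 1) ≤ max τ (rate lam t (j + 1)) := le_max_right _ _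
  rw [div_le_iff₀ h5]
  have h7 : (2 * ((j : ℝ) + 1) + 1) ≤ 3 / 2 * (2 * ((j : ℝ) + 1)) := by
    have : (0 : ℝ) ≤ j := Nat.cast_nonneg j
    linarith
  rw [← h1] at h7
  nlinarith

theorem sum_rate (hl : 0 ≤ lam) {τ η : ℝ} (hη : 0 < η) (n : ℕ) :
    ∑ j ∈ Finset.range n, (rate lam t (j + 1) - rate lam t j) *
      Real.exp (-(|τ - rate lam t (j + 1)| * η)) ≤ Real.exp η * (2 / η) := by
  have h1 : ∑ j ∈ Finset.range n, (rate lam t (j + 1) - rate lam t j) *
      Real.exp (-(|τ - rate lam t (j + 1)| * η)) ≤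
      ∑ j ∈ Finset.range n, Real.exp η * (HH τ η (rate lam t (j + 1)) - HH τ η (rate lam t j)) :=
    Finset.sum_le_sum fun j _ => HH_step hη (rate_mono hl j) (rate_step hl j)
  refine h1.trans ?_
  rw [← Finset.mul_sum, Finset.sum_range_sub (fun j => HH τ η (rate lam t j))]
  apply mul_le_mul_of_nonneg_left _ (Real.exp_pos _).le
  have h2 := HH_le (τ := τ) hη (rate lam t n)
  have h3 := HH_nonneg (τ := τ) hη (rate lam t 0)
  linarith

end rate

/-- Sum of a geometric type. -/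
theorem geom_half {x : ℝ} (hx : 3 / 40 ≤ x) (n : ℕ) :
    ∑ i ∈ Finset.range n, Real.exp (-(x * ((i : ℝ) + 1 / 2))) ≤
      29 / 2 * Real.exp (-(x / 2)) := by
  have hq : ∀ i : ℕ, Real.exp (-(x * ((i : ℝ) + 1 / 2))) =
      Real.exp (-(x / 2)) * Real.exp (-x) ^ i := by
    intro i
    rw [← Real.exp_nat_mul, ← Real.exp_add]
    ring_nf
  simp_rw [hq]
  rw [← Finset.mul_sum, mul_comm]
  apply mul_le_mul_of_nonneg_right _ (Real.exp_pos _).le
  have h1 : Real.exp (-x) ≤ 40 / 43 := by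
    have h2 : Real.exp (-x) ≤ Real.exp (-(3 / 40)) := Real.exp_le_exp.2 (by linarith)
    have h3 := Real.add_one_le_exp (3 / 40 : ℝ)
    have h4 : Real.exp (-(3 / 40 : ℝ)) * Real.exp (3 / 40) = 1 := by
      rw [← Real.exp_add]; simp
    have h5 := Real.exp_pos (-(3 / 40) : ℝ)
    nlinarith
  have h6 : Real.exp (-x) < 1 := by linarith
  have h7 : ∑ i ∈ Finset.range n, Real.exp (-x) ^ i ≤ (1 - Real.exp (-x))⁻¹ := by
    rw [← tsum_geometric_of_lt_one (Real.exp_pos _).le h6]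
    exact (summable_geometric_of_lt_one (Real.exp_pos _).le h6).sum_le_tsum _
      fun i _ => pow_nonneg (Real.exp_pos _).le i
  refine h7.trans ?_
  have h8 : (3 / 43 : ℝ) ≤ 1 - Real.exp (-x) := by linarith
  calc (1 - Real.exp (-x))⁻¹ ≤ (3 / 43 : ℝ)⁻¹ := by gcongr
    _ ≤ 29 / 2 := by norm_num

/-- Sum over the modes of the exponentials. -/
theorem sum_exp {x : ℝ} (hx : 3 / 40 ≤ x) (τ : ℕ) :
    ∑ j ∈ Finset.range (2 * τ), Real.exp (-(x * |(τ : ℝ) - ((j : ℝ) + 1 / 2)|)) ≤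
      29 * Real.exp (-(x / 2)) := by
  rw [two_mul, Finset.sum_range_add]
  have h1 : ∑ j ∈ Finset.range τ, Real.exp (-(x * |(τ : ℝ) - ((j : ℝ) + 1 / 2)|)) =
      ∑ i ∈ Finset.range τ, Real.exp (-(x * ((i : ℝ) + 1 / 2))) := by
    rw [← Finset.sum_range_reflect]
    refine Finset.sum_congr rfl fun i hi => ?_
    have hi' := Finset.mem_range.1 hi
    have h2 : ((τ - 1 - i : ℕ) : ℝ) = (τ : ℝ) - 1 - i := by
      rw [Nat.cast_sub (by omega), Nat.cast_sub (by omega)]
      simp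
    rw [h2]
    congr 3
    have h3 : (τ : ℝ) - ((τ : ℝ) - 1 - i + 1 / 2) = (i : ℝ) + 1 / 2 := by ring
    rw [h3]
    exact abs_of_pos (nu_pos i)
  have h2 : ∑ i ∈ Finset.range τ,
      Real.exp (-(x * |(τ : ℝ) - (((τ + i : ℕ) : ℝ) + 1 / 2)|)) =
      ∑ i ∈ Finset.range τ, Real.exp (-(x * ((i : ℝ) + 1 / 2))) := by
    refine Finset.sum_congr rfl fun i _ => ?_
    congr 3
    push_cast
    have h3 : (τ : ℝ) - ((τ : ℝ) + i + 1 / 2) = -((i : ℝ) + 1 / 2) := by ring
    rw [h3, abs_neg]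
    exact abs_of_pos (nu_pos i)
  rw [h1, h2]
  have h3 := geom_half hx τ
  linarith

section main

variable {lam : ℝ} {φ φ' : ℕ → ℝ → ℝ}

/-- The distance of `τ` to the half integers. -/
theorem half_dist (τ j : ℕ) : (1 / 2 : ℝ) ≤ |(τ : ℝ) - ((j : ℝ) + 1 / 2)| := by
  rcases Nat.lt_or_ge j τ with h | h
  · have h1 : (j : ℝ) + 1 ≤ τ := by exact_mod_cast h
    exact (by linarith : (1 / 2 : ℝ) ≤ (τ : ℝ) - ((j : ℝ) + 1 / 2)).trans (le_abs_self _)
  · have h1 : (τ : ℝ) ≤ j := by exact_mod_cast h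
    rw [abs_sub_comm]
    exact (by linarith : (1 / 2 : ℝ) ≤ ((j : ℝ) + 1 / 2) - (τ : ℝ)).trans (le_abs_self _)

theorem nu_le {τ j : ℕ} (hj : j < 2 * τ) : (j : ℝ) + 1 / 2 ≤ 2 * τ := by
  have h1 : (j : ℝ) + 1 ≤ ((2 * τ : ℕ) : ℝ) := by exact_mod_cast hj
  push_cast at h1
  linarith

/-- The trivial bound of the sum. -/
theorem sum_A (S : ∀ j : ℕ, Sol ((j : ℝ) + 1 / 2) lam (φ j) (φ' j)) {τ : ℕ} (hτ : 1 ≤ τ)
    (t s : ℝ) :
    ∑ j ∈ Finset.range (2 * τ), (2 * (j : ℝ) + 1) * |ker ((j : ℝ) + 1 / 2) lam τ (φ j) t s| ≤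
      72 * τ * Real.exp (-(1 / 40 * |t - s|)) := by
  have hτ0 : (0 : ℝ) < τ := by exact_mod_cast hτ
  have h1 : ∑ j ∈ Finset.range (2 * τ), (2 * (j : ℝ) + 1) *
      |ker ((j : ℝ) + 1 / 2) lam τ (φ j) t s| ≤
      ∑ j ∈ Finset.range (2 * τ), (2 * (j : ℝ) + 1) *
        (18 / τ * Real.exp (-(1 / 40 * |t - s|))) := by
    refine Finset.sum_le_sum fun j hj => ?_
    apply mul_le_mul_of_nonneg_left _ (by positivity)
    exact (S j).ker_bound hτ0 (nu_le (Finset.mem_range.1 hj)) (half_dist τ j) t s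
  refine h1.trans (le_of_eq ?_)
  rw [← Finset.sum_mul, sum_odd]
  push_cast
  field_simp
  ring

/-- The long range bound of the sum. -/
theorem sum_B (S : ∀ j : ℕ, Sol ((j : ℝ) + 1 / 2) lam (φ j) (φ' j)) {τ : ℕ} (hτ : 1 ≤ τ)
    {t s : ℝ} (hst : 1 ≤ |t - s|) :
    ∑ j ∈ Finset.range (2 * τ), (2 * (j : ℝ) + 1) * |ker ((j : ℝ) + 1 / 2) lam τ (φ j) t s| ≤
      130000 * |t - s|⁻¹ * Real.exp (-(1 / 40 * |t - s|)) := by
  have hτ0 : (0 : ℝ) < τ := by exact_mod_cast hτ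
  set δ := |t - s| with hδ
  have hδ0 : 0 < δ := by linarith
  have h1 : ∑ j ∈ Finset.range (2 * τ), (2 * (j : ℝ) + 1) *
      |ker ((j : ℝ) + 1 / 2) lam τ (φ j) t s| ≤
      ∑ j ∈ Finset.range (2 * τ), 56 *
        Real.exp (-(3 / 40 * δ * |(τ : ℝ) - ((j : ℝ) + 1 / 2)|)) := by
    refine Finset.sum_le_sum fun j hj => ?_
    have h2 := (S j).long hτ0 (nu_le (Finset.mem_range.1 hj)) hst
    have h3 : 2 * (j : ℝ) + 1 ≤ 4 * τ := by
      have := nu_le (Finset.mem_range.1 hj)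
      linarith
    calc (2 * (j : ℝ) + 1) * |ker ((j : ℝ) + 1 / 2) lam τ (φ j) t s|
        ≤ (4 * τ) * (14 / τ * Real.exp (-(3 / 40 * δ * |(τ : ℝ) - ((j : ℝ) + 1 / 2)|))) :=
          mul_le_mul h3 h2 (abs_nonneg _) (by positivity)
      _ = _ := by field_simp; ring
  have h2 := sum_exp (x := 3 / 40 * δ) (by linarith) τ
  rw [← Finset.mul_sum] at h1
  have h3 : Real.exp (-(3 / 40 * δ / 2)) ≤ 80 * δ⁻¹ * Real.exp (-(1 / 40 * δ)) := by
    have h4 : Real.exp (-(3 / 40 * δ / 2)) = Real.exp (-(δ / 80)) * Real.exp (-(1 / 40 * δ)) := by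
      rw [← Real.exp_add]; ring_nf
    rw [h4]
    apply mul_le_mul_of_nonneg_right _ (Real.exp_pos _).le
    have h5 := Real.add_one_le_exp (δ / 80)
    have h6 : Real.exp (-(δ / 80)) * Real.exp (δ / 80) = 1 := by
      rw [← Real.exp_add]; simp
    have h7 := Real.exp_pos (-(δ / 80))
    rw [← div_eq_mul_inv, le_div_iff₀ hδ0]
    nlinarith
  have h4 : 0 ≤ δ⁻¹ * Real.exp (-(1 / 40 * δ)) := by positivity
  nlinarith

/-- The short range bound of one mode. -/
theorem short_one {ν : ℝ} {f f' : ℝ → ℝ} (S : Sol ν lam f f') {τ t s : ℝ} (hτ : 0 < τ)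
    (hst : |t - s| ≤ 1) :
    |ker ν lam τ f t s| ≤
      6 * (1 / max τ (al ν lam t) * Real.exp (-(|τ - al ν lam t| * (|t - s| / 2)))) +
        1 / τ * Real.exp (-(τ * |t - s|)) := by
  have hA0 := al_pos S.νpos S.hl t
  have hM : 0 < max τ (al ν lam t) := lt_of_lt_of_le hτ (le_max_left _ _)
  have p1 : 0 ≤ 6 * (1 / max τ (al ν lam t) *
    Real.exp (-(|τ - al ν lam t| * (|t - s| / 2)))) := by positivity
  have p2 : 0 ≤ 1 / τ * Real.exp (-(τ * |t - s|)) := by positivity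
  rcases lt_or_ge (al ν lam t) τ with hα | hα
  · rcases lt_or_ge s t with hs | hs
    · have hδ : |t - s| = t - s := abs_of_pos (by linarith)
      have h1 := S.case1 hα hs (by rw [← hδ]; exact hst)
      have h2 : max τ (al ν lam t) = τ := max_eq_left hα.le
      have h3 : |τ - al ν lam t| = τ - al ν lam t := abs_of_pos (by linarith)
      rw [h2, h3, hδ] at p1 ⊢
      rw [hδ] at p2
      have h4 : (τ - al ν lam t) * (t - s) / 2 = (τ - al ν lam t) * ((t - s) / 2) := by ring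
      rw [h4] at h1
      have h5 : 6 / τ * Real.exp (-((τ - al ν lam t) * ((t - s) / 2))) =
        6 * (1 / τ * Real.exp (-((τ - al ν lam t) * ((t - s) / 2)))) := by ring
      linarith
    · rw [Sol.ker_lt_ge hα hs]
      positivity
  · rcases lt_or_ge s t with hs | hs
    · have hδ : |t - s| = t - s := abs_of_pos (by linarith)
      have h1 := S.case2 hτ hα hs
      rw [hδ] at p1 ⊢
      linarith
    · have hδ : |t - s| = s - t := by rw [abs_sub_comm]; exact abs_of_nonneg (by linarith)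
      have h1 := S.case3 hα hs
      have h2 : max τ (al ν lam t) = al ν lam t := max_eq_right hα
      have h3 : |τ - al ν lam t| = al ν lam t - τ := by
        rw [abs_sub_comm]; exact abs_of_nonneg (by linarith)
      rw [h2, h3, hδ] at p1 ⊢
      rw [hδ] at p2
      have h4 : 1 / al ν lam t * Real.exp (-((al ν lam t - τ) * (s - t))) ≤
          1 / al ν lam t * Real.exp (-((al ν lam t - τ) * ((s - t) / 2))) := by
        apply mul_le_mul_of_nonneg_left _ (by positivity)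
        apply Real.exp_le_exp.2
        have : 0 ≤ (al ν lam t - τ) * (s - t) := mul_nonneg (by linarith) (by linarith)
        linarith
      linarith

/-- The sum of the main parts. -/
theorem sum_main {τ : ℝ} (hτ : 1 ≤ τ) (hl : 0 ≤ lam) (t : ℝ) {δ : ℝ} (hδ : 0 < δ)
    (hδ1 : δ ≤ 1) (n : ℕ) :
    ∑ j ∈ Finset.range n, (2 * (j : ℝ) + 1) * (1 / max τ (rate lam t j) *
      Real.exp (-(|τ - rate lam t j| * (δ / 2)))) ≤ 22 / δ := by
  rcases n with - | n
  · simp only [Finset.range_zero, Finset.sum_empty]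
    positivity
  rw [Finset.sum_range_succ']
  have h0 : (2 * ((0 : ℕ) : ℝ) + 1) * (1 / max τ (rate lam t 0) *
      Real.exp (-(|τ - rate lam t 0| * (δ / 2)))) ≤ 1 / δ := by
    have h1 : 1 / max τ (rate lam t 0) ≤ 1 :=
      (div_le_one (by positivity)).2 (hτ.trans (le_max_left _ _))
    have h2 : Real.exp (-(|τ - rate lam t 0| * (δ / 2))) ≤ 1 := by
      apply Real.exp_le_one_iff.2
      have : 0 ≤ |τ - rate lam t 0| * (δ / 2) := by positivity
      linarith
    have h3 : 1 ≤ 1 / δ := (le_div_iff₀ hδ).2 (by linarith)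
    have h4 : 0 < Real.exp (-(|τ - rate lam t 0| * (δ / 2))) := Real.exp_pos _
    have h5 : 0 ≤ 1 / max τ (rate lam t 0) := by positivity
    have h6 : (2 * ((0 : ℕ) : ℝ) + 1) * (1 / max τ (rate lam t 0) *
      Real.exp (-(|τ - rate lam t 0| * (δ / 2)))) = 1 / max τ (rate lam t 0) *
      Real.exp (-(|τ - rate lam t 0| * (δ / 2))) := by simp
    rw [h6]
    nlinarith
  have h1 : ∑ j ∈ Finset.range n, (2 * ((j + 1 : ℕ) : ℝ) + 1) *
      (1 / max τ (rate lam t (j + 1)) * Real.exp (-(|τ - rate lam t (j + 1)| * (δ / 2)))) ≤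
      ∑ j ∈ Finset.range n, 3 * ((rate lam t (j + 1) - rate lam t j) *
        Real.exp (-(|τ - rate lam t (j + 1)| * (δ / 2)))) := by
    refine Finset.sum_le_sum fun j _ => ?_
    have h2 := rate_ratio (t := t) hl (τ := τ) j
    have h3 := Real.exp_pos (-(|τ - rate lam t (j + 1)| * (δ / 2)))
    calc (2 * ((j + 1 : ℕ) : ℝ) + 1) * (1 / max τ (rate lam t (j + 1)) *
          Real.exp (-(|τ - rate lam t (j + 1)| * (δ / 2))))
        = ((2 * ((j : ℝ) + 1) + 1) / max τ (rate lam t (j + 1))) *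
          Real.exp (-(|τ - rate lam t (j + 1)| * (δ / 2))) := by push_cast; ring
      _ ≤ (3 * (rate lam t (j + 1) - rate lam t j)) *
          Real.exp (-(|τ - rate lam t (j + 1)| * (δ / 2))) :=
          mul_le_mul_of_nonneg_right h2 h3.le
      _ = _ := by ring
  rw [← Finset.mul_sum] at h1
  have h2 := sum_rate (t := t) hl (τ := τ) (η := δ / 2) (by positivity) n
  have h3 : Real.exp (δ / 2) ≤ 7 / 4 := by
    have h4 : Real.exp (δ / 2) ^ 2 ≤ (7 / 4) ^ 2 := by
      rw [← Real.exp_nat_mul]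
      push_cast
      have h5 : (2 : ℝ) * (δ / 2) ≤ 1 := by linarith
      have h6 := Real.exp_le_exp.2 h5
      have h7 := Real.exp_one_lt_d9
      have h8 : (2.7182818286 : ℝ) ≤ (7 / 4) ^ 2 := by norm_num
      linarith
    exact le_of_sq_le_sq h4 (by norm_num)
  have h4 : Real.exp (δ / 2) * (2 / (δ / 2)) ≤ 7 / δ := by
    have h5 : 2 / (δ / 2) = 4 / δ := by field_simp; norm_num
    rw [h5]
    calc Real.exp (δ / 2) * (4 / δ) ≤ 7 / 4 * (4 / δ) :=
          mul_le_mul_of_nonneg_right h3 (by positivity)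
      _ = 7 / δ := by ring
  have h5 : 22 / δ = 3 * (7 / δ) + 1 / δ := by ring
  rw [h5]
  linarith

/-- The short range bound of the sum. -/
theorem sum_C (S : ∀ j : ℕ, Sol ((j : ℝ) + 1 / 2) lam (φ j) (φ' j)) {τ : ℕ} (hτ : 1 ≤ τ)
    {t s : ℝ} (hne : t ≠ s) (hst : |t - s| ≤ 1) :
    ∑ j ∈ Finset.range (2 * τ), (2 * (j : ℝ) + 1) * |ker ((j : ℝ) + 1 / 2) lam τ (φ j) t s| ≤
      140 * |t - s|⁻¹ * Real.exp (-(1 / 40 * |t - s|)) := by
  have hτ1 : (1 : ℝ) ≤ τ := by exact_mod_cast hτ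
  have hτ0 : (0 : ℝ) < τ := by linarith
  have hδ0 : 0 < |t - s| := abs_pos.2 (sub_ne_zero.2 hne)
  set δ := |t - s| with hδ
  have hl : 0 ≤ lam := (S 0).hl
  have h1 : ∑ j ∈ Finset.range (2 * τ), (2 * (j : ℝ) + 1) *
      |ker ((j : ℝ) + 1 / 2) lam τ (φ j) t s| ≤
      ∑ j ∈ Finset.range (2 * τ), (6 * ((2 * (j : ℝ) + 1) *
        (1 / max (τ : ℝ) (rate lam t j) * Real.exp (-(|τ - rate lam t j| * (δ / 2))))) +
        (2 * (j : ℝ) + 1) * (1 / τ * Real.exp (-(τ * δ)))) := by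
    refine Finset.sum_le_sum fun j _ => ?_
    have h2 := short_one (S j) hτ0 hst
    calc (2 * (j : ℝ) + 1) * |ker ((j : ℝ) + 1 / 2) lam τ (φ j) t s|
        ≤ (2 * (j : ℝ) + 1) * _ := mul_le_mul_of_nonneg_left h2 (by positivity)
      _ = _ := by unfold rate; ring
  rw [Finset.sum_add_distrib, ← Finset.mul_sum, ← Finset.sum_mul, sum_odd] at h1
  have h2 := sum_main hτ1 hl t hδ0 hst (2 * τ)
  have h3 : (((2 * τ : ℕ) : ℝ)) ^ 2 * (1 / τ * Real.exp (-(τ * δ))) ≤ 4 / δ := by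
    have h4 := Real.add_one_le_exp ((τ : ℝ) * δ)
    have h5 : Real.exp (-((τ : ℝ) * δ)) * Real.exp ((τ : ℝ) * δ) = 1 := by
      rw [← Real.exp_add]; simp
    have h6 := Real.exp_pos (-((τ : ℝ) * δ))
    have h7 : (((2 * τ : ℕ) : ℝ)) ^ 2 * (1 / τ * Real.exp (-(τ * δ))) =
        4 * (τ * Real.exp (-(τ * δ))) := by
      push_cast
      field_simp
      ring
    rw [h7, le_div_iff₀ hδ0]
    nlinarith
  have h4 : 1 / δ ≤ 40 / 39 * (δ⁻¹ * Real.exp (-(1 / 40 * δ))) := by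
    have h5 : (39 / 40 : ℝ) ≤ Real.exp (-(1 / 40 * δ)) := by
      have := Real.add_one_le_exp (-(1 / 40 * δ))
      linarith
    have h6 : 0 < δ⁻¹ := inv_pos.2 hδ0
    rw [one_div]
    nlinarith
  have h5 : 22 / δ = 22 * (1 / δ) := by ring
  have h6 : 4 / δ = 4 * (1 / δ) := by ring
  rw [h5] at h2
  rw [h6] at h3
  have h7 : 0 < δ⁻¹ * Real.exp (-(1 / 40 * δ)) := by positivity
  nlinarith

/-- The bound of the sum. -/
theorem sum_bound (S : ∀ j : ℕ, Sol ((j : ℝ) + 1 / 2) lam (φ j) (φ' j)) {τ : ℕ} (hτ : 1 ≤ τ)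
    {t s : ℝ} (hne : t ≠ s) :
    ∑ j ∈ Finset.range (2 * τ), (2 * (j : ℝ) + 1) * |ker ((j : ℝ) + 1 / 2) lam τ (φ j) t s| ≤
      130000 * min (τ : ℝ) (|t - s|⁻¹) * Real.exp (-(1 / 40 * |t - s|)) := by
  have hδ0 : 0 < |t - s| := abs_pos.2 (sub_ne_zero.2 hne)
  have hτ0 : (0 : ℝ) < τ := by exact_mod_cast hτ
  have hE := Real.exp_pos (-(1 / 40 * |t - s|))
  have hA := sum_A S hτ t s
  have h1 : ∑ j ∈ Finset.range (2 * τ), (2 * (j : ℝ) + 1) *
      |ker ((j : ℝ) + 1 / 2) lam τ (φ j) t s| ≤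
      130000 * |t - s|⁻¹ * Real.exp (-(1 / 40 * |t - s|)) := by
    rcases le_total 1 |t - s| with h | h
    · exact sum_B S hτ h
    · refine (sum_C S hτ hne h).trans ?_
      have h2 : 0 < |t - s|⁻¹ * Real.exp (-(1 / 40 * |t - s|)) := by positivity
      nlinarith
  rcases le_total (τ : ℝ) (|t - s|⁻¹) with h | h
  · rw [min_eq_left h]
    refine hA.trans ?_
    have : 0 < τ * Real.exp (-(1 / 40 * |t - s|)) := by positivity
    nlinarith
  · rw [min_eq_right h]
    exact h1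

end main

end Pool.Agent.HK.Ker
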