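import Pool.Agent.HK.KerSum

/-!
# Kernels for the low modes (job KE2): representation formula and conclusion
-/

open MeasureTheory Set Filter Topology
open scoped ENNReal NNReal

namespace Pool.Agent.HK.Ker

section green

variable {ν lam : ℝ} {ψ ψ1 U : ℝ → ℝ}

/-- `F = -U'' + α² U`. -/
noncomputable def FF (ν lam : ℝ) (U : ℝ → ℝ) (s : ℝ) : ℝ :=
  - deriv (deriv U) s + (ν ^ 2 + lam * Real.exp (2 * s)) * U s

theorem U_d1 (hU : ContDiff ℝ 2 U) (t : ℝ) : HasDerivAt U (deriv U t) t :=
  (hU.differentiable (by norm_num)).differentiableAt.hasDerivAt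

theorem U_cd1 (hU : ContDiff ℝ 2 U) : ContDiff ℝ 1 (deriv U) :=
  (contDiff_succ_iff_deriv.1 (by rw [one_add_one_eq_two]; exact hU : ContDiff ℝ (1 + 1) U)).2.2

theorem U_d2 (hU : ContDiff ℝ 2 U) (t : ℝ) : HasDerivAt (deriv U) (deriv (deriv U) t) t :=
  ((U_cd1 hU).differentiable (by norm_num)).differentiableAt.hasDerivAt

theorem U_c2 (hU : ContDiff ℝ 2 U) : Continuous (deriv (deriv U)) :=
  (contDiff_one_iff_deriv.1 (U_cd1 hU)).2

theorem FF_cont (hU : ContDiff ℝ 2 U) : Continuous (FF ν lam U) := by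
  unfold FF
  have := U_c2 hU
  have := hU.continuous
  fun_prop

theorem FF_supp (hUs : HasCompactSupport U) : HasCompactSupport (FF ν lam U) := by
  have h1 : HasCompactSupport (deriv (deriv U)) := hUs.deriv.deriv
  have h2 : HasCompactSupport fun s => - deriv (deriv U) s := h1.neg
  have h3 : HasCompactSupport fun s => (ν ^ 2 + lam * Real.exp (2 * s)) * U s := hUs.mul_left
  exact h2.add h3

theorem green_int (hU : ContDiff ℝ 2 U) (hUs : HasCompactSupport U) (hψ : Continuous ψ) :
    Integrable fun s => ψ s * FF ν lam U s :=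
  (hψ.mul (FF_cont hU)).integrable_of_hasCompactSupport (FF_supp hUs).mul_left

theorem green_d (hU : ContDiff ℝ 2 U) (h1 : ∀ t, HasDerivAt ψ (ψ1 t) t)
    (h2 : ∀ t, HasDerivAt ψ1 ((ν ^ 2 + lam * Real.exp (2 * t)) * ψ t) t) (t : ℝ) :
    HasDerivAt (fun s => ψ1 s * U s - ψ s * deriv U s) (ψ t * FF ν lam U t) t := by
  refine (((h2 t).fun_mul (U_d1 hU t)).fun_sub ((h1 t).fun_mul (U_d2 hU t))).congr_deriv ?_
  unfold FF
  ring

theorem green_supp (hUs : HasCompactSupport U) :
    HasCompactSupport (fun s => ψ1 s * U s - ψ s * deriv U s) := by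
  have h2 : HasCompactSupport fun s => ψ1 s * U s := hUs.mul_left
  have h3 : HasCompactSupport fun s => ψ s * deriv U s := hUs.deriv.mul_left
  exact h2.sub h3

theorem green_left (hU : ContDiff ℝ 2 U) (hUs : HasCompactSupport U)
    (h1 : ∀ t, HasDerivAt ψ (ψ1 t) t)
    (h2 : ∀ t, HasDerivAt ψ1 ((ν ^ 2 + lam * Real.exp (2 * t)) * ψ t) t) (t : ℝ) :
    ∫ s in Iic t, ψ s * FF ν lam U s = ψ1 t * U t - ψ t * deriv U t := by
  have hψ : Continuous ψ := continuous_iff_continuousAt.2 fun t => (h1 t).continuousAt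
  have h := integral_Iic_of_hasDerivAt_of_tendsto' (a := t) (m := 0)
    (fun x _ => green_d (ν := ν) (lam := lam) hU h1 h2 x)
    (green_int hU hUs hψ).integrableOn
    ((green_supp (ψ := ψ) (ψ1 := ψ1) hUs).is_zero_at_infty.mono_left atBot_le_cocompact)
  rw [h, sub_zero]

theorem green_right (hU : ContDiff ℝ 2 U) (hUs : HasCompactSupport U)
    (h1 : ∀ t, HasDerivAt ψ (ψ1 t) t)
    (h2 : ∀ t, HasDerivAt ψ1 ((ν ^ 2 + lam * Real.exp (2 * t)) * ψ t) t) (t : ℝ) :
    ∫ s in Ioi t, ψ s * FF ν lam U s = ψ t * deriv U t - ψ1 t * U t := by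
  have hψ : Continuous ψ := continuous_iff_continuousAt.2 fun t => (h1 t).continuousAt
  have h := integral_Ioi_of_hasDerivAt_of_tendsto' (a := t) (m := 0)
    (fun x _ => green_d (ν := ν) (lam := lam) hU h1 h2 x)
    (green_int hU hUs hψ).integrableOn
    ((green_supp (ψ := ψ) (ψ1 := ψ1) hUs).is_zero_at_infty.mono_left atTop_le_cocompact)
  rw [h]
  ring

end green

section rep

variable {ν lam : ℝ} {φ φ' U : ℝ → ℝ}

/-- The solutions `φ (c - P)`. -/
theorem Sol.sec1 (S : Sol ν lam φ φ') (c t : ℝ) :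
    HasDerivAt (fun s => φ s * (c - PP φ s)) (φ' t * (c - PP φ t) - (φ t)⁻¹) t := by
  refine ((S.d1 t).fun_mul ((S.PPd t).const_sub c)).congr_deriv ?_
  have := (S.pos t).ne'
  field_simp
  ring

theorem Sol.sec2 (S : Sol ν lam φ φ') (c t : ℝ) :
    HasDerivAt (fun s => φ' s * (c - PP φ s) - (φ s)⁻¹)
      ((ν ^ 2 + lam * Real.exp (2 * t)) * (φ t * (c - PP φ t))) t := by
  refine (((S.d2 t).fun_mul ((S.PPd t).const_sub c)).fun_sub
    ((S.d1 t).fun_inv (S.pos t).ne')).congr_deriv ?_
  have := (S.pos t).ne'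
  field_simp
  ring

theorem Sol.rep_lt (S : Sol ν lam φ φ') (hU : ContDiff ℝ 2 U) (hUs : HasCompactSupport U)
    (t : ℝ) :
    ∫ s, (if s < t then -(φ t * φ s * (PP φ t - PP φ s)) else 0) * FF ν lam U s = U t := by
  have h := green_left hU hUs (S.sec1 (PP φ t)) (S.sec2 (PP φ t)) t
  have h1 : ∫ s, (if s < t then -(φ t * φ s * (PP φ t - PP φ s)) else 0) * FF ν lam U s =
      ∫ s in Iio t, -φ t * (φ s * (PP φ t - PP φ s) * FF ν lam U s) := by
    rw [← integral_indicator measurableSet_Iio]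
    refine integral_congr_ae (Eventually.of_forall fun s => ?_)
    simp only [indicator, mem_Iio]
    split_ifs
    · ring
    · ring
  rw [h1, ← integral_Iic_eq_integral_Iio, integral_const_mul, h]
  have := (S.pos t).ne'
  field_simp
  ring

theorem Sol.rep_ge (S : Sol ν lam φ φ') (hU : ContDiff ℝ 2 U) (hUs : HasCompactSupport U)
    (t : ℝ) :
    ∫ s, (if s < t then φ s * plus φ t else φ t * plus φ s) * FF ν lam U s = U t := by
  have h1 := green_left hU hUs S.d1 S.d2 t
  have h2 := green_right hU hUs (S.sec1 (Pinf φ)) (S.sec2 (Pinf φ)) t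
  have i1 := green_int (ν := ν) (lam := lam) hU hUs S.cont
  have i2 : Integrable fun s => (φ s * (Pinf φ - PP φ s)) * FF ν lam U s :=
    green_int hU hUs (S.cont.mul (continuous_const.sub S.PPcont))
  have e1 : EqOn (fun s => (if s < t then φ s * plus φ t else φ t * plus φ s) * FF ν lam U s)
      (fun s => plus φ t * (φ s * FF ν lam U s)) (Iio t) := by
    intro s hs
    simp only [mem_Iio] at hs
    simp only [if_pos hs]
    ring
  have e2 : EqOn (fun s => (if s < t then φ s * plus φ t else φ t * plus φ s) * FF ν lam U s)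
      (fun s => φ t * ((φ s * (Pinf φ - PP φ s)) * FF ν lam U s)) (Ici t) := by
    intro s hs
    simp only [mem_Ici] at hs
    simp only [if_neg (not_lt.2 hs), plus]
    ring
  rw [← intervalIntegral.integral_Iio_add_Ici (b := t)
    ((integrableOn_congr_fun e1 measurableSet_Iio).2 (i1.const_mul _).integrableOn)
    ((integrableOn_congr_fun e2 measurableSet_Ici).2 (i2.const_mul _).integrableOn),
    setIntegral_congr_fun measurableSet_Iio e1, setIntegral_congr_fun measurableSet_Ici e2,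
    integral_const_mul, integral_const_mul, ← integral_Iic_eq_integral_Iio,
    integral_Ici_eq_integral_Ioi, h1, h2]
  unfold plus
  have := (S.pos t).ne'
  field_simp
  ring

theorem Sol.rep (S : Sol ν lam φ φ') (τ : ℝ) (hU : ContDiff ℝ 2 U)
    (hUs : HasCompactSupport U) (t : ℝ) :
    Real.exp (-τ * t) * U t =
      ∫ s, ker ν lam τ φ t s * (Real.exp (-τ * s) * FF ν lam U s) := by
  have h1 : ∀ s, ker ν lam τ φ t s * (Real.exp (-τ * s) * FF ν lam U s) =
      Real.exp (-τ * t) * ((if al ν lam t < τ then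
        (if s < t then -(φ t * φ s * (PP φ t - PP φ s)) else 0)
      else if s < t then φ s * plus φ t else φ t * plus φ s) * FF ν lam U s) := by
    intro s
    have h2 : Real.exp (-τ * t) = Real.exp (-(τ * (t - s))) * Real.exp (-τ * s) := by
      rw [← Real.exp_add]; ring_nf
    rw [h2]
    unfold ker
    ring
  simp_rw [h1]
  rw [integral_const_mul]
  congr 1
  split_ifs with hα
  · exact (S.rep_lt hU hUs t).symm
  · exact (S.rep_ge hU hUs t).symm

theorem Sol.ker_meas (S : Sol ν lam φ φ') (τ : ℝ) :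
    Measurable fun p : ℝ × ℝ => ker ν lam τ φ p.1 p.2 := by
  have h1 : Measurable φ := S.cont.measurable
  have h2 : Measurable (PP φ) := S.PPcont.measurable
  have h3 : Measurable (plus φ) := h1.mul (measurable_const.sub h2)
  have h4 : Measurable (al ν lam) := continuous_al.measurable
  have h5 : MeasurableSet {p : ℝ × ℝ | p.2 < p.1} := measurableSet_lt measurable_snd measurable_fst
  unfold ker
  refine Measurable.mul (by fun_prop) (Measurable.ite ?_ (Measurable.ite h5 ?_ ?_)
    (Measurable.ite h5 ?_ ?_))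
  · exact measurableSet_lt (h4.comp measurable_fst) measurable_const
  · fun_prop
  · fun_prop
  · fun_prop
  · fun_prop

end rep

end Pool.Agent.HK.Ker

namespace Pool.Agent.HK

open Ker in
theorem target_Kernel (hP : Target_Phi) : Target_Kernel := by
  refine ⟨130000, 1 / 40, by norm_num, by norm_num, fun τ hτ lam hl => ?_⟩
  have h : ∀ j : ℕ, ∃ φ φ' : ℝ → ℝ, Sol ((j : ℝ) + 1 / 2) lam φ φ' := by
    intro j
    obtain ⟨φ, φ', h1, h2, h3, h4, h5⟩ := hP ((j : ℝ) + 1 / 2) lam (nu_pos j) hl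
    exact ⟨φ, φ', by have : (0 : ℝ) ≤ j := Nat.cast_nonneg j
                     linarith, hl, h1, h2, h3, h4, h5⟩
  choose φ φ' S using h
  have hτ0 : (0 : ℝ) < τ := by exact_mod_cast hτ
  refine ⟨fun j t s => ker ((j : ℝ) + 1 / 2) lam τ (φ j) t s, fun j => (S j).ker_meas τ,
    fun j _ U hU hUs t => (S j).rep τ hU hUs t, fun j hj t s => ?_, fun t s hne => ?_⟩
  · refine ((S j).ker_bound hτ0 (nu_le hj) (half_dist τ j) t s).trans ?_
    rw [neg_mul]
    have h1 : (18 : ℝ) / τ ≤ 130000 / τ := div_le_div_of_nonneg_right (by norm_num) hτ0.le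
    exact mul_le_mul_of_nonneg_right h1 (Real.exp_pos _).le
  · rw [neg_mul]
    exact sum_bound S hτ hne

end Pool.Agent.HK
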