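import Pool.Agent.HK.Spec

/-!
# Lax-Milgram: the compact picture of a closed form
-/

open MeasureTheory Set Filter Topology
open scoped ENNReal NNReal InnerProductSpace

namespace Pool.Agent.HK.LMaux

section

variable {W H : Type} [NormedAddCommGroup W] [InnerProductSpace ℝ W] [CompleteSpace W]
    [NormedAddCommGroup H] [InnerProductSpace ℝ H] [CompleteSpace H]

/-- the form `⟨K x, y⟩ + ε ⟨x, y⟩` -/
noncomputable def epsForm (K : H →L[ℝ] H) (ε : ℝ) : H →L[ℝ] H →L[ℝ] ℝ :=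
  (innerSL ℝ).comp (K + ε • ContinuousLinearMap.id ℝ H)

lemma epsForm_apply (K : H →L[ℝ] H) (ε : ℝ) (x y : H) :
    epsForm K ε x y = ⟪K x + ε • x, y⟫_ℝ := by
  change ⟪(K + ε • ContinuousLinearMap.id ℝ H) x, y⟫_ℝ = _
  simp

lemma epsForm_coercive (K : H →L[ℝ] H) (hK : ∀ x, 0 ≤ ⟪K x, x⟫_ℝ) {ε : ℝ} (hε : 0 < ε) :
    IsCoercive (epsForm K ε) := by
  refine ⟨ε, hε, fun u => ?_⟩
  rw [epsForm_apply, inner_add_left, real_inner_smul_left, real_inner_self_eq_norm_mul_norm]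
  nlinarith [hK u]

open Classical in
/-- `(K + ε)⁻¹` for `ε > 0` -/
noncomputable def res (K : H →L[ℝ] H) (hK : ∀ x, 0 ≤ ⟪K x, x⟫_ℝ) (ε : ℝ) : H →L[ℝ] H :=
  if hε : 0 < ε then
    ((epsForm_coercive K hK hε).continuousLinearEquivOfBilin.symm : H →L[ℝ] H)
  else 0

lemma equiv_apply (K : H →L[ℝ] H) (hK : ∀ x, 0 ≤ ⟪K x, x⟫_ℝ) {ε : ℝ} (hε : 0 < ε) (x : H) :
    (epsForm_coercive K hK hε).continuousLinearEquivOfBilin x = K x + ε • x := by
  refine ext_inner_right ℝ fun y => ?_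
  rw [IsCoercive.continuousLinearEquivOfBilin_apply, epsForm_apply]

lemma K_res (K : H →L[ℝ] H) (hK : ∀ x, 0 ≤ ⟪K x, x⟫_ℝ) {ε : ℝ} (hε : 0 < ε) (x : H) :
    K (res K hK ε x) + ε • res K hK ε x = x := by
  rw [← equiv_apply K hK hε]
  simp [res, hε]

lemma res_K (K : H →L[ℝ] H) (hK : ∀ x, 0 ≤ ⟪K x, x⟫_ℝ) {ε : ℝ} (hε : 0 < ε) (x : H) :
    res K hK ε (K x) + ε • res K hK ε x = x := by
  rw [← map_smul, ← map_add, ← equiv_apply K hK hε]
  simp [res, hε]

end

end Pool.Agent.HK.LMaux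

namespace Pool.Agent.HK

open LMaux

theorem target_LM : Target_LM := by
  intro W H _ _ _ _ _ _ ι a hι hsymm hco
  set T : W ≃L[ℝ] W := hco.continuousLinearEquivOfBilin with hT
  have hTa : ∀ v w, ⟪T v, w⟫_ℝ = a v w := fun v w => hco.continuousLinearEquivOfBilin_apply v w
  set kk : H →L[ℝ] W := (T.symm : W →L[ℝ] W).comp (ContinuousLinearMap.adjoint ι) with hkk
  have hk : ∀ h f, a (kk h) f = ⟪h, ι f⟫_ℝ := by
    intro h f
    rw [← hTa]
    simp only [hkk, ContinuousLinearMap.comp_apply, ContinuousLinearEquiv.coe_coe,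
      ContinuousLinearEquiv.apply_symm_apply]
    rw [ContinuousLinearMap.adjoint_inner_left]
  set K : H →L[ℝ] H := ι.comp kk with hKdef
  have hιk : ∀ h, ι (kk h) = K h := fun h => rfl
  have hKsymm : ∀ x y, ⟪K x, y⟫_ℝ = ⟪x, K y⟫_ℝ := by
    intro x y
    rw [real_inner_comm, ← hιk x, ← hk, hsymm, hk, hιk]
  obtain ⟨c, hc, hcc⟩ := hco
  have hapos : ∀ f, 0 ≤ a f f := fun f =>
    le_trans (by positivity) (hcc f)
  have hKpos : ∀ x, 0 ≤ ⟪K x, x⟫_ℝ := by
    intro x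
    rw [real_inner_comm, ← hιk x, ← hk]
    exact hapos _
  refine ⟨K, res K hKpos, kk, hKsymm, hKpos, hιk, hk, fun ε hε x => K_res K hKpos hε x,
    fun ε hε x => res_K K hKpos hε x, ?_⟩
  intro f
  set x := ι f with hx
  set R := res K hKpos with hR
  have hKR : ∀ ε > 0, K (R ε x) + ε • R ε x = x := fun ε hε => K_res K hKpos hε x
  have hιkε : ∀ ε > 0, ι (kk (R ε x)) = x - ε • R ε x := by
    intro ε hε
    rw [hιk]
    exact eq_sub_of_add_eq (hKR ε hε)
  have h1 : ∀ ε, ⟪R ε x, x⟫_ℝ = a (kk (R ε x)) f := fun ε => (hk _ _).symm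
  -- `ε |R x|² ≤ ⟨R x, x⟩`
  have h2 : ∀ ε > 0, ε * ‖R ε x‖ ^ 2 ≤ ⟪R ε x, x⟫_ℝ := by
    intro ε hε
    have : ⟪R ε x, x⟫_ℝ = ⟪K (R ε x), R ε x⟫_ℝ + ε * ‖R ε x‖ ^ 2 := by
      have e := hKR ε hε
      calc ⟪R ε x, x⟫_ℝ = ⟪R ε x, K (R ε x) + ε • R ε x⟫_ℝ := by rw [e]
        _ = _ := by
          rw [inner_add_right, real_inner_smul_right, real_inner_self_eq_norm_sq,
            real_inner_comm]
    rw [this]
    have := hKpos (R ε x)
    linarith
  have h3 : ∀ ε > 0, a (kk (R ε x)) (kk (R ε x)) ≤ a (kk (R ε x)) f := by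
    intro ε hε
    rw [hk, hιkε ε hε, inner_sub_right, real_inner_smul_right, real_inner_self_eq_norm_sq,
      ← h1]
    have : 0 ≤ ε * ‖R ε x‖ ^ 2 := by positivity
    linarith
  -- `q = a f f - a (k_ε) f ≥ a (f - k_ε) (f - k_ε)`
  have h4 : ∀ ε > 0, a (f - kk (R ε x)) (f - kk (R ε x)) ≤ a f f - a (kk (R ε x)) f := by
    intro ε hε
    have e : a (f - kk (R ε x)) (f - kk (R ε x)) =
        a f f - a (kk (R ε x)) f - a f (kk (R ε x)) + a (kk (R ε x)) (kk (R ε x)) := by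
      simp only [map_sub, sub_apply]
      ring
    rw [e]
    linarith [h3 ε hε, hsymm f (kk (R ε x))]
  have h5 : ∀ ε > 0, 0 ≤ a f f - a (kk (R ε x)) f := fun ε hε =>
    (hapos _).trans (h4 ε hε)
  have h6 : ∀ ε > 0, 0 ≤ a (kk (R ε x)) f := fun ε hε => (hapos _).trans (h3 ε hε)
  have h7 : ∀ ε > 0, ‖f - kk (R ε x)‖ ≤ Real.sqrt (a f f / c) := by
    intro ε hε
    apply Real.le_sqrt_of_sq_le
    rw [le_div_iff₀ hc]
    have := hcc (f - kk (R ε x))
    nlinarith [h4 ε hε, h6 ε hε]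
  have h8 : ∀ ε > 0, ‖ε • R ε x‖ ≤ Real.sqrt (ε * a f f) := by
    intro ε hε
    apply Real.le_sqrt_of_sq_le
    rw [norm_smul, Real.norm_of_nonneg hε.le, mul_pow]
    have := h2 ε hε
    rw [h1] at this
    have h5' := h5 ε hε
    have : ε * (ε * ‖R ε x‖ ^ 2) ≤ ε * a f f := mul_le_mul_of_nonneg_left (by linarith) hε.le
    nlinarith
  -- density
  have hdense : Dense (range kk) := by
    have hd : Dense (range (ContinuousLinearMap.adjoint ι)) := by
      have h0 : (ContinuousLinearMap.adjoint ι).range.topologicalClosure = ⊤ := by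
        rw [Submodule.topologicalClosure_eq_top_iff, ContinuousLinearMap.orthogonal_range,
          ContinuousLinearMap.adjoint_adjoint]
        exact LinearMap.ker_eq_bot.2 hι
      rw [← Submodule.dense_iff_topologicalClosure_eq_top] at h0
      have h1 : ((ContinuousLinearMap.adjoint ι).range : Set W) =
          range (ContinuousLinearMap.adjoint ι) := by
        ext z; simp
      rwa [h1] at h0
    have : range kk = T.symm '' (range (ContinuousLinearMap.adjoint ι)) := by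
      rw [← range_comp]; rfl
    rw [this]
    exact T.symm.surjective.denseRange.dense_image T.symm.continuous hd
  rw [Metric.tendsto_nhds]
  intro δ hδ
  set B : ℝ := ‖a‖ * Real.sqrt (a f f / c) with hB
  have hB0 : 0 ≤ B := by positivity
  obtain ⟨_, ⟨h, rfl⟩, hh⟩ := hdense.exists_dist_lt f (show 0 < δ / (2 * (B + 1)) by positivity)
  have hlim : Tendsto (fun ε : ℝ => ‖h‖ * Real.sqrt (ε * a f f)) (𝓝[>] 0) (𝓝 0) := by
    have : Tendsto (fun ε : ℝ => ‖h‖ * Real.sqrt (ε * a f f)) (𝓝 0)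
        (𝓝 (‖h‖ * Real.sqrt (0 * a f f))) := by
      apply Continuous.tendsto
      fun_prop
    simp only [zero_mul, Real.sqrt_zero, mul_zero] at this
    exact this.mono_left nhdsWithin_le_nhds
  have hev := hlim.eventually (gt_mem_nhds (show (0 : ℝ) < δ / 2 by positivity))
  filter_upwards [hev, self_mem_nhdsWithin] with ε hε1 hε2
  have hε : 0 < ε := hε2
  rw [Real.dist_eq, abs_sub_comm, h1, abs_of_nonneg (h5 ε hε)]
  have e1 : a f f - a (kk (R ε x)) f =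
      a (f - kk (R ε x)) (f - kk h) + ⟪h, ε • R ε x⟫_ℝ := by
    have : ⟪h, ε • R ε x⟫_ℝ = a (kk h) (f - kk (R ε x)) := by
      rw [hk, map_sub, hιkε ε hε, ← hx]
      congr 1
      abel
    rw [this, hsymm (kk h)]
    simp only [map_sub, sub_apply]
    ring
  rw [e1]
  have e2 : a (f - kk (R ε x)) (f - kk h) ≤ B * (δ / (2 * (B + 1))) := by
    have t1 : a (f - kk (R ε x)) (f - kk h) ≤ ‖a‖ * ‖f - kk (R ε x)‖ * ‖f - kk h‖ :=
      (le_abs_self _).trans (a.le_opNorm₂ _ _)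
    have t2 : ‖a‖ * ‖f - kk (R ε x)‖ ≤ B := mul_le_mul_of_nonneg_left (h7 ε hε) (by positivity)
    have t3 : ‖f - kk h‖ ≤ δ / (2 * (B + 1)) := by
      rw [← dist_eq_norm]; exact hh.le
    exact t1.trans (mul_le_mul t2 t3 (norm_nonneg _) hB0)
  have e3 : ⟪h, ε • R ε x⟫_ℝ ≤ ‖h‖ * Real.sqrt (ε * a f f) :=
    (real_inner_le_norm _ _).trans (mul_le_mul_of_nonneg_left (h8 ε hε) (norm_nonneg _))
  have e4 : B * (δ / (2 * (B + 1))) ≤ δ / 2 := by
    rw [mul_div_assoc', div_le_div_iff₀ (by positivity) (by norm_num)]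
    nlinarith
  linarith

end Pool.Agent.HK
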