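import Pool.Agent.HK.Spec

/-!
# A square integrable function of two variables as an `L²`-valued function of the first one
-/

open MeasureTheory Set Filter Topology
open scoped ENNReal NNReal InnerProductSpace

namespace Pool.Agent.HK

namespace Lift

/-- A map into a second countable metric space with measurable distance functions is measurable. -/
lemma measurable_of_edist {X F : Type*} [MeasurableSpace X] [PseudoMetricSpace F]
    [SecondCountableTopology F] [MeasurableSpace F] [BorelSpace F] {f : X → F}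
    (h : ∀ c : F, Measurable fun x => edist (f x) c) : Measurable f := by
  refine measurable_of_isOpen fun U hU => ?_
  obtain ⟨D, hDc, hD⟩ := TopologicalSpace.exists_countable_dense F
  have hU' : f ⁻¹' U = ⋃ c ∈ D, ⋃ q ∈ {q : ℚ | Metric.eball c (ENNReal.ofReal q) ⊆ U},
      (fun x => edist (f x) c) ⁻¹' (Iio (ENNReal.ofReal q)) := by
    ext x
    simp only [mem_preimage, mem_iUnion, mem_Iio, exists_prop, Set.mem_ofPred_eq]
    constructor
    · intro hx
      obtain ⟨ε, hε, hεU⟩ := Metric.isOpen_iff.1 hU (f x) hx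
      obtain ⟨c, hcD, hc⟩ := Metric.dense_iff.1 hD (f x) (ε / 2) (half_pos hε)
      obtain ⟨q, hq1, hq2⟩ := exists_rat_btwn (Metric.mem_ball.1 hcD)
      refine ⟨c, hc, q, ?_, ?_⟩
      · intro z hz
        apply hεU
        have hq0 : (0 : ℝ) < q := lt_of_le_of_lt dist_nonneg hq1
        have hz' : dist z c < q := by
          have : edist z c < ENNReal.ofReal q := hz
          rw [edist_dist] at this
          exact (ENNReal.ofReal_lt_ofReal_iff hq0).1 this
        rw [Metric.mem_ball]
        calc dist z (f x) ≤ dist z c + dist c (f x) := dist_triangle _ _ _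
          _ < ε / 2 + ε / 2 := by
              refine add_lt_add (hz'.trans hq2) ?_
              exact hq1.trans hq2
          _ = ε := by ring
      · rw [edist_dist]
        have hq0 : (0 : ℝ) < q := lt_of_le_of_lt dist_nonneg hq1
        rw [dist_comm] at hq1
        exact (ENNReal.ofReal_lt_ofReal_iff hq0).2 hq1
    · rintro ⟨c, -, q, hq, hx⟩
      exact hq hx
  rw [hU']
  refine MeasurableSet.biUnion hDc fun c _ => MeasurableSet.biUnion (Set.to_countable _) fun q _ => ?_
  exact (h c) measurableSet_Iio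

open Classical in
/-- The lifted function. -/
noncomputable def lift {X Y : Type*} [MeasurableSpace Y] (ν : Measure Y) (g : X × Y → ℝ) (x : X) :
    Lp ℝ 2 ν :=
  if h : MemLp (fun y => g (x, y)) 2 ν then h.toLp else 0

lemma lift_coe {X Y : Type*} [MeasurableSpace Y] (ν : Measure Y) {g : X × Y → ℝ} {x : X}
    (h : MemLp (fun y => g (x, y)) 2 ν) :
    (lift ν g x : Y → ℝ) =ᵐ[ν] fun y => g (x, y) := by
  rw [lift, dif_pos h]
  exact h.coeFn_toLp

section

variable {X Y : Type*} [MeasurableSpace X] [MeasurableSpace Y] {μ : Measure X} {ν : Measure Y}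
  [SFinite ν] {g : X × Y → ℝ}

lemma measurable_eLpNorm_slice {k : X × Y → ℝ} (hk : Measurable k) :
    Measurable fun x => eLpNorm (fun y => k (x, y)) 2 ν := by
  have : (fun x => eLpNorm (fun y => k (x, y)) 2 ν) =
      fun x => (∫⁻ y, ‖k (x, y)‖ₑ ^ (2 : ℝ) ∂ν) ^ (1 / 2 : ℝ) := by
    funext x
    rw [eLpNorm_eq_lintegral_rpow_enorm_toReal (by norm_num) (by norm_num)]
    simp
  rw [this]
  refine Measurable.pow_const ?_ _
  exact Measurable.lintegral_prod_right' (f := fun p : X × Y => ‖k p‖ₑ ^ (2 : ℝ))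
    (hk.enorm.pow_const _)

lemma measurable_lift [SecondCountableTopology (Lp ℝ 2 ν)] [MeasurableSpace (Lp ℝ 2 ν)]
    [BorelSpace (Lp ℝ 2 ν)] (hg : Measurable g) : Measurable (lift ν g) := by
  classical
  refine measurable_of_edist fun f => ?_
  have hf : Measurable (f : Y → ℝ) := (Lp.stronglyMeasurable f).measurable
  have hmem : ∀ x, MemLp (fun y => g (x, y)) 2 ν ↔ eLpNorm (fun y => g (x, y)) 2 ν < ⊤ := by
    intro x
    exact ⟨fun h => h.2, fun h => ⟨(hg.comp measurable_prodMk_left).aestronglyMeasurable, h⟩⟩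
  have he : (fun x => edist (lift ν g x) f) = fun x =>
      if eLpNorm (fun y => g (x, y)) 2 ν < ⊤ then
        eLpNorm (fun y => g (x, y) - (f : Y → ℝ) y) 2 ν else edist (0 : Lp ℝ 2 ν) f := by
    funext x
    by_cases h : MemLp (fun y => g (x, y)) 2 ν
    · rw [if_pos ((hmem x).1 h), lift, dif_pos h, Lp.edist_def]
      refine eLpNorm_congr_ae ?_
      filter_upwards [h.coeFn_toLp] with y hy
      simp [hy]
    · rw [if_neg (fun h' => h ((hmem x).2 h')), lift, dif_neg h]
  rw [he]
  refine Measurable.ite ?_ ?_ measurable_const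
  · exact (measurable_eLpNorm_slice hg) measurableSet_Iio
  · exact measurable_eLpNorm_slice (k := fun p => g p - (f : Y → ℝ) p.2)
      (hg.sub (hf.comp measurable_snd))

lemma memLp_lift [SecondCountableTopology (Lp ℝ 2 ν)] [SFinite μ] (hg : Measurable g)
    (hg2 : MemLp g 2 (μ.prod ν)) :
    MemLp (lift ν g) 2 μ ∧ ∀ᵐ x ∂μ, (lift ν g x : Y → ℝ) =ᵐ[ν] fun y => g (x, y) := by
  borelize ↥(Lp ℝ 2 ν)
  have hfin : ∫⁻ x, ∫⁻ y, ‖g (x, y)‖ₑ ^ (2 : ℝ) ∂ν ∂μ < ⊤ := by
    have h1 := lintegral_rpow_enorm_lt_top_of_eLpNorm_lt_top (p := 2) (by norm_num) (by norm_num)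
      hg2.2
    rw [lintegral_prod _ (by fun_prop)] at h1
    simpa using h1
  have hmeas : Measurable fun x => ∫⁻ y, ‖g (x, y)‖ₑ ^ (2 : ℝ) ∂ν :=
    Measurable.lintegral_prod_right' (f := fun p : X × Y => ‖g p‖ₑ ^ (2 : ℝ))
      (hg.enorm.pow_const _)
  have hae : ∀ᵐ x ∂μ, MemLp (fun y => g (x, y)) 2 ν := by
    filter_upwards [ae_lt_top hmeas hfin.ne] with x hx
    refine ⟨(hg.comp measurable_prodMk_left).aestronglyMeasurable, ?_⟩
    rw [eLpNorm_lt_top_iff_lintegral_rpow_enorm_lt_top (by norm_num) (by norm_num)]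
    simpa using hx
  refine ⟨⟨(measurable_lift hg).aestronglyMeasurable, ?_⟩, ?_⟩
  · rw [eLpNorm_lt_top_iff_lintegral_rpow_enorm_lt_top (by norm_num) (by norm_num)]
    refine lt_of_le_of_lt (le_of_eq ?_) hfin
    refine lintegral_congr_ae ?_
    filter_upwards [hae] with x hx
    rw [Lp.enorm_def, lift, dif_pos hx, eLpNorm_congr_ae hx.coeFn_toLp,
      eLpNorm_eq_lintegral_rpow_enorm_toReal (by norm_num) (by norm_num)]
    rw [← ENNReal.rpow_mul]
    simp
  · filter_upwards [hae] with x hx
    exact lift_coe ν hx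

end

lemma measurePreserving_cons (n : ℕ) :
    MeasurePreserving (fun p : E3 × Conf n => (Fin.cons p.1 p.2 : Conf (n + 1)))
      (volume.prod volume) volume := by
  have h := (volume_preserving_piFinSuccAbove (fun _ : Fin (n + 1) => E3) 0).symm
  have h2 : (⇑(MeasurableEquiv.piFinSuccAbove (fun _ : Fin (n + 1) => E3) 0).symm) =
      fun p : E3 × Conf n => (Fin.cons p.1 p.2 : Conf (n + 1)) := by
    funext p
    simp [MeasurableEquiv.piFinSuccAbove]
    rfl
  rw [h2] at h
  exact h

end Lift

/-- An `L²` function of the pair `x, y` is an `L²` function of `x` with values in `L²(dy)`. -/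
theorem target_Lift : Target_Lift := by
  intro n φ hφ
  have hmp := Lift.measurePreserving_cons n
  have hg : MemLp (fun p : E3 × Conf n => φ (Fin.cons p.1 p.2)) 2
      ((volume : Measure E3).prod (volume : Measure (Conf n))) :=
    hφ.comp_measurePreserving hmp
  set g : E3 × Conf n → ℝ := fun p => φ (Fin.cons p.1 p.2) with hgdef
  have hmk : StronglyMeasurable (hg.1.mk g) := hg.1.stronglyMeasurable_mk
  have hae : g =ᵐ[(volume : Measure E3).prod (volume : Measure (Conf n))] hg.1.mk g :=
    hg.1.ae_eq_mk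
  have hg' : MemLp (hg.1.mk g) 2 ((volume : Measure E3).prod (volume : Measure (Conf n))) :=
    (memLp_congr_ae hae).1 hg
  have hfact : Fact ((2 : ℝ≥0∞) ≠ ⊤) := ⟨by norm_num⟩
  have hsc : SecondCountableTopology ↥(Lp ℝ 2 (volume : Measure (Conf n))) :=
    Lp.SecondCountableTopology
  obtain ⟨h1, h2⟩ := Lift.memLp_lift hmk.measurable hg'
  refine ⟨Lift.lift volume (hg.1.mk g), h1, ?_⟩
  filter_upwards [h2, Measure.ae_ae_of_ae_prod hae] with x hx hx'
  refine hx.trans ?_
  filter_upwards [hx'] with y hy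
  exact hy.symm

end Pool.Agent.HK
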