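import Pool.Agent.HK.LowD

/-!
# Low modes (job LO): the bounds
-/

set_option autoImplicit false

open MeasureTheory Set Filter Topology
open scoped ENNReal NNReal InnerProductSpace

namespace Pool.Agent.HK.LowM

open Pool.Agent.HK

lemma ofReal_slice {f : ℝ × S2 → ℝ} (hf : Continuous f) (t : ℝ) :
    ENNReal.ofReal ((∫ ω, |f (t, ω)| ^ (6 / 5 : ℝ) ∂sig) ^ (5 / 6 : ℝ)) = N (6 / 5) f t := by
  rw [ofReal_norm_rpow (slice_cont hf t) (by norm_num) _ (by norm_num)]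
  unfold N
  norm_num

lemma ofReal_slice2 {f : ℝ × S2 → ℝ} (hf : Continuous f) (t : ℝ) :
    ENNReal.ofReal ((∫ ω, f (t, ω) ^ 2 ∂sig) ^ (1 / 2 : ℝ)) = N 2 f t := by
  rw [ofReal_norm_sq (slice_cont hf t)]
  rfl

lemma sliceN_nonneg (f : ℝ × S2 → ℝ) (t : ℝ) :
    0 ≤ (∫ ω, |f (t, ω)| ^ (6 / 5 : ℝ) ∂sig) ^ (5 / 6 : ℝ) :=
  Real.rpow_nonneg (integral_nonneg fun ω => by positivity) _

lemma sliceN2_nonneg (f : ℝ × S2 → ℝ) (t : ℝ) :
    0 ≤ (∫ ω, f (t, ω) ^ 2 ∂sig) ^ (1 / 2 : ℝ) :=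
  Real.rpow_nonneg (integral_nonneg fun ω => by positivity) _

lemma enorm_le_of_abs_le {x k a b : ℝ} {K A B : ℝ≥0∞} (hk : 0 ≤ k) (ha : 0 ≤ a)
    (h : |x| ≤ k * a * b) (hK : ENNReal.ofReal k = K) (hA : ENNReal.ofReal a = A)
    (hB : ENNReal.ofReal b = B) : ‖x‖ₑ ≤ K * A * B := by
  rw [Real.enorm_eq_ofReal_abs, ← hK, ← hA, ← hB, ← ENNReal.ofReal_mul hk,
    ← ENNReal.ofReal_mul (by positivity)]
  exact ENNReal.ofReal_le_ofReal h

lemma norm6 {L : ℝ × S2 → ℝ} (hL : Continuous L) (hLt : TS L) :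
    ‖∫ z, L z * L z ^ 5 ∂((volume : Measure ℝ).prod sig)‖ₑ =
      ∫⁻ z, ‖L z‖ₑ ^ (6 : ℝ) ∂((volume : Measure ℝ).prod sig) ∧
    eLpNorm (fun z => L z ^ 5) (ENNReal.ofReal (6 / 5)) ((volume : Measure ℝ).prod sig) =
      (∫⁻ z, ‖L z‖ₑ ^ (6 : ℝ) ∂((volume : Measure ℝ).prod sig)) ^ (5 / 6 : ℝ) ∧
    eLpNorm L 6 ((volume : Measure ℝ).prod sig) =
      (∫⁻ z, ‖L z‖ₑ ^ (6 : ℝ) ∂((volume : Measure ℝ).prod sig)) ^ (1 / 6 : ℝ) ∧
    ∫⁻ z, ‖L z‖ₑ ^ (6 : ℝ) ∂((volume : Measure ℝ).prod sig) ≠ ⊤ := by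
  have h3 : eLpNorm L 6 ((volume : Measure ℝ).prod sig) =
      (∫⁻ z, ‖L z‖ₑ ^ (6 : ℝ) ∂((volume : Measure ℝ).prod sig)) ^ (1 / 6 : ℝ) := by
    rw [eLpNorm_eq_lintegral_rpow_enorm_toReal (by norm_num) (by norm_num)]
    norm_num
  have hmem : MemLp L 6 ((volume : Measure ℝ).prod sig) := by
    exact hL.memLp_of_hasCompactSupport hLt.compact
  refine ⟨?_, ?_, h3, ?_⟩
  · have hnn : ∀ z, 0 ≤ L z * L z ^ 5 := fun z => by
      rw [show L z * L z ^ 5 = (L z ^ 3) ^ 2 by ring]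
      positivity
    have hint : Integrable (fun z => L z * L z ^ 5) ((volume : Measure ℝ).prod sig) :=
      (hL.mul (hL.pow 5)).integrable_of_hasCompactSupport hLt.compact.mul_right
    rw [Real.enorm_eq_ofReal (integral_nonneg hnn), ofReal_integral_eq_lintegral_ofReal
      hint (Filter.Eventually.of_forall hnn)]
    refine lintegral_congr fun z => ?_
    have e1 : (‖L z‖ₑ ^ (6 : ℝ) : ℝ≥0∞) = ‖L z‖ₑ ^ (6 : ℕ) := by
      rw [← ENNReal.rpow_natCast]; norm_num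
    rw [e1, Real.enorm_eq_ofReal_abs, ← ENNReal.ofReal_pow (abs_nonneg _)]
    congr 1
    rw [← pow_succ']
    rw [show |L z| ^ 6 = (|L z| ^ 2) ^ 3 by ring, sq_abs]
    ring
  · rw [eLpNorm_eq_lintegral_rpow_enorm_toReal (by
      rw [Ne, ENNReal.ofReal_eq_zero]; norm_num) ENNReal.ofReal_ne_top,
      ENNReal.toReal_ofReal (by norm_num)]
    have e0 : (1 / (6 / 5) : ℝ) = 5 / 6 := by norm_num
    rw [e0]
    congr 1
    refine lintegral_congr fun z => ?_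
    rw [enorm_pow, ← ENNReal.rpow_natCast, ← ENNReal.rpow_mul]
    norm_num
  · intro htop
    have := hmem.eLpNorm_ne_top
    rw [h3, htop] at this
    exact this (by rw [ENNReal.top_rpow_of_pos (by norm_num)])

lemma norm2 {L : ℝ × S2 → ℝ} (hL : Continuous L) (hLt : TS L) :
    ‖∫ z, L z * L z ∂((volume : Measure ℝ).prod sig)‖ₑ =
      ∫⁻ z, ‖L z‖ₑ ^ (2 : ℝ) ∂((volume : Measure ℝ).prod sig) ∧
    eLpNorm L (ENNReal.ofReal 2) ((volume : Measure ℝ).prod sig) =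
      (∫⁻ z, ‖L z‖ₑ ^ (2 : ℝ) ∂((volume : Measure ℝ).prod sig)) ^ (1 / 2 : ℝ) ∧
    eLpNorm L 2 ((volume : Measure ℝ).prod sig) =
      (∫⁻ z, ‖L z‖ₑ ^ (2 : ℝ) ∂((volume : Measure ℝ).prod sig)) ^ (1 / 2 : ℝ) ∧
    ∫⁻ z, ‖L z‖ₑ ^ (2 : ℝ) ∂((volume : Measure ℝ).prod sig) ≠ ⊤ := by
  have h3 : eLpNorm L 2 ((volume : Measure ℝ).prod sig) =
      (∫⁻ z, ‖L z‖ₑ ^ (2 : ℝ) ∂((volume : Measure ℝ).prod sig)) ^ (1 / 2 : ℝ) := by
    rw [eLpNorm_eq_lintegral_rpow_enorm_toReal (by norm_num) (by norm_num)]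
    norm_num
  have hmem : MemLp L 2 ((volume : Measure ℝ).prod sig) := by
    exact hL.memLp_of_hasCompactSupport hLt.compact
  refine ⟨?_, ?_, h3, ?_⟩
  · have hnn : ∀ z, 0 ≤ L z * L z := fun z => mul_self_nonneg _
    have hint : Integrable (fun z => L z * L z) ((volume : Measure ℝ).prod sig) :=
      (hL.mul hL).integrable_of_hasCompactSupport hLt.compact.mul_right
    rw [Real.enorm_eq_ofReal (integral_nonneg hnn), ofReal_integral_eq_lintegral_ofReal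
      hint (Filter.Eventually.of_forall hnn)]
    refine lintegral_congr fun z => ?_
    have e1 : (‖L z‖ₑ ^ (2 : ℝ) : ℝ≥0∞) = ‖L z‖ₑ ^ (2 : ℕ) := by
      rw [← ENNReal.rpow_natCast]; norm_num
    rw [e1, Real.enorm_eq_ofReal_abs, ← ENNReal.ofReal_pow (abs_nonneg _), sq_abs]
    congr 1
    ring
  · rw [← h3]
    congr 1
    norm_num
  · intro htop
    have := hmem.eLpNorm_ne_top
    rw [h3, htop] at this
    exact this (by rw [ENNReal.top_rpow_of_pos (by norm_num)])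

end Pool.Agent.HK.LowM

namespace Pool.Agent.HK

open LowM

theorem target_Low (hK : Target_Kernel) (hYo : Target_Young) (hM : Target_Mult)
    (hMo : Target_Mode) : Target_Low := by
  intro Y
  obtain ⟨A, c, hA, hc, hKer⟩ := hK
  obtain ⟨M, hM0, hMult⟩ := hM Y
  obtain ⟨D₁, hD₁⟩ := K11 hA hc hM0
  obtain ⟨D₂, hD₂⟩ := K12 hA hc hM0
  obtain ⟨D₃, hD₃⟩ := K22 hA hc
  refine ⟨D₁ + D₂ + D₃, fun τ hτ lam hlam u F₁ F₂ hu hu0 hF₁ hF₂ heq => ?_⟩
  have hτ1 : (1 : ℝ) ≤ (τ : ℝ) := by exact_mod_cast hτ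
  have hτ0 : (0 : ℝ) < (τ : ℝ) := by linarith
  obtain ⟨a, ham, haeq, ha0, ha1⟩ := hKer τ hτ lam hlam
  set f := cyl τ (1 / 2) u with hfdef
  set G₁ := cyl τ (5 / 2) F₁ with hG₁def
  set G₂ := cyl τ (5 / 2) F₂ with hG₂def
  have hf : Continuous f := cyl_cont τ _ hu.continuous
  have hG₁ : Continuous G₁ := cyl_cont τ _ hF₁.1
  have hG₂ : Continuous G₂ := cyl_cont τ _ hF₂.1
  have hft : TS f := cyl_TS τ _ hu0
  have hG₁t : TS G₁ := cyl_TS τ _ hF₁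
  have hG₂t : TS G₂ := cyl_TS τ _ hF₂
  set L := Y.low (2 * τ) f with hLdef
  have hL : Continuous L := low_cont Y _ hf
  have hLt : TS L := low_TS Y _ hft
  have haB : ∀ j < 2 * τ, ∀ t s, |a j t s| ≤ A / τ := by
    intro j hj t s
    refine (ha0 j hj t s).trans ?_
    have he : Real.exp (-c * |t - s|) ≤ 1 := by
      rw [Real.exp_le_one_iff]
      have := abs_nonneg (t - s)
      nlinarith
    calc A / τ * Real.exp (-c * |t - s|) ≤ A / τ * 1 :=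
          mul_le_mul_of_nonneg_left he (by positivity)
      _ = A / τ := mul_one _
  have hw : ∀ j < 2 * τ, ∀ m t, cf Y j m f t =
      ∫ s, a j t s * cf Y j m (fun p => G₁ p + G₂ p) s := by
    intro j hj m t
    exact (mode_eq hMo Y hu hu0 hF₁ hF₂ heq haeq hj m).1 t
  -- pointwise bounds
  have hmul : ∀ (t s : ℝ), t ≠ s → ∀ g h : S2 → ℝ, BM g → BM h →
      |Y.mult (2 * τ) (fun j => a j t s) g h| ≤ s0 A c τ (t - s) *
        (∫ ω, g ω ^ 2 ∂sig) ^ (1 / 2 : ℝ) * (∫ ω, h ω ^ 2 ∂sig) ^ (1 / 2 : ℝ) ∧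
      |Y.mult (2 * τ) (fun j => a j t s) g h| ≤ k11 A c M τ (t - s) *
        (∫ ω, |g ω| ^ (6 / 5 : ℝ) ∂sig) ^ (5 / 6 : ℝ) *
        (∫ ω, |h ω| ^ (6 / 5 : ℝ) ∂sig) ^ (5 / 6 : ℝ) ∧
      |Y.mult (2 * τ) (fun j => a j t s) g h| ≤ k12 A c M τ (t - s) *
        (∫ ω, g ω ^ 2 ∂sig) ^ (1 / 2 : ℝ) * (∫ ω, |h ω| ^ (6 / 5 : ℝ) ∂sig) ^ (5 / 6 : ℝ) ∧
      |Y.mult (2 * τ) (fun j => a j t s) g h| ≤ k12 A c M τ (t - s) *
        (∫ ω, |g ω| ^ (6 / 5 : ℝ) ∂sig) ^ (5 / 6 : ℝ) * (∫ ω, h ω ^ 2 ∂sig) ^ (1 / 2 : ℝ) := by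
    intro t s hts g h hg hh
    exact hMult (2 * τ) (fun j => a j t s) (s0 A c τ (t - s)) (s1 A c τ (t - s))
      (s0_nonneg hA hτ1 _) (s1_nonneg hA hτ1 _) (fun j hj => ha0 j hj t s) (ha1 t s hts)
      g h hg hh
  have hk11 : ∀ x, 0 ≤ k11 A c M τ x := fun x => by
    have h0 := s0_nonneg (c := c) hA hτ1 x
    have h1 := s1_nonneg (c := c) hA hτ1 x
    unfold k11
    positivity
  have hk12 : ∀ x, 0 ≤ k12 A c M τ x := fun x => by
    have h0 := s0_nonneg (c := c) hA hτ1 x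
    have h1 := s1_nonneg (c := c) hA hτ1 x
    unfold k12
    positivity
  have b65 : ∀ {g h : ℝ × S2 → ℝ}, Continuous g → Continuous h → ∀ t s, t ≠ s →
      ‖Y.mult (2 * τ) (fun j => a j t s) (fun ω => g (s, ω)) (fun ω => h (t, ω))‖ₑ ≤
        ENNReal.ofReal (k11 A c M τ (t - s)) * N (6 / 5) g s * N (6 / 5) h t := by
    intro g h hg hh t s hts
    exact enorm_le_of_abs_le (hk11 _) (sliceN_nonneg g s)
      (hmul t s hts _ _ (bm_of_cont (slice_cont hg s)) (bm_of_cont (slice_cont hh t))).2.1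
      rfl (ofReal_slice hg s) (ofReal_slice hh t)
  have b26 : ∀ {g h : ℝ × S2 → ℝ}, Continuous g → Continuous h → ∀ t s, t ≠ s →
      ‖Y.mult (2 * τ) (fun j => a j t s) (fun ω => g (s, ω)) (fun ω => h (t, ω))‖ₑ ≤
        ENNReal.ofReal (k12 A c M τ (t - s)) * N 2 g s * N (6 / 5) h t := by
    intro g h hg hh t s hts
    exact enorm_le_of_abs_le (hk12 _) (sliceN2_nonneg g s)
      (hmul t s hts _ _ (bm_of_cont (slice_cont hg s)) (bm_of_cont (slice_cont hh t))).2.2.1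
      rfl (ofReal_slice2 hg s) (ofReal_slice hh t)
  have b62 : ∀ {g h : ℝ × S2 → ℝ}, Continuous g → Continuous h → ∀ t s, t ≠ s →
      ‖Y.mult (2 * τ) (fun j => a j t s) (fun ω => g (s, ω)) (fun ω => h (t, ω))‖ₑ ≤
        ENNReal.ofReal (k12 A c M τ (t - s)) * N (6 / 5) g s * N 2 h t := by
    intro g h hg hh t s hts
    exact enorm_le_of_abs_le (hk12 _) (sliceN_nonneg g s)
      (hmul t s hts _ _ (bm_of_cont (slice_cont hg s)) (bm_of_cont (slice_cont hh t))).2.2.2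
      rfl (ofReal_slice hg s) (ofReal_slice2 hh t)
  have b22 : ∀ {g h : ℝ × S2 → ℝ}, Continuous g → Continuous h → ∀ t s, t ≠ s →
      ‖Y.mult (2 * τ) (fun j => a j t s) (fun ω => g (s, ω)) (fun ω => h (t, ω))‖ₑ ≤
        ENNReal.ofReal (s0 A c τ (t - s)) * N 2 g s * N 2 h t := by
    intro g h hg hh t s hts
    exact enorm_le_of_abs_le (s0_nonneg hA hτ1 _) (sliceN2_nonneg g s)
      (hmul t s hts _ _ (bm_of_cont (slice_cont hg s)) (bm_of_cont (slice_cont hh t))).1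
      rfl (ofReal_slice2 hg s) (ofReal_slice2 hh t)
  have e65 : ENNReal.ofReal (6 / 5) = (6 / 5 : ℝ≥0∞) := by
    rw [ENNReal.ofReal_div_of_pos (by norm_num)]; norm_num
  have e2 : ENNReal.ofReal 2 = (2 : ℝ≥0∞) := by norm_num
  constructor
  · obtain ⟨n1, n2, n3, n4⟩ := norm6 hL hLt
    have hd := dual_bound hYo Y (2 * τ) a ham (A / τ) haB hf hft hG₁ hG₁t hG₂ hG₂t
      (hL.pow 5) hw (p₁ := 6 / 5) (q₁ := 3) (p₂ := 2) (q₂ := 3 / 2) (r := 6 / 5)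
      (by norm_num) (by norm_num) (by norm_num) (by norm_num) (by norm_num) (by norm_num)
      (by norm_num) (fun x => ENNReal.ofReal (k11 A c M τ x))
      (fun x => ENNReal.ofReal (k12 A c M τ x)) (k11_meas A c M τ) (k12_meas A c M τ)
      (b65 hG₁ (hL.pow 5)) (b26 hG₂ (hL.pow 5))
    have hd' : ‖∫ z, L z * L z ^ 5 ∂((volume : Measure ℝ).prod sig)‖ₑ ≤ _ := hd
    rw [n1] at hd'
    have hd2 : ∫⁻ z, ‖L z‖ₑ ^ (6 : ℝ) ∂((volume : Measure ℝ).prod sig) ≤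
        (D₁ * eLpNorm G₁ (6 / 5) ((volume : Measure ℝ).prod sig) +
          D₂ * ENNReal.ofReal ((τ : ℝ) ^ (-(2 / 3) : ℝ)) *
            eLpNorm G₂ 2 ((volume : Measure ℝ).prod sig)) *
        (∫⁻ z, ‖L z‖ₑ ^ (6 : ℝ) ∂((volume : Measure ℝ).prod sig)) ^ (1 - 1 / 6 : ℝ) := by
      refine hd'.trans ?_
      refine mul_le_mul' (add_le_add (mul_le_mul' ?_ ?_) (mul_le_mul' ?_ ?_)) ?_
      · exact hD₁ τ hτ1
      · rw [e65]
      · have := hD₂ τ hτ1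
        norm_num at this ⊢
        exact this
      · rw [e2]
      · have e3 : (1 - 1 / 6 : ℝ) = 5 / 6 := by norm_num
        rw [e3]
        exact n2.le
    have hfin := absorb (by norm_num) (by norm_num) n4 hd2
    rw [n3]
    refine hfin.trans ?_
    rw [mul_add]
    refine add_le_add (mul_le_mul' ?_ le_rfl) ?_
    · push_cast
      rw [add_assoc]
      exact le_self_add
    · rw [← mul_assoc]
      refine mul_le_mul' (mul_le_mul' ?_ le_rfl) le_rfl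
      push_cast
      rw [add_right_comm]
      exact le_add_self
  · obtain ⟨n1, n2, n3, n4⟩ := norm2 hL hLt
    have hd := dual_bound hYo Y (2 * τ) a ham (A / τ) haB hf hft hG₁ hG₁t hG₂ hG₂t
      hL hw (p₁ := 6 / 5) (q₁ := 3 / 2) (p₂ := 2) (q₂ := 1) (r := 2)
      (by norm_num) (by norm_num) (by norm_num) (by norm_num) (by norm_num) (by norm_num)
      (by norm_num) (fun x => ENNReal.ofReal (k12 A c M τ x))
      (fun x => ENNReal.ofReal (s0 A c τ x)) (k12_meas A c M τ) (s0_meas A c τ)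
      (b62 hG₁ hL) (b22 hG₂ hL)
    have hd' : ‖∫ z, L z * L z ∂((volume : Measure ℝ).prod sig)‖ₑ ≤ _ := hd
    rw [n1] at hd'
    have hd2 : ∫⁻ z, ‖L z‖ₑ ^ (2 : ℝ) ∂((volume : Measure ℝ).prod sig) ≤
        (D₂ * ENNReal.ofReal ((τ : ℝ) ^ (-(2 / 3) : ℝ)) *
            eLpNorm G₁ (6 / 5) ((volume : Measure ℝ).prod sig) +
          D₃ * ENNReal.ofReal ((τ : ℝ) ^ (-1 : ℝ)) *
            eLpNorm G₂ 2 ((volume : Measure ℝ).prod sig)) *
        (∫⁻ z, ‖L z‖ₑ ^ (2 : ℝ) ∂((volume : Measure ℝ).prod sig)) ^ (1 - 1 / 2 : ℝ) := by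
      refine hd'.trans ?_
      refine mul_le_mul' (add_le_add (mul_le_mul' ?_ ?_) (mul_le_mul' ?_ ?_)) ?_
      · have := hD₂ τ hτ1
        norm_num at this ⊢
        exact this
      · rw [e65]
      · have := hD₃ τ hτ1
        simp only [ENNReal.rpow_one, div_one]
        exact this
      · rw [e2]
      · have e3 : (1 - 1 / 2 : ℝ) = 1 / 2 := by norm_num
        rw [e3]
        exact n2.le
    have hfin := absorb (by norm_num) (by norm_num) n4 hd2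
    rw [n3]
    have hτa : ENNReal.ofReal ((τ : ℝ) ^ (2 / 3 : ℝ)) * ENNReal.ofReal ((τ : ℝ) ^ (-(2 / 3) : ℝ))
        = 1 := by
      rw [← ENNReal.ofReal_mul (by positivity), ← Real.rpow_add hτ0]
      norm_num
    have hτb : ENNReal.ofReal ((τ : ℝ) ^ (2 / 3 : ℝ)) * ENNReal.ofReal ((τ : ℝ) ^ (-1 : ℝ))
        = ENNReal.ofReal ((τ : ℝ) ^ (-(1 / 3) : ℝ)) := by
      rw [← ENNReal.ofReal_mul (by positivity), ← Real.rpow_add hτ0]
      norm_num
    refine (mul_le_mul' le_rfl hfin).trans ?_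
    rw [mul_add, mul_add]
    refine add_le_add ?_ ?_
    · calc ENNReal.ofReal ((τ : ℝ) ^ (2 / 3 : ℝ)) *
          (D₂ * ENNReal.ofReal ((τ : ℝ) ^ (-(2 / 3) : ℝ)) *
            eLpNorm G₁ (6 / 5) ((volume : Measure ℝ).prod sig))
          = D₂ * (ENNReal.ofReal ((τ : ℝ) ^ (2 / 3 : ℝ)) *
              ENNReal.ofReal ((τ : ℝ) ^ (-(2 / 3) : ℝ))) *
            eLpNorm G₁ (6 / 5) ((volume : Measure ℝ).prod sig) := by ring
        _ = D₂ * eLpNorm G₁ (6 / 5) ((volume : Measure ℝ).prod sig) := by rw [hτa, mul_one]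
        _ ≤ _ := by
          refine mul_le_mul' ?_ le_rfl
          push_cast
          rw [add_right_comm]
          exact le_add_self
    · calc ENNReal.ofReal ((τ : ℝ) ^ (2 / 3 : ℝ)) *
          (D₃ * ENNReal.ofReal ((τ : ℝ) ^ (-1 : ℝ)) *
            eLpNorm G₂ 2 ((volume : Measure ℝ).prod sig))
          = D₃ * ((ENNReal.ofReal ((τ : ℝ) ^ (2 / 3 : ℝ)) *
              ENNReal.ofReal ((τ : ℝ) ^ (-1 : ℝ))) *
            eLpNorm G₂ 2 ((volume : Measure ℝ).prod sig)) := by ring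
        _ = D₃ * (ENNReal.ofReal ((τ : ℝ) ^ (-(1 / 3) : ℝ)) *
            eLpNorm G₂ 2 ((volume : Measure ℝ).prod sig)) := by rw [hτb]
        _ ≤ _ := by
          refine mul_le_mul' ?_ le_rfl
          push_cast
          exact le_add_self

end Pool.Agent.HK
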