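import Pool.Agent.HK.Spec

/-!
# Norms of the convolution kernels (job LO)
-/

set_option autoImplicit false

open MeasureTheory Set Filter Topology
open scoped ENNReal NNReal

namespace Pool.Agent.HK.LowM

lemma integrable_abs {f : ℝ → ℝ} (hf0 : IntegrableOn f (Ioi 0)) :
    Integrable (fun x => f |x|) := by
  have hf : IntegrableOn (fun x => f |x|) (Ioi 0) := by
    refine hf0.congr_fun (fun x hx => ?_) measurableSet_Ioi
    rw [abs_of_pos (mem_Ioi.1 hx)]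
  have int_Iic : IntegrableOn (fun x ↦ f |x|) (Iic 0) := by
    rw [← Measure.map_neg_eq_self (volume : Measure ℝ)]
    let m : MeasurableEmbedding fun x : ℝ => -x := (Homeomorph.neg ℝ).measurableEmbedding
    rw [m.integrableOn_map_iff]
    simp_rw [Function.comp_def, abs_neg, neg_preimage, neg_Iic, neg_zero]
    exact Iff.mpr integrableOn_Ici_iff_integrableOn_Ioi hf
  rw [← integrableOn_univ, ← Iic_union_Ioi (a := (0 : ℝ))]
  exact int_Iic.union hf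

/-- the three kernels -/
noncomputable def s0 (A c τ x : ℝ) : ℝ := A / τ * Real.exp (-c * |x|)

noncomputable def s1 (A c τ x : ℝ) : ℝ := A * min τ (|x|⁻¹) * Real.exp (-c * |x|)

lemma s0_nonneg {A c τ : ℝ} (hA : 0 < A) (hτ : 1 ≤ τ) (x : ℝ) : 0 ≤ s0 A c τ x := by
  unfold s0; positivity

lemma s1_nonneg {A c τ : ℝ} (hA : 0 < A) (hτ : 1 ≤ τ) (x : ℝ) : 0 ≤ s1 A c τ x := by
  unfold s1
  have : 0 ≤ min τ (|x|⁻¹) := le_min (by linarith) (by positivity)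
  positivity

noncomputable def k11 (A c M τ x : ℝ) : ℝ := M * s0 A c τ x ^ (1 / 3 : ℝ) * s1 A c τ x ^ (2 / 3 : ℝ)

noncomputable def k12 (A c M τ x : ℝ) : ℝ := M * s0 A c τ x ^ (2 / 3 : ℝ) * s1 A c τ x ^ (1 / 3 : ℝ)

lemma min_sq {τ : ℝ} (hτ : 1 ≤ τ) (x : ℝ) :
    (min τ (|x|⁻¹)) ^ 2 ≤ 2 * τ ^ 2 * (1 + (τ * x) ^ 2)⁻¹ := by
  have h0 : 0 ≤ min τ (|x|⁻¹) := le_min (by linarith) (by positivity)
  have hp : 0 < 1 + (τ * x) ^ 2 := by positivity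
  rw [← div_eq_mul_inv, le_div_iff₀ hp]
  have h1 : (min τ (|x|⁻¹)) ^ 2 ≤ τ ^ 2 := pow_le_pow_left₀ h0 (min_le_left _ _) 2
  have h2 : (min τ (|x|⁻¹)) ^ 2 * x ^ 2 ≤ 1 := by
    rcases eq_or_ne x 0 with h | h
    · subst h; simp
    · have h3 : (min τ (|x|⁻¹)) ^ 2 ≤ (|x|⁻¹) ^ 2 := pow_le_pow_left₀ h0 (min_le_right _ _) 2
      calc (min τ (|x|⁻¹)) ^ 2 * x ^ 2 ≤ (|x|⁻¹) ^ 2 * x ^ 2 :=
            mul_le_mul_of_nonneg_right h3 (sq_nonneg x)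
        _ = 1 := by
            rw [inv_pow, sq_abs]
            field_simp
  nlinarith [sq_nonneg τ]

lemma int_inv_sq {τ : ℝ} (hτ : 1 ≤ τ) :
    Integrable (fun x : ℝ => (1 + (τ * x) ^ 2)⁻¹) ∧
      ∫ x : ℝ, (1 + (τ * x) ^ 2)⁻¹ = τ⁻¹ * Real.pi := by
  have hτ0 : τ ≠ 0 := by positivity
  refine ⟨integrable_inv_one_add_sq.comp_mul_left' hτ0, ?_⟩
  have := Measure.integral_comp_mul_left (fun x : ℝ => (1 + x ^ 2)⁻¹) τ
  rw [this, integral_univ_inv_one_add_sq, abs_of_pos (by positivity), smul_eq_mul]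

lemma K11 {A c M : ℝ} (hA : 0 < A) (hc : 0 < c) (hM : 0 < M) : ∃ D : ℝ≥0, ∀ τ : ℝ, 1 ≤ τ →
    (∫⁻ x : ℝ, ENNReal.ofReal (k11 A c M τ x) ^ (3 : ℝ)) ^ (1 / 3 : ℝ) ≤ D := by
  refine ⟨Real.toNNReal ((2 * Real.pi * M ^ 3 * A ^ 3) ^ (1 / 3 : ℝ)), fun τ hτ => ?_⟩
  have hτ0 : 0 < τ := by linarith
  have hpt : ∀ x : ℝ, ENNReal.ofReal (k11 A c M τ x) ^ (3 : ℝ) ≤
      ENNReal.ofReal (2 * M ^ 3 * A ^ 3 * τ * (1 + (τ * x) ^ 2)⁻¹) := by
    intro x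
    have h0 := s0_nonneg (c := c) hA hτ x
    have h1 := s1_nonneg (c := c) hA hτ x
    have hk : 0 ≤ k11 A c M τ x := by unfold k11; positivity
    rw [ENNReal.ofReal_rpow_of_nonneg hk (by norm_num)]
    refine ENNReal.ofReal_le_ofReal ?_
    have e0 : (s0 A c τ x ^ (1 / 3 : ℝ)) ^ 3 = s0 A c τ x := by
      rw [← Real.rpow_natCast, ← Real.rpow_mul h0]; norm_num
    have e1 : (s1 A c τ x ^ (2 / 3 : ℝ)) ^ 3 = s1 A c τ x ^ 2 := by
      rw [← Real.rpow_natCast, ← Real.rpow_mul h1]; norm_num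
    have e2 : k11 A c M τ x ^ (3 : ℝ) = M ^ 3 * s0 A c τ x * s1 A c τ x ^ 2 := by
      rw [show (3 : ℝ) = ((3 : ℕ) : ℝ) by norm_num, Real.rpow_natCast]
      unfold k11
      rw [mul_pow, mul_pow, e0, e1]
    rw [e2]
    unfold s0 s1
    have he : Real.exp (-c * |x|) ≤ 1 := by
      rw [Real.exp_le_one_iff]
      have := abs_nonneg x
      nlinarith
    have he0 := Real.exp_pos (-c * |x|)
    have hmin := min_sq hτ x
    have h2 : (min τ (|x|⁻¹)) ^ 2 * Real.exp (-c * |x|) ^ 3 ≤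
        2 * τ ^ 2 * (1 + (τ * x) ^ 2)⁻¹ := by
      calc (min τ (|x|⁻¹)) ^ 2 * Real.exp (-c * |x|) ^ 3 ≤ (min τ (|x|⁻¹)) ^ 2 * 1 := by
            refine mul_le_mul_of_nonneg_left (pow_le_one₀ he0.le he) (sq_nonneg _)
        _ ≤ _ := by rw [mul_one]; exact hmin
    calc M ^ 3 * (A / τ * Real.exp (-c * |x|)) * (A * min τ (|x|⁻¹) * Real.exp (-c * |x|)) ^ 2
        = (M ^ 3 * A ^ 3 / τ) * ((min τ (|x|⁻¹)) ^ 2 * Real.exp (-c * |x|) ^ 3) := by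
          field_simp
      _ ≤ (M ^ 3 * A ^ 3 / τ) * (2 * τ ^ 2 * (1 + (τ * x) ^ 2)⁻¹) :=
          mul_le_mul_of_nonneg_left h2 (by positivity)
      _ = 2 * M ^ 3 * A ^ 3 * τ * (1 + (τ * x) ^ 2)⁻¹ := by
          field_simp
  obtain ⟨hi, hv⟩ := int_inv_sq hτ
  have hint : ∫⁻ x : ℝ, ENNReal.ofReal (k11 A c M τ x) ^ (3 : ℝ) ≤
      ENNReal.ofReal (2 * Real.pi * M ^ 3 * A ^ 3) := by
    calc ∫⁻ x : ℝ, ENNReal.ofReal (k11 A c M τ x) ^ (3 : ℝ)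
        ≤ ∫⁻ x : ℝ, ENNReal.ofReal (2 * M ^ 3 * A ^ 3 * τ * (1 + (τ * x) ^ 2)⁻¹) :=
          lintegral_mono hpt
      _ = ENNReal.ofReal (∫ x : ℝ, 2 * M ^ 3 * A ^ 3 * τ * (1 + (τ * x) ^ 2)⁻¹) := by
          rw [ofReal_integral_eq_lintegral_ofReal (hi.const_mul _)
            (Filter.Eventually.of_forall fun x => by positivity)]
      _ = ENNReal.ofReal (2 * Real.pi * M ^ 3 * A ^ 3) := by
          rw [integral_const_mul, hv]
          congr 1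
          field_simp
  calc (∫⁻ x : ℝ, ENNReal.ofReal (k11 A c M τ x) ^ (3 : ℝ)) ^ (1 / 3 : ℝ)
      ≤ (ENNReal.ofReal (2 * Real.pi * M ^ 3 * A ^ 3)) ^ (1 / 3 : ℝ) :=
        ENNReal.rpow_le_rpow hint (by norm_num)
    _ = ENNReal.ofReal ((2 * Real.pi * M ^ 3 * A ^ 3) ^ (1 / 3 : ℝ)) :=
        ENNReal.ofReal_rpow_of_nonneg (by positivity) (by norm_num)
    _ = _ := rfl

lemma K12 {A c M : ℝ} (hA : 0 < A) (hc : 0 < c) (hM : 0 < M) : ∃ D : ℝ≥0, ∀ τ : ℝ, 1 ≤ τ →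
    (∫⁻ x : ℝ, ENNReal.ofReal (k12 A c M τ x) ^ (3 / 2 : ℝ)) ^ (2 / 3 : ℝ) ≤
      D * ENNReal.ofReal (τ ^ (-(2 / 3) : ℝ)) := by
  have hI : Integrable (fun x : ℝ => |x| ^ (-(1 / 2) : ℝ) * Real.exp (-c * |x| ^ (1 : ℝ))) :=
    integrable_abs (f := fun x => x ^ (-(1 / 2) : ℝ) * Real.exp (-c * x ^ (1 : ℝ)))
      (integrableOn_rpow_mul_exp_neg_mul_rpow (by norm_num) one_pos hc)
  set I : ℝ := ∫ x : ℝ, |x| ^ (-(1 / 2) : ℝ) * Real.exp (-c * |x| ^ (1 : ℝ)) with hIdef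
  have hI0 : 0 ≤ I := integral_nonneg fun x => by positivity
  refine ⟨Real.toNNReal ((M ^ (3 / 2 : ℝ) * A ^ (3 / 2 : ℝ) * I) ^ (2 / 3 : ℝ)), fun τ hτ => ?_⟩
  have hτ0 : 0 < τ := by linarith
  have hpt : ∀ x : ℝ, ENNReal.ofReal (k12 A c M τ x) ^ (3 / 2 : ℝ) ≤
      ENNReal.ofReal ((M ^ (3 / 2 : ℝ) * A ^ (3 / 2 : ℝ) / τ) *
        (|x| ^ (-(1 / 2) : ℝ) * Real.exp (-c * |x| ^ (1 : ℝ)))) ∨ x = 0 := by
    intro x
    rcases eq_or_ne x 0 with hx | hx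
    · exact Or.inr hx
    left
    have hx0 : 0 < |x| := abs_pos.2 hx
    have h0 := s0_nonneg (c := c) hA hτ x
    have h1 := s1_nonneg (c := c) hA hτ x
    have hk : 0 ≤ k12 A c M τ x := by unfold k12; positivity
    rw [ENNReal.ofReal_rpow_of_nonneg hk (by norm_num)]
    refine ENNReal.ofReal_le_ofReal ?_
    have e0 : (s0 A c τ x ^ (2 / 3 : ℝ)) ^ (3 / 2 : ℝ) = s0 A c τ x := by
      rw [← Real.rpow_mul h0]; norm_num
    have e1 : (s1 A c τ x ^ (1 / 3 : ℝ)) ^ (3 / 2 : ℝ) = s1 A c τ x ^ (1 / 2 : ℝ) := by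
      rw [← Real.rpow_mul h1]; norm_num
    have e2 : k12 A c M τ x ^ (3 / 2 : ℝ) = M ^ (3 / 2 : ℝ) * s0 A c τ x *
        s1 A c τ x ^ (1 / 2 : ℝ) := by
      unfold k12
      rw [Real.mul_rpow (by positivity) (by positivity), Real.mul_rpow hM.le (by positivity),
        e0, e1]
    rw [e2]
    have e3 : s1 A c τ x ≤ A * |x|⁻¹ := by
      unfold s1
      have he : Real.exp (-c * |x|) ≤ 1 := by
        rw [Real.exp_le_one_iff]
        nlinarith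
      have h5 : 0 ≤ min τ (|x|⁻¹) := le_min (by linarith) (by positivity)
      calc A * min τ (|x|⁻¹) * Real.exp (-c * |x|) ≤ A * min τ (|x|⁻¹) * 1 :=
            mul_le_mul_of_nonneg_left he (by positivity)
        _ ≤ A * |x|⁻¹ := by
            rw [mul_one]; exact mul_le_mul_of_nonneg_left (min_le_right _ _) hA.le
    have e4 : s1 A c τ x ^ (1 / 2 : ℝ) ≤ A ^ (1 / 2 : ℝ) * |x| ^ (-(1 / 2) : ℝ) := by
      calc s1 A c τ x ^ (1 / 2 : ℝ) ≤ (A * |x|⁻¹) ^ (1 / 2 : ℝ) :=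
            Real.rpow_le_rpow h1 e3 (by norm_num)
        _ = _ := by
            rw [Real.mul_rpow hA.le (by positivity), Real.inv_rpow hx0.le, Real.rpow_neg hx0.le]
    have e5 : A ^ (3 / 2 : ℝ) = A * A ^ (1 / 2 : ℝ) := by
      rw [show (3 / 2 : ℝ) = 1 + 1 / 2 by norm_num, Real.rpow_add hA, Real.rpow_one]
    calc M ^ (3 / 2 : ℝ) * s0 A c τ x * s1 A c τ x ^ (1 / 2 : ℝ)
        ≤ M ^ (3 / 2 : ℝ) * s0 A c τ x * (A ^ (1 / 2 : ℝ) * |x| ^ (-(1 / 2) : ℝ)) :=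
          mul_le_mul_of_nonneg_left e4 (by positivity)
      _ = _ := by
          unfold s0
          rw [e5, Real.rpow_one]
          ring
  have hint : ∫⁻ x : ℝ, ENNReal.ofReal (k12 A c M τ x) ^ (3 / 2 : ℝ) ≤
      ENNReal.ofReal ((M ^ (3 / 2 : ℝ) * A ^ (3 / 2 : ℝ) / τ) * I) := by
    calc ∫⁻ x : ℝ, ENNReal.ofReal (k12 A c M τ x) ^ (3 / 2 : ℝ)
        ≤ ∫⁻ x : ℝ, ENNReal.ofReal ((M ^ (3 / 2 : ℝ) * A ^ (3 / 2 : ℝ) / τ) *
        (|x| ^ (-(1 / 2) : ℝ) * Real.exp (-c * |x| ^ (1 : ℝ)))) := by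
          refine lintegral_mono_ae ?_
          have h0 : ∀ᵐ x : ℝ, x ≠ 0 := by
            rw [ae_iff]
            simp
          filter_upwards [h0] with x hx
          rcases hpt x with h | h
          · exact h
          · exact absurd h hx
      _ = ENNReal.ofReal (∫ x : ℝ, (M ^ (3 / 2 : ℝ) * A ^ (3 / 2 : ℝ) / τ) *
        (|x| ^ (-(1 / 2) : ℝ) * Real.exp (-c * |x| ^ (1 : ℝ)))) := by
          rw [ofReal_integral_eq_lintegral_ofReal (hI.const_mul _)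
            (Filter.Eventually.of_forall fun x => by positivity)]
      _ = _ := by
          rw [integral_const_mul]
  calc (∫⁻ x : ℝ, ENNReal.ofReal (k12 A c M τ x) ^ (3 / 2 : ℝ)) ^ (2 / 3 : ℝ)
      ≤ (ENNReal.ofReal ((M ^ (3 / 2 : ℝ) * A ^ (3 / 2 : ℝ) / τ) * I)) ^ (2 / 3 : ℝ) :=
        ENNReal.rpow_le_rpow hint (by norm_num)
    _ = ENNReal.ofReal (((M ^ (3 / 2 : ℝ) * A ^ (3 / 2 : ℝ) / τ) * I) ^ (2 / 3 : ℝ)) :=
        ENNReal.ofReal_rpow_of_nonneg (by positivity) (by norm_num)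
    _ = ENNReal.ofReal ((M ^ (3 / 2 : ℝ) * A ^ (3 / 2 : ℝ) * I) ^ (2 / 3 : ℝ) *
          τ ^ (-(2 / 3) : ℝ)) := by
        congr 1
        rw [show (M ^ (3 / 2 : ℝ) * A ^ (3 / 2 : ℝ) / τ) * I =
          (M ^ (3 / 2 : ℝ) * A ^ (3 / 2 : ℝ) * I) * τ⁻¹ by field_simp,
          Real.mul_rpow (by positivity) (by positivity), Real.inv_rpow hτ0.le,
          Real.rpow_neg hτ0.le]
    _ = _ := by
        rw [ENNReal.ofReal_mul (by positivity)]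
        rfl

lemma K22 {A c : ℝ} (hA : 0 < A) (hc : 0 < c) : ∃ D : ℝ≥0, ∀ τ : ℝ, 1 ≤ τ →
    ∫⁻ x : ℝ, ENNReal.ofReal (s0 A c τ x) ≤ D * ENNReal.ofReal (τ ^ (-1 : ℝ)) := by
  have hI : Integrable (fun x : ℝ => |x| ^ (0 : ℝ) * Real.exp (-c * |x| ^ (1 : ℝ))) :=
    integrable_abs (f := fun x => x ^ (0 : ℝ) * Real.exp (-c * x ^ (1 : ℝ)))
      (integrableOn_rpow_mul_exp_neg_mul_rpow (by norm_num) one_pos hc)
  have hI' : Integrable (fun x : ℝ => Real.exp (-c * |x|)) := by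
    refine hI.congr (Filter.Eventually.of_forall fun x => ?_)
    simp only
    rw [Real.rpow_zero, Real.rpow_one, one_mul]
  set I : ℝ := ∫ x : ℝ, Real.exp (-c * |x|) with hIdef
  have hI0 : 0 ≤ I := integral_nonneg fun x => by positivity
  refine ⟨Real.toNNReal (A * I), fun τ hτ => ?_⟩
  have hτ0 : 0 < τ := by linarith
  have e1 : ∫⁻ x : ℝ, ENNReal.ofReal (s0 A c τ x) = ENNReal.ofReal (A / τ * I) := by
    unfold s0
    rw [hIdef, ← integral_const_mul, ofReal_integral_eq_lintegral_ofReal (hI'.const_mul _)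
            (Filter.Eventually.of_forall fun x => by positivity)]
  rw [e1, Real.rpow_neg_one, show A / τ * I = (A * I) * τ⁻¹ by field_simp,
    ENNReal.ofReal_mul (by positivity)]
  rfl

end Pool.Agent.HK.LowM
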