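import Pool.Agent.HK.LowM
import Pool.Agent.HK.LowK

/-!
# The duality bound (job LO)
-/

set_option autoImplicit false

open MeasureTheory Set Filter Topology
open scoped ENNReal NNReal InnerProductSpace

namespace Pool.Agent.HK.LowM

open Pool.Agent.HK

lemma absorb {X R : ℝ≥0∞} {θ : ℝ} (h0 : 0 < θ) (h1 : θ < 1) (hX : X ≠ ⊤)
    (h : X ≤ R * X ^ (1 - θ)) : X ^ θ ≤ R := by
  rcases eq_or_ne X 0 with h2 | h2
  · rw [h2, ENNReal.zero_rpow_of_pos h0]; exact zero_le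
  · have h3 : X ^ (1 - θ) ≠ 0 := by
      rw [Ne, ENNReal.rpow_eq_zero_iff]
      rintro (⟨h4, _⟩ | ⟨h4, _⟩)
      · exact h2 h4
      · exact hX h4
    have h4 : X ^ (1 - θ) ≠ ⊤ := ENNReal.rpow_ne_top_of_nonneg (by linarith) hX
    have h5 : X = X ^ θ * X ^ (1 - θ) := by
      rw [← ENNReal.rpow_add _ _ h2 hX]
      rw [show θ + (1 - θ) = 1 by ring, ENNReal.rpow_one]
    rw [h5] at h
    have h6 : X ^ θ * X ^ (1 - θ) ≤ R * X ^ (1 - θ) := by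
      calc X ^ θ * X ^ (1 - θ) ≤ R * (X ^ θ * X ^ (1 - θ)) ^ (1 - θ) := h
        _ = R * X ^ (1 - θ) := by rw [← h5]
    exact (ENNReal.mul_le_mul_iff_left h3 h4).1 h6

/-- The bound by duality. -/
lemma dual_bound (hY : Target_Young) (Y : SphSystem) (J : ℕ) (a : ℕ → ℝ → ℝ → ℝ)
    (ham : ∀ j, Measurable (fun p : ℝ × ℝ => a j p.1 p.2)) (B : ℝ)
    (haB : ∀ j < J, ∀ t s, |a j t s| ≤ B) {f F₁ F₂ h : ℝ × S2 → ℝ} (hf : Continuous f)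
    (hft : TS f) (hF₁ : Continuous F₁) (hF₁t : TS F₁) (hF₂ : Continuous F₂) (hF₂t : TS F₂)
    (hh : Continuous h)
    (hw : ∀ j < J, ∀ m t, cf Y j m f t = ∫ s, a j t s * cf Y j m (fun p => F₁ p + F₂ p) s)
    {p₁ q₁ p₂ q₂ r : ℝ} (hp₁ : 1 ≤ p₁) (hq₁ : 1 ≤ q₁) (hp₂ : 1 ≤ p₂) (hq₂ : 1 ≤ q₂) (hr : 1 ≤ r)
    (h1 : 1 / p₁ + 1 / q₁ + 1 / r = 2) (h2 : 1 / p₂ + 1 / q₂ + 1 / r = 2)
    (k₁ k₂ : ℝ → ℝ≥0∞) (hk₁ : Measurable k₁) (hk₂ : Measurable k₂)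
    (hb₁ : ∀ t s, t ≠ s → ‖Y.mult J (fun j => a j t s) (fun ω => F₁ (s, ω))
      (fun ω => h (t, ω))‖ₑ ≤ k₁ (t - s) * N p₁ F₁ s * N r h t)
    (hb₂ : ∀ t s, t ≠ s → ‖Y.mult J (fun j => a j t s) (fun ω => F₂ (s, ω))
      (fun ω => h (t, ω))‖ₑ ≤ k₂ (t - s) * N p₂ F₂ s * N r h t) :
    ‖∫ z, Y.low J f z * h z ∂((volume : Measure ℝ).prod sig)‖ₑ ≤
      ((∫⁻ x, k₁ x ^ q₁) ^ (1 / q₁) *
          eLpNorm F₁ (ENNReal.ofReal p₁) ((volume : Measure ℝ).prod sig) +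
        (∫⁻ x, k₂ x ^ q₂) ^ (1 / q₂) *
          eLpNorm F₂ (ENNReal.ofReal p₂) ((volume : Measure ℝ).prod sig)) *
        eLpNorm h (ENNReal.ofReal r) ((volume : Measure ℝ).prod sig) := by
  obtain ⟨T₁, hT₁⟩ := hF₁t
  obtain ⟨T₂, hT₂⟩ := hF₂t
  have hFt : TS (fun p => F₁ p + F₂ p) := by
    refine ⟨max T₁ T₂, fun p hp => ?_⟩
    rw [max_lt_iff] at hp
    simp only [hT₁ p hp.1, hT₂ p hp.2, add_zero]
  rw [dual Y J a ham B haB hf hft (hF₁.add hF₂) hFt hh hw]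
  have hN₁ := N_meas (p := p₁) hF₁
  have hN₂ := N_meas (p := p₂) hF₂
  have hNr := N_meas (p := r) hh
  have step1 : ‖∫ t, ∫ s, Y.mult J (fun j => a j t s) (fun ω => F₁ (s, ω) + F₂ (s, ω))
      (fun ω => h (t, ω))‖ₑ ≤ ∫⁻ t, ∫⁻ s, (k₁ (t - s) * N p₁ F₁ s * N r h t +
        k₂ (t - s) * N p₂ F₂ s * N r h t) := by
    refine (enorm_integral_le_lintegral_enorm _).trans (lintegral_mono fun t => ?_)
    refine (enorm_integral_le_lintegral_enorm _).trans (lintegral_mono_ae ?_)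
    have h0 : ∀ᵐ s : ℝ, s ≠ t := by
      rw [ae_iff]
      simp
    filter_upwards [h0] with s hs
    rw [mult_add Y J _ (slice_cont hF₁ s) (slice_cont hF₂ s)]
    exact (enorm_add_le _ _).trans (add_le_add (hb₁ t s hs.symm) (hb₂ t s hs.symm))
  refine step1.trans ?_
  have m₁ : Measurable (fun z : ℝ × ℝ => k₁ (z.1 - z.2) * N p₁ F₁ z.2 * N r h z.1) := by
    fun_prop
  have step2 : ∫⁻ t, ∫⁻ s, (k₁ (t - s) * N p₁ F₁ s * N r h t +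
        k₂ (t - s) * N p₂ F₂ s * N r h t) =
      (∫⁻ t, ∫⁻ s, k₁ (t - s) * N p₁ F₁ s * N r h t) +
        ∫⁻ t, ∫⁻ s, k₂ (t - s) * N p₂ F₂ s * N r h t := by
    rw [← lintegral_add_left]
    · refine lintegral_congr fun t => ?_
      rw [lintegral_add_left]
      fun_prop
    · exact m₁.lintegral_prod_right'
  rw [step2, add_mul]
  refine add_le_add ?_ ?_
  · refine (hY p₁ q₁ r hp₁ hq₁ hr h1 k₁ _ _ hk₁ hN₁ hNr).trans ?_
    rw [N_norm (by linarith) hF₁, N_norm (by linarith) hh]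
  · refine (hY p₂ q₂ r hp₂ hq₂ hr h2 k₂ _ _ hk₂ hN₂ hNr).trans ?_
    rw [N_norm (by linarith) hF₂, N_norm (by linarith) hh]

lemma k11_meas (A c M τ : ℝ) : Measurable (fun x => ENNReal.ofReal (k11 A c M τ x)) := by
  unfold k11 s0 s1
  fun_prop

lemma k12_meas (A c M τ : ℝ) : Measurable (fun x => ENNReal.ofReal (k12 A c M τ x)) := by
  unfold k12 s0 s1
  fun_prop

lemma s0_meas (A c τ : ℝ) : Measurable (fun x => ENNReal.ofReal (s0 A c τ x)) := by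
  unfold s0
  fun_prop

end Pool.Agent.HK.LowM
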