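import Pool.Agent.HK.Spec

/-!
# Low modes (job LO)
-/

set_option autoImplicit false

open MeasureTheory Set Filter Topology
open scoped ENNReal NNReal InnerProductSpace

namespace Pool.Agent.HK.LowM

open Pool.Agent.HK

lemma cyl_cont (τ : ℕ) (β : ℝ) {u : E3 → ℝ} (hu : Continuous u) : Continuous (cyl τ β u) := by
  unfold cyl
  fun_prop

lemma slice_cont {f : ℝ × S2 → ℝ} (hf : Continuous f) (t : ℝ) :
    Continuous (fun ω : S2 => f (t, ω)) := by fun_prop

lemma integ_sig {f : S2 → ℝ} (hf : Continuous f) : Integrable f sig :=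
  hf.integrable_of_hasCompactSupport (HasCompactSupport.of_compactSpace f)

lemma bm_of_cont {f : S2 → ℝ} (hf : Continuous f) : BM f := by
  refine ⟨hf.measurable, ?_⟩
  obtain ⟨B, hB⟩ := (isCompact_range hf).isBounded.exists_norm_le
  exact ⟨B, fun x => hB _ ⟨x, rfl⟩⟩

/-- the real norm and the extended norm -/
lemma ofReal_norm_rpow {f : S2 → ℝ} (hf : Continuous f) {p : ℝ} (hp : 0 < p) (r : ℝ) (hr : 0 ≤ r) :
    ENNReal.ofReal ((∫ ω, |f ω| ^ p ∂sig) ^ r) = (∫⁻ ω, ‖f ω‖ₑ ^ p ∂sig) ^ r := by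
  have h1 : Continuous (fun ω => |f ω| ^ p) := by
    refine hf.abs.rpow_const (fun _ => Or.inr hp.le)
  have h2 : ENNReal.ofReal (∫ ω, |f ω| ^ p ∂sig) = ∫⁻ ω, ‖f ω‖ₑ ^ p ∂sig := by
    rw [ofReal_integral_eq_lintegral_ofReal (integ_sig h1)
      (Filter.Eventually.of_forall fun ω => by positivity)]
    refine lintegral_congr fun ω => ?_
    rw [← ENNReal.ofReal_rpow_of_nonneg (abs_nonneg _) hp.le, ← Real.enorm_eq_ofReal_abs]
  have h3 : 0 ≤ ∫ ω, |f ω| ^ p ∂sig := integral_nonneg fun ω => by positivity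
  rw [← ENNReal.ofReal_rpow_of_nonneg h3 hr, h2]

lemma ofReal_norm_sq {f : S2 → ℝ} (hf : Continuous f) :
    ENNReal.ofReal ((∫ ω, f ω ^ 2 ∂sig) ^ (1 / 2 : ℝ)) =
      (∫⁻ ω, ‖f ω‖ₑ ^ (2 : ℝ) ∂sig) ^ (1 / 2 : ℝ) := by
  rw [← ofReal_norm_rpow hf (by norm_num : (0 : ℝ) < 2) (1 / 2) (by norm_num)]
  congr 2
  refine integral_congr_ae (Filter.Eventually.of_forall fun ω => ?_)
  simp only
  rw [show (2 : ℝ) = ((2 : ℕ) : ℝ) by norm_num, Real.rpow_natCast, sq_abs]

/-- The slice norm. -/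
noncomputable def N (p : ℝ) (f : ℝ × S2 → ℝ) (t : ℝ) : ℝ≥0∞ :=
  (∫⁻ ω, ‖f (t, ω)‖ₑ ^ p ∂sig) ^ (1 / p)

lemma N_meas {p : ℝ} {f : ℝ × S2 → ℝ} (hf : Continuous f) : Measurable (N p f) := by
  unfold N
  have h : Measurable (fun z : ℝ × S2 => ‖f z‖ₑ ^ p) := by
    have := hf.measurable
    fun_prop
  exact (h.lintegral_prod_right').pow_const _

lemma N_norm {p : ℝ} (hp : 0 < p) {f : ℝ × S2 → ℝ} (hf : Continuous f) :
    (∫⁻ t, N p f t ^ p) ^ (1 / p) = eLpNorm f (ENNReal.ofReal p) ((volume : Measure ℝ).prod sig) := by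
  have h0 : ENNReal.ofReal p ≠ 0 := by
    rw [Ne, ENNReal.ofReal_eq_zero]; linarith
  rw [eLpNorm_eq_lintegral_rpow_enorm_toReal h0 ENNReal.ofReal_ne_top, ENNReal.toReal_ofReal hp.le]
  congr 1
  rw [lintegral_prod]
  · refine lintegral_congr fun t => ?_
    unfold N
    rw [← ENNReal.rpow_mul, one_div_mul_cancel hp.ne', ENNReal.rpow_one]
  · have := hf.measurable
    exact Measurable.aemeasurable (by fun_prop)


/-- coefficient of a function on the cylinder -/
noncomputable def cf (Y : SphSystem) (j : ℕ) (m : Fin (Y.d j)) (f : ℝ × S2 → ℝ) (t : ℝ) : ℝ :=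
  ∫ ω : S2, f (t, ω) * Y.Y j m ω ∂sig

lemma Y_cont (Y : SphSystem) (j : ℕ) (m : Fin (Y.d j)) :
    Continuous (fun ω : S2 => Y.Y j m (ω : E3)) :=
  (Y.smooth j m).continuous.comp continuous_subtype_val

lemma cf_add (Y : SphSystem) (j : ℕ) (m : Fin (Y.d j)) {f g : ℝ × S2 → ℝ} (hf : Continuous f)
    (hg : Continuous g) (t : ℝ) :
    cf Y j m (fun p => f p + g p) t = cf Y j m f t + cf Y j m g t := by
  unfold cf
  have hY := Y_cont Y j m
  have i1 : Integrable (fun ω : S2 => f (t, ω) * Y.Y j m ω) sig :=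
    integ_sig ((slice_cont hf t).mul hY)
  have i2 : Integrable (fun ω : S2 => g (t, ω) * Y.Y j m ω) sig :=
    integ_sig ((slice_cont hg t).mul hY)
  rw [← integral_add i1 i2]
  refine integral_congr_ae (Filter.Eventually.of_forall fun ω => ?_)
  simp only
  ring

lemma modeU (Y : SphSystem) (j : ℕ) (m : Fin (Y.d j)) (τ : ℕ) (u : E3 → ℝ) (t : ℝ) :
    cf Y j m (cyl τ (1 / 2) u) t = Real.exp (-(τ : ℝ) * t) *
      (Real.exp (t / 2) * ∫ ω : S2, u (Real.exp t • (ω : E3)) * Y.Y j m ω ∂sig) := by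
  unfold cf cyl
  rw [← mul_assoc, ← Real.exp_add, ← integral_const_mul]
  refine integral_congr_ae (Filter.Eventually.of_forall fun ω => ?_)
  simp only
  rw [show (1 / 2 - (τ : ℝ)) * t = -(τ : ℝ) * t + t / 2 by ring]
  ring

lemma scaled_cont {u : E3 → ℝ} (hu : Continuous u) (s : ℝ) :
    Continuous (fun ω : S2 => u (Real.exp s • (ω : E3))) := by fun_prop

/-- The modes satisfy the integral equation. -/
lemma mode_eq (hMo : Target_Mode) (Y : SphSystem) {τ : ℕ} {lam : ℝ} {u F₁ F₂ : E3 → ℝ}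
    (hu : ContDiff ℝ (⊤ : ℕ∞) u) (hu0 : CcOff u) (h1 : CcOff F₁) (h2 : CcOff F₂)
    (heq : ∀ x, - lap u x + lam * u x = F₁ x + F₂ x) {a : ℕ → ℝ → ℝ → ℝ}
    (ha : ∀ j < 2 * τ, ∀ U : ℝ → ℝ, ContDiff ℝ 2 U → HasCompactSupport U → ∀ t,
      Real.exp (-(τ : ℝ) * t) * U t = ∫ s, a j t s * (Real.exp (-(τ : ℝ) * s) *
        (- deriv (deriv U) s + (((j : ℝ) + 1 / 2) ^ 2 + lam * Real.exp (2 * s)) * U s)))
    {j : ℕ} (hj : j < 2 * τ) (m : Fin (Y.d j)) :
    (∀ t, cf Y j m (cyl τ (1 / 2) u) t =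
      ∫ s, a j t s * cf Y j m (fun p => cyl τ (5 / 2) F₁ p + cyl τ (5 / 2) F₂ p) s) ∧
    Continuous (cf Y j m (cyl τ (1 / 2) u)) ∧
    HasCompactSupport (cf Y j m (cyl τ (1 / 2) u)) := by
  obtain ⟨hU1, hU2, hU3⟩ := hMo j (Y.Y j m) (Y.smooth j m) (Y.homog j m) (Y.harmonic j m) u
    (contDiff_infty.1 hu 2) hu0
  set U : ℝ → ℝ := fun t => Real.exp (t / 2) *
    ∫ ω : S2, u (Real.exp t • (ω : E3)) * Y.Y j m ω ∂sig with hU
  have hmode : cf Y j m (cyl τ (1 / 2) u) = fun t => Real.exp (-(τ : ℝ) * t) * U t := by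
    funext t
    exact modeU Y j m τ u t
  have hlap : ∀ x, - lap u x = F₁ x + F₂ x - lam * u x := fun x => by linarith [heq x]
  have hYc := Y_cont Y j m
  refine ⟨fun t => ?_, ?_, ?_⟩
  · rw [hmode]
    simp only
    rw [ha j hj U hU1 hU2 t]
    refine integral_congr_ae (Filter.Eventually.of_forall fun s => ?_)
    simp only
    congr 1
    have hcu := scaled_cont hu.continuous s
    have hc1 := scaled_cont h1.1 s
    have hc2 := scaled_cont h2.1 s
    have e1 : - deriv (deriv U) s + (((j : ℝ) + 1 / 2) ^ 2 + lam * Real.exp (2 * s)) * U s =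
        Real.exp (5 * s / 2) *
          (∫ ω : S2, (- lap u (Real.exp s • (ω : E3))) * Y.Y j m ω ∂sig) +
          lam * Real.exp (2 * s) * U s := by
      rw [← hU3 s]; ring
    rw [e1]
    have e2 : ∫ ω : S2, (- lap u (Real.exp s • (ω : E3))) * Y.Y j m ω ∂sig =
        (∫ ω : S2, (F₁ (Real.exp s • (ω : E3)) + F₂ (Real.exp s • (ω : E3))) * Y.Y j m ω ∂sig)
          - lam * ∫ ω : S2, u (Real.exp s • (ω : E3)) * Y.Y j m ω ∂sig := by
      have i1 : Integrable (fun ω : S2 => (F₁ (Real.exp s • (ω : E3)) +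
          F₂ (Real.exp s • (ω : E3))) * Y.Y j m ω) sig := integ_sig ((hc1.add hc2).mul hYc)
      have i2 : Integrable (fun ω : S2 => lam * (u (Real.exp s • (ω : E3)) * Y.Y j m ω)) sig :=
        (integ_sig (hcu.mul hYc)).const_mul lam
      rw [← integral_const_mul, ← integral_sub i1 i2]
      refine integral_congr_ae (Filter.Eventually.of_forall fun ω => ?_)
      simp only
      rw [hlap]
      ring
    rw [e2]
    have e3 : Real.exp (5 * s / 2) = Real.exp (2 * s) * Real.exp (s / 2) := by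
      rw [← Real.exp_add]; congr 1; ring
    have e4 : cf Y j m (fun p => cyl τ (5 / 2) F₁ p + cyl τ (5 / 2) F₂ p) s =
        Real.exp (-(τ : ℝ) * s) * (Real.exp (5 * s / 2) *
        ∫ ω : S2, (F₁ (Real.exp s • (ω : E3)) + F₂ (Real.exp s • (ω : E3))) * Y.Y j m ω ∂sig) := by
      unfold cf cyl
      rw [← mul_assoc, ← Real.exp_add, ← integral_const_mul]
      refine integral_congr_ae (Filter.Eventually.of_forall fun ω => ?_)
      simp only
      rw [show (5 / 2 - (τ : ℝ)) * s = -(τ : ℝ) * s + 5 * s / 2 by ring]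
      ring
    rw [e4, e3, hU]
    ring
  · rw [hmode]
    have := hU1.continuous
    fun_prop
  · rw [hmode]
    exact hU2.mul_left

/-- vanishing for large times -/
def TS (f : ℝ × S2 → ℝ) : Prop := ∃ T : ℝ, ∀ p, T < |p.1| → f p = 0

lemma TS.compact {f : ℝ × S2 → ℝ} (hf : TS f) : HasCompactSupport f := by
  obtain ⟨T, hT⟩ := hf
  refine HasCompactSupport.intro (K := (Icc (-T) T) ×ˢ univ)
    (isCompact_Icc.prod isCompact_univ) ?_
  intro p hp
  apply hT
  simp only [mem_prod, mem_Icc, mem_univ, and_true, not_and_or, not_le] at hp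
  rcases hp with hp | hp
  · rw [lt_abs]; right; linarith
  · rw [lt_abs]; left; exact hp

lemma cyl_TS (τ : ℕ) (β : ℝ) {u : E3 → ℝ} (hu : CcOff u) : TS (cyl τ β u) := by
  obtain ⟨hc, s, R, hs, h⟩ := hu
  refine ⟨max |Real.log s| |Real.log (max R 1)|, fun p hp => ?_⟩
  have hω : ‖(p.2 : E3)‖ = 1 := by
    have := p.2.2
    rw [mem_sphere_zero_iff_norm] at this
    exact this
  have hn : ‖Real.exp p.1 • (p.2 : E3)‖ = Real.exp p.1 := by
    rw [norm_smul, hω, mul_one, Real.norm_eq_abs, abs_of_pos (Real.exp_pos _)]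
  unfold cyl
  rw [h _ ?_, mul_zero]
  rw [hn]
  rw [max_lt_iff] at hp
  obtain ⟨hp1, hp2⟩ := hp
  have hR : (0 : ℝ) < max R 1 := lt_max_of_lt_right one_pos
  rcases le_total 0 p.1 with h0 | h0
  · right
    rw [abs_of_nonneg h0] at hp2
    calc R ≤ max R 1 := le_max_left _ _
      _ = Real.exp (Real.log (max R 1)) := (Real.exp_log hR).symm
      _ < Real.exp p.1 := Real.exp_lt_exp.2 (lt_of_le_of_lt (le_abs_self _) hp2)
  · left
    rw [abs_of_nonpos h0] at hp1
    calc Real.exp p.1 < Real.exp (Real.log s) := Real.exp_lt_exp.2 (by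
          have := neg_abs_le (Real.log s); linarith)
      _ = s := Real.exp_log hs

lemma cf_cont (Y : SphSystem) (j : ℕ) (m : Fin (Y.d j)) {f : ℝ × S2 → ℝ} (hf : Continuous f) :
    Continuous (cf Y j m f) := by
  have h := continuous_parametric_integral_of_continuous (μ := sig)
    (f := fun (t : ℝ) (ω : S2) => f (t, ω) * Y.Y j m ω) (by
      have := Y_cont Y j m
      have h2 : Continuous (fun p : ℝ × S2 => f p * Y.Y j m p.2) :=
        hf.mul (this.comp continuous_snd)
      exact h2) (s := univ) isCompact_univ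
  simp only [Measure.restrict_univ] at h
  exact h

lemma cf_zero (Y : SphSystem) (j : ℕ) (m : Fin (Y.d j)) {f : ℝ × S2 → ℝ} {t : ℝ}
    (hf : ∀ ω, f (t, ω) = 0) : cf Y j m f t = 0 := by
  unfold cf
  simp [hf]

lemma cf_compact (Y : SphSystem) (j : ℕ) (m : Fin (Y.d j)) {f : ℝ × S2 → ℝ} (hf : TS f) :
    HasCompactSupport (cf Y j m f) := by
  obtain ⟨T, hT⟩ := hf
  refine HasCompactSupport.intro (K := Icc (-T) T) isCompact_Icc fun t ht => ?_
  apply cf_zero
  intro ω
  apply hT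
  simp only [mem_Icc, not_and_or, not_le] at ht
  rcases ht with ht | ht
  · rw [lt_abs]; right; linarith
  · rw [lt_abs]; left; exact ht

lemma low_eq (Y : SphSystem) (J : ℕ) (f : ℝ × S2 → ℝ) (p : ℝ × S2) :
    Y.low J f p = ∑ j ∈ Finset.range J, ∑ m, cf Y j m f p.1 * Y.Y j m p.2 := rfl

lemma low_cont (Y : SphSystem) (J : ℕ) {f : ℝ × S2 → ℝ} (hf : Continuous f) :
    Continuous (Y.low J f) := by
  have : Y.low J f = fun p => ∑ j ∈ Finset.range J, ∑ m, cf Y j m f p.1 * Y.Y j m p.2 := rfl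
  rw [this]
  refine continuous_finsetSum _ fun j _ => continuous_finsetSum _ fun m _ => ?_
  exact ((cf_cont Y j m hf).comp continuous_fst).mul ((Y_cont Y j m).comp continuous_snd)

lemma low_TS (Y : SphSystem) (J : ℕ) {f : ℝ × S2 → ℝ} (hf : TS f) : TS (Y.low J f) := by
  obtain ⟨T, hT⟩ := hf
  refine ⟨T, fun p hp => ?_⟩
  rw [low_eq]
  refine Finset.sum_eq_zero fun j _ => Finset.sum_eq_zero fun m _ => ?_
  rw [cf_zero Y j m (fun ω => hT (p.1, ω) hp), zero_mul]

/-- The duality formula. -/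
lemma dual (Y : SphSystem) (J : ℕ) (a : ℕ → ℝ → ℝ → ℝ)
    (ham : ∀ j, Measurable (fun p : ℝ × ℝ => a j p.1 p.2)) (B : ℝ)
    (haB : ∀ j < J, ∀ t s, |a j t s| ≤ B) {f F h : ℝ × S2 → ℝ} (hf : Continuous f) (hft : TS f)
    (hF : Continuous F) (hFt : TS F) (hh : Continuous h)
    (hw : ∀ j < J, ∀ m t, cf Y j m f t = ∫ s, a j t s * cf Y j m F s) :
    ∫ z, Y.low J f z * h z ∂((volume : Measure ℝ).prod sig) =
      ∫ t, ∫ s, Y.mult J (fun j => a j t s) (fun ω => F (s, ω)) (fun ω => h (t, ω)) := by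
  have hL := low_cont Y J hf
  have hLt := (low_TS Y J hft).compact
  have hint : Integrable (fun z => Y.low J f z * h z) ((volume : Measure ℝ).prod sig) :=
    (hL.mul hh).integrable_of_hasCompactSupport hLt.mul_right
  rw [integral_prod _ hint]
  refine integral_congr_ae (Filter.Eventually.of_forall fun t => ?_)
  simp only
  have e1 : ∫ ω : S2, Y.low J f (t, ω) * h (t, ω) ∂sig =
      ∑ j ∈ Finset.range J, ∑ m, cf Y j m f t * cf Y j m h t := by
    have e2 : ∀ ω : S2, Y.low J f (t, ω) * h (t, ω) =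
        ∑ j ∈ Finset.range J, ∑ m, cf Y j m f t * (h (t, ω) * Y.Y j m ω) := by
      intro ω
      rw [low_eq, Finset.sum_mul]
      refine Finset.sum_congr rfl fun j _ => ?_
      rw [Finset.sum_mul]
      refine Finset.sum_congr rfl fun m _ => ?_
      simp only
      ring
    simp only [e2]
    rw [integral_finsetSum]
    · refine Finset.sum_congr rfl fun j _ => ?_
      rw [integral_finsetSum]
      · refine Finset.sum_congr rfl fun m _ => ?_
        rw [integral_const_mul]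
        rfl
      · intro m _
        exact (integ_sig ((slice_cont hh t).mul (Y_cont Y j m))).const_mul _
    · intro j _
      refine integrable_finsetSum _ fun m _ => ?_
      exact (integ_sig ((slice_cont hh t).mul (Y_cont Y j m))).const_mul _
  rw [e1]
  have hiF : ∀ j < J, ∀ m : Fin (Y.d j), Integrable (fun s => a j t s * cf Y j m F s) := by
    intro j hj m
    have i1 : Integrable (cf Y j m F) :=
      (cf_cont Y j m hF).integrable_of_hasCompactSupport (cf_compact Y j m hFt)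
    have hm : Measurable (fun s => a j t s) := (ham j).comp (measurable_const.prodMk measurable_id)
    refine i1.bdd_mul hm.aestronglyMeasurable (c := B) ?_
    exact Filter.Eventually.of_forall fun s => by
      rw [Real.norm_eq_abs]; exact haB j hj t s
  have e3 : ∀ s, Y.mult J (fun j => a j t s) (fun ω => F (s, ω)) (fun ω => h (t, ω)) =
      ∑ j ∈ Finset.range J, ∑ m, (a j t s * cf Y j m F s) * cf Y j m h t := by
    intro s
    unfold SphSystem.mult
    refine Finset.sum_congr rfl fun j _ => ?_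
    rw [Finset.mul_sum]
    refine Finset.sum_congr rfl fun m _ => ?_
    unfold cf
    ring
  simp only [e3]
  rw [integral_finsetSum]
  · refine Finset.sum_congr rfl fun j hj => ?_
    have hj' := Finset.mem_range.1 hj
    rw [integral_finsetSum]
    · refine Finset.sum_congr rfl fun m _ => ?_
      rw [integral_mul_const, hw j hj' m t]
    · intro m _
      exact (hiF j hj' m).mul_const _
  · intro j hj
    have hj' := Finset.mem_range.1 hj
    exact integrable_finsetSum _ fun m _ => (hiF j hj' m).mul_const _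

lemma mult_add (Y : SphSystem) (J : ℕ) (b : ℕ → ℝ) {f f' g : S2 → ℝ} (hf : Continuous f)
    (hf' : Continuous f') :
    Y.mult J b (fun ω => f ω + f' ω) g = Y.mult J b f g + Y.mult J b f' g := by
  unfold SphSystem.mult
  rw [← Finset.sum_add_distrib]
  refine Finset.sum_congr rfl fun j _ => ?_
  rw [← mul_add, ← Finset.sum_add_distrib]
  congr 1
  refine Finset.sum_congr rfl fun m _ => ?_
  rw [← add_mul]
  congr 1
  have hY := Y_cont Y j m
  have i1 : Integrable (fun ω : S2 => f ω * Y.Y j m ω) sig := integ_sig (hf.mul hY)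
  have i2 : Integrable (fun ω : S2 => f' ω * Y.Y j m ω) sig := integ_sig (hf'.mul hY)
  rw [← integral_add i1 i2]
  refine integral_congr_ae (Filter.Eventually.of_forall fun ω => ?_)
  simp only
  ring

end Pool.Agent.HK.LowM
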