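import Pool.Agent.HK.Spec

/-!
Final assembly: the Hohenberg-Kohn theorem from the variational argument, the level set splitting
and the unique continuation statement on a cell.
-/

open MeasureTheory Set Filter Topology
open scoped ENNReal NNReal InnerProductSpace

namespace Pool.Agent.HK

namespace FinAsm

theorem XStar.aesm {v : E3 → ℝ} (hv : XStar v) : AEStronglyMeasurable v volume := by
  obtain ⟨f, g, hf, hg, rfl⟩ := hv
  exact hf.1.add hg.1

theorem ae_all_coord {n : ℕ} {p : E3 → Prop} (hp : ∀ᵐ x : E3, p x) :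
    ∀ᵐ X : Conf n, ∀ i, p (X i) := by
  rw [ae_all_iff]
  intro i
  exact (Measure.quasiMeasurePreserving_eval (fun _ : Fin n => (volume : Measure E3)) i).ae hp

end FinAsm

/-- JOB FIN. The theorem. -/
theorem target_Main (hV : Target_Var) (hS : Target_Split) (hC : Target_Cell) : Target_Main := by
  intro n v₁ v₂ ρ h₁ h₂ g₁ g₂
  obtain ⟨u, D, E, c, hsob, hne, hschr, hzero⟩ := hV n v₁ v₂ ρ h₁ h₂ g₁ g₂
  have hsm : AEStronglyMeasurable (fun x => v₁ x - v₂ x) volume :=
    (FinAsm.XStar.aesm h₁).sub (FinAsm.XStar.aesm h₂)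
  obtain ⟨w, hwm, hw⟩ := hsm
  have hwmeas : Measurable w := hwm.measurable
  have hext : ∀ᵐ X : Conf (n + 1), ext w X = ext v₁ X - ext v₂ X := by
    filter_upwards [FinAsm.ae_all_coord (n := n + 1) hw] with X hX
    unfold ext
    rw [← Finset.sum_sub_distrib]
    exact Finset.sum_congr rfl (fun i _ => (hX i).symm)
  have hz : ∀ᵐ X : Conf (n + 1), ext w X ≠ c → u X = 0 := by
    filter_upwards [hext, hzero] with X hX hX0 hXc
    rcases mul_eq_zero.mp hX0 with h | h
    · exact absurd (by rw [hX]; linarith) hXc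
    · exact h
  obtain ⟨s, _, hns, hsob', hlast⟩ := hS n w c u D hwmeas hsob hne hz
  refine ⟨s 0, ?_⟩
  by_contra hcon
  -- the exceptional set of one particle positions
  have hBm : MeasurableSet {x : E3 | w x ≠ s 0} :=
    (hwmeas (measurableSet_singleton (s 0))).compl
  have hBpos : 0 < volume {x : E3 | w x ≠ s 0} := by
    rw [pos_iff_ne_zero]
    intro h0
    apply hcon
    have h1 : ∀ᵐ x : E3, w x = s 0 := by
      rw [ae_iff]; exact h0
    filter_upwards [hw, h1] with x hx hx1
    rw [hx, hx1]
  have hC'm : MeasurableSet {y : Conf n | ∀ j : Fin n, w (y j) = s j.succ} := by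
    rw [Set.ofPred_forall]
    refine MeasurableSet.iInter (fun j => ?_)
    exact (hwmeas.comp (measurable_pi_apply j)) (measurableSet_singleton _)
  have htail : ∀ X : Conf (n + 1), (Fin.tail X ∈ {y : Conf n | ∀ j : Fin n, w (y j) = s j.succ}) ↔
      ∀ j : Fin (n + 1), j ≠ 0 → w (X j) = s j := by
    intro X
    constructor
    · intro h j hj
      obtain ⟨i, rfl⟩ := Fin.exists_succ_eq.mpr hj
      exact h i
    · intro h i
      exact h i.succ (Fin.succ_ne_zero i)
  refine hns ?_
  have hφ : ∀ᵐ X : Conf (n + 1), indicator {x : Conf (n + 1) | ∀ i, w (x i) = s i} u X = 0 := by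
    refine hC n v₁ E {y : Conf n | ∀ j : Fin n, w (y j) = s j.succ} {x : E3 | w x ≠ s 0} _ _
      h₁ hC'm hBm hBpos hsob' ?_ ?_ ?_
    · refine Eventually.of_forall (fun X hX => ?_)
      rw [indicator_of_notMem]
      intro hmem
      exact hX ((htail X).mpr (fun j _ => hmem j))
    · refine Eventually.of_forall (fun X hX => ?_)
      rw [indicator_of_notMem]
      intro hmem
      exact hX (hmem 0)
    · intro η Dη hη hηP
      have hη0 : ∀ᵐ X : Conf (n + 1), (¬ ∀ j, j ≠ 0 → w (X j) = s j) → η X = 0 := by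
        filter_upwards [hηP] with X hX hX'
        exact hX (fun h => hX' ((htail X).mp h))
      obtain ⟨e1, e2⟩ := hlast η Dη hη hη0
      have key := hschr η Dη hη trivial
      have i1 : ∀ p, ∫ x, indicator {x : Conf (n + 1) | ∀ j, j ≠ p.1 → w (x j) = s j} (D p) x
          * Dη p x = ∫ x, D p x * Dη p x := fun p => integral_congr_ae (e2 p)
      have i2 : ∫ x : Conf (n + 1), (ext v₁ x + coulomb x) *
          (indicator {x : Conf (n + 1) | ∀ i, w (x i) = s i} u x * η x) =
          ∫ x, (ext v₁ x + coulomb x) * (u x * η x) := by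
        refine integral_congr_ae ?_
        filter_upwards [e1] with x hx
        rw [hx]
      have i3 : ∫ x : Conf (n + 1), indicator {x : Conf (n + 1) | ∀ i, w (x i) = s i} u x * η x =
          ∫ x, u x * η x := integral_congr_ae e1
      rw [i2, i3, Finset.sum_congr rfl (fun p _ => i1 p)]
      exact key
  filter_upwards [hφ] with X hX hmem
  rwa [indicator_of_mem (show X ∈ {x : Conf (n + 1) | ∀ i, w (x i) = s i} from hmem)] at hX

end Pool.Agent.HK
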