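import Pool.Agent.HK.Spec

/-!
# Job MO: the radial equation of a spherical mode

We use rotation invariance of the surface measure: for a plane rotation `rot a b θ` the function
`θ ↦ ∫ h(r R_θ ω) Y(ω)` equals `θ ↦ ∫ h(r ω) Y(R_{-θ} ω)`, and comparing second derivatives at
`θ = 0` shows that the spherical Laplacian is symmetric.
-/

open MeasureTheory Set Filter Topology
open scoped ENNReal NNReal InnerProductSpace Pointwise

namespace Pool.Agent.HK

namespace ModeAux

lemma integrable_sphere {f : S2 → ℝ} (hf : Continuous f) : Integrable f sig :=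
  hf.integrable_of_hasCompactSupport (HasCompactSupport.of_compactSpace f)

/-- continuity of integrals over the sphere -/
lemma continuous_sphere {F : ℝ → S2 → ℝ} (hF : Continuous (Function.uncurry F)) :
    Continuous (fun t => ∫ ω, F t ω ∂sig) := by
  have := continuous_parametric_integral_of_continuous (μ := sig) hF (s := univ) isCompact_univ
  simpa using this

/-- differentiation under the integral over the sphere -/
lemma hasDerivAt_sphere {F F' : ℝ → S2 → ℝ} (hF : Continuous (Function.uncurry F))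
    (hF' : Continuous (Function.uncurry F'))
    (hd : ∀ t ω, HasDerivAt (fun s => F s ω) (F' t ω) t) (t : ℝ) :
    HasDerivAt (fun s => ∫ ω, F s ω ∂sig) (∫ ω, F' t ω ∂sig) t := by
  have hK : IsCompact (Metric.closedBall t 1 ×ˢ (univ : Set S2)) :=
    (isCompact_closedBall t 1).prod isCompact_univ
  obtain ⟨C, hC⟩ := hK.exists_bound_of_continuousOn hF'.continuousOn
  refine (hasDerivAt_integral_of_dominated_loc_of_deriv_le (bound := fun _ => C)
    (Metric.ball_mem_nhds t one_pos) ?_ ?_ ?_ ?_ ?_ ?_).2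
  · refine Eventually.of_forall fun s => ?_
    exact (hF.comp (by fun_prop : Continuous fun ω : S2 => (s, ω))).aestronglyMeasurable
  · exact integrable_sphere (hF.comp (by fun_prop : Continuous fun ω : S2 => (t, ω)))
  · exact (hF'.comp (by fun_prop : Continuous fun ω : S2 => (t, ω))).aestronglyMeasurable
  · refine Eventually.of_forall fun ω s hs => ?_
    exact hC (s, ω) ⟨Metric.ball_subset_closedBall hs, mem_univ _⟩
  · exact integrable_const _
  · exact Eventually.of_forall fun ω s _ => hd s ω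

/-- rotation invariance of the surface measure -/
lemma sig_rot (A : E3 ≃ₗᵢ[ℝ] E3) (f : E3 → ℝ) (hf : Continuous f) :
    ∫ ω : S2, f (A (ω : E3)) ∂sig = ∫ ω : S2, f (ω : E3) ∂sig := by
  have hm : ∀ ω : S2, A (ω : E3) ∈ Metric.sphere (0 : E3) 1 := by
    intro ω
    have := ω.2
    simp only [mem_sphere_iff_norm, sub_zero] at this ⊢
    rw [A.norm_map, this]
  let T : S2 → S2 := fun ω => ⟨A (ω : E3), hm ω⟩
  have hT : Continuous T := by
    apply Continuous.subtype_mk
    exact A.continuous.comp continuous_subtype_val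
  have hTmp : MeasurePreserving T sig sig := by
    refine ⟨hT.measurable, ?_⟩
    ext s hs
    rw [Measure.map_apply hT.measurable hs]
    unfold sig
    rw [Measure.toSphere_apply' _ (hT.measurable hs), Measure.toSphere_apply' _ hs]
    congr 1
    have key : (Ioo (0 : ℝ) 1 • ((↑) '' (T ⁻¹' s)) : Set E3) =
        A ⁻¹' (Ioo (0 : ℝ) 1 • ((↑) '' s)) := by
      ext x
      simp only [Set.mem_smul, mem_image, mem_preimage]
      constructor
      · rintro ⟨r, hr, y, ⟨ω, hω, rfl⟩, rfl⟩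
        exact ⟨r, hr, A ω, ⟨T ω, hω, rfl⟩, by simp⟩
      · rintro ⟨r, hr, y, ⟨ω, hω, rfl⟩, h⟩
        have hn : A.symm (ω : E3) ∈ Metric.sphere (0 : E3) 1 := by
          have := ω.2
          simp only [mem_sphere_iff_norm, sub_zero] at this ⊢
          rw [A.symm.norm_map, this]
        refine ⟨r, hr, A.symm ω, ⟨⟨A.symm ω, hn⟩, ?_, rfl⟩, ?_⟩
        · have : T ⟨A.symm ω, hn⟩ = ω := by
            apply Subtype.ext
            simp [T]
          rw [this]; exact hω
        · apply A.injective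
          simp [← h]
    rw [key]
    have hAm : MeasurePreserving (A.toMeasurableEquiv : E3 → E3) volume volume :=
      A.measurePreserving
    exact hAm.measure_preimage_equiv _
  have hfm : AEStronglyMeasurable (fun ω : S2 => f (ω : E3)) (Measure.map T sig) :=
    (hf.comp continuous_subtype_val).aestronglyMeasurable
  have := integral_map hT.measurable.aemeasurable hfm
  rw [hTmp.map_eq] at this
  rw [this]

/-! ### Second derivatives along curves -/

lemma hasDerivAt_comp1 {f : E3 → ℝ} (hf : ContDiff ℝ 2 f) {c : ℝ → E3} {c1 : E3} {t : ℝ}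
    (hc : HasDerivAt c c1 t) : HasDerivAt (fun s => f (c s)) (fderiv ℝ f (c t) c1) t := by
  have h1 : HasFDerivAt f (fderiv ℝ f (c t)) (c t) :=
    (hf.differentiable (by norm_num) (c t)).hasFDerivAt
  exact h1.comp_hasDerivAt t hc

lemma hasDerivAt_comp2 {f : E3 → ℝ} (hf : ContDiff ℝ 2 f) {c c1 : ℝ → E3} {c2 : E3} {t : ℝ}
    (hc : HasDerivAt c (c1 t) t) (hc1 : HasDerivAt c1 c2 t) :
    HasDerivAt (fun s => fderiv ℝ f (c s) (c1 s))
      (fderiv ℝ (fderiv ℝ f) (c t) (c1 t) (c1 t) + fderiv ℝ f (c t) c2) t := by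
  have hf1 : ContDiff ℝ 1 (fderiv ℝ f) := hf.fderiv_right (by norm_num)
  have h1 : HasFDerivAt (fderiv ℝ f) (fderiv ℝ (fderiv ℝ f) (c t)) (c t) :=
    (hf1.differentiable (by norm_num) (c t)).hasFDerivAt
  have h2 := h1.comp_hasDerivAt t hc
  exact h2.clm_apply hc1

lemma cont_fderiv {f : E3 → ℝ} (hf : ContDiff ℝ 2 f) : Continuous (fderiv ℝ f) :=
  hf.continuous_fderiv (by norm_num)

lemma cont_fderiv2 {f : E3 → ℝ} (hf : ContDiff ℝ 2 f) : Continuous (fderiv ℝ (fderiv ℝ f)) :=
  (hf.fderiv_right (m := 1) (by norm_num)).continuous_fderiv (by norm_num)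

lemma symm_fderiv2 {f : E3 → ℝ} (hf : ContDiff ℝ 2 f) (x y z : E3) :
    fderiv ℝ (fderiv ℝ f) x y z = fderiv ℝ (fderiv ℝ f) x z y :=
  (hf.contDiffAt.isSymmSndFDerivAt (by simp)).eq y z

lemma lap_eq {f : E3 → ℝ} (hf : ContDiff ℝ 2 f) (x : E3) :
    lap f x = ∑ a, fderiv ℝ (fderiv ℝ f) x (ax a) (ax a) := by
  unfold lap
  refine Finset.sum_congr rfl fun a _ => ?_
  have hf1 : ContDiff ℝ 1 (fderiv ℝ f) := hf.fderiv_right (by norm_num)
  have h1 : HasFDerivAt (fderiv ℝ f) (fderiv ℝ (fderiv ℝ f) x) x :=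
    (hf1.differentiable (by norm_num) x).hasFDerivAt
  have h2 := h1.clm_apply (hasFDerivAt_const (ax a) x)
  rw [h2.fderiv]
  simp

/-! ### Plane rotations -/

/-- the generator of the rotations in the plane `a b` -/
noncomputable def J (a b : Fin 3) : E3 →L[ℝ] E3 :=
  (EuclideanSpace.proj a : E3 →L[ℝ] ℝ).smulRight (ax b)
    - (EuclideanSpace.proj b : E3 →L[ℝ] ℝ).smulRight (ax a)

/-- the projection on the plane `a b` -/
noncomputable def P (a b : Fin 3) : E3 →L[ℝ] E3 :=
  (EuclideanSpace.proj a : E3 →L[ℝ] ℝ).smulRight (ax a)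
    + (EuclideanSpace.proj b : E3 →L[ℝ] ℝ).smulRight (ax b)

/-- rotation by the angle `θ` -/
noncomputable def rot (a b : Fin 3) (θ : ℝ) : E3 →L[ℝ] E3 :=
  (ContinuousLinearMap.id ℝ E3 - P a b) + Real.cos θ • P a b + Real.sin θ • J a b

lemma J_apply (a b : Fin 3) (x : E3) : J a b x = x a • ax b - x b • ax a := by
  simp [J]

lemma P_apply (a b : Fin 3) (x : E3) : P a b x = x a • ax a + x b • ax b := by
  simp [P]

lemma rot_apply (a b : Fin 3) (θ : ℝ) (x : E3) :
    rot a b θ x = (x - P a b x) + Real.cos θ • P a b x + Real.sin θ • J a b x := by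
  simp [rot]

lemma rot_zero (a b : Fin 3) (x : E3) : rot a b 0 x = x := by
  simp [rot_apply]

lemma norm_rot {a b : Fin 3} (hab : a ≠ b) (θ : ℝ) (x : E3) : ‖rot a b θ x‖ = ‖x‖ := by
  have h := Real.sin_sq_add_cos_sq θ
  have : ‖rot a b θ x‖ ^ 2 = ‖x‖ ^ 2 := by
    rw [EuclideanSpace.norm_sq_eq, EuclideanSpace.norm_sq_eq]
    simp only [rot_apply, P_apply, J_apply, ax, Fin.sum_univ_three, Real.norm_eq_abs, sq_abs]
    fin_cases a <;> fin_cases b <;> simp at hab ⊢
    · linear_combination (x 0 ^ 2 + x 1 ^ 2) * h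
    · linear_combination (x 0 ^ 2 + x 2 ^ 2) * h
    · linear_combination (x 1 ^ 2 + x 0 ^ 2) * h
    · linear_combination (x 1 ^ 2 + x 2 ^ 2) * h
    · linear_combination (x 2 ^ 2 + x 0 ^ 2) * h
    · linear_combination (x 2 ^ 2 + x 1 ^ 2) * h
  exact (sq_eq_sq₀ (norm_nonneg _) (norm_nonneg _)).1 this

lemma rot_rot {a b : Fin 3} (hab : a ≠ b) (θ : ℝ) (x : E3) : rot a b (-θ) (rot a b θ x) = x := by
  have h := Real.sin_sq_add_cos_sq θ
  ext i
  simp only [rot_apply, P_apply, J_apply, ax]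
  fin_cases a <;> fin_cases b <;> simp at hab ⊢ <;> fin_cases i <;> simp
  · linear_combination (x 0) * h
  · linear_combination (x 1) * h
  · linear_combination (x 0) * h
  · linear_combination (x 2) * h
  · linear_combination (x 0) * h
  · linear_combination (x 1) * h
  · linear_combination (x 1) * h
  · linear_combination (x 2) * h
  · linear_combination (x 0) * h
  · linear_combination (x 2) * h
  · linear_combination (x 1) * h
  · linear_combination (x 2) * h

/-- the rotation as a linear isometry equivalence -/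
noncomputable def rotE {a b : Fin 3} (hab : a ≠ b) (θ : ℝ) : E3 ≃ₗᵢ[ℝ] E3 :=
  LinearIsometry.toLinearIsometryEquiv
    (⟨(rot a b θ).toLinearMap, fun x => norm_rot hab θ x⟩ : E3 →ₗᵢ[ℝ] E3) rfl

lemma rotE_apply {a b : Fin 3} (hab : a ≠ b) (θ : ℝ) (x : E3) : rotE hab θ x = rot a b θ x := rfl

lemma hasDerivAt_rot (a b : Fin 3) (x : E3) (θ : ℝ) :
    HasDerivAt (fun θ => rot a b θ x) (-Real.sin θ • P a b x + Real.cos θ • J a b x) θ := by
  simp only [rot_apply]
  have h1 := ((Real.hasDerivAt_cos θ).smul_const (P a b x)).const_add (x - P a b x)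
  have h2 := (Real.hasDerivAt_sin θ).smul_const (J a b x)
  exact h1.add h2

lemma hasDerivAt_rot' (a b : Fin 3) (x : E3) (θ : ℝ) :
    HasDerivAt (fun θ => -Real.sin θ • P a b x + Real.cos θ • J a b x)
      (-Real.cos θ • P a b x + -Real.sin θ • J a b x) θ := by
  have h1 := ((Real.hasDerivAt_sin θ).neg.smul_const (P a b x))
  have h2 := (Real.hasDerivAt_cos θ).smul_const (J a b x)
  exact h1.add h2

/-- second derivative at `0` of an integral over the sphere of a function along rotations -/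
lemma second_deriv_rot {f g : E3 → ℝ} (hf : ContDiff ℝ 2 f) (hg : Continuous g) (a b : Fin 3)
    (r ε : ℝ) (hε : ε ^ 2 = 1) : ∃ Φ₁ : ℝ → ℝ,
    (∀ θ, HasDerivAt (fun θ => ∫ ω : S2, f (r • rot a b (ε * θ) ω) * g ω ∂sig) (Φ₁ θ) θ) ∧
    HasDerivAt Φ₁ (∫ ω : S2, (fderiv ℝ (fderiv ℝ f) (r • (ω : E3)) (J a b (r • (ω : E3)))
      (J a b (r • (ω : E3))) - fderiv ℝ f (r • (ω : E3)) (P a b (r • (ω : E3)))) * g ω ∂sig) 0 := by
  -- the curve and its derivatives
  set c : ℝ → S2 → E3 := fun θ ω => r • rot a b (ε * θ) (ω : E3) with hc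
  set c1 : ℝ → S2 → E3 := fun θ ω => (r * ε) • (-Real.sin (ε * θ) • P a b (ω : E3) +
    Real.cos (ε * θ) • J a b (ω : E3)) with hc1
  set c2 : ℝ → S2 → E3 := fun θ ω => (r * ε ^ 2) • (-Real.cos (ε * θ) • P a b (ω : E3) +
    -Real.sin (ε * θ) • J a b (ω : E3)) with hc2
  have h0 : ∀ θ : ℝ, HasDerivAt (fun θ : ℝ => ε * θ) ε θ := fun θ => by
    simpa using (hasDerivAt_id θ).const_mul ε
  have hd1 : ∀ θ ω, HasDerivAt (fun θ => c θ ω) (c1 θ ω) θ := by
    intro θ ω
    have h1 : HasDerivAt (fun θ => rot a b (ε * θ) (ω : E3)) _ θ :=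
      (hasDerivAt_rot a b (ω : E3) (ε * θ)).scomp θ (h0 θ)
    refine (h1.const_smul r).congr_deriv ?_
    simp only [hc1, mul_smul]
  have hd2 : ∀ θ ω, HasDerivAt (fun θ => c1 θ ω) (c2 θ ω) θ := by
    intro θ ω
    have h1 : HasDerivAt (fun θ => -Real.sin (ε * θ) • P a b (ω : E3) +
        Real.cos (ε * θ) • J a b (ω : E3)) _ θ :=
      (hasDerivAt_rot' a b (ω : E3) (ε * θ)).scomp θ (h0 θ)
    refine (h1.const_smul (r * ε)).congr_deriv ?_
    simp only [hc2, smul_smul]
    congr 1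
    ring
  have cc : Continuous (Function.uncurry c) := by
    simp only [hc, Function.uncurry_def, rot_apply]
    fun_prop
  have cc1 : Continuous (Function.uncurry c1) := by
    simp only [hc1, Function.uncurry_def]
    fun_prop
  have cc2 : Continuous (Function.uncurry c2) := by
    simp only [hc2, Function.uncurry_def]
    fun_prop
  have cg : Continuous (fun p : ℝ × S2 => g (p.2 : E3)) := by fun_prop
  have cf := hf.continuous
  have cf1 := cont_fderiv hf
  have cf2 := cont_fderiv2 hf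
  have k0 : Continuous (Function.uncurry fun θ (ω : S2) => f (c θ ω) * g ω) :=
    (cf.comp cc).mul cg
  have k1 : Continuous (Function.uncurry fun θ (ω : S2) =>
      fderiv ℝ f (c θ ω) (c1 θ ω) * g ω) :=
    ((cf1.comp cc).clm_apply cc1).mul cg
  have k2 : Continuous (Function.uncurry fun θ (ω : S2) =>
      (fderiv ℝ (fderiv ℝ f) (c θ ω) (c1 θ ω) (c1 θ ω) + fderiv ℝ f (c θ ω) (c2 θ ω)) * g ω) :=
    ((((cf2.comp cc).clm_apply cc1).clm_apply cc1).add ((cf1.comp cc).clm_apply cc2)).mul cg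
  refine ⟨fun θ => ∫ ω : S2, fderiv ℝ f (c θ ω) (c1 θ ω) * g ω ∂sig, fun θ => ?_, ?_⟩
  · exact hasDerivAt_sphere k0 k1 (fun t ω => (hasDerivAt_comp1 hf (hd1 t ω)).mul_const _) θ
  · refine (hasDerivAt_sphere k1 k2
      (fun t ω => (hasDerivAt_comp2 hf (hd1 t ω) (hd2 t ω)).mul_const _) 0).congr_deriv ?_
    refine integral_congr_ae (Eventually.of_forall fun ω => ?_)
    simp only [hc, hc1, hc2, mul_zero, rot_zero, Real.sin_zero, Real.cos_zero, neg_zero, zero_smul,
      zero_add, add_zero, one_smul, map_smul, neg_smul, smul_neg, _root_.smul_apply,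
      smul_eq_mul, map_neg, hε, mul_one]
    congr 1
    linear_combination (r ^ 2 * ((fderiv ℝ (fderiv ℝ f) (r • (ω : E3))) (J a b ω)) (J a b ω)) * hε

lemma selfadj {h Y : E3 → ℝ} (hh : ContDiff ℝ 2 h) (hY : ContDiff ℝ 2 Y) {a b : Fin 3}
    (hab : a ≠ b) (r : ℝ) :
    ∫ ω : S2, (fderiv ℝ (fderiv ℝ h) (r • (ω : E3)) (J a b (r • (ω : E3)))
      (J a b (r • (ω : E3))) - fderiv ℝ h (r • (ω : E3)) (P a b (r • (ω : E3)))) * Y ω ∂sig =
    ∫ ω : S2, (fderiv ℝ (fderiv ℝ Y) ω (J a b ω) (J a b ω) - fderiv ℝ Y ω (P a b ω)) *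
      h (r • (ω : E3)) ∂sig := by
  obtain ⟨Φ₁, h1, h1'⟩ := second_deriv_rot hh hY.continuous a b r 1 (by norm_num)
  obtain ⟨Φ₂, h2, h2'⟩ := second_deriv_rot hY
    (g := fun x => h (r • x)) (by have := hh.continuous; fun_prop) a b 1 (-1) (by norm_num)
  have heq : (fun θ => ∫ ω : S2, h (r • rot a b (1 * θ) ω) * Y ω ∂sig) =
      (fun θ => ∫ ω : S2, Y ((1 : ℝ) • rot a b (-1 * θ) ω) * h (r • (ω : E3)) ∂sig) := by
    funext θ
    have hc : Continuous (fun x : E3 => Y (rot a b (-θ) x) * h (r • x)) := by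
      have := hh.continuous
      have := hY.continuous
      fun_prop
    have := sig_rot (rotE hab θ) _ hc
    simp only [rotE_apply, rot_rot hab] at this
    simp only [one_mul, one_smul, neg_mul]
    rw [← this]
    exact integral_congr_ae (Eventually.of_forall fun ω => mul_comm _ _)
  have hΦ : Φ₁ = Φ₂ := by
    funext θ
    have := h1 θ
    rw [heq] at this
    exact this.unique (h2 θ)
  rw [hΦ] at h1'
  have := h1'.unique h2'
  simpa only [one_smul] using this

lemma expand (x : E3) : x = x 0 • ax 0 + x 1 • ax 1 + x 2 • ax 2 := by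
  ext i
  fin_cases i <;> simp [ax]

/-- the Laplacian in polar coordinates, algebraic form -/
lemma alg (B : E3 →L[ℝ] E3 →L[ℝ] ℝ) (hB : ∀ x y, B x y = B y x) (l : E3 →L[ℝ] ℝ) (x : E3) :
    ‖x‖ ^ 2 * ∑ a, B (ax a) (ax a) = B x x + 2 * l x +
      ((B (J 0 1 x) (J 0 1 x) - l (P 0 1 x)) + (B (J 0 2 x) (J 0 2 x) - l (P 0 2 x)) +
        (B (J 1 2 x) (J 1 2 x) - l (P 1 2 x))) := by
  have e1 : B x x = B (x 0 • ax 0 + x 1 • ax 1 + x 2 • ax 2)
      (x 0 • ax 0 + x 1 • ax 1 + x 2 • ax 2) := by rw [← expand x]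
  have e2 : l x = l (x 0 • ax 0 + x 1 • ax 1 + x 2 • ax 2) := by rw [← expand x]
  have h01 := hB (ax 1) (ax 0)
  have h02 := hB (ax 2) (ax 0)
  have h12 := hB (ax 2) (ax 1)
  rw [e1, e2, EuclideanSpace.norm_sq_eq]
  simp only [J_apply, P_apply, map_add, map_sub, map_smul, _root_.add_apply, _root_.sub_apply,
    _root_.smul_apply, smul_eq_mul, Fin.sum_univ_three, Real.norm_eq_abs, sq_abs, h01, h02, h12]
  ring

lemma radial_deriv1 {f : E3 → ℝ} (hf : ContDiff ℝ 2 f) (x : E3) (t : ℝ) :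
    HasDerivAt (fun t => f (Real.exp t • x)) (fderiv ℝ f (Real.exp t • x) (Real.exp t • x)) t :=
  hasDerivAt_comp1 hf (c := fun t => Real.exp t • x) ((Real.hasDerivAt_exp t).smul_const x)

lemma radial_deriv2 {f : E3 → ℝ} (hf : ContDiff ℝ 2 f) (x : E3) (t : ℝ) :
    HasDerivAt (fun t => fderiv ℝ f (Real.exp t • x) (Real.exp t • x))
      (fderiv ℝ (fderiv ℝ f) (Real.exp t • x) (Real.exp t • x) (Real.exp t • x) +
        fderiv ℝ f (Real.exp t • x) (Real.exp t • x)) t :=
  hasDerivAt_comp2 hf (c := fun t => Real.exp t • x) (c1 := fun t => Real.exp t • x)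
    ((Real.hasDerivAt_exp t).smul_const x) ((Real.hasDerivAt_exp t).smul_const x)

/-- Euler's relations for homogeneous functions -/
lemma euler {Y : E3 → ℝ} (hY : ContDiff ℝ 2 Y) {j : ℕ}
    (hom : ∀ (c : ℝ) (x : E3), Y (c • x) = c ^ j * Y x) (x : E3) :
    fderiv ℝ (fderiv ℝ Y) x x x + 2 * fderiv ℝ Y x x = ((j : ℝ) ^ 2 + j) * Y x := by
  have hY1 : ∀ t : ℝ, fderiv ℝ Y (Real.exp t • x) (Real.exp t • x) =
      j * (Real.exp (j * t) * Y x) := by
    intro t
    have h1 := radial_deriv1 hY x t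
    have h2 : HasDerivAt (fun t => Y (Real.exp t • x)) (j * (Real.exp (j * t) * Y x)) t := by
      have : (fun t => Y (Real.exp t • x)) = fun t => Real.exp (j * t) * Y x := by
        funext t
        rw [hom, ← Real.exp_nat_mul]
      rw [this]
      have h0 : HasDerivAt (fun t : ℝ => (j : ℝ) * t) (j : ℝ) t := by
        simpa using (hasDerivAt_id t).const_mul (j : ℝ)
      refine (h0.exp.mul_const (Y x)).congr_deriv ?_
      ring
    exact h1.unique h2
  have h2 := radial_deriv2 hY x 0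
  have h3 : HasDerivAt (fun t => fderiv ℝ Y (Real.exp t • x) (Real.exp t • x))
      (j * (j * Y x)) 0 := by
    have : (fun t => fderiv ℝ Y (Real.exp t • x) (Real.exp t • x)) =
        fun t => j * (Real.exp (j * t) * Y x) := funext hY1
    rw [this]
    have h0 : HasDerivAt (fun t : ℝ => (j : ℝ) * t) (j : ℝ) 0 := by
      simpa using (hasDerivAt_id (0 : ℝ)).const_mul (j : ℝ)
    refine ((h0.exp.mul_const (Y x)).const_mul (j : ℝ)).congr_deriv ?_
    simp
  have h4 := h2.unique h3
  have h5 := hY1 0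
  simp only [Real.exp_zero, one_smul, mul_zero, one_mul] at h4 h5
  linear_combination h4 + h5

lemma contDiff_two_of {V V1 V2 : ℝ → ℝ} (h1 : ∀ t, HasDerivAt V (V1 t) t)
    (h2 : ∀ t, HasDerivAt V1 (V2 t) t) (hc : Continuous V2) : ContDiff ℝ 2 V := by
  have d1 : deriv V = V1 := funext fun t => (h1 t).deriv
  have d2 : deriv V1 = V2 := funext fun t => (h2 t).deriv
  have : ContDiff ℝ 1 V1 := by
    rw [contDiff_one_iff_deriv, d2]
    exact ⟨fun t => (h2 t).differentiableAt, hc⟩
  have h : ContDiff ℝ (1 + 1) V := by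
    rw [contDiff_succ_iff_deriv, d1]
    exact ⟨fun t => (h1 t).differentiableAt, by simp, this⟩
  simpa [one_add_one_eq_two] using h

lemma add3 {f g k : S2 → ℝ} (hf : Continuous f) (hg : Continuous g) (hk : Continuous k) :
    (∫ ω, f ω ∂sig) + (∫ ω, g ω ∂sig) + (∫ ω, k ω ∂sig) = ∫ ω, (f ω + g ω + k ω) ∂sig := by
  rw [integral_add (f := fun ω => f ω + g ω) (integrable_sphere (hf.add hg))
    (integrable_sphere hk), integral_add (integrable_sphere hf) (integrable_sphere hg)]

/-- The key identity. -/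
lemma key {j : ℕ} {Y : E3 → ℝ} (hY : ContDiff ℝ 2 Y)
    (hom : ∀ (c : ℝ) (x : E3), Y (c • x) = c ^ j * Y x) (harm : ∀ x, lap Y x = 0) {h : E3 → ℝ}
    (hh : ContDiff ℝ 2 h) (t : ℝ) :
    Real.exp (2 * t) * ∫ ω : S2, lap h (Real.exp t • (ω : E3)) * Y ω ∂sig =
      (∫ ω : S2, (fderiv ℝ (fderiv ℝ h) (Real.exp t • (ω : E3)) (Real.exp t • (ω : E3))
        (Real.exp t • (ω : E3)) + fderiv ℝ h (Real.exp t • (ω : E3)) (Real.exp t • (ω : E3)))
          * Y ω ∂sig) +
      (∫ ω : S2, fderiv ℝ h (Real.exp t • (ω : E3)) (Real.exp t • (ω : E3)) * Y ω ∂sig) -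
      ((j : ℝ) ^ 2 + j) * ∫ ω : S2, h (Real.exp t • (ω : E3)) * Y ω ∂sig := by
  have cY := hY.continuous
  have cY1 := cont_fderiv hY
  have cY2 := cont_fderiv2 hY
  have ch := hh.continuous
  have ch1 := cont_fderiv hh
  have ch2 := cont_fderiv2 hh
  set r := Real.exp t with hr
  -- the integrands
  set L : Fin 3 → Fin 3 → S2 → ℝ := fun a b ω =>
    (fderiv ℝ (fderiv ℝ h) (r • (ω : E3)) (J a b (r • (ω : E3)))
      (J a b (r • (ω : E3))) - fderiv ℝ h (r • (ω : E3)) (P a b (r • (ω : E3)))) * Y ω with hL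
  set M : Fin 3 → Fin 3 → S2 → ℝ := fun a b ω =>
    (fderiv ℝ (fderiv ℝ Y) ω (J a b ω) (J a b ω) - fderiv ℝ Y ω (P a b ω)) *
      h (r • (ω : E3)) with hM
  have cL : ∀ a b, Continuous (L a b) := by
    intro a b
    have : Continuous fun ω : S2 => r • (ω : E3) := by fun_prop
    exact ((((ch2.comp this).clm_apply ((J a b).continuous.comp this)).clm_apply
      ((J a b).continuous.comp this)).sub
      ((ch1.comp this).clm_apply ((P a b).continuous.comp this))).mul (by fun_prop)
  have cM : ∀ a b, Continuous (M a b) := by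
    intro a b
    have : Continuous fun ω : S2 => (ω : E3) := by fun_prop
    exact ((((cY2.comp this).clm_apply ((J a b).continuous.comp this)).clm_apply
      ((J a b).continuous.comp this)).sub
      ((cY1.comp this).clm_apply ((P a b).continuous.comp this))).mul (by fun_prop)
  have hLM : ∀ a b, a ≠ b → ∫ ω, L a b ω ∂sig = ∫ ω, M a b ω ∂sig :=
    fun a b hab => selfadj hh hY hab r
  -- first formula
  have c1 : Continuous fun ω : S2 => (fderiv ℝ (fderiv ℝ h) (r • (ω : E3)) (r • (ω : E3))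
        (r • (ω : E3)) + fderiv ℝ h (r • (ω : E3)) (r • (ω : E3))) * Y ω := by
    have : Continuous fun ω : S2 => r • (ω : E3) := by fun_prop
    exact ((((ch2.comp this).clm_apply this).clm_apply this).add
      ((ch1.comp this).clm_apply this)).mul (by fun_prop)
  have c2 : Continuous fun ω : S2 => fderiv ℝ h (r • (ω : E3)) (r • (ω : E3)) * Y ω := by
    have : Continuous fun ω : S2 => r • (ω : E3) := by fun_prop
    exact ((ch1.comp this).clm_apply this).mul (by fun_prop)
  have hnorm : ∀ ω : S2, ‖(ω : E3)‖ = 1 := fun ω => by simp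
  have e1 : Real.exp (2 * t) * ∫ ω : S2, lap h (r • (ω : E3)) * Y ω ∂sig =
      (∫ ω : S2, (fderiv ℝ (fderiv ℝ h) (r • (ω : E3)) (r • (ω : E3))
        (r • (ω : E3)) + fderiv ℝ h (r • (ω : E3)) (r • (ω : E3))) * Y ω ∂sig) +
      (∫ ω : S2, fderiv ℝ h (r • (ω : E3)) (r • (ω : E3)) * Y ω ∂sig) +
      ((∫ ω, L 0 1 ω ∂sig) + (∫ ω, L 0 2 ω ∂sig) + (∫ ω, L 1 2 ω ∂sig)) := by
    rw [add3 (cL 0 1) (cL 0 2) (cL 1 2), add3 (k := fun ω => L 0 1 ω + L 0 2 ω + L 1 2 ω) c1 c2
      (((cL 0 1).add (cL 0 2)).add (cL 1 2)), ← integral_const_mul]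
    refine integral_congr_ae (Eventually.of_forall fun ω => ?_)
    have ha := alg (fderiv ℝ (fderiv ℝ h) (r • (ω : E3))) (fun y z => symm_fderiv2 hh _ y z)
      (fderiv ℝ h (r • (ω : E3))) (r • (ω : E3))
    have hr2 : ‖r • (ω : E3)‖ ^ 2 = Real.exp (2 * t) := by
      rw [norm_smul, hnorm, mul_one, Real.norm_eq_abs, sq_abs, hr, ← Real.exp_nat_mul]
      norm_num
    rw [hr2] at ha
    simp only [lap_eq hh, hL]
    linear_combination (Y ω) * ha
  rw [e1, hLM 0 1 (by decide), hLM 0 2 (by decide), hLM 1 2 (by decide)]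
  have e2 : (∫ ω, M 0 1 ω ∂sig) + (∫ ω, M 0 2 ω ∂sig) + (∫ ω, M 1 2 ω ∂sig) =
      - (((j : ℝ) ^ 2 + j) * ∫ ω : S2, h (r • (ω : E3)) * Y ω ∂sig) := by
    rw [add3 (cM 0 1) (cM 0 2) (cM 1 2), ← integral_const_mul, ← integral_neg]
    refine integral_congr_ae (Eventually.of_forall fun ω => ?_)
    have ha := alg (fderiv ℝ (fderiv ℝ Y) (ω : E3)) (fun y z => symm_fderiv2 hY _ y z)
      (fderiv ℝ Y (ω : E3)) (ω : E3)
    have he := euler hY hom (ω : E3)
    rw [← lap_eq hY, harm] at ha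
    simp only [hM]
    linear_combination (-(h (r • (ω : E3)))) * ha - (h (r • (ω : E3))) * he
  rw [e2]
  ring

end ModeAux

open ModeAux in
theorem target_Mode (_hP : Target_Polar) : Target_Mode := by
  intro j Y hY hom harm h hh hoff U
  have hY2 : ContDiff ℝ 2 Y := contDiff_infty.1 hY 2
  have cY := hY2.continuous
  have ch := hh.continuous
  have ch1 := cont_fderiv hh
  have ch2 := cont_fderiv2 hh
  -- derivatives of the integrals
  set V : ℝ → ℝ := fun t => ∫ ω : S2, h (Real.exp t • (ω : E3)) * Y ω ∂sig with hV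
  set V1 : ℝ → ℝ := fun t => ∫ ω : S2, fderiv ℝ h (Real.exp t • (ω : E3)) (Real.exp t • (ω : E3))
    * Y ω ∂sig with hV1
  set V2 : ℝ → ℝ := fun t => ∫ ω : S2, (fderiv ℝ (fderiv ℝ h) (Real.exp t • (ω : E3))
    (Real.exp t • (ω : E3)) (Real.exp t • (ω : E3)) +
      fderiv ℝ h (Real.exp t • (ω : E3)) (Real.exp t • (ω : E3))) * Y ω ∂sig with hV2
  have cx : Continuous fun p : ℝ × S2 => Real.exp p.1 • (p.2 : E3) := by fun_prop
  have cYp : Continuous fun p : ℝ × S2 => Y (p.2 : E3) := by fun_prop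
  have k0 : Continuous (Function.uncurry fun t (ω : S2) => h (Real.exp t • (ω : E3)) * Y ω) :=
    (ch.comp cx).mul cYp
  have k1 : Continuous (Function.uncurry fun t (ω : S2) =>
      fderiv ℝ h (Real.exp t • (ω : E3)) (Real.exp t • (ω : E3)) * Y ω) :=
    ((ch1.comp cx).clm_apply cx).mul cYp
  have k2 : Continuous (Function.uncurry fun t (ω : S2) =>
      (fderiv ℝ (fderiv ℝ h) (Real.exp t • (ω : E3)) (Real.exp t • (ω : E3))
        (Real.exp t • (ω : E3)) +
      fderiv ℝ h (Real.exp t • (ω : E3)) (Real.exp t • (ω : E3))) * Y ω) :=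
    ((((ch2.comp cx).clm_apply cx).clm_apply cx).add ((ch1.comp cx).clm_apply cx)).mul cYp
  have dV : ∀ t, HasDerivAt V (V1 t) t := fun t =>
    hasDerivAt_sphere k0 k1 (fun t ω => (radial_deriv1 hh ω t).mul_const _) t
  have dV1 : ∀ t, HasDerivAt V1 (V2 t) t := fun t =>
    hasDerivAt_sphere k1 k2 (fun t ω => (radial_deriv2 hh ω t).mul_const _) t
  have cV2 : Continuous V2 := continuous_sphere k2
  have he : ∀ t : ℝ, HasDerivAt (fun t : ℝ => Real.exp (t / 2)) (Real.exp (t / 2) / 2) t := by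
    intro t
    refine (((hasDerivAt_id t).div_const 2).exp).congr_deriv ?_
    simp only [id]
    ring
  have dU : ∀ t, HasDerivAt U (Real.exp (t / 2) * (V1 t + V t / 2)) t := by
    intro t
    refine ((he t).mul (dV t)).congr_deriv ?_
    ring
  have dU1 : ∀ t, HasDerivAt (fun t => Real.exp (t / 2) * (V1 t + V t / 2))
      (Real.exp (t / 2) * (V2 t + V1 t + V t / 4)) t := by
    intro t
    refine ((he t).mul ((dV1 t).add ((dV t).div_const 2))).congr_deriv ?_
    simp only [Pi.add_apply]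
    ring
  have cV : Continuous V := continuous_sphere k0
  have cV1 : Continuous V1 := continuous_sphere k1
  refine ⟨contDiff_two_of dU dU1 (by fun_prop), ?_, ?_⟩
  · obtain ⟨-, s, R, hs, hz⟩ := hoff
    refine HasCompactSupport.intro (isCompact_Icc : IsCompact (Icc (Real.log s)
      (Real.log (max R 1)))) fun t ht => ?_
    have hn : ∀ ω : S2, ‖Real.exp t • (ω : E3)‖ = Real.exp t := by
      intro ω
      have : ‖(ω : E3)‖ = 1 := by simp
      rw [norm_smul, this, mul_one, Real.norm_eq_abs, Real.abs_exp]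
    have hzero : ∀ ω : S2, h (Real.exp t • (ω : E3)) = 0 := by
      intro ω
      apply hz
      rw [hn]
      rw [mem_Icc, not_and_or, not_le, not_le] at ht
      rcases ht with ht | ht
      · left
        calc Real.exp t < Real.exp (Real.log s) := Real.exp_lt_exp.2 ht
          _ = s := Real.exp_log hs
      · right
        calc R ≤ max R 1 := le_max_left _ _
          _ = Real.exp (Real.log (max R 1)) := (Real.exp_log (lt_max_of_lt_right one_pos)).symm
          _ < Real.exp t := Real.exp_lt_exp.2 ht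
    simp only [U, hzero, zero_mul, integral_zero, mul_zero]
  · intro t
    have d1 : deriv U = fun t => Real.exp (t / 2) * (V1 t + V t / 2) :=
      funext fun t => (dU t).deriv
    rw [d1, (dU1 t).deriv]
    have hk := key hY2 hom harm hh t
    have hint : ∫ ω : S2, (- lap h (Real.exp t • (ω : E3))) * Y ω ∂sig =
        - ∫ ω : S2, lap h (Real.exp t • (ω : E3)) * Y ω ∂sig := by
      rw [← integral_neg]
      exact integral_congr_ae (Eventually.of_forall fun ω => by ring)
    rw [hint]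
    have hexp : Real.exp (5 * t / 2) = Real.exp (t / 2) * Real.exp (2 * t) := by
      rw [← Real.exp_add]; congr 1; ring
    rw [hexp]
    change _ = V2 t + V1 t - ((j : ℝ) ^ 2 + j) * V t at hk
    change - (Real.exp (t / 2) * (V2 t + V1 t + V t / 4)) +
      ((j : ℝ) + 1 / 2) ^ 2 * (Real.exp (t / 2) * V t) = _
    linear_combination (Real.exp (t / 2)) * hk

end Pool.Agent.HK
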