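import Pool.Agent.HK.Spec

/-!
# Mollification in `L^p`
-/

open MeasureTheory Set Filter Topology Function
open scoped ENNReal NNReal Convolution

namespace Pool.Agent.HK

namespace Moll

variable {E : Type} [NormedAddCommGroup E] [NormedSpace ℝ E] [FiniteDimensional ℝ E]
    [MeasureSpace E] [BorelSpace E] [(volume : Measure E).IsAddHaarMeasure]

theorem exists_mollifier : ∃ φ : ℕ → E → ℝ, Mollifier φ := by
  let b : ℕ → ContDiffBump (0 : E) := fun k =>
    ⟨1 / (2 * ((k : ℝ) + 1)), 1 / ((k : ℝ) + 1), by positivity, by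
      apply one_div_lt_one_div_of_lt <;> linarith [(Nat.cast_nonneg k : (0 : ℝ) ≤ k)]⟩
  refine ⟨fun k => (b k).normed volume, ?_, ?_, ?_, ?_, ?_⟩
  · intro k
    exact ⟨(b k).contDiff_normed, (b k).hasCompactSupport_normed⟩
  · intro k x
    exact (b k).nonneg_normed x
  · intro k x
    exact (b k).normed_neg x
  · intro k x hx
    have : x ∉ support ((b k).normed volume) := by
      rw [(b k).support_normed_eq]
      intro h
      rw [mem_ball_zero_iff] at h
      exact absurd h (not_lt.mpr hx)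
    exact notMem_support.mp this
  · intro k
    exact (b k).integral_normed

theorem mol_eq (φ f : E → ℝ) : mol φ f = φ ⋆[ContinuousLinearMap.lsmul ℝ ℝ, volume] f := by
  ext x
  rw [convolution_lsmul_swap]
  rfl

theorem locInt {p : ℝ≥0∞} (hp : 1 ≤ p) {f : E → ℝ} (hf : MemLp f p volume) :
    LocallyIntegrable f volume := hf.locallyIntegrable hp

theorem contDiff_mol {φ f : E → ℝ} (hφ : IsTest φ) (hf : LocallyIntegrable f volume) :
    ContDiff ℝ (⊤ : ℕ∞) (mol φ f) := by
  rw [mol_eq]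
  exact hφ.2.contDiff_convolution_left _ hφ.1 hf

theorem fderiv_mol {φ f : E → ℝ} (hφ : IsTest φ) (hf : LocallyIntegrable f volume) (x e : E) :
    fderiv ℝ (mol φ f) x e = ∫ y, fderiv ℝ φ (x - y) e * f y := by
  have h1 : ContDiff ℝ 1 φ := hφ.1.of_le (by exact_mod_cast le_top)
  rw [mol_eq, ← convolution_flip]
  rw [(hφ.2.hasFDerivAt_convolution_right _ hf h1 x).fderiv]
  rw [convolution_precompR_apply _ hf (hφ.2.fderiv ℝ) (h1.continuous_fderiv one_ne_zero)]
  rw [convolution_def]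
  refine integral_congr_ae (Eventually.of_forall fun y => ?_)
  rfl

theorem weak_mol {φ f g : E → ℝ} (hφ : IsTest φ) (x e : E) (hw : WeakDeriv f e g) :
    ∫ y, fderiv ℝ φ (x - y) e * f y = mol φ g x := by
  have hd : Differentiable ℝ φ := hφ.1.differentiable (by simp)
  have ht : IsTest (fun y => φ (x - y)) := by
    refine ⟨hφ.1.comp (contDiff_const.sub contDiff_id), ?_⟩
    exact hφ.2.comp_homeomorph (Homeomorph.subLeft x)
  have h := hw _ ht
  have h2 : ∀ y, fderiv ℝ (fun y => φ (x - y)) y e = - fderiv ℝ φ (x - y) e := by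
    intro y
    have h3 : HasFDerivAt (fun y => φ (x - y)) ((fderiv ℝ φ (x - y)).comp
        (-ContinuousLinearMap.id ℝ E)) y := by
      have h4 : HasFDerivAt (fun y : E => x - y) (-ContinuousLinearMap.id ℝ E) y := by
        simpa using (hasFDerivAt_id (𝕜 := ℝ) y).const_sub x
      exact (hd (x - y)).hasFDerivAt.comp y h4
    rw [h3.fderiv]
    simp
  simp_rw [h2, neg_smul, integral_neg, neg_inj] at h
  exact h

theorem lintegral_kernel {φ : E → ℝ} (hφ : IsTest φ) (h0 : ∀ x, 0 ≤ φ x) (h1 : ∫ x, φ x = 1) :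
    ∫⁻ x, ENNReal.ofReal (φ x) = 1 := by
  have hi : Integrable φ volume := hφ.1.continuous.integrable_of_hasCompactSupport hφ.2
  rw [← ofReal_integral_eq_lintegral_ofReal hi (Eventually.of_forall h0), h1, ENNReal.ofReal_one]

theorem enorm_mol_rpow_le {φ f : E → ℝ} (hφ : IsTest φ) (h0 : ∀ x, 0 ≤ φ x)
    (h1 : ∫ x, φ x = 1) {p : ℝ≥0∞} (hp : 1 ≤ p) (hp' : p ≠ ⊤)
    (hf : AEStronglyMeasurable f volume) (x : E) :
    ‖mol φ f x‖ₑ ^ p.toReal ≤ ∫⁻ y, ENNReal.ofReal (φ (x - y)) * ‖f y‖ₑ ^ p.toReal := by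
  have hp0 : p ≠ 0 := (zero_lt_one.trans_le hp).ne'
  have hq : 0 < p.toReal := ENNReal.toReal_pos hp0 hp'
  have hwm : Measurable (fun y => ENNReal.ofReal (φ (x - y))) := by
    have : Continuous (fun y => φ (x - y)) := hφ.1.continuous.comp (continuous_const.sub continuous_id)
    exact this.measurable.ennreal_ofReal
  set ν : Measure E := volume.withDensity (fun y => ENNReal.ofReal (φ (x - y))) with hν
  have hprob : IsProbabilityMeasure ν := by
    constructor
    rw [hν, withDensity_apply _ MeasurableSet.univ, Measure.restrict_univ,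
      lintegral_sub_left_eq_self (fun y => ENNReal.ofReal (φ y)) x]
    exact lintegral_kernel hφ h0 h1
  have hac : ν ≪ volume := withDensity_absolutelyContinuous _ _
  have hle : ‖mol φ f x‖ₑ ≤ ∫⁻ y, ‖f y‖ₑ ∂ν := by
    calc ‖mol φ f x‖ₑ ≤ ∫⁻ y, ‖φ (x - y) * f y‖ₑ := enorm_integral_le_lintegral_enorm _
      _ = ∫⁻ y, ENNReal.ofReal (φ (x - y)) * ‖f y‖ₑ := by
        refine lintegral_congr fun y => ?_
        rw [enorm_mul, Real.enorm_of_nonneg (h0 _)]
      _ = ∫⁻ y, ‖f y‖ₑ ∂ν := by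
        rw [hν, lintegral_withDensity_eq_lintegral_mul_non_measurable _ hwm
          (Eventually.of_forall fun y => ENNReal.ofReal_lt_top)]
        rfl
  have hJ := eLpNorm_le_eLpNorm_of_exponent_le (μ := ν) hp (hf.mono_ac hac)
  rw [eLpNorm_one_eq_lintegral_enorm, eLpNorm_eq_lintegral_rpow_enorm_toReal hp0 hp'] at hJ
  calc ‖mol φ f x‖ₑ ^ p.toReal ≤ ((∫⁻ y, ‖f y‖ₑ ^ p.toReal ∂ν) ^ (1 / p.toReal)) ^ p.toReal :=
        ENNReal.rpow_le_rpow (hle.trans hJ) hq.le
    _ = ∫⁻ y, ‖f y‖ₑ ^ p.toReal ∂ν := by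
        rw [← ENNReal.rpow_mul, one_div_mul_cancel hq.ne', ENNReal.rpow_one]
    _ = ∫⁻ y, ENNReal.ofReal (φ (x - y)) * ‖f y‖ₑ ^ p.toReal := by
        rw [hν, lintegral_withDensity_eq_lintegral_mul_non_measurable _ hwm
          (Eventually.of_forall fun y => ENNReal.ofReal_lt_top)]
        rfl

theorem eLpNorm_mol_le {φ f : E → ℝ} (hφ : IsTest φ) (h0 : ∀ x, 0 ≤ φ x)
    (h1 : ∫ x, φ x = 1) {p : ℝ≥0∞} (hp : 1 ≤ p) (hp' : p ≠ ⊤)
    (hf : AEStronglyMeasurable f volume) :
    eLpNorm (mol φ f) p volume ≤ eLpNorm f p volume := by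
  have hp0 : p ≠ 0 := (zero_lt_one.trans_le hp).ne'
  have hq : 0 < p.toReal := ENNReal.toReal_pos hp0 hp'
  rw [eLpNorm_eq_lintegral_rpow_enorm_toReal hp0 hp', eLpNorm_eq_lintegral_rpow_enorm_toReal hp0 hp']
  refine ENNReal.rpow_le_rpow ?_ (by positivity)
  have : ProperSpace E := FiniteDimensional.proper_real E
  calc ∫⁻ x, ‖mol φ f x‖ₑ ^ p.toReal
      ≤ ∫⁻ x, ∫⁻ y, ENNReal.ofReal (φ (x - y)) * ‖f y‖ₑ ^ p.toReal :=
        lintegral_mono fun x => enorm_mol_rpow_le hφ h0 h1 hp hp' hf x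
    _ = ∫⁻ y, ∫⁻ x, ENNReal.ofReal (φ (x - y)) * ‖f y‖ₑ ^ p.toReal := by
        refine lintegral_lintegral_swap ?_
        refine AEMeasurable.mul ?_ ?_
        · have : Continuous (fun z : E × E => φ (z.1 - z.2)) :=
            hφ.1.continuous.comp (continuous_fst.sub continuous_snd)
          exact this.measurable.ennreal_ofReal.aemeasurable
        · exact (hf.comp_snd).enorm.pow_const _
    _ = ∫⁻ y, ‖f y‖ₑ ^ p.toReal := by
        refine lintegral_congr fun y => ?_
        have hm : Measurable (fun x => ENNReal.ofReal (φ (x - y))) := by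
          have : Continuous (fun x => φ (x - y)) :=
            hφ.1.continuous.comp (continuous_id.sub continuous_const)
          exact this.measurable.ennreal_ofReal
        rw [lintegral_mul_const _ hm, lintegral_sub_right_eq_self (fun x => ENNReal.ofReal (φ x)) y,
          lintegral_kernel hφ h0 h1, one_mul]

theorem mol_sub {φ f g : E → ℝ} (hφ : IsTest φ) (hf : LocallyIntegrable f volume)
    (hg : LocallyIntegrable g volume) (x : E) :
    mol φ (fun y => f y - g y) x = mol φ f x - mol φ g x := by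
  have h : ∀ f : E → ℝ, LocallyIntegrable f volume → Integrable (fun y => φ (x - y) * f y) := by
    intro f hf
    have := (hφ.2.convolutionExists_left (ContinuousLinearMap.lsmul ℝ ℝ) hφ.1.continuous hf x)
    have h2 := this.integrable_swap
    exact h2
  unfold mol
  rw [← integral_sub (h f hf) (h g hg)]
  refine integral_congr_ae (Eventually.of_forall fun y => ?_)
  simp only
  ring

theorem tendsto_cont {φ : ℕ → E → ℝ} (hφ : Mollifier φ) {p : ℝ≥0∞} (hp' : p ≠ ⊤) {g : E → ℝ}
    (hg : Continuous g) (hgc : HasCompactSupport g) {ε : ℝ≥0∞} (hε : 0 < ε) :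
    ∀ᶠ k in atTop, eLpNorm (fun x => mol (φ k) g x - g x) p volume ≤ ε := by
  have : ProperSpace E := FiniteDimensional.proper_real E
  set K : Set E := Metric.cthickening 1 (tsupport g) with hK
  have hKc : IsCompact K := hgc.isCompact.cthickening
  have hKm : volume K ≠ ⊤ := hKc.measure_lt_top.ne
  obtain ⟨δ, hδ, hδε⟩ : ∃ δ : ℝ, 0 < δ ∧ ENNReal.ofReal δ * volume K ^ (1 / p.toReal) ≤ ε := by
    set c : ℝ≥0∞ := volume K ^ (1 / p.toReal) with hc
    have hct : c ≠ ⊤ := ENNReal.rpow_ne_top_of_nonneg (by positivity) hKm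
    by_cases hε' : ε = ⊤
    · exact ⟨1, one_pos, by rw [hε']; exact le_top⟩
    refine ⟨ε.toReal / (c.toReal + 1), div_pos (ENNReal.toReal_pos hε.ne' hε') (by positivity), ?_⟩
    rw [← ENNReal.ofReal_toReal hct, ← ENNReal.ofReal_mul (by positivity)]
    refine ENNReal.ofReal_le_of_le_toReal ?_
    rw [div_mul_eq_mul_div, div_le_iff₀ (by positivity)]
    have := ENNReal.toReal_nonneg (a := ε)
    rw [ENNReal.ofReal_toReal hct]
    nlinarith
  have huc : UniformContinuous g := hgc.uniformContinuous_of_continuous hg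
  obtain ⟨η, hη, hηg⟩ := Metric.uniformContinuous_iff.mp huc δ hδ
  obtain ⟨k₀, hk₀⟩ := exists_nat_gt (1 / η)
  filter_upwards [eventually_ge_atTop k₀] with k hk
  have hk1 : 1 / ((k : ℝ) + 1) < η := by
    rw [div_lt_iff₀ (by positivity)]
    have : (1 : ℝ) / η < k + 1 := by
      have : (k₀ : ℝ) ≤ k := by exact_mod_cast hk
      linarith
    rw [div_lt_iff₀ hη] at this
    linarith
  have hsupp : support (φ k) ⊆ Metric.ball (0 : E) (1 / ((k : ℝ) + 1)) := by
    intro x hx
    rw [mem_ball_zero_iff]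
    by_contra h
    exact hx (hφ.supp k x (not_lt.mp h))
  have hdist : ∀ x, dist (mol (φ k) g x) (g x) ≤ δ := by
    intro x
    rw [mol_eq]
    refine dist_convolution_le hδ.le hsupp (hφ.nonneg k) (hφ.integral k)
      hg.aestronglyMeasurable ?_
    intro y hy
    exact (hηg (lt_trans hy hk1)).le
  have hs1 : support (mol (φ k) g) ⊆ K := by
    intro x hx
    rw [mol_eq] at hx
    have h2 := support_convolution_subset (ContinuousLinearMap.lsmul ℝ ℝ) (μ := (volume : Measure E)) hx
    obtain ⟨a, ha, b, hb, rfl⟩ := h2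
    have ha' := hsupp ha
    rw [mem_ball_zero_iff] at ha'
    refine Metric.mem_cthickening_of_dist_le (a + b) b 1 _ (subset_tsupport g hb) ?_
    rw [dist_eq_norm, add_sub_cancel_right]
    have : 1 / ((k : ℝ) + 1) ≤ 1 := by
      rw [div_le_one (by positivity)]
      linarith [(Nat.cast_nonneg k : (0 : ℝ) ≤ k)]
    linarith
  have hs2 : support g ⊆ K :=
    (subset_tsupport g).trans (Metric.self_subset_cthickening _)
  exact (eLpNorm_sub_le_of_dist_bdd volume hp' hKc.measurableSet hδ.le hdist hs1 hs2).trans hδε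

theorem tendsto_mol {φ : ℕ → E → ℝ} (hφ : Mollifier φ) {p : ℝ≥0∞} (hp : 1 ≤ p) (hp' : p ≠ ⊤)
    {f : E → ℝ} (hf : MemLp f p volume) :
    Tendsto (fun k => eLpNorm (fun x => mol (φ k) f x - f x) p volume) atTop (𝓝 0) := by
  have : ProperSpace E := FiniteDimensional.proper_real E
  rw [ENNReal.tendsto_atTop_zero]
  intro ε hε
  by_cases hε' : ε = ⊤
  · exact ⟨0, fun _ _ => by rw [hε']; exact le_top⟩
  have hε3 : 0 < ε / 3 := ENNReal.div_pos hε.ne' (by norm_num)
  obtain ⟨g, hgc, hfg, hg, hgm⟩ := hf.exists_hasCompactSupport_eLpNorm_sub_le hp' hε3.ne'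
  obtain ⟨N, hN⟩ := eventually_atTop.mp (tendsto_cont hφ hp' hg hgc hε3)
  refine ⟨N, fun k hk => ?_⟩
  have hfl := locInt hp hf
  have hgl := locInt hp hgm
  have hmm : ∀ h : E → ℝ, LocallyIntegrable h volume → AEStronglyMeasurable (mol (φ k) h) volume :=
    fun h hh => (contDiff_mol (hφ.test k) hh).continuous.aestronglyMeasurable
  have h1 : eLpNorm (mol (φ k) (fun y => f y - g y)) p volume ≤ ε / 3 :=
    (eLpNorm_mol_le (hφ.test k) (hφ.nonneg k) (hφ.integral k) hp hp'
      (hf.1.sub hgm.1)).trans hfg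
  have h2 := hN k hk
  have h3 : eLpNorm (fun x => g x - f x) p volume ≤ ε / 3 := by
    have := eLpNorm_sub_comm g f p volume
    calc eLpNorm (fun x => g x - f x) p volume = eLpNorm (g - f) p volume := rfl
      _ = eLpNorm (f - g) p volume := this
      _ ≤ _ := hfg
  have heq : (fun x => mol (φ k) f x - f x) = (mol (φ k) (fun y => f y - g y))
      + ((fun x => mol (φ k) g x - g x) + (fun x => g x - f x)) := by
    ext x
    simp only [Pi.add_apply]
    rw [mol_sub (hφ.test k) hfl hgl]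
    ring
  rw [heq]
  have hm1 := hmm (fun y => f y - g y) (hfl.sub hgl)
  have hm2 : AEStronglyMeasurable (fun x => mol (φ k) g x - g x) volume :=
    (hmm g hgl).sub hgm.1
  have hm3 : AEStronglyMeasurable (fun x => g x - f x) volume := hgm.1.sub hf.1
  calc _ ≤ eLpNorm (mol (φ k) (fun y => f y - g y)) p volume
        + eLpNorm ((fun x => mol (φ k) g x - g x) + (fun x => g x - f x)) p volume :=
        eLpNorm_add_le hm1 (hm2.add hm3) hp
    _ ≤ ε / 3 + (ε / 3 + ε / 3) := by
        gcongr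
        exact (eLpNorm_add_le hm2 hm3 hp).trans (add_le_add h2 h3)
    _ = ε := by
        rw [← add_assoc, ENNReal.add_thirds]

end Moll

theorem target_Moll : Target_Moll := by
  intro E _ _ _ _ _ _
  refine ⟨Moll.exists_mollifier, fun φ hφ p hp hp' f hf => ?_⟩
  have hfl := Moll.locInt hp hf
  refine ⟨fun k => Moll.contDiff_mol (hφ.test k) hfl, fun k => ?_, fun k => ?_,
    Moll.tendsto_mol hφ hp hp' hf, fun k x e => Moll.fderiv_mol (hφ.test k) hfl x e,
    fun k x e g hg => ?_⟩
  · exact ⟨(Moll.contDiff_mol (hφ.test k) hfl).continuous.aestronglyMeasurable,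
      (Moll.eLpNorm_mol_le (hφ.test k) (hφ.nonneg k) (hφ.integral k) hp hp' hf.1).trans_lt hf.2⟩
  · exact Moll.eLpNorm_mol_le (hφ.test k) (hφ.nonneg k) (hφ.integral k) hp hp' hf.1
  · rw [Moll.fderiv_mol (hφ.test k) hfl]
    exact Moll.weak_mol (hφ.test k) x e hg

end Pool.Agent.HK
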