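import Pool.Agent.HK.Interp

/-!
# Bounds for multipliers in spherical harmonics
-/

open MeasureTheory Set Filter Topology
open scoped ENNReal NNReal InnerProductSpace

namespace Pool.Agent.HK

namespace MultAux

open InterpAux

variable (Y : SphSystem)

/-- The coefficient of `f` on a spherical harmonic. -/
noncomputable def co (f : S2 → ℝ) (p : Σ j, Fin (Y.d j)) : ℝ :=
  ∫ ω : S2, f ω * Y.Y p.1 p.2 ω ∂sig

theorem contY (j : ℕ) (m : Fin (Y.d j)) : Continuous fun ω : S2 => Y.Y j m ω :=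
  (Y.smooth j m).continuous.comp continuous_subtype_val

theorem bmY (j : ℕ) (m : Fin (Y.d j)) : BM fun ω : S2 => Y.Y j m ω := by
  refine ⟨(contY Y j m).measurable, ?_⟩
  obtain ⟨B, hB⟩ := (isCompact_univ (X := S2)).exists_bound_of_continuousOn
    (contY Y j m).continuousOn
  exact ⟨B, fun x => by simpa [Real.norm_eq_abs] using hB x (mem_univ _)⟩

theorem BM.mul {Ω : Type*} [MeasurableSpace Ω] {f g : Ω → ℝ} (hf : BM f) (hg : BM g) :
    BM fun x => f x * g x := by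
  obtain ⟨hm, B, hB⟩ := hf
  obtain ⟨hm', B', hB'⟩ := hg
  refine ⟨hm.mul hm', B * B', fun x => ?_⟩
  rw [abs_mul]
  exact mul_le_mul (hB x) (hB' x) (abs_nonneg _) ((abs_nonneg _).trans (hB x))

theorem BM.fsum {Ω ι : Type*} [MeasurableSpace Ω] {s : Finset ι} {F : ι → Ω → ℝ}
    (hF : ∀ i ∈ s, BM (F i)) : BM fun x => ∑ i ∈ s, F i x := by
  classical
  induction s using Finset.induction_on with
  | empty => exact ⟨measurable_const, 0, fun x => by simp⟩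
  | insert a s ha ih =>
    have h1 := hF a (Finset.mem_insert_self a s)
    have h2 := ih fun i hi => hF i (Finset.mem_insert_of_mem hi)
    obtain ⟨hm, B, hB⟩ := h1
    obtain ⟨hm', B', hB'⟩ := h2
    simp_rw [Finset.sum_insert ha]
    exact ⟨hm.add hm', B + B', fun x => (abs_add_le _ _).trans (add_le_add (hB x) (hB' x))⟩

theorem BM.cmul {Ω : Type*} [MeasurableSpace Ω] {f : Ω → ℝ} (hf : BM f) (c : ℝ) :
    BM fun x => c * f x :=
  BM.mul ⟨measurable_const, |c|, fun _ => le_rfl⟩ hf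

theorem bmi {f : S2 → ℝ} (hf : BM f) : Integrable f sig := InterpAux.BM.integrable hf

/-- The finite index set of the spherical harmonics of degree `< J`. -/
def idx (J : ℕ) : Finset (Σ j, Fin (Y.d j)) := (Finset.range J).sigma fun _ => Finset.univ

theorem sum_idx (J : ℕ) (F : (Σ j, Fin (Y.d j)) → ℝ) :
    ∑ p ∈ idx Y J, F p = ∑ j ∈ Finset.range J, ∑ m, F ⟨j, m⟩ := by
  rw [idx, Finset.sum_sigma]

theorem mult_eq (J : ℕ) (b : ℕ → ℝ) (f g : S2 → ℝ) :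
    Y.mult J b f g = ∑ p ∈ idx Y J, b p.1 * (co Y f p * co Y g p) := by
  rw [sum_idx]
  unfold SphSystem.mult co
  refine Finset.sum_congr rfl fun j _ => ?_
  rw [Finset.mul_sum]

/-- Bessel's inequality. -/
theorem bessel {f : S2 → ℝ} (hf : BM f) (s : Finset (Σ j, Fin (Y.d j))) :
    ∑ p ∈ s, co Y f p ^ 2 ≤ ∫ ω, f ω ^ 2 ∂sig := by
  classical
  have hY : ∀ p : Σ j, Fin (Y.d j), BM fun ω : S2 => Y.Y p.1 p.2 ω := fun p => bmY Y p.1 p.2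
  set S : S2 → ℝ := fun ω => ∑ p ∈ s, co Y f p * Y.Y p.1 p.2 ω with hS
  have hSB : BM S := BM.fsum fun p _ => BM.cmul (hY p) _
  have h1 : ∫ ω, f ω * S ω ∂sig = ∑ p ∈ s, co Y f p ^ 2 := by
    have e : (fun ω : S2 => f ω * S ω) = fun ω : S2 => ∑ p ∈ s, co Y f p *
        (f ω * Y.Y p.1 p.2 ω) := by
      ext ω
      rw [hS]
      simp only
      rw [Finset.mul_sum]
      exact Finset.sum_congr rfl fun p _ => by ring
    rw [e, integral_finsetSum _ fun p _ => bmi (BM.cmul (BM.mul hf (hY p)) _)]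
    refine Finset.sum_congr rfl fun p _ => ?_
    rw [integral_const_mul]
    unfold co
    ring
  have h2 : ∫ ω, S ω ^ 2 ∂sig = ∑ p ∈ s, co Y f p ^ 2 := by
    have e : (fun ω : S2 => S ω ^ 2) = fun ω : S2 => ∑ p ∈ s, ∑ q ∈ s,
        (co Y f p * co Y f q) * (Y.Y p.1 p.2 ω * Y.Y q.1 q.2 ω) := by
      ext ω
      rw [hS]
      simp only
      rw [sq, Finset.sum_mul_sum]
      exact Finset.sum_congr rfl fun p _ => Finset.sum_congr rfl fun q _ => by ring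
    rw [e, integral_finsetSum _ fun p _ => bmi (BM.fsum fun q _ =>
      BM.cmul (BM.mul (hY p) (hY q)) _)]
    refine Finset.sum_congr rfl fun p hp => ?_
    rw [integral_finsetSum _ fun q _ => bmi (BM.cmul (BM.mul (hY p) (hY q)) _)]
    have h3 : ∀ q ∈ s, ∫ ω : S2, (co Y f p * co Y f q) * (Y.Y p.1 p.2 ω * Y.Y q.1 q.2 ω) ∂sig
        = if p = q then co Y f p ^ 2 else 0 := by
      intro q _
      rw [integral_const_mul, Y.ortho]
      split_ifs with hpq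
      · rw [hpq]; ring
      · ring
    rw [Finset.sum_congr rfl h3, Finset.sum_ite_eq, if_pos hp]
  have h3 : 0 ≤ ∫ ω, (f ω - S ω) ^ 2 ∂sig := integral_nonneg fun _ => sq_nonneg _
  have e : (fun ω : S2 => (f ω - S ω) ^ 2) =
      fun ω : S2 => f ω ^ 2 - 2 * (f ω * S ω) + S ω ^ 2 := by
    ext ω; ring
  have i1 : Integrable (fun ω : S2 => f ω ^ 2) sig := bmi (InterpAux.BM.sq hf)
  have i2 : Integrable (fun ω : S2 => 2 * (f ω * S ω)) sig :=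
    bmi (BM.cmul (BM.mul hf hSB) 2)
  have i3 : Integrable (fun ω : S2 => S ω ^ 2) sig := bmi (InterpAux.BM.sq hSB)
  have i12 : Integrable (fun ω : S2 => f ω ^ 2 - 2 * (f ω * S ω)) sig := i1.sub i2
  rw [e, integral_add i12 i3, integral_sub i1 i2, integral_const_mul, h1, h2] at h3
  linarith

theorem abs_int_mul_le {f h : S2 → ℝ} (hf : BM f) (hh : BM h) {K : ℝ}
    (hK : ∀ ω, |h ω| ≤ K) : |∫ ω, f ω * h ω ∂sig| ≤ K * ∫ ω, |f ω| ∂sig := by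
  calc |∫ ω, f ω * h ω ∂sig| ≤ ∫ ω, |f ω * h ω| ∂sig := abs_integral_le_integral_abs
    _ ≤ ∫ ω, K * |f ω| ∂sig := by
        apply integral_mono (bmi (InterpAux.BM.abs (BM.mul hf hh)))
          (bmi (BM.cmul (InterpAux.BM.abs hf) K))
        intro ω
        simp only
        rw [abs_mul, mul_comm]
        exact mul_le_mul_of_nonneg_right (hK ω) (abs_nonneg _)
    _ = K * ∫ ω, |f ω| ∂sig := integral_const_mul _ _

/-- The reproducing kernel is bounded. -/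
theorem kernel_le (j : ℕ) (ω ω' : S2) :
    |∑ m, Y.Y j m ω * Y.Y j m ω'| ≤ |Y.c₀| * (2 * j + 1) := by
  have h1 := Y.bound j ω
  have h2 := Y.bound j ω'
  have h3 : Y.c₀ * (2 * (j : ℝ) + 1) ≤ |Y.c₀| * (2 * j + 1) :=
    mul_le_mul_of_nonneg_right (le_abs_self _) (by positivity)
  calc |∑ m, Y.Y j m ω * Y.Y j m ω'| ≤ ∑ m, |Y.Y j m ω * Y.Y j m ω'| :=
        Finset.abs_sum_le_sum_abs _ _
    _ ≤ ∑ m, (Y.Y j m ω ^ 2 + Y.Y j m ω' ^ 2) / 2 := by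
        apply Finset.sum_le_sum
        intro m _
        rw [abs_mul]
        nlinarith [sq_nonneg (|Y.Y j m ω| - |Y.Y j m ω'|), sq_abs (Y.Y j m ω),
          sq_abs (Y.Y j m ω')]
    _ = (∑ m, Y.Y j m ω ^ 2 + ∑ m, Y.Y j m ω' ^ 2) / 2 := by
        rw [← Finset.sum_add_distrib, Finset.sum_div]
    _ ≤ |Y.c₀| * (2 * j + 1) := by linarith

theorem degree_le {f g : S2 → ℝ} (hf : BM f) (hg : BM g) (j : ℕ) :
    |∑ m, co Y f ⟨j, m⟩ * co Y g ⟨j, m⟩| ≤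
      |Y.c₀| * (2 * j + 1) * (∫ ω, |f ω| ∂sig) * (∫ ω, |g ω| ∂sig) := by
  -- the inner function
  have h1 : ∀ ω : S2, |∑ m, co Y g ⟨j, m⟩ * Y.Y j m ω| ≤
      |Y.c₀| * (2 * j + 1) * ∫ ω, |g ω| ∂sig := by
    intro ω
    have e : ∑ m, co Y g ⟨j, m⟩ * Y.Y j m ω = ∫ ω' : S2, g ω' * ∑ m, Y.Y j m ω * Y.Y j m ω' ∂sig := by
      have e1 : (fun ω' : S2 => g ω' * ∑ m, Y.Y j m ω * Y.Y j m ω') =
          fun ω' : S2 => ∑ m, Y.Y j m ω * (g ω' * Y.Y j m ω') := by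
        ext ω'
        rw [Finset.mul_sum]
        exact Finset.sum_congr rfl fun m _ => by ring
      rw [e1, integral_finsetSum _ fun m _ => bmi (BM.cmul (BM.mul hg (bmY Y j m)) _)]
      refine Finset.sum_congr rfl fun m _ => ?_
      rw [integral_const_mul]
      unfold co
      ring
    rw [e]
    exact abs_int_mul_le hg (BM.fsum fun m _ => BM.cmul (bmY Y j m) _) (kernel_le Y j ω)
  have e2 : ∑ m, co Y f ⟨j, m⟩ * co Y g ⟨j, m⟩ =
      ∫ ω : S2, f ω * ∑ m, co Y g ⟨j, m⟩ * Y.Y j m ω ∂sig := by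
    have e1 : (fun ω : S2 => f ω * ∑ m, co Y g ⟨j, m⟩ * Y.Y j m ω) =
        fun ω : S2 => ∑ m, co Y g ⟨j, m⟩ * (f ω * Y.Y j m ω) := by
      ext ω
      rw [Finset.mul_sum]
      exact Finset.sum_congr rfl fun m _ => by ring
    rw [e1, integral_finsetSum _ fun m _ => bmi (BM.cmul (BM.mul hf (bmY Y j m)) _)]
    refine Finset.sum_congr rfl fun m _ => ?_
    rw [integral_const_mul]
    unfold co
    ring
  rw [e2]
  have h3 := abs_int_mul_le hf (BM.fsum fun m _ => BM.cmul (bmY Y j m) (co Y g ⟨j, m⟩)) h1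
  refine h3.trans (le_of_eq ?_)
  ring

theorem mult_one {f g : S2 → ℝ} (hf : BM f) (hg : BM g) (J : ℕ) (b : ℕ → ℝ) (σ₁ : ℝ)
    (hb : ∑ j ∈ Finset.range J, (2 * (j : ℝ) + 1) * |b j| ≤ σ₁) :
    |Y.mult J b f g| ≤ (|Y.c₀| * σ₁) * (∫ ω, |f ω| ∂sig) * (∫ ω, |g ω| ∂sig) := by
  have hF : 0 ≤ ∫ ω, |f ω| ∂sig := integral_nonneg fun _ => abs_nonneg _
  have hG : 0 ≤ ∫ ω, |g ω| ∂sig := integral_nonneg fun _ => abs_nonneg _
  unfold SphSystem.mult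
  calc |∑ j ∈ Finset.range J, b j * ∑ m, (∫ ω : S2, f ω * Y.Y j m ω ∂sig) *
        (∫ ω : S2, g ω * Y.Y j m ω ∂sig)|
      ≤ ∑ j ∈ Finset.range J, |b j * ∑ m, (∫ ω : S2, f ω * Y.Y j m ω ∂sig) *
        (∫ ω : S2, g ω * Y.Y j m ω ∂sig)| := Finset.abs_sum_le_sum_abs _ _
    _ ≤ ∑ j ∈ Finset.range J, ((2 * (j : ℝ) + 1) * |b j|) *
          (|Y.c₀| * (∫ ω, |f ω| ∂sig) * (∫ ω, |g ω| ∂sig)) := by
        apply Finset.sum_le_sum
        intro j _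
        rw [abs_mul]
        calc |b j| * |∑ m, (∫ ω : S2, f ω * Y.Y j m ω ∂sig) * (∫ ω : S2, g ω * Y.Y j m ω ∂sig)|
            ≤ |b j| * (|Y.c₀| * (2 * j + 1) * (∫ ω, |f ω| ∂sig) * (∫ ω, |g ω| ∂sig)) :=
              mul_le_mul_of_nonneg_left (degree_le Y hf hg j) (abs_nonneg _)
          _ = ((2 * (j : ℝ) + 1) * |b j|) *
              (|Y.c₀| * (∫ ω, |f ω| ∂sig) * (∫ ω, |g ω| ∂sig)) := by ring
    _ = (∑ j ∈ Finset.range J, (2 * (j : ℝ) + 1) * |b j|) *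
          (|Y.c₀| * (∫ ω, |f ω| ∂sig) * (∫ ω, |g ω| ∂sig)) := by rw [Finset.sum_mul]
    _ ≤ σ₁ * (|Y.c₀| * (∫ ω, |f ω| ∂sig) * (∫ ω, |g ω| ∂sig)) := by
        apply mul_le_mul_of_nonneg_right hb
        positivity
    _ = (|Y.c₀| * σ₁) * (∫ ω, |f ω| ∂sig) * (∫ ω, |g ω| ∂sig) := by ring

/-- Cauchy-Schwarz for the multiplier form. -/
theorem mult_cs {f g : S2 → ℝ} (hf : BM f) (J : ℕ) (b : ℕ → ℝ) :
    (Y.mult J b f g) ^ 2 ≤ (∫ ω, f ω ^ 2 ∂sig) * Y.mult J (fun j => b j ^ 2) g g := by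
  rw [mult_eq, mult_eq]
  have h1 : (∑ p ∈ idx Y J, b p.1 * (co Y f p * co Y g p)) ^ 2 ≤
      (∑ p ∈ idx Y J, co Y f p ^ 2) * ∑ p ∈ idx Y J, (b p.1 * co Y g p) ^ 2 := by
    have h := Finset.sum_mul_sq_le_sq_mul_sq (idx Y J) (fun p => co Y f p)
      (fun p => b p.1 * co Y g p)
    refine le_trans (le_of_eq ?_) h
    congr 1
    exact Finset.sum_congr rfl fun p _ => by ring
  refine h1.trans ?_
  have h2 : ∑ p ∈ idx Y J, (b p.1 * co Y g p) ^ 2 =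
      ∑ p ∈ idx Y J, b p.1 ^ 2 * (co Y g p * co Y g p) :=
    Finset.sum_congr rfl fun p _ => by ring
  rw [h2]
  apply mul_le_mul_of_nonneg_right (bessel Y hf _)
  exact Finset.sum_nonneg fun p _ => mul_nonneg (sq_nonneg _) (mul_self_nonneg _)

theorem mult_symm (J : ℕ) (b : ℕ → ℝ) (f g : S2 → ℝ) : Y.mult J b f g = Y.mult J b g f := by
  rw [mult_eq, mult_eq]
  exact Finset.sum_congr rfl fun p _ => by ring

theorem mult_two {f g : S2 → ℝ} (hf : BM f) (hg : BM g) (J : ℕ) (b : ℕ → ℝ) (σ₀ : ℝ)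
    (hσ : 0 ≤ σ₀) (hb : ∀ j < J, |b j| ≤ σ₀) :
    |Y.mult J b f g| ≤ σ₀ * (∫ ω, f ω ^ 2 ∂sig) ^ (1 / 2 : ℝ) *
        (∫ ω, g ω ^ 2 ∂sig) ^ (1 / 2 : ℝ) := by
  have hF : 0 ≤ ∫ ω, f ω ^ 2 ∂sig := integral_nonneg fun _ => sq_nonneg _
  have hG : 0 ≤ ∫ ω, g ω ^ 2 ∂sig := integral_nonneg fun _ => sq_nonneg _
  have h1 := mult_cs Y (g := g) hf J b
  have h2 : Y.mult J (fun j => b j ^ 2) g g ≤ σ₀ ^ 2 * ∫ ω, g ω ^ 2 ∂sig := by
    rw [mult_eq]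
    calc ∑ p ∈ idx Y J, b p.1 ^ 2 * (co Y g p * co Y g p)
        ≤ ∑ p ∈ idx Y J, σ₀ ^ 2 * co Y g p ^ 2 := by
          apply Finset.sum_le_sum
          intro p hp
          rw [idx, Finset.mem_sigma, Finset.mem_range] at hp
          rw [← sq]
          apply mul_le_mul_of_nonneg_right _ (sq_nonneg _)
          rw [← sq_abs (b p.1)]
          exact pow_le_pow_left₀ (abs_nonneg _) (hb _ hp.1) 2
      _ = σ₀ ^ 2 * ∑ p ∈ idx Y J, co Y g p ^ 2 := by rw [Finset.mul_sum]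
      _ ≤ σ₀ ^ 2 * ∫ ω, g ω ^ 2 ∂sig :=
          mul_le_mul_of_nonneg_left (bessel Y hg _) (sq_nonneg _)
  rw [← Real.sqrt_eq_rpow, ← Real.sqrt_eq_rpow]
  apply abs_le_of_sq_le_sq _ (by positivity)
  calc (Y.mult J b f g) ^ 2 ≤ (∫ ω, f ω ^ 2 ∂sig) * (σ₀ ^ 2 * ∫ ω, g ω ^ 2 ∂sig) :=
        h1.trans (mul_le_mul_of_nonneg_left h2 hF)
    _ = (σ₀ * Real.sqrt (∫ ω, f ω ^ 2 ∂sig) * Real.sqrt (∫ ω, g ω ^ 2 ∂sig)) ^ 2 := by
        rw [mul_pow, mul_pow, Real.sq_sqrt hF, Real.sq_sqrt hG]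
        ring

end MultAux

open MultAux in
/-- JOB MU. -/
theorem target_Mult (hI : Target_Interp) : Target_Mult := by
  intro Y
  obtain ⟨C₀, hC₀, hI⟩ := hI
  set C' : ℝ := C₀ * |Y.c₀| ^ (2 / 3 : ℝ) with hC'
  have hC'0 : 0 ≤ C' := mul_nonneg hC₀.le (Real.rpow_nonneg (abs_nonneg _) _)
  refine ⟨C' + 1, by linarith, ?_⟩
  -- the estimate between `L^{6/5}` and `L^{6/5}`
  have main : ∀ (J : ℕ) (b : ℕ → ℝ) (σ₀ σ₁ : ℝ), 0 ≤ σ₀ → 0 ≤ σ₁ →
      (∀ j < J, |b j| ≤ σ₀) → (∑ j ∈ Finset.range J, (2 * (j : ℝ) + 1) * |b j| ≤ σ₁) →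
      ∀ f g : S2 → ℝ, BM f → BM g → |Y.mult J b f g| ≤ C' * σ₀ ^ (1 / 3 : ℝ) *
        σ₁ ^ (2 / 3 : ℝ) * (∫ ω, |f ω| ^ (6 / 5 : ℝ) ∂sig) ^ (5 / 6 : ℝ) *
        (∫ ω, |g ω| ^ (6 / 5 : ℝ) ∂sig) ^ (5 / 6 : ℝ) := by
    intro J b σ₀ σ₁ hσ₀ hσ₁ hb0 hb1 f g hf hg
    have h := hI S2 sig (fun f g => Y.mult J b f g) σ₀ (|Y.c₀| * σ₁) hσ₀
      (mul_nonneg (abs_nonneg _) hσ₁) ?_ ?_ ?_ ?_
      (fun f g hf hg => mult_two Y hf hg J b σ₀ hσ₀ hb0)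
      (fun f g hf hg => mult_one Y hf hg J b σ₁ hb1) f g hf hg
    · rw [Real.mul_rpow (abs_nonneg _) hσ₁] at h
      refine h.trans (le_of_eq ?_)
      rw [hC']
      ring
    · intro f f' g hf hf' hg
      rw [mult_eq, mult_eq, mult_eq, ← Finset.sum_add_distrib]
      refine Finset.sum_congr rfl fun p _ => ?_
      have e : co Y (f + f') p = co Y f p + co Y f' p := by
        unfold co
        rw [← integral_add (bmi (BM.mul hf (bmY Y _ _)))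
          (bmi (BM.mul hf' (bmY Y _ _)))]
        congr 1
        ext ω
        simp only [Pi.add_apply]
        ring
      rw [e]
      ring
    · intro f g g' hf hg hg'
      rw [mult_eq, mult_eq, mult_eq, ← Finset.sum_add_distrib]
      refine Finset.sum_congr rfl fun p _ => ?_
      have e : co Y (g + g') p = co Y g p + co Y g' p := by
        unfold co
        rw [← integral_add (bmi (BM.mul hg (bmY Y _ _)))
          (bmi (BM.mul hg' (bmY Y _ _)))]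
        congr 1
        ext ω
        simp only [Pi.add_apply]
        ring
      rw [e]
      ring
    · intro c f g hf hg
      rw [mult_eq, mult_eq, Finset.mul_sum]
      refine Finset.sum_congr rfl fun p _ => ?_
      have e : co Y (c • f) p = c * co Y f p := by
        unfold co
        rw [← integral_const_mul]
        congr 1
        ext ω
        simp only [Pi.smul_apply, smul_eq_mul]
        ring
      rw [e]
      ring
    · intro c f g hf hg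
      rw [mult_eq, mult_eq, Finset.mul_sum]
      refine Finset.sum_congr rfl fun p _ => ?_
      have e : co Y (c • g) p = c * co Y g p := by
        unfold co
        rw [← integral_const_mul]
        congr 1
        ext ω
        simp only [Pi.smul_apply, smul_eq_mul]
        ring
      rw [e]
      ring
  -- the mixed estimate
  have mixed : ∀ (J : ℕ) (b : ℕ → ℝ) (σ₀ σ₁ : ℝ), 0 ≤ σ₀ → 0 ≤ σ₁ →
      (∀ j < J, |b j| ≤ σ₀) → (∑ j ∈ Finset.range J, (2 * (j : ℝ) + 1) * |b j| ≤ σ₁) →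
      ∀ f g : S2 → ℝ, BM f → BM g → |Y.mult J b f g| ≤ (C' + 1) * σ₀ ^ (2 / 3 : ℝ) *
        σ₁ ^ (1 / 3 : ℝ) * (∫ ω, f ω ^ 2 ∂sig) ^ (1 / 2 : ℝ) *
        (∫ ω, |g ω| ^ (6 / 5 : ℝ) ∂sig) ^ (5 / 6 : ℝ) := by
    intro J b σ₀ σ₁ hσ₀ hσ₁ hb0 hb1 f g hf hg
    have hF : 0 ≤ ∫ ω, f ω ^ 2 ∂sig := integral_nonneg fun _ => sq_nonneg _
    have hG : 0 ≤ ∫ ω, |g ω| ^ (6 / 5 : ℝ) ∂sig :=
      integral_nonneg fun _ => Real.rpow_nonneg (abs_nonneg _) _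
    have h1 := mult_cs Y (g := g) hf J b
    have h2 := main J (fun j => b j ^ 2) (σ₀ ^ 2) (σ₀ * σ₁) (sq_nonneg _)
      (mul_nonneg hσ₀ hσ₁) (fun j hj => by
        rw [abs_pow]
        exact pow_le_pow_left₀ (abs_nonneg _) (hb0 j hj) 2) (by
        calc ∑ j ∈ Finset.range J, (2 * (j : ℝ) + 1) * |b j ^ 2|
            ≤ ∑ j ∈ Finset.range J, σ₀ * ((2 * (j : ℝ) + 1) * |b j|) := by
              apply Finset.sum_le_sum
              intro j hj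
              rw [abs_pow]
              have := hb0 j (Finset.mem_range.1 hj)
              have h3 : 0 ≤ (2 * (j : ℝ) + 1) * |b j| := by positivity
              calc (2 * (j : ℝ) + 1) * |b j| ^ 2 = |b j| * ((2 * (j : ℝ) + 1) * |b j|) := by ring
                _ ≤ σ₀ * ((2 * (j : ℝ) + 1) * |b j|) := mul_le_mul_of_nonneg_right this h3
          _ = σ₀ * ∑ j ∈ Finset.range J, (2 * (j : ℝ) + 1) * |b j| := by rw [Finset.mul_sum]
          _ ≤ σ₀ * σ₁ := mul_le_mul_of_nonneg_left hb1 hσ₀) g g hg hg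
    set Gn : ℝ := (∫ ω, |g ω| ^ (6 / 5 : ℝ) ∂sig) ^ (5 / 6 : ℝ) with hGn
    have hGn0 : 0 ≤ Gn := Real.rpow_nonneg hG _
    have e1 : (σ₀ ^ 2) ^ (1 / 3 : ℝ) * (σ₀ * σ₁) ^ (2 / 3 : ℝ) =
        (σ₀ ^ (2 / 3 : ℝ) * σ₁ ^ (1 / 3 : ℝ)) ^ 2 := by
      rw [Real.mul_rpow hσ₀ hσ₁, ← Real.rpow_natCast σ₀ 2, ← Real.rpow_mul hσ₀, mul_pow,
        ← Real.rpow_natCast (σ₀ ^ (2 / 3 : ℝ)) 2, ← Real.rpow_natCast (σ₁ ^ (1 / 3 : ℝ)) 2,
        ← Real.rpow_mul hσ₀, ← Real.rpow_mul hσ₁]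
      rcases hσ₀.eq_or_lt with h0 | h0
      · rw [← h0]
        rw [Real.zero_rpow (by norm_num), Real.zero_rpow (by norm_num),
          Real.zero_rpow (by norm_num)]
        ring
      · rw [← mul_assoc, ← Real.rpow_add h0]
        norm_num
    have h3 : (Y.mult J b f g) ^ 2 ≤ ((C' + 1) * σ₀ ^ (2 / 3 : ℝ) *
        σ₁ ^ (1 / 3 : ℝ) * Real.sqrt (∫ ω, f ω ^ 2 ∂sig) * Gn) ^ 2 := by
      calc (Y.mult J b f g) ^ 2 ≤ (∫ ω, f ω ^ 2 ∂sig) * (C' * (σ₀ ^ 2) ^ (1 / 3 : ℝ) *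
            (σ₀ * σ₁) ^ (2 / 3 : ℝ) * Gn * Gn) :=
            h1.trans (mul_le_mul_of_nonneg_left ((le_abs_self _).trans h2) hF)
        _ = C' * ((∫ ω, f ω ^ 2 ∂sig) * ((σ₀ ^ 2) ^ (1 / 3 : ℝ) *
            (σ₀ * σ₁) ^ (2 / 3 : ℝ)) * Gn ^ 2) := by ring
        _ = C' * ((∫ ω, f ω ^ 2 ∂sig) * (σ₀ ^ (2 / 3 : ℝ) * σ₁ ^ (1 / 3 : ℝ)) ^ 2 * Gn ^ 2) := by
            rw [e1]
        _ ≤ (C' + 1) ^ 2 * ((∫ ω, f ω ^ 2 ∂sig) *
            (σ₀ ^ (2 / 3 : ℝ) * σ₁ ^ (1 / 3 : ℝ)) ^ 2 * Gn ^ 2) := by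
            apply mul_le_mul_of_nonneg_right _ (by positivity)
            nlinarith
        _ = ((C' + 1) * σ₀ ^ (2 / 3 : ℝ) *
            σ₁ ^ (1 / 3 : ℝ) * Real.sqrt (∫ ω, f ω ^ 2 ∂sig) * Gn) ^ 2 := by
            rw [mul_pow _ Gn, mul_pow _ (Real.sqrt _), Real.sq_sqrt hF]
            ring
    rw [← Real.sqrt_eq_rpow]
    exact abs_le_of_sq_le_sq h3 (by positivity)
  intro J b σ₀ σ₁ hσ₀ hσ₁ hb0 hb1 f g hf hg
  refine ⟨mult_two Y hf hg J b σ₀ hσ₀ hb0, ?_, mixed J b σ₀ σ₁ hσ₀ hσ₁ hb0 hb1 f g hf hg, ?_⟩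
  · refine (main J b σ₀ σ₁ hσ₀ hσ₁ hb0 hb1 f g hf hg).trans ?_
    have hF : 0 ≤ ∫ ω, |f ω| ^ (6 / 5 : ℝ) ∂sig :=
      integral_nonneg fun _ => Real.rpow_nonneg (abs_nonneg _) _
    have hG : 0 ≤ ∫ ω, |g ω| ^ (6 / 5 : ℝ) ∂sig :=
      integral_nonneg fun _ => Real.rpow_nonneg (abs_nonneg _) _
    gcongr
    linarith
  · rw [mult_symm]
    refine (mixed J b σ₀ σ₁ hσ₀ hσ₁ hb0 hb1 g f hg hf).trans (le_of_eq ?_)
    ring

end Pool.Agent.HK
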