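import Pool.Agent.HK.Slice

/-!
# Form bounds and Hardy's inequality for `N` particles, by slicing
-/

open MeasureTheory Set Filter Topology
open scoped ENNReal NNReal InnerProductSpace

namespace Pool.Agent.HK

namespace NBodyAux

/-- Tonelli, slicing off the particle `i`. -/
theorem tonelli {n : ℕ} (i : Fin (n + 1)) {G : Conf (n + 1) → ℝ≥0∞}
    (hG : AEMeasurable G volume) :
    ∫⁻ X, G X = ∫⁻ y : Conf n, ∫⁻ x : E3, G (ins i x y) := by
  have hmp := SliceAux.ins_mp i
  have hG' : AEMeasurable G (Measure.map (fun p : E3 × Conf n => ins i p.1 p.2) volume) := by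
    rw [hmp.map_eq]; exact hG
  calc ∫⁻ X, G X = ∫⁻ X, G X ∂(Measure.map (fun p : E3 × Conf n => ins i p.1 p.2) volume) := by
        rw [hmp.map_eq]
    _ = ∫⁻ p : E3 × Conf n, G (ins i p.1 p.2) := by
        rw [lintegral_map' hG' hmp.measurable.aemeasurable]
    _ = ∫⁻ y : Conf n, ∫⁻ x : E3, G (ins i x y) := by
        have h2 : AEMeasurable (fun p : E3 × Conf n => G (ins i p.1 p.2))
            ((volume : Measure E3).prod (volume : Measure (Conf n))) :=
          hG.comp_quasiMeasurePreserving hmp.quasiMeasurePreserving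
        change ∫⁻ p : E3 × Conf n, G (ins i p.1 p.2)
          ∂((volume : Measure E3).prod (volume : Measure (Conf n))) = _
        rw [lintegral_prod_symm _ h2]

theorem aem_comp {n : ℕ} (i : Fin (n + 1)) {G : Conf (n + 1) → ℝ≥0∞}
    (hG : AEMeasurable G volume) :
    AEMeasurable (fun y : Conf n => ∫⁻ x : E3, G (ins i x y)) volume := by
  have hmp := SliceAux.ins_mp i
  have h2 : AEMeasurable (fun p : E3 × Conf n => G (ins i p.1 p.2))
      ((volume : Measure E3).prod (volume : Measure (Conf n))) :=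
    hG.comp_quasiMeasurePreserving hmp.quasiMeasurePreserving
  exact h2.lintegral_prod_left'

/-- slices of a Sobolev function -/
theorem sob_slice (hSL : Target_Slice) {n : ℕ} (i : Fin (n + 1)) {u : Conf (n + 1) → ℝ}
    {D : Fin (n + 1) × Fin 3 → Conf (n + 1) → ℝ} (hu : Sob dir u D) :
    ∀ᵐ y : Conf n, Sob ax (fun x => u (ins i x y)) (fun a x => D (i, a) (ins i x y)) := by
  have hmp := SliceAux.ins_mp i
  have m1 : ∀ᵐ y : Conf n, MemLp (fun x => u (ins i x y)) 2 (volume : Measure E3) :=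
    SliceAux.memLp_slice (u := fun p : E3 × Conf n => u (ins i p.1 p.2))
      (hu.memLp.comp_measurePreserving hmp)
  have m2 : ∀ᵐ y : Conf n, ∀ a : Fin 3,
      MemLp (fun x => D (i, a) (ins i x y)) 2 (volume : Measure E3) := by
    rw [ae_all_iff]
    intro a
    exact SliceAux.memLp_slice (u := fun p : E3 × Conf n => D (i, a) (ins i p.1 p.2))
      ((hu.memLp_grad (i, a)).comp_measurePreserving hmp)
  have m3 : ∀ᵐ y : Conf n, ∀ a : Fin 3,
      WeakDeriv (fun x => u (ins i x y)) (ax a) (fun x => D (i, a) (ins i x y)) := by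
    rw [ae_all_iff]
    intro a
    exact ((hSL n i).2.1 u (D (i, a)) a hu.memLp (hu.memLp_grad _)).mp (hu.weak (i, a))
  filter_upwards [m1, m2, m3] with y h1 h2 h3
  exact ⟨h1, h2, h3⟩

theorem slice_bound (hSL : Target_Slice) {n : ℕ} (i : Fin (n + 1)) {u : Conf (n + 1) → ℝ}
    {D : Fin (n + 1) × Fin 3 → Conf (n + 1) → ℝ} (hu : Sob dir u D)
    {G : Conf (n + 1) → ℝ≥0∞} (hG : AEMeasurable G volume) (ε C : ℝ≥0∞)
    (h : ∀ y : Conf n, Sob ax (fun x => u (ins i x y)) (fun a x => D (i, a) (ins i x y)) →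
      ∫⁻ x : E3, G (ins i x y) ≤ ε * (∑ a, ∫⁻ x : E3, ‖D (i, a) (ins i x y)‖ₑ ^ 2)
        + C * ∫⁻ x : E3, ‖u (ins i x y)‖ₑ ^ 2) :
    ∫⁻ X, G X ≤ ε * (∑ a, ∫⁻ X, ‖D (i, a) X‖ₑ ^ 2) + C * ∫⁻ X, ‖u X‖ₑ ^ 2 := by
  have hum : AEMeasurable (fun X => ‖u X‖ₑ ^ 2) volume := hu.memLp.1.enorm.pow_const 2
  have hDm : ∀ a, AEMeasurable (fun X => ‖D (i, a) X‖ₑ ^ 2) volume :=
    fun a => (hu.memLp_grad (i, a)).1.enorm.pow_const 2
  have e1 : ∑ a, ∫⁻ X, ‖D (i, a) X‖ₑ ^ 2 =
      ∫⁻ y : Conf n, ∑ a, ∫⁻ x : E3, ‖D (i, a) (ins i x y)‖ₑ ^ 2 := by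
    rw [lintegral_finsetSum' _ (fun a _ => aem_comp i (hDm a))]
    exact Finset.sum_congr rfl fun a _ => tonelli i (hDm a)
  rw [tonelli i hG, e1, tonelli i hum,
    ← lintegral_const_mul'' ε (Finset.aemeasurable_fun_sum _ fun a _ => aem_comp i (hDm a)),
    ← lintegral_const_mul'' C (aem_comp i hum),
    ← lintegral_add_right' _ ((aem_comp i hum).const_mul C)]
  apply lintegral_mono_ae
  filter_upwards [sob_slice hSL i hu] with y hy
  exact h y hy

theorem ins_self {n : ℕ} (i : Fin (n + 1)) (x : E3) (y : Conf n) : ins i x y i = x := by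
  unfold ins; exact Fin.insertNth_apply_same (α := fun _ => E3) i x y

theorem ins_succ {n : ℕ} (i : Fin (n + 1)) (k : Fin n) (x : E3) (y : Conf n) :
    ins i x y (i.succAbove k) = y k := by
  unfold ins; exact Fin.insertNth_apply_succAbove (α := fun _ => E3) i x y k

theorem xstar_aem {v : E3 → ℝ} (hv : XStar v) : AEStronglyMeasurable v volume := by
  obtain ⟨f, g, hf, hg, rfl⟩ := hv
  exact hf.1.add hg.1

theorem aem_v {n : ℕ} {v : E3 → ℝ} (hv : XStar v) (i : Fin (n + 1)) :
    AEMeasurable (fun X : Conf (n + 1) => ‖v (X i)‖ₑ) volume := by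
  have h1 : AEMeasurable (fun x => ‖v x‖ₑ) (volume : Measure E3) := (xstar_aem hv).enorm
  have hq : Measure.QuasiMeasurePreserving (fun X : Conf (n + 1) => X i) volume volume :=
    Measure.quasiMeasurePreserving_eval (μ := fun _ : Fin (n + 1) => (volume : Measure E3)) i
  exact h1.comp_quasiMeasurePreserving hq

end NBodyAux

namespace NBodyAux

theorem aem_dist {n : ℕ} (i : Fin (n + 1)) (c : E3) :
    AEMeasurable (fun X : Conf (n + 1) => ‖X i - c‖ₑ ^ 2) volume := by
  have h : Continuous (fun X : Conf (n + 1) => X i - c) := by fun_prop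
  exact (h.measurable.enorm.pow_const 2).aemeasurable

theorem aem_dist2 {n : ℕ} (i j : Fin (n + 1)) :
    AEMeasurable (fun X : Conf (n + 1) => ‖X i - X j‖ₑ ^ 2) volume := by
  have h : Continuous (fun X : Conf (n + 1) => X i - X j) := by fun_prop
  exact (h.measurable.enorm.pow_const 2).aemeasurable

end NBodyAux

open NBodyAux in
/-- The `N`-particle form bound and Hardy inequalities follow from those of `ℝ³`. -/
theorem target_NBody (hSL : Target_Slice) (hF : Target_FormBound) (hH : Target_Hardy) :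
    Target_NBody := by
  intro N
  rcases N with _ | n
  · exact ⟨fun v _ ε _ => ⟨0, fun u D _ i => i.elim0⟩, fun u D _ i => i.elim0,
      fun u D _ i => i.elim0⟩
  refine ⟨?_, ?_, ?_⟩
  · intro v hv ε hε
    obtain ⟨C, hC⟩ := hF v hv ε hε
    refine ⟨C, fun u D hu i => ?_⟩
    have hG : AEMeasurable (fun X : Conf (n + 1) => ‖v (X i)‖ₑ * ‖u X‖ₑ ^ 2) volume :=
      (aem_v hv i).mul (hu.memLp.1.enorm.pow_const 2)
    refine slice_bound hSL i hu hG ε C ?_
    intro y hy
    have h := hC _ _ hy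
    simp only [ins_self]
    exact h
  · intro u D hu i c
    have hG : AEMeasurable (fun x : Conf (n + 1) => ‖u x‖ₑ ^ 2 / ‖x i - c‖ₑ ^ 2) volume :=
      (hu.memLp.1.enorm.pow_const 2).div (aem_dist i c)
    have h := slice_bound hSL i hu hG 4 0 (fun y hy => by
      have h := hH c _ _ hy
      simp only [ins_self, zero_mul, add_zero]
      exact h)
    simp only [zero_mul, add_zero] at h
    exact h
  · intro u D hu i j hij
    have hG : AEMeasurable (fun x : Conf (n + 1) => ‖u x‖ₑ ^ 2 / ‖x i - x j‖ₑ ^ 2) volume :=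
      (hu.memLp.1.enorm.pow_const 2).div (aem_dist2 i j)
    obtain ⟨k, rfl⟩ := Fin.exists_succAbove_eq (Ne.symm hij)
    have h := slice_bound hSL i hu hG 4 0 (fun y hy => by
      have h := hH (y k) _ _ hy
      simp only [ins_self, ins_succ, zero_mul, add_zero]
      exact h)
    simp only [zero_mul, add_zero] at h
    exact h

end Pool.Agent.HK
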