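import Pool.Agent.HK.Calc

/-!
# The operator `-½Δ + ∑ v(y_k) + κ` on a cell, by Lax-Milgram
-/

open MeasureTheory Set Filter Topology
open scoped ENNReal NNReal InnerProductSpace

namespace Pool.Agent.HK.Opaux

/-- `L²(ℝ^{3n})`. -/
abbrev L2C (n : ℕ) : Type := Lp ℝ 2 (volume : Measure (Conf n))

variable {n : ℕ}

lemma XStar_aesm {v : E3 → ℝ} (hv : XStar v) : AEStronglyMeasurable v volume := by
  obtain ⟨f, g, hf, hg, rfl⟩ := hv
  exact hf.1.add hg.1

lemma eval_aesm {v : E3 → ℝ} (hv : AEStronglyMeasurable v volume) (i : Fin n) :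
    AEStronglyMeasurable (fun x : Conf n => v (x i)) volume :=
  hv.comp_quasiMeasurePreserving (Measure.quasiMeasurePreserving_eval _ i)

lemma ext_aesm {v : E3 → ℝ} (hv : XStar v) :
    AEStronglyMeasurable (fun x : Conf n => ext v x) volume := by
  unfold ext
  exact Finset.aestronglyMeasurable_fun_sum _ fun i _ => eval_aesm (XStar_aesm hv) i

/-- form bound of the external potential -/
lemma pot_lbound (hN : Target_NBody) {v : E3 → ℝ} (hv : XStar v) :
    ∃ C : ℝ≥0, ∀ (u : Conf n → ℝ) (D : Fin n × Fin 3 → Conf n → ℝ), Sob dir u D →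
      ∫⁻ x : Conf n, ‖ext v x‖ₑ * ‖u x‖ₑ ^ 2 ≤
        ((1 / 4 : ℝ≥0) : ℝ≥0∞) * (∑ p, ∫⁻ x, ‖D p x‖ₑ ^ 2) + C * ∫⁻ x, ‖u x‖ₑ ^ 2 := by
  obtain ⟨C, hC⟩ := (hN n).1 v hv (1 / 4) (by norm_num)
  refine ⟨n * C, fun u D hD => ?_⟩
  calc ∫⁻ x : Conf n, ‖ext v x‖ₑ * ‖u x‖ₑ ^ 2
      ≤ ∫⁻ x : Conf n, ∑ i, ‖v (x i)‖ₑ * ‖u x‖ₑ ^ 2 := by
        refine lintegral_mono fun x => ?_
        rw [← Finset.sum_mul]
        gcongr
        exact enorm_sum_le _ _
    _ = ∑ i, ∫⁻ x : Conf n, ‖v (x i)‖ₑ * ‖u x‖ₑ ^ 2 := by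
        refine lintegral_finsetSum' _ fun i _ => ?_
        exact (eval_aesm (XStar_aesm hv) i).enorm.mul (hD.memLp.1.enorm.pow_const 2)
    _ ≤ ∑ i, (((1 / 4 : ℝ≥0) : ℝ≥0∞) * (∑ a, ∫⁻ x, ‖D (i, a) x‖ₑ ^ 2)
          + C * ∫⁻ x, ‖u x‖ₑ ^ 2) := Finset.sum_le_sum fun i _ => hC u D hD i
    _ = _ := by
        rw [Finset.sum_add_distrib, ← Finset.mul_sum, Fintype.sum_prod_type]
        simp [mul_assoc]

lemma enorm_sq_eq (a : ℝ) : ‖a‖ₑ ^ 2 = ENNReal.ofReal (a ^ 2) := by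
  rw [Real.enorm_eq_ofReal_abs, ← ENNReal.ofReal_pow (abs_nonneg a), sq_abs]

lemma lint_sq {f : Conf n → ℝ} (hf : MemLp f 2 volume) :
    ∫⁻ x, ‖f x‖ₑ ^ 2 = ENNReal.ofReal (∫ x, f x ^ 2) := by
  rw [ofReal_integral_eq_lintegral_ofReal ((memLp_two_iff_integrable_sq hf.1).1 hf)
    (Eventually.of_forall fun x => sq_nonneg _)]
  simp only [enorm_sq_eq]

/-- form bound, real version -/
lemma pot_bound (hN : Target_NBody) {v : E3 → ℝ} (hv : XStar v) :
    ∃ C : ℝ, 0 ≤ C ∧ ∀ (u : Conf n → ℝ) (D : Fin n × Fin 3 → Conf n → ℝ), Sob dir u D →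
      Integrable (fun x : Conf n => |ext v x| * u x ^ 2) volume ∧
      ∫ x : Conf n, |ext v x| * u x ^ 2 ≤
        1 / 4 * (∑ p, ∫ x, D p x ^ 2) + C * ∫ x, u x ^ 2 := by
  obtain ⟨C, hC⟩ := pot_lbound (n := n) hN hv
  refine ⟨C, C.coe_nonneg, fun u D hD => ?_⟩
  have h := hC u D hD
  have e1 : ∀ x : Conf n, ‖ext v x‖ₑ * ‖u x‖ₑ ^ 2 = ENNReal.ofReal (|ext v x| * u x ^ 2) := by
    intro x
    rw [enorm_sq_eq, Real.enorm_eq_ofReal_abs, ENNReal.ofReal_mul (abs_nonneg _)]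
  have hD0 : ∀ p, 0 ≤ ∫ x, D p x ^ 2 := fun p => integral_nonneg fun x => sq_nonneg _
  have hu0 : 0 ≤ ∫ x, u x ^ 2 := integral_nonneg fun x => sq_nonneg _
  have e2 : ((1 / 4 : ℝ≥0) : ℝ≥0∞) * (∑ p, ∫⁻ x, ‖D p x‖ₑ ^ 2) + C * ∫⁻ x, ‖u x‖ₑ ^ 2 =
      ENNReal.ofReal (1 / 4 * (∑ p, ∫ x, D p x ^ 2) + C * ∫ x, u x ^ 2) := by
    have a1 : (0 : ℝ) ≤ 1 / 4 * (∑ p, ∫ x, D p x ^ 2) :=
      mul_nonneg (by norm_num) (Finset.sum_nonneg fun p _ => hD0 p)
    have a2 : (0 : ℝ) ≤ C * ∫ x, u x ^ 2 := mul_nonneg C.coe_nonneg hu0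
    rw [ENNReal.ofReal_add a1 a2, ENNReal.ofReal_mul (by norm_num), ENNReal.ofReal_mul C.coe_nonneg,
      ENNReal.ofReal_sum_of_nonneg fun p _ => hD0 p, lint_sq hD.memLp]
    congr 1
    · congr 1
      · rw [show (1 / 4 : ℝ) = ((1 / 4 : ℝ≥0) : ℝ) by norm_num, ENNReal.ofReal_coe_nnreal]
      · exact Finset.sum_congr rfl fun p _ => lint_sq (hD.memLp_grad p)
    · rw [ENNReal.ofReal_coe_nnreal]
  simp only [e1] at h
  rw [e2] at h
  have hm : AEStronglyMeasurable (fun x : Conf n => |ext v x| * u x ^ 2) volume :=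
    (ext_aesm hv).norm.mul (hD.memLp.1.pow 2)
  have hnn : ∀ x : Conf n, 0 ≤ |ext v x| * u x ^ 2 := fun x => by positivity
  have hint : Integrable (fun x : Conf n => |ext v x| * u x ^ 2) volume := by
    refine ⟨hm, ?_⟩
    rw [hasFiniteIntegral_iff_ofReal (Eventually.of_forall hnn)]
    exact h.trans_lt ENNReal.ofReal_lt_top
  refine ⟨hint, ?_⟩
  rw [← ofReal_integral_eq_lintegral_ofReal hint (Eventually.of_forall hnn)] at h
  refine (ENNReal.ofReal_le_ofReal_iff ?_).1 h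
  have := Finset.sum_nonneg fun p (_ : p ∈ Finset.univ) => hD0 p
  have := C.coe_nonneg
  positivity

/-- products with the potential are integrable -/
lemma pot_int (hN : Target_NBody) {v : E3 → ℝ} (hv : XStar v) {u u' : Conf n → ℝ}
    {D D' : Fin n × Fin 3 → Conf n → ℝ} (hu : Sob dir u D) (hu' : Sob dir u' D') :
    Integrable (fun x : Conf n => ext v x * (u x * u' x)) volume := by
  obtain ⟨C, -, hC⟩ := pot_bound (n := n) hN hv
  have h1 := (hC u D hu).1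
  have h2 := (hC u' D' hu').1
  refine Integrable.mono' (h1.add h2)
    ((ext_aesm hv).mul (hu.memLp.1.mul hu'.memLp.1)) (Eventually.of_forall fun x => ?_)
  simp only [Pi.add_apply]
  rw [norm_mul, norm_mul, Real.norm_eq_abs, Real.norm_eq_abs, Real.norm_eq_abs, ← mul_add]
  refine mul_le_mul_of_nonneg_left ?_ (abs_nonneg _)
  rw [← sq_abs (u x), ← sq_abs (u' x)]
  nlinarith [sq_nonneg (|u x| - |u' x|), sq_nonneg (|u x|), sq_nonneg (|u' x|)]

lemma inner_Lp (f g : L2C n) : ⟪f, g⟫_ℝ = ∫ x, f x * g x := by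
  rw [L2.inner_def]
  refine integral_congr_ae (Eventually.of_forall fun x => ?_)
  simp [mul_comm]

lemma inner_toLp {f : Conf n → ℝ} (hf : MemLp f 2 volume) (g : L2C n) :
    ⟪hf.toLp f, g⟫_ℝ = ∫ x, f x * g x := by
  rw [inner_Lp]
  refine integral_congr_ae ?_
  filter_upwards [hf.coeFn_toLp] with x hx
  rw [hx]

/-- ambient space of pairs (function, gradient) -/
abbrev Amb (n : ℕ) : Type := PiLp 2 (fun _ : Option (Fin n × Fin 3) => L2C n)

/-- functional testing the weak derivative -/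
noncomputable def testF (ζ : {ζ : Conf n → ℝ // IsTest ζ}) (p : Fin n × Fin 3) :
    Amb n →L[ℝ] ℝ :=
  (innerSL ℝ ((ζ.2.dir (dir p)).memLp 2).toLp).comp
      (PiLp.proj 2 (fun _ : Option (Fin n × Fin 3) => L2C n) none) +
    (innerSL ℝ ((ζ.2.memLp 2).toLp)).comp
      (PiLp.proj 2 (fun _ : Option (Fin n × Fin 3) => L2C n) (some p))

lemma testF_apply (ζ : {ζ : Conf n → ℝ // IsTest ζ}) (p : Fin n × Fin 3) (F : Amb n) :
    testF ζ p F = (∫ x, fderiv ℝ ζ.1 x (dir p) * F none x) + ∫ x, ζ.1 x * F (some p) x := by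
  rw [← inner_toLp ((ζ.2.dir (dir p)).memLp 2) (F none), ← inner_toLp (ζ.2.memLp 2) (F (some p))]
  rfl

/-- restriction to the complement of the cell -/
noncomputable def offC (C' : Set (Conf n)) :
    Amb n →L[ℝ] Lp ℝ 2 ((volume : Measure (Conf n)).restrict C'ᶜ) :=
  (LpToLpRestrictCLM (Conf n) ℝ ℝ volume 2 C'ᶜ).comp
    (PiLp.proj 2 (fun _ : Option (Fin n × Fin 3) => L2C n) none)

lemma offC_eq_zero {C' : Set (Conf n)} (hC : MeasurableSet C') (F : Amb n) :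
    offC C' F = 0 ↔ ∀ᵐ x, x ∉ C' → F none x = 0 := by
  have h1 : (offC C' F : Conf n → ℝ) =ᵐ[(volume : Measure (Conf n)).restrict C'ᶜ] F none :=
    LpToLpRestrictCLM_coeFn ℝ C'ᶜ (F none)
  have e : (∀ᵐ x, x ∉ C' → F none x = 0) ↔
      ∀ᵐ x ∂((volume : Measure (Conf n)).restrict C'ᶜ), F none x = 0 :=
    (ae_restrict_iff' hC.compl).symm
  rw [e, Lp.eq_zero_iff_ae_eq_zero]
  constructor
  · intro h
    filter_upwards [h, h1] with x hx hx1
    rw [← hx1, hx]; rfl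
  · intro h
    filter_upwards [h, h1] with x hx hx1
    rw [hx1, hx]; rfl

/-- the form domain -/
noncomputable def dom (C' : Set (Conf n)) : Submodule ℝ (Amb n) :=
  (⨅ (ζ : {ζ : Conf n → ℝ // IsTest ζ}) (p : Fin n × Fin 3), (testF ζ p).ker) ⊓ (offC C').ker

lemma mem_dom {C' : Set (Conf n)} (hC : MeasurableSet C') (F : Amb n) :
    F ∈ dom C' ↔ (∀ p, WeakDeriv (F none : Conf n → ℝ) (dir p) (F (some p) : Conf n → ℝ)) ∧
      ∀ᵐ x, x ∉ C' → F none x = 0 := by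
  rw [dom, Submodule.mem_inf, Submodule.mem_iInf]
  simp only [Submodule.mem_iInf, LinearMap.mem_ker]
  refine and_congr ?_ (offC_eq_zero hC F)
  constructor
  · intro h p ζ hζ
    have := h ⟨ζ, hζ⟩ p
    have := (testF_apply ⟨ζ, hζ⟩ p F).symm.trans this
    simp only [smul_eq_mul]
    linarith
  · intro h ζ p
    have := h p ζ.1 ζ.2
    simp only [smul_eq_mul] at this
    refine (testF_apply ζ p F).trans ?_
    linarith

lemma isClosed_dom (C' : Set (Conf n)) : IsClosed (dom C' : Set (Amb n)) := by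
  rw [dom, Submodule.coe_inf, Submodule.coe_iInf]
  refine IsClosed.inter ?_ (offC C').isClosed_ker
  refine isClosed_iInter fun ζ => ?_
  rw [Submodule.coe_iInf]
  exact isClosed_iInter fun p => (testF ζ p).isClosed_ker

instance (C' : Set (Conf n)) : CompleteSpace (dom C') := (isClosed_dom C').completeSpace_coe

lemma dom_sob {C' : Set (Conf n)} (hC : MeasurableSet C') (F : dom C') :
    Sob dir (F.1 none : Conf n → ℝ) (fun p => (F.1 (some p) : Conf n → ℝ)) :=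
  ⟨Lp.memLp _, fun _ => Lp.memLp _, ((mem_dom hC F.1).1 F.2).1⟩

/-- the form -/
noncomputable def form (v : E3 → ℝ) (κ : ℝ) (F G : Amb n) : ℝ :=
  1 / 2 * (∑ p, ⟪F (some p), G (some p)⟫_ℝ) + (∫ y, ext v y * (F none y * G none y))
    + κ * ⟪F none, G none⟫_ℝ

lemma form_symm (v : E3 → ℝ) (κ : ℝ) (F G : Amb n) : form v κ F G = form v κ G F := by
  unfold form
  congr 1
  · congr 1
    · congr 1
      exact Finset.sum_congr rfl fun p _ => real_inner_comm _ _
    · exact integral_congr_ae (Eventually.of_forall fun x => by simp only []; ring)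
  · rw [real_inner_comm]

lemma form_add (hN : Target_NBody) {v : E3 → ℝ} (hv : XStar v) (κ : ℝ) {C' : Set (Conf n)}
    (hC : MeasurableSet C') (F F' G : dom C') :
    form v κ (F.1 + F'.1) G.1 = form v κ F.1 G.1 + form v κ F'.1 G.1 := by
  have i1 := pot_int hN hv (dom_sob hC F) (dom_sob hC G)
  have i2 := pot_int hN hv (dom_sob hC F') (dom_sob hC G)
  have e : ∫ y, ext v y * ((F.1 + F'.1) none y * G.1 none y) =
      (∫ y, ext v y * (F.1 none y * G.1 none y)) + ∫ y, ext v y * (F'.1 none y * G.1 none y) := by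
    rw [← integral_add i1 i2]
    refine integral_congr_ae ?_
    filter_upwards [Lp.coeFn_add (F.1 none) (F'.1 none)] with y hy
    have hy' : ((F.1 + F'.1) none : L2C n) y = F.1 none y + F'.1 none y := hy
    rw [hy']
    ring
  unfold form
  rw [e]
  simp only [PiLp.add_apply, inner_add_left, Finset.sum_add_distrib]
  ring

lemma form_smul {v : E3 → ℝ} (κ : ℝ) (c : ℝ) (F G : Amb n) :
    form v κ (c • F) G = c * form v κ F G := by
  have e : ∫ y, ext v y * ((c • F) none y * G none y) =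
      c * ∫ y, ext v y * (F none y * G none y) := by
    rw [← integral_const_mul]
    refine integral_congr_ae ?_
    filter_upwards [Lp.coeFn_smul c (F none)] with y hy
    have hy' : ((c • F) none : L2C n) y = c * F none y := hy
    rw [hy']
    ring
  unfold form
  rw [e]
  simp only [PiLp.smul_apply, real_inner_smul_left, ← Finset.mul_sum]
  ring

/-- the form as a bilinear map -/
noncomputable def formL (hN : Target_NBody) {v : E3 → ℝ} (hv : XStar v) (κ : ℝ)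
    {C' : Set (Conf n)} (hC : MeasurableSet C') : dom C' →ₗ[ℝ] dom C' →ₗ[ℝ] ℝ :=
  LinearMap.mk₂ ℝ (fun F G => form v κ F.1 G.1)
    (fun F F' G => form_add hN hv κ hC F F' G)
    (fun c F G => form_smul κ c F.1 G.1)
    (fun F G G' => by
      rw [form_symm v κ F.1 (G + G' : dom C').1, form_symm v κ F.1 G.1, form_symm v κ F.1 G'.1]
      exact form_add hN hv κ hC G G' F)
    (fun c F G => by
      rw [form_symm v κ F.1 (c • G : dom C').1, form_symm v κ F.1 G.1]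
      exact form_smul κ c G.1 F.1)

lemma norm_sq_amb (F : Amb n) : ‖F‖ ^ 2 = ‖F none‖ ^ 2 + ∑ p, ‖F (some p)‖ ^ 2 := by
  rw [PiLp.norm_sq_eq_of_L2, Fintype.sum_option]

lemma norm_sq_Lp (f : L2C n) : ‖f‖ ^ 2 = ∫ x, f x ^ 2 := by
  rw [← real_inner_self_eq_norm_sq, inner_Lp]
  exact integral_congr_ae (Eventually.of_forall fun x => by simp only []; ring)

/-- a bilinear map bounded by squares is bounded -/
lemma bound_of_sq {E : Type*} [NormedAddCommGroup E] [NormedSpace ℝ E] (B : E →ₗ[ℝ] E →ₗ[ℝ] ℝ)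
    {M : ℝ} (h : ∀ x y, |B x y| ≤ M * (‖x‖ ^ 2 + ‖y‖ ^ 2)) (x y : E) :
    ‖B x y‖ ≤ 2 * M * ‖x‖ * ‖y‖ := by
  rw [Real.norm_eq_abs]
  by_cases hx : x = 0
  · simp [hx]
  by_cases hy : y = 0
  · simp [hy]
  have hx' : 0 < ‖x‖ := norm_pos_iff.2 hx
  have hy' : 0 < ‖y‖ := norm_pos_iff.2 hy
  have h1 := h (‖y‖ • x) (‖x‖ • y)
  simp only [map_smul, LinearMap.smul_apply, smul_eq_mul, norm_smul, norm_norm, abs_mul,
    abs_norm] at h1
  have h2 : (‖x‖ * ‖y‖) * |B x y| ≤ (‖x‖ * ‖y‖) * (2 * M * ‖x‖ * ‖y‖) := by nlinarith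
  exact le_of_mul_le_mul_left h2 (by positivity)

/-- the potential part is bounded by squares -/
lemma pot_abs (hN : Target_NBody) {v : E3 → ℝ} (hv : XStar v) {C : ℝ}
    (hC : ∀ (u : Conf n → ℝ) (D : Fin n × Fin 3 → Conf n → ℝ), Sob dir u D →
      Integrable (fun x : Conf n => |ext v x| * u x ^ 2) volume ∧
      ∫ x : Conf n, |ext v x| * u x ^ 2 ≤
        1 / 4 * (∑ p, ∫ x, D p x ^ 2) + C * ∫ x, u x ^ 2)
    {u u' : Conf n → ℝ} {D D' : Fin n × Fin 3 → Conf n → ℝ} (hu : Sob dir u D)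
    (hu' : Sob dir u' D') :
    |∫ x : Conf n, ext v x * (u x * u' x)| ≤
      (1 / 2) * ((∫ x : Conf n, |ext v x| * u x ^ 2) + ∫ x : Conf n, |ext v x| * u' x ^ 2) := by
  have h1 := (hC u D hu).1
  have h2 := (hC u' D' hu').1
  rw [← integral_add h1 h2, ← integral_const_mul]
  rw [← Real.norm_eq_abs]
  refine norm_integral_le_of_norm_le ((h1.add h2).const_mul _) (Eventually.of_forall fun x => ?_)
  rw [norm_mul, norm_mul, Real.norm_eq_abs, Real.norm_eq_abs, Real.norm_eq_abs]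
  have key : |ext v x| * (|u x| * |u' x|) ≤
      1 / 2 * (|ext v x| * u x ^ 2 + |ext v x| * u' x ^ 2) := by
    have h3 : |u x| * |u' x| ≤ 1 / 2 * (u x ^ 2 + u' x ^ 2) := by
      rw [← sq_abs (u x), ← sq_abs (u' x)]
      nlinarith [sq_nonneg (|u x| - |u' x|)]
    calc |ext v x| * (|u x| * |u' x|) ≤ |ext v x| * (1 / 2 * (u x ^ 2 + u' x ^ 2)) :=
          mul_le_mul_of_nonneg_left h3 (abs_nonneg _)
      _ = _ := by ring
  exact key

lemma form_bound (hN : Target_NBody) {v : E3 → ℝ} (hv : XStar v) {C : ℝ} (hC0 : 0 ≤ C)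
    (hC : ∀ (u : Conf n → ℝ) (D : Fin n × Fin 3 → Conf n → ℝ), Sob dir u D →
      Integrable (fun x : Conf n => |ext v x| * u x ^ 2) volume ∧
      ∫ x : Conf n, |ext v x| * u x ^ 2 ≤
        1 / 4 * (∑ p, ∫ x, D p x ^ 2) + C * ∫ x, u x ^ 2)
    {C' : Set (Conf n)} (hC' : MeasurableSet C') {κ : ℝ} (hκ : 0 ≤ κ) (F G : dom C') :
    |form v κ F.1 G.1| ≤ (1 + C + κ) * (‖F‖ ^ 2 + ‖G‖ ^ 2) := by
  have hF := dom_sob hC' F
  have hG := dom_sob hC' G
  have qF := (hC _ _ hF).2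
  have qG := (hC _ _ hG).2
  have pot := pot_abs hN hv hC hF hG
  have nF : ‖F‖ ^ 2 = ‖F.1 none‖ ^ 2 + ∑ p, ‖F.1 (some p)‖ ^ 2 := norm_sq_amb F.1
  have nG : ‖G‖ ^ 2 = ‖G.1 none‖ ^ 2 + ∑ p, ‖G.1 (some p)‖ ^ 2 := norm_sq_amb G.1
  simp only [← norm_sq_Lp] at qF qG
  have hip : ∀ a b : L2C n, |⟪a, b⟫_ℝ| ≤ 1 / 2 * (‖a‖ ^ 2 + ‖b‖ ^ 2) := by
    intro a b
    refine (abs_real_inner_le_norm a b).trans ?_
    nlinarith [sq_nonneg (‖a‖ - ‖b‖)]
  have hs : |∑ p, ⟪F.1 (some p), G.1 (some p)⟫_ℝ| ≤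
      1 / 2 * ((∑ p, ‖F.1 (some p)‖ ^ 2) + ∑ p, ‖G.1 (some p)‖ ^ 2) := by
    refine (Finset.abs_sum_le_sum_abs _ _).trans ?_
    rw [← Finset.sum_add_distrib, Finset.mul_sum]
    exact Finset.sum_le_sum fun p _ => hip _ _
  have h0 := hip (F.1 none) (G.1 none)
  set sF := ∑ p, ‖F.1 (some p)‖ ^ 2 with hsF
  set sG := ∑ p, ‖G.1 (some p)‖ ^ 2 with hsG
  have sF0 : 0 ≤ sF := Finset.sum_nonneg fun p _ => by positivity
  have sG0 : 0 ≤ sG := Finset.sum_nonneg fun p _ => by positivity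
  have uF0 : 0 ≤ ‖F.1 none‖ ^ 2 := by positivity
  have uG0 : 0 ≤ ‖G.1 none‖ ^ 2 := by positivity
  unfold form
  rw [abs_le] at hs h0 pot ⊢
  rw [nF, nG]
  have m1 := mul_nonneg hC0 uF0
  have m2 := mul_nonneg hC0 uG0
  have m3 := mul_nonneg hC0 sF0
  have m4 := mul_nonneg hC0 sG0
  have m5 := mul_nonneg hκ sF0
  have m6 := mul_nonneg hκ sG0
  have m7 := mul_nonneg hκ uF0
  have m8 := mul_nonneg hκ uG0
  have k1 := mul_le_mul_of_nonneg_left h0.1 hκ
  have k2 := mul_le_mul_of_nonneg_left h0.2 hκ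
  constructor <;> nlinarith

lemma form_coercive (hN : Target_NBody) {v : E3 → ℝ} (hv : XStar v) {C : ℝ}
    (hC : ∀ (u : Conf n → ℝ) (D : Fin n × Fin 3 → Conf n → ℝ), Sob dir u D →
      Integrable (fun x : Conf n => |ext v x| * u x ^ 2) volume ∧
      ∫ x : Conf n, |ext v x| * u x ^ 2 ≤
        1 / 4 * (∑ p, ∫ x, D p x ^ 2) + C * ∫ x, u x ^ 2)
    {C' : Set (Conf n)} (hC' : MeasurableSet C') (F : dom C') :
    1 / 4 * ‖F‖ ^ 2 ≤ form v (C + 1 / 4) F.1 F.1 := by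
  have hF := dom_sob hC' F
  have qF := (hC _ _ hF).2
  have pot := pot_abs hN hv hC hF hF
  have nF : ‖F‖ ^ 2 = ‖F.1 none‖ ^ 2 + ∑ p, ‖F.1 (some p)‖ ^ 2 := norm_sq_amb F.1
  simp only [← norm_sq_Lp] at qF
  unfold form
  simp only [real_inner_self_eq_norm_sq]
  rw [abs_le] at pot
  rw [nF]
  linarith [pot.1]

end Pool.Agent.HK.Opaux

namespace Pool.Agent.HK

open Opaux

theorem target_Op (hLM : Target_LM) (hN : Target_NBody) : Target_Op := by
  intro n v C' hv hC'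
  obtain ⟨C, hC0, hC⟩ := pot_bound (n := n) hN hv
  have hκ : 0 ≤ C + 1 / 4 := by positivity
  set a : dom C' →L[ℝ] dom C' →L[ℝ] ℝ :=
    (formL hN hv (C + 1 / 4) hC').mkContinuous₂ _
      (bound_of_sq _ fun F G => form_bound hN hv hC0 hC hC' hκ F G) with ha
  have hav : ∀ F G : dom C', a F G = form v (C + 1 / 4) F.1 G.1 := fun F G => rfl
  set ι : dom C' →L[ℝ] L2C n :=
    (PiLp.proj 2 (fun _ : Option (Fin n × Fin 3) => L2C n) none).comp (dom C').subtypeL with hι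
  have hιv : ∀ F : dom C', ι F = F.1 none := fun F => rfl
  have hinj : Function.Injective ι := by
    intro F G h
    rw [hιv, hιv] at h
    apply Subtype.ext
    ext1 o
    rcases o with _ | p
    · exact h
    · have h1 := (dom_sob hC' F).weak p
      have h2 := (dom_sob hC' G).weak p
      rw [← h] at h2
      exact Lp.ext (h1.unique h2 (Lp.memLp _) (Lp.memLp _))
  have hsymm : ∀ F G, a F G = a G F := fun F G => form_symm _ _ _ _
  have hco : IsCoercive a := by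
    refine ⟨1 / 4, by norm_num, fun F => ?_⟩
    rw [hav]
    have := form_coercive hN hv hC hC' F
    rw [mul_assoc, ← sq]
    exact this
  obtain ⟨K, R, k, h1, h2, h3, h4, h5, h6, h7⟩ := hLM (dom C') (L2C n) ι a hinj hsymm hco
  have hK : ∀ h : L2C n, K h = (k h).1 none := fun h => (h3 h).symm
  -- elements of the form domain from functions
  have mk : ∀ (f : Conf n → ℝ) (Df : Fin n × Fin 3 → Conf n → ℝ), Sob dir f Df →
      (∀ᵐ y, y ∉ C' → f y = 0) → ∃ F : dom C', ((F.1 none : L2C n) : Conf n → ℝ) =ᵐ[volume] f ∧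
        ∀ p, ((F.1 (some p) : L2C n) : Conf n → ℝ) =ᵐ[volume] Df p := by
    intro f Df hf hf0
    let F0 : Amb n := WithLp.toLp 2 (fun o => match o with
      | none => hf.memLp.toLp
      | some p => (hf.memLp_grad p).toLp)
    have e0 : ((F0 none : L2C n) : Conf n → ℝ) =ᵐ[volume] f := hf.memLp.coeFn_toLp
    have e1 : ∀ p, ((F0 (some p) : L2C n) : Conf n → ℝ) =ᵐ[volume] Df p := fun p =>
      (hf.memLp_grad p).coeFn_toLp
    refine ⟨⟨F0, (mem_dom hC' F0).2 ⟨fun p => (hf.weak p).congr e0.symm (e1 p).symm, ?_⟩⟩, e0, e1⟩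
    filter_upwards [e0, hf0] with y hy hy0 hyC
    rw [hy, hy0 hyC]
  refine ⟨C + 1 / 4, 1 / 4, K, R, by norm_num, h1, h2, h5, h6, ?_, ?_⟩
  · intro h
    refine ⟨fun p => ((k h).1 (some p) : Conf n → ℝ), ?_, ?_, ?_⟩
    · rw [hK]; exact dom_sob hC' (k h)
    · rw [hK]; exact ((mem_dom hC' _).1 (k h).2).2
    · intro f Df hf hf0
      obtain ⟨F, e0, e1⟩ := mk f Df hf hf0
      have e2 := h4 h F
      rw [hav, form_symm] at e2
      have g1 : ∀ p, ⟪F.1 (some p), (k h).1 (some p)⟫_ℝ =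
          ∫ y, Df p y * ((k h).1 (some p) : Conf n → ℝ) y := by
        intro p
        rw [inner_Lp]
        refine integral_congr_ae ?_
        filter_upwards [e1 p] with y hy
        rw [hy]
      have g2 : ∫ y, ext v y * (F.1 none y * (k h).1 none y) =
          ∫ y, ext v y * (f y * (K h : Conf n → ℝ) y) := by
        rw [hK]
        refine integral_congr_ae ?_
        filter_upwards [e0] with y hy
        rw [hy]
      have g3 : ⟪F.1 none, (k h).1 none⟫_ℝ = ∫ y, f y * (K h : Conf n → ℝ) y := by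
        rw [inner_Lp, hK]
        refine integral_congr_ae ?_
        filter_upwards [e0] with y hy
        rw [hy]
      have g4 : ⟪h, ι F⟫_ℝ = ∫ y, f y * (h : Conf n → ℝ) y := by
        rw [hιv, real_inner_comm, inner_Lp]
        refine integral_congr_ae ?_
        filter_upwards [e0] with y hy
        rw [hy]
      rw [← g4, ← e2]
      unfold form
      rw [g2, g3]
      simp only [g1]
  · intro f Df hf hf0
    obtain ⟨F, e0, e1⟩ := mk f Df hf hf0
    have hFf : ι F = f := Lp.ext e0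
    have g1 : ∀ p, ⟪F.1 (some p), F.1 (some p)⟫_ℝ = ∫ y, Df p y ^ 2 := by
      intro p
      rw [inner_Lp]
      refine integral_congr_ae ?_
      filter_upwards [e1 p] with y hy
      rw [hy, sq]
    have hF0 : F.1 none = f := hFf
    have key : form v (C + 1 / 4) F.1 F.1 = 1 / 2 * (∑ p, ∫ y, Df p y ^ 2)
            + (∫ y, ext v y * (f : Conf n → ℝ) y ^ 2)
            + (C + 1 / 4) * (∫ y, (f : Conf n → ℝ) y ^ 2) := by
      unfold form
      rw [hF0, inner_Lp]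
      simp only [g1, sq]
    have hlim := h7 F
    rw [hFf, hav, key] at hlim
    refine ⟨hlim, ?_⟩
    rw [← key]
    refine le_trans (le_of_eq ?_) (form_coercive hN hv hC hC' F)
    have nF : ‖F‖ ^ 2 = ‖F.1 none‖ ^ 2 + ∑ p, ‖F.1 (some p)‖ ^ 2 := norm_sq_amb F.1
    rw [nF, hF0, norm_sq_Lp]
    have : ∀ p, ‖F.1 (some p)‖ ^ 2 = ∫ y, Df p y ^ 2 := by
      intro p
      rw [← g1, real_inner_self_eq_norm_sq]
    simp only [this]
    ring

end Pool.Agent.HK
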