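import Pool.Agent.HK.Spec

/-!
# Facts on the resolvent family `R ε = (K + ε)⁻¹` of a nonnegative operator
-/

open MeasureTheory Set Filter Topology
open scoped ENNReal NNReal InnerProductSpace

namespace Pool.Agent.HK

namespace UCData

variable {H : Type} [NormedAddCommGroup H] [InnerProductSpace ℝ H] [CompleteSpace H]
  [SecondCountableTopology H] (d : UCData H)

lemma K_R_comm {ε : ℝ} (hε : 0 < ε) (x : H) : d.K (d.R ε x) = d.R ε (d.K x) := by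
  have h1 := d.KR ε hε x
  have h2 := d.RK ε hε x
  exact add_right_cancel (h1.trans h2.symm)

lemma K_R_eq {ε : ℝ} (hε : 0 < ε) (x : H) : d.K (d.R ε x) = x - ε • d.R ε x := by
  rw [eq_sub_iff_add_eq]; exact d.KR ε hε x

lemma R_symm {ε : ℝ} (hε : 0 < ε) (x y : H) : ⟪d.R ε x, y⟫_ℝ = ⟪x, d.R ε y⟫_ℝ := by
  calc ⟪d.R ε x, y⟫_ℝ = ⟪d.R ε x, d.K (d.R ε y) + ε • d.R ε y⟫_ℝ := by rw [d.KR ε hε y]
    _ = ⟪d.K (d.R ε x) + ε • d.R ε x, d.R ε y⟫_ℝ := by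
      rw [inner_add_right, inner_add_left, inner_smul_right, inner_smul_left, d.K_symm]
      simp
    _ = ⟪x, d.R ε y⟫_ℝ := by rw [d.KR ε hε x]

lemma R_inner_eq {ε : ℝ} (hε : 0 < ε) (x : H) :
    ⟪d.R ε x, x⟫_ℝ = ⟪d.K (d.R ε x), d.R ε x⟫_ℝ + ε * ‖d.R ε x‖ ^ 2 := by
  have h : ⟪d.R ε x, x⟫_ℝ = ⟪d.R ε x, d.K (d.R ε x) + ε • d.R ε x⟫_ℝ := by rw [d.KR ε hε x]
  rw [h, inner_add_right, inner_smul_right, real_inner_self_eq_norm_sq, ← d.K_symm]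

lemma R_pos {ε : ℝ} (hε : 0 < ε) (x : H) : 0 ≤ ⟪d.R ε x, x⟫_ℝ := by
  rw [d.R_inner_eq hε]
  have := d.K_pos (d.R ε x)
  positivity

lemma R_norm_sq_le {ε : ℝ} (hε : 0 < ε) (x : H) : ε * ‖d.R ε x‖ ^ 2 ≤ ⟪d.R ε x, x⟫_ℝ := by
  rw [d.R_inner_eq hε]
  have := d.K_pos (d.R ε x)
  linarith

lemma R_norm_le {ε : ℝ} (hε : 0 < ε) (x : H) : ε * ‖d.R ε x‖ ≤ ‖x‖ := by
  by_cases h : ‖d.R ε x‖ = 0
  · rw [h]; simp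
  have hpos : 0 < ‖d.R ε x‖ := lt_of_le_of_ne (norm_nonneg _) (Ne.symm h)
  have h1 := d.R_norm_sq_le hε x
  have h2 := real_inner_le_norm (d.R ε x) x
  have h3 : ε * ‖d.R ε x‖ * ‖d.R ε x‖ ≤ ‖x‖ * ‖d.R ε x‖ := by nlinarith
  exact le_of_mul_le_mul_right h3 hpos

/-- The smoothing operator `J = K R ε`. -/
noncomputable def J (ε : ℝ) : H →L[ℝ] H := d.K.comp (d.R ε)

lemma J_apply (ε : ℝ) (x : H) : d.J ε x = d.K (d.R ε x) := rfl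

lemma J_norm_le {ε : ℝ} (hε : 0 < ε) (x : H) : ‖d.J ε x‖ ≤ ‖x‖ := by
  rw [J_apply]
  by_cases h : ‖d.K (d.R ε x)‖ = 0
  · rw [h]; exact norm_nonneg _
  have hpos : 0 < ‖d.K (d.R ε x)‖ := lt_of_le_of_ne (norm_nonneg _) (Ne.symm h)
  have h1 : ‖d.K (d.R ε x)‖ ^ 2 ≤ ⟪d.K (d.R ε x), x⟫_ℝ := by
    have e1 : ⟪d.K (d.R ε x), x⟫_ℝ = ⟪d.K (d.R ε x), d.K (d.R ε x) + ε • d.R ε x⟫_ℝ := by
      rw [d.KR ε hε x]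
    rw [e1, inner_add_right, inner_smul_right, real_inner_self_eq_norm_sq]
    have := d.K_pos (d.R ε x)
    nlinarith [mul_nonneg hε.le this]
  have h2 := real_inner_le_norm (d.K (d.R ε x)) x
  have h3 : ‖d.K (d.R ε x)‖ * ‖d.K (d.R ε x)‖ ≤ ‖x‖ * ‖d.K (d.R ε x)‖ := by nlinarith
  exact le_of_mul_le_mul_right h3 hpos

lemma J_symm {ε : ℝ} (hε : 0 < ε) (x y : H) : ⟪d.J ε x, y⟫_ℝ = ⟪x, d.J ε y⟫_ℝ := by
  rw [J_apply, J_apply, d.K_symm, d.R_symm hε, d.K_R_comm hε y]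

lemma R_comm {ε δ : ℝ} (hε : 0 < ε) (hδ : 0 < δ) (x : H) :
    d.R ε (d.R δ x) = d.R δ (d.R ε x) := by
  -- `R_ε x = (K + δ) R_ε R_δ x`
  have h1 : d.R ε x = d.K (d.R ε (d.R δ x)) + δ • d.R ε (d.R δ x) := by
    calc d.R ε x = d.R ε (d.K (d.R δ x) + δ • d.R δ x) := by rw [d.KR δ hδ x]
      _ = d.K (d.R ε (d.R δ x)) + δ • d.R ε (d.R δ x) := by
        rw [map_add, map_smul, d.K_R_comm hε]
  have h2 := d.RK δ hδ (d.R ε (d.R δ x))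
  rw [← h2, ← map_smul, ← map_add, ← h1]

/-- `⟨R_ε K y, y⟩ ≥ 0`. -/
lemma RK_pos {ε : ℝ} (hε : 0 < ε) (y : H) : 0 ≤ ⟪d.R ε (d.K y), y⟫_ℝ := by
  have h0 : ⟪d.R ε (d.K y), y⟫_ℝ = ⟪d.K y, d.R ε y⟫_ℝ := d.R_symm hε _ _
  set z := d.R ε y with hz
  have hy : y = d.K z + ε • z := (d.KR ε hε y).symm
  rw [h0, hy, map_add, map_smul, inner_add_left, inner_smul_left, d.K_symm,
    real_inner_self_eq_norm_sq]
  have := d.K_pos z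
  have h2 : 0 ≤ ε * ⟪d.K z, z⟫_ℝ := mul_nonneg hε.le this
  have h3 : 0 ≤ ‖d.K z‖ ^ 2 := sq_nonneg _
  simpa using add_nonneg h3 h2

lemma RR_pos {ε δ : ℝ} (hε : 0 < ε) (hδ : 0 < δ) (x : H) : 0 ≤ ⟪d.R ε (d.R δ x), x⟫_ℝ := by
  set y := d.R δ x with hy
  have hx : x = d.K y + δ • y := (d.KR δ hδ x).symm
  rw [hx, inner_add_right, inner_smul_right]
  have h1 : ⟪d.R ε y, d.K y⟫_ℝ = ⟪d.R ε (d.K y), y⟫_ℝ := by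
    rw [← d.K_symm, d.K_R_comm hε]
  rw [h1]
  have := d.RK_pos hε y
  have h2 := d.R_pos hε y
  positivity

lemma R_sub {ε δ : ℝ} (hε : 0 < ε) (hδ : 0 < δ) (x : H) :
    d.R ε x - d.R δ x = (δ - ε) • d.R ε (d.R δ x) := by
  have h1 : d.R ε x = d.R ε (d.K (d.R δ x)) + δ • d.R ε (d.R δ x) := by
    calc d.R ε x = d.R ε (d.K (d.R δ x) + δ • d.R δ x) := by rw [d.KR δ hδ x]
      _ = _ := by rw [map_add, map_smul]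
  have h2 := d.RK ε hε (d.R δ x)
  rw [sub_smul, h1]
  nth_rewrite 3 [← h2]
  abel

lemma R_mono {ε δ : ℝ} (hε : 0 < ε) (h : ε ≤ δ) (x : H) :
    ⟪d.R δ x, x⟫_ℝ ≤ ⟪d.R ε x, x⟫_ℝ := by
  have hδ : 0 < δ := hε.trans_le h
  have h1 : ⟪d.R ε x, x⟫_ℝ - ⟪d.R δ x, x⟫_ℝ = (δ - ε) * ⟪d.R ε (d.R δ x), x⟫_ℝ := by
    rw [← inner_sub_left, d.R_sub hε hδ, inner_smul_left]; simp
  have h2 := d.RR_pos hε hδ x
  nlinarith [mul_nonneg (sub_nonneg.2 h) h2]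

lemma R_R_le {ε δ : ℝ} (hε : 0 < ε) (hδ : 0 < δ) (x : H) :
    δ ^ 2 * ⟪d.R ε (d.R δ x), d.R δ x⟫_ℝ ≤ ⟪d.R ε x, x⟫_ℝ := by
  set y := d.R δ x with hy
  have hx : x = d.K y + δ • y := (d.KR δ hδ x).symm
  have e1 : ⟪d.R ε x, x⟫_ℝ = ⟪d.R ε (d.K y), d.K y⟫_ℝ + 2 * δ * ⟪d.R ε (d.K y), y⟫_ℝ
      + δ ^ 2 * ⟪d.R ε y, y⟫_ℝ := by
    have h0 : ⟪d.R ε x, x⟫_ℝ = ⟪d.R ε (d.K y + δ • y), d.K y + δ • y⟫_ℝ := by rw [← hx]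
    rw [h0]
    have h1 : ⟪d.R ε y, d.K y⟫_ℝ = ⟪d.R ε (d.K y), y⟫_ℝ := by
      rw [← d.K_symm, d.K_R_comm hε]
    rw [map_add, map_smul, inner_add_left, inner_add_right, inner_add_right, inner_smul_left,
      inner_smul_left, inner_smul_right, inner_smul_right, h1]
    simp only [conj_trivial]
    ring
  rw [e1]
  have h2 := d.R_pos hε (d.K y)
  have h3 := d.RK_pos hε y
  nlinarith [mul_nonneg hδ.le h3]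

lemma ae_R_le : ∀ᵐ x, ∀ ε > 0, ⟪d.R ε (d.Ψ x), d.Ψ x⟫_ℝ ≤ d.α x ^ 2 := by
  filter_upwards [d.lim] with x hx ε hε
  refine ge_of_tendsto hx ?_
  filter_upwards [Ioo_mem_nhdsGT hε] with δ hδ
  exact d.R_mono hδ.1 hδ.2.le _

lemma ae_sub_J_le : ∀ᵐ x, ∀ δ > 0, ‖d.Ψ x - d.J δ (d.Ψ x)‖ ^ 2 ≤ δ * d.α x ^ 2 := by
  filter_upwards [d.ae_R_le] with x hx δ hδ
  have h1 : d.Ψ x - d.J δ (d.Ψ x) = δ • d.R δ (d.Ψ x) := by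
    rw [J_apply, d.K_R_eq hδ]; abel
  rw [h1, norm_smul, Real.norm_of_nonneg hδ.le, mul_pow]
  have h2 := d.R_norm_sq_le hδ (d.Ψ x)
  have h3 := hx δ hδ
  nlinarith [mul_le_mul_of_nonneg_left (h2.trans h3) hδ.le]

/-- size of the error term `ε R_ε R_δ Ψ`. -/
lemma ae_err_le : ∀ᵐ x, ∀ ε > 0, ∀ δ > 0,
    ‖ε • d.R ε (d.R δ (d.Ψ x))‖ ^ 2 ≤ ε * (δ ^ 2)⁻¹ * d.α x ^ 2 := by
  filter_upwards [d.ae_R_le] with x hx ε hε δ hδ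
  rw [norm_smul, Real.norm_of_nonneg hε.le, mul_pow]
  have h2 := d.R_norm_sq_le hε (d.R δ (d.Ψ x))
  have h3 := d.R_R_le hε hδ (d.Ψ x)
  have h4 := hx ε hε
  have h5 : ⟪d.R ε (d.R δ (d.Ψ x)), d.R δ (d.Ψ x)⟫_ℝ ≤ (δ ^ 2)⁻¹ * d.α x ^ 2 := by
    rw [inv_mul_eq_div, le_div_iff₀ (by positivity)]
    linarith
  calc ε ^ 2 * ‖d.R ε (d.R δ (d.Ψ x))‖ ^ 2 = ε * (ε * ‖d.R ε (d.R δ (d.Ψ x))‖ ^ 2) := by ring
    _ ≤ ε * ((δ ^ 2)⁻¹ * d.α x ^ 2) := mul_le_mul_of_nonneg_left (h2.trans h5) hε.le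
    _ = _ := by ring

/-- `R_ε J_δ = R_δ - ε R_ε R_δ`. -/
lemma R_J_eq {ε : ℝ} (hε : 0 < ε) (δ : ℝ) (x : H) :
    d.R ε (d.J δ x) = d.R δ x - ε • d.R ε (d.R δ x) := by
  have h2 := d.RK ε hε (d.R δ x)
  rw [J_apply, eq_sub_iff_add_eq]
  exact h2

end UCData

end Pool.Agent.HK
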