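import Pool.Agent.HK.Cacc

/-!
# JOB OR: vanishing of infinite order at a density point of the zero set
-/

open MeasureTheory Set Filter Topology
open scoped ENNReal NNReal InnerProductSpace

namespace Pool.Agent.HK
namespace OrderAux

open CaccAux

lemma eLpNorm_two_sq {f : E3 → ℝ} (hf : MemLp f 2 volume) :
    (eLpNorm f 2 volume).toReal ^ 2 = ∫ x, f x ^ 2 := by
  rw [hf.eLpNorm_eq_integral_rpow_norm (by norm_num) (by norm_num)]
  have h0 : 0 ≤ ∫ x, ‖f x‖ ^ (ENNReal.toReal 2) := integral_nonneg fun x => by positivity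
  rw [ENNReal.toReal_ofReal (by positivity)]
  have e : ∀ x, ‖f x‖ ^ (ENNReal.toReal 2) = f x ^ 2 := by
    intro x
    have : (ENNReal.toReal 2 : ℝ) = ((2 : ℕ) : ℝ) := by simp
    rw [this, Real.rpow_natCast, Real.norm_eq_abs, sq_abs]
  simp only [e] at h0 ⊢
  rw [← Real.rpow_natCast, ← Real.rpow_mul h0]
  simp

/-- Hoelder and Sobolev on a small set, scalar version. -/
lemma sob_small {S : ℝ≥0} (hS : ∀ (u : E3 → ℝ) (D : Fin 3 → E3 → ℝ), Sob ax u D →
    eLpNorm u 6 volume ≤ S * ∑ a, eLpNorm (D a) 2 volume) {A : Set E3} {ρ : ℝ}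
    (hρ : 0 ≤ ρ) (hA : volume A ≤ ENNReal.ofReal (ρ ^ 3)) {u : E3 → ℝ} {D : Fin 3 → E3 → ℝ}
    (hu : Sob ax u D) :
    ∫ x in A, u x ^ 2 ≤ 3 * (S : ℝ) ^ 2 * ρ ^ 2 * ∑ a, ∫ x, D a x ^ 2 := by
  have h1 := eLpNorm_le_eLpNorm_mul_rpow_measure_univ (μ := volume.restrict A) (p := 2) (q := 6)
    (by norm_num) hu.memLp.1.restrict
  have h2 : eLpNorm u 6 (volume.restrict A) ≤ S * ∑ a, eLpNorm (D a) 2 volume :=
    (eLpNorm_restrict_le _ _ _ _).trans (hS u D hu)
  have h3 : (volume.restrict A) Set.univ ^ (1 / ENNReal.toReal 2 - 1 / ENNReal.toReal 6) ≤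
      ENNReal.ofReal ρ := by
    rw [Measure.restrict_apply_univ]
    have e1 : (1 / ENNReal.toReal 2 - 1 / ENNReal.toReal 6 : ℝ) = 1 / 3 := by
      simp only [ENNReal.toReal_ofNat]; norm_num
    rw [e1]
    refine (ENNReal.rpow_le_rpow hA (by norm_num)).trans ?_
    rw [ENNReal.ofReal_rpow_of_nonneg (by positivity) (by norm_num)]
    refine ENNReal.ofReal_le_ofReal ?_
    rw [← Real.rpow_natCast, ← Real.rpow_mul hρ]
    norm_num
  have h4 : eLpNorm u 2 (volume.restrict A) ≤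
      (S * ∑ a, eLpNorm (D a) 2 volume) * ENNReal.ofReal ρ :=
    h1.trans (mul_le_mul' h2 h3)
  have hfin : ∀ a, eLpNorm (D a) 2 volume ≠ ⊤ := fun a => (hu.memLp_grad a).2.ne
  have h5 : (eLpNorm u 2 (volume.restrict A)).toReal ≤
      S * (∑ a, (eLpNorm (D a) 2 volume).toReal) * ρ := by
    have h6 : (S * ∑ a, eLpNorm (D a) 2 volume) * ENNReal.ofReal ρ ≠ ⊤ :=
      ENNReal.mul_ne_top (ENNReal.mul_ne_top ENNReal.coe_ne_top
        (ENNReal.sum_ne_top.2 fun a _ => hfin a)) ENNReal.ofReal_ne_top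
    have := ENNReal.toReal_mono h6 h4
    rwa [ENNReal.toReal_mul, ENNReal.toReal_mul, ENNReal.toReal_sum (fun a _ => hfin a),
      ENNReal.toReal_ofReal hρ, ENNReal.coe_toReal] at this
  have h7 : ∫ x in A, u x ^ 2 = (eLpNorm u 2 (volume.restrict A)).toReal ^ 2 := by
    have hr : MemLp u 2 (volume.restrict A) := hu.memLp.restrict A
    rw [hr.eLpNorm_eq_integral_rpow_norm (by norm_num) (by norm_num)]
    have h0 : 0 ≤ ∫ x in A, ‖u x‖ ^ (ENNReal.toReal 2) := integral_nonneg fun x => by positivity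
    rw [ENNReal.toReal_ofReal (by positivity)]
    have e : ∀ x, ‖u x‖ ^ (ENNReal.toReal 2) = u x ^ 2 := by
      intro x
      have : (ENNReal.toReal 2 : ℝ) = ((2 : ℕ) : ℝ) := by simp
      rw [this, Real.rpow_natCast, Real.norm_eq_abs, sq_abs]
    simp only [e] at h0 ⊢
    rw [← Real.rpow_natCast, ← Real.rpow_mul h0]
    simp
  rw [h7]
  have h8 : ∀ a, ∫ x, D a x ^ 2 = (eLpNorm (D a) 2 volume).toReal ^ 2 := fun a =>
    (eLpNorm_two_sq (hu.memLp_grad a)).symm
  simp only [h8]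
  have h9 := pow_le_pow_left₀ ENNReal.toReal_nonneg h5 2
  refine h9.trans ?_
  rw [Fin.sum_univ_three, Fin.sum_univ_three]
  set a := (eLpNorm (D 0) 2 volume).toReal
  set b := (eLpNorm (D 1) 2 volume).toReal
  set c := (eLpNorm (D 2) 2 volume).toReal
  have h10 : (a + b + c) ^ 2 ≤ 3 * (a ^ 2 + b ^ 2 + c ^ 2) := by
    nlinarith [sq_nonneg (a - b), sq_nonneg (b - c), sq_nonneg (a - c)]
  calc ((S : ℝ) * (a + b + c) * ρ) ^ 2 = (S : ℝ) ^ 2 * ρ ^ 2 * (a + b + c) ^ 2 := by ring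
    _ ≤ (S : ℝ) ^ 2 * ρ ^ 2 * (3 * (a ^ 2 + b ^ 2 + c ^ 2)) :=
        mul_le_mul_of_nonneg_left h10 (by positivity)
    _ = _ := by ring

/-- Hoelder and Sobolev on a small set, vector version. -/
lemma sob_small_vec {S : ℝ≥0} (hS : ∀ (u : E3 → ℝ) (D : Fin 3 → E3 → ℝ), Sob ax u D →
    eLpNorm u 6 volume ≤ S * ∑ a, eLpNorm (D a) 2 volume) {A : Set E3} (hAm : MeasurableSet A)
    {ρ : ℝ} (hρ : 0 ≤ ρ) (hA : volume A ≤ ENNReal.ofReal (ρ ^ 3))
    {H : Type} [NormedAddCommGroup H] [InnerProductSpace ℝ H] [CompleteSpace H]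
    [SecondCountableTopology H] {X : E3 → H} {D : Fin 3 → E3 → H} (hX : Sob ax X D) :
    ∫ x in A, ‖X x‖ ^ 2 ≤ 3 * (S : ℝ) ^ 2 * ρ ^ 2 * ∑ a, ∫ x, ‖D a x‖ ^ 2 := by
  obtain ⟨ι, b, hι⟩ := exists_basis H
  have hc : MemLp (A.indicator (fun _ => (1 : ℝ))) ⊤ volume := by
    refine memLp_top_of_bound (aestronglyMeasurable_const.indicator hAm) 1 ?_
    filter_upwards with x
    by_cases hx : x ∈ A <;> simp [hx]
  have s1 : HasSum (fun i => ∫ x in A, ⟪X x, b i⟫_ℝ ^ 2) (∫ x in A, ‖X x‖ ^ 2) := by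
    have := hasSum_integral b hX.memLp.1 hX.memLp.1 hc.1
      (integrable_bdd hc (integrable_norm_sq hX.memLp))
      (integrable_bdd hc (integrable_norm_sq hX.memLp))
    have e1 : ∀ g : E3 → ℝ, ∫ x, A.indicator (fun _ => (1 : ℝ)) x * g x = ∫ x in A, g x := by
      intro g
      rw [← integral_indicator hAm]
      refine integral_congr_ae ?_
      filter_upwards with x
      by_cases hx : x ∈ A <;> simp [hx]
    simp only [e1, real_inner_self_eq_norm_sq, ← sq] at this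
    exact this
  have s2 : ∀ a, HasSum (fun i => ∫ x, ⟪D a x, b i⟫_ℝ ^ 2) (∫ x, ‖D a x‖ ^ 2) := by
    intro a
    have := hasSum_integral b (c := fun _ => 1) (hX.memLp_grad a).1 (hX.memLp_grad a).1
      aestronglyMeasurable_const (by simpa using integrable_norm_sq (hX.memLp_grad a))
      (by simpa using integrable_norm_sq (hX.memLp_grad a))
    simp only [one_mul, real_inner_self_eq_norm_sq, ← sq] at this
    exact this
  have s3 := (hasSum_sum (s := Finset.univ) fun a _ => s2 a).mul_left (3 * (S : ℝ) ^ 2 * ρ ^ 2)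
  refine hasSum_le (fun i => ?_) s1 s3
  exact sob_small hS hρ hA (sob_inner hX (b i))

/-- A density point of `B`. -/
lemma exists_density {B : Set E3} (hB : MeasurableSet B) (hpos : 0 < volume B) :
    ∃ x₀ : E3, ∀ τ : ℝ, 0 < τ → ∃ r₀ : ℝ, 0 < r₀ ∧ ∀ r : ℝ, 0 < r → r < r₀ →
      volume (Metric.closedBall x₀ r \ B) ≤ ENNReal.ofReal ((τ * r) ^ 3) := by
  have h := Besicovitch.ae_tendsto_measure_inter_div_of_measurableSet (volume : Measure E3) hB.compl
  have hex : ∃ x₀ ∈ B, Tendsto (fun r => volume (Bᶜ ∩ Metric.closedBall x₀ r) /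
      volume (Metric.closedBall x₀ r)) (𝓝[>] 0) (𝓝 ((Bᶜ).indicator 1 x₀)) := by
    by_contra hcon
    push Not at hcon
    have : B ⊆ {x | ¬ Tendsto (fun r => volume (Bᶜ ∩ Metric.closedBall x r) /
      volume (Metric.closedBall x r)) (𝓝[>] 0) (𝓝 ((Bᶜ).indicator 1 x))} := fun x hx => hcon x hx
    exact hpos.ne' (measure_mono_null this h)
  obtain ⟨x₀, hx, ht⟩ := hex
  have h0 : (Bᶜ).indicator (1 : E3 → ℝ≥0∞) x₀ = 0 := by simp [hx]
  rw [h0] at ht
  refine ⟨x₀, fun τ hτ => ?_⟩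
  set c := (volume : Measure E3).real (Metric.ball 0 1) with hc
  have hc0 : 0 < c := by
    rw [hc, Measure.real]
    exact ENNReal.toReal_pos (Metric.measure_ball_pos _ _ one_pos).ne' measure_ball_lt_top.ne
  have hθ : (0 : ℝ≥0∞) < ENNReal.ofReal (τ ^ 3 / c) := ENNReal.ofReal_pos.2 (by positivity)
  have h1 := ht.eventually (gt_mem_nhds hθ)
  rw [eventually_nhdsWithin_iff, Metric.eventually_nhds_iff] at h1
  obtain ⟨r₀, hr₀, h2⟩ := h1
  refine ⟨r₀, hr₀, fun r hr hr1 => ?_⟩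
  have h3 := (h2 (y := r) (by rw [Real.dist_eq, sub_zero, abs_of_pos hr]; exact hr1) hr).le
  have hb0 : volume (Metric.closedBall x₀ r) ≠ 0 := (Metric.measure_closedBall_pos _ _ hr).ne'
  have hbt : volume (Metric.closedBall x₀ r) ≠ ⊤ := measure_closedBall_lt_top.ne
  rw [ENNReal.div_le_iff hb0 hbt] at h3
  have e1 : Metric.closedBall x₀ r \ B = Bᶜ ∩ Metric.closedBall x₀ r := by
    rw [sdiff_eq, inter_comm]
  rw [e1]
  refine h3.trans ?_
  rw [Measure.addHaar_closedBall _ _ hr.le]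
  have e2 : (volume : Measure E3) (Metric.ball 0 1) = ENNReal.ofReal c := by
    rw [hc, Measure.real, ENNReal.ofReal_toReal measure_ball_lt_top.ne]
  rw [e2, ← ENNReal.ofReal_mul (by positivity), ← ENNReal.ofReal_mul (by positivity)]
  refine ENNReal.ofReal_le_ofReal ?_
  have : Module.finrank ℝ E3 = 3 := by simp
  rw [this]
  apply le_of_eq
  field_simp

end OrderAux

open CaccAux OrderAux in
/-- Vanishing of infinite order at a density point of the zero set. -/
theorem target_Order (hS : Target_Sobolev) (hC : Target_Cacc) : Target_Order := by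
  intro H _ _ _ _ d B hB hpos hzero
  obtain ⟨S, hS⟩ := hS
  obtain ⟨C, hC⟩ := hC H d
  obtain ⟨M₀, hM₀, hcut⟩ := exists_cutoff
  obtain ⟨x₀, hx₀⟩ := exists_density hB hpos
  refine ⟨x₀, fun M => ?_⟩
  set f : ℝ → ℝ := fun r => ∫ x in Metric.ball x₀ r, ‖d.Ψ x‖ ^ 2 with hf
  set T : ℝ := ∫ x, ‖d.Ψ x‖ ^ 2 with hT
  have hTi : Integrable (fun x => ‖d.Ψ x‖ ^ 2) volume := integrable_norm_sq d.sob.memLp
  have hT0 : 0 ≤ T := integral_nonneg fun x => by positivity
  have hf0 : ∀ r, 0 ≤ f r := fun r => integral_nonneg fun x => by positivity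
  have hfT : ∀ r, f r ≤ T := fun r =>
    setIntegral_le_integral hTi (by filter_upwards with x; positivity)
  have hfm : ∀ {r s : ℝ}, r ≤ s → f r ≤ f s := by
    intro r s hrs
    refine setIntegral_mono_set hTi.integrableOn (by filter_upwards with x; positivity) ?_
    exact (Metric.ball_subset_ball hrs).eventuallyLE
  -- the basic step
  set C' : ℝ := 3 * (S : ℝ) ^ 2 * (2 * |C| + 6 * M₀ ^ 2) with hC'
  have hC'0 : 0 ≤ C' := by positivity
  have step : ∀ (τ r : ℝ), 0 < τ → 0 < r → r ≤ 1 / 2 →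
      volume (Metric.closedBall x₀ r \ B) ≤ ENNReal.ofReal ((τ * r) ^ 3) →
      f r ≤ C' * τ ^ 2 * f (4 * r) := by
    intro τ r hτ hr hr2 hvol
    obtain ⟨χ, hχ, h01, hone, hzer, hder⟩ := hcut x₀ r hr
    have hsm := sob_small_vec hS (A := Metric.ball x₀ r \ B)
      (Metric.isOpen_ball.measurableSet.diff hB) (ρ := τ * r) (by positivity)
      ((measure_mono (sdiff_subset_sdiff_left Metric.ball_subset_closedBall)).trans hvol)
      (sob_smul hχ d.sob)
    have e1 : f r = ∫ x in Metric.ball x₀ r \ B, ‖χ x • d.Ψ x‖ ^ 2 := by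
      have h1 : f r = ∫ x in Metric.ball x₀ r \ B, ‖d.Ψ x‖ ^ 2 := by
        have hu : Metric.ball x₀ r = (Metric.ball x₀ r \ B) ∪ (Metric.ball x₀ r ∩ B) :=
          (sdiff_union_inter _ _).symm
        have hd : Disjoint (Metric.ball x₀ r \ B) (Metric.ball x₀ r ∩ B) :=
          disjoint_sdiff_inter.mono le_rfl le_rfl
        have h2 : ∫ x in Metric.ball x₀ r ∩ B, ‖d.Ψ x‖ ^ 2 = 0 := by
          rw [setIntegral_eq_zero_of_ae_eq_zero]
          filter_upwards [hzero] with x hx hxb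
          rw [hx hxb.2]; simp
        simp only [hf]
        conv_lhs => rw [hu]
        rw [setIntegral_union hd (Metric.isOpen_ball.measurableSet.inter hB) hTi.integrableOn
          hTi.integrableOn, h2, add_zero]
      rw [h1]
      refine setIntegral_congr_fun (Metric.isOpen_ball.measurableSet.diff hB) ?_
      intro x hx
      simp only [hone x hx.1, one_smul]
    rw [← e1] at hsm
    -- bound of the gradient terms
    have hg : ∀ a, ∫ x, ‖χ x • d.D a x + fderiv ℝ χ x (ax a) • d.Ψ x‖ ^ 2 ≤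
        2 * (∫ x in Metric.ball x₀ (2 * r), ‖d.D a x‖ ^ 2) +
          2 * (M₀ / r) ^ 2 * f (2 * r) := by
      intro a
      have iD : Integrable (fun x => ‖d.D a x‖ ^ 2) volume :=
        integrable_norm_sq (d.sob.memLp_grad a)
      have e2 : ∫ x, ‖χ x • d.D a x + fderiv ℝ χ x (ax a) • d.Ψ x‖ ^ 2 =
          ∫ x in Metric.ball x₀ (2 * r), ‖χ x • d.D a x + fderiv ℝ χ x (ax a) • d.Ψ x‖ ^ 2 := by
        rw [setIntegral_eq_integral_of_forall_compl_eq_zero]
        intro x hx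
        obtain ⟨h1, h2⟩ := hzer x hx
        simp [h1, h2]
      rw [e2, hf]
      rw [← integral_const_mul, ← integral_const_mul,
        ← integral_add (iD.integrableOn.const_mul _) (hTi.integrableOn.const_mul _)]
      refine integral_mono ?_ ((iD.integrableOn.const_mul _).add (hTi.integrableOn.const_mul _)) ?_
      · exact (integrable_norm_sq ((sob_smul hχ d.sob).memLp_grad a)).integrableOn
      intro x
      have h1 : ‖χ x • d.D a x + fderiv ℝ χ x (ax a) • d.Ψ x‖ ≤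
          ‖d.D a x‖ + M₀ / r * ‖d.Ψ x‖ := by
        refine (norm_add_le _ _).trans ?_
        rw [norm_smul, norm_smul, Real.norm_eq_abs, Real.norm_eq_abs]
        refine add_le_add ?_ (mul_le_mul_of_nonneg_right (hder x a) (norm_nonneg _))
        have : |χ x| ≤ 1 := by
          rw [abs_of_nonneg (h01 x).1]; exact (h01 x).2
        exact mul_le_of_le_one_left (norm_nonneg _) this
      have h2 := pow_le_pow_left₀ (norm_nonneg _) h1 2
      refine h2.trans ?_
      nlinarith [sq_nonneg (‖d.D a x‖ - M₀ / r * ‖d.Ψ x‖)]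
    have hcac := hC x₀ (2 * r) (by linarith) (by linarith)
    have hcac2 : ∑ a, ∫ x in Metric.ball x₀ (2 * r), ‖d.D a x‖ ^ 2 ≤
        |C| / r ^ 2 * f (4 * r) := by
      have ia : Integrable (fun x => d.α x ^ 2) volume := by
        have := integrable_norm_sq (H := ℝ) d.memα
        simpa using this
      have iD : ∀ a, Integrable (fun x => ‖d.D a x‖ ^ 2) volume := fun a =>
        integrable_norm_sq (d.sob.memLp_grad a)
      have h1 : ∑ a, ∫ x in Metric.ball x₀ (2 * r), ‖d.D a x‖ ^ 2 ≤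
          ∫ x in Metric.ball x₀ (2 * r), ((∑ a, ‖d.D a x‖ ^ 2) + d.α x ^ 2) := by
        rw [← integral_finsetSum _ (fun a _ => (iD a).integrableOn)]
        refine integral_mono (integrable_finsetSum _ fun a _ => (iD a).integrableOn)
          ((integrable_finsetSum _ fun a _ => (iD a).integrableOn).add ia.integrableOn) ?_
        intro x
        simp only [Pi.add_apply]
        nlinarith [sq_nonneg (d.α x)]
      refine h1.trans (hcac.trans ?_)
      have e3 : 2 * (2 * r) = 4 * r := by ring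
      rw [e3]
      have h2 : C / (2 * r) ^ 2 ≤ |C| / r ^ 2 := by
        have h3 : C / (2 * r) ^ 2 ≤ |C| / (2 * r) ^ 2 :=
          div_le_div_of_nonneg_right (le_abs_self C) (by positivity)
        refine h3.trans (div_le_div_of_nonneg_left (abs_nonneg _) (by positivity) ?_)
        nlinarith
      exact mul_le_mul_of_nonneg_right h2 (hf0 _)
    have hsum : ∑ a, ∫ x, ‖χ x • d.D a x + fderiv ℝ χ x (ax a) • d.Ψ x‖ ^ 2 ≤
        (2 * |C| + 6 * M₀ ^ 2) / r ^ 2 * f (4 * r) := by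
      have h1 : ∑ a, ∫ x, ‖χ x • d.D a x + fderiv ℝ χ x (ax a) • d.Ψ x‖ ^ 2 ≤
          ∑ a : Fin 3, (2 * (∫ x in Metric.ball x₀ (2 * r), ‖d.D a x‖ ^ 2) +
            2 * (M₀ / r) ^ 2 * f (2 * r)) := Finset.sum_le_sum fun a _ => hg a
      refine h1.trans ?_
      rw [Finset.sum_add_distrib, ← Finset.mul_sum]
      have h2 : ∑ _a : Fin 3, 2 * (M₀ / r) ^ 2 * f (2 * r) = 6 * (M₀ / r) ^ 2 * f (2 * r) := by
        simp; ring
      rw [h2]
      have h3 : f (2 * r) ≤ f (4 * r) := hfm (by linarith)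
      have h4 : 6 * (M₀ / r) ^ 2 * f (2 * r) ≤ 6 * (M₀ / r) ^ 2 * f (4 * r) :=
        mul_le_mul_of_nonneg_left h3 (by positivity)
      have h5 : (2 * |C| + 6 * M₀ ^ 2) / r ^ 2 * f (4 * r) =
          2 * (|C| / r ^ 2 * f (4 * r)) + 6 * (M₀ / r) ^ 2 * f (4 * r) := by
        rw [div_pow]; ring
      rw [h5]
      linarith
    refine hsm.trans ?_
    have h6 : 3 * (S : ℝ) ^ 2 * (τ * r) ^ 2 *
        ∑ a, ∫ x, ‖χ x • d.D a x + fderiv ℝ χ x (ax a) • d.Ψ x‖ ^ 2 ≤
        3 * (S : ℝ) ^ 2 * (τ * r) ^ 2 * ((2 * |C| + 6 * M₀ ^ 2) / r ^ 2 * f (4 * r)) :=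
      mul_le_mul_of_nonneg_left hsum (by positivity)
    refine h6.trans (le_of_eq ?_)
    rw [hC']
    field_simp
  -- choose τ for the given M
  set τ : ℝ := Real.sqrt (1 / ((C' + 1) * 4 ^ M)) with hτ
  have hτ0 : 0 < τ := Real.sqrt_pos.2 (by positivity)
  have hτ2 : C' * τ ^ 2 ≤ 1 / 4 ^ M := by
    rw [hτ, Real.sq_sqrt (by positivity)]
    rw [mul_one_div, div_le_div_iff₀ (by positivity) (by positivity)]
    nlinarith [pow_pos (show (0 : ℝ) < 4 by norm_num) M]
  obtain ⟨r₀, hr₀, hvol⟩ := hx₀ τ hτ0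
  set r₁ : ℝ := min r₀ (1 / 2) with hr₁
  have hr₁0 : 0 < r₁ := lt_min hr₀ (by norm_num)
  have hstep2 : ∀ r, 0 < r → r < r₁ → f r ≤ 1 / 4 ^ M * f (4 * r) := by
    intro r hr hr1
    have h1 := step τ r hτ0 hr (hr1.le.trans (min_le_right _ _))
      (hvol r hr (hr1.trans_le (min_le_left _ _)))
    exact h1.trans (mul_le_mul_of_nonneg_right hτ2 (hf0 _))
  have hind : ∀ n : ℕ, ∀ r, 0 < r → r₁ / 4 ^ n ≤ r → f r ≤ T * (r / r₁) ^ M := by
    intro n
    induction n with
    | zero =>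
      intro r hr hr1
      rw [pow_zero, div_one] at hr1
      have : 1 ≤ (r / r₁) ^ M := one_le_pow₀ ((one_le_div hr₁0).2 hr1)
      exact (hfT r).trans (le_mul_of_one_le_right hT0 this)
    | succ n ih =>
      intro r hr hr1
      by_cases h : r₁ ≤ r
      · have : 1 ≤ (r / r₁) ^ M := one_le_pow₀ ((one_le_div hr₁0).2 h)
        exact (hfT r).trans (le_mul_of_one_le_right hT0 this)
      · push Not at h
        have h1 := hstep2 r hr h
        have h2 := ih (4 * r) (by linarith) (by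
          rw [pow_succ, ← div_div] at hr1
          linarith [(div_le_iff₀ (by norm_num : (0 : ℝ) < 4)).1 hr1])
        refine h1.trans ?_
        have h3 : 1 / 4 ^ M * f (4 * r) ≤ 1 / 4 ^ M * (T * (4 * r / r₁) ^ M) :=
          mul_le_mul_of_nonneg_left h2 (by positivity)
        refine h3.trans (le_of_eq ?_)
        rw [mul_div_assoc, mul_pow]
        have : (4 : ℝ) ^ M ≠ 0 := by positivity
        field_simp
  refine ⟨T / r₁ ^ M, fun r hr _ => ?_⟩
  obtain ⟨n, hn⟩ := exists_pow_lt_of_lt_one (show 0 < r / r₁ by positivity)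
    (show (1 / 4 : ℝ) < 1 by norm_num)
  have h1 := hind n r hr (by
    rw [one_div, inv_pow, lt_div_iff₀ hr₁0] at hn
    rw [div_eq_inv_mul]
    exact hn.le)
  refine h1.trans (le_of_eq ?_)
  rw [div_pow]; ring

end Pool.Agent.HK
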