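import Pool.Agent.HK.Spec

/-!
# HK-KE1: the solution of `φ'' = (ν² + λ e^{2t}) φ` which is small at `-∞`
-/

open MeasureTheory Set Filter Topology

namespace Pool.Agent.HK.Phi

/-- coefficients `λ^k / (4^k k! (ν+1)⋯(ν+k))` -/
noncomputable def c (ν lam : ℝ) : ℕ → ℝ
  | 0 => 1
  | k + 1 => c ν lam k * lam / (4 * (k + 1) * (ν + (k + 1)))

/-- exponents -/
noncomputable def mu (ν : ℝ) (k : ℕ) : ℝ := ν + 2 * k

variable {ν lam : ℝ}

lemma c_nonneg (hν : 0 < ν) (hl : 0 ≤ lam) (k : ℕ) : 0 ≤ c ν lam k := by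
  induction k with
  | zero => simp [c]
  | succ k ih => simp only [c]; positivity

lemma c_le (hν : 0 < ν) (hl : 0 ≤ lam) (k : ℕ) :
    c ν lam k ≤ (lam / 4) ^ k / (k.factorial : ℝ) := by
  induction k with
  | zero => simp [c]
  | succ k ih =>
    have h0 := c_nonneg hν hl k
    simp only [c]
    rw [Nat.factorial_succ, div_le_div_iff₀ (by positivity) (by positivity)]
    rw [le_div_iff₀ (by positivity)] at ih
    push_cast
    have h1 : c ν lam k * lam * ((k + 1) * (k.factorial : ℝ)) ≤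
        (lam / 4) ^ k * lam * (k + 1) := by
      have := mul_le_mul_of_nonneg_right ih (show (0:ℝ) ≤ lam * (k + 1) by positivity)
      nlinarith [this]
    have h2 : (1 : ℝ) ≤ ν + (k + 1) := by
      have : (0 : ℝ) ≤ k := by positivity
      linarith
    calc c ν lam k * lam * ((k + 1) * (k.factorial : ℝ)) ≤ (lam / 4) ^ k * lam * (k + 1) := h1
      _ ≤ (lam / 4) ^ k * lam * (k + 1) * (ν + (k + 1)) := by
          have h3 : (0:ℝ) ≤ (lam / 4) ^ k * lam * (k + 1) := by positivity
          nlinarith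
      _ = (lam / 4) ^ (k + 1) * (4 * (k + 1) * (ν + (k + 1))) := by ring

lemma mu_pos (hν : 0 < ν) (k : ℕ) : 0 < mu ν k := by unfold mu; positivity

lemma summ (hν : 0 < ν) (hl : 0 ≤ lam) (t : ℝ) :
    Summable (fun k => c ν lam k * mu ν k ^ 2 * Real.exp (mu ν k * t)) := by
  have hs := (Real.summable_pow_div_factorial (lam * Real.exp (2 * t))).mul_left
    ((ν + 2) ^ 2 * Real.exp (ν * t))
  refine Summable.of_nonneg_of_le (fun k => ?_) (fun k => ?_) hs
  · have := c_nonneg hν hl k
    positivity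
  · have h1 := c_le hν hl k
    have h0 := c_nonneg hν hl k
    have hm := mu_pos hν k
    have h2 : mu ν k ≤ (ν + 2) * 2 ^ k := by
      unfold mu
      have h3 : (k : ℝ) + 1 ≤ 2 ^ k := by
        have := Nat.lt_two_pow_self (n := k)
        exact_mod_cast this
      have h4 : (0:ℝ) ≤ k := by positivity
      nlinarith
    have h5 : mu ν k ^ 2 ≤ (ν + 2) ^ 2 * 4 ^ k := by
      calc mu ν k ^ 2 ≤ ((ν + 2) * 2 ^ k) ^ 2 := by gcongr
        _ = (ν + 2) ^ 2 * 4 ^ k := by
          rw [mul_pow, ← pow_mul, mul_comm k 2, pow_mul]; norm_num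
    have h6 : Real.exp (mu ν k * t) = Real.exp (ν * t) * Real.exp (2 * t) ^ k := by
      rw [← Real.exp_nat_mul, ← Real.exp_add]; unfold mu; congr 1; ring
    rw [h6]
    calc c ν lam k * mu ν k ^ 2 * (Real.exp (ν * t) * Real.exp (2 * t) ^ k)
        ≤ ((lam / 4) ^ k / (k.factorial : ℝ)) * ((ν + 2) ^ 2 * 4 ^ k) *
          (Real.exp (ν * t) * Real.exp (2 * t) ^ k) := by gcongr
      _ = (ν + 2) ^ 2 * Real.exp (ν * t) *
          ((lam * Real.exp (2 * t)) ^ k / (k.factorial : ℝ)) := by
          rw [mul_pow, div_pow]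
          field_simp

lemma summ1 (hν : 0 < ν) (hl : 0 ≤ lam) (t : ℝ) :
    Summable (fun k => c ν lam k * mu ν k * Real.exp (mu ν k * t)) := by
  have hs := (summ hν hl t).mul_left (1 / ν)
  refine Summable.of_nonneg_of_le (fun k => ?_) (fun k => ?_) hs
  · have := c_nonneg hν hl k
    have := mu_pos hν k
    positivity
  · have h0 := c_nonneg hν hl k
    have hm := mu_pos hν k
    have h1 : 1 ≤ 1 / ν * mu ν k := by
      rw [one_div, ← div_eq_inv_mul, le_div_iff₀ hν]; unfold mu
      have : (0:ℝ) ≤ k := by positivity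
      linarith
    calc c ν lam k * mu ν k * Real.exp (mu ν k * t)
        = c ν lam k * mu ν k * Real.exp (mu ν k * t) * 1 := by ring
      _ ≤ c ν lam k * mu ν k * Real.exp (mu ν k * t) * (1 / ν * mu ν k) := by gcongr
      _ = 1 / ν * (c ν lam k * mu ν k ^ 2 * Real.exp (mu ν k * t)) := by ring

lemma summ0 (hν : 0 < ν) (hl : 0 ≤ lam) (t : ℝ) :
    Summable (fun k => c ν lam k * Real.exp (mu ν k * t)) := by
  have hs := (summ1 hν hl t).mul_left (1 / ν)
  refine Summable.of_nonneg_of_le (fun k => ?_) (fun k => ?_) hs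
  · have := c_nonneg hν hl k
    positivity
  · have h0 := c_nonneg hν hl k
    have hm := mu_pos hν k
    have h1 : 1 ≤ 1 / ν * mu ν k := by
      rw [one_div, ← div_eq_inv_mul, le_div_iff₀ hν]; unfold mu
      have : (0:ℝ) ≤ k := by positivity
      linarith
    calc c ν lam k * Real.exp (mu ν k * t)
        = c ν lam k * Real.exp (mu ν k * t) * 1 := by ring
      _ ≤ c ν lam k * Real.exp (mu ν k * t) * (1 / ν * mu ν k) := by gcongr
      _ = 1 / ν * (c ν lam k * mu ν k * Real.exp (mu ν k * t)) := by ring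

/-- termwise differentiation -/
lemma hasDeriv (a : ℕ → ℝ) (hν : 0 < ν) (ha : ∀ k, 0 ≤ a k)
    (h0 : ∀ t, Summable fun k => a k * Real.exp (mu ν k * t))
    (h1 : ∀ t, Summable fun k => a k * mu ν k * Real.exp (mu ν k * t)) (t : ℝ) :
    HasDerivAt (fun t => ∑' k, a k * Real.exp (mu ν k * t))
      (∑' k, a k * mu ν k * Real.exp (mu ν k * t)) t := by
  refine hasDerivAt_tsum_of_isPreconnected (g := fun k t => a k * Real.exp (mu ν k * t))
    (g' := fun k t => a k * mu ν k * Real.exp (mu ν k * t))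
    (u := fun k => a k * mu ν k * Real.exp (mu ν k * (t + 1)))
    (t := Iio (t + 1)) (y₀ := t) (y := t) (h1 (t + 1)) isOpen_Iio (convex_Iio _).isPreconnected ?_ ?_
    (mem_Iio.2 (lt_add_one t)) (h0 t) (mem_Iio.2 (lt_add_one t))
  · intro k y _
    have h := ((hasDerivAt_id y).const_mul (mu ν k)).exp.const_mul (a k)
    refine h.congr_deriv ?_
    simp; ring
  · intro k y hy
    have hm := mu_pos hν k
    have hk := ha k
    rw [Real.norm_of_nonneg (by positivity)]
    have : y ≤ t + 1 := le_of_lt hy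
    gcongr

end Pool.Agent.HK.Phi

open Pool.Agent.HK.Phi in
/-- JOB KE1. -/
theorem Pool.Agent.HK.target_Phi : Pool.Agent.HK.Target_Phi := by
  intro ν lam hν hl
  set φ : ℝ → ℝ := fun t => ∑' k, c ν lam k * Real.exp (mu ν k * t) with hφ
  set φ' : ℝ → ℝ := fun t => ∑' k, c ν lam k * mu ν k * Real.exp (mu ν k * t) with hφ'
  have hc := fun k => c_nonneg hν hl k
  have hm := fun k => mu_pos hν k
  have d1 : ∀ t, HasDerivAt φ (φ' t) t := fun t =>
    hasDeriv (c ν lam) hν hc (summ0 hν hl) (summ1 hν hl) t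
  have d2' : ∀ t, HasDerivAt φ' (∑' k, c ν lam k * mu ν k * mu ν k * Real.exp (mu ν k * t)) t := by
    intro t
    refine hasDeriv (fun k => c ν lam k * mu ν k) hν (fun k => mul_nonneg (hc k) (hm k).le)
      (summ1 hν hl) (fun t => ?_) t
    refine (summ hν hl t).congr fun k => ?_
    ring
  have d2 : ∀ t, HasDerivAt φ' ((ν ^ 2 + lam * Real.exp (2 * t)) * φ t) t := by
    intro t
    refine (d2' t).congr_deriv ?_
    have e0 := summ0 hν hl t
    have e2 : Summable fun k => c ν lam k * (4 * k * (ν + k)) * Real.exp (mu ν k * t) := by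
      have := (summ hν hl t).sub (e0.mul_left (ν ^ 2))
      refine this.congr fun k => ?_
      unfold mu; ring
    have s1 : ∑' k, c ν lam k * mu ν k * mu ν k * Real.exp (mu ν k * t) =
        ν ^ 2 * φ t + ∑' k, c ν lam k * (4 * k * (ν + k)) * Real.exp (mu ν k * t) := by
      rw [hφ]
      simp only
      rw [← tsum_mul_left, ← (e0.mul_left (ν ^ 2)).tsum_add e2]
      refine tsum_congr fun k => ?_
      unfold mu; ring
    have s2 : ∑' k, c ν lam k * (4 * k * (ν + k)) * Real.exp (mu ν k * t) =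
        lam * Real.exp (2 * t) * φ t := by
      rw [e2.tsum_eq_zero_add, hφ]
      simp only
      rw [← tsum_mul_left]
      simp only [Nat.cast_zero, mul_zero, zero_mul, zero_add]
      refine tsum_congr fun k => ?_
      have h1 : c ν lam (k + 1) * (4 * ((k + 1 : ℕ) : ℝ) * (ν + ((k + 1 : ℕ) : ℝ))) =
          lam * c ν lam k := by
        simp only [c]
        push_cast
        field_simp
      have h2 : Real.exp (mu ν (k + 1) * t) = Real.exp (2 * t) * Real.exp (mu ν k * t) := by
        rw [← Real.exp_add]; unfold mu; congr 1; push_cast; ring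
      rw [h1, h2]; ring
    rw [s1, s2]; ring
  have p0 : ∀ t, 0 < φ t := by
    intro t
    refine (summ0 hν hl t).tsum_pos (fun k => ?_) 0 ?_
    · have := hc k
      positivity
    · simp [c]; positivity
  have g1 : ∀ t, ν * φ t ≤ φ' t := by
    intro t
    rw [hφ, hφ']
    simp only
    rw [← tsum_mul_left]
    refine ((summ0 hν hl t).mul_left ν).tsum_le_tsum (fun k => ?_) (summ1 hν hl t)
    have h1 := hc k
    have h2 : ν ≤ mu ν k := by
      unfold mu
      have : (0:ℝ) ≤ k := by positivity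
      linarith
    calc ν * (c ν lam k * Real.exp (mu ν k * t)) = c ν lam k * ν * Real.exp (mu ν k * t) := by ring
      _ ≤ c ν lam k * mu ν k * Real.exp (mu ν k * t) := by gcongr
  have p1 : ∀ t, 0 < φ' t := fun t => lt_of_lt_of_le (mul_pos hν (p0 t)) (g1 t)
  refine ⟨φ, φ', d1, d2, p0, g1, ?_⟩
  -- `Q = α²φ² - φ'²` is increasing
  set Q : ℝ → ℝ := fun t => (ν ^ 2 + lam * Real.exp (2 * t)) * φ t ^ 2 - φ' t ^ 2 with hQ
  have dQ : ∀ t, HasDerivAt Q (2 * lam * Real.exp (2 * t) * φ t ^ 2) t := by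
    intro t
    have e1 : HasDerivAt (fun t => ν ^ 2 + lam * Real.exp (2 * t)) (2 * lam * Real.exp (2 * t)) t := by
      have := (((hasDerivAt_id t).const_mul 2).exp.const_mul lam).const_add (ν ^ 2)
      refine this.congr_deriv ?_
      simp; ring
    have e2 := ((e1.mul ((d1 t).pow 2)).sub ((d2 t).pow 2))
    refine e2.congr_deriv ?_
    simp only [Nat.cast_ofNat, Nat.add_one_sub_one, pow_one, Pi.pow_apply]
    ring
  have mQ : Monotone Q := by
    refine monotone_of_deriv_nonneg (fun t => (dQ t).differentiableAt) (fun t => ?_)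
    rw [(dQ t).deriv]
    positivity
  have lim : ∀ s t, s ≤ t → φ' s ≤ Real.exp (ν * (s - t)) * φ' t := by
    intro s t hst
    rw [hφ']
    simp only
    rw [← tsum_mul_left]
    refine (summ1 hν hl s).tsum_le_tsum (fun k => ?_) ((summ1 hν hl t).mul_left _)
    have h1 := hc k
    have h2 := hm k
    have h3 : Real.exp (mu ν k * s) ≤ Real.exp (ν * (s - t)) * Real.exp (mu ν k * t) := by
      rw [← Real.exp_add]
      apply Real.exp_le_exp.2
      unfold mu
      have : (0:ℝ) ≤ k := by positivity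
      nlinarith
    calc c ν lam k * mu ν k * Real.exp (mu ν k * s)
        ≤ c ν lam k * mu ν k * (Real.exp (ν * (s - t)) * Real.exp (mu ν k * t)) := by gcongr
      _ = _ := by ring
  have Qn : ∀ t, 0 ≤ Q t := by
    intro t
    have h1 : ∀ s ≤ t, -(Real.exp (ν * (s - t)) * φ' t) ^ 2 ≤ Q t := by
      intro s hs
      have h2 := mQ hs
      have h3 := lim s t hs
      have h4 := p1 s
      have h5 : φ' s ^ 2 ≤ (Real.exp (ν * (s - t)) * φ' t) ^ 2 := by gcongr
      have h6 : -(φ' s ^ 2) ≤ Q s := by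
        simp only [hQ]
        have : 0 ≤ (ν ^ 2 + lam * Real.exp (2 * s)) * φ s ^ 2 := by positivity
        linarith
      linarith
    have h7 : Tendsto (fun s => -(Real.exp (ν * (s - t)) * φ' t) ^ 2) atBot (𝓝 (-(0 * φ' t) ^ 2)) := by
      refine ((Tendsto.mul_const _ ?_).pow 2).neg
      refine Real.tendsto_exp_atBot.comp ?_
      exact (tendsto_atBot_add_const_right _ _ tendsto_id).const_mul_atBot hν
    have h8 := ge_of_tendsto' (b := Q t) (a := -(0 * φ' t) ^ 2)
      (f := fun s => -(Real.exp (ν * (s - t)) * φ' t) ^ 2) (x := atBot)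
    have h9 := le_of_tendsto h7 (Filter.eventually_atBot.2 ⟨t, h1⟩)
    simpa using h9
  intro t
  have h1 := Qn t
  have h2 : φ' t ^ 2 ≤ (Real.sqrt (ν ^ 2 + lam * Real.exp (2 * t)) * φ t) ^ 2 := by
    rw [mul_pow, Real.sq_sqrt (by positivity)]
    simp only [hQ] at h1
    linarith
  exact le_of_sq_le_sq h2 (by have := p0 t; positivity)
where
  le_of_sq_le_sq {a b : ℝ} (h : a ^ 2 ≤ b ^ 2) (hb : 0 ≤ b) : a ≤ b := by
    exact abs_le_of_sq_le_sq' h hb |>.2
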