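import Pool.Agent.HK.Spec

/-!
Logarithmic polar coordinates in `ℝ³` (job PO).
-/

open MeasureTheory Set Filter Topology
open scoped ENNReal NNReal InnerProductSpace

namespace Pool.Agent.HK

namespace PolarJ

/-- The polar coordinate map. -/
noncomputable def Phi (p : ℝ × S2) : E3 := Real.exp p.1 • (p.2 : E3)

theorem measurable_Phi : Measurable Phi := by
  unfold Phi
  fun_prop

theorem finrank_E3 : Module.finrank ℝ E3 = 3 := by simp

theorem polar_Ioi (g : E3 → ℝ≥0∞) (hg : Measurable g) :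
    ∫⁻ x, g x = ∫⁻ r in Ioi (0 : ℝ), ENNReal.ofReal (r ^ 2) * ∫⁻ ω : S2, g (r • (ω : E3)) ∂sig := by
  have hm := (volume : Measure E3).measurePreserving_homeomorphUnitSphereProd
  have h1 : ∫⁻ x, g x = ∫⁻ x : ({0}ᶜ : Set E3), g x ∂(Measure.comap (↑) (volume : Measure E3)) := by
    rw [lintegral_subtype_comap (measurableSet_singleton (0 : E3)).compl g,
      restrict_compl_singleton]
  have h2 : ∫⁻ x : ({0}ᶜ : Set E3), g x ∂(Measure.comap (↑) (volume : Measure E3)) =
      ∫⁻ p : S2 × Ioi (0 : ℝ), g ((p.2 : ℝ) • (p.1 : E3))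
        ∂((volume : Measure E3).toSphere.prod (Measure.volumeIoiPow (Module.finrank ℝ E3 - 1))) := by
    rw [← hm.lintegral_comp_emb (Homeomorph.measurableEmbedding _)]
    refine lintegral_congr fun x => ?_
    have hx : ‖(x : E3)‖ ≠ 0 := norm_ne_zero_iff.2 x.2
    have : ((homeomorphUnitSphereProd E3 x).2 : ℝ) • ((homeomorphUnitSphereProd E3 x).1 : E3) =
        (x : E3) := by
      simp [smul_smul, mul_inv_cancel₀ hx]
    rw [this]
  have h3 : Measurable fun p : S2 × Ioi (0 : ℝ) => g ((p.2 : ℝ) • (p.1 : E3)) :=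
    hg.comp (by fun_prop)
  rw [h1, h2, finrank_E3, lintegral_prod_symm' _ h3]
  unfold Measure.volumeIoiPow
  rw [lintegral_withDensity_eq_lintegral_mul _ (by fun_prop)]
  · rw [← lintegral_subtype_comap measurableSet_Ioi
      (fun r => ENNReal.ofReal (r ^ 2) * ∫⁻ ω : S2, g (r • (ω : E3)) ∂sig)]
    rfl
  · exact Measurable.lintegral_prod_left' (f := fun p : S2 × Ioi (0 : ℝ) =>
      g ((p.2 : ℝ) • (p.1 : E3))) h3

theorem exp_image : Real.exp '' univ = Ioi (0 : ℝ) := by
  rw [image_univ, Real.range_exp]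

theorem polar (g : E3 → ℝ≥0∞) (hg : Measurable g) :
    ∫⁻ x, g x =
      ∫⁻ t : ℝ, ENNReal.ofReal (Real.exp (3 * t)) *
        ∫⁻ ω : S2, g (Real.exp t • (ω : E3)) ∂sig := by
  rw [polar_Ioi g hg, ← exp_image,
    lintegral_image_eq_lintegral_abs_deriv_mul (f' := Real.exp) MeasurableSet.univ
      (fun x _ => (Real.hasDerivAt_exp x).hasDerivWithinAt) Real.exp_injective.injOn,
    setLIntegral_univ]
  refine lintegral_congr fun t => ?_
  rw [← mul_assoc, ← ENNReal.ofReal_mul (abs_nonneg _), abs_of_pos (Real.exp_pos t),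
    ← Real.exp_nat_mul, ← Real.exp_add]
  congr 3
  push_cast
  ring

/-- The measure on the cylinder. -/
noncomputable def nu : Measure (ℝ × S2) :=
  ((volume : Measure ℝ).withDensity (fun t => ENNReal.ofReal (Real.exp (3 * t)))).prod sig

theorem meas_dens : Measurable (fun t : ℝ => ENNReal.ofReal (Real.exp (3 * t))) := by
  fun_prop

instance : SFinite sig := by unfold sig; infer_instance

theorem lintegral_nu (f : ℝ × S2 → ℝ≥0∞) (hf : Measurable f) :
    ∫⁻ p, f p ∂nu = ∫⁻ t : ℝ, ENNReal.ofReal (Real.exp (3 * t)) * ∫⁻ ω : S2, f (t, ω) ∂sig := by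
  unfold nu
  rw [lintegral_prod _ hf.aemeasurable, lintegral_withDensity_eq_lintegral_mul _ meas_dens]
  · rfl
  · exact hf.lintegral_prod_right'

theorem mp : MeasurePreserving Phi nu volume := by
  refine ⟨measurable_Phi, ?_⟩
  ext s hs
  have hi : Measurable (s.indicator (1 : E3 → ℝ≥0∞)) := measurable_one.indicator hs
  rw [← lintegral_indicator_one hs, ← lintegral_indicator_one hs,
    lintegral_map hi measurable_Phi, polar _ hi, lintegral_nu]
  · rfl
  · exact hi.comp measurable_Phi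

theorem polarBochner (g : E3 → ℝ) (hg : Integrable g volume) :
    ∫ x, g x = ∫ t : ℝ, Real.exp (3 * t) * ∫ ω : S2, g (Real.exp t • (ω : E3)) ∂sig := by
  have h1 : ∫ x, g x = ∫ p, g (Phi p) ∂nu := by
    rw [← mp.map_eq, integral_map measurable_Phi.aemeasurable]
    rw [mp.map_eq]
    exact hg.aestronglyMeasurable
  have h2 : Integrable (fun p => g (Phi p)) nu := mp.integrable_comp_of_integrable hg
  rw [h1]
  unfold nu at h2 ⊢
  rw [integral_prod _ h2]
  have hd : Measurable (fun t : ℝ => (Real.exp (3 * t)).toNNReal) := by fun_prop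
  have h3 : ((volume : Measure ℝ).withDensity (fun t => ENNReal.ofReal (Real.exp (3 * t)))) =
      (volume : Measure ℝ).withDensity
        (fun t => (((Real.exp (3 * t)).toNNReal : ℝ≥0) : ℝ≥0∞)) := rfl
  rw [h3, integral_withDensity_eq_integral_smul hd]
  refine integral_congr_ae (Eventually.of_forall fun t => ?_)
  simp only [NNReal.smul_def, smul_eq_mul, Real.coe_toNNReal _ (Real.exp_pos _).le]
  rfl

/-- The norm transfer. -/
theorem norm_transfer (p : ℝ≥0∞) (hp0 : p ≠ 0) (hp : p ≠ ⊤) (F : E3 → ℝ) (hF : Measurable F)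
    (G : ℝ × S2 → ℝ) (hG : Measurable G)
    (h : ∀ (t : ℝ) (ω : S2), |G (t, ω)| = Real.exp (3 * t / p.toReal) * |F (Real.exp t • (ω : E3))|) :
    eLpNorm F p volume = eLpNorm G p ((volume : Measure ℝ).prod sig) := by
  have hp' : 0 < p.toReal := ENNReal.toReal_pos hp0 hp
  rw [eLpNorm_eq_lintegral_rpow_enorm_toReal hp0 hp, eLpNorm_eq_lintegral_rpow_enorm_toReal hp0 hp,
    polar _ (by fun_prop), lintegral_prod _ (by fun_prop)]
  congr 1
  refine lintegral_congr fun t => ?_
  rw [← lintegral_const_mul _ (by fun_prop)]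
  refine lintegral_congr fun ω => ?_
  rw [← ofReal_norm, ← ofReal_norm, Real.norm_eq_abs, Real.norm_eq_abs, h t ω,
    ENNReal.ofReal_mul (Real.exp_pos _).le, ENNReal.mul_rpow_of_nonneg _ _ hp'.le,
    ENNReal.ofReal_rpow_of_pos (Real.exp_pos _), ← Real.exp_mul, div_mul_cancel₀ _ hp'.ne']

end PolarJ

open PolarJ

theorem target_Polar : Target_Polar := by
  refine ⟨polar, polarBochner, ?_⟩
  intro τ u hu
  have hcyl : ∀ β : ℝ, Measurable (cyl τ β u) := by
    intro β
    unfold cyl
    exact (by fun_prop : Measurable fun p : ℝ × S2 => Real.exp ((β - τ) * p.1)).mul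
      (hu.comp measurable_Phi)
  have hn : ∀ (t : ℝ) (ω : S2), ‖Real.exp t • (ω : E3)‖ = Real.exp t := by
    intro t ω
    rw [norm_smul, norm_eq_of_mem_sphere, mul_one, Real.norm_eq_abs, abs_of_pos (Real.exp_pos t)]
  refine ⟨?_, ?_, ?_, ?_⟩
  · refine norm_transfer 6 (by norm_num) (by norm_num) _ (by fun_prop) _ (hcyl _) ?_
    intro t ω
    rw [hn]
    simp only [cyl, abs_mul, abs_of_pos (Real.exp_pos _), abs_pow, abs_inv]
    rw [← Real.exp_neg, ← Real.exp_nat_mul, ← mul_assoc, ← Real.exp_add]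
    congr 2
    norm_num
    ring
  · refine norm_transfer 2 (by norm_num) (by norm_num) _ (by fun_prop) _ (hcyl _) ?_
    intro t ω
    rw [hn]
    simp only [cyl, abs_mul, abs_of_pos (Real.exp_pos _), abs_pow, abs_inv]
    rw [← Real.exp_neg, ← Real.exp_nat_mul, ← mul_assoc, ← Real.exp_add]
    congr 2
    push_cast
    norm_num
    ring
  · refine norm_transfer (6 / 5) (by norm_num) (by finiteness) _ (by fun_prop) _ (hcyl _) ?_
    intro t ω
    rw [hn]
    simp only [cyl, abs_mul, abs_of_pos (Real.exp_pos _), abs_pow, abs_inv]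
    rw [← Real.exp_neg, ← Real.exp_nat_mul, ← mul_assoc, ← Real.exp_add]
    congr 2
    rw [ENNReal.toReal_div]
    norm_num
    ring
  · refine norm_transfer 2 (by norm_num) (by norm_num) _ (by fun_prop) _ (hcyl _) ?_
    intro t ω
    rw [hn]
    simp only [cyl, abs_mul, abs_of_pos (Real.exp_pos _), abs_pow, abs_inv]
    rw [← Real.exp_neg, ← Real.exp_nat_mul, ← mul_assoc, ← mul_assoc, ← Real.exp_add,
      ← Real.exp_add]
    congr 2
    norm_num
    ring

end Pool.Agent.HK
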