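import Pool.Agent.HK.Spec

/-!
# The Laplacian of polynomial functions

`lapP` is the Laplacian on polynomials; `lap_eval` says that the Laplacian of the polynomial
function is the polynomial function of the Laplacian; `isHarm_iff` translates `IsHarm`.
-/

open MvPolynomial

namespace Pool.Agent.HK.PolyLap

/-- The Laplacian on polynomials in three variables. -/
noncomputable def lapP : MvPolynomial (Fin 3) ℝ →ₗ[ℝ] MvPolynomial (Fin 3) ℝ :=
  ∑ a, (pderiv a).toLinearMap ∘ₗ (pderiv a).toLinearMap

theorem lapP_apply (p : MvPolynomial (Fin 3) ℝ) : lapP p = ∑ a, pderiv a (pderiv a p) := by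
  simp [lapP, LinearMap.sum_apply]

/-- The polynomial function of `p` on `ℝ³`. -/
noncomputable def fn (p : MvPolynomial (Fin 3) ℝ) : E3 → ℝ := fun x => eval (fun i => x i) p

theorem fn_apply (p : MvPolynomial (Fin 3) ℝ) (x : E3) : fn p x = eval (fun i => x i) p := rfl

theorem hasFDerivAt_fn (p : MvPolynomial (Fin 3) ℝ) (x : E3) :
    HasFDerivAt (fn p) (∑ a, fn (pderiv a p) x • (EuclideanSpace.proj a : E3 →L[ℝ] ℝ)) x := by
  induction p using MvPolynomial.induction_on with
  | C r =>
    have h : fn (C r) = fun _ => r := by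
      funext y
      simp [fn]
    rw [h]
    have : (∑ a, fn (pderiv a (C r)) x • (EuclideanSpace.proj a : E3 →L[ℝ] ℝ)) = 0 := by
      simp [fn]
    rw [this]
    exact hasFDerivAt_const r x
  | add p q hp hq =>
    have h : fn (p + q) = fun y => fn p y + fn q y := by
      funext y
      simp [fn]
    rw [h]
    have := hp.add hq
    refine this.congr_fderiv ?_
    rw [← Finset.sum_add_distrib]
    refine Finset.sum_congr rfl fun a _ => ?_
    simp [fn, add_smul]
  | mul_X p i hp =>
    have h : fn (p * X i) = fun y => fn p y * (EuclideanSpace.proj i : E3 →L[ℝ] ℝ) y := by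
      funext y
      simp [fn]
    rw [h]
    have := hp.mul (EuclideanSpace.proj i : E3 →L[ℝ] ℝ).hasFDerivAt
    refine this.congr_fderiv ?_
    have hproj : ∀ (a : Fin 3) (w : E3), (EuclideanSpace.proj a : E3 →L[ℝ] ℝ) w = w.ofLp a :=
      fun _ _ => rfl
    ext v
    simp only [_root_.add_apply, _root_.smul_apply, _root_.sum_apply, smul_eq_mul, hproj,
      pderiv_mul, pderiv_X, fn, map_add, map_mul]
    rw [Finset.mul_sum, add_comm]
    have e1 : ∀ a : Fin 3, ((eval (fun i => x.ofLp i)) (pderiv a p) *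
        (eval (fun i => x.ofLp i)) (X i : MvPolynomial (Fin 3) ℝ)
        + (eval (fun i => x.ofLp i)) p * (eval (fun i => x.ofLp i))
          (Pi.single (M := fun _ => MvPolynomial (Fin 3) ℝ) a 1 i)) * v.ofLp a
        = x.ofLp i * ((eval (fun i => x.ofLp i)) (pderiv a p) * v.ofLp a) +
          (if i = a then (eval (fun i => x.ofLp i)) p * v.ofLp a else 0) := by
      intro a
      by_cases hai : i = a
      · subst hai
        simp
        ring
      · rw [Pi.single_eq_of_ne hai]
        simp [hai]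
        ring
    rw [Finset.sum_congr rfl (fun a _ => e1 a), Finset.sum_add_distrib, Finset.sum_ite_eq,
      if_pos (Finset.mem_univ i), add_comm]

theorem fderiv_fn (p : MvPolynomial (Fin 3) ℝ) (x : E3) (a : Fin 3) :
    fderiv ℝ (fn p) x (ax a) = fn (pderiv a p) x := by
  rw [(hasFDerivAt_fn p x).fderiv]
  simp [ax]

theorem lap_fn (p : MvPolynomial (Fin 3) ℝ) (x : E3) : lap (fn p) x = fn (lapP p) x := by
  unfold lap
  have h : ∀ a : Fin 3, (fun y => fderiv ℝ (fn p) y (ax a)) = fn (pderiv a p) := fun a =>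
    funext fun y => fderiv_fn p y a
  simp only [fderiv_fn]
  rw [lapP_apply]
  simp [fn]

theorem contDiff_fn (p : MvPolynomial (Fin 3) ℝ) {n : WithTop ℕ∞} : ContDiff ℝ n (fn p) := by
  induction p using MvPolynomial.induction_on with
  | C r =>
    have h : fn (C r) = fun _ => r := by
      funext y
      simp [fn]
    rw [h]
    exact contDiff_const
  | add p q hp hq =>
    have h : fn (p + q) = fun y => fn p y + fn q y := by
      funext y
      simp [fn]
    rw [h]
    exact hp.add hq
  | mul_X p i hp =>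
    have h : fn (p * X i) = fun y => fn p y * (EuclideanSpace.proj i : E3 →L[ℝ] ℝ) y := by
      funext y
      simp [fn]
    rw [h]
    exact hp.mul (EuclideanSpace.proj i : E3 →L[ℝ] ℝ).contDiff

theorem fn_injective : Function.Injective fn := by
  intro p q h
  refine MvPolynomial.funext fun x => ?_
  have := congrFun h (WithLp.toLp 2 x)
  simpa [fn] using this

theorem fn_add (p q : MvPolynomial (Fin 3) ℝ) : fn (p + q) = fn p + fn q := by
  funext x
  simp [fn]

theorem fn_smul (c : ℝ) (p : MvPolynomial (Fin 3) ℝ) : fn (c • p) = c • fn p := by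
  funext x
  simp [fn]

theorem fn_zero : fn 0 = 0 := by
  funext x
  simp [fn]

/-- `fn` as a linear map. -/
noncomputable def fnL : MvPolynomial (Fin 3) ℝ →ₗ[ℝ] (E3 → ℝ) where
  toFun := fn
  map_add' := fn_add
  map_smul' := fn_smul

theorem fnL_apply (p : MvPolynomial (Fin 3) ℝ) : fnL p = fn p := rfl

theorem isHarm_iff (j : ℕ) (f : E3 → ℝ) :
    IsHarm j f ↔ ∃ p : MvPolynomial (Fin 3) ℝ, p.IsHomogeneous j ∧ lapP p = 0 ∧ f = fn p := by
  constructor
  · rintro ⟨⟨p, hp, hf⟩, hl⟩
    have hf' : f = fn p := funext hf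
    refine ⟨p, hp, ?_, hf'⟩
    apply fn_injective
    funext x
    rw [← lap_fn, ← hf', hl x, fn_zero]
    rfl
  · rintro ⟨p, hp, hl, rfl⟩
    refine ⟨⟨p, hp, fun x => rfl⟩, fun x => ?_⟩
    rw [lap_fn, hl, fn_zero]
    rfl

theorem coeff_lapP (p : MvPolynomial (Fin 3) ℝ) (m : Fin 3 →₀ ℕ) :
    coeff m (lapP p) = ∑ a, coeff (m + Finsupp.single a 2) p * ((m a + 2) * (m a + 1)) := by
  rw [lapP_apply, coeff_sum]
  refine Finset.sum_congr rfl fun a _ => ?_
  rw [coeff_pderiv, coeff_pderiv, add_assoc, ← Finsupp.single_add]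
  simp only [Finsupp.add_apply, Finsupp.single_eq_same, Nat.cast_add, Nat.cast_one]
  ring

end Pool.Agent.HK.PolyLap
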