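import Pool.Agent.HK.Spec

/-!
# Slices of weak derivatives
-/

open MeasureTheory Set Filter Topology
open scoped ENNReal NNReal InnerProductSpace

set_option linter.unusedSectionVars false

namespace Pool.Agent.HK

namespace SliceAux

section general

variable {X Y E : Type*} [NormedAddCommGroup X] [NormedSpace ℝ X] [FiniteDimensional ℝ X]
  [MeasureSpace X] [BorelSpace X] [(volume : Measure X).IsAddHaarMeasure]
  [NormedAddCommGroup Y] [NormedSpace ℝ Y] [FiniteDimensional ℝ Y]
  [MeasureSpace Y] [BorelSpace Y] [(volume : Measure Y).IsAddHaarMeasure]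

theorem fderiv_cont {ζ : X → ℝ} (h : IsTest ζ) (e : X) : Continuous (fun x => fderiv ℝ ζ x e) :=
  (h.1.continuous_fderiv (by simp)).clm_apply continuous_const

theorem memLp_test {ζ : X → ℝ} (h : IsTest ζ) : MemLp ζ 2 (volume : Measure X) :=
  h.1.continuous.memLp_of_hasCompactSupport h.2

theorem memLp_dtest {ζ : X → ℝ} (h : IsTest ζ) (e : X) :
    MemLp (fun x => fderiv ℝ ζ x e) 2 (volume : Measure X) :=
  (fderiv_cont h e).memLp_of_hasCompactSupport (h.2.fderiv_apply ℝ e)

theorem int_mul {α : Type*} [MeasurableSpace α] {μ : Measure α} {f g : α → ℝ}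
    (hf : MemLp f 2 μ) (hg : MemLp g 2 μ) : Integrable (fun x => f x * g x) μ :=
  MemLp.integrable_mul hf hg

/-- slices of an `L²` function -/
theorem memLp_slice {u : X × Y → ℝ} (hu : MemLp u 2 volume) :
    ∀ᵐ y : Y, MemLp (fun x => u (x, y)) 2 (volume : Measure X) := by
  have h1 : Integrable (fun p => u p ^ 2) (volume : Measure (X × Y)) :=
    (memLp_two_iff_integrable_sq hu.1).mp hu
  have h2 := Integrable.prod_left_ae h1
  have h3 := AEStronglyMeasurable.prodMk_right hu.1
  filter_upwards [h2, h3] with y hy1 hy2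
  exact (memLp_two_iff_integrable_sq hy2).mpr hy1

/-- product of test functions -/
theorem isTest_mul {ζ : X → ℝ} {η : Y → ℝ} (hζ : IsTest ζ) (hη : IsTest η) :
    IsTest (fun p : X × Y => ζ p.1 * η p.2) := by
  constructor
  · exact (hζ.1.comp contDiff_fst).mul (hη.1.comp contDiff_snd)
  · apply HasCompactSupport.intro (K := tsupport ζ ×ˢ tsupport η) (hζ.2.prod hη.2)
    rintro ⟨x, y⟩ hp
    rw [Set.mem_prod, not_and_or] at hp
    rcases hp with hp | hp
    · simp only at hp ⊢
      rw [image_eq_zero_of_notMem_tsupport hp, zero_mul]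
    · simp only at hp ⊢
      rw [image_eq_zero_of_notMem_tsupport hp, mul_zero]

theorem fderiv_slice {ζ : X × Y → ℝ} (h : IsTest ζ) (e : X) (x : X) (y : Y) :
    fderiv ℝ (fun x => ζ (x, y)) x e = fderiv ℝ ζ (x, y) (e, 0) := by
  have h1 : HasFDerivAt ζ (fderiv ℝ ζ (x, y)) (x, y) :=
    ((h.1.differentiable (by simp)) (x, y)).hasFDerivAt
  have h2 : HasFDerivAt (fun x : X => (x, y)) (ContinuousLinearMap.inl ℝ X Y) x :=
    hasFDerivAt_prodMk_left x y
  have h3 := h1.comp x h2
  rw [show (fun x => ζ (x, y)) = ζ ∘ (fun x : X => (x, y)) from rfl, h3.fderiv]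
  simp

theorem isTest_slice {ζ : X × Y → ℝ} (h : IsTest ζ) (y : Y) : IsTest (fun x => ζ (x, y)) := by
  constructor
  · exact h.1.comp (contDiff_prodMk_left y)
  · apply HasCompactSupport.intro (K := Prod.fst '' tsupport ζ) (h.2.isCompact.image continuous_fst)
    intro x hx
    by_contra hne
    exact hx ⟨(x, y), subset_tsupport _ hne, rfl⟩

theorem prod_haar : (volume : Measure (X × Y)).IsAddHaarMeasure :=
  inferInstanceAs ((volume : Measure X).prod (volume : Measure Y)).IsAddHaarMeasure

/-- (easy direction) -/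
theorem prod_of_slice (e : X) {u g : X × Y → ℝ} (hu : MemLp u 2 volume) (hg : MemLp g 2 volume)
    (h : ∀ᵐ y : Y, WeakDeriv (fun x => u (x, y)) e (fun x => g (x, y))) :
    WeakDeriv u ((e, 0) : X × Y) g := by
  have := prod_haar (X := X) (Y := Y)
  intro ζ hζ
  have i1 : Integrable (fun p => fderiv ℝ ζ p ((e, 0) : X × Y) • u p)
      ((volume : Measure X).prod (volume : Measure Y)) := int_mul (memLp_dtest hζ _) hu
  have i2 : Integrable (fun p => ζ p • g p)
      ((volume : Measure X).prod (volume : Measure Y)) := int_mul (memLp_test hζ) hg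
  change ∫ p, fderiv ℝ ζ p ((e, 0) : X × Y) • u p ∂((volume : Measure X).prod volume) =
    - ∫ p, ζ p • g p ∂((volume : Measure X).prod volume)
  rw [integral_prod_symm _ i1, integral_prod_symm _ i2, ← integral_neg]
  apply integral_congr_ae
  filter_upwards [h] with y hy
  have := hy (fun x => ζ (x, y)) (isTest_slice hζ y)
  simp only [fderiv_slice hζ] at this
  exact this

theorem exists_cutoff (n : ℕ) : ∃ χ : Y → ℝ, IsTest χ ∧ ∀ y, ‖y‖ ≤ n → χ y = 1 := by
  let f : ContDiffBump (0 : Y) := ⟨n + 1, n + 2, by positivity, by linarith⟩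
  refine ⟨f, ⟨f.contDiff, f.hasCompactSupport⟩, fun y hy => ?_⟩
  apply f.one_of_mem_closedBall
  rw [mem_closedBall_zero_iff]
  change ‖y‖ ≤ (n : ℝ) + 1
  linarith

theorem fderiv_mul_test {ζ : X → ℝ} {η : Y → ℝ} (hζ : IsTest ζ) (hη : IsTest η) (e : X)
    (p : X × Y) : fderiv ℝ (fun p : X × Y => ζ p.1 * η p.2) p ((e, 0) : X × Y) =
      fderiv ℝ ζ p.1 e * η p.2 := by
  rw [show ((e, 0) : X × Y) = (e, (0 : Y)) from rfl, ← Prod.mk.eta (p := p),
    ← fderiv_slice (isTest_mul hζ hη) e p.1 p.2]
  simp only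
  rw [fderiv_mul_const ((hζ.1.differentiable (by simp)) _)]
  simp [mul_comm]

/-- for a fixed test function on `X` -/
theorem slice_key (e : X) {u g : X × Y → ℝ} (hu : MemLp u 2 volume) (hg : MemLp g 2 volume)
    (h : WeakDeriv u ((e, 0) : X × Y) g) {ζ : X → ℝ} (hζ : IsTest ζ) :
      ∀ᵐ y : Y, (∫ x, fderiv ℝ ζ x e * u (x, y)) + ∫ x, ζ x * g (x, y) = 0 := by
  have := prod_haar (X := X) (Y := Y)
  have hχ : ∀ n : ℕ, ∀ᵐ y : Y, ‖y‖ ≤ n →
      (∫ x, (fderiv ℝ ζ x e * u (x, y) + ζ x * g (x, y))) = 0 := by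
    intro n
    obtain ⟨χ, hχ, hχ1⟩ := exists_cutoff (Y := Y) n
    have i0 : ∀ η : Y → ℝ, IsTest η →
        Integrable (fun p : X × Y => η p.2 * (fderiv ℝ ζ p.1 e * u p + ζ p.1 * g p))
        ((volume : Measure X).prod (volume : Measure Y)) := by
      intro η hη
      have j1 : MemLp (fun p : X × Y => fderiv ℝ ζ p.1 e * η p.2) 2
          ((volume : Measure X).prod (volume : Measure Y)) := by
        have := memLp_dtest (isTest_mul hζ hη) ((e, 0) : X × Y)
        simp only [fderiv_mul_test hζ hη] at this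
        exact this
      have j2 : MemLp (fun p : X × Y => ζ p.1 * η p.2) 2
          ((volume : Measure X).prod (volume : Measure Y)) := memLp_test (isTest_mul hζ hη)
      have j3 := (int_mul j1 hu).add (int_mul j2 hg)
      refine j3.congr (Eventually.of_forall fun p => ?_)
      simp only [Pi.add_apply]
      ring
    have i1 := (i0 χ hχ).integral_prod_right
    have i2 : ∀ᵐ y : Y, (∫ x, χ y * (fderiv ℝ ζ x e * u (x, y) + ζ x * g (x, y))) = 0 := by
      apply ae_eq_zero_of_integral_contDiff_smul_eq_zero i1.locallyIntegrable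
      intro η hη1 hη2
      have hη : IsTest η := ⟨hη1, hη2⟩
      have hηχ : IsTest (fun y => η y * χ y) := ⟨hη.1.mul hχ.1, hη.2.mul_right⟩
      have h1 := h _ (isTest_mul hζ hηχ)
      simp only [fderiv_mul_test hζ hηχ] at h1
      have j1 : MemLp (fun p : X × Y => fderiv ℝ ζ p.1 e * (η p.2 * χ p.2)) 2
          ((volume : Measure X).prod (volume : Measure Y)) := by
        have := memLp_dtest (isTest_mul hζ hηχ) ((e, 0) : X × Y)
        simp only [fderiv_mul_test hζ hηχ] at this
        exact this
      have j2 : MemLp (fun p : X × Y => ζ p.1 * (η p.2 * χ p.2)) 2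
          ((volume : Measure X).prod (volume : Measure Y)) := memLp_test (isTest_mul hζ hηχ)
      have h2 : ∫ p : X × Y, (η p.2 * χ p.2) * (fderiv ℝ ζ p.1 e * u p + ζ p.1 * g p)
          ∂((volume : Measure X).prod (volume : Measure Y)) = 0 := by
        have e1 : (fun p : X × Y => (η p.2 * χ p.2) * (fderiv ℝ ζ p.1 e * u p + ζ p.1 * g p))
            = fun p => (fderiv ℝ ζ p.1 e * (η p.2 * χ p.2)) * u p +
              (ζ p.1 * (η p.2 * χ p.2)) * g p := by
          funext p; ring
        rw [e1, integral_add (int_mul j1 hu) (int_mul j2 hg)]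
        simp only [smul_eq_mul] at h1
        change ∫ p, fderiv ℝ ζ p.1 e * (η p.2 * χ p.2) * u p
          ∂((volume : Measure X).prod (volume : Measure Y)) =
          - ∫ p, ζ p.1 * (η p.2 * χ p.2) * g p
          ∂((volume : Measure X).prod (volume : Measure Y)) at h1
        rw [h1]; ring
      rw [integral_prod_symm _ (i0 _ hηχ)] at h2
      rw [← h2]
      apply integral_congr_ae
      filter_upwards with y
      simp only [smul_eq_mul]
      rw [← integral_const_mul]
      apply integral_congr_ae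
      filter_upwards with x
      ring
    filter_upwards [i2] with y hy hyn
    rw [hχ1 y hyn] at hy
    simpa using hy
  rw [← ae_all_iff] at hχ
  filter_upwards [hχ, memLp_slice hu, memLp_slice hg] with y hy hyu hyg
  obtain ⟨n, hn⟩ := exists_nat_ge ‖y‖
  rw [← integral_add (int_mul (memLp_dtest hζ e) hyu) (int_mul (memLp_test hζ) hyg)]
  exact hy n hn

theorem slice_of_prod (e : X) {u g : X × Y → ℝ} (hu : MemLp u 2 volume) (hg : MemLp g 2 volume)
    (h : WeakDeriv u ((e, 0) : X × Y) g) :
    ∀ᵐ y : Y, WeakDeriv (fun x => u (x, y)) e (fun x => g (x, y)) := by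
  classical
  have : Fact ((2 : ℝ≥0∞) ≠ ∞) := ⟨ENNReal.ofNat_ne_top⟩
  let S : Set (Lp ℝ 2 (volume : Measure X) × Lp ℝ 2 (volume : Measure X)) :=
    {q | ∃ (ζ : X → ℝ) (hζ : IsTest ζ), q = ((memLp_test hζ).toLp ζ, (memLp_dtest hζ e).toLp _)}
  have : SecondCountableTopology X := secondCountable_of_proper
  obtain ⟨t, htS, htc, hSt⟩ :=
    (TopologicalSpace.IsSeparable.of_separableSpace S).exists_countable_dense_subset
  have h1 : ∀ᵐ y : Y, ∀ q ∈ t, (∫ x, (q.2 : X → ℝ) x * u (x, y)) +
      ∫ x, (q.1 : X → ℝ) x * g (x, y) = 0 := by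
    rw [ae_ball_iff htc]
    intro q hq
    obtain ⟨ζ, hζ, rfl⟩ := htS hq
    filter_upwards [slice_key e hu hg h hζ] with y hy
    rw [← hy]
    congr 1
    · apply integral_congr_ae
      filter_upwards [(memLp_dtest hζ e).coeFn_toLp] with x hx
      rw [hx]
    · apply integral_congr_ae
      filter_upwards [(memLp_test hζ).coeFn_toLp] with x hx
      rw [hx]
  filter_upwards [h1, memLp_slice hu, memLp_slice hg] with y hy hyu hyg
  intro ζ hζ
  let Φ : Lp ℝ 2 (volume : Measure X) × Lp ℝ 2 (volume : Measure X) → ℝ :=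
    fun q => inner ℝ q.2 (hyu.toLp _) + inner ℝ q.1 (hyg.toLp _)
  have hΦ : ∀ q, Φ q = (∫ x, (q.2 : X → ℝ) x * u (x, y)) +
      ∫ x, (q.1 : X → ℝ) x * g (x, y) := by
    intro q
    simp only [Φ, L2.inner_def]
    congr 1
    · apply integral_congr_ae
      filter_upwards [hyu.coeFn_toLp] with x hx
      rw [hx, Real.inner_apply]
    · apply integral_congr_ae
      filter_upwards [hyg.coeFn_toLp] with x hx
      rw [hx, Real.inner_apply]
  have hΦc : Continuous Φ := by
    apply Continuous.add
    · exact continuous_snd.inner continuous_const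
    · exact continuous_fst.inner continuous_const
  have hcl : closure t ⊆ {q | Φ q = 0} := by
    apply closure_minimal _ (isClosed_eq hΦc continuous_const)
    intro q hq
    rw [Set.mem_ofPred_eq, hΦ]; exact hy q hq
  have h2 := hcl (hSt ⟨ζ, hζ, rfl⟩)
  rw [Set.mem_ofPred_eq, hΦ] at h2
  have e1 : (∫ x, ((memLp_dtest hζ e).toLp _ : X → ℝ) x * u (x, y)) =
      ∫ x, fderiv ℝ ζ x e * u (x, y) := by
    apply integral_congr_ae
    filter_upwards [(memLp_dtest hζ e).coeFn_toLp] with x hx
    rw [hx]
  have e2 : (∫ x, ((memLp_test hζ).toLp _ : X → ℝ) x * g (x, y)) =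
      ∫ x, ζ x * g (x, y) := by
    apply integral_congr_ae
    filter_upwards [(memLp_test hζ).coeFn_toLp] with x hx
    rw [hx]
  simp only at h2
  rw [e1, e2] at h2
  simp only [smul_eq_mul]
  linarith

theorem isTest_comp {E F : Type*} [NormedAddCommGroup E] [NormedSpace ℝ E]
    [NormedAddCommGroup F] [NormedSpace ℝ F] (L : E ≃L[ℝ] F) {ζ : F → ℝ} (hζ : IsTest ζ) :
    IsTest (fun p => ζ (L p)) :=
  ⟨hζ.1.comp L.contDiff, hζ.2.comp_homeomorph L.toHomeomorph⟩

theorem fderiv_comp_equiv {E F : Type*} [NormedAddCommGroup E] [NormedSpace ℝ E]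
    [NormedAddCommGroup F] [NormedSpace ℝ F] (L : E ≃L[ℝ] F) {ζ : F → ℝ} (hζ : IsTest ζ)
    (p v : E) : fderiv ℝ (fun p => ζ (L p)) p v = fderiv ℝ ζ (L p) (L v) := by
  have h1 : HasFDerivAt ζ (fderiv ℝ ζ (L p)) (L p) :=
    ((hζ.1.differentiable (by simp)) (L p)).hasFDerivAt
  have h2 : HasFDerivAt L (L : E →L[ℝ] F) p := L.hasFDerivAt
  have h3 := h1.comp p h2
  rw [show (fun p => ζ (L p)) = ζ ∘ L from rfl, h3.fderiv]
  simp

theorem transfer {E F : Type*} [NormedAddCommGroup E] [NormedSpace ℝ E] [MeasureSpace E]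
    [BorelSpace E] [NormedAddCommGroup F] [NormedSpace ℝ F] [MeasureSpace F] [BorelSpace F]
    (L : E ≃L[ℝ] F) (hL : MeasurePreserving L volume volume) (v : E) (u g : F → ℝ) :
    WeakDeriv u (L v) g ↔ WeakDeriv (fun p => u (L p)) v (fun p => g (L p)) := by
  have hemb : MeasurableEmbedding L := L.toHomeomorph.measurableEmbedding
  constructor
  · intro h ζ hζ
    have hζ' := isTest_comp L.symm hζ
    have h1 := h _ hζ'
    rw [← hL.integral_comp hemb, ← hL.integral_comp hemb] at h1
    simp only [ContinuousLinearEquiv.symm_apply_apply] at h1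
    rw [← h1]
    apply integral_congr_ae
    filter_upwards with p
    have h2 := fderiv_comp_equiv L hζ' p v
    simp only [ContinuousLinearEquiv.symm_apply_apply] at h2
    rw [h2]
  · intro h ζ hζ
    have h1 := h _ (isTest_comp L hζ)
    simp only [fderiv_comp_equiv L hζ] at h1
    rw [← hL.integral_comp hemb, ← hL.integral_comp hemb]
    exact h1

theorem slice_iff {E : Type*} [NormedAddCommGroup E] [NormedSpace ℝ E] [MeasureSpace E]
    [BorelSpace E] (L : (X × Y) ≃L[ℝ] E) (hL : MeasurePreserving L volume volume) (e : X)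
    {u g : E → ℝ} (hu : MemLp u 2 volume) (hg : MemLp g 2 volume) :
    WeakDeriv u (L (e, 0)) g ↔
      ∀ᵐ y : Y, WeakDeriv (fun x => u (L (x, y))) e (fun x => g (L (x, y))) := by
  have hu' : MemLp (fun p => u (L p)) 2 volume := hu.comp_measurePreserving hL
  have hg' : MemLp (fun p => g (L p)) 2 volume := hg.comp_measurePreserving hL
  rw [transfer L hL]
  exact ⟨slice_of_prod e hu' hg', prod_of_slice e hu' hg'⟩

end general

/-- insertion as a linear equivalence -/
noncomputable def insL {n : ℕ} (i : Fin (n + 1)) : (E3 × Conf n) ≃L[ℝ] Conf (n + 1) :=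
  LinearEquiv.toContinuousLinearEquiv
    { toFun := fun p => ins i p.1 p.2
      invFun := fun z => (z i, fun k => z (i.succAbove k))
      map_add' := by
        intro p q
        funext j
        unfold ins
        refine Fin.succAboveCases i ?_ ?_ j
        · simp
        · intro k; simp
      map_smul' := by
        intro c p
        funext j
        unfold ins
        refine Fin.succAboveCases i ?_ ?_ j
        · simp
        · intro k; simp
      left_inv := by
        rintro ⟨x, y⟩
        unfold ins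
        simp
      right_inv := by
        intro z
        funext j
        unfold ins
        refine Fin.succAboveCases i ?_ ?_ j
        · simp
        · intro k; simp }

theorem insL_apply {n : ℕ} (i : Fin (n + 1)) (p : E3 × Conf n) : insL i p = ins i p.1 p.2 := rfl

theorem ins_mp {n : ℕ} (i : Fin (n + 1)) :
    MeasurePreserving (fun p : E3 × Conf n => ins i p.1 p.2) volume volume :=
  (volume_preserving_piFinSuccAbove (fun _ => E3) i).symm

theorem insL_mp {n : ℕ} (i : Fin (n + 1)) : MeasurePreserving (insL i) volume volume := ins_mp i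

end SliceAux

theorem target_Slice : Target_Slice := by
  intro n i
  refine ⟨SliceAux.ins_mp i, fun u g a hu hg => ?_, fun u g k a hu hg => ?_⟩
  · have h1 := SliceAux.slice_iff (SliceAux.insL i) (SliceAux.insL_mp i) (ax a) hu hg
    have h2 : SliceAux.insL i (ax a, 0) = dir (i, a) := by
      rw [SliceAux.insL_apply]
      funext j
      unfold ins dir
      refine Fin.succAboveCases i ?_ ?_ j
      · simp
      · intro k; simp [Fin.succAbove_ne]
    rw [h2] at h1
    exact h1
  · have hsw : MeasurePreserving (fun p : Conf n × E3 => (p.2, p.1)) volume volume :=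
      Measure.measurePreserving_swap
    let L : (Conf n × E3) ≃L[ℝ] Conf (n + 1) :=
      (ContinuousLinearEquiv.prodComm ℝ (Conf n) E3).trans (SliceAux.insL i)
    have hL : MeasurePreserving L volume volume := (SliceAux.insL_mp i).comp hsw
    have h1 := SliceAux.slice_iff L hL (dir (k, a)) hu hg
    have h2 : L (dir (k, a), 0) = dir (i.succAbove k, a) := by
      change SliceAux.insL i (0, dir (k, a)) = _
      rw [SliceAux.insL_apply]
      funext j
      unfold ins dir
      refine Fin.succAboveCases i ?_ ?_ j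
      · simp [Fin.succAbove_ne, Ne.symm]
      · intro l
        simp only [Fin.insertNth_apply_succAbove]
        by_cases hl : l = k
        · subst hl; simp
        · rw [Pi.single_eq_of_ne hl, Pi.single_eq_of_ne]
          intro h
          exact hl (Fin.succAbove_right_injective h)
    rw [h2] at h1
    exact h1

end Pool.Agent.HK
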