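import Pool.Agent.HK.Spec

/-!
# HK-S: Sobolev inequality, splitting of potentials, form bound
-/

open MeasureTheory Set Filter Topology
open scoped ENNReal NNReal InnerProductSpace

namespace Pool.Agent.HK

namespace SO

lemma norm_fderiv_le (f : E3 → ℝ) (x : E3) :
    ‖fderiv ℝ f x‖ₑ ≤ ∑ a, ‖fderiv ℝ f x (ax a)‖ₑ := by
  have h1 : ‖fderiv ℝ f x‖ ≤ ∑ a, ‖fderiv ℝ f x (ax a)‖ := by
    refine ContinuousLinearMap.opNorm_le_bound _ (Finset.sum_nonneg fun _ _ => norm_nonneg _) ?_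
    intro v
    have hv : v = ∑ a, v a • ax a := by
      ext b
      simp [ax, Pi.single_apply]
    have h2 : fderiv ℝ f x v = ∑ a, v a * fderiv ℝ f x (ax a) := by
      conv_lhs => rw [hv]
      simp [map_sum]
    rw [h2, Finset.sum_mul]
    refine (norm_sum_le _ _).trans (Finset.sum_le_sum fun a _ => ?_)
    rw [norm_mul, mul_comm]
    exact mul_le_mul_of_nonneg_left (PiLp.norm_apply_le v a) (norm_nonneg _)
  have h3 : ‖fderiv ℝ f x‖ₑ = ENNReal.ofReal ‖fderiv ℝ f x‖ := (ofReal_norm _).symm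
  rw [h3]
  refine (ENNReal.ofReal_le_ofReal h1).trans (le_of_eq ?_)
  rw [ENNReal.ofReal_sum_of_nonneg fun _ _ => norm_nonneg _]
  exact Finset.sum_congr rfl fun a _ => ofReal_norm _

/-- The Sobolev constant for test functions. -/
noncomputable def C0 : ℝ≥0 := eLpNormLESNormFDerivOfEqInnerConst (volume : Measure E3) 2

lemma sob_test (f : E3 → ℝ) (hf : IsTest f) :
    eLpNorm f 6 volume ≤ C0 * ∑ a, eLpNorm (fun x => fderiv ℝ f x (ax a)) 2 volume := by
  have h1 : ContDiff ℝ 1 f := hf.1.of_le (by exact_mod_cast le_top)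
  have h := eLpNorm_le_eLpNorm_fderiv_of_eq_inner (volume : Measure E3) h1 hf.2
    (p := 2) (p' := 6) (by norm_num) (by simp) (by simp; norm_num)
  have h6 : ((6 : ℝ≥0) : ℝ≥0∞) = 6 := by norm_num
  have h2 : ((2 : ℝ≥0) : ℝ≥0∞) = 2 := by norm_num
  rw [h6, h2] at h
  refine h.trans (mul_le_mul_right ?_ _)
  have hc : Continuous (fderiv ℝ f) := h1.continuous_fderiv (by norm_num)
  have hm : ∀ a : Fin 3, AEStronglyMeasurable (fun x => fderiv ℝ f x (ax a)) volume := fun a =>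
    (hc.clm_apply continuous_const).aestronglyMeasurable
  calc eLpNorm (fderiv ℝ f) 2 volume
      ≤ eLpNorm (fun x => ∑ a, ‖fderiv ℝ f x (ax a)‖) 2 volume := by
        refine eLpNorm_mono_enorm fun x => ?_
        refine (norm_fderiv_le f x).trans (le_of_eq ?_)
        rw [Real.enorm_of_nonneg (Finset.sum_nonneg fun _ _ => norm_nonneg _),
          ENNReal.ofReal_sum_of_nonneg fun _ _ => norm_nonneg _]
        exact Finset.sum_congr rfl fun a _ => (ofReal_norm _).symm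
    _ ≤ ∑ a, eLpNorm (fun x => ‖fderiv ℝ f x (ax a)‖) 2 volume := by
        have := eLpNorm_sum_le (s := (Finset.univ : Finset (Fin 3))) (p := 2)
          (f := fun a x => ‖fderiv ℝ f x (ax a)‖) (μ := (volume : Measure E3))
          (fun a _ => (hm a).norm) (by norm_num)
        refine le_trans (le_of_eq ?_) this
        congr 1
    _ = ∑ a, eLpNorm (fun x => fderiv ℝ f x (ax a)) 2 volume :=
        Finset.sum_congr rfl fun a _ => eLpNorm_norm _

end SO

theorem target_Sobolev (hA : Target_Approx) : Target_Sobolev := by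
  refine ⟨SO.C0, fun u D hS => ?_⟩
  have h1 : ∀ n : ℕ, ∃ f : E3 → ℝ, IsTest f ∧
      eLpNorm (fun x => u x - f x) 2 volume ≤ ENNReal.ofReal (1 / ((n : ℝ) + 1)) ∧
      ∀ i, eLpNorm (fun x => D i x - fderiv ℝ f x (ax i)) 2 volume ≤
        ENNReal.ofReal (1 / ((n : ℝ) + 1)) := fun n =>
    hA E3 (Fin 3) ax u D hS _ (by rw [ENNReal.ofReal_pos]; positivity)
  choose f hf hu hD using h1
  have ht : Tendsto (fun n : ℕ => ENNReal.ofReal (1 / ((n : ℝ) + 1))) atTop (𝓝 0) := by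
    rw [← ENNReal.ofReal_zero]
    exact ENNReal.tendsto_ofReal tendsto_one_div_add_atTop_nhds_zero_nat
  have hfm : ∀ n, AEStronglyMeasurable (f n) (volume : Measure E3) := fun n =>
    (hf n).1.continuous.aestronglyMeasurable
  have hlim : Tendsto (fun n => eLpNorm (f n - u) 2 volume) atTop (𝓝 0) := by
    refine tendsto_of_tendsto_of_tendsto_of_le_of_le tendsto_const_nhds ht
      (fun _ => zero_le) fun n => ?_
    rw [eLpNorm_sub_comm]
    exact hu n
  have hmeas := tendstoInMeasure_of_tendsto_eLpNorm (two_ne_zero) hfm hS.memLp.1 hlim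
  refine ENNReal.le_of_forall_pos_le_add fun ε hε _ => ?_
  refine eLpNorm_le_of_tendstoInMeasure ?_ hmeas hfm
  have ht2 : Tendsto (fun n : ℕ => (SO.C0 : ℝ≥0∞) * (3 * ENNReal.ofReal (1 / ((n : ℝ) + 1))))
      atTop (𝓝 0) := by
    have := ENNReal.Tendsto.const_mul (a := (SO.C0 : ℝ≥0∞)) (b := 3 * 0)
      (ENNReal.Tendsto.const_mul (a := 3) ht (Or.inr (by norm_num)))
      (Or.inr ENNReal.coe_ne_top)
    simpa using this
  have hev := (ENNReal.tendsto_nhds_zero.1 ht2) ε (by exact_mod_cast hε)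
  filter_upwards [hev] with n hn
  refine (SO.sob_test (f n) (hf n)).trans ?_
  have hb : ∑ a, eLpNorm (fun x => fderiv ℝ (f n) x (ax a)) 2 volume ≤
      ∑ a, eLpNorm (D a) 2 volume + 3 * ENNReal.ofReal (1 / ((n : ℝ) + 1)) := by
    have h3 : (3 : ℝ≥0∞) * ENNReal.ofReal (1 / ((n : ℝ) + 1)) =
        ∑ _a : Fin 3, ENNReal.ofReal (1 / ((n : ℝ) + 1)) := by simp
    rw [h3, ← Finset.sum_add_distrib]
    refine Finset.sum_le_sum fun a _ => ?_
    have hc : Continuous fun x => fderiv ℝ (f n) x (ax a) :=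
      (((hf n).1.of_le (by exact_mod_cast le_top : (1 : WithTop ℕ∞) ≤ (⊤ : ℕ∞))).continuous_fderiv
        (by norm_num)).clm_apply continuous_const
    calc eLpNorm (fun x => fderiv ℝ (f n) x (ax a)) 2 volume
        = eLpNorm (fun x => D a x - (D a x - fderiv ℝ (f n) x (ax a))) 2 volume := by
          congr 1; ext x; ring
      _ ≤ eLpNorm (D a) 2 volume +
          eLpNorm (fun x => D a x - fderiv ℝ (f n) x (ax a)) 2 volume :=
          eLpNorm_sub_le (hS.memLp_grad a).1 ((hS.memLp_grad a).1.sub hc.aestronglyMeasurable)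
            (by norm_num)
      _ ≤ _ := by gcongr; exact hD n a
  calc (SO.C0 : ℝ≥0∞) * ∑ a, eLpNorm (fun x => fderiv ℝ (f n) x (ax a)) 2 volume
      ≤ SO.C0 * (∑ a, eLpNorm (D a) 2 volume + 3 * ENNReal.ofReal (1 / ((n : ℝ) + 1))) := by
        gcongr
    _ = SO.C0 * ∑ a, eLpNorm (D a) 2 volume +
        SO.C0 * (3 * ENNReal.ofReal (1 / ((n : ℝ) + 1))) := mul_add _ _ _
    _ ≤ _ := by gcongr

theorem target_SplitV : Target_SplitV := by
  intro v hv ε hε
  obtain ⟨f, g, hf, hg, rfl⟩ := hv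
  have hfmk : MemLp (hf.1.mk f) (3 / 2) volume := (memLp_congr_ae hf.1.ae_eq_mk).mp hf
  obtain ⟨M, hM⟩ := hfmk.eLpNorm_indicator_norm_ge_le hf.1.stronglyMeasurable_mk hε
  set f' := hf.1.mk f with hf'
  have hsm : StronglyMeasurable f' := hf.1.stronglyMeasurable_mk
  set A : Set E3 := {x | M ≤ ‖f' x‖₊} with hAdef
  have hAm : MeasurableSet A := measurableSet_le measurable_const
    hsm.nnnorm.measurable.subtype_coe
  set G : ℝ := (eLpNormEssSup g volume).toReal with hG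
  have hgfin : eLpNormEssSup g volume ≠ ⊤ := by
    have := hg.2
    rw [eLpNorm_exponent_top] at this
    exact this.ne
  have hgb : ∀ᵐ x, |g x| ≤ G := by
    filter_upwards [enorm_ae_le_eLpNormEssSup g volume] with x hx
    have := (ENNReal.toReal_le_toReal (by simp) hgfin).2 hx
    simpa using this
  set b : ℝ := |M| + G with hb
  have hG0 : 0 ≤ G := ENNReal.toReal_nonneg
  set r : E3 → ℝ := fun x => Aᶜ.indicator f' x + g x with hr
  have hrm : AEStronglyMeasurable r volume :=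
    ((hsm.indicator hAm.compl).aestronglyMeasurable).add hg.1
  have hrb : ∀ᵐ x, |r x| ≤ b := by
    filter_upwards [hgb] with x hx
    have h1 : |Aᶜ.indicator f' x| ≤ |M| := by
      by_cases hxA : x ∈ A
      · rw [indicator_of_notMem (by simpa using hxA)]
        simp
      · rw [indicator_of_mem (by simpa using hxA)]
        have : ¬ M ≤ ‖f' x‖₊ := hxA
        rw [not_le, coe_nnnorm, Real.norm_eq_abs] at this
        exact this.le.trans (le_abs_self M)
    calc |r x| ≤ |Aᶜ.indicator f' x| + |g x| := abs_add_le _ _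
      _ ≤ b := add_le_add h1 hx
  refine ⟨A.indicator f', fun x => max (-b) (min b (r x)), b, ?_, hM, ?_, ?_, ?_⟩
  · exact hfmk.indicator hAm
  · exact (continuous_const.max (continuous_const.min continuous_id)).comp_aestronglyMeasurable hrm
  · intro x
    have hb0 : 0 ≤ b := by positivity
    rw [abs_le]
    exact ⟨le_max_left _ _, max_le (by linarith) (min_le_left _ _)⟩
  · filter_upwards [hrb, hf.1.ae_eq_mk] with x hx hfx
    have h2 := abs_le.1 hx
    show f x + g x = A.indicator f' x + max (-b) (min b (r x))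
    rw [min_eq_right h2.2, max_eq_right h2.1, hfx]
    show f' x + g x = A.indicator f' x + (Aᶜ.indicator f' x + g x)
    rw [← add_assoc, Set.indicator_self_add_compl_apply]

namespace SO

lemma holder (f u : E3 → ℝ) (hf : AEStronglyMeasurable f volume)
    (hu : AEStronglyMeasurable u volume) :
    ∫⁻ x, ‖f x‖ₑ * ‖u x‖ₑ ^ 2 ≤ eLpNorm f (3 / 2) volume * eLpNorm u 6 volume ^ 2 := by
  have hc : Real.HolderConjugate (3 / 2) 3 := by
    rw [Real.holderConjugate_iff]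
    norm_num
  have h := ENNReal.lintegral_mul_le_Lp_mul_Lq (volume : Measure E3) hc
    (f := fun x => ‖f x‖ₑ) (g := fun x => ‖u x‖ₑ ^ 2) hf.enorm (hu.enorm.pow_const 2)
  refine (le_of_eq ?_).trans (h.trans (le_of_eq ?_))
  · rfl
  · congr 1
    · have h32 : ((3 : ℝ≥0∞) / 2).toReal = 3 / 2 := by simp
      rw [eLpNorm_eq_lintegral_rpow_enorm_toReal (by simp)
        (ENNReal.div_ne_top (by norm_num) (by norm_num)), h32]
    · rw [eLpNorm_eq_lintegral_rpow_enorm_toReal (p := 6) (by norm_num) (by norm_num)]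
      have h6 : (6 : ℝ≥0∞).toReal = 6 := by norm_num
      rw [h6, ← ENNReal.rpow_natCast, ← ENNReal.rpow_mul]
      have e1 : (1 / (6 : ℝ)) * ((2 : ℕ) : ℝ) = 1 / 3 := by norm_num
      rw [e1]
      congr 1
      refine lintegral_congr fun x => ?_
      rw [← ENNReal.rpow_natCast, ← ENNReal.rpow_mul]
      norm_num

lemma sq_sum_le (t : Fin 3 → ℝ≥0∞) : (∑ a, t a) ^ 2 ≤ 3 * ∑ a, t a ^ 2 := by
  by_cases h : ∃ a, t a = ⊤
  · obtain ⟨a, ha⟩ := h
    have : ∑ a, t a ^ 2 = ⊤ := by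
      rw [ENNReal.sum_eq_top]
      exact ⟨a, Finset.mem_univ a, by simp [ha]⟩
    rw [this]
    simp
  · push Not at h
    have ht : ∀ a, t a = ((t a).toNNReal : ℝ≥0∞) := fun a => (ENNReal.coe_toNNReal (h a)).symm
    have h3 : (∑ a, (t a).toNNReal) ^ 2 ≤ 3 * ∑ a, (t a).toNNReal ^ 2 := by
      have := sq_sum_le_card_mul_sum_sq (s := (Finset.univ : Finset (Fin 3)))
        (f := fun a => (t a).toNNReal)
      simpa using this
    calc (∑ a, t a) ^ 2 = (((∑ a, (t a).toNNReal) ^ 2 : ℝ≥0) : ℝ≥0∞) := by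
          push_cast
          congr 1
          exact Finset.sum_congr rfl fun a _ => ht a
      _ ≤ ((3 * ∑ a, (t a).toNNReal ^ 2 : ℝ≥0) : ℝ≥0∞) := by exact_mod_cast h3
      _ = 3 * ∑ a, t a ^ 2 := by
          push_cast
          congr 1
          exact Finset.sum_congr rfl fun a _ => by rw [← ht a]

lemma sq2 (g : E3 → ℝ) : eLpNorm g 2 volume ^ 2 = ∫⁻ x, ‖g x‖ₑ ^ 2 := by
  have h := eLpNorm_nnreal_pow_eq_lintegral (μ := (volume : Measure E3)) (f := g)
    (p := 2) (by norm_num)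
  have e : (((2 : ℝ≥0) : ℝ)) = ((2 : ℕ) : ℝ) := by norm_num
  rw [e] at h
  simp only [ENNReal.rpow_natCast] at h
  have e2 : ((2 : ℝ≥0) : ℝ≥0∞) = 2 := by norm_num
  rw [e2] at h
  exact h

end SO

theorem target_FormBound (hS : Target_Sobolev) (hV : Target_SplitV) : Target_FormBound := by
  obtain ⟨S, hS⟩ := hS
  intro v hv ε hε
  set δ : ℝ≥0 := ε / (3 * S ^ 2 + 1) with hδ
  have hδ0 : 0 < (δ : ℝ) := by
    have : 0 < δ := by positivity
    exact_mod_cast this
  obtain ⟨vs, vb, b, hvs, hvsn, hvbm, hvb, hve⟩ := hV v hv δ hδ0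
  refine ⟨‖b‖₊, fun u D hu => ?_⟩
  have hum : AEStronglyMeasurable u volume := hu.memLp.1
  have h1 : ∫⁻ x, ‖v x‖ₑ * ‖u x‖ₑ ^ 2 ≤
      (∫⁻ x, ‖vs x‖ₑ * ‖u x‖ₑ ^ 2) + ∫⁻ x, ‖vb x‖ₑ * ‖u x‖ₑ ^ 2 := by
    have hm : AEMeasurable (fun x => ‖vs x‖ₑ * ‖u x‖ₑ ^ 2) (volume : Measure E3) :=
      hvs.1.enorm.mul (hum.enorm.pow_const 2)
    rw [← lintegral_add_left' hm]
    refine lintegral_mono_ae ?_
    filter_upwards [hve] with x hx
    rw [hx, ← add_mul]
    gcongr
    exact enorm_add_le _ _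
  have h2 : ∫⁻ x, ‖vb x‖ₑ * ‖u x‖ₑ ^ 2 ≤ (‖b‖₊ : ℝ≥0∞) * ∫⁻ x, ‖u x‖ₑ ^ 2 := by
    rw [← lintegral_const_mul'' _ (hum.enorm.pow_const 2)]
    refine lintegral_mono fun x => ?_
    gcongr
    have h3 : ‖vb x‖ ≤ |b| := (hvb x).trans (le_abs_self b)
    have h4 : ‖vb x‖₊ ≤ ‖b‖₊ := by
      rw [← NNReal.coe_le_coe]
      simpa using h3
    exact ENNReal.coe_le_coe.2 h4
  have h3 : ∫⁻ x, ‖vs x‖ₑ * ‖u x‖ₑ ^ 2 ≤ ε * ∑ a, ∫⁻ x, ‖D a x‖ₑ ^ 2 := by
    refine (SO.holder vs u hvs.1 hum).trans ?_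
    have h4 : eLpNorm u 6 volume ^ 2 ≤ (S : ℝ≥0∞) ^ 2 * (3 * ∑ a, ∫⁻ x, ‖D a x‖ₑ ^ 2) := by
      calc eLpNorm u 6 volume ^ 2 ≤ (S * ∑ a, eLpNorm (D a) 2 volume) ^ 2 := by
            gcongr
            exact hS u D hu
        _ = (S : ℝ≥0∞) ^ 2 * (∑ a, eLpNorm (D a) 2 volume) ^ 2 := mul_pow _ _ _
        _ ≤ (S : ℝ≥0∞) ^ 2 * (3 * ∑ a, eLpNorm (D a) 2 volume ^ 2) := by
            gcongr
            exact SO.sq_sum_le _
        _ = _ := by simp only [SO.sq2]
    have h5 : eLpNorm vs (3 / 2) volume ≤ (δ : ℝ≥0∞) := by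
      refine hvsn.trans (le_of_eq ?_)
      exact ENNReal.ofReal_coe_nnreal
    calc eLpNorm vs (3 / 2) volume * eLpNorm u 6 volume ^ 2
        ≤ (δ : ℝ≥0∞) * ((S : ℝ≥0∞) ^ 2 * (3 * ∑ a, ∫⁻ x, ‖D a x‖ₑ ^ 2)) := by gcongr
      _ = ((δ * (3 * S ^ 2) : ℝ≥0) : ℝ≥0∞) * ∑ a, ∫⁻ x, ‖D a x‖ₑ ^ 2 := by
          push_cast; ring
      _ ≤ ε * ∑ a, ∫⁻ x, ‖D a x‖ₑ ^ 2 := by
          gcongr
          rw [hδ, div_mul_eq_mul_div]
          refine div_le_of_le_mul₀ (by positivity) (by positivity) ?_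
          gcongr
          exact le_self_add
  exact h1.trans (add_le_add h3 h2)

end Pool.Agent.HK
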