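import Pool.Agent.HK.Defs

/-!
# Statements of the parts of the proof (each `Target_*` is a proposition, proved in its own file)
-/

open MeasureTheory Set Filter Topology
open scoped ENNReal NNReal InnerProductSpace

namespace Pool.Agent.HK

/-! ## Part 1: Sobolev toolbox -/

/-- Convolution of `f` with the kernel `φ`. -/
noncomputable def mol {E : Type*} [NormedAddCommGroup E] [MeasureSpace E]
    (φ f : E → ℝ) (x : E) : ℝ := ∫ y, φ (x - y) * f y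

/-- A sequence of standard mollifiers. -/
structure Mollifier {E : Type*} [NormedAddCommGroup E] [NormedSpace ℝ E] [MeasureSpace E]
    (φ : ℕ → E → ℝ) : Prop where
  test : ∀ k, IsTest (φ k)
  nonneg : ∀ k x, 0 ≤ φ k x
  even : ∀ k x, φ k (-x) = φ k x
  supp : ∀ (k : ℕ) (x : E), 1 / ((k : ℝ) + 1) ≤ ‖x‖ → φ k x = 0
  integral : ∀ k, ∫ x, φ k x = 1

/-- JOB M. Mollification in `L^p`, `1 ≤ p < ∞`. -/
def Target_Moll : Prop :=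
  ∀ (E : Type) [NormedAddCommGroup E] [NormedSpace ℝ E] [FiniteDimensional ℝ E]
    [MeasureSpace E] [BorelSpace E] [(volume : Measure E).IsAddHaarMeasure],
    (∃ φ : ℕ → E → ℝ, Mollifier φ) ∧
    ∀ φ : ℕ → E → ℝ, Mollifier φ → ∀ p : ℝ≥0∞, 1 ≤ p → p ≠ ⊤ → ∀ f : E → ℝ, MemLp f p volume →
      (∀ k, ContDiff ℝ (⊤ : ℕ∞) (mol (φ k) f)) ∧
      (∀ k, MemLp (mol (φ k) f) p volume) ∧
      (∀ k, eLpNorm (mol (φ k) f) p volume ≤ eLpNorm f p volume) ∧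
      Tendsto (fun k => eLpNorm (fun x => mol (φ k) f x - f x) p volume) atTop (𝓝 0) ∧
      (∀ k x e, fderiv ℝ (mol (φ k) f) x e = ∫ y, fderiv ℝ (φ k) (x - y) e * f y) ∧
      (∀ k x e g, WeakDeriv f e g → fderiv ℝ (mol (φ k) f) x e = mol (φ k) g x)

/-- JOB A (uses M). Test functions are dense in the Sobolev space. -/
def Target_Approx : Prop :=
  ∀ (E ι : Type) [NormedAddCommGroup E] [NormedSpace ℝ E] [FiniteDimensional ℝ E]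
    [MeasureSpace E] [BorelSpace E] [(volume : Measure E).IsAddHaarMeasure] [Fintype ι]
    (e : ι → E) (u : E → ℝ) (D : ι → E → ℝ), Sob e u D →
    ∀ ε : ℝ≥0∞, 0 < ε → ∃ f : E → ℝ, IsTest f ∧ eLpNorm (fun x => u x - f x) 2 volume ≤ ε ∧
      ∀ i, eLpNorm (fun x => D i x - fderiv ℝ f x (e i)) 2 volume ≤ ε

/-- JOB Z (uses A). The weak derivative vanishes a.e. on the zero set. -/
def Target_Zero : Prop :=
  ∀ (E : Type) [NormedAddCommGroup E] [NormedSpace ℝ E] [FiniteDimensional ℝ E]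
    [MeasureSpace E] [BorelSpace E] [(volume : Measure E).IsAddHaarMeasure]
    (e : E) (u g : E → ℝ), MemLp u 2 volume → MemLp g 2 volume → WeakDeriv u e g →
    ∀ᵐ x, u x = 0 → g x = 0

/-- The configuration with `x` inserted at place `i`. -/
def ins {n : ℕ} (i : Fin (n + 1)) (x : E3) (y : Conf n) : Conf (n + 1) :=
  Fin.insertNth (α := fun _ => E3) i x y

/-- JOB SL (uses A). Slices of weak derivatives. -/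
def Target_Slice : Prop :=
  ∀ (n : ℕ) (i : Fin (n + 1)),
    MeasurePreserving (fun p : E3 × Conf n => ins i p.1 p.2) volume volume ∧
    (∀ (u g : Conf (n + 1) → ℝ) (a : Fin 3), MemLp u 2 volume → MemLp g 2 volume →
      (WeakDeriv u (dir (i, a)) g ↔
        ∀ᵐ y : Conf n, WeakDeriv (fun x : E3 => u (ins i x y)) (ax a) (fun x => g (ins i x y)))) ∧
    (∀ (u g : Conf (n + 1) → ℝ) (k : Fin n) (a : Fin 3), MemLp u 2 volume → MemLp g 2 volume →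
      (WeakDeriv u (dir (i.succAbove k, a)) g ↔
        ∀ᵐ x : E3, WeakDeriv (fun y : Conf n => u (ins i x y)) (dir (k, a))
          (fun y => g (ins i x y))))

/-- JOB S (uses A). Sobolev inequality on `ℝ³`. -/
def Target_Sobolev : Prop :=
  ∃ S : ℝ≥0, ∀ (u : E3 → ℝ) (D : Fin 3 → E3 → ℝ), Sob ax u D →
    eLpNorm u 6 volume ≤ S * ∑ a, eLpNorm (D a) 2 volume

/-- JOB S. Splitting of a potential in a small `L^{3/2}` part and a bounded part. -/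
def Target_SplitV : Prop :=
  ∀ v : E3 → ℝ, XStar v → ∀ ε : ℝ, 0 < ε → ∃ (vs vb : E3 → ℝ) (b : ℝ),
    MemLp vs (3 / 2) volume ∧ eLpNorm vs (3 / 2) volume ≤ ENNReal.ofReal ε ∧
    AEStronglyMeasurable vb volume ∧ (∀ x, |vb x| ≤ b) ∧ ∀ᵐ x, v x = vs x + vb x

/-- JOB S (uses Sobolev, SplitV). Potentials in `L^{3/2}+L^∞` are infinitesimally form bounded. -/
def Target_FormBound : Prop :=
  ∀ v : E3 → ℝ, XStar v → ∀ ε : ℝ≥0, 0 < ε → ∃ C : ℝ≥0,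
    ∀ (u : E3 → ℝ) (D : Fin 3 → E3 → ℝ), Sob ax u D →
      ∫⁻ x, ‖v x‖ₑ * ‖u x‖ₑ ^ 2 ≤
        ε * (∑ a, ∫⁻ x, ‖D a x‖ₑ ^ 2) + C * ∫⁻ x, ‖u x‖ₑ ^ 2

/-- JOB S (uses A). Hardy's inequality on `ℝ³`. -/
def Target_Hardy : Prop :=
  ∀ (c : E3) (u : E3 → ℝ) (D : Fin 3 → E3 → ℝ), Sob ax u D →
    ∫⁻ x, ‖u x‖ₑ ^ 2 / ‖x - c‖ₑ ^ 2 ≤ 4 * ∑ a, ∫⁻ x, ‖D a x‖ₑ ^ 2

/-- JOB NB (uses SL, FormBound, Hardy). The same for `N` particles. -/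
def Target_NBody : Prop :=
  ∀ (N : ℕ),
    (∀ v : E3 → ℝ, XStar v → ∀ ε : ℝ≥0, 0 < ε → ∃ C : ℝ≥0,
      ∀ (u : Conf N → ℝ) (D : Fin N × Fin 3 → Conf N → ℝ), Sob dir u D → ∀ i : Fin N,
        ∫⁻ x : Conf N, ‖v (x i)‖ₑ * ‖u x‖ₑ ^ 2 ≤
          ε * (∑ a, ∫⁻ x, ‖D (i, a) x‖ₑ ^ 2) + C * ∫⁻ x, ‖u x‖ₑ ^ 2) ∧
    (∀ (u : Conf N → ℝ) (D : Fin N × Fin 3 → Conf N → ℝ), Sob dir u D → ∀ (i : Fin N) (c : E3),
        ∫⁻ x : Conf N, ‖u x‖ₑ ^ 2 / ‖x i - c‖ₑ ^ 2 ≤ 4 * ∑ a, ∫⁻ x, ‖D (i, a) x‖ₑ ^ 2) ∧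
    (∀ (u : Conf N → ℝ) (D : Fin N × Fin 3 → Conf N → ℝ), Sob dir u D → ∀ i j : Fin N, i ≠ j →
        ∫⁻ x : Conf N, ‖u x‖ₑ ^ 2 / ‖x i - x j‖ₑ ^ 2 ≤ 4 * ∑ a, ∫⁻ x, ‖D (i, a) x‖ₑ ^ 2)

/-! ## Part 2: from ground states to one real eigenfunction, and the level set splitting -/

/-- Weak `N`-particle Schroedinger equation, tested with every `η ∈ H¹` satisfying `P`. -/
def WeakSchr {N : ℕ} (v : E3 → ℝ) (E : ℝ) (u : Conf N → ℝ) (D : Fin N × Fin 3 → Conf N → ℝ)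
    (P : (Conf N → ℝ) → Prop) : Prop :=
  ∀ (η : Conf N → ℝ) (Dη : Fin N × Fin 3 → Conf N → ℝ), Sob dir η Dη → P η →
    1 / 2 * (∑ p, ∫ x, D p x * Dη p x) + ∫ x, (ext v x + coulomb x) * (u x * η x) =
      E * ∫ x, u x * η x

/-- JOB V (uses NB). The variational argument of Hohenberg and Kohn. -/
def Target_Var : Prop :=
  ∀ (n : ℕ) (v₁ v₂ ρ : E3 → ℝ), XStar v₁ → XStar v₂ →
    IsGroundStateDensity n v₁ ρ → IsGroundStateDensity n v₂ ρ →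
    ∃ (u : Conf (n + 1) → ℝ) (D : Fin (n + 1) × Fin 3 → Conf (n + 1) → ℝ) (E c : ℝ),
      Sob dir u D ∧ (¬ ∀ᵐ x, u x = 0) ∧ WeakSchr v₁ E u D (fun _ => True) ∧
      ∀ᵐ x, (ext v₁ x - ext v₂ x - c) * u x = 0

/-- JOB SP (uses Z, SL). The level set splitting. -/
def Target_Split : Prop :=
  ∀ (n : ℕ) (w : E3 → ℝ) (c : ℝ) (u : Conf (n + 1) → ℝ)
    (D : Fin (n + 1) × Fin 3 → Conf (n + 1) → ℝ),
    Measurable w → Sob dir u D → (¬ ∀ᵐ x, u x = 0) → (∀ᵐ x, ext w x ≠ c → u x = 0) →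
    ∃ s : Fin (n + 1) → ℝ, ∑ i, s i = c ∧
      (¬ ∀ᵐ x : Conf (n + 1), (∀ i, w (x i) = s i) → u x = 0) ∧
      Sob dir (indicator {x | ∀ i, w (x i) = s i} u)
        (fun p => indicator {x | ∀ j, j ≠ p.1 → w (x j) = s j} (D p)) ∧
      ∀ (η : Conf (n + 1) → ℝ) (Dη : Fin (n + 1) × Fin 3 → Conf (n + 1) → ℝ), Sob dir η Dη →
        (∀ᵐ x : Conf (n + 1), (¬ ∀ j, j ≠ 0 → w (x j) = s j) → η x = 0) →
        (∀ᵐ x : Conf (n + 1), indicator {x | ∀ i, w (x i) = s i} u x * η x = u x * η x) ∧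
        ∀ p, ∀ᵐ x : Conf (n + 1),
          indicator {x | ∀ j, j ≠ p.1 → w (x j) = s j} (D p) x * Dη p x = D p x * Dη p x

/-- Final reduction: an eigenfunction on a cell which vanishes when particle `0` is in a set of
positive measure is zero. -/
def Target_Cell : Prop :=
  ∀ (n : ℕ) (v : E3 → ℝ) (E : ℝ) (C' : Set (Conf n)) (B : Set E3) (φ : Conf (n + 1) → ℝ)
    (D : Fin (n + 1) × Fin 3 → Conf (n + 1) → ℝ),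
    XStar v → MeasurableSet C' → MeasurableSet B → 0 < volume B → Sob dir φ D →
    (∀ᵐ x : Conf (n + 1), Fin.tail x ∉ C' → φ x = 0) →
    (∀ᵐ x : Conf (n + 1), x 0 ∈ B → φ x = 0) →
    WeakSchr v E φ D (fun η => ∀ᵐ x : Conf (n + 1), Fin.tail x ∉ C' → η x = 0) →
    ∀ᵐ x, φ x = 0

/-- JOB FIN (uses Var, Split, Cell). The theorem. -/
def Target_Main : Prop :=
  ∀ (n : ℕ) (v₁ v₂ ρ : E3 → ℝ), XStar v₁ → XStar v₂ →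
    IsGroundStateDensity n v₁ ρ → IsGroundStateDensity n v₂ ρ → ∃ c : ℝ, ∀ᵐ x, v₁ x - v₂ x = c

/-! ## Part 3: abstract one-variable unique continuation -/

/-- JOB LM. Lax-Milgram: the compact picture of a closed form. -/
def Target_LM : Prop :=
  ∀ (W H : Type) [NormedAddCommGroup W] [InnerProductSpace ℝ W] [CompleteSpace W]
    [NormedAddCommGroup H] [InnerProductSpace ℝ H] [CompleteSpace H]
    (ι : W →L[ℝ] H) (a : W →L[ℝ] W →L[ℝ] ℝ), Function.Injective ι → (∀ f g, a f g = a g f) →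
    IsCoercive a →
    ∃ (K : H →L[ℝ] H) (R : ℝ → H →L[ℝ] H) (k : H → W),
      (∀ x y, ⟪K x, y⟫_ℝ = ⟪x, K y⟫_ℝ) ∧ (∀ x, 0 ≤ ⟪K x, x⟫_ℝ) ∧
      (∀ h, ι (k h) = K h) ∧ (∀ h f, a (k h) f = ⟪h, ι f⟫_ℝ) ∧
      (∀ ε > 0, ∀ x, K (R ε x) + ε • R ε x = x) ∧ (∀ ε > 0, ∀ x, R ε (K x) + ε • R ε x = x) ∧
      ∀ f : W, Tendsto (fun ε => ⟪R ε (ι f), ι f⟫_ℝ) (𝓝[>] 0) (𝓝 (a f f))

/-- JOB LI. An `L²` function of the pair `x, y` is an `L²` function of `x` with values in `L²(dy)`. -/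
def Target_Lift : Prop :=
  ∀ (n : ℕ) (φ : Conf (n + 1) → ℝ), MemLp φ 2 volume →
    ∃ Ψ : E3 → Lp ℝ 2 (volume : Measure (Conf n)), MemLp Ψ 2 volume ∧
      ∀ᵐ x : E3, (Ψ x : Conf n → ℝ) =ᵐ[volume] fun y => φ (Fin.cons x y)

/-- JOB OP (uses LM, NBody). The operator `A = -½Δ + ∑ v(y_k) + κ` on `L²(ℝ^{3n})` with zero
conditions off `C'`, through `K = A⁻¹` and `R ε = (K + ε)⁻¹`. -/
def Target_Op : Prop :=
  ∀ (n : ℕ) (v : E3 → ℝ) (C' : Set (Conf n)), XStar v → MeasurableSet C' →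
    ∃ (κ c₁ : ℝ) (K : Lp ℝ 2 (volume : Measure (Conf n)) →L[ℝ] Lp ℝ 2 (volume : Measure (Conf n)))
      (R : ℝ → Lp ℝ 2 (volume : Measure (Conf n)) →L[ℝ] Lp ℝ 2 (volume : Measure (Conf n))),
      0 < c₁ ∧ (∀ x y, ⟪K x, y⟫_ℝ = ⟪x, K y⟫_ℝ) ∧ (∀ x, 0 ≤ ⟪K x, x⟫_ℝ) ∧
      (∀ ε > 0, ∀ x, K (R ε x) + ε • R ε x = x) ∧ (∀ ε > 0, ∀ x, R ε (K x) + ε • R ε x = x) ∧
      (∀ h : Lp ℝ 2 (volume : Measure (Conf n)), ∃ Dk : Fin n × Fin 3 → Conf n → ℝ,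
        Sob dir (K h : Conf n → ℝ) Dk ∧ (∀ᵐ y, y ∉ C' → (K h : Conf n → ℝ) y = 0) ∧
        ∀ (f : Conf n → ℝ) (Df : Fin n × Fin 3 → Conf n → ℝ), Sob dir f Df →
          (∀ᵐ y, y ∉ C' → f y = 0) →
          1 / 2 * (∑ p, ∫ y, Df p y * Dk p y)
            + (∫ y, ext v y * (f y * (K h : Conf n → ℝ) y))
            + κ * (∫ y, f y * (K h : Conf n → ℝ) y) = ∫ y, f y * (h : Conf n → ℝ) y) ∧
      (∀ (f : Lp ℝ 2 (volume : Measure (Conf n))) (Df : Fin n × Fin 3 → Conf n → ℝ),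
        Sob dir (f : Conf n → ℝ) Df → (∀ᵐ y, y ∉ C' → (f : Conf n → ℝ) y = 0) →
        Tendsto (fun ε => ⟪R ε f, f⟫_ℝ) (𝓝[>] 0) (𝓝 (1 / 2 * (∑ p, ∫ y, Df p y ^ 2)
            + (∫ y, ext v y * (f : Conf n → ℝ) y ^ 2)
            + κ * (∫ y, (f : Conf n → ℝ) y ^ 2))) ∧
        c₁ * ((∑ p, ∫ y, Df p y ^ 2) + ∫ y, (f : Conf n → ℝ) y ^ 2) ≤
          1 / 2 * (∑ p, ∫ y, Df p y ^ 2) + (∫ y, ext v y * (f : Conf n → ℝ) y ^ 2)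
            + κ * (∫ y, (f : Conf n → ℝ) y ^ 2))

/-- A solution `Ψ : ℝ³ → H` of `-½ΔΨ + vΨ + AΨ = G` with `A = K⁻¹`, `|G| ≤ C₁ α`,
`α = ‖A^{1/2} Ψ‖`; `R ε = (K + ε)⁻¹`. -/
structure UCData (H : Type) [NormedAddCommGroup H] [InnerProductSpace ℝ H] [CompleteSpace H]
    [SecondCountableTopology H] where
  K : H →L[ℝ] H
  R : ℝ → H →L[ℝ] H
  v : E3 → ℝ
  Ψ : E3 → H
  G : E3 → H
  D : Fin 3 → E3 → H
  α : E3 → ℝ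
  C₁ : ℝ
  C₁_nonneg : 0 ≤ C₁
  hv : XStar v
  K_symm : ∀ x y, ⟪K x, y⟫_ℝ = ⟪x, K y⟫_ℝ
  K_pos : ∀ x, 0 ≤ ⟪K x, x⟫_ℝ
  KR : ∀ ε > 0, ∀ x, K (R ε x) + ε • R ε x = x
  RK : ∀ ε > 0, ∀ x, R ε (K x) + ε • R ε x = x
  sob : Sob ax Ψ D
  memG : MemLp G 2 volume
  memα : MemLp α 2 volume
  α_nonneg : ∀ x, 0 ≤ α x
  lim : ∀ᵐ x, Tendsto (fun ε => ⟪R ε (Ψ x), Ψ x⟫_ℝ) (𝓝[>] 0) (𝓝 (α x ^ 2))
  G_le : ∀ᵐ x, ‖G x‖ ≤ C₁ * α x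
  Ψ_le : ∀ᵐ x, ‖Ψ x‖ ≤ C₁ * α x
  eqn : ∀ ζ : E3 → ℝ, IsTest ζ → ∀ h : H,
    1 / 2 * (∑ a, ∫ x, fderiv ℝ ζ x (ax a) * ⟪D a x, K h⟫_ℝ)
      + (∫ x, v x * (ζ x * ⟪Ψ x, K h⟫_ℝ)) + (∫ x, ζ x * ⟪Ψ x, h⟫_ℝ)
      = ∫ x, ζ x * ⟪G x, K h⟫_ℝ

/-- Abstract unique continuation. -/
def Target_UCP : Prop :=
  ∀ (H : Type) [NormedAddCommGroup H] [InnerProductSpace ℝ H] [CompleteSpace H]
    [SecondCountableTopology H] (d : UCData H) (B : Set E3), MeasurableSet B → 0 < volume B →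
    (∀ᵐ x, x ∈ B → d.Ψ x = 0) → ∀ᵐ x, d.Ψ x = 0

/-- JOB T1 (uses A, FormBound). Weak solutions may be tested with `H¹` functions. -/
def Target_TestH1 : Prop :=
  ∀ (V : E3 → ℝ) (u : E3 → ℝ) (D : Fin 3 → E3 → ℝ) (g : E3 → ℝ), XStar V → Sob ax u D →
    MemLp g 2 volume →
    (∀ ζ : E3 → ℝ, IsTest ζ →
      1 / 2 * (∑ a, ∫ x, fderiv ℝ ζ x (ax a) * D a x) + (∫ x, V x * (ζ x * u x)) =
        ∫ x, ζ x * g x) →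
    ∀ (η : E3 → ℝ) (Dη : Fin 3 → E3 → ℝ), Sob ax η Dη →
      1 / 2 * (∑ a, ∫ x, Dη a x * D a x) + (∫ x, V x * (η x * u x)) = ∫ x, η x * g x

/-- JOB CA (uses T1, FormBound). Caccioppoli's inequality. -/
def Target_Cacc : Prop :=
  ∀ (H : Type) [NormedAddCommGroup H] [InnerProductSpace ℝ H] [CompleteSpace H]
    [SecondCountableTopology H] (d : UCData H), ∃ C : ℝ, ∀ (x₀ : E3) (r : ℝ), 0 < r → r ≤ 1 →
      ∫ x in Metric.ball x₀ r, ((∑ a, ‖d.D a x‖ ^ 2) + d.α x ^ 2) ≤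
        C / r ^ 2 * ∫ x in Metric.ball x₀ (2 * r), ‖d.Ψ x‖ ^ 2

/-- JOB OR (uses CA, Sobolev). Vanishing of infinite order at a density point of the zero set. -/
def Target_Order : Prop :=
  ∀ (H : Type) [NormedAddCommGroup H] [InnerProductSpace ℝ H] [CompleteSpace H]
    [SecondCountableTopology H] (d : UCData H) (B : Set E3), MeasurableSet B → 0 < volume B →
    (∀ᵐ x, x ∈ B → d.Ψ x = 0) →
    ∃ x₀ : E3, ∀ M : ℕ, ∃ C : ℝ, ∀ r : ℝ, 0 < r → r ≤ 1 →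
      ∫ x in Metric.ball x₀ r, ‖d.Ψ x‖ ^ 2 ≤ C * r ^ M

/-- Supported in the closed annulus `s ≤ |x - x₀| ≤ 1`. -/
def AnnSupp {F : Type*} [Zero F] (x₀ : E3) (s : ℝ) (f : E3 → F) : Prop :=
  ∀ x, ‖x - x₀‖ < s ∨ 1 < ‖x - x₀‖ → f x = 0

/-- JOB ST (uses FC, M, TestH1, Sobolev). Scalar Carleman inequality with critical potential,
uniform in the spectral parameter `lam`. The weight exponent is `τ = k + 1`. -/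
def Target_Star : Prop :=
  ∃ ε₀ C : ℝ, 0 < ε₀ ∧ 0 < C ∧ ∀ b : ℝ, ∃ k₀ : ℕ, ∀ k : ℕ, k₀ ≤ k → ∀ lam : ℝ, 0 ≤ lam →
    ∀ (vs vb : E3 → ℝ), MemLp vs (3 / 2) volume →
      eLpNorm vs (3 / 2) volume ≤ ENNReal.ofReal ε₀ →
      AEStronglyMeasurable vb volume → (∀ x, |vb x| ≤ b) →
    ∀ (u : E3 → ℝ) (D : Fin 3 → E3 → ℝ) (g : E3 → ℝ) (s : ℝ), 0 < s → Sob ax u D →
      MemLp g 2 volume → AnnSupp 0 s u → (∀ a, AnnSupp 0 s (D a)) → AnnSupp 0 s g →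
      (∀ ζ : E3 → ℝ, IsTest ζ →
        1 / 2 * (∑ a, ∫ x, fderiv ℝ ζ x (ax a) * D a x)
          + (∫ x, (vs x + vb x) * (ζ x * u x)) + lam * (∫ x, ζ x * u x) = ∫ x, ζ x * g x) →
      ((k : ℝ) + 1) ^ 2 * (∫ x, (‖x‖⁻¹) ^ (2 * k + 4) * u x ^ 2)
          + lam * (∫ x, (‖x‖⁻¹) ^ (2 * k + 2) * u x ^ 2)
        ≤ C * ∫ x, (‖x‖⁻¹) ^ (2 * k) * g x ^ 2

/-- JOB CH (uses Star). Carleman inequality for vector valued functions and a bounded nonnegative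
operator `M`. -/
def Target_CarlH : Prop :=
  ∃ ε₀ C : ℝ, 0 < ε₀ ∧ 0 < C ∧ ∀ b : ℝ, ∃ k₀ : ℕ, ∀ k : ℕ, k₀ ≤ k →
    ∀ (H : Type) [NormedAddCommGroup H] [InnerProductSpace ℝ H] [CompleteSpace H]
      [SecondCountableTopology H] (M : H →L[ℝ] H), (∀ x y, ⟪M x, y⟫_ℝ = ⟪x, M y⟫_ℝ) →
      (∀ x, 0 ≤ ⟪M x, x⟫_ℝ) →
    ∀ (vs vb : E3 → ℝ), MemLp vs (3 / 2) volume →
      eLpNorm vs (3 / 2) volume ≤ ENNReal.ofReal ε₀ →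
      AEStronglyMeasurable vb volume → (∀ x, |vb x| ≤ b) →
    ∀ (x₀ : E3) (Ψ : E3 → H) (D : Fin 3 → E3 → H) (g : E3 → H) (s : ℝ), 0 < s → Sob ax Ψ D →
      MemLp g 2 volume → AnnSupp x₀ s Ψ → (∀ a, AnnSupp x₀ s (D a)) → AnnSupp x₀ s g →
      (∀ ζ : E3 → ℝ, IsTest ζ → ∀ h : H,
        1 / 2 * (∑ a, ∫ x, fderiv ℝ ζ x (ax a) * ⟪D a x, h⟫_ℝ)
          + (∫ x, (vs x + vb x) * (ζ x * ⟪Ψ x, h⟫_ℝ)) + (∫ x, ζ x * ⟪M (Ψ x), h⟫_ℝ)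
          = ∫ x, ζ x * ⟪g x, h⟫_ℝ) →
      ((k : ℝ) + 1) ^ 2 * (∫ x, (‖x - x₀‖⁻¹) ^ (2 * k + 4) * ‖Ψ x‖ ^ 2)
          + (∫ x, (‖x - x₀‖⁻¹) ^ (2 * k + 2) * ⟪M (Ψ x), Ψ x⟫_ℝ)
        ≤ C * ∫ x, (‖x - x₀‖⁻¹) ^ (2 * k) * ‖g x‖ ^ 2

/-! ## Part 4: the free Carleman inequality -/

/-- The Laplacian. -/
noncomputable def lap (u : E3 → ℝ) (x : E3) : ℝ :=
  ∑ a, fderiv ℝ (fun y => fderiv ℝ u y (ax a)) x (ax a)

/-- Continuous with compact support away from the origin. -/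
def CcOff (F : E3 → ℝ) : Prop :=
  Continuous F ∧ ∃ s R : ℝ, 0 < s ∧ ∀ x, ‖x‖ < s ∨ R < ‖x‖ → F x = 0

/-- JOB FC (uses PO, LO, HI). The free Carleman inequality. -/
def Target_FC : Prop :=
  ∃ C : ℝ≥0, ∀ τ : ℕ, 1 ≤ τ → ∀ lam : ℝ, 0 ≤ lam → ∀ u F₁ F₂ : E3 → ℝ,
    ContDiff ℝ (⊤ : ℕ∞) u → CcOff u → CcOff F₁ → CcOff F₂ →
    (∀ x, - lap u x + lam * u x = F₁ x + F₂ x) →
    eLpNorm (fun x => (‖x‖⁻¹) ^ τ * u x) 6 volume ≤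
      C * (eLpNorm (fun x => (‖x‖⁻¹) ^ τ * F₁ x) (6 / 5) volume +
        ENNReal.ofReal ((τ : ℝ) ^ (-(2 / 3) : ℝ)) *
          eLpNorm (fun x => (‖x‖⁻¹) ^ τ * (‖x‖ * F₂ x)) 2 volume) ∧
    ENNReal.ofReal ((τ : ℝ) ^ (2 / 3 : ℝ)) *
        eLpNorm (fun x => (‖x‖⁻¹) ^ (τ + 1) * u x) 2 volume ≤
      C * (eLpNorm (fun x => (‖x‖⁻¹) ^ τ * F₁ x) (6 / 5) volume +
        ENNReal.ofReal ((τ : ℝ) ^ (-(1 / 3) : ℝ)) *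
          eLpNorm (fun x => (‖x‖⁻¹) ^ τ * (‖x‖ * F₂ x)) 2 volume)

/-- The unit sphere of `ℝ³`. -/
abbrev S2 : Type := Metric.sphere (0 : E3) 1

/-- The surface measure of the unit sphere. -/
noncomputable def sig : Measure S2 := (volume : Measure E3).toSphere

instance : IsFiniteMeasure sig := by unfold sig; infer_instance

/-- The weighted function in cylindrical coordinates `x = e^t ω`. -/
noncomputable def cyl (τ : ℕ) (β : ℝ) (u : E3 → ℝ) (p : ℝ × S2) : ℝ :=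
  Real.exp ((β - τ) * p.1) * u (Real.exp p.1 • (p.2 : E3))

/-- JOB PO. Logarithmic polar coordinates. -/
def Target_Polar : Prop :=
  (∀ g : E3 → ℝ≥0∞, Measurable g → ∫⁻ x, g x =
    ∫⁻ t : ℝ, ENNReal.ofReal (Real.exp (3 * t)) * ∫⁻ ω : S2, g (Real.exp t • (ω : E3)) ∂sig) ∧
  (∀ g : E3 → ℝ, Integrable g volume → ∫ x, g x =
    ∫ t : ℝ, Real.exp (3 * t) * ∫ ω : S2, g (Real.exp t • (ω : E3)) ∂sig) ∧
  ∀ (τ : ℕ) (u : E3 → ℝ), Measurable u →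
    eLpNorm (fun x => (‖x‖⁻¹) ^ τ * u x) 6 volume
      = eLpNorm (cyl τ (1 / 2) u) 6 ((volume : Measure ℝ).prod sig) ∧
    eLpNorm (fun x => (‖x‖⁻¹) ^ (τ + 1) * u x) 2 volume
      = eLpNorm (cyl τ (1 / 2) u) 2 ((volume : Measure ℝ).prod sig) ∧
    eLpNorm (fun x => (‖x‖⁻¹) ^ τ * u x) (6 / 5) volume
      = eLpNorm (cyl τ (5 / 2) u) (6 / 5) ((volume : Measure ℝ).prod sig) ∧
    eLpNorm (fun x => (‖x‖⁻¹) ^ τ * (‖x‖ * u x)) 2 volume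
      = eLpNorm (cyl τ (5 / 2) u) 2 ((volume : Measure ℝ).prod sig)

/-- An orthonormal basis of `L²(S²)` of spherical harmonics, given as harmonic homogeneous
functions on `ℝ³`, with the bound for the reproducing kernel. -/
structure SphSystem where
  d : ℕ → ℕ
  Y : (j : ℕ) → Fin (d j) → E3 → ℝ
  c₀ : ℝ
  smooth : ∀ j m, ContDiff ℝ (⊤ : ℕ∞) (Y j m)
  homog : ∀ j m (c : ℝ) (x : E3), Y j m (c • x) = c ^ j * Y j m x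
  harmonic : ∀ j m x, lap (Y j m) x = 0
  ortho : ∀ p q : (Σ j, Fin (d j)),
    ∫ ω : S2, Y p.1 p.2 ω * Y q.1 q.2 ω ∂sig = if p = q then 1 else 0
  bound : ∀ j (ω : S2), ∑ m, (Y j m ω) ^ 2 ≤ c₀ * (2 * j + 1)
  complete : ∀ f : S2 → ℝ, Continuous f →
    HasSum (fun p : (Σ j, Fin (d j)) => (∫ ω : S2, f ω * Y p.1 p.2 ω ∂sig) ^ 2)
      (∫ ω : S2, f ω ^ 2 ∂sig)

/-- Harmonic homogeneous polynomials of degree `j`, as functions on `ℝ³`. -/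
def IsHarm (j : ℕ) (f : E3 → ℝ) : Prop :=
  (∃ p : MvPolynomial (Fin 3) ℝ, p.IsHomogeneous j ∧
    ∀ x : E3, f x = MvPolynomial.eval (fun i => x i) p) ∧ ∀ x, lap f x = 0

/-- JOB SH1. Dimension bound. -/
def Target_HarmDim : Prop :=
  ∀ (j n : ℕ) (f : Fin n → E3 → ℝ), (∀ i, IsHarm j (f i)) → LinearIndependent ℝ f → n ≤ 2 * j + 1

/-- JOB SH2. Every polynomial coincides on the sphere with a sum of harmonic ones. -/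
def Target_HarmDecomp : Prop :=
  ∀ p : MvPolynomial (Fin 3) ℝ, ∃ (h : ℕ → E3 → ℝ) (J : ℕ), (∀ j, IsHarm j (h j)) ∧
    ∀ x : E3, ‖x‖ = 1 → MvPolynomial.eval (fun i => x i) p = ∑ j ∈ Finset.range J, h j x

/-- JOB SH3. Rotation invariance and orthogonality of different degrees. -/
def Target_HarmRot : Prop :=
  (∀ (j : ℕ) (f : E3 → ℝ) (A : E3 ≃ₗᵢ[ℝ] E3), IsHarm j f → IsHarm j (fun x => f (A x))) ∧
  (∀ (A : E3 ≃ₗᵢ[ℝ] E3) (f : E3 → ℝ), Continuous f →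
    ∫ ω : S2, f (A (ω : E3)) ∂sig = ∫ ω : S2, f (ω : E3) ∂sig) ∧
  (∀ (i j : ℕ) (f g : E3 → ℝ), IsHarm i f → IsHarm j g → i ≠ j →
    ∫ ω : S2, f (ω : E3) * g (ω : E3) ∂sig = 0)

/-- JOB SH4 (uses SH1, SH2, SH3). Existence of the system of spherical harmonics. -/
def Target_SPH : Prop := Nonempty SphSystem

/-- JOB MO (uses PO). The radial equation of a mode. -/
def Target_Mode : Prop :=
  ∀ (j : ℕ) (Y : E3 → ℝ), ContDiff ℝ (⊤ : ℕ∞) Y → (∀ (c : ℝ) (x : E3), Y (c • x) = c ^ j * Y x) →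
    (∀ x, lap Y x = 0) → ∀ h : E3 → ℝ, ContDiff ℝ 2 h → CcOff h →
    let U : ℝ → ℝ := fun t => Real.exp (t / 2) * ∫ ω : S2, h (Real.exp t • (ω : E3)) * Y ω ∂sig
    ContDiff ℝ 2 U ∧ HasCompactSupport U ∧
    ∀ t, - deriv (deriv U) t + ((j : ℝ) + 1 / 2) ^ 2 * U t =
      Real.exp (5 * t / 2) * ∫ ω : S2, (- lap h (Real.exp t • (ω : E3))) * Y ω ∂sig

/-- JOB KE1. The solution of `φ'' = (ν² + λ e^{2t}) φ` which is small at `-∞`, namely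
`φ(t) = e^{νt} ∑_k (λ e^{2t}/4)^k / (k! (ν+1)⋯(ν+k))`. -/
def Target_Phi : Prop :=
  ∀ ν lam : ℝ, 0 < ν → 0 ≤ lam → ∃ φ φ' : ℝ → ℝ, (∀ t, HasDerivAt φ (φ' t) t) ∧
    (∀ t, HasDerivAt φ' ((ν ^ 2 + lam * Real.exp (2 * t)) * φ t) t) ∧ (∀ t, 0 < φ t) ∧
    (∀ t, ν * φ t ≤ φ' t) ∧ (∀ t, φ' t ≤ Real.sqrt (ν ^ 2 + lam * Real.exp (2 * t)) * φ t)

/-- JOB KE2 (uses KE1). Kernels for the low modes. -/
def Target_Kernel : Prop :=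
  ∃ C c : ℝ, 0 < C ∧ 0 < c ∧ ∀ τ : ℕ, 1 ≤ τ → ∀ lam : ℝ, 0 ≤ lam → ∃ a : ℕ → ℝ → ℝ → ℝ,
    (∀ j, Measurable (fun p : ℝ × ℝ => a j p.1 p.2)) ∧
    (∀ j < 2 * τ, ∀ U : ℝ → ℝ, ContDiff ℝ 2 U → HasCompactSupport U → ∀ t,
      Real.exp (-(τ : ℝ) * t) * U t = ∫ s, a j t s * (Real.exp (-(τ : ℝ) * s) *
        (- deriv (deriv U) s + (((j : ℝ) + 1 / 2) ^ 2 + lam * Real.exp (2 * s)) * U s))) ∧
    (∀ j < 2 * τ, ∀ t s, |a j t s| ≤ C / τ * Real.exp (-c * |t - s|)) ∧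
    (∀ t s, t ≠ s → ∑ j ∈ Finset.range (2 * τ), (2 * (j : ℝ) + 1) * |a j t s| ≤
      C * min (τ : ℝ) (|t - s|⁻¹) * Real.exp (-c * |t - s|))

/-- JOB YO. Trilinear Young inequality on the line. -/
def Target_Young : Prop :=
  ∀ p q r : ℝ, 1 ≤ p → 1 ≤ q → 1 ≤ r → 1 / p + 1 / q + 1 / r = 2 →
    ∀ k F H : ℝ → ℝ≥0∞, Measurable k → Measurable F → Measurable H →
      ∫⁻ t, ∫⁻ s, k (t - s) * F s * H t ≤
        (∫⁻ x, k x ^ q) ^ (1 / q) * (∫⁻ x, F x ^ p) ^ (1 / p) * (∫⁻ x, H x ^ r) ^ (1 / r)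

/-- Bounded measurable functions. -/
def BM {Ω : Type*} [MeasurableSpace Ω] (f : Ω → ℝ) : Prop := Measurable f ∧ ∃ B, ∀ x, |f x| ≤ B

/-- JOB IN. Real interpolation of bilinear forms between `L²×L²` and `L¹×L¹` at
`L^{6/5}×L^{6/5}`. -/
def Target_Interp : Prop :=
  ∃ C : ℝ, 0 < C ∧ ∀ (Ω : Type) [MeasurableSpace Ω] (μ : Measure Ω) [IsFiniteMeasure μ]
    (b : (Ω → ℝ) → (Ω → ℝ) → ℝ) (A₀ A₁ : ℝ), 0 ≤ A₀ → 0 ≤ A₁ →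
    (∀ f f' g, BM f → BM f' → BM g → b (f + f') g = b f g + b f' g) →
    (∀ f g g', BM f → BM g → BM g' → b f (g + g') = b f g + b f g') →
    (∀ (c : ℝ) f g, BM f → BM g → b (c • f) g = c * b f g) →
    (∀ (c : ℝ) f g, BM f → BM g → b f (c • g) = c * b f g) →
    (∀ f g, BM f → BM g → |b f g| ≤ A₀ * (∫ x, f x ^ 2 ∂μ) ^ (1 / 2 : ℝ) *
      (∫ x, g x ^ 2 ∂μ) ^ (1 / 2 : ℝ)) →
    (∀ f g, BM f → BM g → |b f g| ≤ A₁ * (∫ x, |f x| ∂μ) * (∫ x, |g x| ∂μ)) →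
    ∀ f g, BM f → BM g → |b f g| ≤ C * A₀ ^ (1 / 3 : ℝ) * A₁ ^ (2 / 3 : ℝ) *
      (∫ x, |f x| ^ (6 / 5 : ℝ) ∂μ) ^ (5 / 6 : ℝ) * (∫ x, |g x| ^ (6 / 5 : ℝ) ∂μ) ^ (5 / 6 : ℝ)

/-- The bilinear form of a multiplier in spherical harmonics of degree `< J`. -/
noncomputable def SphSystem.mult (Y : SphSystem) (J : ℕ) (b : ℕ → ℝ) (f g : S2 → ℝ) : ℝ :=
  ∑ j ∈ Finset.range J, b j * ∑ m, (∫ ω : S2, f ω * Y.Y j m ω ∂sig) *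
    (∫ ω : S2, g ω * Y.Y j m ω ∂sig)

/-- JOB MU (uses IN). Bounds for multipliers. -/
def Target_Mult : Prop :=
  ∀ Y : SphSystem, ∃ C : ℝ, 0 < C ∧ ∀ (J : ℕ) (b : ℕ → ℝ) (σ₀ σ₁ : ℝ), 0 ≤ σ₀ → 0 ≤ σ₁ →
    (∀ j < J, |b j| ≤ σ₀) → (∑ j ∈ Finset.range J, (2 * (j : ℝ) + 1) * |b j| ≤ σ₁) →
    ∀ f g : S2 → ℝ, BM f → BM g →
      |Y.mult J b f g| ≤ σ₀ * (∫ ω, f ω ^ 2 ∂sig) ^ (1 / 2 : ℝ) *
        (∫ ω, g ω ^ 2 ∂sig) ^ (1 / 2 : ℝ) ∧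
      |Y.mult J b f g| ≤ C * σ₀ ^ (1 / 3 : ℝ) * σ₁ ^ (2 / 3 : ℝ) *
        (∫ ω, |f ω| ^ (6 / 5 : ℝ) ∂sig) ^ (5 / 6 : ℝ) *
        (∫ ω, |g ω| ^ (6 / 5 : ℝ) ∂sig) ^ (5 / 6 : ℝ) ∧
      |Y.mult J b f g| ≤ C * σ₀ ^ (2 / 3 : ℝ) * σ₁ ^ (1 / 3 : ℝ) *
        (∫ ω, f ω ^ 2 ∂sig) ^ (1 / 2 : ℝ) * (∫ ω, |g ω| ^ (6 / 5 : ℝ) ∂sig) ^ (5 / 6 : ℝ) ∧
      |Y.mult J b f g| ≤ C * σ₀ ^ (2 / 3 : ℝ) * σ₁ ^ (1 / 3 : ℝ) *
        (∫ ω, |f ω| ^ (6 / 5 : ℝ) ∂sig) ^ (5 / 6 : ℝ) * (∫ ω, g ω ^ 2 ∂sig) ^ (1 / 2 : ℝ)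

/-- The projection on spherical harmonics of degree `< J` on each sphere. -/
noncomputable def SphSystem.low (Y : SphSystem) (J : ℕ) (W : ℝ × S2 → ℝ) (p : ℝ × S2) : ℝ :=
  ∑ j ∈ Finset.range J, ∑ m, (∫ ω : S2, W (p.1, ω) * Y.Y j m ω ∂sig) * Y.Y j m p.2

/-- JOB LO (uses KE2, YO, MU, MO). Low modes. -/
def Target_Low : Prop :=
  ∀ Y : SphSystem, ∃ C : ℝ≥0, ∀ τ : ℕ, 1 ≤ τ → ∀ lam : ℝ, 0 ≤ lam → ∀ u F₁ F₂ : E3 → ℝ,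
    ContDiff ℝ (⊤ : ℕ∞) u → CcOff u → CcOff F₁ → CcOff F₂ →
    (∀ x, - lap u x + lam * u x = F₁ x + F₂ x) →
    eLpNorm (Y.low (2 * τ) (cyl τ (1 / 2) u)) 6 ((volume : Measure ℝ).prod sig) ≤
      C * (eLpNorm (cyl τ (5 / 2) F₁) (6 / 5) ((volume : Measure ℝ).prod sig) +
        ENNReal.ofReal ((τ : ℝ) ^ (-(2 / 3) : ℝ)) *
          eLpNorm (cyl τ (5 / 2) F₂) 2 ((volume : Measure ℝ).prod sig)) ∧
    ENNReal.ofReal ((τ : ℝ) ^ (2 / 3 : ℝ)) *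
        eLpNorm (Y.low (2 * τ) (cyl τ (1 / 2) u)) 2 ((volume : Measure ℝ).prod sig) ≤
      C * (eLpNorm (cyl τ (5 / 2) F₁) (6 / 5) ((volume : Measure ℝ).prod sig) +
        ENNReal.ofReal ((τ : ℝ) ^ (-(1 / 3) : ℝ)) *
          eLpNorm (cyl τ (5 / 2) F₂) 2 ((volume : Measure ℝ).prod sig))

/-- JOB HI (uses MO, PO). High modes. -/
def Target_High : Prop :=
  ∀ Y : SphSystem, ∃ C : ℝ≥0, ∀ τ : ℕ, 1 ≤ τ → ∀ lam : ℝ, 0 ≤ lam → ∀ u F₁ F₂ : E3 → ℝ,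
    ContDiff ℝ (⊤ : ℕ∞) u → CcOff u → CcOff F₁ → CcOff F₂ →
    (∀ x, - lap u x + lam * u x = F₁ x + F₂ x) →
    let W : ℝ × S2 → ℝ := fun p => cyl τ (1 / 2) u p - Y.low (2 * τ) (cyl τ (1 / 2) u) p
    eLpNorm W 6 ((volume : Measure ℝ).prod sig) ≤
      C * (eLpNorm (cyl τ (5 / 2) F₁) (6 / 5) ((volume : Measure ℝ).prod sig) +
        ENNReal.ofReal ((τ : ℝ) ^ (-1 : ℝ)) *
          eLpNorm (cyl τ (5 / 2) F₂) 2 ((volume : Measure ℝ).prod sig)) ∧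
    ENNReal.ofReal (τ : ℝ) * eLpNorm W 2 ((volume : Measure ℝ).prod sig) ≤
      C * (eLpNorm (cyl τ (5 / 2) F₁) (6 / 5) ((volume : Measure ℝ).prod sig) +
        ENNReal.ofReal ((τ : ℝ) ^ (-1 : ℝ)) *
          eLpNorm (cyl τ (5 / 2) F₂) 2 ((volume : Measure ℝ).prod sig))

end Pool.Agent.HK
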