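import Pool.Agent.HK.Calc

/-!
# Existence of the system of spherical harmonics (job SH4)
-/

open MeasureTheory Set Filter Topology
open scoped ENNReal NNReal InnerProductSpace

namespace Pool.Agent.HK

namespace Sph

/-- polynomial functions -/
noncomputable def pf (p : MvPolynomial (Fin 3) ℝ) (x : E3) : ℝ :=
  MvPolynomial.eval (fun i => x i) p

lemma contDiff_pf (p : MvPolynomial (Fin 3) ℝ) : ContDiff ℝ (⊤ : ℕ∞) (pf p) := by
  unfold pf
  induction p using MvPolynomial.induction_on with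
  | C a => simpa using contDiff_const
  | add p q hp hq => simpa using hp.add hq
  | mul_X p i hp =>
    simp only [map_mul, MvPolynomial.eval_X]
    refine hp.mul ?_
    exact (EuclideanSpace.proj i : E3 →L[ℝ] ℝ).contDiff

lemma IsHarm.contDiff {j : ℕ} {f : E3 → ℝ} (h : IsHarm j f) : ContDiff ℝ (⊤ : ℕ∞) f := by
  obtain ⟨⟨p, -, hp⟩, -⟩ := h
  have : f = pf p := funext hp
  rw [this]
  exact contDiff_pf p

lemma IsHarm.homog {j : ℕ} {f : E3 → ℝ} (h : IsHarm j f) (c : ℝ) (x : E3) :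
    f (c • x) = c ^ j * f x := by
  obtain ⟨⟨p, hp, hpf⟩, -⟩ := h
  rw [hpf, hpf, MvPolynomial.eval_eq', MvPolynomial.eval_eq', Finset.mul_sum]
  refine Finset.sum_congr rfl fun d hd => ?_
  have hdj : ∑ i, d i = j := by
    have := hp (MvPolynomial.mem_support_iff.mp hd)
    rw [← this, Finsupp.weight_apply, Finsupp.sum_fintype]
    · simp
    · simp
  have e : ∏ i, ((c • x).ofLp i) ^ d i = c ^ j * ∏ i, (x.ofLp i) ^ d i := by
    rw [← hdj, ← Finset.prod_pow_eq_pow_sum, ← Finset.prod_mul_distrib]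
    refine Finset.prod_congr rfl fun i _ => ?_
    simp [mul_pow]
  rw [e]
  ring

lemma lap_add {f g : E3 → ℝ} (hf : ContDiff ℝ (⊤ : ℕ∞) f) (hg : ContDiff ℝ (⊤ : ℕ∞) g) (x : E3) :
    lap (f + g) x = lap f x + lap g x := by
  unfold lap
  rw [← Finset.sum_add_distrib]
  refine Finset.sum_congr rfl fun a _ => ?_
  have h1 : (fun y => fderiv ℝ (f + g) y (ax a)) =
      (fun y => fderiv ℝ f y (ax a)) + (fun y => fderiv ℝ g y (ax a)) := by
    funext y
    rw [fderiv_add (hf.differentiable (by simp) y) (hg.differentiable (by simp) y)]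
    rfl
  rw [h1, fderiv_add ((contDiff_fderiv_apply hf _).differentiable (by simp) x)
    ((contDiff_fderiv_apply hg _).differentiable (by simp) x)]
  rfl

lemma lap_smul {f : E3 → ℝ} (hf : ContDiff ℝ (⊤ : ℕ∞) f) (c : ℝ) (x : E3) :
    lap (c • f) x = c * lap f x := by
  unfold lap
  rw [Finset.mul_sum]
  refine Finset.sum_congr rfl fun a _ => ?_
  have h1 : (fun y => fderiv ℝ (c • f) y (ax a)) = c • (fun y => fderiv ℝ f y (ax a)) := by
    funext y
    rw [fderiv_const_smul (hf.differentiable (by simp) y)]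
    rfl
  rw [h1, fderiv_const_smul ((contDiff_fderiv_apply hf _).differentiable (by simp) x)]
  rfl

/-- The space of harmonic homogeneous polynomials of degree `j`. -/
def Hj (j : ℕ) : Submodule ℝ (E3 → ℝ) where
  carrier := {f | IsHarm j f}
  add_mem' := by
    rintro f g hf hg
    refine ⟨?_, fun x => ?_⟩
    · obtain ⟨⟨p, hp, hpf⟩, -⟩ := hf
      obtain ⟨⟨q, hq, hqg⟩, -⟩ := hg
      exact ⟨p + q, hp.add hq, fun x => by simp [hpf, hqg]⟩
    · rw [lap_add (IsHarm.contDiff hf) (IsHarm.contDiff hg), hf.2, hg.2, add_zero]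
  zero_mem' := by
    refine ⟨⟨0, MvPolynomial.isHomogeneous_zero _ _ _, fun x => by simp⟩, fun x => ?_⟩
    have := lap_smul (f := fun _ : E3 => (0 : ℝ)) contDiff_const 0 x
    rw [zero_smul, zero_mul] at this
    exact this
  smul_mem' := by
    rintro c f hf
    refine ⟨?_, fun x => ?_⟩
    · obtain ⟨⟨p, hp, hpf⟩, -⟩ := hf
      exact ⟨MvPolynomial.C c * p, by simpa using (MvPolynomial.isHomogeneous_C _ c).mul hp,
        fun x => by simp [hpf]⟩
    · rw [lap_smul (IsHarm.contDiff hf), hf.2, mul_zero]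

lemma mem_Hj {j : ℕ} {f : E3 → ℝ} : f ∈ Hj j ↔ IsHarm j f := Iff.rfl

lemma rank_Hj (h1 : Target_HarmDim) (j : ℕ) : Module.rank ℝ (Hj j) ≤ (2 * j + 1 : ℕ) := by
  refine rank_le fun s hs => ?_
  have e := s.equivFin
  refine h1 j s.card (fun i => ((e.symm i : Hj j) : E3 → ℝ)) (fun i => (e.symm i : Hj j).2) ?_
  have := (hs.comp e.symm e.symm.injective).map' (Hj j).subtype (Submodule.ker_subtype _)
  exact this

instance : CompactSpace S2 := inferInstance

instance : (sig).IsOpenPosMeasure := by unfold sig; infer_instance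

/-- every vector is a multiple of a unit vector -/
lemma exists_unit (x : E3) : ∃ ω : S2, x = ‖x‖ • (ω : E3) := by
  by_cases hx : x = 0
  · exact ⟨⟨ax 0, by simp [ax]⟩, by simp [hx]⟩
  · have h0 : ‖x‖ ≠ 0 := norm_ne_zero_iff.mpr hx
    refine ⟨⟨‖x‖⁻¹ • x, by simp [norm_smul, h0]⟩, ?_⟩
    simp only
    rw [smul_smul, mul_inv_cancel₀ h0, one_smul]

lemma IsHarm.ext_sphere {j : ℕ} {f g : E3 → ℝ} (hf : IsHarm j f) (hg : IsHarm j g)
    (h : ∀ ω : S2, f ω = g ω) : f = g := by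
  funext x
  obtain ⟨ω, hω⟩ := exists_unit x
  rw [hω, IsHarm.homog hf, IsHarm.homog hg, h]

/-- restriction to the sphere -/
noncomputable def res (j : ℕ) : Hj j →ₗ[ℝ] C(S2, ℝ) where
  toFun f := ⟨fun ω => f.1 ω, (IsHarm.contDiff f.2).continuous.comp continuous_subtype_val⟩
  map_add' f g := by ext ω; rfl
  map_smul' c f := by ext ω; rfl

lemma res_apply (j : ℕ) (f : Hj j) (ω : S2) : res j f ω = f.1 ω := rfl

/-- restriction to the sphere, as a square integrable function -/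
noncomputable def resL (j : ℕ) : Hj j →ₗ[ℝ] Lp ℝ 2 sig :=
  (ContinuousMap.toLp 2 sig ℝ : C(S2, ℝ) →L[ℝ] Lp ℝ 2 sig).toLinearMap ∘ₗ res j

lemma resL_injective (j : ℕ) : Function.Injective (resL j) := by
  intro f g h
  have h1 : res j f = res j g := ContinuousMap.toLp_injective (p := 2) (𝕜 := ℝ) sig h
  refine Subtype.ext (IsHarm.ext_sphere f.2 g.2 fun ω => ?_)
  have := congrArg (fun F : C(S2, ℝ) => F ω) h1
  exact this

lemma inner_toLp' (f g : C(S2, ℝ)) :
    ⟪ContinuousMap.toLp 2 sig ℝ f, ContinuousMap.toLp 2 sig ℝ g⟫_ℝ = ∫ ω, f ω * g ω ∂sig := by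
  rw [ContinuousMap.inner_toLp]
  simp [mul_comm]

lemma inner_resL (i j : ℕ) (f : Hj i) (g : Hj j) :
    ⟪resL i f, resL j g⟫_ℝ = ∫ ω : S2, f.1 ω * g.1 ω ∂sig :=
  inner_toLp' _ _

/-- the spherical harmonics of degree `j` in `L²` -/
noncomputable def Rj (j : ℕ) : Submodule ℝ (Lp ℝ 2 sig) := LinearMap.range (resL j)

lemma finite_Hj (h1 : Target_HarmDim) (j : ℕ) : Module.Finite ℝ (Hj j) := by
  rw [← Module.rank_lt_aleph0_iff]
  exact (rank_Hj h1 j).trans_lt Cardinal.natCast_lt_aleph0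

lemma finite_Rj (h1 : Target_HarmDim) (j : ℕ) : Module.Finite ℝ (Rj j) := by
  have := finite_Hj h1 j
  exact inferInstanceAs (Module.Finite ℝ (LinearMap.range (resL j)))

lemma finrank_Rj (h1 : Target_HarmDim) (j : ℕ) : Module.finrank ℝ (Rj j) ≤ 2 * j + 1 := by
  have := finite_Hj h1 j
  have h2 : Module.finrank ℝ (Hj j) ≤ 2 * j + 1 := Module.finrank_le_of_rank_le (rank_Hj h1 j)
  exact (LinearMap.finrank_range_le (resL j)).trans h2

/-- for each degree, an orthonormal system which spans -/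
lemma exists_onb (h1 : Target_HarmDim) (j : ℕ) : ∃ (d : ℕ) (Y : Fin d → Hj j), d ≤ 2 * j + 1 ∧
    (∀ m m', ∫ ω : S2, (Y m).1 ω * (Y m').1 ω ∂sig = if m = m' then 1 else 0) ∧
    ∀ f : Hj j, f = ∑ m, (∫ ω : S2, (Y m).1 ω * f.1 ω ∂sig) • Y m := by
  have := finite_Rj h1 j
  let b := stdOrthonormalBasis ℝ (Rj j)
  have hpre : ∀ m, ∃ f : Hj j, resL j f = (b m : Lp ℝ 2 sig) := fun m => (b m).2
  choose Y hY using hpre
  refine ⟨Module.finrank ℝ (Rj j), Y, finrank_Rj h1 j, ?_, ?_⟩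
  · intro m m'
    rw [← inner_resL, hY, hY, ← Submodule.coe_inner]
    exact orthonormal_iff_ite.mp b.orthonormal m m'
  · intro f
    apply resL_injective j
    rw [map_sum]
    have h2 := b.sum_repr' ⟨resL j f, ⟨f, rfl⟩⟩
    have h3 := congrArg (fun v : Rj j => (v : Lp ℝ 2 sig)) h2
    simp only [Submodule.coe_sum, Submodule.coe_smul, Submodule.coe_inner] at h3
    rw [← h3]
    refine Finset.sum_congr rfl fun m _ => ?_
    rw [map_smul, hY, ← inner_resL, hY]

section Kernel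

variable {j d : ℕ} (Y : Fin d → Hj j)

lemma comb_apply (c : Fin d → ℝ) (x : E3) :
    (∑ m, c m • Y m : Hj j).1 x = ∑ m, c m * (Y m).1 x := by
  have h : ((LinearMap.proj x : (E3 → ℝ) →ₗ[ℝ] ℝ) ∘ₗ (Hj j).subtype) (∑ m, c m • Y m) =
      ∑ m, c m * (Y m).1 x := by
    rw [map_sum]
    refine Finset.sum_congr rfl fun m _ => ?_
    rw [map_smul]
    rfl
  exact h

variable (ho : ∀ m m', ∫ ω : S2, (Y m).1 ω * (Y m').1 ω ∂sig = if m = m' then 1 else 0)
  (hs : ∀ f : Hj j, f = ∑ m, (∫ ω : S2, (Y m).1 ω * f.1 ω ∂sig) • Y m)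

include ho in
lemma integral_comb_sq (c : Fin d → ℝ) :
    ∫ ω : S2, (∑ m, c m • Y m : Hj j).1 ω ^ 2 ∂sig = ∑ m, c m ^ 2 := by
  have h1 : ∫ ω : S2, (∑ m, c m • Y m : Hj j).1 ω ^ 2 ∂sig =
      ⟪resL j (∑ m, c m • Y m), resL j (∑ m, c m • Y m)⟫_ℝ := by
    rw [inner_resL]
    simp only [sq]
  rw [h1, map_sum, sum_inner]
  refine Finset.sum_congr rfl fun m _ => ?_
  rw [inner_sum, Finset.sum_eq_single m]
  · rw [map_smul, real_inner_smul_left, real_inner_smul_right, inner_resL, ho]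
    simp [sq]
  · intro m' _ hm
    rw [map_smul, map_smul, real_inner_smul_left, real_inner_smul_right, inner_resL, ho]
    simp [hm.symm]
  · simp

include ho hs in
lemma apply_sq_le (f : Hj j) (ω : S2) : f.1 ω ^ 2 ≤
    (∫ ω : S2, f.1 ω ^ 2 ∂sig) * ∑ m, (Y m).1 ω ^ 2 := by
  have h2 : f.1 ω = ∑ m, (∫ ω : S2, (Y m).1 ω * f.1 ω ∂sig) * (Y m).1 ω := by
    conv_lhs => rw [hs f]
    exact comb_apply Y _ _
  have h3 : ∫ ω : S2, f.1 ω ^ 2 ∂sig = ∑ m, (∫ ω : S2, (Y m).1 ω * f.1 ω ∂sig) ^ 2 := by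
    conv_lhs => rw [hs f]
    exact integral_comb_sq Y ho _
  rw [h3, h2]
  exact Finset.sum_mul_sq_le_sq_mul_sq _ _ _

include ho hs in
lemma kernel_le (h3 : Target_HarmRot) (ω ω' : S2) :
    ∑ m, (Y m).1 ω' ^ 2 ≤ ∑ m, (Y m).1 ω ^ 2 := by
  have hnorm : ‖(ω : E3)‖ = ‖(ω' : E3)‖ := by
    rw [norm_eq_of_mem_sphere, norm_eq_of_mem_sphere]
  let A : E3 ≃ₗᵢ[ℝ] E3 := Submodule.reflection (ℝ ∙ ((ω : E3) - ω'))ᗮ
  have hA : A ω = ω' := Submodule.reflection_sub hnorm
  set g : Hj j := ∑ m, ((Y m).1 ω') • Y m with hg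
  let f : Hj j := ⟨fun x => g.1 (A x), h3.1 j g.1 A g.2⟩
  have h4 := apply_sq_le Y ho hs f ω
  have h5 : f.1 ω = ∑ m, (Y m).1 ω' ^ 2 := by
    change g.1 (A ω) = _
    rw [hA, hg, comb_apply]
    simp [sq]
  have h6 : ∫ ω : S2, f.1 ω ^ 2 ∂sig = ∑ m, (Y m).1 ω' ^ 2 := by
    have := h3.2.1 A (fun x => g.1 x ^ 2) ((IsHarm.contDiff g.2).continuous.pow 2)
    refine Eq.trans this ?_
    rw [hg, integral_comb_sq Y ho]
  rw [h5, h6] at h4
  have h7 : 0 ≤ ∑ m, (Y m).1 ω' ^ 2 := Finset.sum_nonneg fun m _ => sq_nonneg _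
  have h8 : 0 ≤ ∑ m, (Y m).1 ω ^ 2 := Finset.sum_nonneg fun m _ => sq_nonneg _
  rcases h7.eq_or_lt with h | h
  · rw [← h]; exact h8
  · rw [sq] at h4
    exact le_of_mul_le_mul_left h4 h

include ho hs in
lemma kernel_bound (h3 : Target_HarmRot) (hd : d ≤ 2 * j + 1) (ω : S2) :
    ∑ m, (Y m).1 ω ^ 2 ≤ (sig.real univ)⁻¹ * (2 * j + 1) := by
  have hpos : 0 < sig.real univ := by
    rw [measureReal_def, ENNReal.toReal_pos_iff]
    refine ⟨?_, measure_lt_top _ _⟩
    exact isOpen_univ.measure_pos _ ⟨ω, mem_univ _⟩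
  have hint : ∫ ω' : S2, ∑ m, (Y m).1 ω' ^ 2 ∂sig = d := by
    rw [integral_finsetSum]
    · have : ∀ m, ∫ ω' : S2, (Y m).1 ω' ^ 2 ∂sig = 1 := by
        intro m
        have := ho m m
        rw [if_pos rfl] at this
        refine Eq.trans ?_ this
        simp only [sq]
      simp [this]
    · intro m _
      have hc : Continuous fun ω' : S2 => (Y m).1 ω' ^ 2 :=
        ((IsHarm.contDiff (Y m).2).continuous.comp continuous_subtype_val).pow 2
      exact hc.integrable_of_hasCompactSupport (HasCompactSupport.of_compactSpace _)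
  have hconst : ∫ ω' : S2, ∑ m, (Y m).1 ω' ^ 2 ∂sig = sig.real univ * ∑ m, (Y m).1 ω ^ 2 := by
    have : ∀ ω' : S2, ∑ m, (Y m).1 ω' ^ 2 = ∑ m, (Y m).1 ω ^ 2 := fun ω' =>
      le_antisymm (kernel_le Y ho hs h3 ω ω') (kernel_le Y ho hs h3 ω' ω)
    simp only [this]
    simp
  rw [hint] at hconst
  have h5 : ∑ m, (Y m).1 ω ^ 2 = (sig.real univ)⁻¹ * d := by
    rw [hconst, ← mul_assoc, inv_mul_cancel₀ hpos.ne', one_mul]
  rw [h5]
  refine mul_le_mul_of_nonneg_left ?_ (inv_nonneg.mpr hpos.le)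
  exact_mod_cast hd

end Kernel

/-- polynomial functions on the sphere, as an algebra -/
noncomputable def polyHom : MvPolynomial (Fin 3) ℝ →ₐ[ℝ] C(S2, ℝ) :=
  MvPolynomial.aeval fun i =>
    ⟨fun ω : S2 => (ω : E3).ofLp i,
      (EuclideanSpace.proj i : E3 →L[ℝ] ℝ).continuous.comp continuous_subtype_val⟩

lemma polyHom_apply (p : MvPolynomial (Fin 3) ℝ) (ω : S2) :
    polyHom p ω = MvPolynomial.eval (fun i => (ω : E3).ofLp i) p := by
  unfold polyHom
  induction p using MvPolynomial.induction_on with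
  | C a => simp
  | add p q hp hq => simp only [map_add, ContinuousMap.add_apply, hp, hq]
  | mul_X p i hp =>
    simp only [map_mul, ContinuousMap.mul_apply, hp, MvPolynomial.aeval_X, MvPolynomial.eval_X]
    rfl

lemma polyAlg_dense : (polyHom.range).topologicalClosure = ⊤ := by
  refine ContinuousMap.subalgebra_topologicalClosure_eq_top_of_separatesPoints _ ?_
  intro ω ω' hne
  have : ∃ i, (ω : E3).ofLp i ≠ (ω' : E3).ofLp i := by
    by_contra hcon
    push Not at hcon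
    exact hne (Subtype.ext (PiLp.ext hcon))
  obtain ⟨i, hi⟩ := this
  refine ⟨_, ⟨polyHom (MvPolynomial.X i), ⟨_, rfl⟩, rfl⟩, ?_⟩
  change polyHom (MvPolynomial.X i) ω ≠ polyHom (MvPolynomial.X i) ω'
  rw [polyHom_apply, polyHom_apply]
  simpa using hi

end Sph

open Sph in
theorem target_SPH (h1 : Target_HarmDim) (h2 : Target_HarmDecomp) (h3 : Target_HarmRot) :
    Target_SPH := by
  choose d Y hd ho hs using exists_onb h1
  let v : (Σ j, Fin (d j)) → Lp ℝ 2 sig := fun p => resL p.1 (Y p.1 p.2)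
  have hin : ∀ p q : (Σ j, Fin (d j)), ⟪v p, v q⟫_ℝ = if p = q then 1 else 0 := by
    rintro ⟨i, m⟩ ⟨j, m'⟩
    change ⟪resL i (Y i m), resL j (Y j m')⟫_ℝ = _
    rw [inner_resL]
    by_cases hij : i = j
    · subst hij
      rw [ho]
      by_cases hm : m = m'
      · simp [hm]
      · rw [if_neg hm, if_neg]
        intro h
        exact hm (by simpa using h)
    · rw [h3.2.2 i j _ _ (Y i m).2 (Y j m').2 hij, if_neg]
      intro h
      exact hij (congrArg Sigma.fst h)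
  have hon : Orthonormal ℝ v := orthonormal_iff_ite.mpr hin
  have hspan : ∀ (j : ℕ) (f : Hj j), resL j f ∈ Submodule.span ℝ (range v) := by
    intro j f
    rw [hs j f, map_sum]
    refine Submodule.sum_mem _ fun m _ => ?_
    rw [map_smul]
    exact Submodule.smul_mem _ _ (Submodule.subset_span ⟨⟨j, m⟩, rfl⟩)
  have hpoly : ∀ p : MvPolynomial (Fin 3) ℝ,
      (ContinuousMap.toLp 2 sig ℝ (polyHom p) : Lp ℝ 2 sig) ∈ Submodule.span ℝ (range v) := by
    intro p
    obtain ⟨h, J, hh, hp⟩ := h2 p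
    have e : polyHom p = ∑ j ∈ Finset.range J, res j ⟨h j, hh j⟩ := by
      ext ω
      rw [polyHom_apply, hp ω (norm_eq_of_mem_sphere ω)]
      rw [ContinuousMap.coe_sum, Finset.sum_apply]
      rfl
    rw [e, map_sum]
    exact Submodule.sum_mem _ fun j _ => hspan j ⟨h j, hh j⟩
  have hdense : ⊤ ≤ (Submodule.span ℝ (range v)).topologicalClosure := by
    have hall : ∀ F : C(S2, ℝ), (ContinuousMap.toLp 2 sig ℝ F : Lp ℝ 2 sig) ∈
        (Submodule.span ℝ (range v)).topologicalClosure := by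
      intro F
      have hF : F ∈ (polyHom.range).topologicalClosure := by rw [polyAlg_dense]; trivial
      have hF' : F ∈ closure ((polyHom.range : Subalgebra ℝ C(S2, ℝ)) : Set C(S2, ℝ)) := hF
      refine map_mem_closure (ContinuousMap.toLp 2 sig ℝ : C(S2, ℝ) →L[ℝ] Lp ℝ 2 sig).continuous
        hF' ?_
      rintro _ ⟨p, rfl⟩
      exact hpoly p
    intro F _
    have hd := ContinuousMap.toLp_denseRange ℝ sig ℝ (p := 2) (by norm_num)
    have hcl : IsClosed ((Submodule.span ℝ (range v)).topologicalClosure : Set (Lp ℝ 2 sig)) :=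
      Submodule.isClosed_topologicalClosure _
    have hsub : range (ContinuousMap.toLp 2 sig ℝ : C(S2, ℝ) →L[ℝ] Lp ℝ 2 sig) ⊆
        ((Submodule.span ℝ (range v)).topologicalClosure : Set (Lp ℝ 2 sig)) := by
      rintro _ ⟨G, rfl⟩
      exact hall G
    exact hcl.closure_subset_iff.mpr hsub (hd F)
  let b := HilbertBasis.mk hon hdense
  have hb : ∀ p, b p = v p := fun p => by rw [HilbertBasis.coe_mk]
  exact ⟨{
    d := d
    Y := fun j m => (Y j m).1
    c₀ := (sig.real univ)⁻¹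
    smooth := fun j m => IsHarm.contDiff (Y j m).2
    homog := fun j m c x => IsHarm.homog (Y j m).2 c x
    harmonic := fun j m x => (Y j m).2.2 x
    ortho := fun p q => by
      rw [← hin p q]
      exact (inner_resL p.1 q.1 (Y p.1 p.2) (Y q.1 q.2)).symm
    bound := fun j ω => kernel_bound (Y j) (ho j) (hs j) h3 (hd j) ω
    complete := fun f hf => by
      let F : C(S2, ℝ) := ⟨f, hf⟩
      have h4 := b.hasSum_inner_mul_inner (ContinuousMap.toLp 2 sig ℝ F)
        (ContinuousMap.toLp 2 sig ℝ F)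
      rw [inner_toLp'] at h4
      have e1 : ∫ ω, F ω * F ω ∂sig = ∫ ω, f ω ^ 2 ∂sig := by
        simp only [sq]; rfl
      rw [e1] at h4
      have e2 : (fun p => ⟪(ContinuousMap.toLp 2 sig ℝ F : Lp ℝ 2 sig), b p⟫_ℝ *
          ⟪b p, (ContinuousMap.toLp 2 sig ℝ F : Lp ℝ 2 sig)⟫_ℝ) =
          fun p : (Σ j, Fin (d j)) => (∫ ω : S2, f ω * (Y p.1 p.2).1 ω ∂sig) ^ 2 := by
        funext p
        rw [real_inner_comm _ (b p), hb]
        have : ⟪(ContinuousMap.toLp 2 sig ℝ F : Lp ℝ 2 sig), v p⟫_ℝ =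
            ∫ ω : S2, f ω * (Y p.1 p.2).1 ω ∂sig := inner_toLp' F (res p.1 (Y p.1 p.2))
        rw [this, sq]
      rw [e2] at h4
      exact h4 }⟩

end Pool.Agent.HK
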