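import Pool.Agent.HK.Spec

/-!
# The level set splitting (job SP)
-/

open MeasureTheory Set Filter Topology
open scoped ENNReal NNReal InnerProductSpace

namespace Pool.Agent.HK.SplitAux

variable {n : ℕ}

/-- The cell. -/
def cell (w : E3 → ℝ) (s : Fin (n + 1) → ℝ) : Set (Conf (n + 1)) := {x | ∀ i, w (x i) = s i}

/-- The cell without the condition on particle `i`. -/
def cyl' (w : E3 → ℝ) (s : Fin (n + 1) → ℝ) (i : Fin (n + 1)) : Set (Conf (n + 1)) :=
  {x | ∀ j, j ≠ i → w (x j) = s j}

lemma meas_cell {w : E3 → ℝ} (hw : Measurable w) (s : Fin (n + 1) → ℝ) :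
    MeasurableSet (cell w s) := by
  have : cell w s = ⋂ i, {x : Conf (n + 1) | w (x i) = s i} := by
    ext x; simp [cell]
  rw [this]
  exact MeasurableSet.iInter fun i =>
    (hw.comp (measurable_pi_apply i)) (measurableSet_singleton (s i))

lemma meas_cyl {w : E3 → ℝ} (hw : Measurable w) (s : Fin (n + 1) → ℝ) (i : Fin (n + 1)) :
    MeasurableSet (cyl' w s i) := by
  have : cyl' w s i = ⋂ j, {x : Conf (n + 1) | j ≠ i → w (x j) = s j} := by
    ext x; simp [cyl']
  rw [this]
  refine MeasurableSet.iInter fun j => ?_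
  by_cases h : j = i
  · have : {x : Conf (n + 1) | j ≠ i → w (x j) = s j} = univ := by
      ext x; simp [h]
    rw [this]; exact MeasurableSet.univ
  · have : {x : Conf (n + 1) | j ≠ i → w (x j) = s j} = {x | w (x j) = s j} := by
      ext x; simp [h]
    rw [this]
    exact (hw.comp (measurable_pi_apply j)) (measurableSet_singleton (s j))

lemma meas_ext {w : E3 → ℝ} (hw : Measurable w) {N : ℕ} : Measurable (fun x : Conf N => ext w x) := by
  unfold ext
  exact Finset.measurable_sum _ fun i _ => hw.comp (measurable_pi_apply i)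

lemma ext_ins (w : E3 → ℝ) (i : Fin (n + 1)) (x : E3) (y : Conf n) :
    ext w (ins i x y) = w x + ext w y := by
  unfold ext ins
  rw [Fin.sum_univ_succAbove _ i]
  simp

/-- atoms of `w` -/
def atoms (w : E3 → ℝ) : Set ℝ := {s | volume {x | w x = s} ≠ 0}

lemma atoms_countable {w : E3 → ℝ} (hw : Measurable w) : (atoms w).Countable := by
  have h := Measure.countable_meas_level_set_pos (μ := (volume : Measure E3)) hw
  refine h.mono fun s hs => ?_
  exact pos_iff_ne_zero.2 hs

/-- almost every configuration of total `c` has all its levels among the atoms -/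
lemma ae_atoms {w : E3 → ℝ} (hw : Measurable w) (c : ℝ) (i : Fin (n + 1))
    (hMP : MeasurePreserving (fun p : E3 × Conf n => ins i p.1 p.2) volume volume) :
    ∀ᵐ x : Conf (n + 1), ext w x = c → w (x i) ∈ atoms w := by
  have hms : MeasurableSet {x : Conf (n + 1) | ext w x = c ∧ w (x i) ∉ atoms w} := by
    have h1 : MeasurableSet {x : Conf (n + 1) | ext w x = c} :=
      (meas_ext hw) (measurableSet_singleton c)
    have h2 : MeasurableSet {x : Conf (n + 1) | w (x i) ∉ atoms w} :=
      (hw.comp (measurable_pi_apply i)) (atoms_countable hw).measurableSet.compl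
    exact h1.inter h2
  have h0 : volume {x : Conf (n + 1) | ext w x = c ∧ w (x i) ∉ atoms w} = 0 := by
    rw [← hMP.measure_preimage hms.nullMeasurableSet]
    rw [Measure.volume_eq_prod, Measure.prod_apply_symm (hMP.measurable hms)]
    have : ∀ y : Conf n, volume ((fun x : E3 => (x, y)) ⁻¹'
        ((fun p : E3 × Conf n => ins i p.1 p.2) ⁻¹'
          {x : Conf (n + 1) | ext w x = c ∧ w (x i) ∉ atoms w})) = 0 := by
      intro y
      have hsub : ((fun x : E3 => (x, y)) ⁻¹'
        ((fun p : E3 × Conf n => ins i p.1 p.2) ⁻¹'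
          {x : Conf (n + 1) | ext w x = c ∧ w (x i) ∉ atoms w})) ⊆
          {x | w x = c - ext w y ∧ w x ∉ atoms w} := by
        intro x hx
        simp only [mem_preimage, mem_ofPred_eq] at hx
        rw [ext_ins] at hx
        have h3 : ins i x y i = x := by simp [ins]
        rw [h3] at hx
        exact ⟨by linarith [hx.1], hx.2⟩
      refine measure_mono_null hsub ?_
      by_cases ht : c - ext w y ∈ atoms w
      · have : {x | w x = c - ext w y ∧ w x ∉ atoms w} = ∅ := by
          ext x
          simp only [mem_ofPred_eq, mem_empty_iff_false, iff_false, not_and, not_not]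
          intro h; rw [h]; exact ht
        rw [this]; simp
      · have ht' : volume {x | w x = c - ext w y} = 0 := by
          by_contra h
          exact ht h
        exact measure_mono_null (fun x hx => hx.1) ht'
    rw [lintegral_congr this, lintegral_zero]
  have := measure_eq_zero_iff_ae_notMem.1 h0
  filter_upwards [this] with x hx hc
  by_contra h
  exact hx ⟨hc, h⟩

lemma exists_cell {w : E3 → ℝ} (hw : Measurable w) (c : ℝ) {u : Conf (n + 1) → ℝ}
    (hMP : ∀ i, MeasurePreserving (fun p : E3 × Conf n => ins i p.1 p.2) volume volume)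
    (hu : ¬ ∀ᵐ x, u x = 0) (hc : ∀ᵐ x, ext w x ≠ c → u x = 0) :
    ∃ s : Fin (n + 1) → ℝ, ∑ i, s i = c ∧
      ¬ ∀ᵐ x : Conf (n + 1), (∀ i, w (x i) = s i) → u x = 0 := by
  by_contra hcon
  push Not at hcon
  apply hu
  have : Countable (atoms w) := (atoms_countable hw).to_subtype
  have h1 : ∀ᵐ x : Conf (n + 1), ∀ s : Fin (n + 1) → atoms w, ∑ i, (s i : ℝ) = c →
      (∀ i, w (x i) = s i) → u x = 0 := by
    rw [ae_all_iff]
    intro s
    by_cases hs : ∑ i, (s i : ℝ) = c
    · filter_upwards [hcon (fun i => (s i : ℝ)) hs] with x hx _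
      exact hx
    · exact Eventually.of_forall fun x h => absurd h hs
  have h2 : ∀ᵐ x : Conf (n + 1), ∀ i, ext w x = c → w (x i) ∈ atoms w := by
    rw [ae_all_iff]
    exact fun i => ae_atoms hw c i (hMP i)
  filter_upwards [h1, h2, hc] with x hx1 hx2 hx3
  by_cases hx : ext w x = c
  · refine hx1 (fun i => ⟨w (x i), hx2 i hx⟩) ?_ (fun i => rfl)
    exact hx
  · exact hx3 hx

/-- outside the cell but in the cylinder, `u = 0` -/
lemma zero_of_cyl {w : E3 → ℝ} {c : ℝ} {s : Fin (n + 1) → ℝ} (hs : ∑ i, s i = c)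
    {x : Conf (n + 1)} {i : Fin (n + 1)} (h1 : x ∈ cyl' w s i) (h2 : x ∉ cell w s) :
    ext w x ≠ c := by
  intro h
  apply h2
  intro j
  by_cases hj : j = i
  · subst hj
    unfold ext at h
    rw [← hs, Fin.sum_univ_succAbove _ j, Fin.sum_univ_succAbove _ j] at h
    have : ∑ k, w (x (j.succAbove k)) = ∑ k, s (j.succAbove k) :=
      Finset.sum_congr rfl fun k _ => h1 _ (Fin.succAbove_ne j k)
    linarith
  · exact h1 j hj

lemma weakDeriv_congr {E : Type*} [NormedAddCommGroup E] [NormedSpace ℝ E] [MeasureSpace E]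
    {u u' g g' : E → ℝ} {e : E} (hu : u =ᵐ[volume] u') (hg : g =ᵐ[volume] g')
    (h : WeakDeriv u e g) : WeakDeriv u' e g' := by
  intro ζ hζ
  have h1 := h ζ hζ
  have h2 : ∫ x, (fderiv ℝ ζ x e) • u' x = ∫ x, (fderiv ℝ ζ x e) • u x := by
    apply integral_congr_ae
    filter_upwards [hu] with x hx
    rw [hx]
  have h3 : ∫ x, ζ x • g' x = ∫ x, ζ x • g x := by
    apply integral_congr_ae
    filter_upwards [hg] with x hx
    rw [hx]
  rw [h2, h3, h1]

lemma weakDeriv_zero {E : Type*} [NormedAddCommGroup E] [NormedSpace ℝ E] [MeasureSpace E]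
    {e : E} : WeakDeriv (fun _ : E => (0 : ℝ)) e (fun _ => 0) := by
  intro ζ _
  simp

end Pool.Agent.HK.SplitAux

namespace Pool.Agent.HK

open SplitAux

theorem target_Split (hZ : Target_Zero) (hSL : Target_Slice) : Target_Split := by
  intro n w c u D hw hsob hu hc
  have hMP : ∀ i, MeasurePreserving (fun p : E3 × Conf n => ins i p.1 p.2) volume volume :=
    fun i => (hSL n i).1
  obtain ⟨s, hs, hne⟩ := exists_cell hw c hMP hu hc
  refine ⟨s, hs, hne, ?_, ?_⟩
  · have hcell := meas_cell hw s
    have hcyl := fun i => meas_cyl hw s i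
    have hmφ : MemLp (indicator {x | ∀ i, w (x i) = s i} u) 2 volume := hsob.memLp.indicator hcell
    have hmD : ∀ p, MemLp (indicator {x | ∀ j, j ≠ p.1 → w (x j) = s j} (D p)) 2 volume :=
      fun p => (hsob.memLp_grad p).indicator (hcyl p.1)
    refine ⟨hmφ, hmD, ?_⟩
    rintro ⟨i, a⟩
    have hA := (hSL n i).2.1
    have hiff := hA u (D (i, a)) a hsob.memLp (hsob.memLp_grad (i, a))
    have hiff' := hA _ _ a hmφ (hmD (i, a))
    rw [hiff']
    have h1 := hiff.1 (hsob.weak (i, a))
    -- a.e. equality on slices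
    have h2 : ∀ᵐ x : Conf (n + 1), indicator {x | ∀ i, w (x i) = s i} u x =
        indicator (cyl' w s i) u x := by
      filter_upwards [hc] with x hx
      by_cases hx1 : x ∈ cell w s
      · have hx2 : x ∈ cyl' w s i := fun j _ => hx1 j
        rw [indicator_of_mem (show x ∈ {x | ∀ i, w (x i) = s i} from hx1),
          indicator_of_mem hx2]
      · rw [indicator_of_notMem (show x ∉ {x | ∀ i, w (x i) = s i} from hx1)]
        by_cases hx2 : x ∈ cyl' w s i
        · rw [indicator_of_mem hx2, hx (zero_of_cyl hs hx2 hx1)]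
        · rw [indicator_of_notMem hx2]
    have h3 : ∀ᵐ p : E3 × Conf n, indicator {x | ∀ i, w (x i) = s i} u (ins i p.1 p.2) =
        indicator (cyl' w s i) u (ins i p.1 p.2) := (hMP i).quasiMeasurePreserving.ae h2
    have h4 : ∀ᵐ y : Conf n, ∀ᵐ x : E3, indicator {x | ∀ i, w (x i) = s i} u (ins i x y) =
        indicator (cyl' w s i) u (ins i x y) := by
      have h5 : ∀ᵐ p : Conf n × E3, indicator {x | ∀ i, w (x i) = s i} u (ins i p.2 p.1) =
        indicator (cyl' w s i) u (ins i p.2 p.1) := by
        have := (Measure.measurePreserving_swap (μ := (volume : Measure (Conf n)))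
          (ν := (volume : Measure E3))).quasiMeasurePreserving.ae h3
        exact this
      exact Measure.ae_ae_of_ae_prod h5
    filter_upwards [h1, h4] with y hy1 hy4
    by_cases hy : ∀ k, w (y k) = s (i.succAbove k)
    · have hin : ∀ x, ins i x y ∈ cyl' w s i := by
        intro x j hj
        obtain ⟨k, rfl⟩ := Fin.exists_succAbove_eq hj
        simpa [ins] using hy k
      refine weakDeriv_congr ?_ ?_ hy1
      · filter_upwards [hy4] with x hx
        rw [hx, indicator_of_mem (hin x)]
      · refine Eventually.of_forall fun x => ?_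
        exact (indicator_of_mem (show ins i x y ∈ {x | ∀ j, j ≠ i → w (x j) = s j} from hin x)
          (D (i, a))).symm
    · have hout : ∀ x, ins i x y ∉ cyl' w s i := by
        intro x hx
        apply hy
        intro k
        have := hx (i.succAbove k) (Fin.succAbove_ne i k)
        simpa [ins] using this
      refine weakDeriv_congr ?_ ?_ (weakDeriv_zero (e := ax a))
      · filter_upwards [hy4] with x hx
        rw [hx, indicator_of_notMem (hout x)]
      · refine Eventually.of_forall fun x => ?_
        exact (indicator_of_notMem (show ins i x y ∉ {x | ∀ j, j ≠ i → w (x j) = s j} from hout x)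
          (D (i, a))).symm
  · intro η Dη hη hη0
    constructor
    · filter_upwards [hc, hη0] with x hx hx0
      by_cases hx1 : x ∈ cell w s
      · rw [indicator_of_mem (show x ∈ {x | ∀ i, w (x i) = s i} from hx1)]
      · rw [indicator_of_notMem (show x ∉ {x | ∀ i, w (x i) = s i} from hx1)]
        by_cases hx2 : x ∈ cyl' w s 0
        · rw [hx (zero_of_cyl hs hx2 hx1)]
        · rw [hx0 hx2]; simp
    · intro p
      have hzη := hZ (Conf (n + 1)) (dir p) η (Dη p) hη.memLp (hη.memLp_grad p) (hη.weak p)
      have hzu := hZ (Conf (n + 1)) (dir p) u (D p) hsob.memLp (hsob.memLp_grad p) (hsob.weak p)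
      filter_upwards [hc, hη0, hzη, hzu] with x hx hx0 hxη hxu
      by_cases hx1 : x ∈ cyl' w s p.1
      · rw [indicator_of_mem (show x ∈ {x | ∀ j, j ≠ p.1 → w (x j) = s j} from hx1)]
      · rw [indicator_of_notMem (show x ∉ {x | ∀ j, j ≠ p.1 → w (x j) = s j} from hx1)]
        by_cases hx2 : η x = 0
        · rw [hxη hx2]; simp
        · have hx3 : x ∈ cyl' w s 0 := by
            by_contra h
            exact hx2 (hx0 h)
          have hx4 : x ∉ cell w s := fun h => hx1 fun j _ => h j
          rw [hxu (hx (zero_of_cyl hs hx3 hx4))]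

end Pool.Agent.HK
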