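import Pool.Agent.HK.StarD

/-!
# Star: scalar Carleman inequality with critical potential
-/

open MeasureTheory Set Filter Topology
open scoped ENNReal NNReal InnerProductSpace

namespace Pool.Agent.HK.StarAux

/-- For `f ∈ L²`: `∫ f² = ‖f‖²`. -/
lemma int_sq {f : E3 → ℝ} (hf : MemLp f 2 volume) :
    ∫ x, f x ^ 2 = (eLpNorm f 2 volume).toReal ^ 2 := by
  have h := hf.eLpNorm_eq_integral_rpow_norm (by simp) (by simp)
  rw [h]
  have h0 : 0 ≤ ∫ x, ‖f x‖ ^ (2 : ℝ≥0∞).toReal := integral_nonneg fun x => by positivity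
  rw [ENNReal.toReal_ofReal (by positivity)]
  simp only [ENNReal.toReal_ofNat, Real.rpow_two, Real.norm_eq_abs, sq_abs] at h0 ⊢
  rw [← Real.rpow_natCast, ← Real.rpow_mul h0]
  norm_num

/-- Hoelder for `vs * (om u)`. -/
lemma hoelder1 {vs f : E3 → ℝ} (h1 : MemLp vs (3 / 2) volume) (h2 : MemLp f 6 volume) :
    MemLp (fun x => vs x * f x) (6 / 5) volume ∧
    eLpNorm (fun x => vs x * f x) (6 / 5) volume ≤
      eLpNorm vs (3 / 2) volume * eLpNorm f 6 volume := by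
  have e1 : MemLp (vs * f) (6 / 5) volume := MemLp.mul (hpqr := ht1) h2 h1
  have e2 : eLpNorm (vs • f) (6 / 5) volume ≤
      eLpNorm vs (3 / 2) volume * eLpNorm f 6 volume :=
    eLpNorm_smul_le_mul_eLpNorm (hpqr := ht1) h2.1 h1.1
  exact ⟨e1, e2⟩

lemma hoelder2 {F f : E3 → ℝ} (h1 : MemLp F (6 / 5) volume) (h2 : MemLp f 6 volume) :
    Integrable (fun x => F x * f x) volume ∧
    ∫ x, |F x * f x| ≤
      (eLpNorm F (6 / 5) volume).toReal * (eLpNorm f 6 volume).toReal := by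
  have i1 : MemLp (F * f) 1 volume := MemLp.mul (hpqr := ht2) h2 h1
  have i2 : Integrable (fun x => F x * f x) volume := memLp_one_iff_integrable.1 i1
  refine ⟨i2, ?_⟩
  have h3 : eLpNorm (F • f) 1 volume ≤
      eLpNorm F (6 / 5) volume * eLpNorm f 6 volume :=
    eLpNorm_smul_le_mul_eLpNorm (hpqr := ht2) h2.1 h1.1
  have h4 := ENNReal.toReal_mono (ENNReal.mul_ne_top h1.2.ne h2.2.ne) h3
  rw [ENNReal.toReal_mul] at h4
  refine le_trans (le_of_eq ?_) h4
  rw [eLpNorm_one_eq_lintegral_enorm, integral_eq_lintegral_of_nonneg_ae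
    (Eventually.of_forall fun x => abs_nonneg _) i2.1.norm]
  congr 1
  refine lintegral_congr fun x => ?_
  rw [← Real.norm_eq_abs, ofReal_norm]
  rfl

lemma conv {A B M : ℝ≥0∞} {C : ℝ≥0} {t : ℝ} (ht : 0 ≤ t) (hB : B ≠ ⊤) (hM : M ≠ ⊤)
    (h : A ≤ C * (B + ENNReal.ofReal t * M)) : A.toReal ≤ C * (B.toReal + t * M.toReal) := by
  have h1 := ENNReal.toReal_mono (by finiteness) h
  rw [ENNReal.toReal_mul, ENNReal.toReal_add hB (by finiteness), ENNReal.toReal_mul,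
    ENNReal.toReal_ofReal ht] at h1
  simpa using h1

/-- The real arithmetic of the absorption. -/
lemma absorb {c n X G b ε t₁ t₂ t₃ τ : ℝ} (hc : 0 < c) (hε : ε = 1 / (4 * c)) 
    (hX : 0 ≤ X) (hG : 0 ≤ G) (hb : 0 ≤ b) (t2 : 0 ≤ t₂) (t12 : t₂ ≤ t₁) (h0 : 0 < t₁) (t1 : t₁ ≤ 1)
    (t3 : τ * t₁ = t₃) (hbτ : 8 * c * b ≤ τ)
    (h1 : n ≤ c * (2 * ε * n + t₂ * (2 * (G + b * X))))
    (h2 : t₃ * X ≤ c * (2 * ε * n + t₁ * (2 * (G + b * X)))) :
    τ * X ≤ 8 * c * G ∧ n ≤ 8 * c * G := by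
  have hcε : c * (2 * ε) = 1 / 2 := by rw [hε]; field_simp; norm_num
  have hQ : 0 ≤ G + b * X := by positivity
  have h3 : n ≤ 4 * c * t₂ * (G + b * X) := by
    nlinarith [congrArg (· * n) hcε]
  have ht1 : 0 ≤ t₁ := t2.trans t12
  have h4 : t₃ * X ≤ 4 * c * t₁ * (G + b * X) := by
    have : t₂ * (G + b * X) ≤ t₁ * (G + b * X) := by gcongr
    have h5 : c * (t₂ * (G + b * X)) ≤ c * (t₁ * (G + b * X)) := by gcongr
    nlinarith [congrArg (· * n) hcε]
  have h6 : τ * X ≤ 4 * c * (G + b * X) := by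
    have : t₁ * (τ * X) ≤ t₁ * (4 * c * (G + b * X)) := by
      rw [← t3] at h4; linarith
    exact le_of_mul_le_mul_left this h0
  have h7 : 4 * c * (b * X) ≤ τ / 2 * X := by nlinarith
  have h8 : τ * X ≤ 8 * c * G := by linarith
  refine ⟨h8, ?_⟩
  have h9 : b * X ≤ G := by
    have : 8 * c * (b * X) ≤ 8 * c * G := by nlinarith
    exact le_of_mul_le_mul_left this (by positivity)
  have h10 : t₂ * (G + b * X) ≤ 1 * (G + G) := by
    have : t₂ ≤ 1 := t12.trans t1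
    gcongr
  nlinarith


lemma bound_F1 {vs u : E3 → ℝ} {s ε₀ : ℝ} (τ : ℕ) (hs : 0 < s) (hε : 0 ≤ ε₀)
    (hvs : MemLp vs (3 / 2) volume) (hvsε : eLpNorm vs (3 / 2) volume ≤ ENNReal.ofReal ε₀)
    (hu6 : MemLp u 6 volume) (au : AnnSupp 0 s u) :
    (eLpNorm (fun x => om τ x * (-2 * (vs x * u x))) (6 / 5) volume).toReal ≤
      2 * ε₀ * (eLpNorm (fun x => om τ x * u x) 6 volume).toReal ∧
    eLpNorm (fun x => om τ x * (-2 * (vs x * u x))) (6 / 5) volume ≠ ⊤ := by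
  have hN := memLp_om hs τ hu6 au
  obtain ⟨h1, h2⟩ := hoelder1 hvs hN
  have e : (fun x => om τ x * (-2 * (vs x * u x))) =
      (-2 : ℝ) • fun x => vs x * (om τ x * u x) := by
    funext x; simp only [Pi.smul_apply, smul_eq_mul]; ring
  rw [e]
  have h3 : eLpNorm ((-2 : ℝ) • fun x => vs x * (om τ x * u x)) (6 / 5) volume ≤
      2 * (ENNReal.ofReal ε₀ * eLpNorm (fun x => om τ x * u x) 6 volume) := by
    refine eLpNorm_const_smul_le.trans ?_
    have : ‖(-2 : ℝ)‖ₑ = 2 := by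
      rw [enorm_neg, Real.enorm_of_nonneg (by norm_num)]; simp
    rw [this]
    gcongr
    exact h2.trans (by gcongr)
  have h4 : (2 : ℝ≥0∞) * (ENNReal.ofReal ε₀ * eLpNorm (fun x => om τ x * u x) 6 volume) ≠ ⊤ :=
    ENNReal.mul_ne_top (by simp) (ENNReal.mul_ne_top ENNReal.ofReal_ne_top hN.2.ne)
  refine ⟨?_, (lt_of_le_of_lt h3 h4.lt_top).ne⟩
  have h5 := ENNReal.toReal_mono h4 h3
  rw [ENNReal.toReal_mul, ENNReal.toReal_mul, ENNReal.toReal_ofReal hε] at h5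
  simp only [ENNReal.toReal_ofNat] at h5
  linarith

lemma bound_F2 {vb u g : E3 → ℝ} {s b : ℝ} (τ : ℕ) (hs : 0 < s) (hb : 0 ≤ b)
    (hvbm : AEStronglyMeasurable vb volume) (hvb : ∀ x, |vb x| ≤ b)
    (hu : MemLp u 2 volume) (au : AnnSupp 0 s u) (hg : MemLp g 2 volume) (ag : AnnSupp 0 s g) :
    (eLpNorm (fun x => (om τ x * ‖x‖) * (2 * (g x - vb x * u x))) 2 volume).toReal ≤
      2 * ((eLpNorm (fun x => (om τ x * ‖x‖) * g x) 2 volume).toReal +
        b * (eLpNorm (fun x => om (τ + 1) x * u x) 2 volume).toReal) ∧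
    eLpNorm (fun x => (om τ x * ‖x‖) * (2 * (g x - vb x * u x))) 2 volume ≠ ⊤ ∧
    MemLp (fun x => (om τ x * ‖x‖) * g x) 2 volume := by
  have hX := memLp_om hs (τ + 1) hu au
  have hK : ∀ (x : E3), s ≤ ‖x‖ → ‖x‖ ≤ 1 → |om τ x * ‖x‖| ≤ (s⁻¹) ^ τ * 1 := by
    intro x hx hx2
    rw [abs_of_nonneg (mul_nonneg (om_nonneg τ x) (norm_nonneg _))]
    exact mul_le_mul (om_le τ (by positivity) hx) hx2 (norm_nonneg _) (by positivity)
  have hG : MemLp (fun x => (om τ x * ‖x‖) * g x) 2 volume :=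
    memLp_w ((measurable_om τ).mul measurable_norm) hK hg ag
  have hBb : ∀ x, ‖(om τ x * ‖x‖) * (vb x * u x)‖ ≤ b * ‖om (τ + 1) x * u x‖ := by
    intro x
    by_cases hx : ‖x‖ < s ∨ 1 < ‖x‖
    · have : u x = 0 := au x (by simpa using hx)
      simp [this]
    · push Not at hx
      have hx0 : 0 < ‖x‖ := lt_of_lt_of_le hs hx.1
      have h1 : om τ x * ‖x‖ ≤ om (τ + 1) x := by
        have : om (τ + 1) x = om τ x * ‖x‖⁻¹ := by unfold om; rw [pow_succ]
        rw [this]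
        refine mul_le_mul_of_nonneg_left ?_ (om_nonneg τ x)
        exact hx.2.trans ((one_le_inv₀ hx0).2 hx.2)
      rw [norm_mul, norm_mul (vb x), norm_mul (om (τ + 1) x), Real.norm_of_nonneg
        (mul_nonneg (om_nonneg τ x) (norm_nonneg _)), Real.norm_of_nonneg (om_nonneg (τ + 1) x)]
      calc om τ x * ‖x‖ * (‖vb x‖ * ‖u x‖) ≤ om (τ + 1) x * (b * ‖u x‖) := by
            have := om_nonneg (τ + 1) x
            gcongr
            exact hvb x
        _ = _ := by ring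
  have mB : AEStronglyMeasurable (fun x => (om τ x * ‖x‖) * (vb x * u x)) volume :=
    ((measurable_om τ).mul measurable_norm).aestronglyMeasurable.mul (hvbm.mul hu.1)
  have hB : MemLp (fun x => (om τ x * ‖x‖) * (vb x * u x)) 2 volume :=
    hX.of_le_mul mB (Eventually.of_forall hBb)
  have hBn : eLpNorm (fun x => (om τ x * ‖x‖) * (vb x * u x)) 2 volume ≤
      ENNReal.ofReal b * eLpNorm (fun x => om (τ + 1) x * u x) 2 volume :=
    eLpNorm_le_mul_eLpNorm_of_ae_le_mul (Eventually.of_forall hBb) 2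
  have e : (fun x => (om τ x * ‖x‖) * (2 * (g x - vb x * u x))) =
      (2 : ℝ) • ((fun x => (om τ x * ‖x‖) * g x) - fun x => (om τ x * ‖x‖) * (vb x * u x)) := by
    funext x; simp only [Pi.smul_apply, Pi.sub_apply, smul_eq_mul]; ring
  rw [e]
  have h3 : eLpNorm ((2 : ℝ) • ((fun x => (om τ x * ‖x‖) * g x) -
      fun x => (om τ x * ‖x‖) * (vb x * u x))) 2 volume ≤
      2 * (eLpNorm (fun x => (om τ x * ‖x‖) * g x) 2 volume +
        ENNReal.ofReal b * eLpNorm (fun x => om (τ + 1) x * u x) 2 volume) := by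
    refine eLpNorm_const_smul_le.trans ?_
    have : ‖(2 : ℝ)‖ₑ = 2 := by
      rw [Real.enorm_of_nonneg (by norm_num)]; simp
    rw [this]
    gcongr
    refine (eLpNorm_sub_le hG.1 mB (by norm_num)).trans ?_
    gcongr
  have h4 : 2 * (eLpNorm (fun x => (om τ x * ‖x‖) * g x) 2 volume +
        ENNReal.ofReal b * eLpNorm (fun x => om (τ + 1) x * u x) 2 volume) ≠ ⊤ :=
    ENNReal.mul_ne_top (by simp) (ENNReal.add_ne_top.2 ⟨hG.2.ne,
      ENNReal.mul_ne_top ENNReal.ofReal_ne_top hX.2.ne⟩)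
  refine ⟨?_, (lt_of_le_of_lt h3 h4.lt_top).ne, hG⟩
  have h5 := ENNReal.toReal_mono h4 h3
  rw [ENNReal.toReal_mul, ENNReal.toReal_add hG.2.ne
    (ENNReal.mul_ne_top ENNReal.ofReal_ne_top hX.2.ne), ENNReal.toReal_mul,
    ENNReal.toReal_ofReal hb] at h5
  simpa using h5

end Pool.Agent.HK.StarAux

namespace Pool.Agent.HK

open StarAux

theorem target_Star (hFC : Target_FC) (hM : Target_Moll) (hT : Target_TestH1)
    (hS : Target_Sobolev) : Target_Star := by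
  obtain ⟨C₀, hC₀⟩ := fc_weak hFC hM
  obtain ⟨S, hS⟩ := hS
  set c : ℝ := C₀ + 1 with hc
  have hc1 : 1 ≤ c := by rw [hc]; have := C₀.2; simp
  have hc0 : 0 < c := by linarith
  set ε₀ : ℝ := 1 / (4 * c) with hε₀
  have hε : 0 < ε₀ := by positivity
  refine ⟨ε₀, 200 * c ^ 2 + 24 * c, hε, by positivity, fun b => ⟨⌈(8 * c + 1) * |b|⌉₊, ?_⟩⟩
  intro k hk lam hlam vs vb hvs hvsε hvbm hvb u D g s hs hu hg au aD ag hE
  have hb : 0 ≤ b := (abs_nonneg _).trans (hvb 0)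
  set τ : ℕ := k + 1 with hτ
  have hτ1 : (1 : ℝ) ≤ τ := by rw [hτ]; push_cast; have : (0 : ℝ) ≤ k := Nat.cast_nonneg k; linarith
  have hkb : (8 * c + 1) * b ≤ τ := by
    have h1 : (8 * c + 1) * |b| ≤ k := Nat.ceil_le.1 hk
    rw [abs_of_nonneg hb] at h1
    rw [hτ]; push_cast; linarith
  have hbτ : 8 * c * b ≤ τ := by linarith
  have hbτ' : b ≤ τ := by
    have : 0 ≤ 8 * c * b := by positivity
    linarith
  have hu6 : MemLp u 6 volume := by
    refine ⟨hu.memLp.1, lt_of_le_of_lt (hS u D hu) ?_⟩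
    refine ENNReal.mul_lt_top ENNReal.coe_lt_top ?_
    exact ENNReal.sum_lt_top.2 fun a _ => (hu.memLp_grad a).2
  have hvu : MemLp (fun x => vs x * u x) (6 / 5) volume := (hoelder1 hvs hu6).1
  have hvbu : MemLp (fun x => vb x * u x) 2 volume := by
    refine hu.memLp.of_le_mul (c := b) (hvbm.mul hu.memLp.1) (Eventually.of_forall fun x => ?_)
    rw [norm_mul]
    exact mul_le_mul_of_nonneg_right (hvb x) (norm_nonneg _)
  have hF1 : MemLp (fun x => -2 * (vs x * u x)) (6 / 5) volume := hvu.const_mul (-2)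
  have hF2 : MemLp (fun x => 2 * (g x - vb x * u x)) 2 volume := (hg.sub hvbu).const_mul 2
  have zu : ∀ x, ‖x - 0‖ < s ∨ 1 < ‖x - 0‖ → u x = 0 := au
  have a1 : AnnSupp 0 s (fun x => -2 * (vs x * u x)) := fun x hx => by simp [au x hx]
  have a2 : AnnSupp 0 s (fun x => 2 * (g x - vb x * u x)) := fun x hx => by
    simp [au x hx, ag x hx]
  have hV : XStar (fun x => vs x + vb x) := by
    refine ⟨vs, vb, hvs, ?_, rfl⟩
    exact memLp_top_of_bound hvbm b (Eventually.of_forall hvb)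
  have hE2 : ∀ ζ : E3 → ℝ, IsTest ζ → (∑ a, ∫ x, fderiv ℝ ζ x (ax a) * D a x) +
      (2 * lam) * (∫ x, ζ x * u x) = (∫ x, ζ x * (-2 * (vs x * u x))) +
        ∫ x, ζ x * (2 * (g x - vb x * u x)) := by
    intro ζ hζ
    have i1 : Integrable (fun x => ζ x * (vs x * u x)) volume := by
      have := (hoelder2 hvu (hζ.1.continuous.memLp_of_hasCompactSupport hζ.2 (p := 6))).1
      exact this.congr (Eventually.of_forall fun x => by simp only; ring)
    have i2 := int_mul hζ.1.continuous hζ.2 hvbu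
    have i3 := int_mul hζ.1.continuous hζ.2 hg
    have e1 : ∫ x, (vs x + vb x) * (ζ x * u x) =
        (∫ x, ζ x * (vs x * u x)) + ∫ x, ζ x * (vb x * u x) := by
      rw [← integral_add i1 i2]
      congr 1; funext x; ring
    have e2 : ∫ x, ζ x * (-2 * (vs x * u x)) = -2 * ∫ x, ζ x * (vs x * u x) := by
      rw [← integral_const_mul]
      congr 1; funext x; ring
    have e3 : ∫ x, ζ x * (2 * (g x - vb x * u x)) =
        2 * (∫ x, ζ x * g x) - 2 * ∫ x, ζ x * (vb x * u x) := by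
      rw [← integral_const_mul, ← integral_const_mul, ← integral_sub (i3.const_mul 2)
        (i2.const_mul 2)]
      congr 1; funext x; ring
    have h := hE ζ hζ
    rw [e1] at h
    rw [e2, e3]
    linarith
  obtain ⟨E1, E2⟩ := hC₀ τ (by omega) (2 * lam) (by positivity) u D _ _ s hs hu hu6 hF1 hF2
    au a1 a2 hE2
  obtain ⟨M1, M1t⟩ := bound_F1 τ hs hε.le hvs hvsε hu6 au
  obtain ⟨M2, M2t, hG⟩ := bound_F2 τ hs hb hvbm hvb hu.memLp au hg ag
  have hX := memLp_om hs (τ + 1) hu.memLp au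
  have hN := memLp_om hs τ hu6 au
  set n := (eLpNorm (fun x => om τ x * u x) 6 volume).toReal with hn
  set X := (eLpNorm (fun x => om (τ + 1) x * u x) 2 volume).toReal with hXd
  set G := (eLpNorm (fun x => (om τ x * ‖x‖) * g x) 2 volume).toReal with hGd
  have n0 : 0 ≤ n := ENNReal.toReal_nonneg
  have X0 : 0 ≤ X := ENNReal.toReal_nonneg
  have G0 : 0 ≤ G := ENNReal.toReal_nonneg
  have t2p : 0 ≤ ((τ : ℝ) ^ (-(2 / 3) : ℝ)) := by positivity
  have t1p : 0 < ((τ : ℝ) ^ (-(1 / 3) : ℝ)) := by positivity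
  have R1 := conv t2p M1t M2t E1
  have R2 := conv t1p.le M1t M2t E2
  rw [ENNReal.toReal_mul, ENNReal.toReal_ofReal (by positivity)] at R2
  have cC : (C₀ : ℝ) ≤ c := by rw [hc]; linarith
  have R1' : n ≤ c * (2 * ε₀ * n + ((τ : ℝ) ^ (-(2 / 3) : ℝ)) * (2 * (G + b * X))) := by
    refine R1.trans ?_
    gcongr
  have R2' : ((τ : ℝ) ^ (2 / 3 : ℝ)) * X ≤
      c * (2 * ε₀ * n + ((τ : ℝ) ^ (-(1 / 3) : ℝ)) * (2 * (G + b * X))) := by
    refine R2.trans ?_
    gcongr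
  have t12 : ((τ : ℝ) ^ (-(2 / 3) : ℝ)) ≤ ((τ : ℝ) ^ (-(1 / 3) : ℝ)) :=
    Real.rpow_le_rpow_of_exponent_le hτ1 (by norm_num)
  have t1 : ((τ : ℝ) ^ (-(1 / 3) : ℝ)) ≤ 1 :=
    Real.rpow_le_one_of_one_le_of_nonpos hτ1 (by norm_num)
  have t3 : (τ : ℝ) * ((τ : ℝ) ^ (-(1 / 3) : ℝ)) = (τ : ℝ) ^ (2 / 3 : ℝ) := by
    rw [← Real.rpow_one_add' (by positivity) (by norm_num)]
    norm_num
  obtain ⟨A1, A2⟩ := absorb hc0 hε₀ X0 G0 hb t2p t12 t1p t1 t3 hbτ R1' R2'
  have B := lam_term hT τ hs hV hu hg au aD hE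
  -- identification of the integrals
  have IX : ∫ x, om (2 * τ + 2) x * u x ^ 2 = X ^ 2 := by
    rw [hXd, ← int_sq hX]
    congr 1; funext x
    have : om (2 * τ + 2) x = om (τ + 1) x ^ 2 := om_sq (τ + 1) x
    rw [this]; ring
  have IX' : ∫ x, (‖x‖⁻¹) ^ (2 * k + 4) * u x ^ 2 = X ^ 2 := by
    rw [← IX]; rfl
  have IG : ∫ x, (‖x‖⁻¹) ^ (2 * k) * g x ^ 2 = G ^ 2 := by
    rw [hGd, ← int_sq hG]
    congr 1; funext x
    by_cases hx : ‖x‖ < s
    · have : g x = 0 := ag x (by left; simpa using hx)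
      simp [this]
    · push Not at hx
      have hx0 : ‖x‖ ≠ 0 := (lt_of_lt_of_le hs hx).ne'
      have : om τ x * ‖x‖ = (‖x‖⁻¹) ^ k := by
        unfold om
        rw [hτ, pow_succ, mul_assoc, inv_mul_cancel₀ hx0, mul_one]
      rw [this]; ring
  have IL : ∫ x, (‖x‖⁻¹) ^ (2 * k + 2) * u x ^ 2 = ∫ x, om (2 * τ) x * u x ^ 2 := rfl
  -- integrability
  have sq1 : Integrable (fun x => om (2 * τ + 2) x * u x ^ 2) volume := by
    refine (hX.integrable_mul hX).congr (Eventually.of_forall fun x => ?_)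
    have : om (2 * τ + 2) x = om (τ + 1) x ^ 2 := om_sq (τ + 1) x
    simp only [Pi.mul_apply, this]; ring
  have sq2 : Integrable (fun x => ((om τ x * ‖x‖) * g x) ^ 2) volume := hG.integrable_sq
  have hτu := memLp_om hs τ hu.memLp au
  have sq3 : Integrable (fun x => om (2 * τ) x * u x ^ 2) volume := by
    refine (hτu.integrable_mul hτu).congr (Eventually.of_forall fun x => ?_)
    simp only [Pi.mul_apply, om_sq τ x]; ring
  -- (i)
  have T1 : ∫ x, om (2 * τ) x * (|u x| * |g x|) ≤ 1 / 2 * X ^ 2 + 1 / 2 * G ^ 2 := by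
    have hR : Integrable (fun x => 1 / 2 * (om (2 * τ + 2) x * u x ^ 2) +
        1 / 2 * ((om τ x * ‖x‖) * g x) ^ 2) volume := (sq1.const_mul _).add (sq2.const_mul _)
    have hval : ∫ x, (1 / 2 * (om (2 * τ + 2) x * u x ^ 2) +
        1 / 2 * ((om τ x * ‖x‖) * g x) ^ 2) = 1 / 2 * X ^ 2 + 1 / 2 * G ^ 2 := by
      rw [integral_add (sq1.const_mul _) (sq2.const_mul _), integral_const_mul,
        integral_const_mul, IX, int_sq hG]
    rw [← hval]
    refine integral_mono_of_nonneg (Eventually.of_forall fun x =>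
      mul_nonneg (om_nonneg _ _) (by positivity)) hR (Eventually.of_forall fun x => ?_)
    simp only
    by_cases hx : ‖x‖ < s
    · have : g x = 0 := ag x (by left; simpa using hx)
      have h2 : u x = 0 := au x (by left; simpa using hx)
      simp [this, h2]
    · push Not at hx
      have hx0 : 0 < ‖x‖ := lt_of_lt_of_le hs hx
      have e1 : om (2 * τ) x = om (τ + 1) x * (om τ x * ‖x‖) := by
        unfold om
        rw [pow_succ, two_mul, pow_add]
        field_simp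
      have e2 : om (2 * τ + 2) x = om (τ + 1) x ^ 2 := om_sq (τ + 1) x
      rw [e1, e2]
      have e3 : u x ^ 2 = |u x| ^ 2 := (sq_abs _).symm
      have e4 : g x ^ 2 = |g x| ^ 2 := (sq_abs _).symm
      have e5 : ((om τ x * ‖x‖) * g x) ^ 2 = ((om τ x * ‖x‖) * |g x|) ^ 2 := by
        rw [mul_pow, e4, ← mul_pow]
      rw [e5, e3]
      have e6 := two_mul_le_add_sq (om (τ + 1) x * |u x|) ((om τ x * ‖x‖) * |g x|)
      calc om (τ + 1) x * (om τ x * ‖x‖) * (|u x| * |g x|)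
          = 1 / 2 * (2 * (om (τ + 1) x * |u x|) * ((om τ x * ‖x‖) * |g x|)) := by ring
        _ ≤ 1 / 2 * ((om (τ + 1) x * |u x|) ^ 2 + ((om τ x * ‖x‖) * |g x|) ^ 2) := by
          linarith
        _ = _ := by ring
  -- (iii)
  have T3 : ∫ x, |vs x + vb x| * (om (2 * τ) x * u x ^ 2) ≤ ε₀ * n ^ 2 + b * X ^ 2 := by
    obtain ⟨h1, h2⟩ := hoelder1 hvs hN
    obtain ⟨h3, h4⟩ := hoelder2 h1 hN
    have hvv : (eLpNorm (fun x => vs x * (om τ x * u x)) (6 / 5) volume).toReal ≤ ε₀ * n := by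
      have h5 : eLpNorm (fun x => vs x * (om τ x * u x)) (6 / 5) volume ≤
          ENNReal.ofReal ε₀ * eLpNorm (fun x => om τ x * u x) 6 volume :=
        h2.trans (by gcongr)
      have h6 := ENNReal.toReal_mono (ENNReal.mul_ne_top ENNReal.ofReal_ne_top hN.2.ne) h5
      rwa [ENNReal.toReal_mul, ENNReal.toReal_ofReal hε.le] at h6
    have h7 : ∫ x, |vs x * (om τ x * u x) * (om τ x * u x)| ≤ ε₀ * n ^ 2 := by
      refine h4.trans ?_
      calc _ ≤ (ε₀ * n) * n := by gcongr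
        _ = _ := by ring
    have h8 : ∫ x, b * (om (2 * τ + 2) x * u x ^ 2) = b * X ^ 2 := by
      rw [integral_const_mul, IX]
    rw [← h8]
    refine le_trans ?_ (add_le_add h7 le_rfl)
    rw [← integral_add h3.abs (sq1.const_mul b)]
    refine integral_mono_of_nonneg (Eventually.of_forall fun x =>
      mul_nonneg (abs_nonneg _) (mul_nonneg (om_nonneg _ _) (by positivity)))
      (h3.abs.add (sq1.const_mul b)) (Eventually.of_forall fun x => ?_)
    simp only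
    by_cases hx : ‖x‖ < s ∨ 1 < ‖x‖
    · have : u x = 0 := au x (by simpa using hx)
      simp [this]
    · push Not at hx
      have hx0 : 0 < ‖x‖ := lt_of_lt_of_le hs hx.1
      have e1 : |vs x * (om τ x * u x) * (om τ x * u x)| = |vs x| * (om (2 * τ) x * u x ^ 2) := by
        rw [om_sq, mul_assoc, abs_mul]
        congr 1
        rw [abs_of_nonneg (mul_self_nonneg _)]
        ring
      rw [e1]
      have e2 : om (2 * τ) x ≤ om (2 * τ + 2) x := om_mono (by omega) hx0 hx.2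
      have e3 : |vs x + vb x| ≤ |vs x| + b := (abs_add_le _ _).trans (by linarith [hvb x])
      have e4 := om_nonneg (2 * τ) x
      calc |vs x + vb x| * (om (2 * τ) x * u x ^ 2)
          ≤ (|vs x| + b) * (om (2 * τ) x * u x ^ 2) := by gcongr
        _ = |vs x| * (om (2 * τ) x * u x ^ 2) + b * (om (2 * τ) x * u x ^ 2) := by ring
        _ ≤ _ := by gcongr
  rw [IX', IG, IL]
  have hkτ : (k : ℝ) + 1 = τ := by rw [hτ]; push_cast; rfl
  rw [hkτ]
  rw [IX] at B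
  have F1 : (τ : ℝ) ^ 2 * X ^ 2 ≤ 64 * c ^ 2 * G ^ 2 := by
    have := pow_le_pow_left₀ (by positivity) A1 2
    calc (τ : ℝ) ^ 2 * X ^ 2 = (τ * X) ^ 2 := by ring
      _ ≤ _ := this
      _ = _ := by ring
  have F2 : n ^ 2 ≤ 64 * c ^ 2 * G ^ 2 := by
    calc n ^ 2 ≤ (8 * c * G) ^ 2 := pow_le_pow_left₀ n0 A2 2
      _ = _ := by ring
  have F3 : X ^ 2 ≤ (τ : ℝ) ^ 2 * X ^ 2 := by
    exact le_mul_of_one_le_left (sq_nonneg X) (one_le_pow₀ hτ1)
  have F4 : b * X ^ 2 ≤ (τ : ℝ) ^ 2 * X ^ 2 := by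
    have : b ≤ (τ : ℝ) ^ 2 := hbτ'.trans (le_self_pow₀ hτ1 (by norm_num))
    exact mul_le_mul_of_nonneg_right this (sq_nonneg X)
  have F5 : ε₀ * n ^ 2 ≤ 16 * c * G ^ 2 := by
    calc ε₀ * n ^ 2 ≤ ε₀ * (64 * c ^ 2 * G ^ 2) := by gcongr
      _ = 16 * c * G ^ 2 := by rw [hε₀]; field_simp; ring
  have F6 : (1 : ℝ) / 2 * G ^ 2 ≤ 8 * c * G ^ 2 :=
    mul_le_mul_of_nonneg_right (by linarith) (sq_nonneg G)
  have F7 : 0 ≤ c ^ 2 * G ^ 2 := by positivity
  have F8 : (200 * c ^ 2 + 24 * c) * G ^ 2 = 200 * (c ^ 2 * G ^ 2) + 24 * (c * G ^ 2) := by ring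
  have F9 : 64 * c ^ 2 * G ^ 2 = 64 * (c ^ 2 * G ^ 2) := by ring
  rw [F8]
  rw [F9] at F1 F2
  linarith

end Pool.Agent.HK
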