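import Pool.Agent.HK.Spec

/-!
# Star, part A: Hoelder triples, weights, mollification with weights
-/

open MeasureTheory Set Filter Topology
open scoped ENNReal NNReal InnerProductSpace

namespace Pool.Agent.HK.StarAux

lemma ht1 : ENNReal.HolderTriple (3/2) 6 (6/5) := by
  constructor
  rw [← ENNReal.toReal_eq_toReal_iff' (by simp) (by simp)]
  rw [ENNReal.toReal_add (by simp) (by simp)]
  simp
  norm_num

lemma ht2 : ENNReal.HolderTriple (6/5) 6 1 := by
  constructor
  rw [← ENNReal.toReal_eq_toReal_iff' (by simp) (by simp)]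
  rw [ENNReal.toReal_add (by simp) (by simp)]
  simp
  norm_num

/-- weight -/
noncomputable def om (τ : ℕ) (x : E3) : ℝ := (‖x‖⁻¹) ^ τ

lemma om_nonneg (τ : ℕ) (x : E3) : 0 ≤ om τ x := by unfold om; positivity

lemma measurable_om (τ : ℕ) : Measurable (om τ) := by
  unfold om; fun_prop

lemma om_le (τ : ℕ) {s : ℝ} (hs : 0 < s) {x : E3} (hx : s ≤ ‖x‖) : om τ x ≤ (s⁻¹) ^ τ := by
  unfold om
  gcongr

lemma om_mono {σ τ : ℕ} (h : σ ≤ τ) {x : E3} (h0 : 0 < ‖x‖) (hx : ‖x‖ ≤ 1) : om σ x ≤ om τ x := by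
  unfold om
  exact pow_le_pow_right₀ ((one_le_inv₀ h0).2 hx) h

/-- A measurable function bounded on the annulus times an `L^p` function on the annulus. -/
lemma memLp_w {W f : E3 → ℝ} {p : ℝ≥0∞} {s K : ℝ} (hW : Measurable W)
    (hK : ∀ x, s ≤ ‖x‖ → ‖x‖ ≤ 1 → |W x| ≤ K) (hf : MemLp f p volume) (ha : AnnSupp 0 s f) :
    MemLp (fun x => W x * f x) p volume := by
  refine hf.of_le_mul (c := K) (hW.aestronglyMeasurable.mul hf.1) (Eventually.of_forall fun x => ?_)
  by_cases hx : ‖x‖ < s ∨ 1 < ‖x‖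
  · have : f x = 0 := ha x (by simpa using hx)
    simp [this]
  · push Not at hx
    rw [norm_mul, Real.norm_eq_abs]
    exact mul_le_mul_of_nonneg_right (hK x hx.1 hx.2) (norm_nonneg _)

lemma memLp_om {f : E3 → ℝ} {p : ℝ≥0∞} {s : ℝ} (hs : 0 < s) (τ : ℕ)
    (hf : MemLp f p volume) (ha : AnnSupp 0 s f) :
    MemLp (fun x => om τ x * f x) p volume :=
  memLp_w (measurable_om τ) (K := (s⁻¹) ^ τ) (fun x hx _ => by
    rw [abs_of_nonneg (om_nonneg τ x)]; exact om_le τ hs hx) hf ha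

lemma mol_zero {φ : ℕ → E3 → ℝ} (hφ : Mollifier φ) {f : E3 → ℝ} {s : ℝ}
    (ha : AnnSupp 0 s f) {m : ℕ} (hm : 1 / ((m : ℝ) + 1) ≤ s / 2) (x : E3)
    (hx : ‖x‖ < s / 2 ∨ 2 < ‖x‖) : mol (φ m) f x = 0 := by
  unfold mol
  have : ∀ y, φ m (x - y) * f y = 0 := by
    intro y
    by_cases h : 1 / ((m : ℝ) + 1) ≤ ‖x - y‖
    · rw [hφ.supp m _ h, zero_mul]
    · push Not at h
      have hm1 : 1 / ((m : ℝ) + 1) ≤ 1 := by
        rw [div_le_one (by positivity)]
        have : (0 : ℝ) ≤ m := Nat.cast_nonneg m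
        linarith
      have h1 : ‖y‖ ≤ ‖x‖ + ‖x - y‖ := by
        calc ‖y‖ = ‖x - (x - y)‖ := by congr 1; abel
          _ ≤ _ := norm_sub_le _ _
      have h2 : ‖x‖ ≤ ‖y‖ + ‖x - y‖ := by
        calc ‖x‖ = ‖y + (x - y)‖ := by congr 1; abel
          _ ≤ _ := norm_add_le _ _
      have : f y = 0 := by
        apply ha
        rw [sub_zero]
        rcases hx with hx | hx
        · left; linarith
        · right; linarith
      rw [this, mul_zero]
  simp [this]

/-- Convergence of weighted norms of mollifications. -/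
lemma tendsto_w (hM : Target_Moll) {φ : ℕ → E3 → ℝ} (hφ : Mollifier φ) {f W : E3 → ℝ}
    {p : ℝ≥0∞} (hp : 1 ≤ p) (hp' : p ≠ ⊤) {s : ℝ} {K : ℝ≥0} (hs : 0 < s) (hW : Measurable W)
    (hK : ∀ x, s / 2 ≤ ‖x‖ → ‖x‖ ≤ 2 → |W x| ≤ K) (hf : MemLp f p volume)
    (ha : AnnSupp 0 s f) :
    ∃ δ : ℕ → ℝ≥0∞, Tendsto δ atTop (𝓝 0) ∧ ∀ᶠ m in atTop,
      eLpNorm (fun x => W x * f x) p volume ≤
        eLpNorm (fun x => W x * mol (φ m) f x) p volume + δ m ∧
      eLpNorm (fun x => W x * mol (φ m) f x) p volume ≤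
        eLpNorm (fun x => W x * f x) p volume + δ m := by
  obtain ⟨h1, h2, h3, h4, -, -⟩ := (hM E3).2 φ hφ p hp hp' f hf
  refine ⟨fun k => K * eLpNorm (fun x => mol (φ k) f x - f x) p volume, ?_, ?_⟩
  · have := ENNReal.Tendsto.const_mul (a := (K : ℝ≥0∞)) h4 (Or.inr ENNReal.coe_ne_top)
    simpa using this
  have hm : ∀ᶠ m : ℕ in atTop, 1 / ((m : ℝ) + 1) ≤ s / 2 := by
    have := tendsto_one_div_add_atTop_nhds_zero_nat (𝕜 := ℝ)
    have h := this.eventually (ge_mem_nhds (show (0 : ℝ) < s / 2 by positivity))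
    exact h
  filter_upwards [hm] with m hm
  have hdiff : eLpNorm (fun x => W x * mol (φ m) f x - W x * f x) p volume ≤
      K * eLpNorm (fun x => mol (φ m) f x - f x) p volume := by
    have hb : ∀ x, ‖W x * mol (φ m) f x - W x * f x‖ₑ ≤
        ‖((K : ℝ) • fun x => mol (φ m) f x - f x) x‖ₑ := by
      intro x
      rw [← mul_sub, Pi.smul_apply, smul_eq_mul, enorm_mul, enorm_mul]
      by_cases hx : ‖x‖ < s / 2 ∨ 2 < ‖x‖
      · have e1 : mol (φ m) f x = 0 := mol_zero hφ ha hm x hx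
        have e2 : f x = 0 := by
          apply ha
          rw [sub_zero]
          rcases hx with hx | hx
          · left; linarith
          · right; linarith
        simp [e1, e2]
      · push Not at hx
        gcongr
        rw [enorm_le_iff_norm_le, Real.norm_eq_abs, Real.norm_of_nonneg (NNReal.coe_nonneg K)]
        exact hK x hx.1 hx.2
    calc _ ≤ eLpNorm ((K : ℝ) • fun x => mol (φ m) f x - f x) p volume := eLpNorm_mono_enorm hb
      _ ≤ _ := by
        refine (eLpNorm_const_smul_le).trans ?_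
        gcongr
        rw [Real.enorm_of_nonneg (NNReal.coe_nonneg K)]
        simp
  have m1 : AEStronglyMeasurable (fun x => W x * f x) volume :=
    hW.aestronglyMeasurable.mul hf.1
  have m2 : AEStronglyMeasurable (fun x => W x * mol (φ m) f x) volume :=
    hW.aestronglyMeasurable.mul (h2 m).1
  constructor
  · calc eLpNorm (fun x => W x * f x) p volume
        = eLpNorm ((fun x => W x * mol (φ m) f x) -
          (fun x => W x * mol (φ m) f x - W x * f x)) p volume := by
          congr 1; funext x; simp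
      _ ≤ _ := (eLpNorm_sub_le m2 (m2.sub m1) hp).trans (by gcongr; exact hdiff)
  · calc eLpNorm (fun x => W x * mol (φ m) f x) p volume
        = eLpNorm ((fun x => W x * f x) +
          (fun x => W x * mol (φ m) f x - W x * f x)) p volume := by
          congr 1; funext x; simp
      _ ≤ _ := (eLpNorm_add_le m1 (m2.sub m1) hp).trans (by gcongr; exact hdiff)

end Pool.Agent.HK.StarAux
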