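import Pool.Agent.HK.StarA

/-!
# Star, part B: the equation of the mollified function, the free inequality for weak solutions
-/

open MeasureTheory Set Filter Topology
open scoped ENNReal NNReal InnerProductSpace

namespace Pool.Agent.HK.StarAux

lemma isTest_shift {ζ : E3 → ℝ} (h : IsTest ζ) (x : E3) : IsTest (fun y => ζ (x - y)) := by
  refine ⟨h.1.comp (contDiff_const.sub contDiff_id), ?_⟩
  exact h.2.comp_homeomorph (Homeomorph.subLeft x)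

lemma fderiv_shift {ζ : E3 → ℝ} (h : IsTest ζ) (x y e : E3) :
    fderiv ℝ (fun y => ζ (x - y)) y e = - fderiv ℝ ζ (x - y) e := by
  have h1 : HasFDerivAt ζ (fderiv ℝ ζ (x - y)) (x - y) :=
    (h.1.differentiable (by simp)).differentiableAt.hasFDerivAt
  have h2 : HasFDerivAt (fun y : E3 => x - y) (-(ContinuousLinearMap.id ℝ E3)) y := by
    simpa using (hasFDerivAt_id y).const_sub x
  have := (h1.comp y h2).fderiv
  change fderiv ℝ (ζ ∘ fun y => x - y) y e = _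
  rw [this]
  simp

lemma mol_eqn (hM : Target_Moll) {φ : ℕ → E3 → ℝ} (hφ : Mollifier φ) {u : E3 → ℝ}
    {D : Fin 3 → E3 → ℝ} (hu : Sob ax u D) {F₁ F₂ : E3 → ℝ} {lam : ℝ}
    (hE : ∀ ζ : E3 → ℝ, IsTest ζ → (∑ a, ∫ x, fderiv ℝ ζ x (ax a) * D a x) +
      lam * (∫ x, ζ x * u x) = (∫ x, ζ x * F₁ x) + ∫ x, ζ x * F₂ x) (m : ℕ) (x : E3) :
    - lap (mol (φ m) u) x + lam * mol (φ m) u x = mol (φ m) F₁ x + mol (φ m) F₂ x := by
  obtain ⟨-, -, -, -, -, h6⟩ := (hM E3).2 φ hφ 2 (by norm_num) (by simp) u hu.memLp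
  have h5 : ∀ a, ∀ k x e, fderiv ℝ (mol (φ k) (D a)) x e =
      ∫ y, fderiv ℝ (φ k) (x - y) e * D a y := fun a =>
    ((hM E3).2 φ hφ 2 (by norm_num) (by simp) (D a) (hu.memLp_grad a)).2.2.2.2.1
  have h7 : ∀ a, (fun y => fderiv ℝ (mol (φ m) u) y (ax a)) = mol (φ m) (D a) := by
    intro a
    funext y
    exact h6 m y (ax a) (D a) (hu.weak a)
  have hlap : lap (mol (φ m) u) x = ∑ a, ∫ y, fderiv ℝ (φ m) (x - y) (ax a) * D a y := by
    unfold lap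
    refine Finset.sum_congr rfl fun a _ => ?_
    rw [h7 a, h5 a]
  have := hE _ (isTest_shift (hφ.test m) x)
  simp only [fderiv_shift (hφ.test m)] at this
  rw [hlap]
  simp only [neg_mul, integral_neg, Finset.sum_neg_distrib] at this
  exact this

lemma ccOff_mol (hM : Target_Moll) {φ : ℕ → E3 → ℝ} (hφ : Mollifier φ) {f : E3 → ℝ}
    {p : ℝ≥0∞} (hp : 1 ≤ p) (hp' : p ≠ ⊤) {s : ℝ} (hs : 0 < s) (hf : MemLp f p volume)
    (ha : AnnSupp 0 s f) {m : ℕ} (hm : 1 / ((m : ℝ) + 1) ≤ s / 2) : CcOff (mol (φ m) f) := by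
  obtain ⟨h1, -, -, -, -, -⟩ := (hM E3).2 φ hφ p hp hp' f hf
  exact ⟨(h1 m).continuous, s / 2, 2, by positivity, mol_zero hφ ha hm⟩

/-- The free Carleman inequality for weak solutions. -/
lemma fc_weak (hFC : Target_FC) (hM : Target_Moll) : ∃ C : ℝ≥0, ∀ τ : ℕ, 1 ≤ τ → ∀ lam : ℝ,
    0 ≤ lam → ∀ (u : E3 → ℝ) (D : Fin 3 → E3 → ℝ) (F₁ F₂ : E3 → ℝ) (s : ℝ), 0 < s → Sob ax u D →
    MemLp u 6 volume → MemLp F₁ (6 / 5) volume → MemLp F₂ 2 volume → AnnSupp 0 s u →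
    AnnSupp 0 s F₁ → AnnSupp 0 s F₂ →
    (∀ ζ : E3 → ℝ, IsTest ζ → (∑ a, ∫ x, fderiv ℝ ζ x (ax a) * D a x) +
      lam * (∫ x, ζ x * u x) = (∫ x, ζ x * F₁ x) + ∫ x, ζ x * F₂ x) →
    eLpNorm (fun x => om τ x * u x) 6 volume ≤
      C * (eLpNorm (fun x => om τ x * F₁ x) (6 / 5) volume +
        ENNReal.ofReal ((τ : ℝ) ^ (-(2 / 3) : ℝ)) *
          eLpNorm (fun x => (om τ x * ‖x‖) * F₂ x) 2 volume) ∧
    ENNReal.ofReal ((τ : ℝ) ^ (2 / 3 : ℝ)) *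
        eLpNorm (fun x => om (τ + 1) x * u x) 2 volume ≤
      C * (eLpNorm (fun x => om τ x * F₁ x) (6 / 5) volume +
        ENNReal.ofReal ((τ : ℝ) ^ (-(1 / 3) : ℝ)) *
          eLpNorm (fun x => (om τ x * ‖x‖) * F₂ x) 2 volume) := by
  obtain ⟨C, hC⟩ := hFC
  refine ⟨C, fun τ hτ lam hlam u D F₁ F₂ s hs hu hu6 h1 h2 au a1 a2 hE => ?_⟩
  obtain ⟨φ, hφ⟩ := (hM E3).1
  have hm : ∀ᶠ m : ℕ in atTop, 1 / ((m : ℝ) + 1) ≤ s / 2 := by
    have := tendsto_one_div_add_atTop_nhds_zero_nat (𝕜 := ℝ)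
    have h := this.eventually (ge_mem_nhds (show (0 : ℝ) < s / 2 by positivity))
    exact h
  have hK : ∀ (σ : ℕ) (x : E3), s / 2 ≤ ‖x‖ → ‖x‖ ≤ 2 →
      |om σ x| ≤ ((((s / 2)⁻¹) ^ σ).toNNReal : ℝ≥0) := by
    intro σ x hx _
    rw [abs_of_nonneg (om_nonneg σ x), Real.coe_toNNReal _ (by positivity)]
    exact om_le σ (by positivity) hx
  have hK' : ∀ (x : E3), s / 2 ≤ ‖x‖ → ‖x‖ ≤ 2 →
      |om τ x * ‖x‖| ≤ ((((s / 2)⁻¹) ^ τ * 2).toNNReal : ℝ≥0) := by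
    intro x hx hx2
    rw [abs_of_nonneg (mul_nonneg (om_nonneg τ x) (norm_nonneg _)),
      Real.coe_toNNReal _ (by positivity)]
    exact mul_le_mul (om_le τ (by positivity) hx) hx2 (norm_nonneg _) (by positivity)
  have hu2 : MemLp u 2 volume := hu.memLp
  have q1 : (1 : ℝ≥0∞) ≤ 6 / 5 := by
    rw [ENNReal.le_div_iff_mul_le (by simp) (by simp)]; norm_num
  have q1' : (6 / 5 : ℝ≥0∞) ≠ ⊤ := by
    exact ENNReal.div_ne_top (by simp) (by simp)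
  obtain ⟨δ₁, t1, c1⟩ := tendsto_w hM hφ (p := 6) (by norm_num) (by simp) hs (measurable_om τ)
    (hK τ) hu6 au
  obtain ⟨δ₂, t2, c2⟩ := tendsto_w hM hφ (p := 2) (by norm_num) (by simp) hs
    (measurable_om (τ + 1)) (hK (τ + 1)) hu2 au
  obtain ⟨δ₃, t3, c3⟩ := tendsto_w hM hφ (p := 6 / 5) q1 q1' hs
    (measurable_om τ) (hK τ) h1 a1
  obtain ⟨δ₄, t4, c4⟩ := tendsto_w hM hφ (p := 2) (by norm_num) (by simp) hs
    ((measurable_om τ).mul measurable_norm) hK' h2 a2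
  have key : ∀ᶠ m : ℕ in atTop,
    eLpNorm (fun x => om τ x * mol (φ m) u x) 6 volume ≤
      C * (eLpNorm (fun x => om τ x * mol (φ m) F₁ x) (6 / 5) volume +
        ENNReal.ofReal ((τ : ℝ) ^ (-(2 / 3) : ℝ)) *
          eLpNorm (fun x => (om τ x * ‖x‖) * mol (φ m) F₂ x) 2 volume) ∧
    ENNReal.ofReal ((τ : ℝ) ^ (2 / 3 : ℝ)) *
        eLpNorm (fun x => om (τ + 1) x * mol (φ m) u x) 2 volume ≤
      C * (eLpNorm (fun x => om τ x * mol (φ m) F₁ x) (6 / 5) volume +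
        ENNReal.ofReal ((τ : ℝ) ^ (-(1 / 3) : ℝ)) *
          eLpNorm (fun x => (om τ x * ‖x‖) * mol (φ m) F₂ x) 2 volume) := by
    filter_upwards [hm] with m hm
    have := hC τ hτ lam hlam (mol (φ m) u) (mol (φ m) F₁) (mol (φ m) F₂)
      (((hM E3).2 φ hφ 2 (by norm_num) (by simp) u hu2).1 m)
      (ccOff_mol hM hφ (p := 2) (by norm_num) (by simp) hs hu2 au hm)
      (ccOff_mol hM hφ (p := 6 / 5) q1 q1' hs h1 a1 hm)
      (ccOff_mol hM hφ (p := 2) (by norm_num) (by simp) hs h2 a2 hm)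
      (fun x => mol_eqn hM hφ hu hE m x)
    simpa only [om, mul_assoc] using this
  have lim : ∀ (A B c : ℝ≥0∞) (α β γ : ℕ → ℝ≥0∞), c ≠ ⊤ →
      Tendsto α atTop (𝓝 0) → Tendsto β atTop (𝓝 0) → Tendsto γ atTop (𝓝 0) →
      Tendsto (fun m => C * ((A + β m) + c * (B + γ m)) + α m) atTop
        (𝓝 (C * (A + c * B))) := by
    intro A B c α β γ hc hα hβ hγ
    have e1 : Tendsto (fun m => A + β m) atTop (𝓝 (A + 0)) := tendsto_const_nhds.add hβ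
    have e2 : Tendsto (fun m => B + γ m) atTop (𝓝 (B + 0)) := tendsto_const_nhds.add hγ
    have e3 : Tendsto (fun m => c * (B + γ m)) atTop (𝓝 (c * (B + 0))) :=
      ENNReal.Tendsto.const_mul e2 (Or.inr hc)
    have e4 : Tendsto (fun m => C * ((A + β m) + c * (B + γ m))) atTop
        (𝓝 (C * ((A + 0) + c * (B + 0)))) :=
      ENNReal.Tendsto.const_mul (e1.add e3) (Or.inr ENNReal.coe_ne_top)
    simpa using e4.add hα
  constructor
  · refine ge_of_tendsto (lim _ _ (ENNReal.ofReal ((τ : ℝ) ^ (-(2 / 3) : ℝ))) δ₁ δ₃ δ₄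
      ENNReal.ofReal_ne_top t1 t3 t4) ?_
    filter_upwards [key, c1, c3, c4] with m k c1 c3 c4
    calc _ ≤ _ := c1.1
      _ ≤ _ := by
        gcongr
        refine k.1.trans ?_
        gcongr
        · exact c3.2
        · exact c4.2
  · have t2' : Tendsto (fun m => ENNReal.ofReal ((τ : ℝ) ^ (2 / 3 : ℝ)) * δ₂ m) atTop (𝓝 0) := by
      simpa using ENNReal.Tendsto.const_mul (a := ENNReal.ofReal ((τ : ℝ) ^ (2 / 3 : ℝ))) t2
        (Or.inr ENNReal.ofReal_ne_top)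
    refine ge_of_tendsto (lim _ _ (ENNReal.ofReal ((τ : ℝ) ^ (-(1 / 3) : ℝ)))
      (fun m => ENNReal.ofReal ((τ : ℝ) ^ (2 / 3 : ℝ)) * δ₂ m) δ₃ δ₄
      ENNReal.ofReal_ne_top t2' t3 t4) ?_
    filter_upwards [key, c2, c3, c4] with m k c2 c3 c4
    calc _ ≤ _ := mul_le_mul_right c2.1 _
      _ ≤ _ := by
        rw [mul_add]
        refine add_le_add ?_ le_rfl
        refine k.2.trans ?_
        gcongr
        · exact c3.2
        · exact c4.2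

end Pool.Agent.HK.StarAux
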