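import Pool.Agent.HK.StarB

/-!
# Star, part C: the weight as a smooth function, product rule, and the term with `lam`
-/

open MeasureTheory Set Filter Topology
open scoped ENNReal NNReal InnerProductSpace

namespace Pool.Agent.HK.StarAux

lemma sq_inv_pow_deriv (τ : ℕ) {x : E3} (hx : x ≠ 0) :
    HasFDerivAt (fun y : E3 => ((‖y‖ ^ 2)⁻¹) ^ τ)
      ((-(2 * τ * ((‖x‖ ^ 2)⁻¹) ^ (τ + 1))) • (innerSL ℝ x)) x := by
  have h1 : HasFDerivAt (fun y : E3 => ‖y‖ ^ 2) (2 • (innerSL ℝ x)) x :=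
    (hasStrictFDerivAt_norm_sq x).hasFDerivAt
  have hr : (‖x‖ ^ 2) ≠ 0 := by simpa using hx
  have h2 : HasDerivAt (fun r : ℝ => (r⁻¹) ^ τ) (-(τ * ((‖x‖ ^ 2)⁻¹) ^ (τ + 1))) (‖x‖ ^ 2) := by
    have := (hasDerivAt_inv hr).fun_pow τ
    refine this.congr_deriv ?_
    rcases Nat.eq_zero_or_pos τ with h | h
    · simp [h]
    · obtain ⟨n, rfl⟩ : ∃ n, τ = n + 1 := ⟨τ - 1, by omega⟩
      simp only [Nat.add_sub_cancel]
      rw [pow_succ, pow_succ, ← inv_pow]
      ring
  have h3 := h2.comp_hasFDerivAt x h1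
  refine h3.congr_fderiv ?_
  ext v
  simp
  ring

lemma exists_weight (τ : ℕ) {s : ℝ} (hs : 0 < s) : ∃ w : E3 → ℝ, ContDiff ℝ (⊤ : ℕ∞) w ∧
    (∀ x, s ≤ ‖x‖ → w x = om (2 * τ) x) ∧
    (∀ x a, s ≤ ‖x‖ → fderiv ℝ w x (ax a) = -(2 * τ * om (2 * τ + 2) x * x a)) := by
  let χ : ContDiffBump (0 : E3) := ⟨s / 4, s / 2, by positivity, by linarith⟩
  have hom : ∀ (n : ℕ) (x : E3), ((‖x‖ ^ 2)⁻¹) ^ n = om (2 * n) x := by
    intro n x
    unfold om
    rw [pow_mul, inv_pow ‖x‖ 2]
  refine ⟨fun x => (1 - χ x) * ((‖x‖ ^ 2)⁻¹) ^ τ, ?_, ?_, ?_⟩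
  · rw [contDiff_iff_contDiffAt]
    intro x
    by_cases hx : ‖x‖ < s / 4
    · have : (fun x => (1 - χ x) * ((‖x‖ ^ 2)⁻¹) ^ τ) =ᶠ[𝓝 x] fun _ => 0 := by
        have hopen : Metric.ball (0 : E3) (s / 4) ∈ 𝓝 x :=
          Metric.isOpen_ball.mem_nhds (by simpa using hx)
        filter_upwards [hopen] with y hy
        rw [χ.one_of_mem_closedBall (Metric.ball_subset_closedBall hy)]
        simp
      exact contDiffAt_const.congr_of_eventuallyEq this
    · have hx0 : x ≠ 0 := by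
        rintro rfl
        simp at hx
        linarith
      have h1 : ContDiffAt ℝ (⊤ : ℕ∞) (fun y : E3 => ‖y‖ ^ 2) x := (contDiff_norm_sq ℝ).contDiffAt
      exact (contDiffAt_const.sub χ.contDiff.contDiffAt).mul
        ((h1.inv (by simpa using hx0)).pow τ)
  · intro x hx
    have : χ x = 0 := by
      apply χ.zero_of_le_dist
      rw [dist_zero_right]
      change s / 2 ≤ ‖x‖
      linarith
    simp only [this, sub_zero, one_mul, hom]
  · intro x a hx
    have hx0 : x ≠ 0 := by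
      rintro rfl
      simp at hx
      linarith
    have : (fun x => (1 - χ x) * ((‖x‖ ^ 2)⁻¹) ^ τ) =ᶠ[𝓝 x] fun x => ((‖x‖ ^ 2)⁻¹) ^ τ := by
      have hopen : {y : E3 | s / 2 < ‖y‖} ∈ 𝓝 x :=
        (isOpen_lt continuous_const continuous_norm).mem_nhds (by
          change s / 2 < ‖x‖
          linarith)
      filter_upwards [hopen] with y hy
      rw [χ.zero_of_le_dist (by rw [dist_zero_right]; exact le_of_lt hy)]
      simp
    rw [this.fderiv_eq, (sq_inv_pow_deriv τ hx0).fderiv]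
    have h2 : ((‖x‖ ^ 2)⁻¹) ^ (τ + 1) = om (2 * τ + 2) x := by
      rw [hom]; rfl
    rw [h2]
    have h3 : ⟪x, ax a⟫_ℝ = x a := by
      rw [ax, real_inner_comm, EuclideanSpace.inner_single_left]
      simp
    simp [h3]

/-- Product of a test function and an `L²` function is integrable. -/
lemma int_mul {f u : E3 → ℝ} (hf : Continuous f) (hc : HasCompactSupport f)
    (hu : MemLp u 2 volume) : Integrable (fun x => f x * u x) volume :=
  (hf.memLp_of_hasCompactSupport hc (p := 2)).integrable_mul hu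

lemma weakDeriv_mul {u g w : E3 → ℝ} {e : E3} (hw : ContDiff ℝ (⊤ : ℕ∞) w)
    (hu : MemLp u 2 volume) (hg : MemLp g 2 volume) (h : WeakDeriv u e g) :
    WeakDeriv (fun x => w x * u x) e (fun x => w x * g x + fderiv ℝ w x e * u x) := by
  intro ζ hζ
  have hwζ : IsTest (fun x => w x * ζ x) := ⟨hw.mul hζ.1, hζ.2.mul_left⟩
  have h1 := h _ hwζ
  have dw : ∀ x, DifferentiableAt ℝ w x := fun x => (hw.differentiable (by simp)).differentiableAt
  have dζ : ∀ x, DifferentiableAt ℝ ζ x := fun x =>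
    (hζ.1.differentiable (by simp)).differentiableAt
  have hf : ∀ x, fderiv ℝ (fun x => w x * ζ x) x e =
      w x * fderiv ℝ ζ x e + ζ x * fderiv ℝ w x e := by
    intro x
    have := fderiv_mul (dw x) (dζ x)
    change fderiv ℝ (w * ζ) x e = _
    rw [this]
    simp
  have cw : Continuous fun x => fderiv ℝ w x e :=
    (hw.continuous_fderiv (by simp)).clm_apply continuous_const
  have cζ : Continuous fun x => fderiv ℝ ζ x e :=
    (hζ.1.continuous_fderiv (by simp)).clm_apply continuous_const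
  have kζ : HasCompactSupport fun x => fderiv ℝ ζ x e := by
    have := hζ.2.fderiv (𝕜 := ℝ)
    exact this.comp_left (g := fun L : E3 →L[ℝ] ℝ => L e) (by simp)
  have i1 : Integrable (fun x => (w x * fderiv ℝ ζ x e) * u x) volume :=
    int_mul (hw.continuous.mul cζ) kζ.mul_left hu
  have i2 : Integrable (fun x => (ζ x * fderiv ℝ w x e) * u x) volume :=
    int_mul (hζ.1.continuous.mul cw) hζ.2.mul_right hu
  have i3 : Integrable (fun x => (w x * ζ x) * g x) volume :=
    int_mul (hw.continuous.mul hζ.1.continuous) hζ.2.mul_left hg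
  have e1 : ∫ x, fderiv ℝ (fun x => w x * ζ x) x e • u x =
      (∫ x, (w x * fderiv ℝ ζ x e) * u x) + ∫ x, (ζ x * fderiv ℝ w x e) * u x := by
    rw [← integral_add i1 i2]
    congr 1
    funext x
    rw [hf x, smul_eq_mul]
    ring
  rw [e1] at h1
  have e2 : ∫ x, ζ x • (w x * g x + fderiv ℝ w x e * u x) =
      (∫ x, (w x * ζ x) * g x) + ∫ x, (ζ x * fderiv ℝ w x e) * u x := by
    rw [← integral_add i3 i2]
    congr 1
    funext x
    rw [smul_eq_mul]
    ring
  have e3 : ∫ x, fderiv ℝ ζ x e • (w x * u x) = ∫ x, (w x * fderiv ℝ ζ x e) * u x := by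
    congr 1
    funext x
    rw [smul_eq_mul]
    ring
  rw [e2, e3]
  simp only [smul_eq_mul] at h1
  linarith

end Pool.Agent.HK.StarAux
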