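import Pool.Agent.HK.StarC

/-!
# Star, part D: the term with `lam`
-/

open MeasureTheory Set Filter Topology
open scoped ENNReal NNReal InnerProductSpace

namespace Pool.Agent.HK.StarAux

lemma abs_coord_le (x : E3) (a : Fin 3) : |x a| ≤ ‖x‖ := by
  simpa using EuclideanSpace.norm_eq x ▸ (by
    rw [EuclideanSpace.norm_eq]
    apply Real.abs_le_sqrt
    have : ‖x a‖ ^ 2 ≤ ∑ i, ‖x i‖ ^ 2 :=
      Finset.single_le_sum (f := fun i => ‖x i‖ ^ 2) (fun i _ => by positivity)
        (Finset.mem_univ a)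
    simpa using this : |x a| ≤ ‖x‖)

lemma cs_coord (x : E3) (d : Fin 3 → ℝ) :
    |∑ a, x a * d a| ≤ ‖x‖ * Real.sqrt (∑ a, d a ^ 2) := by
  rw [EuclideanSpace.norm_eq, ← Real.sqrt_mul (by positivity)]
  apply Real.abs_le_sqrt
  simpa using Finset.sum_mul_sq_le_sq_mul_sq Finset.univ (fun a => x a) d

lemma om_add_two (τ : ℕ) {x : E3} (hx : 0 < ‖x‖) :
    om (2 * τ) x = ‖x‖ ^ 2 * om (2 * τ + 2) x := by
  unfold om
  rw [pow_add]
  field_simp

lemma om_sq (τ : ℕ) (x : E3) : om (2 * τ) x = om τ x ^ 2 := by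
  unfold om; rw [← pow_mul]; ring_nf

lemma sob_w {u w : E3 → ℝ} {D : Fin 3 → E3 → ℝ} {s : ℝ} {τ : ℕ} (hs : 0 < s)
    (hw : ContDiff ℝ (⊤ : ℕ∞) w) (h1 : ∀ x, s ≤ ‖x‖ → w x = om (2 * τ) x)
    (h2 : ∀ x a, s ≤ ‖x‖ → fderiv ℝ w x (ax a) = -(2 * τ * om (2 * τ + 2) x * x a))
    (hu : Sob ax u D) (au : AnnSupp 0 s u) (aD : ∀ a, AnnSupp 0 s (D a)) :
    Sob ax (fun x => w x * u x) (fun a x => w x * D a x + fderiv ℝ w x (ax a) * u x) := by
  have cw : ∀ a, Continuous fun x => fderiv ℝ w x (ax a) := fun a =>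
    (hw.continuous_fderiv (by simp)).clm_apply continuous_const
  have b1 : ∀ x, s ≤ ‖x‖ → ‖x‖ ≤ 1 → |w x| ≤ (s⁻¹) ^ (2 * τ) := by
    intro x hx _
    rw [h1 x hx, abs_of_nonneg (om_nonneg _ x)]
    exact om_le _ hs hx
  have b2 : ∀ a x, s ≤ ‖x‖ → ‖x‖ ≤ 1 → |fderiv ℝ w x (ax a)| ≤ 2 * τ * (s⁻¹) ^ (2 * τ + 2) := by
    intro a x hx hx1
    rw [h2 x a hx, abs_neg, abs_mul, abs_of_nonneg (by have := om_nonneg (2 * τ + 2) x; positivity)]
    calc 2 * (τ : ℝ) * om (2 * τ + 2) x * |x a| ≤ 2 * τ * (s⁻¹) ^ (2 * τ + 2) * 1 := by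
          refine mul_le_mul ?_ ((abs_coord_le x a).trans hx1) (abs_nonneg _) (by positivity)
          have := om_le (2 * τ + 2) hs hx
          gcongr
      _ = _ := by ring
  refine ⟨memLp_w hw.continuous.measurable b1 hu.memLp au, fun a => ?_, fun a =>
    weakDeriv_mul hw hu.memLp (hu.memLp_grad a) (hu.weak a)⟩
  exact (memLp_w hw.continuous.measurable b1 (hu.memLp_grad a) (aD a)).add
    (memLp_w (cw a).measurable (b2 a) hu.memLp au)

/-- The bound for `lam ∫ r^{-2τ} u²`. -/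
lemma lam_term (hT : Target_TestH1) {V u g : E3 → ℝ} {D : Fin 3 → E3 → ℝ} {s lam : ℝ} (τ : ℕ)
    (hs : 0 < s) (hV : XStar V) (hu : Sob ax u D) (hg : MemLp g 2 volume)
    (au : AnnSupp 0 s u) (aD : ∀ a, AnnSupp 0 s (D a))
    (hE : ∀ ζ : E3 → ℝ, IsTest ζ → 1 / 2 * (∑ a, ∫ x, fderiv ℝ ζ x (ax a) * D a x)
          + (∫ x, V x * (ζ x * u x)) + lam * (∫ x, ζ x * u x) = ∫ x, ζ x * g x) :
    lam * (∫ x, om (2 * τ) x * u x ^ 2) ≤ (∫ x, om (2 * τ) x * (|u x| * |g x|)) +
      1 / 2 * ((τ : ℝ) ^ 2 * ∫ x, om (2 * τ + 2) x * u x ^ 2) +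
      ∫ x, |V x| * (om (2 * τ) x * u x ^ 2) := by
  obtain ⟨w, hw, h1, h2⟩ := exists_weight τ hs
  have hη := sob_w hs hw h1 h2 hu au aD
  have hg' : MemLp (fun x => g x - lam * u x) 2 volume := hg.sub (hu.memLp.const_mul lam)
  have hE' : ∀ ζ : E3 → ℝ, IsTest ζ →
      1 / 2 * (∑ a, ∫ x, fderiv ℝ ζ x (ax a) * D a x) + (∫ x, V x * (ζ x * u x)) =
        ∫ x, ζ x * (g x - lam * u x) := by
    intro ζ hζ
    have i1 := int_mul hζ.1.continuous hζ.2 hg
    have i2 := int_mul hζ.1.continuous hζ.2 hu.memLp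
    have : ∫ x, ζ x * (g x - lam * u x) = (∫ x, ζ x * g x) - lam * ∫ x, ζ x * u x := by
      rw [← integral_const_mul, ← integral_sub i1 (i2.const_mul lam)]
      congr 1; funext x; ring
    rw [this]
    linarith [hE ζ hζ]
  have key := hT V u D _ hV hu hg' hE' _ _ hη
  -- pointwise identities
  have wu : ∀ x, w x * u x = om (2 * τ) x * u x := by
    intro x
    by_cases hx : ‖x‖ < s ∨ 1 < ‖x‖
    · have : u x = 0 := au x (by simpa using hx)
      simp [this]
    · push Not at hx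
      rw [h1 x hx.1]
  have iu2 : Integrable (fun x => om (2 * τ) x * u x ^ 2) volume := by
    have := (memLp_om hs (2 * τ) hu.memLp au).integrable_mul hu.memLp
    refine this.congr (Eventually.of_forall fun x => ?_)
    simp only [Pi.mul_apply]; ring
  have iu3 : Integrable (fun x => om (2 * τ + 2) x * u x ^ 2) volume := by
    have := (memLp_om hs (2 * τ + 2) hu.memLp au).integrable_mul hu.memLp
    refine this.congr (Eventually.of_forall fun x => ?_)
    simp only [Pi.mul_apply]; ring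
  have iug : Integrable (fun x => om (2 * τ) x * (u x * g x)) volume := by
    have := (memLp_om hs (2 * τ) hu.memLp au).integrable_mul hg
    refine this.congr (Eventually.of_forall fun x => ?_)
    simp only [Pi.mul_apply]; ring
  -- right side
  have r1 : ∫ x, w x * u x * (g x - lam * u x) =
      (∫ x, om (2 * τ) x * (u x * g x)) - lam * ∫ x, om (2 * τ) x * u x ^ 2 := by
    rw [← integral_const_mul, ← integral_sub iug (iu2.const_mul lam)]
    congr 1; funext x; rw [wu x]; ring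
  have r2 : ∫ x, V x * (w x * u x * u x) = ∫ x, V x * (om (2 * τ) x * u x ^ 2) := by
    congr 1; funext x; rw [wu x]; ring
  -- gradient term
  have r3 : -((τ : ℝ) ^ 2 * ∫ x, om (2 * τ + 2) x * u x ^ 2) ≤
      ∑ a, ∫ x, (w x * D a x + fderiv ℝ w x (ax a) * u x) * D a x := by
    have ig : ∀ a, Integrable (fun x => (w x * D a x + fderiv ℝ w x (ax a) * u x) * D a x)
        volume := fun a => (hη.memLp_grad a).integrable_mul (hu.memLp_grad a)
    rw [← integral_finsetSum _ (fun a _ => ig a), ← integral_const_mul, ← integral_neg]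
    refine integral_mono (iu3.const_mul _).neg (integrable_finsetSum _ fun a _ => ig a)
      fun x => ?_
    simp only
    by_cases hx : ‖x‖ < s ∨ 1 < ‖x‖
    · have e1 : u x = 0 := au x (by simpa using hx)
      have e2 : ∀ a, D a x = 0 := fun a => aD a x (by simpa using hx)
      simp [e1, e2]
    · push Not at hx
      have hx0 : 0 < ‖x‖ := lt_of_lt_of_le hs hx.1
      have hsum : ∑ a, (w x * D a x + fderiv ℝ w x (ax a) * u x) * D a x =
          om (2 * τ + 2) x * (‖x‖ ^ 2 * (∑ a, D a x ^ 2) - 2 * τ * u x * ∑ a, x a * D a x) := by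
        rw [h1 x hx.1, om_add_two τ hx0]
        simp only [h2 x _ hx.1]
        rw [Finset.mul_sum, Finset.mul_sum, ← Finset.sum_sub_distrib, Finset.mul_sum]
        refine Finset.sum_congr rfl fun a _ => ?_
        ring
      rw [hsum]
      set S := ∑ a, D a x ^ 2 with hS
      have hS0 : 0 ≤ S := Finset.sum_nonneg fun a _ => sq_nonneg _
      have hcs := cs_coord x (fun a => D a x)
      rw [← hS] at hcs
      set T := ∑ a, x a * D a x
      have hsq : Real.sqrt S ^ 2 = S := Real.sq_sqrt hS0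
      have hu' : u x * T ≤ |u x| * (‖x‖ * Real.sqrt S) := by
        calc u x * T ≤ |u x * T| := le_abs_self _
          _ = |u x| * |T| := abs_mul _ _
          _ ≤ _ := by gcongr
      have hfin : -((τ : ℝ) ^ 2 * u x ^ 2) ≤ ‖x‖ ^ 2 * S - 2 * τ * u x * T := by
        have hτ : (0 : ℝ) ≤ τ := Nat.cast_nonneg τ
        have h3 : 2 * τ * (u x * T) ≤ 2 * τ * (|u x| * (‖x‖ * Real.sqrt S)) := by gcongr
        have h4 : u x ^ 2 = |u x| ^ 2 := (sq_abs _).symm
        nlinarith [sq_nonneg (‖x‖ * Real.sqrt S - τ * |u x|)]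
      have := mul_le_mul_of_nonneg_left hfin (om_nonneg (2 * τ + 2) x)
      linarith
  have r4 : ∫ x, om (2 * τ) x * (u x * g x) ≤ ∫ x, om (2 * τ) x * (|u x| * |g x|) := by
    refine integral_mono iug ?_ fun x => ?_
    · have := iug.norm
      refine this.congr (Eventually.of_forall fun x => ?_)
      simp only [Real.norm_eq_abs, abs_mul, abs_of_nonneg (om_nonneg (2 * τ) x)]
    · simp only
      refine mul_le_mul_of_nonneg_left ?_ (om_nonneg (2 * τ) x)
      rw [← abs_mul]; exact le_abs_self _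
  have r5 : -(∫ x, V x * (om (2 * τ) x * u x ^ 2)) ≤ ∫ x, |V x| * (om (2 * τ) x * u x ^ 2) := by
    calc -(∫ x, V x * (om (2 * τ) x * u x ^ 2)) ≤ ‖∫ x, V x * (om (2 * τ) x * u x ^ 2)‖ :=
          neg_le_abs _
      _ ≤ ∫ x, ‖V x * (om (2 * τ) x * u x ^ 2)‖ := norm_integral_le_integral_norm _
      _ = _ := by
        congr 1; funext x
        rw [norm_mul, Real.norm_eq_abs, Real.norm_of_nonneg
          (mul_nonneg (om_nonneg _ _) (sq_nonneg _))]
  rw [r1, r2] at key
  linarith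

end Pool.Agent.HK.StarAux
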