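import Pool.Agent.HK.Calc

/-!
# Weak solutions may be tested with functions of the Sobolev space
-/

open MeasureTheory Set Filter Topology
open scoped ENNReal NNReal InnerProductSpace

namespace Pool.Agent.HK

namespace TestH1

lemma sob_sub {u u' : E3 → ℝ} {D D' : Fin 3 → E3 → ℝ} (h : Sob ax u D) (h' : Sob ax u' D') :
    Sob ax (fun x => u x - u' x) (fun a x => D a x - D' a x) := by
  refine ⟨h.memLp.sub h'.memLp, fun a => (h.memLp_grad a).sub (h'.memLp_grad a), fun a ζ hζ => ?_⟩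
  simp only [smul_sub]
  rw [integral_sub ((hζ.dir (ax a)).integrable_smul h.memLp)
    ((hζ.dir (ax a)).integrable_smul h'.memLp),
    integral_sub (hζ.integrable_smul (h.memLp_grad a)) (hζ.integrable_smul (h'.memLp_grad a)),
    h.weak a ζ hζ, h'.weak a ζ hζ]
  ring

lemma xstar_meas {V : E3 → ℝ} (hV : XStar V) : AEStronglyMeasurable V volume := by
  obtain ⟨f, g, hf, hg, rfl⟩ := hV
  exact hf.1.add hg.1

lemma lintegral_mul_le {a b : E3 → ℝ} (ha : AEStronglyMeasurable a volume)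
    (hb : AEStronglyMeasurable b volume) :
    ∫⁻ x, ‖a x * b x‖ₑ ≤ eLpNorm a 2 volume * eLpNorm b 2 volume := by
  have h := eLpNorm_smul_le_mul_eLpNorm (p := 2) (q := 2) (r := 1) (μ := (volume : Measure E3))
    (f := b) (φ := a) hb ha (hpqr := ⟨by rw [inv_one]; exact ENNReal.inv_two_add_inv_two⟩)
  rw [eLpNorm_one_eq_lintegral_enorm] at h
  simpa [smul_eq_mul] using h

/-- Cauchy-Schwarz with weight `|V|`. -/
lemma lintegral_weight_le {V a b : E3 → ℝ} (hV : AEStronglyMeasurable V volume)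
    (ha : AEStronglyMeasurable a volume) (hb : AEStronglyMeasurable b volume) :
    ∫⁻ x, ‖V x * (a x * b x)‖ₑ ≤ (∫⁻ x, ‖V x‖ₑ * ‖a x‖ₑ ^ 2) ^ (1 / 2 : ℝ) *
      (∫⁻ x, ‖V x‖ₑ * ‖b x‖ₑ ^ 2) ^ (1 / 2 : ℝ) := by
  have h := ENNReal.lintegral_mul_le_Lp_mul_Lq (μ := (volume : Measure E3)) (p := 2) (q := 2)
    (by constructor <;> norm_num) (f := fun x => ‖V x‖ₑ ^ (1 / 2 : ℝ) * ‖a x‖ₑ)
    (g := fun x => ‖V x‖ₑ ^ (1 / 2 : ℝ) * ‖b x‖ₑ)
    ((hV.enorm.pow_const _).mul ha.enorm) ((hV.enorm.pow_const _).mul hb.enorm)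
  have e1 : ∀ c : E3 → ℝ, ∀ x, (‖V x‖ₑ ^ (1 / 2 : ℝ) * ‖c x‖ₑ) ^ (2 : ℝ) = ‖V x‖ₑ * ‖c x‖ₑ ^ 2 := by
    intro c x
    rw [ENNReal.mul_rpow_of_nonneg _ _ (by norm_num), ← ENNReal.rpow_mul]
    norm_num
  have e2 : ∀ x, ((fun x => ‖V x‖ₑ ^ (1 / 2 : ℝ) * ‖a x‖ₑ) *
      fun x => ‖V x‖ₑ ^ (1 / 2 : ℝ) * ‖b x‖ₑ) x = ‖V x * (a x * b x)‖ₑ := by
    intro x
    have : ‖V x‖ₑ ^ (1 / 2 : ℝ) * ‖V x‖ₑ ^ (1 / 2 : ℝ) = ‖V x‖ₑ := by
      rw [← ENNReal.rpow_add_of_nonneg _ _ (by norm_num) (by norm_num)]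
      norm_num
    simp only [Pi.mul_apply, enorm_mul]
    calc ‖V x‖ₑ ^ (1 / 2 : ℝ) * ‖a x‖ₑ * (‖V x‖ₑ ^ (1 / 2 : ℝ) * ‖b x‖ₑ)
        = (‖V x‖ₑ ^ (1 / 2 : ℝ) * ‖V x‖ₑ ^ (1 / 2 : ℝ)) * (‖a x‖ₑ * ‖b x‖ₑ) := by ring
      _ = _ := by rw [this]
  simp only [e1] at h
  rw [lintegral_congr e2] at h
  exact h

lemma eLpNorm_two_sq (f : E3 → ℝ) : ∫⁻ x, ‖f x‖ₑ ^ 2 = eLpNorm f 2 volume ^ 2 := by
  rw [eLpNorm_eq_lintegral_rpow_enorm_toReal (by norm_num) (by norm_num)]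
  rw [← ENNReal.rpow_natCast, ← ENNReal.rpow_mul]
  norm_num

/-- The weighted norm is controlled by the Sobolev norm. -/
lemma weight_le (hF : Target_FormBound) {V : E3 → ℝ} (hV : XStar V) :
    ∃ C : ℝ≥0, ∀ (u : E3 → ℝ) (D : Fin 3 → E3 → ℝ), Sob ax u D →
      ∫⁻ x, ‖V x‖ₑ * ‖u x‖ₑ ^ 2 ≤ (∑ a, eLpNorm (D a) 2 volume ^ 2) +
        C * eLpNorm u 2 volume ^ 2 := by
  obtain ⟨C, hC⟩ := hF V hV 1 one_pos
  refine ⟨C, fun u D h => ?_⟩
  have := hC u D h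
  simpa only [ENNReal.coe_one, one_mul, eLpNorm_two_sq] using this

lemma weight_lt_top (hF : Target_FormBound) {V : E3 → ℝ} (hV : XStar V) {u : E3 → ℝ}
    {D : Fin 3 → E3 → ℝ} (h : Sob ax u D) : ∫⁻ x, ‖V x‖ₑ * ‖u x‖ₑ ^ 2 < ⊤ := by
  obtain ⟨C, hC⟩ := weight_le hF hV
  refine lt_of_le_of_lt (hC u D h) ?_
  refine ENNReal.add_lt_top.2 ⟨?_, ?_⟩
  · exact ENNReal.sum_lt_top.2 fun a _ => ENNReal.pow_lt_top (h.memLp_grad a).2
  · exact ENNReal.mul_lt_top ENNReal.coe_lt_top (ENNReal.pow_lt_top h.memLp.2)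

lemma integrable_weight (hF : Target_FormBound) {V : E3 → ℝ} (hV : XStar V) {u η : E3 → ℝ}
    {D Dη : Fin 3 → E3 → ℝ} (h : Sob ax u D) (h' : Sob ax η Dη) :
    Integrable (fun x => V x * (η x * u x)) volume := by
  refine ⟨(xstar_meas hV).mul (h'.memLp.1.mul h.memLp.1), ?_⟩
  refine lt_of_le_of_lt (lintegral_weight_le (xstar_meas hV) h'.memLp.1 h.memLp.1) ?_
  exact ENNReal.mul_lt_top
    (ENNReal.rpow_lt_top_of_nonneg (by norm_num) (weight_lt_top hF hV h').ne)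
    (ENNReal.rpow_lt_top_of_nonneg (by norm_num) (weight_lt_top hF hV h).ne)

lemma tendsto_int_mul {f : ℕ → E3 → ℝ} {η g : E3 → ℝ} (hf : ∀ k, MemLp (f k) 2 volume)
    (hη : MemLp η 2 volume) (hg : MemLp g 2 volume)
    (h : Tendsto (fun k => eLpNorm (fun x => η x - f k x) 2 volume) atTop (𝓝 0)) :
    Tendsto (fun k => ∫ x, f k x * g x) atTop (𝓝 (∫ x, η x * g x)) := by
  refine tendsto_integral_of_L1 _ (integrable_mul_of_memLp hη hg).1
    (Eventually.of_forall fun k => integrable_mul_of_memLp (hf k) hg) ?_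
  have hb : Tendsto (fun k => eLpNorm (fun x => η x - f k x) 2 volume * eLpNorm g 2 volume)
      atTop (𝓝 0) := by
    have := ENNReal.Tendsto.mul_const h (Or.inr hg.2.ne) (b := eLpNorm g 2 volume)
    simpa using this
  refine tendsto_of_tendsto_of_tendsto_of_le_of_le tendsto_const_nhds hb (fun _ => zero_le) ?_
  intro k
  have e : ∀ x, ‖f k x * g x - η x * g x‖ₑ = ‖(η x - f k x) * g x‖ₑ := by
    intro x
    rw [← enorm_neg]
    congr 1
    ring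
  simp only [e]
  exact lintegral_mul_le (hη.sub (hf k)).1 hg.1

end TestH1

open TestH1 in
/-- Weak solutions may be tested with functions of the Sobolev space. -/
theorem target_TestH1 (hA : Target_Approx) (hF : Target_FormBound) : Target_TestH1 := by
  intro V u D g hV hu hg heq η Dη hη
  have hpos : ∀ k : ℕ, (0 : ℝ≥0∞) < ((k : ℝ≥0∞) + 1)⁻¹ := fun k =>
    ENNReal.inv_pos.2 (by finiteness)
  choose f hf hf1 hf2 using fun k : ℕ => hA E3 (Fin 3) ax η Dη hη _ (hpos k)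
  have hlim : Tendsto (fun k : ℕ => ((k : ℝ≥0∞) + 1)⁻¹) atTop (𝓝 0) := by
    have := (tendsto_add_atTop_iff_nat 1).2 ENNReal.tendsto_inv_nat_nhds_zero
    simpa using this
  have l1 : Tendsto (fun k => eLpNorm (fun x => η x - f k x) 2 volume) atTop (𝓝 0) :=
    tendsto_of_tendsto_of_tendsto_of_le_of_le tendsto_const_nhds hlim (fun _ => zero_le) hf1
  have l2 : ∀ a, Tendsto (fun k => eLpNorm (fun x => Dη a x - fderiv ℝ (f k) x (ax a)) 2 volume)
      atTop (𝓝 0) := fun a =>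
    tendsto_of_tendsto_of_tendsto_of_le_of_le tendsto_const_nhds hlim (fun _ => zero_le)
      (fun k => hf2 k a)
  -- the kinetic terms
  have t1 : Tendsto (fun k => 1 / 2 * (∑ a, ∫ x, fderiv ℝ (f k) x (ax a) * D a x)) atTop
      (𝓝 (1 / 2 * (∑ a, ∫ x, Dη a x * D a x))) := by
    refine Tendsto.const_mul _ (tendsto_finsetSum _ fun a _ => ?_)
    exact tendsto_int_mul (fun k => ((hf k).dir (ax a)).memLp 2) (hη.memLp_grad a)
      (hu.memLp_grad a) (l2 a)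
  have t3 : Tendsto (fun k => ∫ x, f k x * g x) atTop (𝓝 (∫ x, η x * g x)) :=
    tendsto_int_mul (fun k => (hf k).memLp 2) hη.memLp hg l1
  -- the potential term
  have t2 : Tendsto (fun k => ∫ x, V x * (f k x * u x)) atTop (𝓝 (∫ x, V x * (η x * u x))) := by
    refine tendsto_integral_of_L1 _ (integrable_weight hF hV hu hη).1
      (Eventually.of_forall fun k => integrable_weight hF hV hu ((hf k).sob ax)) ?_
    obtain ⟨C, hC⟩ := weight_le hF hV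
    have hb : Tendsto (fun k => ((∑ a, eLpNorm (fun x => Dη a x - fderiv ℝ (f k) x (ax a)) 2
        volume ^ 2) + C * eLpNorm (fun x => η x - f k x) 2 volume ^ 2) ^ (1 / 2 : ℝ) *
        (∫⁻ x, ‖V x‖ₑ * ‖u x‖ₑ ^ 2) ^ (1 / 2 : ℝ)) atTop (𝓝 0) := by
      have c1 : Tendsto (fun k => ∑ a, eLpNorm (fun x => Dη a x - fderiv ℝ (f k) x (ax a)) 2
          volume ^ 2) atTop (𝓝 (∑ _a : Fin 3, 0 ^ 2)) :=
        tendsto_finsetSum _ fun a _ => ((ENNReal.continuous_pow 2).tendsto 0).comp (l2 a)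
      have c2 : Tendsto (fun k => (C : ℝ≥0∞) * eLpNorm (fun x => η x - f k x) 2 volume ^ 2)
          atTop (𝓝 (C * 0 ^ 2)) :=
        ENNReal.Tendsto.const_mul (((ENNReal.continuous_pow 2).tendsto 0).comp l1)
          (Or.inr ENNReal.coe_ne_top)
      have c3 := (ENNReal.continuous_rpow_const (y := (1 / 2 : ℝ))).tendsto _ |>.comp (c1.add c2)
      have c4 := ENNReal.Tendsto.mul_const (b := (∫⁻ x, ‖V x‖ₑ * ‖u x‖ₑ ^ 2) ^ (1 / 2 : ℝ)) c3
        (Or.inr (ENNReal.rpow_lt_top_of_nonneg (by norm_num) (weight_lt_top hF hV hu).ne).ne)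
      simpa [Function.comp_def] using c4
    refine tendsto_of_tendsto_of_tendsto_of_le_of_le tendsto_const_nhds hb (fun _ => zero_le) ?_
    intro k
    have e : ∀ x, ‖V x * (f k x * u x) - V x * (η x * u x)‖ₑ =
        ‖V x * ((η x - f k x) * u x)‖ₑ := by
      intro x
      rw [← enorm_neg]
      congr 1
      ring
    simp only [e]
    refine (lintegral_weight_le (xstar_meas hV) (hη.memLp.sub ((hf k).memLp 2)).1
      hu.memLp.1).trans ?_
    gcongr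
    exact hC _ _ (sob_sub hη ((hf k).sob ax))
  have := t1.add t2
  exact tendsto_nhds_unique (this.congr fun k => heq (f k) (hf k)) t3

end Pool.Agent.HK
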