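import Pool.Agent.HK.UCPLim

/-!
# Abstract unique continuation
-/

open MeasureTheory Set Filter Topology
open scoped ENNReal NNReal InnerProductSpace

namespace Pool.Agent.HK

namespace UCP

set_option linter.unusedSectionVars false

variable {H : Type} [NormedAddCommGroup H] [InnerProductSpace ℝ H] [CompleteSpace H]
  [SecondCountableTopology H] {d : UCData H} {x₀ : E3} {k : ℕ} {C ρ s : ℝ}

lemma absorb (hs : 0 < s) (hsρ : s ≤ ρ) (hC : 0 ≤ C) (hQ : 16 * C * d.C₁ ^ 2 * ρ ^ 2 ≤ 1) :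
    4 * C * (∫ x, W x₀ (2 * k) x * (Cut.χ x₀ ρ s x ^ 2 * ‖d.G x‖ ^ 2)) ≤
      ∫ x, W x₀ (2 * k + 2) x * (Cut.χ x₀ ρ s x ^ 2 * d.α x ^ 2) := by
  rw [← integral_const_mul]
  refine integral_mono_ae ((int_Wχ hs hsρ (int_sq d.memG) _).const_mul _)
    (int_Wχ hs hsρ d.memα.integrable_sq _) ?_
  filter_upwards [d.G_le] with x hx
  have hρ0 : 0 < ρ := hs.trans_le hsρ
  by_cases h0 : Cut.χ x₀ ρ s x = 0
  · rw [h0]; simp
  have h1 : s < ‖x - x₀‖ := by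
    by_contra h; exact h0 (Cut.χ_zero_inner hs hsρ (le_of_not_gt h))
  have h2 : ‖x - x₀‖ < 2 * ρ := by
    by_contra h; exact h0 (Cut.χ_zero_outer hs hsρ (le_of_not_gt h))
  have hr : 0 < ‖x - x₀‖ := hs.trans h1
  have h3 : W x₀ (2 * k) x = ‖x - x₀‖ ^ 2 * W x₀ (2 * k + 2) x := by
    unfold W
    rw [pow_add]
    field_simp
  have hα := d.α_nonneg x
  have hG : ‖d.G x‖ ^ 2 ≤ d.C₁ ^ 2 * d.α x ^ 2 := by
    rw [← mul_pow]; exact pow_le_pow_left₀ (norm_nonneg _) hx 2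
  have h4 : ‖x - x₀‖ ^ 2 ≤ 4 * ρ ^ 2 := by nlinarith
  have hW := W_nonneg x₀ (2 * k + 2) x
  have hχ := sq_nonneg (Cut.χ x₀ ρ s x)
  have hα2 := sq_nonneg (d.α x)
  have hC1 := sq_nonneg d.C₁
  rw [h3]
  calc 4 * C * (‖x - x₀‖ ^ 2 * W x₀ (2 * k + 2) x * (Cut.χ x₀ ρ s x ^ 2 * ‖d.G x‖ ^ 2))
      ≤ 4 * C * (4 * ρ ^ 2 * W x₀ (2 * k + 2) x * (Cut.χ x₀ ρ s x ^ 2 *
        (d.C₁ ^ 2 * d.α x ^ 2))) := by gcongr
    _ = (16 * C * d.C₁ ^ 2 * ρ ^ 2) * (W x₀ (2 * k + 2) x * (Cut.χ x₀ ρ s x ^ 2 *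
        d.α x ^ 2)) := by ring
    _ ≤ 1 * (W x₀ (2 * k + 2) x * (Cut.χ x₀ ρ s x ^ 2 * d.α x ^ 2)) := by gcongr
    _ = _ := one_mul _

lemma level5 (hC : 0 ≤ C) (hcarl : CarlAt H x₀ k C d.v) (hs : 0 < s) (hsρ : s ≤ ρ)
    (hρ : 2 * ρ ≤ 1) (hQ : 16 * C * d.C₁ ^ 2 * ρ ^ 2 ≤ 1) :
    ((k : ℝ) + 1) ^ 2 * (∫ x, W x₀ (2 * k + 4) x * (Cut.χ x₀ ρ s x ^ 2 * ‖d.Ψ x‖ ^ 2)) ≤
    4 * C * (3 * (∑ a, ∫ x, W x₀ (2 * k) x *
      (fderiv ℝ (Cut.χ x₀ ρ s) x (ax a) ^ 2 * ‖d.D a x‖ ^ 2)) +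
      ∫ x, W x₀ (2 * k) x * ((1 / 2 * lap (Cut.χ x₀ ρ s) x) ^ 2 * ‖d.Ψ x‖ ^ 2)) := by
  have h := level4 (d := d) hC hcarl hs hsρ hρ
  have h2 := absorb (d := d) (x₀ := x₀) (k := k) hs hsρ hC hQ
  have e : ∫ x, W x₀ (2 * k) x * T d (Cut.χ x₀ ρ s) x =
      (∫ x, W x₀ (2 * k) x * (Cut.χ x₀ ρ s x ^ 2 * ‖d.G x‖ ^ 2)) +
      3 * (∑ a, ∫ x, W x₀ (2 * k) x *
        (fderiv ℝ (Cut.χ x₀ ρ s) x (ax a) ^ 2 * ‖d.D a x‖ ^ 2)) +
      ∫ x, W x₀ (2 * k) x * ((1 / 2 * lap (Cut.χ x₀ ρ s) x) ^ 2 * ‖d.Ψ x‖ ^ 2) := by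
    simp only [W_T_eq]
    have i1 := int_Wχ (x₀ := x₀) hs hsρ (int_sq d.memG) (2 * k)
    have i2 : Integrable (fun x => 3 * ∑ a, W x₀ (2 * k) x *
        (fderiv ℝ (Cut.χ x₀ ρ s) x (ax a) ^ 2 * ‖d.D a x‖ ^ 2)) volume :=
      (integrable_finsetSum Finset.univ fun a _ =>
        int_Wd (d := d) (x₀ := x₀) (k := k) hs hsρ a).const_mul 3
    have i3 := int_Wl (d := d) (x₀ := x₀) (k := k) hs hsρ
    have i12 : Integrable (fun x => W x₀ (2 * k) x * (Cut.χ x₀ ρ s x ^ 2 * ‖d.G x‖ ^ 2) +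
        3 * ∑ a, W x₀ (2 * k) x *
        (fderiv ℝ (Cut.χ x₀ ρ s) x (ax a) ^ 2 * ‖d.D a x‖ ^ 2)) volume := i1.add i2
    rw [integral_add i12 i3, integral_add i1 i2, integral_const_mul,
      integral_finsetSum _ fun a _ => int_Wd (d := d) (x₀ := x₀) (k := k) hs hsρ a]
  rw [e] at h
  linarith

/-- the lower bound for the left side -/
lemma lower (hs : 0 < s) (hsρ : s ≤ ρ) :
    (2 / ρ) ^ (2 * k + 4) * ((∫ x in Metric.ball x₀ (ρ / 2), ‖d.Ψ x‖ ^ 2) -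
      ∫ x in Metric.ball x₀ (2 * s), ‖d.Ψ x‖ ^ 2) ≤
    ∫ x, W x₀ (2 * k + 4) x * (Cut.χ x₀ ρ s x ^ 2 * ‖d.Ψ x‖ ^ 2) := by
  have hρ0 : 0 < ρ := hs.trans_le hsρ
  have iN := int_sq d.sob.memLp
  rw [← integral_indicator Metric.isOpen_ball.measurableSet,
    ← integral_indicator Metric.isOpen_ball.measurableSet,
    ← integral_sub (iN.indicator Metric.isOpen_ball.measurableSet)
      (iN.indicator Metric.isOpen_ball.measurableSet), ← integral_const_mul]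
  refine integral_mono (((iN.indicator Metric.isOpen_ball.measurableSet).sub
      (iN.indicator Metric.isOpen_ball.measurableSet)).const_mul _) (int_Wχ hs hsρ iN _) ?_
  intro x
  simp only
  have hN : 0 ≤ ‖d.Ψ x‖ ^ 2 := sq_nonneg _
  have hR : 0 ≤ W x₀ (2 * k + 4) x * (Cut.χ x₀ ρ s x ^ 2 * ‖d.Ψ x‖ ^ 2) :=
    mul_nonneg (W_nonneg _ _ _) (by positivity)
  by_cases h2 : x ∈ Metric.ball x₀ (2 * s)
  · rw [indicator_of_mem h2]
    refine le_trans ?_ hR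
    apply mul_nonpos_of_nonneg_of_nonpos (by positivity)
    rw [sub_nonpos]
    exact indicator_le_self' (fun _ _ => hN) x
  · rw [indicator_of_notMem h2, sub_zero]
    by_cases h1 : x ∈ Metric.ball x₀ (ρ / 2)
    · rw [indicator_of_mem h1]
      rw [Metric.mem_ball, dist_eq_norm] at h1 h2
      push Not at h2
      have hr : 0 < ‖x - x₀‖ := by linarith
      rw [Cut.χ_one hs hρ0 h2 (by linarith), one_pow, one_mul]
      have : (2 / ρ) ^ (2 * k + 4) ≤ W x₀ (2 * k + 4) x := by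
        unfold W
        apply pow_le_pow_left₀ (by positivity)
        rw [← inv_div]
        exact inv_anti₀ hr h1.le
      gcongr
    · rw [indicator_of_notMem h1, mul_zero]; exact hR

lemma upper_d (hs : 0 < s) (hsρ : s ≤ ρ) {M : ℝ} (hM : ∀ a x, |Cut.ψ1 a x| ≤ M) (a : Fin 3) :
    ∫ x, W x₀ (2 * k) x * (fderiv ℝ (Cut.χ x₀ ρ s) x (ax a) ^ 2 * ‖d.D a x‖ ^ 2) ≤
    2 * M ^ 2 * (ρ⁻¹ ^ (2 * k + 2) * (∫ x, ‖d.D a x‖ ^ 2) +
      s⁻¹ ^ (2 * k + 2) * ∫ x in Metric.ball x₀ (3 * s), ‖d.D a x‖ ^ 2) := by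
  have hρ0 : 0 < ρ := hs.trans_le hsρ
  have iN := int_sq (d.sob.memLp_grad a)
  have hb := (Metric.isOpen_ball (x := x₀) (ε := 3 * s)).measurableSet
  rw [← integral_indicator hb, ← integral_const_mul, ← integral_const_mul,
    ← integral_add (iN.const_mul _) ((iN.indicator hb).const_mul _), ← integral_const_mul]
  refine integral_mono (int_Wd hs hsρ a)
    (((iN.const_mul _).add ((iN.indicator hb).const_mul _)).const_mul _) ?_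
  intro x
  simp only
  have h := dχ_weight (x₀ := x₀) hs hρ0 hM k a x
  have hN : 0 ≤ ‖d.D a x‖ ^ 2 := sq_nonneg _
  have h1 := mul_le_mul_of_nonneg_right h hN
  have e : (Metric.ball x₀ (3 * s)).indicator (fun _ => s⁻¹ ^ (2 * k + 2)) x * ‖d.D a x‖ ^ 2 =
      s⁻¹ ^ (2 * k + 2) * (Metric.ball x₀ (3 * s)).indicator (fun x => ‖d.D a x‖ ^ 2) x := by
    by_cases h : x ∈ Metric.ball x₀ (3 * s)
    · rw [indicator_of_mem h, indicator_of_mem h]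
    · rw [indicator_of_notMem h, indicator_of_notMem h]; simp
  calc _ = W x₀ (2 * k) x * fderiv ℝ (Cut.χ x₀ ρ s) x (ax a) ^ 2 * ‖d.D a x‖ ^ 2 := by ring
    _ ≤ _ := h1
    _ = 2 * M ^ 2 * (ρ⁻¹ ^ (2 * k + 2) * ‖d.D a x‖ ^ 2 +
        (Metric.ball x₀ (3 * s)).indicator (fun _ => s⁻¹ ^ (2 * k + 2)) x * ‖d.D a x‖ ^ 2) := by
      ring
    _ = _ := by rw [e]

lemma upper_l (hs : 0 < s) (hsρ : s ≤ ρ) {M : ℝ} (hM : ∀ a x, |Cut.ψ2 a x| ≤ M) :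
    ∫ x, W x₀ (2 * k) x * ((1 / 2 * lap (Cut.χ x₀ ρ s) x) ^ 2 * ‖d.Ψ x‖ ^ 2) ≤
    5 * M ^ 2 * (ρ⁻¹ ^ (2 * k + 4) * (∫ x, ‖d.Ψ x‖ ^ 2) +
      s⁻¹ ^ (2 * k + 4) * ∫ x in Metric.ball x₀ (3 * s), ‖d.Ψ x‖ ^ 2) := by
  have hρ0 : 0 < ρ := hs.trans_le hsρ
  have iN := int_sq d.sob.memLp
  have hb := (Metric.isOpen_ball (x := x₀) (ε := 3 * s)).measurableSet
  rw [← integral_indicator hb, ← integral_const_mul, ← integral_const_mul,
    ← integral_add (iN.const_mul _) ((iN.indicator hb).const_mul _), ← integral_const_mul]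
  refine integral_mono (int_Wl hs hsρ)
    (((iN.const_mul _).add ((iN.indicator hb).const_mul _)).const_mul _) ?_
  intro x
  simp only
  have h := lapχ_weight (x₀ := x₀) hs hρ0 hM k x
  have hN : 0 ≤ ‖d.Ψ x‖ ^ 2 := sq_nonneg _
  have h1 := mul_le_mul_of_nonneg_right h hN
  have e : (Metric.ball x₀ (3 * s)).indicator (fun _ => s⁻¹ ^ (2 * k + 4)) x * ‖d.Ψ x‖ ^ 2 =
      s⁻¹ ^ (2 * k + 4) * (Metric.ball x₀ (3 * s)).indicator (fun x => ‖d.Ψ x‖ ^ 2) x := by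
    by_cases h : x ∈ Metric.ball x₀ (3 * s)
    · rw [indicator_of_mem h, indicator_of_mem h]
    · rw [indicator_of_notMem h, indicator_of_notMem h]; simp
  calc _ = W x₀ (2 * k) x * (1 / 2 * lap (Cut.χ x₀ ρ s) x) ^ 2 * ‖d.Ψ x‖ ^ 2 := by ring
    _ ≤ _ := h1
    _ = 5 * M ^ 2 * (ρ⁻¹ ^ (2 * k + 4) * ‖d.Ψ x‖ ^ 2 +
        (Metric.ball x₀ (3 * s)).indicator (fun _ => s⁻¹ ^ (2 * k + 4)) x * ‖d.Ψ x‖ ^ 2) := by
      ring
    _ = _ := by rw [e]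

/-- Infinite order vanishing at `x₀`. -/
def Flat (d : UCData H) (x₀ : E3) : Prop :=
  ∀ M : ℕ, ∃ C : ℝ, ∀ r : ℝ, 0 < r → r ≤ 1 →
      ∫ x in Metric.ball x₀ r, ‖d.Ψ x‖ ^ 2 ≤ C * r ^ M

/-- local vanishing for one `k`: quantitative form -/
lemma local_k (hC : 0 ≤ C) (hcarl : CarlAt H x₀ k C d.v) (hρ0 : 0 < ρ)
    (hρ : 2 * ρ ≤ 1) (hQ : 16 * C * d.C₁ ^ 2 * ρ ^ 2 ≤ 1) {Cc : ℝ}
    (hcacc : ∀ (x₀ : E3) (r : ℝ), 0 < r → r ≤ 1 →
      ∫ x in Metric.ball x₀ r, ((∑ a, ‖d.D a x‖ ^ 2) + d.α x ^ 2) ≤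
        Cc / r ^ 2 * ∫ x in Metric.ball x₀ (2 * r), ‖d.Ψ x‖ ^ 2)
    (hflat : Flat d x₀) {M : ℝ} (hM1 : ∀ a x, |Cut.ψ1 a x| ≤ M)
    (hM2 : ∀ a x, |Cut.ψ2 a x| ≤ M) :
    ((k : ℝ) + 1) ^ 2 * ∫ x in Metric.ball x₀ (ρ / 2), ‖d.Ψ x‖ ^ 2 ≤
      24 * C * M ^ 2 * ((∑ a, ∫ x, ‖d.D a x‖ ^ 2) + ∫ x, ‖d.Ψ x‖ ^ 2) := by
  obtain ⟨CM, hCM⟩ := hflat (2 * k + 5)
  have hN0 : ∀ r, 0 ≤ ∫ x in Metric.ball x₀ r, ‖d.Ψ x‖ ^ 2 := fun r =>
    integral_nonneg fun _ => sq_nonneg _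
  -- make constants nonnegative
  set Cc' := |Cc| with hCc'
  have hcacc' : ∀ r : ℝ, 0 < r → r ≤ 1 →
      ∫ x in Metric.ball x₀ r, ((∑ a, ‖d.D a x‖ ^ 2) + d.α x ^ 2) ≤
        Cc' / r ^ 2 * ∫ x in Metric.ball x₀ (2 * r), ‖d.Ψ x‖ ^ 2 := by
    intro r hr hr1
    refine (hcacc x₀ r hr hr1).trans ?_
    apply mul_le_mul_of_nonneg_right _ (hN0 _)
    gcongr
    exact le_abs_self _
  set F := ∫ x in Metric.ball x₀ (ρ / 2), ‖d.Ψ x‖ ^ 2 with hF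
  set Et := ∑ a, ∫ x, ‖d.D a x‖ ^ 2 with hEt
  set Nt := ∫ x, ‖d.Ψ x‖ ^ 2 with hNt
  have hEt0 : 0 ≤ Et := Finset.sum_nonneg fun a _ => integral_nonneg fun _ => sq_nonneg _
  have hNt0 : 0 ≤ Nt := integral_nonneg fun _ => sq_nonneg _
  -- the inequality for each small `s`
  have key : ∀ s : ℝ, 0 < s → s ≤ ρ → 6 * s ≤ 1 →
      ((k : ℝ) + 1) ^ 2 * ((2 / ρ) ^ (2 * k + 4) * (F - CM * (2 * s) ^ (2 * k + 5))) ≤
      24 * C * M ^ 2 * ρ⁻¹ ^ (2 * k + 4) * (Et + Nt) +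
      24 * C * M ^ 2 * ((Cc' / 9 * CM * 6 ^ (2 * k + 5) + CM * 3 ^ (2 * k + 5)) * s) := by
    intro s hs hsρ hs6
    have h5 := level5 (d := d) hC hcarl hs hsρ hρ hQ
    have hl := lower (d := d) (x₀ := x₀) (k := k) hs hsρ
    have hFs : F - CM * (2 * s) ^ (2 * k + 5) ≤
        F - ∫ x in Metric.ball x₀ (2 * s), ‖d.Ψ x‖ ^ 2 := by
      have := hCM (2 * s) (by linarith) (by linarith)
      linarith
    have hleft : ((k : ℝ) + 1) ^ 2 * ((2 / ρ) ^ (2 * k + 4) *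
        (F - CM * (2 * s) ^ (2 * k + 5))) ≤
        ((k : ℝ) + 1) ^ 2 * ∫ x, W x₀ (2 * k + 4) x * (Cut.χ x₀ ρ s x ^ 2 * ‖d.Ψ x‖ ^ 2) := by
      apply mul_le_mul_of_nonneg_left _ (by positivity)
      refine le_trans ?_ hl
      apply mul_le_mul_of_nonneg_left hFs (by positivity)
    refine (hleft.trans h5).trans ?_
    -- upper bounds
    have hud : ∑ a, ∫ x, W x₀ (2 * k) x *
        (fderiv ℝ (Cut.χ x₀ ρ s) x (ax a) ^ 2 * ‖d.D a x‖ ^ 2) ≤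
        2 * M ^ 2 * (ρ⁻¹ ^ (2 * k + 2) * Et + s⁻¹ ^ (2 * k + 2) *
          ∑ a, ∫ x in Metric.ball x₀ (3 * s), ‖d.D a x‖ ^ 2) := by
      rw [hEt, Finset.mul_sum, Finset.mul_sum, ← Finset.sum_add_distrib, Finset.mul_sum]
      exact Finset.sum_le_sum fun a _ => upper_d hs hsρ hM1 a
    have hul := upper_l (d := d) (x₀ := x₀) (k := k) hs hsρ hM2
    -- Caccioppoli
    have hEs : ∑ a, ∫ x in Metric.ball x₀ (3 * s), ‖d.D a x‖ ^ 2 ≤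
        Cc' / (3 * s) ^ 2 * (CM * (6 * s) ^ (2 * k + 5)) := by
      have h1 := hcacc' (3 * s) (by linarith) (by linarith)
      have h2 := hCM (2 * (3 * s)) (by linarith) (by linarith)
      have h3 : (2 * (3 * s)) = 6 * s := by ring
      rw [h3] at h1 h2
      have h4 : ∑ a, ∫ x in Metric.ball x₀ (3 * s), ‖d.D a x‖ ^ 2 ≤
          ∫ x in Metric.ball x₀ (3 * s), ((∑ a, ‖d.D a x‖ ^ 2) + d.α x ^ 2) := by
        rw [← integral_finsetSum _ fun a _ => (int_sq (d.sob.memLp_grad a)).integrableOn]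
        refine integral_mono (integrable_finsetSum _ fun a _ =>
          (int_sq (d.sob.memLp_grad a)).integrableOn)
          ((integrable_finsetSum _ fun a _ => (int_sq (d.sob.memLp_grad a)).integrableOn).add
            d.memα.integrable_sq.integrableOn) fun x => ?_
        simp only
        linarith [sq_nonneg (d.α x)]
      refine (h4.trans h1).trans ?_
      apply mul_le_mul_of_nonneg_left h2
      positivity
    have hNs := hCM (3 * s) (by linarith) (by linarith)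
    have hρi : ρ⁻¹ ^ (2 * k + 2) ≤ ρ⁻¹ ^ (2 * k + 4) := by
      apply pow_le_pow_right₀ _ (by omega)
      rw [one_le_inv₀ hρ0]; linarith
    have e1 : s⁻¹ ^ (2 * k + 2) * (Cc' / (3 * s) ^ 2 * (CM * (6 * s) ^ (2 * k + 5))) =
        Cc' / 9 * CM * 6 ^ (2 * k + 5) * s := by
      have : (6 * s) ^ (2 * k + 5) = 6 ^ (2 * k + 5) * (s ^ (2 * k + 2) * s ^ 2 * s) := by
        rw [mul_pow]; ring
      rw [this, inv_pow]
      field_simp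
      ring
    have e2 : s⁻¹ ^ (2 * k + 4) * (CM * (3 * s) ^ (2 * k + 5)) = CM * 3 ^ (2 * k + 5) * s := by
      have : (3 * s) ^ (2 * k + 5) = 3 ^ (2 * k + 5) * (s ^ (2 * k + 4) * s) := by
        rw [mul_pow]; ring
      rw [this, inv_pow]
      field_simp
    have hM0 : 0 ≤ M ^ 2 := sq_nonneg _
    have hA : ∑ a, ∫ x, W x₀ (2 * k) x *
        (fderiv ℝ (Cut.χ x₀ ρ s) x (ax a) ^ 2 * ‖d.D a x‖ ^ 2) ≤
        2 * M ^ 2 * (ρ⁻¹ ^ (2 * k + 4) * Et + Cc' / 9 * CM * 6 ^ (2 * k + 5) * s) := by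
      refine hud.trans ?_
      rw [← e1]
      gcongr
    have hB : ∫ x, W x₀ (2 * k) x * ((1 / 2 * lap (Cut.χ x₀ ρ s) x) ^ 2 * ‖d.Ψ x‖ ^ 2) ≤
        6 * M ^ 2 * (ρ⁻¹ ^ (2 * k + 4) * Nt + CM * 3 ^ (2 * k + 5) * s) := by
      refine hul.trans ?_
      rw [← e2]
      have hnn : 0 ≤ ρ⁻¹ ^ (2 * k + 4) * Nt + s⁻¹ ^ (2 * k + 4) * (CM * (3 * s) ^ (2 * k + 5)) := by
        have := (hN0 (3 * s)).trans hNs
        positivity
      calc 5 * M ^ 2 * (ρ⁻¹ ^ (2 * k + 4) * (∫ x, ‖d.Ψ x‖ ^ 2) +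
            s⁻¹ ^ (2 * k + 4) * ∫ x in Metric.ball x₀ (3 * s), ‖d.Ψ x‖ ^ 2)
          ≤ 5 * M ^ 2 * (ρ⁻¹ ^ (2 * k + 4) * Nt +
            s⁻¹ ^ (2 * k + 4) * (CM * (3 * s) ^ (2 * k + 5))) := by gcongr
        _ ≤ _ := by nlinarith [mul_nonneg hM0 hnn]
    have h4C : 0 ≤ 4 * C := by linarith
    calc _ ≤ 4 * C * (3 * (2 * M ^ 2 * (ρ⁻¹ ^ (2 * k + 4) * Et +
          Cc' / 9 * CM * 6 ^ (2 * k + 5) * s)) +
          6 * M ^ 2 * (ρ⁻¹ ^ (2 * k + 4) * Nt + CM * 3 ^ (2 * k + 5) * s)) := by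
            apply mul_le_mul_of_nonneg_left _ h4C
            linarith
      _ = _ := by ring
  -- limit `s → 0`
  have hlim : ((k : ℝ) + 1) ^ 2 * ((2 / ρ) ^ (2 * k + 4) * F) ≤
      24 * C * M ^ 2 * ρ⁻¹ ^ (2 * k + 4) * (Et + Nt) := by
    have t1 : Tendsto (fun s : ℝ => ((k : ℝ) + 1) ^ 2 * ((2 / ρ) ^ (2 * k + 4) *
        (F - CM * (2 * s) ^ (2 * k + 5)))) (𝓝[>] 0)
        (𝓝 (((k : ℝ) + 1) ^ 2 * ((2 / ρ) ^ (2 * k + 4) *
        (F - CM * (2 * 0) ^ (2 * k + 5))))) := by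
      apply (Continuous.tendsto _ 0).mono_left nhdsWithin_le_nhds
      fun_prop
    have t2 : Tendsto (fun s : ℝ => 24 * C * M ^ 2 * ρ⁻¹ ^ (2 * k + 4) * (Et + Nt) +
      24 * C * M ^ 2 * ((Cc' / 9 * CM * 6 ^ (2 * k + 5) + CM * 3 ^ (2 * k + 5)) * s)) (𝓝[>] 0)
        (𝓝 (24 * C * M ^ 2 * ρ⁻¹ ^ (2 * k + 4) * (Et + Nt) +
      24 * C * M ^ 2 * ((Cc' / 9 * CM * 6 ^ (2 * k + 5) + CM * 3 ^ (2 * k + 5)) * 0))) := by
      apply (Continuous.tendsto _ 0).mono_left nhdsWithin_le_nhds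
      fun_prop
    have h := le_of_tendsto_of_tendsto t1 t2 (by
      have hm : Ioo (0 : ℝ) (min ρ (1 / 6)) ∈ 𝓝[>] (0 : ℝ) :=
        Ioo_mem_nhdsGT (lt_min hρ0 (by norm_num))
      filter_upwards [hm] with s hs
      exact key s hs.1 (hs.2.le.trans (min_le_left _ _))
        (by have := hs.2.le.trans (min_le_right ρ (1 / 6)); linarith))
    simpa using h
  have hρk : 0 < ρ⁻¹ ^ (2 * k + 4) := by positivity
  have e3 : (2 / ρ) ^ (2 * k + 4) = 2 ^ (2 * k + 4) * ρ⁻¹ ^ (2 * k + 4) := by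
    rw [div_eq_mul_inv, mul_pow]
  rw [e3] at hlim
  have h1 : ((k : ℝ) + 1) ^ 2 * (2 ^ (2 * k + 4) * F) ≤ 24 * C * M ^ 2 * (Et + Nt) := by
    have : (((k : ℝ) + 1) ^ 2 * (2 ^ (2 * k + 4) * F)) * ρ⁻¹ ^ (2 * k + 4) ≤
        (24 * C * M ^ 2 * (Et + Nt)) * ρ⁻¹ ^ (2 * k + 4) := by
      calc _ = ((k : ℝ) + 1) ^ 2 * (2 ^ (2 * k + 4) * ρ⁻¹ ^ (2 * k + 4) * F) := by ring
        _ ≤ _ := hlim
        _ = _ := by ring
    exact le_of_mul_le_mul_right this hρk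
  refine le_trans ?_ h1
  apply mul_le_mul_of_nonneg_left _ (by positivity)
  have : (1 : ℝ) ≤ 2 ^ (2 * k + 4) := one_le_pow₀ (by norm_num)
  nlinarith [hN0 (ρ / 2)]

/-- local vanishing -/
lemma local_vanish (hC : 0 ≤ C) {k₀ : ℕ} (hcarl : ∀ k, k₀ ≤ k → CarlAt H x₀ k C d.v)
    (hρ0 : 0 < ρ) (hρ : 2 * ρ ≤ 1) (hQ : 16 * C * d.C₁ ^ 2 * ρ ^ 2 ≤ 1) {Cc : ℝ}
    (hcacc : ∀ (x₀ : E3) (r : ℝ), 0 < r → r ≤ 1 →
      ∫ x in Metric.ball x₀ r, ((∑ a, ‖d.D a x‖ ^ 2) + d.α x ^ 2) ≤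
        Cc / r ^ 2 * ∫ x in Metric.ball x₀ (2 * r), ‖d.Ψ x‖ ^ 2)
    (hflat : Flat d x₀) : ∀ᵐ x, x ∈ Metric.ball x₀ (ρ / 2) → d.Ψ x = 0 := by
  obtain ⟨M, hM0, hM1, hM2⟩ := Cut.exists_M
  set F := ∫ x in Metric.ball x₀ (ρ / 2), ‖d.Ψ x‖ ^ 2 with hF
  set B := 24 * C * M ^ 2 * ((∑ a, ∫ x, ‖d.D a x‖ ^ 2) + ∫ x, ‖d.Ψ x‖ ^ 2) with hB
  have hF0 : 0 ≤ F := integral_nonneg fun _ => sq_nonneg _
  have hk : ∀ k, k₀ ≤ k → ((k : ℝ) + 1) ^ 2 * F ≤ B := fun k hk =>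
    local_k hC (hcarl k hk) hρ0 hρ hQ hcacc hflat hM1 hM2
  have hFz : F = 0 := by
    by_contra hne
    have hFpos : 0 < F := lt_of_le_of_ne hF0 (Ne.symm hne)
    obtain ⟨n, hn⟩ := exists_nat_gt (B / F)
    have h1 := hk (max n k₀) (le_max_right _ _)
    have h2 : (n : ℝ) ≤ ((max n k₀ : ℕ) : ℝ) := by exact_mod_cast le_max_left _ _
    have h3 : B < n * F := by rwa [div_lt_iff₀ hFpos] at hn
    have h4 : ((max n k₀ : ℕ) : ℝ) ≤ (((max n k₀ : ℕ) : ℝ) + 1) ^ 2 := by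
      have : (0 : ℝ) ≤ ((max n k₀ : ℕ) : ℝ) := Nat.cast_nonneg _
      nlinarith
    have h5 : (n : ℝ) * F ≤ (((max n k₀ : ℕ) : ℝ) + 1) ^ 2 * F :=
      mul_le_mul_of_nonneg_right (h2.trans h4) hF0
    linarith
  have h := (setIntegral_eq_zero_iff_of_nonneg_ae (Eventually.of_forall fun x => by positivity)
    (int_sq d.sob.memLp).integrableOn).1 hFz
  have h' := (ae_restrict_iff' Metric.isOpen_ball.measurableSet).1 h
  filter_upwards [h'] with x hx hxb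
  have := hx hxb
  simpa using this

end UCP

open UCP in
/-- Abstract unique continuation. -/
theorem target_UCP (hV : Target_SplitV) (hCa : Target_Cacc) (hO : Target_Order)
    (hCH : Target_CarlH) : Target_UCP := by
  intro H _ _ _ _ d B hBm hB hzero
  obtain ⟨ε₀, C, hε₀, hC, hCarl⟩ := hCH
  obtain ⟨vs, vb, b, hvs, hvsn, hvb, hvbb, hvae⟩ := hV d.v d.hv ε₀ hε₀
  obtain ⟨k₀, hk₀⟩ := hCarl b
  obtain ⟨Cc, hCc⟩ := hCa H d
  have hcarl : ∀ x₀ k, k₀ ≤ k → CarlAt H x₀ k C d.v := by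
    intro x₀ k hk M hM hMp Ψ D g s hs hsob hg hΨ hD hgs heq
    refine hk₀ k hk H M hM hMp vs vb hvs hvsn hvb hvbb x₀ Ψ D g s hs hsob hg hΨ hD hgs ?_
    intro ζ hζ h
    rw [← heq ζ hζ h]
    congr 2
    exact integral_congr_ae (by filter_upwards [hvae] with x hx; rw [hx])
  -- the radius
  set Q := 16 * C * d.C₁ ^ 2 with hQ
  have hQ0 : 0 ≤ Q := by positivity
  set ρ := 1 / (2 + Q) with hρ
  have hρ0 : 0 < ρ := by positivity
  have hρ1 : 2 * ρ ≤ 1 := by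
    rw [hρ, mul_one_div, div_le_one (by positivity)]; linarith
  have hQρ : 16 * C * d.C₁ ^ 2 * ρ ^ 2 ≤ 1 := by
    have h1 : Q * ρ ≤ 1 := by
      rw [hρ, mul_one_div, div_le_one (by positivity)]; linarith
    calc 16 * C * d.C₁ ^ 2 * ρ ^ 2 = (Q * ρ) * ρ := by rw [hQ]; ring
      _ ≤ 1 * 1 := by
        apply mul_le_mul h1 (by linarith) hρ0.le zero_le_one
      _ = 1 := one_mul 1
  have hloc : ∀ x₀, Flat d x₀ → ∀ᵐ x, x ∈ Metric.ball x₀ (ρ / 2) → d.Ψ x = 0 := fun x₀ hf =>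
    local_vanish hC.le (hcarl x₀) hρ0 hρ1 hQρ hCc hf
  -- points near which `Ψ` vanishes
  let Z : Set E3 := {x | ∀ᵐ y, y ∈ Metric.ball x (ρ / 2) → d.Ψ y = 0}
  have hflat : ∀ x r, 0 < r → (∀ᵐ y, y ∈ Metric.ball x r → d.Ψ y = 0) → Flat d x := by
    intro x r hr hx M
    set Nt := ∫ x, ‖d.Ψ x‖ ^ 2 with hNt
    have hNt0 : 0 ≤ Nt := integral_nonneg fun _ => sq_nonneg _
    refine ⟨Nt / r ^ M, fun t ht ht1 => ?_⟩
    by_cases htr : t ≤ r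
    · have h0 : ∫ y in Metric.ball x t, ‖d.Ψ y‖ ^ 2 = 0 := by
        apply setIntegral_eq_zero_of_ae_eq_zero
        filter_upwards [hx] with y hy hyt
        rw [hy (Metric.ball_subset_ball htr hyt)]; simp
      rw [h0]; positivity
    · push Not at htr
      have h1 : ∫ y in Metric.ball x t, ‖d.Ψ y‖ ^ 2 ≤ Nt :=
        setIntegral_le_integral (int_sq d.sob.memLp) (Eventually.of_forall fun _ => sq_nonneg _)
      refine h1.trans ?_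
      rw [div_mul_eq_mul_div, le_div_iff₀ (by positivity)]
      gcongr
  have hstep : ∀ x ∈ Z, ∀ y ∈ Metric.ball x (ρ / 2), y ∈ Z := by
    intro x hx y hy
    refine hloc y (hflat y (ρ / 2 - dist y x) (by rw [Metric.mem_ball] at hy; linarith) ?_)
    filter_upwards [hx] with z hz hzy
    apply hz
    rw [Metric.mem_ball] at *
    have := dist_triangle z y x
    linarith
  obtain ⟨x₀, hx₀⟩ := hO H d B hBm hB hzero
  have hx₀Z : x₀ ∈ Z := hloc x₀ hx₀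
  -- all points
  have hall : ∀ y, y ∈ Z := by
    intro y
    obtain ⟨n, hn⟩ := exists_nat_gt (dist y x₀ / (ρ / 2))
    have hn0 : 0 < (n : ℝ) := lt_of_le_of_lt (by positivity) hn
    have hstep' : ∀ i : ℕ, i ≤ n → x₀ + ((i : ℝ) / n) • (y - x₀) ∈ Z := by
      intro i
      induction i with
      | zero => intro _; simpa using hx₀Z
      | succ i ih =>
        intro hi
        refine hstep _ (ih (by omega)) _ ?_
        rw [Metric.mem_ball, dist_eq_norm]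
        have : x₀ + (((i + 1 : ℕ) : ℝ) / n) • (y - x₀) - (x₀ + ((i : ℝ) / n) • (y - x₀)) =
            (1 / (n : ℝ)) • (y - x₀) := by
          rw [add_sub_add_left_eq_sub, ← sub_smul]
          congr 1
          push_cast
          ring
        rw [this, norm_smul, Real.norm_of_nonneg (by positivity), ← dist_eq_norm,
          one_div, inv_mul_lt_iff₀ hn0]
        rw [div_lt_iff₀ (by positivity)] at hn
        exact hn
    have := hstep' n le_rfl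
    rw [div_self hn0.ne', one_smul] at this
    simpa using this
  -- conclusion
  have : volume {x | ¬ d.Ψ x = 0} = 0 := by
    refine measure_null_of_locally_null _ fun x _ => ?_
    refine ⟨Metric.ball x (ρ / 2) ∩ {x | ¬ d.Ψ x = 0}, ?_, ?_⟩
    · rw [inter_comm]
      exact inter_mem_nhdsWithin _ (Metric.ball_mem_nhds x (by positivity))
    · have h := hall x
      have h' : ∀ᵐ y, y ∉ Metric.ball x (ρ / 2) ∩ {x | ¬ d.Ψ x = 0} := by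
        filter_upwards [h] with y hy hy'
        exact hy'.2 (hy hy'.1)
      rw [ae_iff] at h'
      have e : {a | ¬ a ∉ Metric.ball x (ρ / 2) ∩ {x | ¬ d.Ψ x = 0}} =
          Metric.ball x (ρ / 2) ∩ {x | ¬ d.Ψ x = 0} := by
        ext z; exact not_not
      rwa [e] at h'
  exact this

end Pool.Agent.HK
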