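import Pool.Agent.HK.Ops
import Pool.Agent.HK.Cut

/-!
# The equation of the truncated and smoothed function
-/

open MeasureTheory Set Filter Topology
open scoped ENNReal NNReal InnerProductSpace

namespace Pool.Agent.HK

namespace UCP

set_option linter.unusedSectionVars false

/-- scalar version of the computation -/
lemma scalar_cut {χ ζ : E3 → ℝ} (hχ : IsTest χ) (hζ : IsTest ζ) {u m n q : E3 → ℝ}
    {p : Fin 3 → E3 → ℝ} {v : E3 → ℝ} (hu : MemLp u 2 volume) (hm : MemLp m 2 volume)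
    (hn : MemLp n 2 volume) (hq : MemLp q 2 volume) (hp : ∀ a, MemLp (p a) 2 volume)
    (hw : ∀ a, WeakDeriv u (ax a) (p a))
    (he : 1 / 2 * (∑ a, ∫ x, fderiv ℝ (fun y => χ y * ζ y) x (ax a) * p a x)
      + (∫ x, v x * ((χ x * ζ x) * u x)) + (∫ x, (χ x * ζ x) * m x)
      = ∫ x, (χ x * ζ x) * q x) :
    1 / 2 * (∑ a, ∫ x, fderiv ℝ ζ x (ax a) * (fderiv ℝ χ x (ax a) * u x + χ x * p a x))
      + (∫ x, v x * (ζ x * (χ x * u x))) + (∫ x, ζ x * (χ x * (m x - n x)))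
      = ∫ x, ζ x * (χ x * q x - ∑ a, fderiv ℝ χ x (ax a) * p a x - (1 / 2 * lap χ x) * u x
          - χ x * n x) := by
  -- basic integrabilities
  have i1 : ∀ a, Integrable (fun x => (χ x * fderiv ℝ ζ x (ax a)) * p a x) volume := fun a =>
    ((hζ.dir (ax a)).mul_left hχ.1).integrable_smul (hp a)
  have i2 : ∀ a, Integrable (fun x => (ζ x * fderiv ℝ χ x (ax a)) * p a x) volume := fun a =>
    (hζ.mul_right (hχ.dir (ax a)).1).integrable_smul (hp a)
  have i3 : ∀ a, Integrable (fun x => (fderiv ℝ ζ x (ax a) * fderiv ℝ χ x (ax a)) * u x)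
      volume := fun a => ((hζ.dir (ax a)).mul_right (hχ.dir (ax a)).1).integrable_smul hu
  have i4 : ∀ a, Integrable (fun x => (ζ x *
      fderiv ℝ (fun y => fderiv ℝ χ y (ax a)) x (ax a)) * u x) volume := fun a =>
    (hζ.mul_right ((hχ.dir (ax a)).dir (ax a)).1).integrable_smul hu
  have im : Integrable (fun x => (χ x * ζ x) * m x) volume := (hζ.mul_left hχ.1).integrable_smul hm
  have inn : Integrable (fun x => (χ x * ζ x) * n x) volume :=
    (hζ.mul_left hχ.1).integrable_smul hn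
  have iq : Integrable (fun x => (χ x * ζ x) * q x) volume := (hζ.mul_left hχ.1).integrable_smul hq
  -- first integral in `he`
  have e1 : ∀ a, ∫ x, fderiv ℝ (fun y => χ y * ζ y) x (ax a) * p a x =
      (∫ x, (χ x * fderiv ℝ ζ x (ax a)) * p a x) + ∫ x, (ζ x * fderiv ℝ χ x (ax a)) * p a x := by
    intro a
    rw [← integral_add (i1 a) (i2 a)]
    refine integral_congr_ae (Eventually.of_forall fun x => ?_)
    simp only
    rw [fderiv_mul_apply hχ.differentiable hζ.differentiable]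
    ring
  -- weak derivative of `u`
  have e2 : ∀ a, (∫ x, (fderiv ℝ ζ x (ax a) * fderiv ℝ χ x (ax a)) * u x) +
      (∫ x, (ζ x * fderiv ℝ (fun y => fderiv ℝ χ y (ax a)) x (ax a)) * u x) =
      - ∫ x, (ζ x * fderiv ℝ χ x (ax a)) * p a x := by
    intro a
    have h := hw a (fun x => ζ x * fderiv ℝ χ x (ax a)) (hζ.mul_right (hχ.dir (ax a)).1)
    simp only [smul_eq_mul] at h
    rw [← h, ← integral_add (i3 a) (i4 a)]
    refine integral_congr_ae (Eventually.of_forall fun x => ?_)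
    simp only
    rw [fderiv_mul_apply hζ.differentiable (hχ.dir (ax a)).differentiable]
    ring
  -- left side
  have l1 : ∀ a, ∫ x, fderiv ℝ ζ x (ax a) * (fderiv ℝ χ x (ax a) * u x + χ x * p a x) =
      (∫ x, (fderiv ℝ ζ x (ax a) * fderiv ℝ χ x (ax a)) * u x) +
        ∫ x, (χ x * fderiv ℝ ζ x (ax a)) * p a x := by
    intro a
    rw [← integral_add (i3 a) (i1 a)]
    refine integral_congr_ae (Eventually.of_forall fun x => ?_)
    simp only
    ring
  have l2 : ∫ x, v x * (ζ x * (χ x * u x)) = ∫ x, v x * ((χ x * ζ x) * u x) :=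
    integral_congr_ae (Eventually.of_forall fun x => by simp only; ring)
  have l3 : ∫ x, ζ x * (χ x * (m x - n x)) =
      (∫ x, (χ x * ζ x) * m x) - ∫ x, (χ x * ζ x) * n x := by
    rw [← integral_sub im inn]
    exact integral_congr_ae (Eventually.of_forall fun x => by simp only; ring)
  -- right side
  have r1 : ∫ x, ζ x * (χ x * q x - ∑ a, fderiv ℝ χ x (ax a) * p a x - (1 / 2 * lap χ x) * u x
          - χ x * n x) = (∫ x, (χ x * ζ x) * q x) -
      (∑ a, ∫ x, (ζ x * fderiv ℝ χ x (ax a)) * p a x) -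
      1 / 2 * (∑ a, ∫ x, (ζ x * fderiv ℝ (fun y => fderiv ℝ χ y (ax a)) x (ax a)) * u x) -
      ∫ x, (χ x * ζ x) * n x := by
    have i2s : Integrable (fun x => ∑ a, (ζ x * fderiv ℝ χ x (ax a)) * p a x) volume :=
      integrable_finsetSum _ fun a _ => i2 a
    have i4s : Integrable (fun x => 1 / 2 * ∑ a, (ζ x *
        fderiv ℝ (fun y => fderiv ℝ χ y (ax a)) x (ax a)) * u x) volume :=
      (integrable_finsetSum _ fun a _ => i4 a).const_mul _
    have r0 : ∀ x, ζ x * (χ x * q x - ∑ a, fderiv ℝ χ x (ax a) * p a x - (1 / 2 * lap χ x) * u x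
          - χ x * n x) = (χ x * ζ x) * q x - (∑ a, (ζ x * fderiv ℝ χ x (ax a)) * p a x)
          - (1 / 2 * ∑ a, (ζ x * fderiv ℝ (fun y => fderiv ℝ χ y (ax a)) x (ax a)) * u x)
          - (χ x * ζ x) * n x := by
      intro x
      simp only [lap, Finset.mul_sum, Finset.sum_mul, mul_sub]
      have : ∀ A A' B B' C C' D D' : ℝ, A = A' → B = B' → C = C' → D = D' →
        A - B - C - D = A' - B' - C' - D' := by
        rintro _ _ _ _ _ _ _ _ rfl rfl rfl rfl; rfl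
      apply this
      · ring
      · exact Finset.sum_congr rfl fun a _ => by ring
      · exact Finset.sum_congr rfl fun a _ => by ring
      · ring
    simp only [r0]
    have j1 : Integrable (fun x => (χ x * ζ x) * q x -
        ∑ a, (ζ x * fderiv ℝ χ x (ax a)) * p a x) volume := iq.sub i2s
    have j2 : Integrable (fun x => (χ x * ζ x) * q x -
        (∑ a, (ζ x * fderiv ℝ χ x (ax a)) * p a x) - 1 / 2 * ∑ a, (ζ x *
        fderiv ℝ (fun y => fderiv ℝ χ y (ax a)) x (ax a)) * u x) volume := j1.sub i4s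
    rw [integral_sub j2 inn, integral_sub j1 i4s,
      integral_sub iq i2s, integral_finsetSum _ fun a _ => i2 a, integral_const_mul,
      integral_finsetSum _ fun a _ => i4 a]
  rw [r1, l2, l3]
  simp only [l1, e1] at he ⊢
  have s2 : (∑ a, ∫ x, (fderiv ℝ ζ x (ax a) * fderiv ℝ χ x (ax a)) * u x) +
      (∑ a, ∫ x, (ζ x * fderiv ℝ (fun y => fderiv ℝ χ y (ax a)) x (ax a)) * u x) =
      - ∑ a, ∫ x, (ζ x * fderiv ℝ χ x (ax a)) * p a x := by
    rw [← Finset.sum_add_distrib, ← Finset.sum_neg_distrib]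
    exact Finset.sum_congr rfl fun a _ => e2 a
  simp only [Finset.sum_add_distrib] at he ⊢
  linarith

variable {H : Type} [NormedAddCommGroup H] [InnerProductSpace ℝ H] [CompleteSpace H]
  [SecondCountableTopology H] (d : UCData H)

lemma memLp_clm {F : Type*} [NormedAddCommGroup F] [NormedSpace ℝ F] (L : H →L[ℝ] F)
    {f : E3 → H} (hf : MemLp f 2 volume) : MemLp (fun x => L (f x)) 2 volume :=
  L.comp_memLp' hf

lemma memLp_inner {f : E3 → H} (hf : MemLp f 2 volume) (h : H) :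
    MemLp (fun x => ⟪f x, h⟫_ℝ) 2 volume := by
  have := (innerSL ℝ h).comp_memLp' hf
  refine this.congr_norm ?_ ?_
  · exact hf.1.inner_const
  · filter_upwards with x
    simp [real_inner_comm]

/-- the truncated smoothed function -/
noncomputable def Pt (χ : E3 → ℝ) (δ : ℝ) (x : E3) : H := χ x • d.J δ (d.Ψ x)

/-- its weak gradient -/
noncomputable def Dt (χ : E3 → ℝ) (δ : ℝ) (a : Fin 3) (x : E3) : H :=
  fderiv ℝ χ x (ax a) • d.J δ (d.Ψ x) + χ x • d.J δ (d.D a x)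

/-- the right-hand side of its equation -/
noncomputable def gt (χ : E3 → ℝ) (ε δ : ℝ) (x : E3) : H :=
  χ x • d.J δ (d.G x) - ∑ a, fderiv ℝ χ x (ax a) • d.J δ (d.D a x)
    - (1 / 2 * lap χ x) • d.J δ (d.Ψ x) - χ x • (ε • d.R ε (d.R δ (d.Ψ x)))

lemma lap_continuous {χ : E3 → ℝ} (hχ : IsTest χ) : Continuous (lap χ) := by
  unfold lap
  exact continuous_finsetSum _ fun a _ => ((hχ.dir (ax a)).dir (ax a)).continuous

lemma lap_test {χ : E3 → ℝ} (hχ : IsTest χ) : IsTest (lap χ) := by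
  unfold lap
  refine ⟨ContDiff.sum fun a _ => ((hχ.dir (ax a)).dir (ax a)).1, ?_⟩
  have h0 := ((hχ.dir (ax 0)).dir (ax 0)).2
  have h1 := ((hχ.dir (ax 1)).dir (ax 1)).2
  have h2 := ((hχ.dir (ax 2)).dir (ax 2)).2
  simp only [Fin.sum_univ_three]
  exact (h0.add h1).add h2

variable {d}

lemma sob_t {χ : E3 → ℝ} (hχ : IsTest χ) (δ : ℝ) : Sob ax (Pt d χ δ) (Dt d χ δ) := by
  obtain ⟨C, hC⟩ := hχ.exists_bound
  choose C' hC' using fun a => (hχ.dir (ax a)).exists_bound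
  have h1 : MemLp (fun x => d.J δ (d.Ψ x)) 2 volume := memLp_clm _ d.sob.memLp
  have h2 : ∀ a, MemLp (fun x => d.J δ (d.D a x)) 2 volume := fun a =>
    memLp_clm _ (d.sob.memLp_grad a)
  refine ⟨memLp_smul_of_bound hχ.continuous hC h1, fun a => ?_, fun a => ?_⟩
  · exact (memLp_smul_of_bound (hχ.dir (ax a)).continuous (hC' a) h1).add
      (memLp_smul_of_bound hχ.continuous hC (h2 a))
  · exact ((d.sob.weak a).clm (d.J δ) d.sob.memLp (d.sob.memLp_grad a)).smul hχ.1 h1 (h2 a)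

lemma memLp_gt {χ : E3 → ℝ} (hχ : IsTest χ) (ε δ : ℝ) : MemLp (gt d χ ε δ) 2 volume := by
  obtain ⟨C, hC⟩ := hχ.exists_bound
  choose C' hC' using fun a => (hχ.dir (ax a)).exists_bound
  obtain ⟨C2, hC2⟩ := (lap_test hχ).exists_bound
  have h1 : MemLp (fun x => d.J δ (d.Ψ x)) 2 volume := memLp_clm _ d.sob.memLp
  have h2 : ∀ a, MemLp (fun x => d.J δ (d.D a x)) 2 volume := fun a =>
    memLp_clm _ (d.sob.memLp_grad a)
  have h3 : MemLp (fun x => d.J δ (d.G x)) 2 volume := memLp_clm _ d.memG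
  have h4 : MemLp (fun x => ε • d.R ε (d.R δ (d.Ψ x))) 2 volume :=
    memLp_clm (ε • (d.R ε).comp (d.R δ)) d.sob.memLp
  have h5 : MemLp (fun x => ∑ a, fderiv ℝ χ x (ax a) • d.J δ (d.D a x)) 2 volume :=
    memLp_finsetSum _ fun a _ => memLp_smul_of_bound (hχ.dir (ax a)).continuous (hC' a) (h2 a)
  have h6 : MemLp (fun x => (1 / 2 * lap χ x) • d.J δ (d.Ψ x)) 2 volume := by
    refine memLp_smul_of_bound (f := fun x => 1 / 2 * lap χ x)
      (continuous_const.mul (lap_test hχ).continuous) (C := 1 / 2 * C2) (fun x => ?_) h1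
    rw [abs_mul, abs_of_pos (by norm_num : (0 : ℝ) < 1 / 2)]
    exact mul_le_mul_of_nonneg_left (hC2 x) (by norm_num)
  exact (((memLp_smul_of_bound hχ.continuous hC h3).sub h5).sub h6).sub
    (memLp_smul_of_bound hχ.continuous hC h4)

/-- The equation. -/
lemma eqn_t {χ : E3 → ℝ} (hχ : IsTest χ) {ε δ : ℝ} (hε : 0 < ε) (hδ : 0 < δ) {ζ : E3 → ℝ}
    (hζ : IsTest ζ) (h : H) :
    1 / 2 * (∑ a, ∫ x, fderiv ℝ ζ x (ax a) * ⟪Dt d χ δ a x, h⟫_ℝ)
      + (∫ x, d.v x * (ζ x * ⟪Pt d χ δ x, h⟫_ℝ)) + (∫ x, ζ x * ⟪d.R ε (Pt d χ δ x), h⟫_ℝ)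
      = ∫ x, ζ x * ⟪gt d χ ε δ x, h⟫_ℝ := by
  set h' := d.R δ h with hh'
  have hK : ∀ y, ⟪d.J δ y, h⟫_ℝ = ⟪y, d.K h'⟫_ℝ := fun y => by
    rw [d.J_symm hδ, UCData.J_apply]
  have hRR : ∀ y, ⟪d.R δ y, h⟫_ℝ = ⟪y, h'⟫_ℝ := fun y => d.R_symm hδ _ _
  have e0 := d.eqn (fun x => χ x * ζ x) (hζ.mul_left hχ.1) h'
  have hw : ∀ a, WeakDeriv (fun x => ⟪d.Ψ x, d.K h'⟫_ℝ) (ax a)
      (fun x => ⟪d.D a x, d.K h'⟫_ℝ) := by
    intro a
    have := (d.sob.weak a).clm (innerSL ℝ (d.K h')) d.sob.memLp (d.sob.memLp_grad a)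
    simpa [real_inner_comm] using this
  have key := scalar_cut (v := d.v) hχ hζ (u := fun x => ⟪d.Ψ x, d.K h'⟫_ℝ)
    (m := fun x => ⟪d.Ψ x, h'⟫_ℝ) (n := fun x => ⟪ε • d.R ε (d.R δ (d.Ψ x)), h⟫_ℝ)
    (q := fun x => ⟪d.G x, d.K h'⟫_ℝ) (p := fun a x => ⟪d.D a x, d.K h'⟫_ℝ)
    (memLp_inner d.sob.memLp _) (memLp_inner d.sob.memLp _)
    (memLp_inner (memLp_clm (ε • (d.R ε).comp (d.R δ)) d.sob.memLp) _)
    (memLp_inner d.memG _) (fun a => memLp_inner (d.sob.memLp_grad a) _) hw e0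
  have f1 : ∀ a x, ⟪Dt d χ δ a x, h⟫_ℝ =
      fderiv ℝ χ x (ax a) * ⟪d.Ψ x, d.K h'⟫_ℝ + χ x * ⟪d.D a x, d.K h'⟫_ℝ := by
    intro a x
    rw [Dt, inner_add_left, inner_smul_left, inner_smul_left, hK, hK]
    simp
  have f2 : ∀ x, ⟪Pt d χ δ x, h⟫_ℝ = χ x * ⟪d.Ψ x, d.K h'⟫_ℝ := by
    intro x
    rw [Pt, inner_smul_left, hK]; simp
  have f3 : ∀ x, ⟪d.R ε (Pt d χ δ x), h⟫_ℝ =
      χ x * (⟪d.Ψ x, h'⟫_ℝ - ⟪ε • d.R ε (d.R δ (d.Ψ x)), h⟫_ℝ) := by
    intro x
    rw [Pt, map_smul, inner_smul_left, d.R_J_eq hε, inner_sub_left, hRR]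
    simp
  have f4 : ∀ x, ⟪gt d χ ε δ x, h⟫_ℝ = χ x * ⟪d.G x, d.K h'⟫_ℝ
      - ∑ a, fderiv ℝ χ x (ax a) * ⟪d.D a x, d.K h'⟫_ℝ
      - (1 / 2 * lap χ x) * ⟪d.Ψ x, d.K h'⟫_ℝ
      - χ x * ⟪ε • d.R ε (d.R δ (d.Ψ x)), h⟫_ℝ := by
    intro x
    rw [gt, inner_sub_left, inner_sub_left, inner_sub_left, inner_smul_left, hK, sum_inner,
      inner_smul_left, hK, inner_smul_left]
    simp only [inner_smul_left, hK, conj_trivial]
  simp only [f1, f2, f3, f4]
  exact key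

end UCP

end Pool.Agent.HK
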