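import Pool.Agent.HK.UCPEq

/-!
# Carleman inequality for the data of the unique continuation problem
-/

open MeasureTheory Set Filter Topology
open scoped ENNReal NNReal InnerProductSpace

namespace Pool.Agent.HK

namespace UCP

set_option linter.unusedSectionVars false

variable {H : Type} [NormedAddCommGroup H] [InnerProductSpace ℝ H] [CompleteSpace H]
  [SecondCountableTopology H]

/-- the Carleman inequality at fixed centre, weight and potential -/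
def CarlAt (H : Type) [NormedAddCommGroup H] [InnerProductSpace ℝ H] [CompleteSpace H]
    [SecondCountableTopology H] (x₀ : E3) (k : ℕ) (C : ℝ) (v : E3 → ℝ) : Prop :=
  ∀ (M : H →L[ℝ] H), (∀ x y, ⟪M x, y⟫_ℝ = ⟪x, M y⟫_ℝ) → (∀ x, 0 ≤ ⟪M x, x⟫_ℝ) →
    ∀ (Ψ : E3 → H) (D : Fin 3 → E3 → H) (g : E3 → H) (s : ℝ), 0 < s → Sob ax Ψ D →
      MemLp g 2 volume → AnnSupp x₀ s Ψ → (∀ a, AnnSupp x₀ s (D a)) → AnnSupp x₀ s g →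
      (∀ ζ : E3 → ℝ, IsTest ζ → ∀ h : H,
        1 / 2 * (∑ a, ∫ x, fderiv ℝ ζ x (ax a) * ⟪D a x, h⟫_ℝ)
          + (∫ x, v x * (ζ x * ⟪Ψ x, h⟫_ℝ)) + (∫ x, ζ x * ⟪M (Ψ x), h⟫_ℝ)
          = ∫ x, ζ x * ⟪g x, h⟫_ℝ) →
      ((k : ℝ) + 1) ^ 2 * (∫ x, (‖x - x₀‖⁻¹) ^ (2 * k + 4) * ‖Ψ x‖ ^ 2)
          + (∫ x, (‖x - x₀‖⁻¹) ^ (2 * k + 2) * ⟪M (Ψ x), Ψ x⟫_ℝ)
        ≤ C * ∫ x, (‖x - x₀‖⁻¹) ^ (2 * k) * ‖g x‖ ^ 2

/-- the weight -/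
noncomputable def W (x₀ : E3) (n : ℕ) (x : E3) : ℝ := (‖x - x₀‖⁻¹) ^ n

lemma W_nonneg (x₀ : E3) (n : ℕ) (x : E3) : 0 ≤ W x₀ n x := by unfold W; positivity

lemma W_meas (x₀ : E3) (n : ℕ) : Measurable (W x₀ n) := by
  unfold W
  exact (measurable_norm.comp (measurable_id.sub_const x₀)).inv.pow_const n

/-- bounded measurable times integrable -/
lemma int_bdd {f w : E3 → ℝ} (hf : Integrable f volume) (hw : Measurable w) {B : ℝ}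
    (h : ∀ x, |w x| ≤ B) : Integrable (fun x => w x * f x) volume :=
  hf.bdd_mul hw.aestronglyMeasurable (Eventually.of_forall h)

lemma int_sq {f : E3 → H} (hf : MemLp f 2 volume) : Integrable (fun x => ‖f x‖ ^ 2) volume :=
  hf.integrable_norm_pow (by norm_num)

variable {d : UCData H} {x₀ : E3} {k : ℕ} {C ρ s : ℝ}

lemma ann_Pt (hs : 0 < s) (hsρ : s ≤ ρ) (hρ : 2 * ρ ≤ 1) (δ : ℝ) :
    AnnSupp x₀ s (Pt d (Cut.χ x₀ ρ s) δ) := by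
  intro x hx
  have : Cut.χ x₀ ρ s x = 0 := by
    rcases hx with hx | hx
    · exact Cut.χ_zero_inner hs hsρ hx.le
    · exact Cut.χ_zero_outer hs hsρ (by linarith)
  simp [Pt, this]

lemma ann_Dt (hs : 0 < s) (hsρ : s ≤ ρ) (hρ : 2 * ρ ≤ 1) (δ : ℝ) (a : Fin 3) :
    AnnSupp x₀ s (Dt d (Cut.χ x₀ ρ s) δ a) := by
  intro x hx
  have h1 : Cut.χ x₀ ρ s x = 0 := by
    rcases hx with hx | hx
    · exact Cut.χ_zero_inner hs hsρ hx.le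
    · exact Cut.χ_zero_outer hs hsρ (by linarith)
  have h2 : fderiv ℝ (Cut.χ x₀ ρ s) x (ax a) = 0 := by
    refine Cut.dχ_zero hs hsρ a ?_
    rcases hx with hx | hx
    · exact Or.inl hx
    · exact Or.inr (by linarith)
  simp [Dt, h1, h2]

lemma ann_gt (hs : 0 < s) (hsρ : s ≤ ρ) (hρ : 2 * ρ ≤ 1) (ε δ : ℝ) :
    AnnSupp x₀ s (gt d (Cut.χ x₀ ρ s) ε δ) := by
  intro x hx
  have h1 : Cut.χ x₀ ρ s x = 0 := by
    rcases hx with hx | hx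
    · exact Cut.χ_zero_inner hs hsρ hx.le
    · exact Cut.χ_zero_outer hs hsρ (by linarith)
  have hx' : ‖x - x₀‖ < s ∨ 2 * ρ < ‖x - x₀‖ := by
    rcases hx with hx | hx
    · exact Or.inl hx
    · exact Or.inr (by linarith)
  have h2 : ∀ a, fderiv ℝ (Cut.χ x₀ ρ s) x (ax a) = 0 := fun a => Cut.dχ_zero hs hsρ a hx'
  have h3 : lap (Cut.χ x₀ ρ s) x = 0 := by
    unfold lap
    exact Finset.sum_eq_zero fun a _ => Cut.ddχ_zero hs hsρ a hx'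
  simp [gt, h1, h2, h3]

/-- the pointwise majorant of `‖gt‖²/4` without the error term -/
noncomputable def T (d : UCData H) (χ : E3 → ℝ) (x : E3) : ℝ :=
  χ x ^ 2 * ‖d.G x‖ ^ 2 + 3 * (∑ a, fderiv ℝ χ x (ax a) ^ 2 * ‖d.D a x‖ ^ 2)
    + (1 / 2 * lap χ x) ^ 2 * ‖d.Ψ x‖ ^ 2

lemma norm_sub4 (a b c e : H) :
    ‖a - b - c - e‖ ^ 2 ≤ 4 * (‖a‖ ^ 2 + ‖b‖ ^ 2 + ‖c‖ ^ 2 + ‖e‖ ^ 2) := by
  have h1 : ‖a - b - c - e‖ ≤ ‖a‖ + ‖b‖ + ‖c‖ + ‖e‖ := by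
    calc _ ≤ ‖a - b - c‖ + ‖e‖ := norm_sub_le _ _
      _ ≤ ‖a - b‖ + ‖c‖ + ‖e‖ := by gcongr; exact norm_sub_le _ _
      _ ≤ _ := by gcongr; exact norm_sub_le _ _
  have h2 := pow_le_pow_left₀ (norm_nonneg _) h1 2
  nlinarith [sq_nonneg (‖a‖ - ‖b‖), sq_nonneg (‖a‖ - ‖c‖), sq_nonneg (‖a‖ - ‖e‖),
    sq_nonneg (‖b‖ - ‖c‖), sq_nonneg (‖b‖ - ‖e‖), sq_nonneg (‖c‖ - ‖e‖)]

lemma norm_sum3 (f : Fin 3 → H) : ‖∑ a, f a‖ ^ 2 ≤ 3 * ∑ a, ‖f a‖ ^ 2 := by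
  have h1 : ‖∑ a, f a‖ ≤ ∑ a, ‖f a‖ := norm_sum_le _ _
  have h2 := pow_le_pow_left₀ (norm_nonneg _) h1 2
  simp only [Fin.sum_univ_three] at *
  nlinarith [sq_nonneg (‖f 0‖ - ‖f 1‖), sq_nonneg (‖f 0‖ - ‖f 2‖), sq_nonneg (‖f 1‖ - ‖f 2‖)]

lemma gt_le (χ : E3 → ℝ) : ∀ᵐ x, ∀ ε > 0, ∀ δ > 0,
    ‖gt d χ ε δ x‖ ^ 2 ≤ 4 * (T d χ x + ε * (δ ^ 2)⁻¹ * (χ x ^ 2 * d.α x ^ 2)) := by
  filter_upwards [d.ae_err_le] with x hx ε hε δ hδ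
  refine (norm_sub4 _ _ _ _).trans ?_
  have h1 : ‖χ x • d.J δ (d.G x)‖ ^ 2 ≤ χ x ^ 2 * ‖d.G x‖ ^ 2 := by
    rw [norm_smul, mul_pow, Real.norm_eq_abs, sq_abs]
    have := d.J_norm_le hδ (d.G x)
    gcongr
  have h2 : ‖∑ a, fderiv ℝ χ x (ax a) • d.J δ (d.D a x)‖ ^ 2 ≤
      3 * (∑ a, fderiv ℝ χ x (ax a) ^ 2 * ‖d.D a x‖ ^ 2) := by
    refine (norm_sum3 _).trans ?_
    gcongr with a
    rw [norm_smul, mul_pow, Real.norm_eq_abs, sq_abs]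
    have := d.J_norm_le hδ (d.D a x)
    gcongr
  have h3 : ‖(1 / 2 * lap χ x) • d.J δ (d.Ψ x)‖ ^ 2 ≤ (1 / 2 * lap χ x) ^ 2 * ‖d.Ψ x‖ ^ 2 := by
    rw [norm_smul, mul_pow, Real.norm_eq_abs, sq_abs]
    have := d.J_norm_le hδ (d.Ψ x)
    gcongr
  have h4 : ‖χ x • (ε • d.R ε (d.R δ (d.Ψ x)))‖ ^ 2 ≤
      ε * (δ ^ 2)⁻¹ * (χ x ^ 2 * d.α x ^ 2) := by
    rw [norm_smul, mul_pow, Real.norm_eq_abs, sq_abs]
    have := hx ε hε δ hδ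
    calc χ x ^ 2 * ‖ε • d.R ε (d.R δ (d.Ψ x))‖ ^ 2 ≤
        χ x ^ 2 * (ε * (δ ^ 2)⁻¹ * d.α x ^ 2) := by gcongr
      _ = _ := by ring
  unfold T
  linarith

/-- bound of weights times derivatives of the cut-off -/
lemma dχ_weight (hs : 0 < s) (hρ : 0 < ρ) {M : ℝ} (hM : ∀ a x, |Cut.ψ1 a x| ≤ M) (k : ℕ)
    (a : Fin 3) (x : E3) :
    W x₀ (2 * k) x * fderiv ℝ (Cut.χ x₀ ρ s) x (ax a) ^ 2 ≤ 2 * M ^ 2 * (ρ⁻¹ ^ (2 * k + 2) +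
        (Metric.ball x₀ (3 * s)).indicator (fun _ => s⁻¹ ^ (2 * k + 2)) x) := by
  have := Cut.weight_bound (x₀ := x₀) (hM a) (fun x h => Cut.ψ1_zero a h) hs hρ k 1 x
  rw [Cut.fderiv_χ]
  simpa [W] using this

lemma lapχ_weight (hs : 0 < s) (hρ : 0 < ρ) {M : ℝ} (hM : ∀ a x, |Cut.ψ2 a x| ≤ M) (k : ℕ)
    (x : E3) :
    W x₀ (2 * k) x * (1 / 2 * lap (Cut.χ x₀ ρ s) x) ^ 2 ≤ 5 * M ^ 2 * (ρ⁻¹ ^ (2 * k + 4) +
        (Metric.ball x₀ (3 * s)).indicator (fun _ => s⁻¹ ^ (2 * k + 4)) x) := by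
  have h := fun a => Cut.weight_bound (x₀ := x₀) (hM a) (fun x h => Cut.ψ2_zero a h) hs hρ k 2 x
  have h3 : (1 / 2 * lap (Cut.χ x₀ ρ s) x) ^ 2 ≤ 3 / 4 *
      ∑ a, (ρ⁻¹ ^ 2 * Cut.ψ2 a (Cut.sc x₀ ρ x) - s⁻¹ ^ 2 * Cut.ψ2 a (Cut.sc x₀ s x)) ^ 2 := by
    unfold lap
    simp only [Cut.fderiv_fderiv_χ, Fin.sum_univ_three]
    set p := ρ⁻¹ ^ 2 * Cut.ψ2 0 (Cut.sc x₀ ρ x) - s⁻¹ ^ 2 * Cut.ψ2 0 (Cut.sc x₀ s x)
    set q := ρ⁻¹ ^ 2 * Cut.ψ2 1 (Cut.sc x₀ ρ x) - s⁻¹ ^ 2 * Cut.ψ2 1 (Cut.sc x₀ s x)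
    set r := ρ⁻¹ ^ 2 * Cut.ψ2 2 (Cut.sc x₀ ρ x) - s⁻¹ ^ 2 * Cut.ψ2 2 (Cut.sc x₀ s x)
    nlinarith [sq_nonneg (p - q), sq_nonneg (p - r), sq_nonneg (q - r)]
  have hW := W_nonneg x₀ (2 * k) x
  have hA : 0 ≤ ρ⁻¹ ^ (2 * k + 2 * 2) +
        (Metric.ball x₀ (3 * s)).indicator (fun _ => s⁻¹ ^ (2 * k + 2 * 2)) x :=
    add_nonneg (by positivity) (indicator_nonneg (fun _ _ => by positivity) _)
  calc _ ≤ W x₀ (2 * k) x * (3 / 4 * ∑ a, (ρ⁻¹ ^ 2 * Cut.ψ2 a (Cut.sc x₀ ρ x)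
        - s⁻¹ ^ 2 * Cut.ψ2 a (Cut.sc x₀ s x)) ^ 2) := by gcongr
    _ = 3 / 4 * ∑ a, (W x₀ (2 * k) x * (ρ⁻¹ ^ 2 * Cut.ψ2 a (Cut.sc x₀ ρ x)
        - s⁻¹ ^ 2 * Cut.ψ2 a (Cut.sc x₀ s x)) ^ 2) := by
      rw [Finset.mul_sum, Finset.mul_sum, Finset.mul_sum]
      exact Finset.sum_congr rfl fun a _ => by ring
    _ ≤ 3 / 4 * ∑ a : Fin 3, (2 * M ^ 2 * (ρ⁻¹ ^ (2 * k + 2 * 2) +
        (Metric.ball x₀ (3 * s)).indicator (fun _ => s⁻¹ ^ (2 * k + 2 * 2)) x)) := by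
      exact mul_le_mul_of_nonneg_left (Finset.sum_le_sum fun a _ => h a) (by norm_num)
    _ ≤ 5 * M ^ 2 * (ρ⁻¹ ^ (2 * k + 4) +
        (Metric.ball x₀ (3 * s)).indicator (fun _ => s⁻¹ ^ (2 * k + 4)) x) := by
      have e4 : 2 * k + 2 * 2 = 2 * k + 4 := rfl
      rw [e4] at hA ⊢
      simp only [Finset.sum_const, Finset.card_univ, Fintype.card_fin, nsmul_eq_mul,
        Nat.cast_ofNat]
      nlinarith [mul_nonneg (sq_nonneg M) hA]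

lemma Wχ_bound (hs : 0 < s) (hsρ : s ≤ ρ) (n : ℕ) (x : E3) :
    |W x₀ n x * Cut.χ x₀ ρ s x ^ 2| ≤ s⁻¹ ^ n := by
  have h1 : 0 ≤ W x₀ n x * Cut.χ x₀ ρ s x ^ 2 := Cut.weight_χ_nonneg n x
  rw [abs_of_nonneg h1]
  exact Cut.weight_χ_bound hs hsρ n x

lemma χ_meas (x₀ : E3) (ρ s : ℝ) : Measurable (Cut.χ x₀ ρ s) :=
  (Cut.χ_contDiff x₀ ρ s).continuous.measurable

lemma int_Wχ (hs : 0 < s) (hsρ : s ≤ ρ) {f : E3 → ℝ} (hf : Integrable f volume) (n : ℕ) :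
    Integrable (fun x => W x₀ n x * (Cut.χ x₀ ρ s x ^ 2 * f x)) volume := by
  have := int_bdd hf (w := fun x => W x₀ n x * Cut.χ x₀ ρ s x ^ 2)
    ((W_meas x₀ n).mul ((χ_meas x₀ ρ s).pow_const 2)) (B := s⁻¹ ^ n)
    (fun x => Wχ_bound hs hsρ n x)
  exact this.congr (Eventually.of_forall fun x => by simp only; ring)

lemma int_Wd (hs : 0 < s) (hsρ : s ≤ ρ) (a : Fin 3) : Integrable (fun x => W x₀ (2 * k) x *
      (fderiv ℝ (Cut.χ x₀ ρ s) x (ax a) ^ 2 * ‖d.D a x‖ ^ 2)) volume := by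
  have hρ0 : 0 < ρ := hs.trans_le hsρ
  have hχ := Cut.χ_test (x₀ := x₀) hs hsρ
  obtain ⟨M, hM0, hM1, hM2⟩ := Cut.exists_M
  have := int_bdd (int_sq (d.sob.memLp_grad a)) (w := fun x => W x₀ (2 * k) x *
        fderiv ℝ (Cut.χ x₀ ρ s) x (ax a) ^ 2)
      ((W_meas x₀ _).mul ((hχ.dir (ax a)).continuous.measurable.pow_const 2))
      (B := 2 * M ^ 2 * (ρ⁻¹ ^ (2 * k + 2) + s⁻¹ ^ (2 * k + 2))) (fun x => by
        rw [abs_of_nonneg (mul_nonneg (W_nonneg _ _ _) (sq_nonneg _))]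
        refine (dχ_weight hs hρ0 hM1 k a x).trans ?_
        gcongr
        exact indicator_le_self' (fun _ _ => by positivity) _)
  exact this.congr (Eventually.of_forall fun x => by simp only; ring)

lemma int_Wl (hs : 0 < s) (hsρ : s ≤ ρ) : Integrable (fun x => W x₀ (2 * k) x *
      ((1 / 2 * lap (Cut.χ x₀ ρ s) x) ^ 2 * ‖d.Ψ x‖ ^ 2)) volume := by
  have hρ0 : 0 < ρ := hs.trans_le hsρ
  have hχ := Cut.χ_test (x₀ := x₀) hs hsρ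
  obtain ⟨M, hM0, hM1, hM2⟩ := Cut.exists_M
  have := int_bdd (int_sq d.sob.memLp) (w := fun x => W x₀ (2 * k) x *
        (1 / 2 * lap (Cut.χ x₀ ρ s) x) ^ 2)
      ((W_meas x₀ _).mul (((lap_test hχ).continuous.measurable.const_mul _).pow_const 2))
      (B := 5 * M ^ 2 * (ρ⁻¹ ^ (2 * k + 4) + s⁻¹ ^ (2 * k + 4))) (fun x => by
        rw [abs_of_nonneg (mul_nonneg (W_nonneg _ _ _) (sq_nonneg _))]
        refine (lapχ_weight hs hρ0 hM2 k x).trans ?_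
        gcongr
        exact indicator_le_self' (fun _ _ => by positivity) _)
  exact this.congr (Eventually.of_forall fun x => by simp only; ring)

lemma W_T_eq (x : E3) : W x₀ (2 * k) x * T d (Cut.χ x₀ ρ s) x =
    W x₀ (2 * k) x * (Cut.χ x₀ ρ s x ^ 2 * ‖d.G x‖ ^ 2) +
    3 * (∑ a, W x₀ (2 * k) x * (fderiv ℝ (Cut.χ x₀ ρ s) x (ax a) ^ 2 * ‖d.D a x‖ ^ 2)) +
    W x₀ (2 * k) x * ((1 / 2 * lap (Cut.χ x₀ ρ s) x) ^ 2 * ‖d.Ψ x‖ ^ 2) := by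
  simp only [T, Finset.mul_sum, mul_add]
  congr 2
  exact Finset.sum_congr rfl fun a _ => by ring

lemma int_WT (hs : 0 < s) (hsρ : s ≤ ρ) :
    Integrable (fun x => W x₀ (2 * k) x * T d (Cut.χ x₀ ρ s) x) volume := by
  have := ((int_Wχ (x₀ := x₀) hs hsρ (int_sq d.memG) (2 * k)).add
    ((integrable_finsetSum Finset.univ fun a _ =>
      int_Wd (d := d) (x₀ := x₀) (k := k) hs hsρ a).const_mul 3)).add
      (int_Wl (d := d) (x₀ := x₀) (k := k) hs hsρ)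
  refine this.congr (Eventually.of_forall fun x => ?_)
  exact (W_T_eq x).symm

/-- Carleman at level `ε, δ`, error term bounded. -/
lemma level (hC : 0 ≤ C) (hcarl : CarlAt H x₀ k C d.v) (hs : 0 < s) (hsρ : s ≤ ρ)
    (hρ : 2 * ρ ≤ 1) {ε δ : ℝ} (hε : 0 < ε) (hδ : 0 < δ) :
    ((k : ℝ) + 1) ^ 2 * (∫ x, W x₀ (2 * k + 4) x * ‖Pt d (Cut.χ x₀ ρ s) δ x‖ ^ 2)
      + (∫ x, W x₀ (2 * k + 2) x *
          ⟪d.R ε (Pt d (Cut.χ x₀ ρ s) δ x), Pt d (Cut.χ x₀ ρ s) δ x⟫_ℝ) ≤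
    4 * C * (∫ x, W x₀ (2 * k) x * T d (Cut.χ x₀ ρ s) x) + 4 * C * (ε * (δ ^ 2)⁻¹) *
      ∫ x, W x₀ (2 * k) x * (Cut.χ x₀ ρ s x ^ 2 * d.α x ^ 2) := by
  have hρ0 : 0 < ρ := hs.trans_le hsρ
  have hχ := Cut.χ_test (x₀ := x₀) hs hsρ
  have h1 := hcarl (d.R ε) (d.R_symm hε) (d.R_pos hε) (Pt d (Cut.χ x₀ ρ s) δ)
    (Dt d (Cut.χ x₀ ρ s) δ) (gt d (Cut.χ x₀ ρ s) ε δ) s hs (sob_t hχ δ) (memLp_gt hχ ε δ)
    (ann_Pt hs hsρ hρ δ) (ann_Dt hs hsρ hρ δ) (ann_gt hs hsρ hρ ε δ)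
    (fun ζ hζ h => eqn_t hχ hε hδ hζ h)
  refine h1.trans ?_
  have iT := int_WT (d := d) (x₀ := x₀) (k := k) hs hsρ
  have iA := int_Wχ (x₀ := x₀) hs hsρ d.memα.integrable_sq (2 * k)
  have h2 : ∫ x, W x₀ (2 * k) x * ‖gt d (Cut.χ x₀ ρ s) ε δ x‖ ^ 2 ≤
      ∫ x, (4 * (W x₀ (2 * k) x * T d (Cut.χ x₀ ρ s) x) + 4 * (ε * (δ ^ 2)⁻¹) *
        (W x₀ (2 * k) x * (Cut.χ x₀ ρ s x ^ 2 * d.α x ^ 2))) := by
    refine integral_mono_of_nonneg (Eventually.of_forall fun x =>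
      mul_nonneg (W_nonneg _ _ _) (sq_nonneg _)) ((iT.const_mul 4).add (iA.const_mul _)) ?_
    filter_upwards [gt_le (d := d) (Cut.χ x₀ ρ s)] with x hx
    have := mul_le_mul_of_nonneg_left (hx ε hε δ hδ) (W_nonneg x₀ (2 * k) x)
    refine this.trans (le_of_eq ?_)
    ring
  rw [integral_add (iT.const_mul 4) (iA.const_mul _), integral_const_mul, integral_const_mul] at h2
  calc _ ≤ C * (4 * (∫ x, W x₀ (2 * k) x * T d (Cut.χ x₀ ρ s) x) + 4 * (ε * (δ ^ 2)⁻¹) *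
        ∫ x, W x₀ (2 * k) x * (Cut.χ x₀ ρ s x ^ 2 * d.α x ^ 2)) :=
      mul_le_mul_of_nonneg_left h2 hC
    _ = _ := by ring

lemma inner_Pt (R : H →L[ℝ] H) (χ : E3 → ℝ) (δ : ℝ) (x : E3) :
    ⟪R (Pt d χ δ x), Pt d χ δ x⟫_ℝ = χ x ^ 2 * ⟪R (d.J δ (d.Ψ x)), d.J δ (d.Ψ x)⟫_ℝ := by
  rw [Pt, map_smul, inner_smul_left, inner_smul_right, conj_trivial]; ring

lemma norm_Pt (χ : E3 → ℝ) (δ : ℝ) (x : E3) :
    ‖Pt d χ δ x‖ ^ 2 = χ x ^ 2 * ‖d.J δ (d.Ψ x)‖ ^ 2 := by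
  rw [Pt, norm_smul, mul_pow, Real.norm_eq_abs, sq_abs]

lemma abs_inner_R_le (R : H →L[ℝ] H) (y : H) : |⟪R y, y⟫_ℝ| ≤ ‖R‖ * ‖y‖ ^ 2 := by
  refine (abs_real_inner_le_norm _ _).trans ?_
  have := R.le_opNorm y
  calc ‖R y‖ * ‖y‖ ≤ ‖R‖ * ‖y‖ * ‖y‖ := by gcongr
    _ = _ := by ring

lemma meas_inner (R : H →L[ℝ] H) {f : E3 → H} (hf : AEStronglyMeasurable f volume) :
    AEStronglyMeasurable (fun x => ⟪R (f x), f x⟫_ℝ) volume :=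
  (R.continuous.comp_aestronglyMeasurable hf).inner hf

/-- first limit: `ε → 0` -/
lemma level2 (hC : 0 ≤ C) (hcarl : CarlAt H x₀ k C d.v) (hs : 0 < s) (hsρ : s ≤ ρ)
    (hρ : 2 * ρ ≤ 1) {ε δ : ℝ} (hε : 0 < ε) (hδ : 0 < δ) :
    ((k : ℝ) + 1) ^ 2 * (∫ x, W x₀ (2 * k + 4) x *
        (Cut.χ x₀ ρ s x ^ 2 * ‖d.J δ (d.Ψ x)‖ ^ 2))
      + (∫ x, W x₀ (2 * k + 2) x * (Cut.χ x₀ ρ s x ^ 2 *
          ⟪d.R ε (d.J δ (d.Ψ x)), d.J δ (d.Ψ x)⟫_ℝ)) ≤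
    4 * C * (∫ x, W x₀ (2 * k) x * T d (Cut.χ x₀ ρ s) x) := by
  set A := ∫ x, W x₀ (2 * k) x * (Cut.χ x₀ ρ s x ^ 2 * d.α x ^ 2) with hA
  refine ge_of_tendsto (x := 𝓝[>] (0 : ℝ)) (f := fun ε' : ℝ =>
    4 * C * (∫ x, W x₀ (2 * k) x * T d (Cut.χ x₀ ρ s) x) + 4 * C * (ε' * (δ ^ 2)⁻¹) * A) ?_ ?_
  · have : Tendsto (fun ε' : ℝ =>
      4 * C * (∫ x, W x₀ (2 * k) x * T d (Cut.χ x₀ ρ s) x) + 4 * C * (ε' * (δ ^ 2)⁻¹) * A)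
      (𝓝 0) (𝓝 (4 * C * (∫ x, W x₀ (2 * k) x * T d (Cut.χ x₀ ρ s) x) +
        4 * C * (0 * (δ ^ 2)⁻¹) * A)) := by
      apply Continuous.tendsto
      fun_prop
    simp only [zero_mul, mul_zero, add_zero] at this
    exact this.mono_left nhdsWithin_le_nhds
  · filter_upwards [Ioo_mem_nhdsGT hε] with ε' hε'
    have h := level (d := d) hC hcarl hs hsρ hρ hε'.1 hδ
    simp only [inner_Pt, norm_Pt] at h
    refine le_trans ?_ h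
    refine add_le_add le_rfl ?_
    have hJ : MemLp (fun x => d.J δ (d.Ψ x)) 2 volume := memLp_clm _ d.sob.memLp
    have iR : ∀ r : ℝ, Integrable (fun x => ⟪d.R r (d.J δ (d.Ψ x)), d.J δ (d.Ψ x)⟫_ℝ)
        volume := by
      intro r
      refine Integrable.mono' ((int_sq hJ).const_mul ‖d.R r‖) (meas_inner _ hJ.1) ?_
      exact Eventually.of_forall fun x => abs_inner_R_le _ _
    refine integral_mono (int_Wχ hs hsρ (iR ε) _) (int_Wχ hs hsρ (iR ε') _) fun x => ?_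
    have := d.R_mono hε'.1 hε'.2.le (d.J δ (d.Ψ x))
    have hW := W_nonneg x₀ (2 * k + 2) x
    simp only
    gcongr

/-- second limit: `δ → 0` -/
lemma level3 (hC : 0 ≤ C) (hcarl : CarlAt H x₀ k C d.v) (hs : 0 < s) (hsρ : s ≤ ρ)
    (hρ : 2 * ρ ≤ 1) {ε : ℝ} (hε : 0 < ε) :
    ((k : ℝ) + 1) ^ 2 * (∫ x, W x₀ (2 * k + 4) x * (Cut.χ x₀ ρ s x ^ 2 * ‖d.Ψ x‖ ^ 2))
      + (∫ x, W x₀ (2 * k + 2) x * (Cut.χ x₀ ρ s x ^ 2 * ⟪d.R ε (d.Ψ x), d.Ψ x⟫_ℝ)) ≤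
    4 * C * (∫ x, W x₀ (2 * k) x * T d (Cut.χ x₀ ρ s) x) := by
  let δ : ℕ → ℝ := fun n => 1 / ((n : ℝ) + 1)
  have hδ : ∀ n, 0 < δ n := fun n => by positivity
  have hδ0 : Tendsto δ atTop (𝓝 0) := tendsto_one_div_add_atTop_nhds_zero_nat
  -- pointwise convergence
  have hJ : ∀ᵐ x, Tendsto (fun n => d.J (δ n) (d.Ψ x)) atTop (𝓝 (d.Ψ x)) := by
    filter_upwards [d.ae_sub_J_le] with x hx
    rw [tendsto_iff_norm_sub_tendsto_zero]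
    have h1 : Tendsto (fun n => δ n * d.α x ^ 2) atTop (𝓝 0) := by
      simpa using hδ0.mul_const (d.α x ^ 2)
    have h2 : Tendsto (fun n => Real.sqrt (δ n * d.α x ^ 2)) atTop (𝓝 0) := by
      simpa [Function.comp_def] using (Real.continuous_sqrt.tendsto 0).comp h1
    refine squeeze_zero (fun n => norm_nonneg _) (fun n => ?_) h2
    rw [norm_sub_rev]
    exact Real.le_sqrt_of_sq_le (hx (δ n) (hδ n))
  have t1 : Tendsto (fun n => ∫ x, W x₀ (2 * k + 4) x *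
        (Cut.χ x₀ ρ s x ^ 2 * ‖d.J (δ n) (d.Ψ x)‖ ^ 2)) atTop
      (𝓝 (∫ x, W x₀ (2 * k + 4) x * (Cut.χ x₀ ρ s x ^ 2 * ‖d.Ψ x‖ ^ 2))) := by
    refine tendsto_integral_of_dominated_convergence
      (fun x => W x₀ (2 * k + 4) x * (Cut.χ x₀ ρ s x ^ 2 * ‖d.Ψ x‖ ^ 2)) ?_
      (int_Wχ hs hsρ (int_sq d.sob.memLp) _) ?_ ?_
    · intro n
      exact (int_Wχ hs hsρ (int_sq (memLp_clm _ d.sob.memLp)) _).1
    · intro n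
      refine Eventually.of_forall fun x => ?_
      have hW := W_nonneg x₀ (2 * k + 4) x
      rw [Real.norm_of_nonneg (by positivity)]
      have := d.J_norm_le (hδ n) (d.Ψ x)
      gcongr
    · filter_upwards [hJ] with x hx
      exact ((hx.norm.pow 2).const_mul _).const_mul _
  have t2 : Tendsto (fun n => ∫ x, W x₀ (2 * k + 2) x * (Cut.χ x₀ ρ s x ^ 2 *
          ⟪d.R ε (d.J (δ n) (d.Ψ x)), d.J (δ n) (d.Ψ x)⟫_ℝ)) atTop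
      (𝓝 (∫ x, W x₀ (2 * k + 2) x * (Cut.χ x₀ ρ s x ^ 2 * ⟪d.R ε (d.Ψ x), d.Ψ x⟫_ℝ))) := by
    refine tendsto_integral_of_dominated_convergence
      (fun x => W x₀ (2 * k + 2) x * (Cut.χ x₀ ρ s x ^ 2 * (‖d.R ε‖ * ‖d.Ψ x‖ ^ 2))) ?_
      (int_Wχ hs hsρ ((int_sq d.sob.memLp).const_mul _) _) ?_ ?_
    · intro n
      have hJm : MemLp (fun x => d.J (δ n) (d.Ψ x)) 2 volume := memLp_clm _ d.sob.memLp
      exact ((W_meas x₀ _).aestronglyMeasurable).mul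
        (((χ_meas x₀ ρ s).pow_const 2).aestronglyMeasurable.mul (meas_inner _ hJm.1))
    · intro n
      refine Eventually.of_forall fun x => ?_
      have hW := W_nonneg x₀ (2 * k + 2) x
      rw [norm_mul, norm_mul, Real.norm_of_nonneg hW, Real.norm_of_nonneg (sq_nonneg _)]
      have h1 := abs_inner_R_le (d.R ε) (d.J (δ n) (d.Ψ x))
      have h2 := d.J_norm_le (hδ n) (d.Ψ x)
      rw [Real.norm_eq_abs]
      have h3 : ‖d.R ε‖ * ‖d.J (δ n) (d.Ψ x)‖ ^ 2 ≤ ‖d.R ε‖ * ‖d.Ψ x‖ ^ 2 := by gcongr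
      gcongr
      exact h1.trans h3
    · filter_upwards [hJ] with x hx
      refine Tendsto.const_mul _ (Tendsto.const_mul _ ?_)
      exact (((d.R ε).continuous.tendsto _).comp hx).inner hx
  exact le_of_tendsto ((t1.const_mul _).add t2)
    (Eventually.of_forall fun n => level2 (d := d) hC hcarl hs hsρ hρ hε (hδ n))

/-- third limit: `ε → 0` -/
lemma level4 (hC : 0 ≤ C) (hcarl : CarlAt H x₀ k C d.v) (hs : 0 < s) (hsρ : s ≤ ρ)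
    (hρ : 2 * ρ ≤ 1) :
    ((k : ℝ) + 1) ^ 2 * (∫ x, W x₀ (2 * k + 4) x * (Cut.χ x₀ ρ s x ^ 2 * ‖d.Ψ x‖ ^ 2))
      + (∫ x, W x₀ (2 * k + 2) x * (Cut.χ x₀ ρ s x ^ 2 * d.α x ^ 2)) ≤
    4 * C * (∫ x, W x₀ (2 * k) x * T d (Cut.χ x₀ ρ s) x) := by
  let ε : ℕ → ℝ := fun n => 1 / ((n : ℝ) + 1)
  have hε : ∀ n, 0 < ε n := fun n => by positivity
  have hε0 : Tendsto ε atTop (𝓝[>] 0) := by
    rw [tendsto_nhdsWithin_iff]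
    exact ⟨tendsto_one_div_add_atTop_nhds_zero_nat, Eventually.of_forall hε⟩
  have t2 : Tendsto (fun n => ∫ x, W x₀ (2 * k + 2) x * (Cut.χ x₀ ρ s x ^ 2 *
          ⟪d.R (ε n) (d.Ψ x), d.Ψ x⟫_ℝ)) atTop
      (𝓝 (∫ x, W x₀ (2 * k + 2) x * (Cut.χ x₀ ρ s x ^ 2 * d.α x ^ 2))) := by
    refine tendsto_integral_of_dominated_convergence
      (fun x => W x₀ (2 * k + 2) x * (Cut.χ x₀ ρ s x ^ 2 * d.α x ^ 2)) ?_
      (int_Wχ hs hsρ d.memα.integrable_sq _) ?_ ?_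
    · intro n
      exact ((W_meas x₀ _).aestronglyMeasurable).mul
        (((χ_meas x₀ ρ s).pow_const 2).aestronglyMeasurable.mul (meas_inner _ d.sob.memLp.1))
    · intro n
      filter_upwards [d.ae_R_le] with x hx
      have hW := W_nonneg x₀ (2 * k + 2) x
      have h1 := hx (ε n) (hε n)
      have h0 := d.R_pos (hε n) (d.Ψ x)
      rw [Real.norm_of_nonneg (by positivity)]
      gcongr
    · filter_upwards [d.lim] with x hx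
      exact Tendsto.const_mul _ (Tendsto.const_mul _ (hx.comp hε0))
  exact le_of_tendsto (t2.const_add _)
    (Eventually.of_forall fun n => level3 (d := d) hC hcarl hs hsρ hρ (hε n))

end UCP

end Pool.Agent.HK
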