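import Pool.Agent.HK.VarTools

/-!
# The variational argument of Hohenberg and Kohn
-/

open MeasureTheory Set Filter Topology
open scoped ENNReal NNReal InnerProductSpace

namespace Pool.Agent.HK.Var

lemma normSq_comb {N : ℕ} (χ : Wave N) (c : ℝ) :
    (comb χ χ c 0).normSq = c ^ 2 * χ.normSq := by
  unfold Wave.normSq comb
  simp only [zero_smul, add_zero, norm_smul, mul_pow, Real.norm_eq_abs, sq_abs,
    integral_const_mul, Finset.mul_sum]

lemma ae_zero_of_normSq {N : ℕ} {χ : Wave N} (h : χ.normSq = 0) (s : Fin N → Fin 2) :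
    ∀ᵐ x, χ.toFun s x = 0 := by
  unfold Wave.normSq at h
  rw [Finset.sum_eq_zero_iff_of_nonneg fun _ _ => by positivity] at h
  have h1 := h s (Finset.mem_univ s)
  rw [integral_eq_zero_iff_of_nonneg (fun x => by positivity)
    ((χ.sob s).memLp.integrable_norm_pow (by norm_num))] at h1
  filter_upwards [h1] with x hx
  have : ‖χ.toFun s x‖ ^ 2 = 0 := hx
  simpa using this

lemma hpos_of_min {N : ℕ} {v : E3 → ℝ} {E : ℝ}
    (hW : Adm (fun x : Conf N => ext v x + coulomb x))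
    (hE : ∀ ψ : Wave N, ψ.normSq = 1 → E ≤ ψ.energy v) (χ : Wave N) :
    0 ≤ QW (fun x => ext v x + coulomb x - E) χ := by
  have hn : 0 ≤ χ.normSq := by unfold Wave.normSq; positivity
  rcases hn.eq_or_lt with h0 | h0
  · unfold QW
    refine Finset.sum_nonneg fun s _ => ?_
    unfold form
    have h1 : ∫ x, (ext v x + coulomb x - E) * ⟪χ.toFun s x, χ.toFun s x⟫_ℝ = 0 := by
      have : (fun x => (ext v x + coulomb x - E) * ⟪χ.toFun s x, χ.toFun s x⟫_ℝ) =ᵐ[volume]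
          fun _ => (0 : ℝ) := by
        filter_upwards [ae_zero_of_normSq h0.symm s] with x hx
        rw [hx]; simp
      rw [integral_congr_ae this]; simp
    rw [h1, add_zero]
    simp only [real_inner_self_eq_norm_sq]
    positivity
  · set c := (Real.sqrt χ.normSq)⁻¹ with hc
    have hc2 : c ^ 2 * χ.normSq = 1 := by
      rw [hc, inv_pow, Real.sq_sqrt hn]
      exact inv_mul_cancel₀ h0.ne'
    have h1 : (comb χ χ c 0).normSq = 1 := by rw [normSq_comb, hc2]
    have h2 := hE _ h1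
    have h3 := energy_eq hW E (comb χ χ c 0)
    have hW' : Adm (fun x : Conf N => ext v x + coulomb x - E) := adm_sub hW (adm_const E)
    rw [h1, QW_comb hW'] at h3
    have hc0 : 0 < c ^ 2 := by positivity
    have h4 : 0 ≤ c ^ 2 * QW (fun x => ext v x + coulomb x - E) χ := by
      have : c ^ 2 * QW (fun x => ext v x + coulomb x - E) χ = (comb χ χ c 0).energy v - E * 1 := by
        rw [h3]; ring
      rw [this]; linarith
    exact nonneg_of_mul_nonneg_right h4 hc0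

lemma test_sob {N : ℕ} {ζ : Conf N → ℝ} (hζ : IsTest ζ) :
    Sob dir ζ (fun p x => fderiv ℝ ζ x (dir p)) where
  memLp := test_memLp hζ 2
  memLp_grad p := test_fderiv_memLp hζ _ 2
  weak p ξ hξ := by
    simp only [smul_eq_mul]
    have h := integral_mul_fderiv_eq_neg_fderiv_mul_of_integrable (μ := volume)
      (f := ξ) (g := ζ) (v := (dir p : Conf N))
      (int_test' hξ _ (test_memLp hζ 2)) (int_test hξ (test_fderiv_memLp hζ _ 2))
      (int_test hξ (test_memLp hζ 2)) (fun x _ => (hξ.1.differentiable (by simp)) x)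
      (fun x _ => (hζ.1.differentiable (by simp)) x)
    rw [h, neg_neg]

lemma exists_test_one {N : ℕ} {K : Set (Conf N)} (hK : IsCompact K) :
    ∃ ζ : Conf N → ℝ, IsTest ζ ∧ ∀ x ∈ K, ζ x = 1 := by
  obtain ⟨R, hR⟩ := hK.isBounded.subset_closedBall (0 : Conf N)
  set b : ContDiffBump (0 : Conf N) := ⟨|R| + 1, |R| + 2, by positivity, by linarith⟩ with hb
  refine ⟨b, ⟨b.contDiff, b.hasCompactSupport⟩, fun x hx => ?_⟩
  apply b.one_of_mem_closedBall
  have h1 := hR hx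
  rw [Metric.mem_closedBall] at h1 ⊢
  have : b.rIn = |R| + 1 := rfl
  rw [this]
  have := le_abs_self R
  linarith

/-- The product of a form bounded potential and a Sobolev function is locally integrable. -/
lemma locInt {N : ℕ} {W : Conf N → ℝ} (hW : Adm W) {f : Conf N → ℂ}
    {D : Fin N × Fin 3 → Conf N → ℂ} (hf : Sob dir f D) (c : ℂ) :
    LocallyIntegrable (fun x => W x * ⟪f x, c⟫_ℝ) volume := by
  rw [locallyIntegrable_iff]
  intro K hK
  obtain ⟨ζ, hζ, h1⟩ := exists_test_one hK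
  have hg := sob_clm (test_sob hζ) ((ContinuousLinearMap.id ℝ ℝ).smulRight c)
  have h2 := (adm_cross hW hf hg).integrableOn (s := K)
  refine h2.congr_fun (fun x hx => ?_) hK.measurableSet
  simp only [ContinuousLinearMap.smulRight_apply, ContinuousLinearMap.coe_id', id, h1 x hx,
    one_smul]

end Pool.Agent.HK.Var

namespace Pool.Agent.HK

open Var

/-- JOB V. The variational argument. -/
theorem target_Var (hN : Target_NBody) : Target_Var := by
  intro n v₁ v₂ ρ hv₁ hv₂ ⟨γ₁, hγ₁, hρ₁⟩ ⟨γ₂, hγ₂, hρ₂⟩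
  have h1 : ∀ i, Adm (fun x : Conf (n + 1) => v₁ (x i)) := fun i => adm_eval hN hv₁ i
  have h2 : ∀ i, Adm (fun x : Conf (n + 1) => v₂ (x i)) := fun i => adm_eval hN hv₂ i
  have hc : Adm (fun x : Conf (n + 1) => coulomb x) := adm_coulomb hN
  have a1 : Adm (fun x : Conf (n + 1) => ext v₁ x + coulomb x) :=
    adm_add (adm_ext hN hv₁) hc
  have a2 : Adm (fun x : Conf (n + 1) => ext v₂ x + coulomb x) :=
    adm_add (adm_ext hN hv₂) hc
  have hE₁ : ∀ ψ : Wave (n + 1), ψ.normSq = 1 → γ₁.trace v₁ ≤ ψ.energy v₁ := by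
    intro ψ hψ
    have : groundEnergy (n + 1) v₁ ≤ ((ψ.energy v₁ : ℝ) : EReal) := iInf₂_le ψ hψ
    rw [← hγ₁] at this
    exact EReal.coe_le_coe_iff.1 this
  have hE₂ : ∀ ψ : Wave (n + 1), ψ.normSq = 1 → γ₂.trace v₂ ≤ ψ.energy v₂ := by
    intro ψ hψ
    have : groundEnergy (n + 1) v₂ ≤ ((ψ.energy v₂ : ℝ) : EReal) := iInf₂_le ψ hψ
    rw [← hγ₂] at this
    exact EReal.coe_le_coe_iff.1 this
  set E₁ := γ₁.trace v₁
  set E₂ := γ₂.trace v₂
  -- the trace of any density operator dominates the ground state energy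
  have lower : ∀ (v : E3 → ℝ) (E : ℝ) (γ : DensityOp (n + 1)),
      Adm (fun x : Conf (n + 1) => ext v x + coulomb x) →
      (∀ ψ : Wave (n + 1), ψ.normSq = 1 → E ≤ ψ.energy v) →
      HasSum (fun k => γ.p k * ((γ.ψ k).energy v - E)) (γ.trace v - E) := by
    intro v E γ ha hE
    have s1 := (summable_energy ha γ).hasSum
    have s2 := γ.sum_one.mul_right E
    have s3 := s1.sub s2
    rw [one_mul] at s3
    have e : (fun k => γ.p k * ((γ.ψ k).energy v - E)) =
        fun k => γ.p k * (γ.ψ k).energy v - γ.p k * E := by funext k; ring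
    rw [e]
    exact s3
  have nn : ∀ (v : E3 → ℝ) (E : ℝ) (γ : DensityOp (n + 1)),
      (∀ ψ : Wave (n + 1), ψ.normSq = 1 → E ≤ ψ.energy v) →
      ∀ k, 0 ≤ γ.p k * ((γ.ψ k).energy v - E) := fun v E γ hE k =>
    mul_nonneg (γ.nonneg k) (sub_nonneg.2 (hE _ (γ.normalized k)))
  have d1 := trace_diff h1 h2 hc γ₁
  have d2 := trace_diff h1 h2 hc γ₂
  have d3 : ∫ a, (v₂ a - v₁ a) * γ₁.density a = ∫ a, (v₂ a - v₁ a) * γ₂.density a := by
    refine integral_congr_ae ?_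
    filter_upwards [hρ₁, hρ₂] with a h3 h4
    rw [← h3, ← h4]
  have l1 : 0 ≤ γ₂.trace v₁ - E₁ := (lower v₁ E₁ γ₂ a1 hE₁).nonneg (nn v₁ E₁ γ₂ hE₁)
  have l2 : 0 ≤ γ₁.trace v₂ - E₂ := (lower v₂ E₂ γ₁ a2 hE₂).nonneg (nn v₂ E₂ γ₁ hE₂)
  have l3 : γ₁.trace v₂ = E₂ := by
    have : γ₁.trace v₂ - E₁ = E₂ - γ₂.trace v₁ := by rw [d1, d2, d3]
    linarith
  have z1 : ∀ k, γ₁.p k * ((γ₁.ψ k).energy v₁ - E₁) = 0 := by
    have h := lower v₁ E₁ γ₁ a1 hE₁
    rw [show γ₁.trace v₁ - E₁ = 0 from sub_self _] at h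
    have := (hasSum_zero_iff_of_nonneg (nn v₁ E₁ γ₁ hE₁)).1 h
    exact fun k => congrFun this k
  have z2 : ∀ k, γ₁.p k * ((γ₁.ψ k).energy v₂ - E₂) = 0 := by
    have h := lower v₂ E₂ γ₁ a2 hE₂
    rw [l3, sub_self] at h
    have := (hasSum_zero_iff_of_nonneg (nn v₂ E₂ γ₁ hE₂)).1 h
    exact fun k => congrFun this k
  obtain ⟨k, hk⟩ : ∃ k, γ₁.p k ≠ 0 := by
    by_contra hcon
    push Not at hcon
    have h := γ₁.sum_one
    have e : γ₁.p = fun _ => 0 := funext hcon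
    rw [e] at h
    exact zero_ne_one (hasSum_zero.unique h)
  set ψ := γ₁.ψ k with hψ
  have hψn : ψ.normSq = 1 := γ₁.normalized k
  have q1 : QW (fun x => ext v₁ x + coulomb x - E₁) ψ = 0 := by
    rw [← energy_eq a1, hψn, mul_one]
    exact (mul_eq_zero.1 (z1 k)).resolve_left hk
  have q2 : QW (fun x => ext v₂ x + coulomb x - E₂) ψ = 0 := by
    rw [← energy_eq a2, hψn, mul_one]
    exact (mul_eq_zero.1 (z2 k)).resolve_left hk
  have w1 : Adm (fun x : Conf (n + 1) => ext v₁ x + coulomb x - E₁) := adm_sub a1 (adm_const _)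
  have w2 : Adm (fun x : Conf (n + 1) => ext v₂ x + coulomb x - E₂) := adm_sub a2 (adm_const _)
  have p1 := hpos_of_min a1 hE₁
  have p2 := hpos_of_min a2 hE₂
  -- choose a nonzero real component
  obtain ⟨s₀, c, hne⟩ : ∃ (s₀ : Fin (n + 1) → Fin 2) (c : ℂ),
      ¬ ∀ᵐ x, ⟪ψ.toFun s₀ x, c⟫_ℝ = 0 := by
    by_contra hcon
    push Not at hcon
    have hz : ∀ s, ∀ᵐ x, ψ.toFun s x = 0 := by
      intro s
      filter_upwards [hcon s 1, hcon s Complex.I] with x hx hy
      apply Complex.ext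
      · simpa [Complex.inner] using hx
      · simpa [Complex.inner] using hy
    have : ψ.normSq = 0 := by
      unfold Wave.normSq
      refine Finset.sum_eq_zero fun s _ => ?_
      have : (fun x => ‖ψ.toFun s x‖ ^ 2) =ᵐ[volume] fun _ => (0 : ℝ) := by
        filter_upwards [hz s] with x hx
        rw [hx]; simp
      rw [integral_congr_ae this]; simp
    rw [this] at hψn
    exact zero_ne_one hψn
  have hL : ∀ z : ℂ, innerSL ℝ c z = ⟪z, c⟫_ℝ := fun z => by
    rw [innerSL_apply_apply, real_inner_comm]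
  have hu : Sob dir (fun x => ⟪ψ.toFun s₀ x, c⟫_ℝ) (fun p x => ⟪ψ.grad s₀ p x, c⟫_ℝ) := by
    have := sob_clm (ψ.sob s₀) (innerSL ℝ c)
    simpa only [hL] using this
  have int1 : ∀ (f : Conf (n + 1) → ℝ) (D : Fin (n + 1) × Fin 3 → Conf (n + 1) → ℝ),
      Sob dir f D → ∀ W : Conf (n + 1) → ℝ, Adm W →
      Integrable (fun x => W x * (⟪ψ.toFun s₀ x, c⟫_ℝ * f x)) volume := by
    intro f D hf W hW
    have hg := sob_clm hf ((ContinuousLinearMap.id ℝ ℝ).smulRight c)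
    refine (adm_cross hW (ψ.sob s₀) hg).congr (Eventually.of_forall fun x => ?_)
    simp only [ContinuousLinearMap.smulRight_apply, ContinuousLinearMap.coe_id', id,
      inner_smul_right]
    ring
  have s1 : ∀ {v : E3 → ℝ} (σ : Equiv.Perm (Fin (n + 1))) (E : ℝ) (x : Conf (n + 1)),
      ext v (x ∘ σ) + coulomb (x ∘ σ) - E = ext v x + coulomb x - E := fun σ E x => by
    rw [ext_perm, coulomb_perm]
  have k1 := fun (f : Conf (n + 1) → ℝ) (D : Fin (n + 1) × Fin 3 → Conf (n + 1) → ℝ)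
    (hf : Sob dir f D) => weak_eq w1 (fun σ x => s1 σ E₁ x) p1 q1 s₀ c hf
  have k2 := fun (f : Conf (n + 1) → ℝ) (D : Fin (n + 1) × Fin 3 → Conf (n + 1) → ℝ)
    (hf : Sob dir f D) => weak_eq w2 (fun σ x => s1 σ E₂ x) p2 q2 s₀ c hf
  refine ⟨fun x => ⟪ψ.toFun s₀ x, c⟫_ℝ, fun p x => ⟪ψ.grad s₀ p x, c⟫_ℝ, E₁, E₁ - E₂, hu, hne,
    ?_, ?_⟩
  · intro η Dη hη _
    have h3 := k1 η Dη hη
    have h4 : ∫ x, (ext v₁ x + coulomb x - E₁) * (⟪ψ.toFun s₀ x, c⟫_ℝ * η x) =
        (∫ x, (ext v₁ x + coulomb x) * (⟪ψ.toFun s₀ x, c⟫_ℝ * η x)) -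
          E₁ * ∫ x, ⟪ψ.toFun s₀ x, c⟫_ℝ * η x := by
      rw [← integral_const_mul, ← integral_sub (int1 η Dη hη _ a1)
        (int1 η Dη hη _ (adm_const E₁))]
      refine integral_congr_ae (Eventually.of_forall fun x => ?_)
      simp only
      ring
    rw [h4] at h3
    linarith
  · have w3 : Adm (fun x : Conf (n + 1) => ext v₁ x - ext v₂ x - (E₁ - E₂)) :=
      adm_sub (adm_sub (adm_ext hN hv₁) (adm_ext hN hv₂)) (adm_const _)
    refine ae_eq_zero_of_integral_contDiff_smul_eq_zero (locInt w3 (ψ.sob s₀) c) ?_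
    intro ζ hζ1 hζ2
    have hζ := test_sob (N := n + 1) ⟨hζ1, hζ2⟩
    have h3 := k1 ζ _ hζ
    have h4 := k2 ζ _ hζ
    have h5 : ∫ x, ζ x • ((ext v₁ x - ext v₂ x - (E₁ - E₂)) * ⟪ψ.toFun s₀ x, c⟫_ℝ) =
        (∫ x, (ext v₁ x + coulomb x - E₁) * (⟪ψ.toFun s₀ x, c⟫_ℝ * ζ x)) -
          ∫ x, (ext v₂ x + coulomb x - E₂) * (⟪ψ.toFun s₀ x, c⟫_ℝ * ζ x) := by
      rw [← integral_sub (int1 ζ _ hζ _ w1) (int1 ζ _ hζ _ w2)]
      refine integral_congr_ae (Eventually.of_forall fun x => ?_)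
      simp only [smul_eq_mul]
      ring
    rw [h5]
    linarith

end Pool.Agent.HK
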