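import Pool.Agent.HK.Spec

/-!
# Tools for the variational argument

Algebra of the Sobolev spaces, change of variables by a permutation of the particles, uniqueness
of weak derivatives.
-/

open MeasureTheory Set Filter Topology
open scoped ENNReal NNReal InnerProductSpace

namespace Pool.Agent.HK.Var

section general

set_option linter.unusedSectionVars false

variable {E F F' ι : Type*} [NormedAddCommGroup E] [NormedSpace ℝ E] [FiniteDimensional ℝ E]
  [MeasureSpace E] [BorelSpace E] [(volume : Measure E).IsAddHaarMeasure]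
  [NormedAddCommGroup F] [NormedSpace ℝ F] [NormedAddCommGroup F'] [NormedSpace ℝ F']

lemma test_fderiv_cont {ζ : E → ℝ} (hζ : IsTest ζ) (e : E) :
    Continuous fun x => fderiv ℝ ζ x e :=
  (hζ.1.continuous_fderiv (by simp)).clm_apply continuous_const

lemma test_fderiv_supp {ζ : E → ℝ} (hζ : IsTest ζ) (e : E) :
    HasCompactSupport fun x => fderiv ℝ ζ x e := by
  have h := hζ.2.fderiv (𝕜 := ℝ)
  exact h.comp_left (g := fun L : E →L[ℝ] ℝ => L e) (by simp)

lemma test_memLp {ζ : E → ℝ} (hζ : IsTest ζ) (p : ℝ≥0∞) : MemLp ζ p volume :=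
  hζ.1.continuous.memLp_of_hasCompactSupport hζ.2

lemma test_fderiv_memLp {ζ : E → ℝ} (hζ : IsTest ζ) (e : E) (p : ℝ≥0∞) :
    MemLp (fun x => fderiv ℝ ζ x e) p volume :=
  (test_fderiv_cont hζ e).memLp_of_hasCompactSupport (test_fderiv_supp hζ e)

lemma int_smul {f : E → ℝ} {u : E → F} (hf : MemLp f 2 volume) (hu : MemLp u 2 volume) :
    Integrable (fun x => f x • u x) volume := by
  have := hu.smul (r := 1) hf
  exact (memLp_one_iff_integrable).1 this

lemma int_test {ζ : E → ℝ} (hζ : IsTest ζ) {u : E → F} (hu : MemLp u 2 volume) :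
    Integrable (fun x => ζ x • u x) volume := int_smul (test_memLp hζ 2) hu

lemma int_test' {ζ : E → ℝ} (hζ : IsTest ζ) (e : E) {u : E → F} (hu : MemLp u 2 volume) :
    Integrable (fun x => fderiv ℝ ζ x e • u x) volume := int_smul (test_fderiv_memLp hζ e 2) hu

lemma integral_comb {f g : E → F} (hf : Integrable f volume) (hg : Integrable g volume)
    (a b : ℝ) : ∫ x, (a • f x + b • g x) = a • (∫ x, f x) + b • ∫ x, g x := by
  have h := integral_add (hf.smul a) (hg.smul b)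
  simp only [Pi.smul_apply] at h
  rw [h, integral_smul, integral_smul]

lemma sob_comb {e : ι → E} {u u' : E → F} {D D' : ι → E → F} (h : Sob e u D) (h' : Sob e u' D')
    (a b : ℝ) : Sob e (fun x => a • u x + b • u' x) (fun i x => a • D i x + b • D' i x) where
  memLp := (h.memLp.const_smul a).add (h'.memLp.const_smul b)
  memLp_grad i := ((h.memLp_grad i).const_smul a).add ((h'.memLp_grad i).const_smul b)
  weak i ζ hζ := by
    have e1 : ∀ x, (fderiv ℝ ζ x (e i)) • (a • u x + b • u' x) =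
        a • ((fderiv ℝ ζ x (e i)) • u x) + b • ((fderiv ℝ ζ x (e i)) • u' x) := fun x => by
      rw [smul_add, smul_comm a, smul_comm b]
    have e2 : ∀ x, ζ x • (a • D i x + b • D' i x) =
        a • (ζ x • D i x) + b • (ζ x • D' i x) := fun x => by
      rw [smul_add, smul_comm a, smul_comm b]
    simp only [e1, e2]
    rw [integral_comb (int_test' hζ (e i) h.memLp) (int_test' hζ (e i) h'.memLp),
      integral_comb (int_test hζ (h.memLp_grad i)) (int_test hζ (h'.memLp_grad i)),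
      h.weak i ζ hζ, h'.weak i ζ hζ]
    simp only [smul_neg]
    abel

lemma sob_zero (e : ι → E) : Sob e (fun _ => (0 : F)) (fun _ _ => (0 : F)) where
  memLp := MemLp.zero'
  memLp_grad i := MemLp.zero'
  weak i ζ hζ := by simp

lemma sob_add {e : ι → E} {u u' : E → F} {D D' : ι → E → F} (h : Sob e u D) (h' : Sob e u' D') :
    Sob e (fun x => u x + u' x) (fun i x => D i x + D' i x) := by
  simpa using sob_comb h h' 1 1

lemma sob_smul {e : ι → E} {u : E → F} {D : ι → E → F} (h : Sob e u D) (a : ℝ) :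
    Sob e (fun x => a • u x) (fun i x => a • D i x) := by
  simpa using sob_comb h h a 0

lemma sob_sum {κ : Type*} (s : Finset κ) {e : ι → E} {u : κ → E → F} {D : κ → ι → E → F}
    (h : ∀ k ∈ s, Sob e (u k) (D k)) :
    Sob e (fun x => ∑ k ∈ s, u k x) (fun i x => ∑ k ∈ s, D k i x) := by
  classical
  induction s using Finset.induction_on with
  | empty => simpa using sob_zero e
  | insert k s hk ih =>
    have h1 := h k (Finset.mem_insert_self _ _)
    have h2 := ih fun j hj => h j (Finset.mem_insert_of_mem hj)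
    simpa only [Finset.sum_insert hk] using sob_add h1 h2

lemma sob_clm [CompleteSpace F] [CompleteSpace F'] {e : ι → E} {u : E → F} {D : ι → E → F}
    (h : Sob e u D) (L : F →L[ℝ] F') : Sob e (fun x => L (u x)) (fun i x => L (D i x)) where
  memLp := L.comp_memLp' h.memLp
  memLp_grad i := L.comp_memLp' (h.memLp_grad i)
  weak i ζ hζ := by
    simp only [← L.map_smul]
    rw [L.integral_comp_comm (int_test' hζ (e i) h.memLp),
      L.integral_comp_comm (int_test hζ (h.memLp_grad i)), h.weak i ζ hζ, map_neg]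

lemma weak_unique [CompleteSpace F] {u g g' : E → F} {e : E} (hg : MemLp g 2 volume)
    (hg' : MemLp g' 2 volume) (h : WeakDeriv u e g) (h' : WeakDeriv u e g') :
    ∀ᵐ x, g x = g' x := by
  have h0 : ∀ᵐ x, (fun x => g x - g' x) x = 0 := by
    refine ae_eq_zero_of_integral_contDiff_smul_eq_zero ?_ ?_
    · exact (hg.sub hg').locallyIntegrable (by norm_num)
    · intro ζ h1 h2
      have hζ : IsTest ζ := ⟨h1, h2⟩
      simp only [smul_sub]
      rw [integral_sub (int_test hζ hg) (int_test hζ hg')]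
      have a1 := h ζ hζ
      have a2 := h' ζ hζ
      rw [a1, neg_inj] at a2
      rw [a2, sub_self]
  filter_upwards [h0] with x hx
  exact sub_eq_zero.1 hx

end general

section perm

variable {N : ℕ}

/-- Permutation of the particles. -/
noncomputable def permL (σ : Equiv.Perm (Fin N)) : Conf N ≃L[ℝ] Conf N :=
  (LinearEquiv.funCongrLeft ℝ E3 σ).toContinuousLinearEquiv

lemma permL_apply (σ : Equiv.Perm (Fin N)) (x : Conf N) : permL σ x = x ∘ σ := rfl

lemma permL_symm_apply (σ : Equiv.Perm (Fin N)) (x : Conf N) :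
    (permL σ).symm x = x ∘ ⇑(σ⁻¹) := rfl

lemma mp_perm (σ : Equiv.Perm (Fin N)) :
    MeasurePreserving (fun x : Conf N => x ∘ σ) volume volume := by
  have h := volume_measurePreserving_piCongrLeft (fun _ : Fin N => E3) σ.symm
  have e : (fun x : Conf N => x ∘ σ) =
      ⇑(MeasurableEquiv.piCongrLeft (fun _ : Fin N => E3) σ.symm) := by
    ext x i
    rw [MeasurableEquiv.coe_piCongrLeft]
    have := Equiv.piCongrLeft_apply_apply (P := fun _ : Fin N => E3) (e := σ.symm) x (σ i)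
    rw [Equiv.symm_apply_apply] at this
    rw [this]
    rfl
  rw [e]
  exact h

lemma me_perm (σ : Equiv.Perm (Fin N)) : MeasurableEmbedding (fun x : Conf N => x ∘ σ) :=
  (permL σ).toHomeomorph.measurableEmbedding

lemma integral_perm {F : Type*} [NormedAddCommGroup F] [NormedSpace ℝ F] (σ : Equiv.Perm (Fin N))
    (f : Conf N → F) : ∫ x : Conf N, f (x ∘ σ) = ∫ x, f x :=
  (mp_perm σ).integral_comp (me_perm σ) f

lemma dir_perm (σ : Equiv.Perm (Fin N)) (p : Fin N × Fin 3) :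
    (dir p : Conf N) ∘ σ = dir (σ⁻¹ p.1, p.2) := by
  funext j
  simp only [dir, Function.comp]
  by_cases h : σ j = p.1
  · have h' : j = σ⁻¹ p.1 := by rw [← h]; simp
    subst h'
    simp
  · have h' : j ≠ σ⁻¹ p.1 := by
      intro h2
      apply h
      rw [h2]; simp
    rw [Pi.single_eq_of_ne h, Pi.single_eq_of_ne h']

lemma weak_perm {F : Type*} [NormedAddCommGroup F] [NormedSpace ℝ F] (σ : Equiv.Perm (Fin N))
    {u g : Conf N → F} {e : Conf N} (h : WeakDeriv u (e ∘ σ) g) :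
    WeakDeriv (fun x => u (x ∘ σ)) e (fun x => g (x ∘ σ)) := by
  intro ζ hζ
  set ζ' : Conf N → ℝ := fun y => ζ (y ∘ ⇑(σ⁻¹)) with hζ'
  have hinv : ∀ x : Conf N, (x ∘ ⇑σ) ∘ ⇑(σ⁻¹) = x := fun x => by
    funext i; simp
  have ht : IsTest ζ' := by
    refine ⟨hζ.1.comp (permL σ).symm.contDiff, ?_⟩
    exact hζ.2.comp_homeomorph (permL σ).symm.toHomeomorph
  have hd : ∀ x : Conf N, fderiv ℝ ζ' (x ∘ σ) (e ∘ σ) = fderiv ℝ ζ x e := by
    intro x
    have h1 : HasFDerivAt ζ (fderiv ℝ ζ x) ((permL σ).symm (x ∘ σ)) := by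
      have : (permL σ).symm (x ∘ σ) = x := hinv x
      rw [this]
      exact ((hζ.1.differentiable (by simp)) x).hasFDerivAt
    have h2 := h1.comp (x ∘ σ) ((permL σ).symm : Conf N →L[ℝ] Conf N).hasFDerivAt
    have h3 : HasFDerivAt ζ' _ (x ∘ σ) := h2
    rw [h3.fderiv]
    show fderiv ℝ ζ x ((permL σ).symm (e ∘ σ)) = _
    rw [permL_symm_apply, hinv]
  have h0 := h ζ' ht
  have e1 : ∫ x : Conf N, (fderiv ℝ ζ x e) • u (x ∘ σ) =
      ∫ y : Conf N, (fderiv ℝ ζ' y (e ∘ σ)) • u y := by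
    rw [← integral_perm σ (fun y => (fderiv ℝ ζ' y (e ∘ σ)) • u y)]
    simp only [hd]
  have e2 : ∫ x : Conf N, ζ x • g (x ∘ σ) = ∫ y : Conf N, ζ' y • g y := by
    rw [← integral_perm σ (fun y => ζ' y • g y)]
    simp only [hζ', hinv]
  rw [e1, e2, h0]

lemma sob_perm {F : Type*} [NormedAddCommGroup F] [NormedSpace ℝ F] (σ : Equiv.Perm (Fin N))
    {u : Conf N → F} {D : Fin N × Fin 3 → Conf N → F} (h : Sob dir u D) :
    Sob dir (fun x => u (x ∘ σ)) (fun p x => D (σ⁻¹ p.1, p.2) (x ∘ σ)) where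
  memLp := h.memLp.comp_measurePreserving (mp_perm σ)
  memLp_grad p := (h.memLp_grad _).comp_measurePreserving (mp_perm σ)
  weak p := by
    apply weak_perm
    rw [dir_perm]
    exact h.weak _

end perm

section adm

variable {N : ℕ}

/-- The square of the `H¹` norm. -/
noncomputable def tot {F : Type*} [NormedAddCommGroup F] (f : Conf N → F)
    (D : Fin N × Fin 3 → Conf N → F) : ℝ≥0∞ :=
  (∑ p, ∫⁻ x, ‖D p x‖ₑ ^ 2) + ∫⁻ x, ‖f x‖ₑ ^ 2

lemma lint_sq_lt_top {E F : Type*} [MeasureSpace E] [NormedAddCommGroup F] {f : E → F}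
    (hf : MemLp f 2 volume) : ∫⁻ x, ‖f x‖ₑ ^ 2 < ⊤ := by
  have h := hf.2
  rw [eLpNorm_lt_top_iff_lintegral_rpow_enorm_lt_top (by norm_num) (by norm_num)] at h
  simpa using h

lemma tot_lt_top {F : Type*} [NormedAddCommGroup F] [NormedSpace ℝ F] {f : Conf N → F}
    {D : Fin N × Fin 3 → Conf N → F} (h : Sob dir f D) : tot f D < ⊤ := by
  refine ENNReal.add_lt_top.2 ⟨?_, lint_sq_lt_top h.memLp⟩
  exact ENNReal.sum_lt_top.2 fun p _ => lint_sq_lt_top (h.memLp_grad p)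

/-- A potential which is form bounded. -/
def Adm {N : ℕ} (W : Conf N → ℝ) : Prop :=
  AEStronglyMeasurable W volume ∧ ∃ C : ℝ≥0, ∀ (f : Conf N → ℂ)
    (D : Fin N × Fin 3 → Conf N → ℂ), Sob dir f D →
      ∫⁻ x, ‖W x‖ₑ * ‖f x‖ₑ ^ 2 ≤ C * tot f D

lemma enorm_sq_complex (z : ℂ) : ‖z‖ₑ ^ 2 = ‖z.re‖ₑ ^ 2 + ‖z.im‖ₑ ^ 2 := by
  have h1 : ‖z‖ ^ 2 = ‖z.re‖ ^ 2 + ‖z.im‖ ^ 2 := by
    rw [Complex.sq_norm, Complex.normSq_apply, Real.norm_eq_abs, Real.norm_eq_abs, sq_abs, sq_abs]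
    ring
  rw [← ofReal_norm z, ← ofReal_norm z.re, ← ofReal_norm z.im,
    ← ENNReal.ofReal_pow (norm_nonneg _), ← ENNReal.ofReal_pow (norm_nonneg _),
    ← ENNReal.ofReal_pow (norm_nonneg _), ← ENNReal.ofReal_add (by positivity) (by positivity), h1]

lemma adm_of_real {W : Conf N → ℝ} (hW : AEStronglyMeasurable W volume) (C : ℝ≥0)
    (h : ∀ (f : Conf N → ℝ) (D : Fin N × Fin 3 → Conf N → ℝ), Sob dir f D →
      ∫⁻ x, ‖W x‖ₑ * ‖f x‖ₑ ^ 2 ≤ C * tot f D) : Adm W := by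
  refine ⟨hW, C, fun f D hf => ?_⟩
  have hre := sob_clm hf Complex.reCLM
  have him := sob_clm hf Complex.imCLM
  have h1 := h _ _ hre
  have h2 := h _ _ him
  have e1 : tot f D = tot (fun x => Complex.reCLM (f x)) (fun i x => Complex.reCLM (D i x)) +
      tot (fun x => Complex.imCLM (f x)) (fun i x => Complex.imCLM (D i x)) := by
    have key : ∀ g : Conf N → ℂ, MemLp g 2 volume → ∫⁻ x, ‖g x‖ₑ ^ 2 =
        (∫⁻ x, ‖Complex.reCLM (g x)‖ₑ ^ 2) + ∫⁻ x, ‖Complex.imCLM (g x)‖ₑ ^ 2 := by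
      intro g hg
      have hmg : AEMeasurable (fun x => ‖Complex.reCLM (g x)‖ₑ ^ 2) volume :=
        (Complex.reCLM.comp_memLp' hg).1.enorm.pow_const 2
      rw [← lintegral_add_left' hmg]
      refine lintegral_congr fun x => ?_
      simpa using enorm_sq_complex (g x)
    unfold tot
    rw [key f hf.memLp, Finset.sum_congr rfl fun p _ => key (D p) (hf.memLp_grad p),
      Finset.sum_add_distrib]
    ring
  rw [e1, mul_add]
  refine le_trans ?_ (add_le_add h1 h2)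
  have hm1 : AEMeasurable (fun x => ‖W x‖ₑ * ‖Complex.reCLM (f x)‖ₑ ^ 2) volume :=
    hW.enorm.mul (hre.memLp.1.enorm.pow_const 2)
  rw [← lintegral_add_left' hm1]
  refine lintegral_mono fun x => ?_
  rw [← mul_add]
  gcongr
  exact (enorm_sq_complex (f x)).le

lemma adm_zero : Adm (fun _ : Conf N => (0 : ℝ)) := by
  refine ⟨aestronglyMeasurable_const, 0, fun f D hf => by simp⟩

lemma adm_const (c : ℝ) : Adm (fun _ : Conf N => c) := by
  refine ⟨aestronglyMeasurable_const, ‖c‖₊, fun f D hf => ?_⟩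
  rw [lintegral_const_mul'' _ (hf.memLp.1.enorm.pow_const 2)]
  have : (‖c‖₊ : ℝ≥0∞) = ‖c‖ₑ := rfl
  rw [this]
  gcongr
  exact le_add_self

lemma adm_add {W W' : Conf N → ℝ} (h : Adm W) (h' : Adm W') : Adm (fun x => W x + W' x) := by
  obtain ⟨hm, C, hC⟩ := h
  obtain ⟨hm', C', hC'⟩ := h'
  refine ⟨hm.add hm', C + C', fun f D hf => ?_⟩
  rw [ENNReal.coe_add, add_mul]
  refine le_trans ?_ (add_le_add (hC f D hf) (hC' f D hf))
  have hm1 : AEMeasurable (fun x => ‖W x‖ₑ * ‖f x‖ₑ ^ 2) volume :=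
    hm.enorm.mul (hf.memLp.1.enorm.pow_const 2)
  rw [← lintegral_add_left' hm1]
  refine lintegral_mono fun x => ?_
  rw [← add_mul]
  gcongr
  exact enorm_add_le _ _

lemma adm_neg {W : Conf N → ℝ} (h : Adm W) : Adm (fun x => - W x) := by
  obtain ⟨hm, C, hC⟩ := h
  refine ⟨hm.neg, C, fun f D hf => ?_⟩
  simpa using hC f D hf

lemma adm_sub {W W' : Conf N → ℝ} (h : Adm W) (h' : Adm W') : Adm (fun x => W x - W' x) := by
  simpa [sub_eq_add_neg] using adm_add h (adm_neg h')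

lemma adm_sum {κ : Type*} (s : Finset κ) {W : κ → Conf N → ℝ} (h : ∀ k ∈ s, Adm (W k)) :
    Adm (fun x => ∑ k ∈ s, W k x) := by
  classical
  induction s using Finset.induction_on with
  | empty => simpa using adm_zero
  | insert k s hk ih =>
    have h1 := h k (Finset.mem_insert_self _ _)
    have h2 := ih fun j hj => h j (Finset.mem_insert_of_mem hj)
    simpa only [Finset.sum_insert hk] using adm_add h1 h2

lemma xstar_aesm {v : E3 → ℝ} (hv : XStar v) : AEStronglyMeasurable v volume := by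
  obtain ⟨f, g, hf, hg, rfl⟩ := hv
  exact hf.1.add hg.1

lemma eval_aesm {v : E3 → ℝ} (hv : AEStronglyMeasurable v volume) (i : Fin N) :
    AEStronglyMeasurable (fun x : Conf N => v (x i)) volume :=
  hv.comp_quasiMeasurePreserving (Measure.quasiMeasurePreserving_eval _ i)

lemma adm_eval (hN : Target_NBody) {v : E3 → ℝ} (hv : XStar v) (i : Fin N) :
    Adm (fun x : Conf N => v (x i)) := by
  obtain ⟨C, hC⟩ := (hN N).1 v hv 1 one_pos
  refine adm_of_real (eval_aesm (xstar_aesm hv) i) (1 + C) fun f D hf => ?_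
  refine (hC f D hf i).trans ?_
  rw [ENNReal.coe_add, add_mul, tot]
  refine add_le_add ?_ ?_
  · gcongr
    refine le_trans ?_ le_self_add
    rw [Fintype.sum_prod_type]
    exact Finset.single_le_sum (f := fun i : Fin N => ∑ a, ∫⁻ x, ‖D (i, a) x‖ₑ ^ 2)
      (fun _ _ => zero_le) (Finset.mem_univ i)
  · gcongr
    exact le_add_self

lemma adm_ext (hN : Target_NBody) {v : E3 → ℝ} (hv : XStar v) :
    Adm (fun x : Conf N => ext v x) :=
  adm_sum Finset.univ fun i _ => adm_eval hN hv i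

lemma inv_bound (x : E3) : ‖(‖x‖⁻¹ : ℝ)‖ₑ ≤ 1 + (‖x‖ₑ ^ 2)⁻¹ := by
  by_cases h : x = 0
  · subst h; simp
  · have hx : 0 < ‖x‖ := norm_pos_iff.2 h
    have h1 : ‖x‖⁻¹ ≤ 1 + (‖x‖ ^ 2)⁻¹ := by
      rcases le_total 1 ‖x‖ with h2 | h2
      · have : ‖x‖⁻¹ ≤ 1 := inv_le_one_of_one_le₀ h2
        have : 0 ≤ (‖x‖ ^ 2)⁻¹ := by positivity
        linarith
      · have : ‖x‖⁻¹ ≤ (‖x‖ ^ 2)⁻¹ := by
          apply inv_anti₀ (by positivity)
          nlinarith
        linarith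
    rw [Real.enorm_eq_ofReal (by positivity)]
    refine (ENNReal.ofReal_le_ofReal h1).trans ?_
    rw [ENNReal.ofReal_add (by norm_num) (by positivity), ENNReal.ofReal_one,
      ENNReal.ofReal_inv_of_pos (by positivity), ENNReal.ofReal_pow hx.le, ofReal_norm]

lemma adm_pair (hN : Target_NBody) {i j : Fin N} (hij : i ≠ j) :
    Adm (fun x : Conf N => ‖x i - x j‖⁻¹) := by
  have hm : Measurable (fun x : Conf N => ‖x i - x j‖⁻¹) :=
    (((measurable_pi_apply i).sub (measurable_pi_apply j)).norm).inv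
  refine adm_of_real hm.aestronglyMeasurable (1 + 4) fun f D hf => ?_
  have h := (hN N).2.2 f D hf i j hij
  have h1 : ∫⁻ x : Conf N, ‖(‖x i - x j‖⁻¹ : ℝ)‖ₑ * ‖f x‖ₑ ^ 2 ≤
      (∫⁻ x, ‖f x‖ₑ ^ 2) + ∫⁻ x : Conf N, ‖f x‖ₑ ^ 2 / ‖x i - x j‖ₑ ^ 2 := by
    rw [← lintegral_add_left' (hf.memLp.1.enorm.pow_const 2)]
    refine lintegral_mono fun x => ?_
    calc ‖(‖x i - x j‖⁻¹ : ℝ)‖ₑ * ‖f x‖ₑ ^ 2 ≤ (1 + (‖x i - x j‖ₑ ^ 2)⁻¹) * ‖f x‖ₑ ^ 2 := by
          gcongr
          exact inv_bound _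
      _ = _ := by
          rw [add_mul, one_mul, div_eq_mul_inv, mul_comm (_⁻¹)]
  refine h1.trans ?_
  rw [ENNReal.coe_add, add_mul, tot]
  refine add_le_add ?_ (h.trans ?_)
  · rw [ENNReal.coe_one, one_mul]
    exact le_add_self
  · have : ((4 : ℝ≥0) : ℝ≥0∞) = 4 := rfl
    rw [this]
    gcongr
    refine le_trans ?_ le_self_add
    rw [Fintype.sum_prod_type]
    exact Finset.single_le_sum (f := fun i : Fin N => ∑ a, ∫⁻ x, ‖D (i, a) x‖ₑ ^ 2)
      (fun _ _ => zero_le) (Finset.mem_univ i)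

lemma adm_coulomb (hN : Target_NBody) : Adm (fun x : Conf N => coulomb x) := by
  refine adm_sum Finset.univ fun i _ => adm_sum Finset.univ fun j _ => ?_
  by_cases h : i < j
  · simpa [h] using adm_pair hN h.ne
  · simpa [h] using adm_zero

lemma adm_lint {W : Conf N → ℝ} (h : Adm W) {f : Conf N → ℂ}
    {D : Fin N × Fin 3 → Conf N → ℂ} (hf : Sob dir f D) :
    Integrable (fun x => W x * ‖f x‖ ^ 2) volume := by
  obtain ⟨hm, C, hC⟩ := h
  refine ⟨hm.mul (hf.memLp.1.norm.pow 2), ?_⟩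
  refine lt_of_le_of_lt (le_trans (le_of_eq ?_) (hC f D hf))
    (ENNReal.mul_lt_top ENNReal.coe_lt_top (tot_lt_top hf))
  refine lintegral_congr fun x => ?_
  rw [enorm_mul, enorm_pow, enorm_norm]

lemma adm_cross {W : Conf N → ℝ} (h : Adm W) {f g : Conf N → ℂ}
    {D D' : Fin N × Fin 3 → Conf N → ℂ} (hf : Sob dir f D) (hg : Sob dir g D') :
    Integrable (fun x => W x * ⟪f x, g x⟫_ℝ) volume := by
  refine ((adm_lint h hf).norm.add (adm_lint h hg).norm).mono'
    (h.1.mul (hf.memLp.1.inner hg.memLp.1)) (Eventually.of_forall fun x => ?_)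
  simp only [Pi.add_apply, norm_mul, norm_pow, norm_norm]
  rw [← mul_add]
  gcongr
  have h1 := norm_inner_le_norm (𝕜 := ℝ) (f x) (g x)
  nlinarith [sq_nonneg (‖f x‖ - ‖g x‖), sq_nonneg (‖f x‖ + ‖g x‖)]

/-- Real version of the `H¹` norm. -/
noncomputable def totR {F : Type*} [NormedAddCommGroup F] (f : Conf N → F)
    (D : Fin N × Fin 3 → Conf N → F) : ℝ :=
  (∑ p, ∫ x, ‖D p x‖ ^ 2) + ∫ x, ‖f x‖ ^ 2

lemma integral_sq {E F : Type*} [MeasureSpace E] [NormedAddCommGroup F] {f : E → F}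
    (hf : MemLp f 2 volume) : ENNReal.ofReal (∫ x, ‖f x‖ ^ 2) = ∫⁻ x, ‖f x‖ₑ ^ 2 := by
  rw [ofReal_integral_eq_lintegral_ofReal (hf.integrable_norm_pow (by norm_num))
    (Eventually.of_forall fun x => by positivity)]
  refine lintegral_congr fun x => ?_
  rw [ENNReal.ofReal_pow (norm_nonneg _), ofReal_norm]

lemma tot_eq {F : Type*} [NormedAddCommGroup F] [NormedSpace ℝ F] {f : Conf N → F}
    {D : Fin N × Fin 3 → Conf N → F} (h : Sob dir f D) : tot f D = ENNReal.ofReal (totR f D) := by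
  unfold tot totR
  rw [ENNReal.ofReal_add (Finset.sum_nonneg fun _ _ => by positivity) (by positivity),
    ENNReal.ofReal_sum_of_nonneg fun _ _ => by positivity, integral_sq h.memLp]
  congr 1
  exact Finset.sum_congr rfl fun p _ => (integral_sq (h.memLp_grad p)).symm

lemma adm_bound {W : Conf N → ℝ} (h : Adm W) : ∃ C : ℝ, 0 ≤ C ∧ ∀ (f : Conf N → ℂ)
    (D : Fin N × Fin 3 → Conf N → ℂ), Sob dir f D →
      ∫ x, |W x| * ‖f x‖ ^ 2 ≤ C * totR f D := by
  obtain ⟨C, hC⟩ := h.2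
  refine ⟨C, C.2, fun f D hf => ?_⟩
  have h0 : 0 ≤ totR f D := by unfold totR; positivity
  have h1 := hC f D hf
  have h2 : Integrable (fun x => |W x| * ‖f x‖ ^ 2) volume := by
    have := (adm_lint h hf).norm
    simpa [norm_mul] using this
  rw [tot_eq hf] at h1
  have h3 : ENNReal.ofReal (∫ x, |W x| * ‖f x‖ ^ 2) ≤ ENNReal.ofReal (C * totR f D) := by
    rw [ofReal_integral_eq_lintegral_ofReal h2 (Eventually.of_forall fun x => by positivity),
      ENNReal.ofReal_mul (NNReal.coe_nonneg C), ENNReal.ofReal_coe_nnreal]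
    refine le_trans (le_of_eq ?_) h1
    refine lintegral_congr fun x => ?_
    rw [ENNReal.ofReal_mul (abs_nonneg _), ENNReal.ofReal_pow (norm_nonneg _), ofReal_norm,
      ← Real.norm_eq_abs, ofReal_norm]
  exact (ENNReal.ofReal_le_ofReal_iff (mul_nonneg C.2 h0)).1 h3

end adm

section form

variable {N : ℕ}

/-- The bilinear form with potential `W`. -/
noncomputable def form (W : Conf N → ℝ) (f : Conf N → ℂ) (D : Fin N × Fin 3 → Conf N → ℂ)
    (g : Conf N → ℂ) (D' : Fin N × Fin 3 → Conf N → ℂ) : ℝ :=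
  1 / 2 * (∑ p, ∫ x, ⟪D p x, D' p x⟫_ℝ) + ∫ x, W x * ⟪f x, g x⟫_ℝ

lemma inner_int {f g : Conf N → ℂ} (hf : MemLp f 2 volume) (hg : MemLp g 2 volume) :
    Integrable (fun x => ⟪f x, g x⟫_ℝ) volume := by
  refine ((hf.integrable_norm_pow (by norm_num)).add
    (hg.integrable_norm_pow (by norm_num))).mono' (hf.1.inner hg.1)
    (Eventually.of_forall fun x => ?_)
  simp only [Pi.add_apply]
  have h1 := norm_inner_le_norm (𝕜 := ℝ) (f x) (g x)
  nlinarith [sq_nonneg (‖f x‖ - ‖g x‖), sq_nonneg (‖f x‖ + ‖g x‖)]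

lemma quad {W : Conf N → ℝ} {u u' : Conf N → ℂ} (h1 : Integrable (fun x => W x * ⟪u x, u x⟫_ℝ))
    (h2 : Integrable (fun x => W x * ⟪u x, u' x⟫_ℝ))
    (h3 : Integrable (fun x => W x * ⟪u' x, u' x⟫_ℝ)) (a b : ℝ) :
    ∫ x, W x * ⟪a • u x + b • u' x, a • u x + b • u' x⟫_ℝ =
      a ^ 2 * (∫ x, W x * ⟪u x, u x⟫_ℝ) + 2 * a * b * (∫ x, W x * ⟪u x, u' x⟫_ℝ) +
        b ^ 2 * ∫ x, W x * ⟪u' x, u' x⟫_ℝ := by
  have e : ∀ x, W x * ⟪a • u x + b • u' x, a • u x + b • u' x⟫_ℝ =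
      (a ^ 2 * (W x * ⟪u x, u x⟫_ℝ) + 2 * a * b * (W x * ⟪u x, u' x⟫_ℝ)) +
        b ^ 2 * (W x * ⟪u' x, u' x⟫_ℝ) := by
    intro x
    rw [inner_add_left, inner_add_right, inner_add_right, inner_smul_left, inner_smul_left,
      inner_smul_right, inner_smul_right, inner_smul_left, inner_smul_left, inner_smul_right,
      inner_smul_right, real_inner_comm (u x) (u' x)]
    simp only [conj_trivial]
    ring
  simp only [e]
  have hA : Integrable (fun x => a ^ 2 * (W x * ⟪u x, u x⟫_ℝ) +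
      2 * a * b * (W x * ⟪u x, u' x⟫_ℝ)) volume := (h1.const_mul _).add (h2.const_mul _)
  rw [integral_add hA (h3.const_mul _),
    integral_add (h1.const_mul _) (h2.const_mul _), integral_const_mul, integral_const_mul,
    integral_const_mul]

lemma form_comb {W : Conf N → ℝ} (hW : Adm W) {f g : Conf N → ℂ}
    {D D' : Fin N × Fin 3 → Conf N → ℂ} (hf : Sob dir f D) (hg : Sob dir g D') (a b : ℝ) :
    form W (fun x => a • f x + b • g x) (fun p x => a • D p x + b • D' p x)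
      (fun x => a • f x + b • g x) (fun p x => a • D p x + b • D' p x) =
      a ^ 2 * form W f D f D + 2 * a * b * form W f D g D' + b ^ 2 * form W g D' g D' := by
  unfold form
  rw [quad (adm_cross hW hf hf) (adm_cross hW hf hg) (adm_cross hW hg hg)]
  have key : ∀ p, ∫ x, ⟪a • D p x + b • D' p x, a • D p x + b • D' p x⟫_ℝ =
      a ^ 2 * (∫ x, ⟪D p x, D p x⟫_ℝ) + 2 * a * b * (∫ x, ⟪D p x, D' p x⟫_ℝ) +
        b ^ 2 * ∫ x, ⟪D' p x, D' p x⟫_ℝ := by
    intro p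
    have := quad (W := fun _ => (1 : ℝ)) (u := D p) (u' := D' p)
      (by simpa using inner_int (hf.memLp_grad p) (hf.memLp_grad p))
      (by simpa using inner_int (hf.memLp_grad p) (hg.memLp_grad p))
      (by simpa using inner_int (hg.memLp_grad p) (hg.memLp_grad p)) a b
    simpa only [one_mul] using this
  rw [Finset.sum_congr rfl fun p _ => key p]
  simp only [Finset.sum_add_distrib, ← Finset.mul_sum]
  ring

lemma form_sum_right {κ : Type*} (s : Finset κ) {W : Conf N → ℝ} (hW : Adm W) {f : Conf N → ℂ}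
    {D : Fin N × Fin 3 → Conf N → ℂ} (hf : Sob dir f D) (c : κ → ℝ) (g : κ → Conf N → ℂ)
    (D' : κ → Fin N × Fin 3 → Conf N → ℂ) (hg : ∀ k, Sob dir (g k) (D' k)) :
    form W f D (fun x => ∑ k ∈ s, c k • g k x) (fun p x => ∑ k ∈ s, c k • D' k p x) =
      ∑ k ∈ s, c k * form W f D (g k) (D' k) := by
  unfold form
  have e1 : ∫ x, W x * ⟪f x, ∑ k ∈ s, c k • g k x⟫_ℝ =
      ∑ k ∈ s, c k * ∫ x, W x * ⟪f x, g k x⟫_ℝ := by
    rw [← Finset.sum_congr rfl fun k _ => integral_const_mul (c k) _,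
      ← integral_finsetSum _ fun k _ => (adm_cross hW hf (hg k)).const_mul _]
    refine integral_congr_ae (Eventually.of_forall fun x => ?_)
    simp only [inner_sum, inner_smul_right, Finset.mul_sum]
    exact Finset.sum_congr rfl fun k _ => by ring
  have e2 : ∀ p, ∫ x, ⟪D p x, ∑ k ∈ s, c k • D' k p x⟫_ℝ =
      ∑ k ∈ s, c k * ∫ x, ⟪D p x, D' k p x⟫_ℝ := by
    intro p
    rw [← Finset.sum_congr rfl fun k _ => integral_const_mul (c k) _,
      ← integral_finsetSum _ fun k _ =>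
        (inner_int (hf.memLp_grad p) ((hg k).memLp_grad p)).const_mul _]
    refine integral_congr_ae (Eventually.of_forall fun x => ?_)
    simp only [inner_sum, inner_smul_right]
  rw [e1, Finset.sum_congr rfl fun p _ => e2 p, Finset.sum_comm, Finset.mul_sum,
    ← Finset.sum_add_distrib]
  refine Finset.sum_congr rfl fun k _ => ?_
  rw [← Finset.mul_sum]
  ring

/-- A linear combination of two waves. -/
noncomputable def comb (ψ η : Wave N) (a b : ℝ) : Wave N where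
  toFun s x := a • ψ.toFun s x + b • η.toFun s x
  grad s p x := a • ψ.grad s p x + b • η.grad s p x
  sob s := sob_comb (ψ.sob s) (η.sob s) a b
  antisymm σ s := by
    filter_upwards [ψ.antisymm σ s, η.antisymm σ s] with x h1 h2
    rw [h1, h2, mul_add, mul_smul_comm, mul_smul_comm]

/-- The quadratic form of a wave. -/
noncomputable def QW (W : Conf N → ℝ) (ψ : Wave N) : ℝ :=
  ∑ s, form W (ψ.toFun s) (ψ.grad s) (ψ.toFun s) (ψ.grad s)

/-- The bilinear form of two waves. -/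
noncomputable def PW (W : Conf N → ℝ) (ψ η : Wave N) : ℝ :=
  ∑ s, form W (ψ.toFun s) (ψ.grad s) (η.toFun s) (η.grad s)

lemma QW_comb {W : Conf N → ℝ} (hW : Adm W) (ψ η : Wave N) (a b : ℝ) :
    QW W (comb ψ η a b) = a ^ 2 * QW W ψ + 2 * a * b * PW W ψ η + b ^ 2 * QW W η := by
  unfold QW PW
  rw [Finset.mul_sum, Finset.mul_sum, Finset.mul_sum, ← Finset.sum_add_distrib,
    ← Finset.sum_add_distrib]
  exact Finset.sum_congr rfl fun s _ => form_comb hW (ψ.sob s) (η.sob s) a b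

lemma EL {W : Conf N → ℝ} (hW : Adm W) (hpos : ∀ χ : Wave N, 0 ≤ QW W χ) {ψ : Wave N}
    (h0 : QW W ψ = 0) (η : Wave N) : PW W ψ η = 0 := by
  set P := PW W ψ η
  set q := QW W η with hq
  have hq0 : 0 ≤ q := hpos η
  have h := hpos (comb ψ η 1 (-P / (q + 1)))
  rw [QW_comb hW, h0] at h
  have e : (1 : ℝ) ^ 2 * 0 + 2 * 1 * (-P / (q + 1)) * P + (-P / (q + 1)) ^ 2 * q =
      - (P ^ 2 * (q + 2)) / (q + 1) ^ 2 := by
    field_simp
    ring
  rw [e] at h
  by_contra hP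
  have h1 : 0 < P ^ 2 := by positivity
  have : - (P ^ 2 * (q + 2)) / (q + 1) ^ 2 < 0 := by
    apply div_neg_of_neg_of_pos
    · have : 0 < P ^ 2 * (q + 2) := by positivity
      linarith
    · positivity
  linarith

lemma normSq_eq (ψ : Wave N) : ψ.normSq = ∑ s, ∫ x, ⟪ψ.toFun s x, ψ.toFun s x⟫_ℝ := by
  simp only [Wave.normSq, real_inner_self_eq_norm_sq]

lemma energy_eq {v : E3 → ℝ} (hW : Adm (fun x : Conf N => ext v x + coulomb x)) (E : ℝ)
    (ψ : Wave N) :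
    ψ.energy v - E * ψ.normSq = QW (fun x => ext v x + coulomb x - E) ψ := by
  unfold Wave.energy Wave.kinetic Wave.normSq QW form
  simp only [real_inner_self_eq_norm_sq, Finset.sum_add_distrib, Finset.mul_sum]
  have : ∀ s, ∫ x, (ext v x + coulomb x - E) * ‖ψ.toFun s x‖ ^ 2 =
      (∫ x, (ext v x + coulomb x) * ‖ψ.toFun s x‖ ^ 2) - E * ∫ x, ‖ψ.toFun s x‖ ^ 2 := by
    intro s
    rw [← integral_const_mul, ← integral_sub (adm_lint hW (ψ.sob s))
      (((ψ.sob s).memLp.integrable_norm_pow (by norm_num)).const_mul _)]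
    refine integral_congr_ae (Eventually.of_forall fun x => ?_)
    simp only
    ring
  simp only [this, Finset.sum_sub_distrib]
  ring

/-- `sgn σ` as a real number. -/
noncomputable def sg (σ : Equiv.Perm (Fin N)) : ℝ := ((Equiv.Perm.sign σ : ℤ) : ℝ)

lemma sg_sq (σ : Equiv.Perm (Fin N)) : sg σ * sg σ = 1 := by
  unfold sg
  rcases Int.units_eq_one_or (Equiv.Perm.sign σ) with h | h <;> simp [h]

lemma sg_mul (σ τ : Equiv.Perm (Fin N)) : sg (σ * τ) = sg σ * sg τ := by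
  unfold sg
  simp

lemma anti_fun (ψ : Wave N) (σ : Equiv.Perm (Fin N)) (s : Fin N → Fin 2) :
    ∀ᵐ x : Conf N, ψ.toFun s x = sg σ • ψ.toFun (s ∘ σ) (x ∘ σ) := by
  filter_upwards [ψ.antisymm σ s] with x hx
  rw [hx]
  have : (((Equiv.Perm.sign σ : ℤ) : ℂ)) * ψ.toFun s x = sg σ • ψ.toFun s x := by
    rw [Complex.real_smul]; simp [sg]
  rw [this, smul_smul, sg_sq, one_smul]

lemma anti_grad (ψ : Wave N) (σ : Equiv.Perm (Fin N)) (s : Fin N → Fin 2) (p : Fin N × Fin 3) :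
    ∀ᵐ x : Conf N, ψ.grad s p x = sg σ • ψ.grad (s ∘ σ) (σ⁻¹ p.1, p.2) (x ∘ σ) := by
  have h1 := sob_smul (sob_perm σ (ψ.sob (s ∘ σ))) (sg σ)
  refine weak_unique ((ψ.sob s).memLp_grad p) (h1.memLp_grad p) ((ψ.sob s).weak p) ?_
  intro ζ hζ
  rw [← h1.weak p ζ hζ]
  refine integral_congr_ae ?_
  filter_upwards [anti_fun ψ σ s] with x hx
  rw [hx]

lemma form_perm {W : Conf N → ℝ} (hsym : ∀ (σ : Equiv.Perm (Fin N)) x, W (x ∘ σ) = W x)
    (ψ : Wave N) (σ : Equiv.Perm (Fin N)) (s : Fin N → Fin 2) (g : Conf N → ℂ)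
    (D : Fin N × Fin 3 → Conf N → ℂ) :
    form W (ψ.toFun s) (ψ.grad s) (fun x => g (x ∘ σ)) (fun p x => D (σ⁻¹ p.1, p.2) (x ∘ σ)) =
      sg σ * form W (ψ.toFun (s ∘ σ)) (ψ.grad (s ∘ σ)) g D := by
  unfold form
  have e1 : ∫ x, W x * ⟪ψ.toFun s x, g (x ∘ σ)⟫_ℝ =
      sg σ * ∫ x, W x * ⟪ψ.toFun (s ∘ σ) x, g x⟫_ℝ := by
    rw [← integral_perm σ (fun x => W x * ⟪ψ.toFun (s ∘ σ) x, g x⟫_ℝ), ← integral_const_mul]
    refine integral_congr_ae ?_
    filter_upwards [anti_fun ψ σ s] with x hx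
    rw [hx, hsym, inner_smul_left]
    simp only [conj_trivial]
    ring
  have e2 : ∀ p : Fin N × Fin 3, ∫ x, ⟪ψ.grad s p x, D (σ⁻¹ p.1, p.2) (x ∘ σ)⟫_ℝ =
      sg σ * ∫ x, ⟪ψ.grad (s ∘ σ) (σ⁻¹ p.1, p.2) x, D (σ⁻¹ p.1, p.2) x⟫_ℝ := by
    intro p
    rw [← integral_perm σ (fun x => ⟪ψ.grad (s ∘ σ) (σ⁻¹ p.1, p.2) x, D (σ⁻¹ p.1, p.2) x⟫_ℝ),
      ← integral_const_mul]
    refine integral_congr_ae ?_
    filter_upwards [anti_grad ψ σ s p] with x hx
    rw [hx, inner_smul_left]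
    simp only [conj_trivial]
  rw [e1, Finset.sum_congr rfl fun p _ => e2 p, ← Finset.mul_sum]
  have e3 : ∑ p : Fin N × Fin 3, ∫ x, ⟪ψ.grad (s ∘ σ) (σ⁻¹ p.1, p.2) x, D (σ⁻¹ p.1, p.2) x⟫_ℝ =
      ∑ p : Fin N × Fin 3, ∫ x, ⟪ψ.grad (s ∘ σ) p x, D p x⟫_ℝ :=
    Equiv.sum_comp ((σ⁻¹ : Equiv.Perm (Fin N)).prodCongr (Equiv.refl (Fin 3)))
      (fun p : Fin N × Fin 3 => ∫ x, ⟪ψ.grad (s ∘ σ) p x, D p x⟫_ℝ)
  rw [e3]
  ring

/-- The coefficient of the permutation `σ` in the antisymmetrisation. -/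
noncomputable def co (s₀ : Fin N → Fin 2) (s : Fin N → Fin 2) (σ : Equiv.Perm (Fin N)) : ℝ :=
  if s ∘ σ = s₀ then sg σ else 0

lemma co_mul (s₀ s : Fin N → Fin 2) (τ σ : Equiv.Perm (Fin N)) :
    sg τ * co s₀ s (τ * σ) = co s₀ (s ∘ τ) σ := by
  unfold co
  have e2 : (s ∘ ⇑(τ * σ) = s₀) ↔ ((s ∘ ⇑τ) ∘ ⇑σ = s₀) := Iff.rfl
  by_cases h : (s ∘ ⇑τ) ∘ ⇑σ = s₀
  · rw [if_pos h, if_pos (e2.2 h), sg_mul, ← mul_assoc, sg_sq, one_mul]
  · rw [if_neg h, if_neg (fun h' => h (e2.1 h')), mul_zero]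

/-- Antisymmetrisation of the spinor with only component `f` at `s₀`. -/
noncomputable def anti {f : Conf N → ℂ} {D : Fin N × Fin 3 → Conf N → ℂ} (hf : Sob dir f D)
    (s₀ : Fin N → Fin 2) : Wave N where
  toFun s x := ∑ σ, co s₀ s σ • f (x ∘ ⇑σ)
  grad s p x := ∑ σ, co s₀ s σ • D (σ⁻¹ p.1, p.2) (x ∘ ⇑σ)
  sob s := sob_sum Finset.univ fun σ _ => sob_smul (sob_perm σ hf) _
  antisymm τ s := by
    refine Eventually.of_forall fun x => ?_
    rw [Finset.mul_sum, ← Equiv.sum_comp (Equiv.mulLeft τ) (fun σ =>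
      ((Equiv.Perm.sign τ : ℤ) : ℂ) * co s₀ s σ • f (x ∘ ⇑σ))]
    refine Finset.sum_congr rfl fun σ _ => ?_
    have e1 : x ∘ ⇑(τ * σ) = (x ∘ ⇑τ) ∘ ⇑σ := rfl
    have e3 : (((Equiv.Perm.sign τ : ℤ) : ℂ)) = ((sg τ : ℝ) : ℂ) := by simp [sg]
    simp only [Equiv.coe_mulLeft]
    rw [e1, e3, ← Complex.real_smul, smul_smul, co_mul]

lemma PW_anti {W : Conf N → ℝ} (hW : Adm W)
    (hsym : ∀ (σ : Equiv.Perm (Fin N)) x, W (x ∘ σ) = W x) (ψ : Wave N) {f : Conf N → ℂ}
    {D : Fin N × Fin 3 → Conf N → ℂ} (hf : Sob dir f D) (s₀ : Fin N → Fin 2) :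
    PW W ψ (anti hf s₀) =
      Fintype.card (Equiv.Perm (Fin N)) * form W (ψ.toFun s₀) (ψ.grad s₀) f D := by
  unfold PW
  have e1 : ∀ s, form W (ψ.toFun s) (ψ.grad s) ((anti hf s₀).toFun s) ((anti hf s₀).grad s) =
      ∑ σ : Equiv.Perm (Fin N), if s ∘ σ = s₀ then form W (ψ.toFun s₀) (ψ.grad s₀) f D else 0 := by
    intro s
    rw [show form W (ψ.toFun s) (ψ.grad s) ((anti hf s₀).toFun s) ((anti hf s₀).grad s) = _ from
      form_sum_right Finset.univ hW (ψ.sob s) (fun σ => co s₀ s σ)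
        (fun (σ : Equiv.Perm (Fin N)) x => f (x ∘ ⇑σ))
        (fun (σ : Equiv.Perm (Fin N)) p x => D (σ⁻¹ p.1, p.2) (x ∘ ⇑σ)) fun σ => sob_perm σ hf]
    refine Finset.sum_congr rfl fun σ _ => ?_
    unfold co
    by_cases h : s ∘ σ = s₀
    · rw [if_pos h, if_pos h, form_perm hsym ψ σ s f D, h, ← mul_assoc, sg_sq, one_mul]
    · rw [if_neg h, if_neg h, zero_mul]
  rw [Finset.sum_congr rfl fun s _ => e1 s, Finset.sum_comm]
  have e2 : ∀ σ : Equiv.Perm (Fin N), (∑ s : Fin N → Fin 2,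
      if s ∘ σ = s₀ then form W (ψ.toFun s₀) (ψ.grad s₀) f D else 0) =
      form W (ψ.toFun s₀) (ψ.grad s₀) f D := by
    intro σ
    rw [Finset.sum_eq_single (s₀ ∘ ⇑(σ⁻¹))]
    · rw [if_pos]
      funext i; simp
    · intro s _ hs
      rw [if_neg]
      intro h
      apply hs
      rw [← h]
      funext i; simp
    · intro h; exact absurd (Finset.mem_univ _) h
  rw [Finset.sum_congr rfl fun σ _ => e2 σ, Finset.sum_const, nsmul_eq_mul, Finset.card_univ]

/-- The weak equation for one real component. -/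
lemma weak_eq {W : Conf N → ℝ} (hW : Adm W)
    (hsym : ∀ (σ : Equiv.Perm (Fin N)) x, W (x ∘ σ) = W x)
    (hpos : ∀ χ : Wave N, 0 ≤ QW W χ) {ψ : Wave N} (h0 : QW W ψ = 0) (s₀ : Fin N → Fin 2) (c : ℂ)
    {f : Conf N → ℝ} {D : Fin N × Fin 3 → Conf N → ℝ} (hf : Sob dir f D) :
    1 / 2 * (∑ p, ∫ x, ⟪ψ.grad s₀ p x, c⟫_ℝ * D p x) +
      ∫ x, W x * (⟪ψ.toFun s₀ x, c⟫_ℝ * f x) = 0 := by
  have hg := sob_clm hf ((ContinuousLinearMap.id ℝ ℝ).smulRight c)
  have h1 := PW_anti hW hsym ψ hg s₀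
  rw [EL hW hpos h0] at h1
  have h2 := (mul_eq_zero.1 h1.symm).resolve_left (by
    exact_mod_cast Fintype.card_ne_zero)
  rw [← h2]
  unfold form
  congr 1
  · congr 1
    refine Finset.sum_congr rfl fun p _ => ?_
    refine integral_congr_ae (Eventually.of_forall fun x => ?_)
    simp only [ContinuousLinearMap.smulRight_apply, ContinuousLinearMap.coe_id', id,
      inner_smul_right]
    ring
  · refine integral_congr_ae (Eventually.of_forall fun x => ?_)
    simp only [ContinuousLinearMap.smulRight_apply, ContinuousLinearMap.coe_id', id,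
      inner_smul_right]
    ring

end form

section dens

variable {n : ℕ}

lemma adm_abs {N : ℕ} {W : Conf N → ℝ} (h : Adm W) : Adm (fun x => |W x|) := by
  obtain ⟨hm, C, hC⟩ := h
  refine ⟨hm.norm, C, fun f D hf => ?_⟩
  simpa using hC f D hf

lemma ext_perm {N : ℕ} (v : E3 → ℝ) (σ : Equiv.Perm (Fin N)) (x : Conf N) :
    ext v (x ∘ σ) = ext v x := by
  unfold ext
  exact Equiv.sum_comp σ (fun i => v (x i))

lemma coulomb_two {N : ℕ} (x : Conf N) : 2 * coulomb x = ∑ i, ∑ j, ‖x i - x j‖⁻¹ := by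
  unfold coulomb
  have e1 : ∑ i : Fin N, ∑ j, (if i < j then ‖x i - x j‖⁻¹ else 0) =
      ∑ i, ∑ j, (if j < i then ‖x i - x j‖⁻¹ else 0) := by
    rw [Finset.sum_comm]
    refine Finset.sum_congr rfl fun i _ => Finset.sum_congr rfl fun j _ => ?_
    rw [norm_sub_rev]
  have e2 : ∀ i j : Fin N, ‖x i - x j‖⁻¹ = (if i < j then ‖x i - x j‖⁻¹ else 0) +
      (if j < i then ‖x i - x j‖⁻¹ else 0) := by
    intro i j
    rcases lt_trichotomy i j with h | h | h
    · rw [if_pos h, if_neg h.not_gt, add_zero]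
    · subst h; simp
    · rw [if_neg h.not_gt, if_pos h, zero_add]
  rw [Finset.sum_congr rfl fun i _ => Finset.sum_congr rfl fun j _ => e2 i j]
  simp only [Finset.sum_add_distrib]
  rw [← e1]
  ring

lemma coulomb_perm {N : ℕ} (σ : Equiv.Perm (Fin N)) (x : Conf N) :
    coulomb (x ∘ σ) = coulomb x := by
  have h : 2 * coulomb (x ∘ σ) = 2 * coulomb x := by
    rw [coulomb_two, coulomb_two]
    simp only [Function.comp]
    rw [Equiv.sum_comp σ (fun i => ∑ j, ‖x i - x (σ j)‖⁻¹)]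
    exact Finset.sum_congr rfl fun i _ => Equiv.sum_comp σ (fun j => ‖x i - x j‖⁻¹)
  linarith

/-- The one-particle density of a wave, without the factor `n + 1`. -/
noncomputable def G (ψ : Wave (n + 1)) (a : E3) : ℝ :=
  ∑ s, ∫ y : Conf n, ‖ψ.toFun s (Fin.cons a y)‖ ^ 2

lemma G_nonneg (ψ : Wave (n + 1)) (a : E3) : 0 ≤ G ψ a := by unfold G; positivity

lemma mp_cons : MeasurePreserving
    (fun p : E3 × Conf n => (Fin.cons p.1 p.2 : Conf (n + 1))) volume volume := by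
  have h := (volume_preserving_piFinSuccAbove (fun _ : Fin (n + 1) => E3) 0).symm
  have e : ⇑(MeasurableEquiv.piFinSuccAbove (fun _ : Fin (n + 1) => E3) 0).symm =
      (fun p : E3 × Conf n => (Fin.cons p.1 p.2 : Conf (n + 1))) := by
    funext p
    exact Fin.insertNth_zero' p.1 p.2
  rw [← e]
  exact h

lemma me_cons : MeasurableEmbedding
    (fun p : E3 × Conf n => (Fin.cons p.1 p.2 : Conf (n + 1))) := by
  have e : ⇑(MeasurableEquiv.piFinSuccAbove (fun _ : Fin (n + 1) => E3) 0).symm =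
      (fun p : E3 × Conf n => (Fin.cons p.1 p.2 : Conf (n + 1))) := by
    funext p
    exact Fin.insertNth_zero' p.1 p.2
  rw [← e]
  exact (MeasurableEquiv.piFinSuccAbove (fun _ : Fin (n + 1) => E3) 0).symm.measurableEmbedding

lemma dens_one {w : E3 → ℝ} (hw : Adm (fun x : Conf (n + 1) => w (x 0))) {f : Conf (n + 1) → ℂ}
    {D : Fin (n + 1) × Fin 3 → Conf (n + 1) → ℂ} (hf : Sob dir f D) :
    Integrable (fun a => w a * ∫ y : Conf n, ‖f (Fin.cons a y)‖ ^ 2) volume ∧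
    ∫ a, w a * (∫ y : Conf n, ‖f (Fin.cons a y)‖ ^ 2) = ∫ x, w (x 0) * ‖f x‖ ^ 2 := by
  have h1 := adm_lint hw hf
  have h2 : Integrable (fun p : E3 × Conf n => w p.1 * ‖f (Fin.cons p.1 p.2)‖ ^ 2) volume := by
    have := (mp_cons (n := n)).integrable_comp_emb me_cons (g := fun x => w (x 0) * ‖f x‖ ^ 2)
    have h3 := this.2 h1
    simpa [Function.comp_def] using h3
  have h4 : ∫ p : E3 × Conf n, w p.1 * ‖f (Fin.cons p.1 p.2)‖ ^ 2 =
      ∫ x, w (x 0) * ‖f x‖ ^ 2 := by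
    rw [← (mp_cons (n := n)).integral_comp me_cons (fun x => w (x 0) * ‖f x‖ ^ 2)]
    simp
  have h5 := h2.integral_prod_left
  simp only [integral_const_mul] at h5
  refine ⟨h5, ?_⟩
  rw [← h4]
  have h6 := integral_prod (fun p : E3 × Conf n => w p.1 * ‖f (Fin.cons p.1 p.2)‖ ^ 2) h2
  simp only [integral_const_mul] at h6
  exact h6.symm

lemma dens_wave {w : E3 → ℝ} (hw : Adm (fun x : Conf (n + 1) => w (x 0))) (ψ : Wave (n + 1)) :
    Integrable (fun a => w a * G ψ a) volume ∧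
    ∫ a, w a * G ψ a = ∑ s, ∫ x, w (x 0) * ‖ψ.toFun s x‖ ^ 2 := by
  unfold G
  simp only [Finset.mul_sum]
  refine ⟨integrable_finsetSum _ fun s _ => (dens_one hw (ψ.sob s)).1, ?_⟩
  rw [integral_finsetSum _ fun s _ => (dens_one hw (ψ.sob s)).1]
  exact Finset.sum_congr rfl fun s _ => (dens_one hw (ψ.sob s)).2

lemma swap_dens (w : E3 → ℝ) (ψ : Wave (n + 1)) (i : Fin (n + 1)) :
    ∑ s, ∫ x, w (x i) * ‖ψ.toFun s x‖ ^ 2 = ∑ s, ∫ x, w (x 0) * ‖ψ.toFun s x‖ ^ 2 := by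
  set σ := Equiv.swap 0 i with hσ
  have e1 : ∀ s, ∫ x, w (x i) * ‖ψ.toFun s x‖ ^ 2 =
      ∫ x, w (x 0) * ‖ψ.toFun (s ∘ σ) x‖ ^ 2 := by
    intro s
    rw [← integral_perm σ (fun x => w (x 0) * ‖ψ.toFun (s ∘ σ) x‖ ^ 2)]
    refine integral_congr_ae ?_
    filter_upwards [anti_fun ψ σ s] with x hx
    rw [hx, norm_smul, mul_pow]
    have : ‖sg σ‖ ^ 2 = 1 := by
      rw [Real.norm_eq_abs, sq_abs, sq, sg_sq]
    rw [this, one_mul]
    simp [hσ]
  rw [Finset.sum_congr rfl fun s _ => e1 s]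
  exact Equiv.sum_comp (Equiv.arrowCongr σ.symm (Equiv.refl (Fin 2)))
    (fun s => ∫ x, w (x 0) * ‖ψ.toFun s x‖ ^ 2)

lemma dens_ext {w : E3 → ℝ} (hw : ∀ i, Adm (fun x : Conf (n + 1) => w (x i)))
    (ψ : Wave (n + 1)) :
    ∑ s, ∫ x, ext w x * ‖ψ.toFun s x‖ ^ 2 = ∫ a, w a * ((n + 1) * G ψ a) := by
  have e1 : ∀ s, ∫ x, ext w x * ‖ψ.toFun s x‖ ^ 2 = ∑ i, ∫ x, w (x i) * ‖ψ.toFun s x‖ ^ 2 := by
    intro s
    unfold ext
    simp only [Finset.sum_mul]
    exact integral_finsetSum _ fun i _ => adm_lint (hw i) (ψ.sob s)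
  rw [Finset.sum_congr rfl fun s _ => e1 s, Finset.sum_comm,
    Finset.sum_congr rfl fun i _ => swap_dens w ψ i, ← (dens_wave (hw 0) ψ).2]
  simp only [Finset.sum_const, Finset.card_univ, Fintype.card_fin, nsmul_eq_mul, Nat.cast_add,
    Nat.cast_one]
  rw [← integral_const_mul]
  refine integral_congr_ae (Eventually.of_forall fun a => ?_)
  simp only
  ring

lemma energy_diff {v₁ v₂ : E3 → ℝ} (h1 : ∀ i, Adm (fun x : Conf (n + 1) => v₁ (x i)))
    (h2 : ∀ i, Adm (fun x : Conf (n + 1) => v₂ (x i)))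
    (hc : Adm (fun x : Conf (n + 1) => coulomb x)) (ψ : Wave (n + 1)) :
    ψ.energy v₂ - ψ.energy v₁ = ∫ a, (v₂ a - v₁ a) * ((n + 1) * G ψ a) := by
  rw [← dens_ext (w := fun a => v₂ a - v₁ a) (fun i => adm_sub (h2 i) (h1 i)) ψ]
  unfold Wave.energy
  rw [add_sub_add_left_eq_sub, ← Finset.sum_sub_distrib]
  refine Finset.sum_congr rfl fun s _ => ?_
  have a1 : Adm (fun x : Conf (n + 1) => ext v₁ x + coulomb x) :=
    adm_add (adm_sum Finset.univ fun i _ => h1 i) hc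
  have a2 : Adm (fun x : Conf (n + 1) => ext v₂ x + coulomb x) :=
    adm_add (adm_sum Finset.univ fun i _ => h2 i) hc
  rw [← integral_sub (adm_lint a2 (ψ.sob s)) (adm_lint a1 (ψ.sob s))]
  refine integral_congr_ae (Eventually.of_forall fun x => ?_)
  simp only [ext, Finset.sum_sub_distrib]
  ring

lemma totR_wave {N : ℕ} (ψ : Wave N) :
    ∑ s, totR (ψ.toFun s) (ψ.grad s) = 2 * ψ.kinetic + ψ.normSq := by
  unfold totR Wave.kinetic Wave.normSq
  rw [Finset.sum_add_distrib]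
  ring

lemma wave_bound {N : ℕ} {W : Conf N → ℝ} (h : Adm W) : ∃ C : ℝ, 0 ≤ C ∧ ∀ ψ : Wave N,
    ∑ s, ∫ x, |W x| * ‖ψ.toFun s x‖ ^ 2 ≤ C * (2 * ψ.kinetic + ψ.normSq) := by
  obtain ⟨C, hC, h1⟩ := adm_bound h
  refine ⟨C, hC, fun ψ => ?_⟩
  rw [← totR_wave, Finset.mul_sum]
  exact Finset.sum_le_sum fun s _ => h1 _ _ (ψ.sob s)

lemma summable_energy {v : E3 → ℝ} {N : ℕ} (hW : Adm (fun x : Conf N => ext v x + coulomb x))
    (γ : DensityOp N) : Summable fun k => γ.p k * (γ.ψ k).energy v := by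
  obtain ⟨C, hC, h1⟩ := wave_bound hW
  have hs : Summable fun k => (1 + 2 * C) * (γ.p k * (γ.ψ k).kinetic) + C * γ.p k :=
    (γ.kinetic.mul_left _).add (γ.sum_one.summable.mul_left _)
  refine Summable.of_norm_bounded hs fun k => ?_
  have hp := γ.nonneg k
  have hk : 0 ≤ (γ.ψ k).kinetic := by unfold Wave.kinetic; positivity
  have h2 := h1 (γ.ψ k)
  rw [γ.normalized k] at h2
  have h3 : ‖∑ s, ∫ x, (ext v x + coulomb x) * ‖(γ.ψ k).toFun s x‖ ^ 2‖ ≤
      ∑ s, ∫ x, |ext v x + coulomb x| * ‖(γ.ψ k).toFun s x‖ ^ 2 := by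
    refine (norm_sum_le _ _).trans (Finset.sum_le_sum fun s _ => ?_)
    refine (norm_integral_le_integral_norm _).trans (le_of_eq ?_)
    refine integral_congr_ae (Eventually.of_forall fun x => ?_)
    simp [norm_mul]
  rw [norm_mul, Real.norm_eq_abs (γ.p k), abs_of_nonneg hp]
  have h4 : ‖(γ.ψ k).energy v‖ ≤ (γ.ψ k).kinetic + C * (2 * (γ.ψ k).kinetic + 1) := by
    unfold Wave.energy
    refine (norm_add_le _ _).trans ?_
    rw [Real.norm_eq_abs (γ.ψ k).kinetic, abs_of_nonneg hk]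
    linarith
  calc γ.p k * ‖(γ.ψ k).energy v‖ ≤ γ.p k * ((γ.ψ k).kinetic + C * (2 * (γ.ψ k).kinetic + 1)) := by
        gcongr
    _ = _ := by ring

lemma trace_diff {v₁ v₂ : E3 → ℝ} (h1 : ∀ i, Adm (fun x : Conf (n + 1) => v₁ (x i)))
    (h2 : ∀ i, Adm (fun x : Conf (n + 1) => v₂ (x i)))
    (hc : Adm (fun x : Conf (n + 1) => coulomb x)) (γ : DensityOp (n + 1)) :
    γ.trace v₂ - γ.trace v₁ = ∫ a, (v₂ a - v₁ a) * γ.density a := by
  have a1 : Adm (fun x : Conf (n + 1) => ext v₁ x + coulomb x) :=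
    adm_add (adm_sum Finset.univ fun i _ => h1 i) hc
  have a2 : Adm (fun x : Conf (n + 1) => ext v₂ x + coulomb x) :=
    adm_add (adm_sum Finset.univ fun i _ => h2 i) hc
  unfold DensityOp.trace
  rw [← (summable_energy a2 γ).tsum_sub (summable_energy a1 γ)]
  have e1 : ∀ k, γ.p k * (γ.ψ k).energy v₂ - γ.p k * (γ.ψ k).energy v₁ =
      ∫ a, γ.p k * ((v₂ a - v₁ a) * ((n + 1) * G (γ.ψ k) a)) := by
    intro k
    rw [← mul_sub, energy_diff h1 h2 hc, integral_const_mul]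
  rw [tsum_congr e1]
  have hw : Adm (fun x : Conf (n + 1) => v₂ (x 0) - v₁ (x 0)) := adm_sub (h2 0) (h1 0)
  have hi : ∀ k, Integrable (fun a => γ.p k * ((v₂ a - v₁ a) * ((n + 1) * G (γ.ψ k) a)))
      volume := by
    intro k
    have := ((dens_wave (w := fun a => v₂ a - v₁ a) hw (γ.ψ k)).1.const_mul (γ.p k * (n + 1)))
    refine this.congr (Eventually.of_forall fun a => ?_)
    simp only
    ring
  obtain ⟨C, hC, hb⟩ := wave_bound hw
  have hs : Summable fun k => ∫ a, ‖γ.p k * ((v₂ a - v₁ a) * ((n + 1) * G (γ.ψ k) a))‖ := by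
    have hs : Summable fun k => ((n : ℝ) + 1) * ((2 * C) * (γ.p k * (γ.ψ k).kinetic) +
        C * γ.p k) :=
      ((γ.kinetic.mul_left _).add (γ.sum_one.summable.mul_left _)).mul_left _
    refine Summable.of_nonneg_of_le (fun k => by positivity) (fun k => ?_) hs
    have hp := γ.nonneg k
    have e2 : ∫ a, ‖γ.p k * ((v₂ a - v₁ a) * ((n + 1) * G (γ.ψ k) a))‖ =
        (γ.p k * (n + 1)) * ∫ a, |v₂ a - v₁ a| * G (γ.ψ k) a := by
      rw [← integral_const_mul]
      refine integral_congr_ae (Eventually.of_forall fun a => ?_)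
      have hn : (0 : ℝ) ≤ (n : ℝ) + 1 := by positivity
      simp only [norm_mul, Real.norm_eq_abs]
      rw [abs_of_nonneg hp, abs_of_nonneg (G_nonneg _ _), abs_of_nonneg hn]
      ring
    have h3 := (dens_wave (w := fun a => |v₂ a - v₁ a|) (adm_abs hw) (γ.ψ k)).2
    have h4 := hb (γ.ψ k)
    rw [γ.normalized k] at h4
    rw [e2, h3]
    calc (γ.p k * (n + 1)) * _ ≤ (γ.p k * (n + 1)) * (C * (2 * (γ.ψ k).kinetic + 1)) := by
          gcongr
      _ = _ := by ring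
  rw [integral_tsum_of_summable_integral_norm hi hs]
  refine integral_congr_ae (Eventually.of_forall fun a => ?_)
  simp only [DensityOp.density]
  rw [← tsum_mul_left, ← tsum_mul_left]
  refine tsum_congr fun k => ?_
  unfold G
  ring

end dens

end Pool.Agent.HK.Var
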