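import Pool.Agent.HK.Spec

/-!
# HK-YO: trilinear Young inequality on the line
-/

open MeasureTheory Set Filter Topology
open scoped ENNReal NNReal

namespace Pool.Agent.HK

namespace YO

/-- The pointwise identity behind Young's inequality. -/
lemma pt (a b c : ℝ≥0∞) (p q r : ℝ) (hp : 1 ≤ p) (hq : 1 ≤ q) (hr : 1 ≤ r)
    (h : 1 / p + 1 / q + 1 / r = 2) :
    a * b * c = (b ^ p * c ^ r) ^ (1 - 1 / q) * (a ^ q * c ^ r) ^ (1 - 1 / p) *
      (a ^ q * b ^ p) ^ (1 - 1 / r) := by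
  have hp0 : (0 : ℝ) < p := by linarith
  have hq0 : (0 : ℝ) < q := by linarith
  have hr0 : (0 : ℝ) < r := by linarith
  have h1 : 0 ≤ 1 - 1 / p := by
    have : 1 / p ≤ 1 := by rw [div_le_one hp0]; exact hp
    linarith
  have h2 : 0 ≤ 1 - 1 / q := by
    have : 1 / q ≤ 1 := by rw [div_le_one hq0]; exact hq
    linarith
  have h3 : 0 ≤ 1 - 1 / r := by
    have : 1 / r ≤ 1 := by rw [div_le_one hr0]; exact hr
    linarith
  have key : ∀ (x : ℝ≥0∞) (m u v : ℝ), 0 < m → 0 ≤ u → 0 ≤ v → u + v = 1 / m →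
      (x ^ m) ^ u * (x ^ m) ^ v = x := by
    intro x m u v hm hu hv huv
    rw [← ENNReal.rpow_add_of_nonneg u v hu hv, huv, ← ENNReal.rpow_mul, mul_one_div_cancel hm.ne',
      ENNReal.rpow_one]
  rw [ENNReal.mul_rpow_of_nonneg _ _ h2, ENNReal.mul_rpow_of_nonneg _ _ h1,
    ENNReal.mul_rpow_of_nonneg _ _ h3]
  have ka := key a q (1 - 1 / p) (1 - 1 / r) hq0 h1 h3 (by linarith)
  have kb := key b p (1 - 1 / q) (1 - 1 / r) hp0 h2 h3 (by linarith)
  have kc := key c r (1 - 1 / q) (1 - 1 / p) hr0 h2 h1 (by linarith)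
  calc a * b * c = ((a ^ q) ^ (1 - 1 / p) * (a ^ q) ^ (1 - 1 / r)) *
        ((b ^ p) ^ (1 - 1 / q) * (b ^ p) ^ (1 - 1 / r)) *
        ((c ^ r) ^ (1 - 1 / q) * (c ^ r) ^ (1 - 1 / p)) := by rw [ka, kb, kc]
    _ = _ := by ring

/-- The same identity for the integrals. -/
lemma fin (A B K : ℝ≥0∞) (p q r : ℝ) (hp : 1 ≤ p) (hq : 1 ≤ q) (hr : 1 ≤ r)
    (h : 1 / p + 1 / q + 1 / r = 2) :
    (A * B) ^ (1 - 1 / q) * (K * B) ^ (1 - 1 / p) * (K * A) ^ (1 - 1 / r) =
      K ^ (1 / q) * A ^ (1 / p) * B ^ (1 / r) := by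
  have hp0 : (0 : ℝ) < p := by linarith
  have hq0 : (0 : ℝ) < q := by linarith
  have hr0 : (0 : ℝ) < r := by linarith
  have h1 : 0 ≤ 1 - 1 / p := by
    have : 1 / p ≤ 1 := by rw [div_le_one hp0]; exact hp
    linarith
  have h2 : 0 ≤ 1 - 1 / q := by
    have : 1 / q ≤ 1 := by rw [div_le_one hq0]; exact hq
    linarith
  have h3 : 0 ≤ 1 - 1 / r := by
    have : 1 / r ≤ 1 := by rw [div_le_one hr0]; exact hr
    linarith
  rw [ENNReal.mul_rpow_of_nonneg _ _ h2, ENNReal.mul_rpow_of_nonneg _ _ h1,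
    ENNReal.mul_rpow_of_nonneg _ _ h3]
  have ka : A ^ (1 / p) = A ^ (1 - 1 / q) * A ^ (1 - 1 / r) := by
    rw [← ENNReal.rpow_add_of_nonneg _ _ h2 h3]; congr 1; linarith
  have kb : B ^ (1 / r) = B ^ (1 - 1 / q) * B ^ (1 - 1 / p) := by
    rw [← ENNReal.rpow_add_of_nonneg _ _ h2 h1]; congr 1; linarith
  have kk : K ^ (1 / q) = K ^ (1 - 1 / p) * K ^ (1 - 1 / r) := by
    rw [← ENNReal.rpow_add_of_nonneg _ _ h1 h3]; congr 1; linarith
  rw [ka, kb, kk]; ring

end YO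

theorem target_Young : Target_Young := by
  intro p q r hp hq hr h k F H hk hF hH
  have hp0 : (0 : ℝ) < p := by linarith
  have hq0 : (0 : ℝ) < q := by linarith
  have hr0 : (0 : ℝ) < r := by linarith
  have h1 : 0 ≤ 1 - 1 / p := by
    have : 1 / p ≤ 1 := by rw [div_le_one hp0]; exact hp
    linarith
  have h2 : 0 ≤ 1 - 1 / q := by
    have : 1 / q ≤ 1 := by rw [div_le_one hq0]; exact hq
    linarith
  have h3 : 0 ≤ 1 - 1 / r := by
    have : 1 / r ≤ 1 := by rw [div_le_one hr0]; exact hr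
    linarith
  set A := ∫⁻ x, F x ^ p with hA
  set B := ∫⁻ x, H x ^ r with hB
  set K := ∫⁻ x, k x ^ q with hK
  let f : Fin 3 → ℝ × ℝ → ℝ≥0∞ := ![fun z => F z.2 ^ p * H z.1 ^ r,
    fun z => k (z.1 - z.2) ^ q * H z.1 ^ r, fun z => k (z.1 - z.2) ^ q * F z.2 ^ p]
  let w : Fin 3 → ℝ := ![1 - 1 / q, 1 - 1 / p, 1 - 1 / r]
  have mF : Measurable fun z : ℝ × ℝ => F z.2 ^ p := (hF.comp measurable_snd).pow_const p
  have mH : Measurable fun z : ℝ × ℝ => H z.1 ^ r := (hH.comp measurable_fst).pow_const r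
  have mk : Measurable fun z : ℝ × ℝ => k (z.1 - z.2) ^ q :=
    (hk.comp (measurable_fst.sub measurable_snd)).pow_const q
  have hf : ∀ i ∈ (Finset.univ : Finset (Fin 3)),
      AEMeasurable (f i) ((volume : Measure ℝ).prod volume) := by
    intro i _
    fin_cases i
    · exact (mF.mul mH).aemeasurable
    · exact (mk.mul mH).aemeasurable
    · exact (mk.mul mF).aemeasurable
  have hw : ∑ i ∈ (Finset.univ : Finset (Fin 3)), w i = 1 := by
    simp only [Fin.sum_univ_three]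
    show (1 - 1 / q) + (1 - 1 / p) + (1 - 1 / r) = 1
    linarith
  have hw0 : ∀ i ∈ (Finset.univ : Finset (Fin 3)), 0 ≤ w i := by
    intro i _
    fin_cases i
    · exact h2
    · exact h1
    · exact h3
  have main := ENNReal.lintegral_prod_norm_pow_le (μ := (volume : Measure ℝ).prod volume)
    Finset.univ hf hw hw0
  simp only [Fin.prod_univ_three] at main
  have e0 : ∫⁻ z, f 0 z ∂((volume : Measure ℝ).prod volume) = A * B := by
    show ∫⁻ z : ℝ × ℝ, F z.2 ^ p * H z.1 ^ r ∂((volume : Measure ℝ).prod volume) = A * B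
    rw [lintegral_prod (fun z : ℝ × ℝ => F z.2 ^ p * H z.1 ^ r) (mF.mul mH).aemeasurable]
    have : ∀ x : ℝ, ∫⁻ y : ℝ, F y ^ p * H x ^ r = A * H x ^ r := fun x => by
      rw [lintegral_mul_const _ (hF.pow_const p)]
    simp only [this]
    rw [lintegral_const_mul _ (hH.pow_const r)]
  have e1 : ∫⁻ z, f 1 z ∂((volume : Measure ℝ).prod volume) = K * B := by
    show ∫⁻ z : ℝ × ℝ, k (z.1 - z.2) ^ q * H z.1 ^ r ∂((volume : Measure ℝ).prod volume) = K * B
    rw [lintegral_prod (fun z : ℝ × ℝ => k (z.1 - z.2) ^ q * H z.1 ^ r)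
      (mk.mul mH).aemeasurable]
    have : ∀ x : ℝ, ∫⁻ y : ℝ, k (x - y) ^ q * H x ^ r = K * H x ^ r := fun x => by
      have hm : Measurable fun y : ℝ => k (x - y) ^ q :=
        (hk.comp (measurable_const.sub measurable_id)).pow_const q
      rw [lintegral_mul_const _ hm]
      congr 1
      exact lintegral_sub_left_eq_self (fun y => k y ^ q) x
    simp only [this]
    rw [lintegral_const_mul _ (hH.pow_const r)]
  have e2 : ∫⁻ z, f 2 z ∂((volume : Measure ℝ).prod volume) = K * A := by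
    show ∫⁻ z : ℝ × ℝ, k (z.1 - z.2) ^ q * F z.2 ^ p ∂((volume : Measure ℝ).prod volume) = K * A
    rw [lintegral_prod_symm (fun z : ℝ × ℝ => k (z.1 - z.2) ^ q * F z.2 ^ p)
      (mk.mul mF).aemeasurable]
    have : ∀ y : ℝ, ∫⁻ x : ℝ, k (x - y) ^ q * F y ^ p = K * F y ^ p := fun y => by
      have hm : Measurable fun x : ℝ => k (x - y) ^ q :=
        (hk.comp (measurable_id.sub measurable_const)).pow_const q
      rw [lintegral_mul_const _ hm]
      congr 1
      exact lintegral_sub_right_eq_self (fun x => k x ^ q) y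
    simp only [this]
    rw [lintegral_const_mul _ (hF.pow_const p)]
  rw [e0, e1, e2] at main
  have lhs : ∫⁻ t, ∫⁻ s, k (t - s) * F s * H t =
      ∫⁻ z, f 0 z ^ w 0 * f 1 z ^ w 1 * f 2 z ^ w 2 ∂((volume : Measure ℝ).prod volume) := by
    have : ∀ z : ℝ × ℝ, f 0 z ^ w 0 * f 1 z ^ w 1 * f 2 z ^ w 2 =
        k (z.1 - z.2) * F z.2 * H z.1 := fun z =>
      (YO.pt (k (z.1 - z.2)) (F z.2) (H z.1) p q r hp hq hr h).symm
    simp only [this]
    rw [lintegral_prod]
    exact (((hk.comp (measurable_fst.sub measurable_snd)).mul (hF.comp measurable_snd)).mul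
      (hH.comp measurable_fst)).aemeasurable
  rw [lhs]
  refine main.trans (le_of_eq ?_)
  exact YO.fin A B K p q r hp hq hr h

end Pool.Agent.HK
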