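import Pool.Agent.HK.Spec

/-!
# JOB Z: the weak derivative vanishes a.e. on the zero set
-/

open MeasureTheory Set Filter Topology
open scoped ENNReal NNReal InnerProductSpace

namespace Pool.Agent.HK

namespace ZeroAux

/-- The truncation `arctan (n t) / n`. -/
noncomputable def F (n t : ℝ) : ℝ := Real.arctan (n * t) / n

/-- Its derivative. -/
noncomputable def F' (n t : ℝ) : ℝ := 1 / (1 + (n * t) ^ 2)

lemma hasDerivAt_F {n : ℝ} (hn : 0 < n) (t : ℝ) : HasDerivAt (F n) (F' n t) t := by
  have h := (((hasDerivAt_id t).const_mul n).arctan).div_const n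
  refine h.congr_deriv ?_
  unfold F'
  simp only [id, mul_one]
  field_simp

lemma den_pos (n t : ℝ) : 0 < 1 + (n * t) ^ 2 := by positivity

lemma F'_nonneg (n t : ℝ) : 0 ≤ F' n t := by unfold F'; positivity

lemma F'_le_one (n t : ℝ) : F' n t ≤ 1 := by
  unfold F'
  rw [div_le_one (den_pos n t)]
  nlinarith [sq_nonneg (n * t)]

lemma abs_F'_le (n t : ℝ) : |F' n t| ≤ 1 := by
  rw [abs_of_nonneg (F'_nonneg n t)]
  exact F'_le_one n t

lemma abs_F_le {n : ℝ} (hn : 0 < n) (t : ℝ) : |F n t| ≤ 2 / n := by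
  unfold F
  rw [abs_div, abs_of_pos hn]
  apply div_le_div_of_nonneg_right _ hn.le
  rw [abs_le]
  have h1 := Real.arctan_lt_pi_div_two (n * t)
  have h2 := Real.neg_pi_div_two_lt_arctan (n * t)
  have h3 := Real.pi_le_four
  constructor <;> linarith

lemma deriv_F {n : ℝ} (hn : 0 < n) (t : ℝ) : deriv (F n) t = F' n t := (hasDerivAt_F hn t).deriv

lemma F_lip {n : ℝ} (hn : 0 < n) (s t : ℝ) : |F n s - F n t| ≤ |s - t| := by
  have h : LipschitzWith 1 (F n) := by
    apply lipschitzWith_of_nnnorm_deriv_le (fun x => (hasDerivAt_F hn x).differentiableAt)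
    intro x
    rw [deriv_F hn]
    have := abs_F'_le n x
    rw [← NNReal.coe_le_coe]
    simpa using this
  have := h.dist_le_mul s t
  simpa [Real.dist_eq] using this

lemma F'_lip {n : ℝ} (hn : 0 < n) (s t : ℝ) : |F' n s - F' n t| ≤ n * |s - t| := by
  unfold F'
  have hs := den_pos n s
  have ht := den_pos n t
  have e : 1 / (1 + (n * s) ^ 2) - 1 / (1 + (n * t) ^ 2) =
      (n * (t - s)) * ((n * t + n * s) / ((1 + (n * s) ^ 2) * (1 + (n * t) ^ 2))) := by
    field_simp
    ring
  rw [e, abs_mul]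
  have h1 : |n * (t - s)| = n * |s - t| := by rw [abs_mul, abs_of_pos hn, abs_sub_comm]
  rw [h1]
  have h2 : |(n * t + n * s) / ((1 + (n * s) ^ 2) * (1 + (n * t) ^ 2))| ≤ 1 := by
    rw [abs_div, abs_of_pos (mul_pos hs ht), div_le_one (mul_pos hs ht), abs_le]
    constructor
    · nlinarith [sq_nonneg (n * t + 1), sq_nonneg (n * s + 1), sq_nonneg ((n * s) * (n * t)),
        sq_nonneg (n * s), sq_nonneg (n * t)]
    · nlinarith [sq_nonneg (n * t - 1), sq_nonneg (n * s - 1), sq_nonneg ((n * s) * (n * t)),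
        sq_nonneg (n * s), sq_nonneg (n * t)]
  calc n * |s - t| * _ ≤ n * |s - t| * 1 := by
        apply mul_le_mul_of_nonneg_left h2; positivity
    _ = n * |s - t| := by ring

lemma F'_tendsto (t : ℝ) :
    Tendsto (fun k : ℕ => F' ((k : ℝ) + 1) t) atTop (𝓝 (if t = 0 then 1 else 0)) := by
  by_cases ht : t = 0
  · subst ht
    simp [F']
  · rw [if_neg ht]
    unfold F'
    have h1 : Tendsto (fun k : ℕ => ((k : ℝ) + 1)) atTop atTop :=
      tendsto_atTop_add_const_right _ _ tendsto_natCast_atTop_atTop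
    have h2 : Tendsto (fun k : ℕ => 1 + (((k : ℝ) + 1) * t) ^ 2) atTop atTop := by
      apply tendsto_atTop_add_const_left
      have h3 : Tendsto (fun k : ℕ => ((k : ℝ) + 1) ^ 2 * t ^ 2) atTop atTop :=
        (Tendsto.comp (tendsto_pow_atTop two_ne_zero) h1).atTop_mul_const (by positivity)
      refine h3.congr (fun k => by ring)
    simp only [one_div]
    exact h2.inv_tendsto_atTop

lemma F_cont {n : ℝ} : Continuous (F n) := by
  unfold F
  exact (Real.continuous_arctan.comp (continuous_const.mul continuous_id)).div_const n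

lemma F'_cont {n : ℝ} : Continuous (F' n) := by
  unfold F'
  exact continuous_const.div (by fun_prop) (fun t => (den_pos n t).ne')

set_option linter.unusedSectionVars false

variable {E : Type} [NormedAddCommGroup E] [NormedSpace ℝ E] [FiniteDimensional ℝ E]
    [MeasureSpace E] [BorelSpace E] [(volume : Measure E).IsAddHaarMeasure]

lemma cont_fderiv {ζ : E → ℝ} (hζ : IsTest ζ) (e : E) : Continuous (fun x => fderiv ℝ ζ x e) :=
  (hζ.1.continuous_fderiv (by simp)).clm_apply continuous_const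

lemma supp_fderiv {ζ : E → ℝ} (hζ : IsTest ζ) (e : E) :
    HasCompactSupport (fun x => fderiv ℝ ζ x e) :=
  hζ.2.fderiv_apply (𝕜 := ℝ) e

lemma cs {a b : E → ℝ} (ha : MemLp a 2 volume) (hb : MemLp b 2 volume) :
    |∫ x, a x * b x| ≤ (eLpNorm a 2 volume).toReal * (eLpNorm b 2 volume).toReal := by
  have h1 : eLpNorm (fun x => a x * b x) 1 volume ≤ 1 * eLpNorm a 2 volume * eLpNorm b 2 volume :=
    eLpNorm_le_eLpNorm_mul_eLpNorm_of_nnnorm (p := 2) (q := 2) (r := 1) ha.1 hb.1
      (fun s t => s * t) 1 (Eventually.of_forall fun x => by simp)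
  rw [one_mul] at h1
  have hfin : eLpNorm a 2 volume * eLpNorm b 2 volume ≠ ⊤ :=
    ENNReal.mul_ne_top ha.2.ne hb.2.ne
  have h2 : |∫ x, a x * b x| ≤ (eLpNorm (fun x => a x * b x) 1 volume).toReal := by
    have h3 : ‖∫ x, a x * b x‖ ≤ ∫ x, ‖a x * b x‖ := norm_integral_le_integral_norm _
    rw [Real.norm_eq_abs] at h3
    refine h3.trans (le_of_eq ?_)
    rw [eLpNorm_one_eq_lintegral_enorm]
    rw [integral_norm_eq_lintegral_enorm]
    exact ha.1.mul hb.1
  rw [← ENNReal.toReal_mul]
  exact h2.trans (ENNReal.toReal_mono hfin h1)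

lemma int_mul {a b : E → ℝ} (ha : MemLp a 2 volume) (hb : MemLp b 2 volume) :
    Integrable (fun x => a x * b x) := by
  have := MemLp.integrable_mul (p := 2) (q := 2) ha hb
  exact this

lemma memLp_cc {ζ : E → ℝ} (h1 : Continuous ζ) (h2 : HasCompactSupport ζ) (p : ℝ≥0∞) :
    MemLp ζ p volume := h1.memLp_of_hasCompactSupport h2

/-- Integration by parts for `F n ∘ f`. -/
lemma step1 {n : ℝ} (hn : 0 < n) {f ζ : E → ℝ} (hf : IsTest f) (hζ : IsTest ζ) (e : E) :
    ∫ x, F n (f x) * fderiv ℝ ζ x e = - ∫ x, F' n (f x) * fderiv ℝ f x e * ζ x := by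
  have hd : ∀ x, HasFDerivAt (fun x => F n (f x)) (F' n (f x) • fderiv ℝ f x) x := by
    intro x
    have h1 := hasDerivAt_F hn (f x)
    have h2 : HasFDerivAt f (fderiv ℝ f x) x :=
      ((hf.1.differentiable (by simp)) x).hasFDerivAt
    exact h1.comp_hasFDerivAt x h2
  have hfd : ∀ x, fderiv ℝ (fun x => F n (f x)) x e = F' n (f x) * fderiv ℝ f x e := by
    intro x
    rw [(hd x).fderiv]
    simp
  have hc1 : Continuous (fun x => F n (f x)) := F_cont.comp hf.1.continuous
  have hc2 : Continuous (fun x => F' n (f x) * fderiv ℝ f x e) :=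
    (F'_cont.comp hf.1.continuous).mul (cont_fderiv hf e)
  have key := integral_mul_fderiv_eq_neg_fderiv_mul_of_integrable (μ := (volume : Measure E))
    (f := fun x => F n (f x)) (g := ζ) (v := e) ?_ ?_ ?_ ?_ ?_
  · rw [key]
    congr 1
    apply integral_congr_ae
    filter_upwards with x
    rw [hfd]
  · simp only [hfd]
    exact (hc2.mul hζ.1.continuous).integrable_of_hasCompactSupport hζ.2.mul_left
  · exact (hc1.mul (cont_fderiv hζ e)).integrable_of_hasCompactSupport (supp_fderiv hζ e).mul_left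
  · exact (hc1.mul hζ.1.continuous).integrable_of_hasCompactSupport hζ.2.mul_left
  · intro x _
    exact (hd x).differentiableAt
  · intro x _
    exact (hζ.1.differentiable (by simp)) x

/-- The limit of `step1`. -/
lemma step2 {n : ℝ} (hn : 0 < n) (hA : Target_Approx) {u g : E → ℝ} {e : E}
    (hu : MemLp u 2 volume) (hg : MemLp g 2 volume) (hw : WeakDeriv u e g)
    {ζ : E → ℝ} (hζ : IsTest ζ) :
    ∫ x, F n (u x) * fderiv ℝ ζ x e = - ∫ x, F' n (u x) * (g x * ζ x) := by
  obtain ⟨B, hB⟩ := hζ.2.exists_bound_of_continuous hζ.1.continuous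
  -- the relevant functions
  have hζ2 : MemLp ζ 2 volume := memLp_cc hζ.1.continuous hζ.2 2
  have hdζ2 : MemLp (fun x => fderiv ℝ ζ x e) 2 volume :=
    memLp_cc (cont_fderiv hζ e) (supp_fderiv hζ e) 2
  have hgζ : MemLp (fun x => g x * ζ x) 2 volume := by
    refine MemLp.of_le_mul (c := B) hg (hg.1.mul hζ2.1) ?_
    filter_upwards with x
    rw [norm_mul, mul_comm]
    exact mul_le_mul_of_nonneg_right (hB x) (norm_nonneg _)
  have hFu : ∀ {w : E → ℝ}, MemLp w 2 volume → MemLp (fun x => F n (w x)) 2 volume := by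
    intro w hw
    refine hw.mono (F_cont.comp_aestronglyMeasurable hw.1) ?_
    filter_upwards with x
    have := F_lip hn (w x) 0
    have h0 : F n 0 = 0 := by simp [F]
    rw [h0, sub_zero, sub_zero] at this
    exact this
  have hF'm : ∀ {w : E → ℝ}, MemLp w 2 volume → ∀ {h : E → ℝ}, MemLp h 2 volume →
      MemLp (fun x => F' n (w x) * h x) 2 volume := by
    intro w hw h hh
    refine hh.mono ((F'_cont.comp_aestronglyMeasurable hw.1).mul hh.1) ?_
    filter_upwards with x
    rw [norm_mul]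
    calc ‖F' n (w x)‖ * ‖h x‖ ≤ 1 * ‖h x‖ :=
          mul_le_mul_of_nonneg_right (abs_F'_le n _) (norm_nonneg _)
      _ = ‖h x‖ := one_mul _
  set C : ℝ := (eLpNorm (fun x => fderiv ℝ ζ x e) 2 volume).toReal + (eLpNorm ζ 2 volume).toReal
    + n * (eLpNorm (fun x => g x * ζ x) 2 volume).toReal with hC
  have hC0 : 0 ≤ C := by positivity
  have main : ∀ δ : ℝ, 0 < δ →
      |(∫ x, F n (u x) * fderiv ℝ ζ x e) + ∫ x, F' n (u x) * (g x * ζ x)| ≤ δ * C := by
    intro δ hδ
    obtain ⟨f, hf, hf1, hf2⟩ := hA E Unit (fun _ => e) u (fun _ => g)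
      ⟨hu, fun _ => hg, fun _ => hw⟩ (ENNReal.ofReal δ) (by simpa using hδ)
    replace hf2 := hf2 ()
    have hfm : MemLp f 2 volume := memLp_cc hf.1.continuous hf.2 2
    have hdf : MemLp (fun x => fderiv ℝ f x e) 2 volume :=
      memLp_cc (cont_fderiv hf e) (supp_fderiv hf e) 2
    have huf : MemLp (fun x => u x - f x) 2 volume := hu.sub hfm
    have hgf : MemLp (fun x => g x - fderiv ℝ f x e) 2 volume := hg.sub hdf
    have n1 : (eLpNorm (fun x => u x - f x) 2 volume).toReal ≤ δ :=
      ENNReal.toReal_le_of_le_ofReal hδ.le hf1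
    have n2 : (eLpNorm (fun x => g x - fderiv ℝ f x e) 2 volume).toReal ≤ δ :=
      ENNReal.toReal_le_of_le_ofReal hδ.le hf2
    have s1 := step1 hn hf hζ e
    -- three differences
    have hFF : MemLp (fun x => F n (u x) - F n (f x)) 2 volume := (hFu hu).sub (hFu hfm)
    have hFF' : MemLp (fun x => F' n (u x) - F' n (f x)) 2 volume := by
      refine MemLp.of_le_mul (c := n) huf
        ((F'_cont.comp_aestronglyMeasurable hu.1).sub (F'_cont.comp_aestronglyMeasurable hfm.1)) ?_
      filter_upwards with x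
      exact F'_lip hn _ _
    have hFg : MemLp (fun x => F' n (f x) * (g x - fderiv ℝ f x e)) 2 volume := hF'm hfm hgf
    have e1 : (∫ x, F n (u x) * fderiv ℝ ζ x e) + ∫ x, F' n (u x) * (g x * ζ x) =
        (∫ x, (F n (u x) - F n (f x)) * fderiv ℝ ζ x e)
        + (∫ x, (F' n (f x) * (g x - fderiv ℝ f x e)) * ζ x)
        + ∫ x, (F' n (u x) - F' n (f x)) * (g x * ζ x) := by
      have i1 : Integrable (fun x => F n (u x) * fderiv ℝ ζ x e) := int_mul (hFu hu) hdζ2
      have i2 : Integrable (fun x => F n (f x) * fderiv ℝ ζ x e) := int_mul (hFu hfm) hdζ2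
      have i3 : Integrable (fun x => (F' n (f x) * (g x - fderiv ℝ f x e)) * ζ x) :=
        int_mul hFg hζ2
      have i4 : Integrable (fun x => (F' n (u x) - F' n (f x)) * (g x * ζ x)) :=
        int_mul hFF' hgζ
      have i5 : Integrable (fun x => F' n (f x) * fderiv ℝ f x e * ζ x) :=
        int_mul (hF'm hfm hdf) hζ2
      have j1 : ∫ x, (F n (u x) - F n (f x)) * fderiv ℝ ζ x e =
          (∫ x, F n (u x) * fderiv ℝ ζ x e) - ∫ x, F n (f x) * fderiv ℝ ζ x e := by
        rw [← integral_sub i1 i2]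
        congr 1
        funext x
        ring
      have j2 : ∫ x, F' n (u x) * (g x * ζ x) =
          (∫ x, (F' n (f x) * (g x - fderiv ℝ f x e)) * ζ x)
          + (∫ x, (F' n (u x) - F' n (f x)) * (g x * ζ x))
          + ∫ x, F' n (f x) * fderiv ℝ f x e * ζ x := by
        have i34 : Integrable (fun x => (F' n (f x) * (g x - fderiv ℝ f x e)) * ζ x +
            (F' n (u x) - F' n (f x)) * (g x * ζ x)) := i3.add i4
        rw [← integral_add i3 i4, ← integral_add i34 i5]
        congr 1
        funext x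
        ring
      rw [j1, j2, s1]
      ring
    rw [e1]
    have b1 : |∫ x, (F n (u x) - F n (f x)) * fderiv ℝ ζ x e| ≤
        δ * (eLpNorm (fun x => fderiv ℝ ζ x e) 2 volume).toReal := by
      refine (cs hFF hdζ2).trans (mul_le_mul_of_nonneg_right ?_ ENNReal.toReal_nonneg)
      refine le_trans (ENNReal.toReal_mono huf.2.ne ?_) n1
      apply eLpNorm_mono
      intro x
      exact F_lip hn _ _
    have b2 : |∫ x, (F' n (f x) * (g x - fderiv ℝ f x e)) * ζ x| ≤
        δ * (eLpNorm ζ 2 volume).toReal := by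
      refine (cs hFg hζ2).trans (mul_le_mul_of_nonneg_right ?_ ENNReal.toReal_nonneg)
      refine le_trans (ENNReal.toReal_mono hgf.2.ne ?_) n2
      apply eLpNorm_mono
      intro x
      rw [norm_mul]
      calc ‖F' n (f x)‖ * ‖g x - fderiv ℝ f x e‖ ≤ 1 * ‖g x - fderiv ℝ f x e‖ :=
            mul_le_mul_of_nonneg_right (abs_F'_le n _) (norm_nonneg _)
        _ = _ := one_mul _
    have b3 : |∫ x, (F' n (u x) - F' n (f x)) * (g x * ζ x)| ≤
        (n * δ) * (eLpNorm (fun x => g x * ζ x) 2 volume).toReal := by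
      refine (cs hFF' hgζ).trans (mul_le_mul_of_nonneg_right ?_ ENNReal.toReal_nonneg)
      have b4 : eLpNorm (fun x => F' n (u x) - F' n (f x)) 2 volume ≤
          ENNReal.ofReal n * eLpNorm (fun x => u x - f x) 2 volume := by
        apply eLpNorm_le_mul_eLpNorm_of_ae_le_mul
        filter_upwards with x
        exact F'_lip hn _ _
      have b5 : (eLpNorm (fun x => F' n (u x) - F' n (f x)) 2 volume).toReal ≤
          n * (eLpNorm (fun x => u x - f x) 2 volume).toReal := by
        refine (ENNReal.toReal_mono (ENNReal.mul_ne_top ENNReal.ofReal_ne_top huf.2.ne)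
          b4).trans (le_of_eq ?_)
        rw [ENNReal.toReal_mul, ENNReal.toReal_ofReal hn.le]
      exact b5.trans (mul_le_mul_of_nonneg_left n1 hn.le)
    calc |_| ≤ |∫ x, (F n (u x) - F n (f x)) * fderiv ℝ ζ x e|
          + |∫ x, (F' n (f x) * (g x - fderiv ℝ f x e)) * ζ x|
          + |∫ x, (F' n (u x) - F' n (f x)) * (g x * ζ x)| := abs_add_three _ _ _
      _ ≤ δ * (eLpNorm (fun x => fderiv ℝ ζ x e) 2 volume).toReal
          + δ * (eLpNorm ζ 2 volume).toReal
          + (n * δ) * (eLpNorm (fun x => g x * ζ x) 2 volume).toReal := by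
            exact add_le_add (add_le_add b1 b2) b3
      _ = δ * C := by rw [hC]; ring
  have hzero : (∫ x, F n (u x) * fderiv ℝ ζ x e) + ∫ x, F' n (u x) * (g x * ζ x) = 0 := by
    by_contra hne
    set A := |(∫ x, F n (u x) * fderiv ℝ ζ x e) + ∫ x, F' n (u x) * (g x * ζ x)| with hAdef
    have hApos : 0 < A := abs_pos.mpr hne
    have := main (A / (2 * (C + 1))) (by positivity)
    have h2 : A / (2 * (C + 1)) * C < A := by
      rw [div_mul_eq_mul_div, div_lt_iff₀ (by positivity)]
      nlinarith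
    linarith
  linarith

/-- The limit `n → ∞` in `step2`. -/
lemma step3 (hA : Target_Approx) {u g : E → ℝ} {e : E}
    (hu : MemLp u 2 volume) (hg : MemLp g 2 volume) (hw : WeakDeriv u e g)
    {ζ : E → ℝ} (hζ : IsTest ζ) :
    ∫ x, (if u x = 0 then 1 else 0) * (g x * ζ x) = 0 := by
  have hζ2 : MemLp ζ 2 volume := memLp_cc hζ.1.continuous hζ.2 2
  have hgζ : Integrable (fun x => g x * ζ x) := int_mul hg hζ2
  have hdζ : Integrable (fun x => fderiv ℝ ζ x e) :=
    (cont_fderiv hζ e).integrable_of_hasCompactSupport (supp_fderiv hζ e)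
  have l1 : Tendsto (fun k : ℕ => ∫ x, F' ((k : ℝ) + 1) (u x) * (g x * ζ x)) atTop
      (𝓝 (∫ x, (if u x = 0 then 1 else 0) * (g x * ζ x))) := by
    apply tendsto_integral_of_dominated_convergence (fun x => ‖g x * ζ x‖)
    · intro k
      exact (F'_cont.comp_aestronglyMeasurable hu.1).mul hgζ.1
    · exact hgζ.norm
    · intro k
      filter_upwards with x
      rw [norm_mul]
      calc ‖F' ((k : ℝ) + 1) (u x)‖ * ‖g x * ζ x‖ ≤ 1 * ‖g x * ζ x‖ :=
            mul_le_mul_of_nonneg_right (abs_F'_le _ _) (norm_nonneg _)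
        _ = _ := one_mul _
    · filter_upwards with x
      exact (F'_tendsto (u x)).mul_const _
  have l2 : Tendsto (fun k : ℕ => ∫ x, F' ((k : ℝ) + 1) (u x) * (g x * ζ x)) atTop (𝓝 0) := by
    have e2 : ∀ k : ℕ, ∫ x, F' ((k : ℝ) + 1) (u x) * (g x * ζ x) =
        - ∫ x, F ((k : ℝ) + 1) (u x) * fderiv ℝ ζ x e := by
      intro k
      have := step2 (n := (k : ℝ) + 1) (by positivity) hA hu hg hw hζ
      linarith
    apply squeeze_zero_norm (a := fun k : ℕ => 2 / ((k : ℝ) + 1) * ∫ x, ‖fderiv ℝ ζ x e‖)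
    · intro k
      rw [e2, norm_neg, ← integral_const_mul]
      apply norm_integral_le_of_norm_le (hdζ.norm.const_mul _)
      filter_upwards with x
      rw [norm_mul]
      exact mul_le_mul_of_nonneg_right (abs_F_le (by positivity) _) (norm_nonneg _)
    · have h3 : Tendsto (fun k : ℕ => 2 * (1 / ((k : ℝ) + 1)) * ∫ x, ‖fderiv ℝ ζ x e‖) atTop
          (𝓝 (2 * 0 * ∫ x, ‖fderiv ℝ ζ x e‖)) :=
        ((tendsto_one_div_add_atTop_nhds_zero_nat).const_mul 2).mul_const _
      simp only [mul_zero, zero_mul] at h3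
      refine h3.congr (fun k => by ring)
  exact tendsto_nhds_unique l1 l2

end ZeroAux

/-- The weak derivative vanishes a.e. on the zero set. -/
theorem target_Zero (hA : Target_Approx) : Target_Zero := by
  intro E _ _ _ _ _ _ e u g hu hg hw
  have hloc : LocallyIntegrable (fun x => (if u x = 0 then (1 : ℝ) else 0) * g x) volume := by
    have hgl : LocallyIntegrable g volume := hg.locallyIntegrable (by norm_num)
    apply hgl.mono
    · apply AEStronglyMeasurable.mul _ hg.1
      have hm : Measurable (fun t : ℝ => if t = 0 then (1 : ℝ) else 0) :=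
        Measurable.ite (measurableSet_singleton 0) measurable_const measurable_const
      exact (hm.comp_aemeasurable hu.1.aemeasurable).aestronglyMeasurable
    · filter_upwards with x
      by_cases h : u x = 0 <;> simp [h]
  have h0 := ae_eq_zero_of_integral_contDiff_smul_eq_zero hloc ?_
  · filter_upwards [h0] with x hx hux
    simpa [hux] using hx
  · intro ζ hζ1 hζ2
    have := ZeroAux.step3 hA hu hg hw (ζ := ζ) ⟨hζ1, hζ2⟩
    refine Eq.trans ?_ this
    congr 1
    funext x
    simp only [smul_eq_mul]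
    ring

end Pool.Agent.HK
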